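import Mathlib

/-!
# MP_20906e_al : shared definitions (helper59)

`acl k S` is the relative algebraic closure of `k(S)` in `Ω`.
`jac H` is the Jacobian matrix of a polynomial map.
-/

namespace Pool.Agent.HDP

open MvPolynomial

/-- Relative algebraic closure of `k(S)` in `Ω`. -/
noncomputable def acl (k : Type*) {Ω : Type*} [Field k] [Field Ω] [Algebra k Ω] (S : Set Ω) :
    IntermediateField k Ω :=
  (algebraicClosure (IntermediateField.adjoin k S) Ω).restrictScalars k

/-- Jacobian matrix: entry `(i, j)` is the derivative of `H i` with respect to `X j`. -/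
noncomputable def jac {k : Type*} [CommRing k] {n : ℕ} (H : Fin n → MvPolynomial (Fin n) k) :
    Matrix (Fin n) (Fin n) (MvPolynomial (Fin n) k) :=
  Matrix.of fun i j => pderiv j (H i)

/-- The hypotheses of the homogeneous dependence problem in dimension `n` and degree `d`. -/
structure Nil (k : Type*) [CommRing k] (n d : ℕ) (H : Fin n → MvPolynomial (Fin n) k) : Prop where
  hom : ∀ i, (H i).IsHomogeneous d
  nilp : IsNilpotent (jac H)

end Pool.Agent.HDP
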