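import Mathlib
import Pool.Agent.Lib.MP_20906e_al.Defs

/-!
# MP_20906e_al, piece Q1: closure API (helper16)
-/

namespace Pool.Agent.HDP
open MvPolynomial

section Acl
variable {k Ω : Type*} [Field k] [Field Ω] [Algebra k Ω]

/-! ## Q1: closure API -/
theorem mem_acl_iff {S : Set Ω} {z : Ω} :
    z ∈ acl k S ↔ IsAlgebraic (IntermediateField.adjoin k S) z := by
  rw [acl, IntermediateField.mem_restrictScalars]
  exact mem_algebraicClosure_iff

open IntermediateField.algebraAdjoinAdjoin in
theorem mem_acl_iff_adjoin {S : Set Ω} {z : Ω} :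
    z ∈ acl k S ↔ IsAlgebraic (Algebra.adjoin k S) z := by
  rw [mem_acl_iff]
  exact (IsFractionRing.isAlgebraic_iff (Algebra.adjoin k S) (IntermediateField.adjoin k S) Ω).symm

theorem coe_acl_eq_closure (S : Set Ω) :
    (acl k S : Set Ω) = (AlgebraicIndependent.matroid k Ω).closure S := by
  rw [AlgebraicIndependent.matroid_closure_eq]
  ext z
  rw [SetLike.mem_coe, mem_acl_iff_adjoin]
  rfl

theorem mem_acl_iff_closure {S : Set Ω} {z : Ω} :
    z ∈ acl k S ↔ z ∈ (AlgebraicIndependent.matroid k Ω).closure S := by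
  rw [← coe_acl_eq_closure, SetLike.mem_coe]

theorem subset_acl (S : Set Ω) : S ⊆ (acl k S : Set Ω) := by
  rw [coe_acl_eq_closure]
  exact Matroid.subset_closure _ _ (by simp)

theorem acl_mono {S T : Set Ω} (h : S ⊆ T) : acl k S ≤ acl k T := by
  intro z hz
  rw [mem_acl_iff_closure] at hz ⊢
  exact Matroid.closure_subset_closure _ h hz

theorem acl_le_iff {S T : Set Ω} : acl k S ≤ acl k T ↔ S ⊆ (acl k T : Set Ω) := by
  constructor
  · intro h z hz
    exact h (subset_acl S hz)
  · intro h z hz
    rw [coe_acl_eq_closure] at h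
    rw [mem_acl_iff_closure] at hz ⊢
    exact Matroid.closure_subset_closure_of_subset_closure h hz

theorem mem_acl_of_isAlgebraic {S : Set Ω} {z : Ω} (h : IsAlgebraic (acl k S) z) :
    z ∈ acl k S := by
  have h' : IsAlgebraic (algebraicClosure (IntermediateField.adjoin k S) Ω) z := h
  have h2 : z ∈ algebraicClosure (algebraicClosure (IntermediateField.adjoin k S) Ω) Ω :=
    mem_algebraicClosure_iff.2 h'
  rw [algebraicClosure.algebraicClosure_eq_bot] at h2
  obtain ⟨y, hy⟩ := IntermediateField.mem_bot.1 h2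
  rw [← hy]
  exact y.2

theorem mem_acl_of_root {S : Set Ω} (p : Polynomial Ω) (hp : p ≠ 0)
    (hc : ∀ i, p.coeff i ∈ acl k S) {z : Ω} (hz : p.eval z = 0) : z ∈ acl k S := by
  apply mem_acl_of_isAlgebraic
  have hl : p ∈ Polynomial.lifts (algebraMap (acl k S) Ω) := by
    rw [Polynomial.lifts_iff_coeff_lifts]
    intro n
    exact ⟨⟨p.coeff n, hc n⟩, rfl⟩
  obtain ⟨q, hq⟩ := (Polynomial.mem_lifts p).1 hl
  refine ⟨q, ?_, ?_⟩
  · rintro rfl
    exact hp (by rw [← hq, Polynomial.map_zero])
  · rw [Polynomial.aeval_def, ← Polynomial.eval_map, hq, hz]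

theorem mem_acl_of_pow {S : Set Ω} {z : Ω} {m : ℕ} (hm : m ≠ 0) (h : z ^ m ∈ acl k S) :
    z ∈ acl k S := by
  refine mem_acl_of_root (k := k) (Polynomial.X ^ m - Polynomial.C (z ^ m))
    (Polynomial.X_pow_sub_C_ne_zero (Nat.pos_of_ne_zero hm) _) ?_ (by simp)
  intro i
  rw [Polynomial.coeff_sub, Polynomial.coeff_X_pow, Polynomial.coeff_C]
  refine sub_mem ?_ ?_
  · split_ifs
    · exact one_mem _
    · exact zero_mem _
  · split_ifs
    · exact h
    · exact zero_mem _

theorem acl_isAlgClosed [IsAlgClosed Ω] (S : Set Ω) : IsAlgClosed (acl k S) := by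
  have : IsAlgClosed (algebraicClosure (IntermediateField.adjoin k S) Ω) :=
    (algebraicClosure.isAlgClosure (IntermediateField.adjoin k S) Ω).1
  exact this

/-- a polynomial over `acl k S`, not constant, splits with roots in `acl k S`. -/
theorem exists_root_acl [IsAlgClosed Ω] {S : Set Ω} (p : Polynomial Ω) (hd : p.degree ≠ 0)
    (hc : ∀ i, p.coeff i ∈ acl k S) : ∃ z ∈ acl k S, p.eval z = 0 := by
  by_cases hp : p = 0
  · exact ⟨0, zero_mem _, by simp [hp]⟩
  · obtain ⟨z, hz⟩ := IsAlgClosed.exists_root p hd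
    exact ⟨z, mem_acl_of_root p hp hc hz, hz⟩

theorem acl_exchange {S : Set Ω} {y z : Ω} (h : z ∈ acl k (insert y S)) (h' : z ∉ acl k S) :
    y ∈ acl k (insert z S) := by
  rw [mem_acl_iff_closure] at h h' ⊢
  exact Matroid.mem_closure_insert h' h

theorem acl_empty [IsAlgClosed k] (z : Ω) : z ∈ acl k (∅ : Set Ω) ↔ ∃ c : k, algebraMap k Ω c = z := by
  constructor
  · intro h
    rw [mem_acl_iff] at h
    have hal : Algebra.IsAlgebraic k (IntermediateField.adjoin k (∅ : Set Ω)) :=
      (IntermediateField.isAlgebraic_adjoin_iff_isAlgebraic k Ω).2 (fun x hx => absurd hx (Set.notMem_empty x))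
    have h2 : IsAlgebraic k z := IsAlgebraic.restrictScalars k h
    have h3 : z ∈ algebraicClosure k Ω := mem_algebraicClosure_iff.2 h2
    rw [IntermediateField.eq_bot_of_isAlgClosed_of_isAlgebraic (algebraicClosure k Ω)] at h3
    exact IntermediateField.mem_bot.1 h3
  · rintro ⟨c, rfl⟩
    exact (acl k (∅ : Set Ω)).algebraMap_mem c

theorem transcendental_iff_notMem_acl {S : Set Ω} {z : Ω} :
    Transcendental (acl k S) z ↔ z ∉ acl k S := by
  rw [Transcendental]
  refine not_congr ⟨mem_acl_of_isAlgebraic, fun h => ?_⟩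
  exact isAlgebraic_algebraMap (⟨z, h⟩ : acl k S)

/-- algebraic independence through closures -/
theorem algInd_iff_notMem {ι : Type*} (f : ι → Ω) :
    AlgebraicIndependent k f ↔ ∀ i, f i ∉ acl k (f '' {i}ᶜ) := by
  constructor
  · intro h i hi
    rw [mem_acl_iff_adjoin] at hi
    exact (h.transcendental_adjoin (s := {i}ᶜ) (i := i) (by simp)) hi
  · intro h
    have hinj : Function.Injective f := by
      intro i j hij
      by_contra hne
      apply h i
      apply subset_acl
      exact ⟨j, fun h' => hne h'.symm, hij.symm⟩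
    refine AlgebraicIndependent.of_subtype_range hinj ?_
    have key : (AlgebraicIndependent.matroid k Ω).Indep (Set.range f) := by
      rw [Matroid.indep_iff_forall_notMem_closure_sdiff (by simp)]
      rintro _ ⟨i, rfl⟩ hi
      apply h i
      rw [mem_acl_iff_closure]
      have hs : Set.range f \ {f i} = f '' {i}ᶜ := by
        ext z
        constructor
        · rintro ⟨⟨j, rfl⟩, hj⟩
          exact ⟨j, fun h' => hj (by rw [h']; rfl), rfl⟩
        · rintro ⟨j, hj, rfl⟩
          exact ⟨⟨j, rfl⟩, fun h' => hj (hinj h')⟩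
      rwa [hs] at hi
    exact AlgebraicIndependent.matroid_indep_iff.1 key

theorem isTB_iff {ι : Type*} (f : ι → Ω) :
    IsTranscendenceBasis k f ↔ AlgebraicIndependent k f ∧ ∀ z, z ∈ acl k (Set.range f) := by
  rw [isTranscendenceBasis_iff_algebraicIndependent_isAlgebraic, Algebra.isAlgebraic_def]
  simp_rw [mem_acl_iff_adjoin]

/-- all transcendence bases indexed by `Fin n` : an algebraically independent family of the right size
is a transcendence basis -/
theorem isTB_of_algInd {n : ℕ} {f g : Fin n → Ω} (hf : IsTranscendenceBasis k f)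
    (hg : AlgebraicIndependent k g) : IsTranscendenceBasis k g := by
  have h := hf.lift_cardinalMk_eq_trdeg
  refine hg.isTranscendenceBasis_of_lift_trdeg_le_of_finite ?_
  rw [h]

theorem not_algInd_of_lt {n m : ℕ} {f : Fin n → Ω} {g : Fin m → Ω} (hf : ∀ i, g i ∈ acl k (Set.range f))
    (hnm : n < m) : ¬ AlgebraicIndependent k g := by
  intro hg
  have hI : (AlgebraicIndependent.matroid k Ω).Indep (Set.range g) :=
    AlgebraicIndependent.matroid_indep_iff.2 hg.to_subtype_range
  have h1 : Set.range g ⊆ (AlgebraicIndependent.matroid k Ω).closure (Set.range f) := by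
    rintro _ ⟨i, rfl⟩
    exact mem_acl_iff_closure.1 (hf i)
  have h2 := hI.encard_le_eRk_of_subset h1
  rw [Matroid.eRk_closure_eq] at h2
  have h3 := h2.trans (Matroid.eRk_le_encard _ _)
  have h4 : (Set.range f).encard ≤ n := by
    rw [← Set.image_univ]
    refine (Set.encard_image_le _ _).trans ?_
    simp
  have h5 : (m : ℕ∞) ≤ (Set.range g).encard := by
    refine le_trans ?_ hg.injective.encard_range
    simp
  have h6 : (m : ℕ∞) ≤ n := h5.trans (h3.trans h4)
  exact absurd (Nat.cast_le.1 h6) (not_le.2 hnm)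
end Acl

end Pool.Agent.HDP
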