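import Mathlib
import Pool.Agent.Lib.MP_20906e_al.Defs

/-!
Q4: common zeros of coprime polynomials.
-/

namespace Pool.Agent.HDP
open MvPolynomial

/-- relatively prime polynomials over a factorial domain have no common generic zero -/
private theorem cp_gauss {R Ω : Type*} [CommRing R] [IsDomain R] [UniqueFactorizationMonoid R]
    [Field Ω] (φ : R →+* Ω) (hφ : Function.Injective φ) (x : Ω) {f g : Polynomial R}
    (hfg : IsRelPrime f g) (hf0 : f ≠ 0) (hf : f.eval₂ φ x = 0) (hg : g.eval₂ φ x = 0) : False := by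
  classical
  have hN : Nonempty (NormalizedGCDMonoid R) := inferInstance
  let _ := hN.some
  -- a prime factor vanishing at `x`
  obtain ⟨s, hs, u, hu⟩ := UniqueFactorizationMonoid.exists_prime_factors f hf0
  have h1 : (s.map (fun p => Polynomial.eval₂ φ x p)).prod = 0 := by
    have h2 : Polynomial.eval₂RingHom φ x (s.prod * u) = 0 := by rw [hu]; exact hf
    rw [map_mul, mul_eq_zero] at h2
    rcases h2 with h2 | h2
    · rw [map_multiset_prod] at h2
      exact h2
    · exact absurd h2 (IsUnit.map (Polynomial.eval₂RingHom φ x) u.isUnit).ne_zero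
  rw [Multiset.prod_eq_zero_iff, Multiset.mem_map] at h1
  obtain ⟨π, hπs, hπ⟩ := h1
  have hπp := hs π hπs
  have hπf : π ∣ f := by
    rw [← hu]
    exact (Multiset.dvd_prod hπs).mul_right _
  have hπg : ¬ π ∣ g := fun h => hπp.not_isUnit (hfg hπf h)
  have hprim : π.IsPrimitive := by
    intro r hr
    obtain ⟨b, hb⟩ := hr
    rcases hπp.irreducible.isUnit_or_isUnit hb with h | h
    · exact Polynomial.isUnit_C.1 h
    · exfalso
      obtain ⟨c, hc, rfl⟩ := Polynomial.isUnit_iff.1 h
      rw [hb, ← Polynomial.C_mul, Polynomial.eval₂_C] at hπ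
      have : r * c = 0 := hφ (by rw [hπ, map_zero])
      apply hπp.ne_zero
      rw [hb, ← Polynomial.C_mul, this, Polynomial.C_0]
  have hirr := (hprim.irreducible_iff_irreducible_map_fraction_map (K := FractionRing R)).1
    hπp.irreducible
  have hndvd : ¬ π.map (algebraMap R (FractionRing R)) ∣ g.map (algebraMap R (FractionRing R)) := by
    intro hd
    exact hπg (hprim.dvd_of_fraction_map_dvd_fraction_map hd)
  obtain ⟨a, b, hab⟩ := (hirr.coprime_iff_not_dvd).2 hndvd
  let ψ : FractionRing R →+* Ω := IsFractionRing.lift hφ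
  have hψ : ψ.comp (algebraMap R (FractionRing R)) = φ := by
    ext r
    exact IsFractionRing.lift_algebraMap hφ r
  have h3 := congrArg (Polynomial.eval₂ ψ x) hab
  rw [Polynomial.eval₂_add, Polynomial.eval₂_mul, Polynomial.eval₂_mul, Polynomial.eval₂_map,
    Polynomial.eval₂_map, hψ, hπ, hg, mul_zero, mul_zero, add_zero, Polynomial.eval₂_one] at h3
  exact zero_ne_one h3

section CP
variable {k Ω : Type*} [Field k] [Field Ω] [Algebra k Ω]

/-! ## Q4: coprime pairs -/
theorem coprime_pair_zero {m : ℕ} {P Q : MvPolynomial (Fin m) k} (hPQ : IsRelPrime P Q)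
    {z : Fin m → Ω} (hP : aeval z P = 0) (hQ : aeval z Q = 0) (i : Fin m) :
    ¬ AlgebraicIndependent k (fun j : {j // j ≠ i} => z j) := by
  intro hind
  have hP0 : P ≠ 0 := by
    rintro rfl
    have hu : IsUnit Q := hPQ (dvd_zero _) dvd_rfl
    exact (hu.map (aeval z : MvPolynomial (Fin m) k →ₐ[k] Ω)).ne_zero hQ
  let e : MvPolynomial (Fin m) k ≃ₐ[k] Polynomial (MvPolynomial {j // j ≠ i} k) :=
    (renameEquiv k (Equiv.optionSubtypeNe i).symm).trans (optionEquivLeft k {j // j ≠ i})
  let φ : MvPolynomial {j // j ≠ i} k →+* Ω :=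
    (aeval (fun j : {j // j ≠ i} => z j) : MvPolynomial {j // j ≠ i} k →ₐ[k] Ω).toRingHom
  have hφ : Function.Injective φ := hind
  have hev : ∀ F, (e F).eval₂ φ (z i) = aeval z F := by
    intro F
    induction F using MvPolynomial.induction_on with
    | C a =>
      simp only [e, AlgEquiv.trans_apply, renameEquiv_apply, rename_C, optionEquivLeft_C,
        Polynomial.eval₂_C, aeval_C]
      exact aeval_C _ _
    | add p q hp hq => rw [map_add, Polynomial.eval₂_add, hp, hq, map_add]
    | mul_X p n hp =>
      rw [map_mul, Polynomial.eval₂_mul, hp, map_mul]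
      congr 1
      simp only [e, AlgEquiv.trans_apply, renameEquiv_apply, rename_X, aeval_X]
      by_cases hn : n = i
      · subst hn
        simp
      · rw [Equiv.optionSubtypeNe_symm_of_ne hn, optionEquivLeft_X_some, Polynomial.eval₂_C]
        exact aeval_X _ _
  have hrel : IsRelPrime (e P) (e Q) := by
    intro d hdP hdQ
    have h1 : e.symm d ∣ P := by
      have := map_dvd e.symm hdP
      rwa [AlgEquiv.symm_apply_apply] at this
    have h2 : e.symm d ∣ Q := by
      have := map_dvd e.symm hdQ
      rwa [AlgEquiv.symm_apply_apply] at this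
    have h3 := (hPQ h1 h2).map e
    rwa [AlgEquiv.apply_symm_apply] at h3
  exact cp_gauss φ hφ (z i) hrel ((map_ne_zero_iff e e.injective).2 hP0)
    (by rw [hev, hP]) (by rw [hev, hQ])

/-- homogeneous version: `b` has transcendence degree at most one up to scaling. -/
theorem coprime_forms_zero {m : ℕ} {P Q : MvPolynomial (Fin m) k} (hPQ : IsRelPrime P Q)
    {dP dQ : ℕ} (hPh : P.IsHomogeneous dP) (hQh : Q.IsHomogeneous dQ)
    {b : Fin m → Ω} (hP : aeval b P = 0) (hQ : aeval b Q = 0) {ξ : Ω} (hξ : ξ ∉ acl k (Set.range b))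
    (i : Fin m) : ¬ AlgebraicIndependent k (fun j : {j // j ≠ i} => ξ * b j) := by
  have key : ∀ (F : MvPolynomial (Fin m) k) (d : ℕ), F.IsHomogeneous d → aeval b F = 0 →
      aeval (fun j => ξ * b j) F = 0 := by
    intro F d hF h0
    have h1 : aeval (fun j => ξ * b j) F = ξ ^ d * aeval b F := by
      rw [aeval_def, aeval_def, eval₂_eq, eval₂_eq, Finset.mul_sum]
      refine Finset.sum_congr rfl fun s hs => ?_
      have h2 : s.degree = d := by
        have h3 := hF (mem_support_iff.1 hs)
        rw [Finsupp.degree_eq_weight_one (R := ℕ)]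
        exact h3
      simp only [mul_pow, Finset.prod_mul_distrib]
      rw [Finset.prod_pow_eq_pow_sum, ← h2]
      have h4 : s.degree = ∑ i ∈ s.support, s i := rfl
      rw [h4]
      ring
    rw [h1, h0, mul_zero]
  exact coprime_pair_zero hPQ (key P dP hPh hP) (key Q dQ hQh hQ) i

end CP

end Pool.Agent.HDP
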