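import Mathlib
import Pool.Agent.Lib.MP_20906e_al.Defs

/-!
# MP_20906e_al : the rank three context in dimension four (helper59)

`x` is a transcendence basis of the algebraically closed field `Ω` over `k`, `y = H(x)`.
`W, V2, V1, Z0` are the derivations attached to the Jordan chain `w = A v2, v2 = A v1, v1 = A z`
of the nilpotent matrix `A = JH(x)` of rank three (`W = ∑ w_i ∂_i` and so on).
-/

namespace Pool.Agent.HDP

open MvPolynomial

/-- Rank three context. -/
structure Ctx3 (k Ω : Type*) [Field k] [Field Ω] [Algebra k Ω] where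
  d : ℕ
  hd : 2 ≤ d
  H : Fin 4 → MvPolynomial (Fin 4) k
  nil : Nil k 4 d H
  ind : LinearIndependent k H
  x : Fin 4 → Ω
  tb : IsTranscendenceBasis k x
  y : Fin 4 → Ω
  hy : ∀ i, y i = aeval x (H i)
  W : Derivation k Ω Ω
  V2 : Derivation k Ω Ω
  V1 : Derivation k Ω Ω
  Z0 : Derivation k Ω Ω
  E : Derivation k Ω Ω
  Wx : ∀ i, W (x i) = V2 (y i)
  V2x : ∀ i, V2 (x i) = V1 (y i)
  V1x : ∀ i, V1 (x i) = Z0 (y i)
  Wy : ∀ i, W (y i) = 0
  Wker : ∀ f, W f = 0 → f ∈ acl k (Set.range y)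
  Ex : ∀ i, E (x i) = x i
  tr3 : ∃ j : Fin 4, AlgebraicIndependent k (fun i : {i : Fin 4 // i ≠ j} => y i.1)
  r : ℕ
  hr : 2 ≤ r
  R : MvPolynomial (Fin 4) k
  Rhom : R.IsHomogeneous r
  Rirr : Irreducible R
  Ry : aeval y R = 0
  Rmin : ∀ P : MvPolynomial (Fin 4) k, aeval y P = 0 → R ∣ P

namespace Ctx3
variable {k Ω : Type*} [Field k] [Field Ω] [Algebra k Ω] (c : Ctx3 k Ω)

/-- algebraic closure of `k(H)` -/
noncomputable def L : IntermediateField k Ω := acl k (Set.range c.y)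

/-- left kernel vector `∇R(y)` -/
noncomputable def u (i : Fin 4) : Ω := aeval c.y (pderiv i c.R)

/-- Hessian of `R` at `y` -/
noncomputable def S (i j : Fin 4) : Ω := aeval c.y (pderiv j (pderiv i c.R))

/-- third derivative of `R` at `y` -/
noncomputable def R3 (i j l : Fin 4) : Ω := aeval c.y (pderiv l (pderiv j (pderiv i c.R)))

/-- the first contact function -/
noncomputable def G : Ω := ∑ i, c.u i * c.x i

/-- A place of `Ω/L`: valuation ring containing `L` (allowed to be trivial). -/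
def IsPlace (V : ValuationSubring Ω) : Prop := ∀ a ∈ c.L, a ∈ V

/-- `b` is the direction of the infinite place `V`: with `i0` a dominating coordinate,
`x i / x i0 ≡ b i` modulo the maximal ideal, `b i0 = 1`, `b i ∈ L`. -/
structure IsDir (V : ValuationSubring Ω) (b : Fin 4 → Ω) (i0 : Fin 4) : Prop where
  place : c.IsPlace V
  inf : c.x i0 ∉ V
  one : b i0 = 1
  mem : ∀ i, b i ∈ c.L
  res : ∀ i, V.valuation (c.x i / c.x i0 - b i) < 1

/-- two coprime forms vanish at `b` -/
def TwoForms (b : Fin 4 → Ω) : Prop :=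
  ∃ (P Q : MvPolynomial (Fin 4) k) (p q : ℕ), IsRelPrime P Q ∧ P.IsHomogeneous p ∧
    Q.IsHomogeneous q ∧ aeval b P = 0 ∧ aeval b Q = 0

/-- linear change of coordinates: `x' = T x`, `y' = T y`. -/
noncomputable def lin (T : Matrix (Fin 4) (Fin 4) k) (z : Fin 4 → Ω) (i : Fin 4) : Ω :=
  ∑ j, algebraMap k Ω (T i j) * z j

end Ctx3

end Pool.Agent.HDP
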