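import Mathlib
import Pool.Agent.Lib.MP_20906e_al.Defs

namespace Pool.Agent.HDP
open MvPolynomial

section Der
section Priv
variable {k Ω : Type*} [Field k] [Field Ω] [Algebra k Ω]

private theorem mem_acl' {S : Set Ω} {z : Ω} :
    z ∈ acl k S ↔ IsAlgebraic (IntermediateField.adjoin k S) z := by
  unfold acl
  rw [IntermediateField.mem_restrictScalars, mem_algebraicClosure_iff]

private theorem subset_acl' (S : Set Ω) : S ⊆ (acl k S : Set Ω) := by
  intro x hx
  have h1 : x ∈ IntermediateField.adjoin k S := IntermediateField.subset_adjoin k S hx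
  exact mem_acl'.2 (isAlgebraic_algebraMap (⟨x, h1⟩ : IntermediateField.adjoin k S))

/-- an intermediate field which is algebraically closed in `Ω` and contains `S` contains `acl k S` -/
private theorem acl_le_of_closed {S : Set Ω} (K : IntermediateField k Ω) (hS : S ⊆ (K : Set Ω))
    (hK : ∀ z : Ω, IsAlgebraic K z → z ∈ K) : acl k S ≤ K := by
  intro z hz
  apply hK
  have h := mem_acl'.1 hz
  have hle : IntermediateField.adjoin k S ≤ K := IntermediateField.adjoin_le_iff.2 hS
  let _ : Algebra (IntermediateField.adjoin k S) K := (IntermediateField.inclusion hle).toRingHom.toAlgebra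
  have _ : IsScalarTower (IntermediateField.adjoin k S) K Ω := IsScalarTower.of_algebraMap_eq fun _ => rfl
  exact h.tower_top K

private theorem acl_closed (S : Set Ω) {z : Ω} (h : IsAlgebraic (acl k S) z) : z ∈ acl k S := by
  unfold acl at h ⊢
  rw [IntermediateField.mem_restrictScalars, mem_algebraicClosure_iff]
  have h2 : IsAlgebraic (algebraicClosure (IntermediateField.adjoin k S) Ω) z := h
  exact h2.restrictScalars (IntermediateField.adjoin k S)

theorem der_sum_apply {ι : Type*} (t : Finset ι) (D : ι → Derivation k Ω Ω) (f : Ω) :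
    (∑ i ∈ t, D i) f = ∑ i ∈ t, D i f := by
  classical
  induction t using Finset.induction_on with
  | empty => simp
  | insert a t ha ih => rw [Finset.sum_insert ha, Finset.sum_insert ha, Derivation.add_apply, ih]

private theorem der_eval (D : Derivation k Ω Ω) (z : Ω) (p : Polynomial Ω) :
    D (p.eval z) = (p.sum fun i a => D a * z ^ i) + p.derivative.eval z * D z := by
  induction p using Polynomial.induction_on' with
  | add p q hp hq =>
    rw [Polynomial.sum_add_index _ _ _ (by simp) (by intros; simp [add_mul]), Polynomial.eval_add, map_add, hp, hq,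
      Polynomial.derivative_add, Polynomial.eval_add]
    ring
  | monomial n a =>
    rw [Polynomial.sum_monomial_index _ _ (by simp)]
    simp only [Polynomial.eval_monomial, Derivation.leibniz, Derivation.leibniz_pow, smul_eq_mul,
      Polynomial.derivative_monomial, nsmul_eq_mul]
    ring

end Priv

variable {k Ω : Type*} [Field k] [Field Ω] [Algebra k Ω] [CharZero k]

omit [CharZero k] in
theorem der_aeval {n : ℕ} (D : Derivation k Ω Ω) (x : Fin n → Ω) (F : MvPolynomial (Fin n) k) :
    D (aeval x F) = ∑ i, aeval x (pderiv i F) * D (x i) := by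
  induction F using MvPolynomial.induction_on with
  | C a => simp
  | add p q hp hq => simp [hp, hq, add_mul, Finset.sum_add_distrib]
  | mul_X p j hp =>
    simp only [map_mul, aeval_X, Derivation.leibniz, smul_eq_mul, hp, map_add, pderiv_X]
    simp only [add_mul, Finset.sum_add_distrib]
    congr 1
    · rw [Finset.sum_eq_single j]
      · simp
      · intro b _ hb
        simp [hb.symm]
      · simp
    · rw [Finset.mul_sum]
      exact Finset.sum_congr rfl fun i _ => by ring

/-- key computation: the derivative of an algebraic element -/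
private theorem der_alg (D : Derivation k Ω Ω) (K : IntermediateField k Ω) {z : Ω}
    (hz : IsAlgebraic K z) : ∃ p : Polynomial Ω, (∀ i, p.coeff i ∈ K) ∧ p.derivative.eval z ≠ 0 ∧
      (p.sum fun i a => D a * z ^ i) + p.derivative.eval z * D z = 0 := by
  refine ⟨(minpoly K z).map (algebraMap K Ω), ?_, ?_, ?_⟩
  · intro i
    rw [Polynomial.coeff_map]
    exact ((minpoly K z).coeff i).2
  · have h1 : (minpoly K z).Separable := (minpoly.irreducible hz.isIntegral).separable
    rw [Polynomial.derivative_map, Polynomial.eval_map_algebraMap]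
    exact h1.aeval_derivative_ne_zero (minpoly.aeval K z)
  · rw [← der_eval, Polynomial.eval_map_algebraMap, minpoly.aeval, map_zero]

/-- the field of constants of a derivation -/
private def consts (D : Derivation k Ω Ω) : IntermediateField k Ω where
  carrier := {z | D z = 0}
  mul_mem' := by
    intro a b ha hb
    simp only [Set.mem_ofPred_eq] at *
    simp [ha, hb]
  add_mem' := by
    intro a b ha hb
    simp only [Set.mem_ofPred_eq] at *
    simp [ha, hb]
  algebraMap_mem' := by
    intro r
    simp
  inv_mem' := by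
    intro a ha
    simp only [Set.mem_ofPred_eq] at *
    rw [Derivation.leibniz_inv, ha]
    simp

theorem der_acl_zero {S : Set Ω} (D : Derivation k Ω Ω) (hD : ∀ s ∈ S, D s = 0) :
    ∀ z ∈ acl k S, D z = 0 := by
  have h := acl_le_of_closed (S := S) (consts D) (fun s hs => hD s hs) (by
    intro z hz
    obtain ⟨p, hp, h1, h2⟩ := der_alg D (consts D) hz
    have h3 : (p.sum fun i a => D a * z ^ i) = 0 := by
      rw [Polynomial.sum_def]
      refine Finset.sum_eq_zero fun i _ => ?_
      have : D (p.coeff i) = 0 := hp i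
      simp [this]
    rw [h3, zero_add] at h2
    exact (mul_eq_zero.1 h2).resolve_left h1)
  intro z hz
  exact h hz

/-- two derivations agreeing on `S` agree on `acl k S` -/
theorem der_acl_eq {S : Set Ω} (D E : Derivation k Ω Ω) (hD : ∀ s ∈ S, D s = E s) :
    ∀ z ∈ acl k S, D z = E z := by
  intro z hz
  have h := der_acl_zero (D - E) (S := S) (fun s hs => by simp [hD s hs]) z hz
  simpa [sub_eq_zero] using h

/-- the elements of `L` whose derivative is in `L` -/
private def stab (D : Derivation k Ω Ω) (L : IntermediateField k Ω) : IntermediateField k Ω where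
  carrier := {z | z ∈ L ∧ D z ∈ L}
  mul_mem' := by
    intro a b ha hb
    refine ⟨mul_mem ha.1 hb.1, ?_⟩
    rw [Derivation.leibniz, smul_eq_mul, smul_eq_mul]
    exact add_mem (mul_mem ha.1 hb.2) (mul_mem hb.1 ha.2)
  add_mem' := by
    intro a b ha hb
    refine ⟨add_mem ha.1 hb.1, ?_⟩
    rw [map_add]
    exact add_mem ha.2 hb.2
  algebraMap_mem' := by
    intro r
    refine ⟨L.algebraMap_mem r, ?_⟩
    simp
  inv_mem' := by
    intro a ha
    refine ⟨inv_mem ha.1, ?_⟩
    rw [Derivation.leibniz_inv, smul_eq_mul]
    exact mul_mem (neg_mem (pow_mem (inv_mem ha.1) 2)) ha.2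

/-- `D` maps `acl k S` to `acl k T` as soon as `S ⊆ acl T` and `D S ⊆ acl T` -/
theorem der_acl_mem {S T : Set Ω} (D : Derivation k Ω Ω) (hS : S ⊆ (acl k T : Set Ω))
    (hD : ∀ s ∈ S, D s ∈ acl k T) : ∀ z ∈ acl k S, D z ∈ acl k T := by
  have h := acl_le_of_closed (S := S) (stab D (acl k T)) (fun s hs => ⟨hS hs, hD s hs⟩) (by
    intro z hz
    have hle : stab D (acl k T) ≤ acl k T := fun z hz => hz.1
    have hzT : z ∈ acl k T := by
      apply acl_closed
      let _ : Algebra (stab D (acl k T)) (acl k T) := (IntermediateField.inclusion hle).toRingHom.toAlgebra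
      have _ : IsScalarTower (stab D (acl k T)) (acl k T) Ω := IsScalarTower.of_algebraMap_eq fun _ => rfl
      exact hz.tower_top (acl k T)
    refine ⟨hzT, ?_⟩
    obtain ⟨p, hp, h1, h2⟩ := der_alg D (stab D (acl k T)) hz
    have h3 : (p.sum fun i a => D a * z ^ i) ∈ acl k T := by
      rw [Polynomial.sum_def]
      refine sum_mem fun i _ => ?_
      exact mul_mem (hp i).2 (pow_mem hzT i)
    have h4 : p.derivative.eval z ∈ acl k T := by
      rw [Polynomial.eval_eq_sum, Polynomial.sum_def]
      refine sum_mem fun i _ => mul_mem ?_ (pow_mem hzT i)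
      rw [Polynomial.coeff_derivative]
      exact mul_mem (hp _).1 (add_mem (natCast_mem _ _) (one_mem _))
    have h5 : D z = -(p.sum fun i a => D a * z ^ i) / p.derivative.eval z := by
      rw [eq_div_iff h1]
      linear_combination h2
    rw [h5]
    exact div_mem (neg_mem h3) h4)
  intro z hz
  exact (h hz).2

end Der

open scoped TensorProduct IntermediateField.algebraAdjoinAdjoin in
/-- derivations with prescribed values on an arbitrary transcendence basis -/
theorem exists_der_gen {k Ω ι : Type*} [Field k] [Field Ω] [Algebra k Ω] [CharZero k]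
    {s : ι → Ω} (hs : IsTranscendenceBasis k s) (v : ι → Ω) :
    ∃ D : Derivation k Ω Ω, ∀ i, D (s i) = v i := by
  let alg1 : Algebra (MvPolynomial ι k) Ω := (aeval s : MvPolynomial ι k →ₐ[k] Ω).toRingHom.toAlgebra
  have tow1 : IsScalarTower k (MvPolynomial ι k) Ω :=
    IsScalarTower.of_algebraMap_eq' (aeval s : MvPolynomial ι k →ₐ[k] Ω).comp_algebraMap.symm
  let alg2 : Algebra (MvPolynomial ι k) (Algebra.adjoin k (Set.range s)) :=
    (hs.1.aevalEquiv : MvPolynomial ι k →ₐ[k] Algebra.adjoin k (Set.range s)).toRingHom.toAlgebra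
  have tow2 : IsScalarTower (MvPolynomial ι k) (Algebra.adjoin k (Set.range s)) Ω :=
    IsScalarTower.of_algebraMap_eq (fun x => (hs.1.algebraMap_aevalEquiv x).symm)
  have e1 : Algebra.FormallyEtale (MvPolynomial ι k) (Algebra.adjoin k (Set.range s)) := by
    refine Algebra.FormallyEtale.of_equiv (A := MvPolynomial ι k)
      (AlgEquiv.ofBijective (Algebra.ofId _ _) ?_)
    exact hs.1.aevalEquiv.bijective
  have e2 : Algebra.FormallyEtale (Algebra.adjoin k (Set.range s))
      (IntermediateField.adjoin k (Set.range s)) := .of_isLocalization (nonZeroDivisors _)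
  have : Algebra.IsAlgebraic (IntermediateField.adjoin k (Set.range s)) Ω := hs.isAlgebraic_field
  have e3 : Algebra.FormallyEtale (IntermediateField.adjoin k (Set.range s)) Ω :=
    Algebra.FormallyEtale.of_isSeparable _ Ω
  have e4 : Algebra.FormallyEtale (Algebra.adjoin k (Set.range s)) Ω :=
    .comp _ (IntermediateField.adjoin k (Set.range s)) _
  have e5 : Algebra.FormallyEtale (MvPolynomial ι k) Ω :=
    .comp _ (Algebra.adjoin k (Set.range s)) _
  let d : Derivation k (MvPolynomial ι k) Ω := mkDerivation k v
  let f : (Ω ⊗[MvPolynomial ι k] (Ω[MvPolynomial ι k⁄k])) →ₗ[Ω] Ω :=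
    LinearMap.liftBaseChange Ω d.liftKaehlerDifferential
  let g : Ω[Ω⁄k] →ₗ[Ω] Ω := f ∘ₗ
    (KaehlerDifferential.tensorKaehlerEquivOfFormallyEtale k (MvPolynomial ι k) Ω).symm.toLinearMap
  refine ⟨g.compDer (KaehlerDifferential.D k Ω), fun i => ?_⟩
  have hsi : s i = algebraMap (MvPolynomial ι k) Ω (X i) := by
    change s i = aeval s (X i)
    simp
  rw [hsi]
  change f ((KaehlerDifferential.tensorKaehlerEquivOfFormallyEtale k (MvPolynomial ι k) Ω).symm
    (KaehlerDifferential.D k Ω (algebraMap (MvPolynomial ι k) Ω (X i)))) = v i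
  rw [KaehlerDifferential.tensorKaehlerEquivOfFormallyEtale_symm_D_algebraMap]
  simp [f, d]

section Rest
variable {k Ω : Type*} [Field k] [Field Ω] [Algebra k Ω] [CharZero k]

/-- existence of the derivation with prescribed values on a transcendence basis -/
theorem exists_der {n : ℕ} {s : Fin n → Ω} (hs : IsTranscendenceBasis k s) (v : Fin n → Ω) :
    ∃ D : Derivation k Ω Ω, ∀ i, D (s i) = v i := exists_der_gen hs v

/-- derivations separate points from algebraically closed subfields -/
theorem exists_der_ne {S : Set Ω} {z : Ω} (hz : z ∉ acl k S) :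
    ∃ D : Derivation k Ω Ω, (∀ a ∈ acl k S, D a = 0) ∧ D z = 1 := by
  classical
  have ht : Transcendental (acl k S) z := fun h => hz (acl_closed S h)
  have h1 : AlgebraicIndepOn (acl k S) id ({z} : Set Ω) :=
    algebraicIndependent_unique_type_iff.2 ht
  obtain ⟨t, hzt, htb⟩ := exists_isTranscendenceBasis_superset h1
  obtain ⟨D, hD⟩ := exists_der_gen htb (fun i => if (i : Ω) = z then 1 else 0)
  refine ⟨D.restrictScalars k, fun a ha => ?_, ?_⟩
  · have h2 : a = algebraMap (acl k S) Ω ⟨a, ha⟩ := rfl
    rw [Derivation.restrictScalars_apply, h2, Derivation.map_algebraMap]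
  · have := hD ⟨z, hzt rfl⟩
    rw [Derivation.restrictScalars_apply]
    simpa using this

/-- an element killed by every derivation that kills `S` lies in `acl k S` -/
theorem mem_acl_of_forall_der' {S : Set Ω} {z : Ω}
    (h : ∀ D : Derivation k Ω Ω, (∀ a ∈ S, D a = 0) → D z = 0) : z ∈ acl k S := by
  by_contra hz
  obtain ⟨D, hD, hD1⟩ := exists_der_ne hz
  have := h D fun a ha => hD a (subset_acl' S ha)
  rw [hD1] at this
  exact one_ne_zero this

/-- dual derivations of a transcendence basis -/
theorem exists_dual {n : ℕ} {s : Fin n → Ω} (hs : IsTranscendenceBasis k s) :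
    ∃ D : Fin n → Derivation k Ω Ω, (∀ i j, D i (s j) = if i = j then 1 else 0) ∧
      (∀ (E : Derivation k Ω Ω) (f : Ω), E f = ∑ i, E (s i) * D i f) ∧
      (∀ i j f, D i (D j f) = D j (D i f)) ∧
      (∀ (T : Set (Fin n)) (i : Fin n) (f : Ω), f ∈ acl k (s '' T) → D i f ∈ acl k (s '' T)) ∧
      (∀ (T : Set (Fin n)) (f : Ω), f ∈ acl k (s '' T) ↔ ∀ i ∉ T, D i f = 0) := by
  choose D hD using fun i : Fin n => exists_der hs (fun j => if i = j then 1 else 0)
  have htop : ∀ f : Ω, f ∈ acl k (Set.range s) := by
    intro f
    rw [mem_acl']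
    have := hs.isAlgebraic_field
    exact this.isAlgebraic f
  have hE : ∀ (E : Derivation k Ω Ω) (f : Ω), E f = ∑ i, E (s i) * D i f := by
    intro E f
    have h := der_acl_eq (S := Set.range s) E (∑ i, E (s i) • D i) (by
      rintro _ ⟨j, rfl⟩
      rw [der_sum_apply]
      simp [hD]) f (htop f)
    rw [h, der_sum_apply]
    simp
  have hmem : ∀ (T : Set (Fin n)) (i : Fin n) (f : Ω), f ∈ acl k (s '' T) → D i f ∈ acl k (s '' T) := by
    intro T i f hf
    refine der_acl_mem (D i) (subset_acl' (s '' T)) ?_ f hf
    rintro _ ⟨j, _, rfl⟩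
    rw [hD]
    split_ifs
    · exact one_mem _
    · exact zero_mem _
  refine ⟨D, fun i j => hD i j, hE, ?_, hmem, ?_⟩
  · intro i j f
    have h := der_acl_zero (S := Set.range s) ⁅D i, D j⁆ (by
      rintro _ ⟨l, rfl⟩
      rw [Derivation.commutator_apply, hD, hD]
      split_ifs <;> simp) f (htop f)
    rw [Derivation.commutator_apply] at h
    exact sub_eq_zero.1 h
  · intro T f
    constructor
    · intro hf i hi
      refine der_acl_zero (D i) ?_ f hf
      rintro _ ⟨j, hj, rfl⟩
      rw [hD, if_neg]
      rintro rfl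
      exact hi hj
    · intro h
      refine mem_acl_of_forall_der' fun E hEz => ?_
      rw [hE E f]
      refine Finset.sum_eq_zero fun i _ => ?_
      by_cases hi : i ∈ T
      · rw [hEz _ ⟨i, hi, rfl⟩, zero_mul]
      · rw [h i hi, mul_zero]

/-- algebraic independence from a dual family of derivations -/
theorem algInd_of_dual {ι : Type*} {y : ι → Ω} (E : ι → Derivation k Ω Ω)
    (hE : ∀ i j, i ≠ j → E i (y j) = 0) (hE1 : ∀ i, E i (y i) ≠ 0) : AlgebraicIndependent k y := by
  apply algebraicIndependent_of_finite_type' (FaithfulSMul.algebraMap_injective k Ω)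
  intro t _ _ i hi halg
  have h1 : y i ∈ acl k (y '' t) := by
    rw [mem_acl']
    let _ : Algebra (Algebra.adjoin k (y '' t)) (IntermediateField.adjoin k (y '' t)) :=
      (Subalgebra.inclusion (IntermediateField.algebra_adjoin_le_adjoin k (y '' t))).toRingHom.toAlgebra
    have _ : IsScalarTower (Algebra.adjoin k (y '' t)) (IntermediateField.adjoin k (y '' t)) Ω :=
      IsScalarTower.of_algebraMap_eq fun _ => rfl
    refine IsAlgebraic.extendScalars (R := Algebra.adjoin k (y '' t)) ?_ halg
    exact Subalgebra.inclusion_injective _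
  apply hE1 i
  refine der_acl_zero (E i) ?_ _ h1
  rintro _ ⟨j, hj, rfl⟩
  apply hE
  rintro rfl
  exact hi hj

/-- an algebraically independent family has a dual family of derivations -/
theorem exists_dual_of_algInd {ι : Type*} {y : ι → Ω} (hy : AlgebraicIndependent k y) :
    ∃ E : ι → Derivation k Ω Ω, (∀ i j, i ≠ j → E i (y j) = 0) ∧ ∀ i, E i (y i) = 1 := by
  classical
  have h1 : AlgebraicIndepOn k id (Set.range y) := hy.coe_range
  obtain ⟨t, hyt, htb⟩ := exists_isTranscendenceBasis_superset h1
  choose E hE using fun i : ι => exists_der_gen htb (fun b => if (b : Ω) = y i then 1 else 0)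
  refine ⟨E, fun i j hij => ?_, fun i => ?_⟩
  · have := hE i ⟨y j, hyt ⟨j, rfl⟩⟩
    simpa [hy.injective.eq_iff, hij.symm] using this
  · have := hE i ⟨y i, hyt ⟨i, rfl⟩⟩
    simpa using this

/-- Jacobian criterion -/
theorem jacobian_criterion {n m : ℕ} {s : Fin n → Ω} (hs : IsTranscendenceBasis k s)
    (D : Fin n → Derivation k Ω Ω) (hD : ∀ i j, D i (s j) = if i = j then 1 else 0)
    (y : Fin m → Ω) : AlgebraicIndependent k y ↔ LinearIndependent Ω (fun i j => D j (y i) : Fin m → Fin n → Ω) := by
  classical
  have htop : ∀ f : Ω, f ∈ acl k (Set.range s) := by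
    intro f
    rw [mem_acl']
    have := hs.isAlgebraic_field
    exact this.isAlgebraic f
  have hE : ∀ (E : Derivation k Ω Ω) (f : Ω), E f = ∑ i, E (s i) * D i f := by
    intro E f
    have h := der_acl_eq (S := Set.range s) E (∑ i, E (s i) • D i) (by
      rintro _ ⟨j, rfl⟩
      rw [der_sum_apply]
      simp [hD]) f (htop f)
    rw [h, der_sum_apply]
    simp
  constructor
  · intro hy
    obtain ⟨E, hE0, hE1⟩ := exists_dual_of_algInd hy
    rw [Fintype.linearIndependent_iff]
    intro c hc i
    have hc' : ∀ j, ∑ l, c l * D j (y l) = 0 := by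
      intro j
      have := congrFun hc j
      simpa [Finset.sum_apply] using this
    have h2 : ∑ l, c l * E i (y l) = 0 := by
      have h3 : ∀ l, c l * E i (y l) = ∑ j, E i (s j) * (c l * D j (y l)) := by
        intro l
        rw [hE (E i) (y l), Finset.mul_sum]
        exact Finset.sum_congr rfl fun j _ => by ring
      rw [Finset.sum_congr rfl fun l _ => h3 l, Finset.sum_comm]
      refine Finset.sum_eq_zero fun j _ => ?_
      rw [← Finset.mul_sum, hc' j, mul_zero]
    rw [Finset.sum_eq_single i] at h2
    · rw [hE1 i, mul_one] at h2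
      exact h2
    · intro l _ hl
      rw [hE0 i l hl.symm, mul_zero]
    · simp
  · intro hli
    -- dual functionals
    have key : ∀ i : Fin m, ∃ w : Fin n → Ω, ∀ l, ∑ j, w j * D j (y l) = if i = l then 1 else 0 := by
      intro i
      obtain ⟨g, hg⟩ := (Fintype.linearCombination Ω (fun i j => D j (y i) : Fin m → Fin n → Ω)).exists_leftInverse_of_injective
        (LinearMap.ker_eq_bot.2 (linearIndependent_iff_injective_fintypeLinearCombination.1 hli))
      refine ⟨fun j => g (Pi.single j 1) i, fun l => ?_⟩
      have h1 : g (fun j => D j (y l)) = Pi.single l 1 := by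
        have h2 := LinearMap.congr_fun hg (Pi.single l 1)
        simpa [Fintype.linearCombination_apply_single] using h2
      have h3 : (fun j => D j (y l)) = ∑ j, D j (y l) • (Pi.single j 1 : Fin n → Ω) := by
        ext j
        simp [Finset.sum_apply, Pi.single_apply]
      have h4 := congrFun h1 i
      rw [h3, map_sum] at h4
      simp only [map_smul, Finset.sum_apply, Pi.smul_apply, smul_eq_mul] at h4
      rw [Finset.sum_congr rfl fun j _ => mul_comm _ _, h4]
      simp [Pi.single_apply]
    choose w hw using key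
    refine algInd_of_dual (fun i => ∑ j, w i j • D j) ?_ ?_
    · intro i j hij
      rw [der_sum_apply]
      have := hw i j
      rw [if_neg hij] at this
      simpa using this
    · intro i
      rw [der_sum_apply]
      have := hw i i
      rw [if_pos rfl] at this
      have h5 : ∑ j, (w i j • D j) (y i) = 1 := by simpa using this
      rw [h5]
      exact one_ne_zero

set_option linter.unusedVariables false in
/-- an element killed by every derivation that kills `S` lies in `acl k S` -/
theorem mem_acl_of_forall_der {n : ℕ} {s : Fin n → Ω} (hs : IsTranscendenceBasis k s) {S : Set Ω} {z : Ω}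
    (h : ∀ D : Derivation k Ω Ω, (∀ a ∈ S, D a = 0) → D z = 0) : z ∈ acl k S :=
  mem_acl_of_forall_der' h

end Rest
end Pool.Agent.HDP
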