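import Mathlib
import Pool.Agent.Lib.MP_20906e_al.Defs

/-!
# MP_20906e_al, piece Q9: nilpotent matrices (helper60)
-/

namespace Pool.Agent.HDP
open MvPolynomial Matrix

section Lin
variable {F : Type*} [Field F]

/-! ## Q9: nilpotent matrices -/

theorem nilp_pow_card {n : ℕ} {A : Matrix (Fin n) (Fin n) F} (hn : IsNilpotent A) :
    A ^ n = 0 := by
  have h1 := Matrix.isNilpotent_charpoly_sub_pow_of_isNilpotent hn
  have h2 : A.charpoly = Polynomial.X ^ (Fintype.card (Fin n)) := by
    rw [← sub_eq_zero]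
    exact h1.eq_zero
  have h3 := Matrix.aeval_self_charpoly A
  rw [h2] at h3
  simpa using h3

theorem nilp_det {n : ℕ} (hn0 : n ≠ 0) {A : Matrix (Fin n) (Fin n) F} (hn : IsNilpotent A) :
    A.det = 0 := by
  obtain ⟨k, hk⟩ := hn
  have : A.det ^ (k + 1) = 0 := by
    rw [← Matrix.det_pow, pow_succ, hk, zero_mul]
    have : Nonempty (Fin n) := ⟨⟨0, Nat.pos_of_ne_zero hn0⟩⟩
    exact Matrix.det_zero
  exact pow_eq_zero_iff (Nat.succ_ne_zero k) |>.mp this

theorem nilp_rank_lt {n : ℕ} {A : Matrix (Fin (n + 1)) (Fin (n + 1)) F} (hn : IsNilpotent A) :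
    A.rank ≤ n := by
  have hd := nilp_det (Nat.succ_ne_zero n) hn
  obtain ⟨v, hv0, hv⟩ := Matrix.exists_mulVec_eq_zero_iff.mpr hd
  have h1 := LinearMap.finrank_range_add_finrank_ker A.mulVecLin
  have h2 : 0 < Module.finrank F (LinearMap.ker A.mulVecLin) := by
    have : Nontrivial (LinearMap.ker A.mulVecLin) :=
      ⟨⟨⟨v, by simpa using hv⟩, 0, fun h => hv0 (by simpa using congrArg Subtype.val h)⟩⟩
    exact Module.finrank_pos
  have h3 : Module.finrank F (Fin (n + 1) → F) = n + 1 := by simp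
  rw [h3] at h1
  have h4 : A.rank = Module.finrank F (LinearMap.range A.mulVecLin) := rfl
  omega

/-- left eigenvector of a nilpotent matrix has eigenvalue zero -/
theorem nilp_eigen {n : ℕ} {A : Matrix (Fin n) (Fin n) F} (hn : IsNilpotent A) {u : Fin n → F}
    (hu : u ≠ 0) {c : F} (h : A.vecMul u = c • u) : c = 0 := by
  obtain ⟨k, hk⟩ := hn
  have hp : ∀ m : ℕ, u ᵥ* (A ^ m) = c ^ m • u := by
    intro m
    induction m with
    | zero => simp
    | succ m ih =>
      rw [pow_succ, ← Matrix.vecMul_vecMul, ih, Matrix.smul_vecMul]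
      have h' : u ᵥ* A = c • u := h
      rw [h', smul_smul, pow_succ]
  have h1 := hp k
  rw [hk, Matrix.vecMul_zero] at h1
  have h2 : c ^ k = 0 := by
    by_contra hc
    exact hu ((smul_eq_zero.mp h1.symm).resolve_left hc)
  exact (pow_eq_zero_iff (Nat.succ_ne_zero k)).mp (by rw [pow_succ, h2, zero_mul])

/-- if `A = Σ_l p_l ⊗ r_l` is nilpotent then so is the pairing matrix `(r_i · p_j)` -/
theorem nilp_pairing {n m : ℕ} {P : Matrix (Fin n) (Fin m) F} {R : Matrix (Fin m) (Fin n) F}
    (hn : IsNilpotent (P * R)) : IsNilpotent (R * P) := by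
  obtain ⟨k, hk⟩ := hn
  refine ⟨k + 1, ?_⟩
  have hp : ∀ j : ℕ, (R * P) ^ (j + 1) = R * ((P * R) ^ j * P) := by
    intro j
    induction j with
    | zero => simp
    | succ j ih =>
      rw [pow_succ, ih, pow_succ (P * R)]
      simp only [Matrix.mul_assoc]
  rw [hp, hk]
  simp

theorem nilp2 {M : Matrix (Fin 2) (Fin 2) F} (hn : IsNilpotent M) :
    M 0 0 + M 1 1 = 0 ∧ M 0 0 * M 1 1 = M 0 1 * M 1 0 := by
  have h1 : M.trace = 0 := (Matrix.isNilpotent_trace_of_isNilpotent hn).eq_zero
  have h2 := nilp_det two_ne_zero hn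
  rw [Matrix.trace_fin_two] at h1
  rw [Matrix.det_fin_two] at h2
  exact ⟨h1, sub_eq_zero.mp h2⟩

theorem nilp3 {M : Matrix (Fin 3) (Fin 3) F} (hn : IsNilpotent M) :
    M 0 0 + M 1 1 + M 2 2 = 0 ∧
    M 0 0 * M 1 1 - M 0 1 * M 1 0 + (M 0 0 * M 2 2 - M 0 2 * M 2 0) + (M 1 1 * M 2 2 - M 1 2 * M 2 1) = 0 ∧
    M.det = 0 := by
  have h1 : M.trace = 0 := (Matrix.isNilpotent_trace_of_isNilpotent hn).eq_zero
  have h2 := nilp_det three_ne_zero hn
  rw [Matrix.trace_fin_three] at h1
  refine ⟨h1, ?_, h2⟩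
  have h3 : M.charpoly = Polynomial.X ^ (Fintype.card (Fin 3)) := by
    rw [← sub_eq_zero]
    exact (Matrix.isNilpotent_charpoly_sub_pow_of_isNilpotent hn).eq_zero
  rw [Matrix.charpoly, Matrix.det_fin_three] at h3
  simp only [Matrix.charmatrix_apply, Matrix.diagonal_apply, Fintype.card_fin] at h3
  simp only [if_true, show ((0 : Fin 3) = 1) = False by simp, show ((0 : Fin 3) = 2) = False by simp,
    show ((1 : Fin 3) = 0) = False by simp, show ((1 : Fin 3) = 2) = False by decide,
    show ((2 : Fin 3) = 0) = False by simp, show ((2 : Fin 3) = 1) = False by decide, if_false] at h3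
  have h4 : (Polynomial.C (M 0 0 * M 1 1 - M 0 1 * M 1 0 + (M 0 0 * M 2 2 - M 0 2 * M 2 0) +
      (M 1 1 * M 2 2 - M 1 2 * M 2 1)) * Polynomial.X - Polynomial.C (M 0 0 + M 1 1 + M 2 2) *
        Polynomial.X ^ 2 - Polynomial.C M.det : Polynomial F) = 0 := by
    rw [Matrix.det_fin_three]
    simp only [map_sub, map_add, map_mul]
    linear_combination h3
  have h5 := congrArg (fun p => Polynomial.coeff p 1) h4
  simpa [Polynomial.coeff_X, Polynomial.coeff_C, Polynomial.coeff_X_pow, h1, h2] using h5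

theorem nilp4_cube_ne {A : Matrix (Fin 4) (Fin 4) F} (hr : A.rank = 3) :
    A ^ 3 ≠ 0 := by
  intro h3
  set f := A.mulVecLin with hf
  have hk : Module.finrank F (LinearMap.ker f) = 1 := by
    have h1 := LinearMap.finrank_range_add_finrank_ker f
    have h2 : Module.finrank F (LinearMap.range f) = 3 := hr
    have h3 : Module.finrank F (Fin 4 → F) = 4 := by simp
    omega
  have h0 : A * (A * A) = 0 := by rw [← h3]; noncomm_ring
  have h4 := Matrix.rank_add_rank_le_card_of_mul_eq_zero h0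
  rw [hr] at h4
  simp only [Fintype.card_fin] at h4
  have h5 : (A * A).mulVecLin = f.comp f := by rw [hf, Matrix.mulVecLin_mul]
  -- kernel of f^2 has dimension at most 2
  have h6 : Module.finrank F (LinearMap.ker (f.comp f)) ≤ 2 := by
    set g := f.domRestrict (LinearMap.ker (f.comp f)) with hg
    have e1 := LinearMap.finrank_range_add_finrank_ker g
    have e2 : Module.finrank F (LinearMap.range g) ≤ 1 := by
      rw [← hk]
      apply Submodule.finrank_mono
      rintro _ ⟨⟨x, hx⟩, rfl⟩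
      simpa [hg] using hx
    have e3 : Module.finrank F (LinearMap.ker g) ≤ 1 := by
      rw [← hk]
      refine LinearMap.finrank_le_finrank_of_injective
        (f := (((LinearMap.ker (f.comp f)).subtype.comp (LinearMap.ker g).subtype).codRestrict
          (LinearMap.ker f) ?_)) ?_
      · rintro ⟨⟨x, hx⟩, hx'⟩
        simpa [hg] using hx'
      · intro a b hab
        have := congrArg Subtype.val hab
        simp only [LinearMap.codRestrict_apply, LinearMap.comp_apply, Submodule.subtype_apply] at this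
        exact Subtype.ext (Subtype.ext this)
    omega
  have h7 := LinearMap.finrank_range_add_finrank_ker (f.comp f)
  have h8 : Module.finrank F (LinearMap.range (f.comp f)) = (A * A).rank := by
    rw [← h5]; rfl
  have h9 : Module.finrank F (Fin 4 → F) = 4 := by simp
  omega

/-- chain lemma: a nilpotent 4x4 matrix of rank 3 has a kernel vector `w = A v2`, `v2 = A v1`, `v1 = A z`. -/
theorem nilp4_chain {A : Matrix (Fin 4) (Fin 4) F} (hn : IsNilpotent A) (hr : A.rank = 3) :
    ∃ z v1 v2 w : Fin 4 → F, v1 = A.mulVec z ∧ v2 = A.mulVec v1 ∧ w = A.mulVec v2 ∧ A.mulVec w = 0 ∧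
      w ≠ 0 ∧ (∀ v, A.mulVec v = 0 → ∃ c : F, v = c • w) ∧
      (∀ u : Fin 4 → F, u ≠ 0 → A.vecMul u = 0 → u ⬝ᵥ z ≠ 0 ∧ u ⬝ᵥ v1 = 0 ∧ u ⬝ᵥ v2 = 0 ∧ u ⬝ᵥ w = 0) ∧
      (∀ r : Fin 4 → F, r ⬝ᵥ w = 0 ↔ ∃ s, A.vecMul s = r) := by
  have h3 := nilp4_cube_ne hr
  have h4 : A ^ 4 = 0 := nilp_pow_card hn
  obtain ⟨z, hz⟩ : ∃ z, (A ^ 3) *ᵥ z ≠ 0 := by
    by_contra hcon
    push Not at hcon
    apply h3
    ext i j
    have := congrFun (hcon (Pi.single j 1)) i
    simpa using this
  have hw3 : A *ᵥ (A *ᵥ (A *ᵥ z)) = (A ^ 3) *ᵥ z := by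
    rw [Matrix.mulVec_mulVec, Matrix.mulVec_mulVec]
    congr 1
    noncomm_ring
  have hw4 : A *ᵥ (A *ᵥ (A *ᵥ (A *ᵥ z))) = 0 := by
    rw [hw3, Matrix.mulVec_mulVec, show A * A ^ 3 = A ^ 4 by noncomm_ring, h4, Matrix.zero_mulVec]
  have hwne : A *ᵥ (A *ᵥ (A *ᵥ z)) ≠ 0 := by rw [hw3]; exact hz
  have hker : ∀ v, A *ᵥ v = 0 → ∃ c : F, v = c • (A *ᵥ (A *ᵥ (A *ᵥ z))) := by
    have hk : Module.finrank F (LinearMap.ker A.mulVecLin) = 1 := by
      have h1 := LinearMap.finrank_range_add_finrank_ker A.mulVecLin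
      have h2 : Module.finrank F (LinearMap.range A.mulVecLin) = 3 := hr
      have h3 : Module.finrank F (Fin 4 → F) = 4 := by simp
      omega
    intro v hv
    have := (finrank_eq_one_iff_of_nonzero'
      (⟨A *ᵥ (A *ᵥ (A *ᵥ z)), by simpa using hw4⟩ : LinearMap.ker A.mulVecLin)
      (fun h => hwne (by simpa using congrArg Subtype.val h))).mp hk ⟨v, by simpa using hv⟩
    obtain ⟨c, hc⟩ := this
    exact ⟨c, by simpa using (congrArg Subtype.val hc).symm⟩
  have hA0 : ∀ u : Fin 4 → F, u ᵥ* A = 0 → ∀ x, u ⬝ᵥ (A *ᵥ x) = 0 := by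
    intro u hu x
    rw [Matrix.dotProduct_mulVec, hu, zero_dotProduct]
  refine ⟨z, A *ᵥ z, A *ᵥ (A *ᵥ z), A *ᵥ (A *ᵥ (A *ᵥ z)), rfl, rfl, rfl, hw4, hwne, hker, ?_, ?_⟩
  · intro u hu0 hu
    refine ⟨?_, hA0 u hu _, hA0 u hu _, hA0 u hu _⟩
    intro huz
    -- z, v1, v2, w is a basis
    set P : Matrix (Fin 4) (Fin 4) F :=
      Matrix.of fun i j => ![z, A *ᵥ z, A *ᵥ (A *ᵥ z), A *ᵥ (A *ᵥ (A *ᵥ z))] j i with hP
    have hPdet : P.det ≠ 0 := by
      intro hdet
      obtain ⟨v, hv0, hv⟩ := Matrix.exists_mulVec_eq_zero_iff.mpr hdet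
      have hsum : v 0 • z + v 1 • (A *ᵥ z) + v 2 • (A *ᵥ (A *ᵥ z)) +
          v 3 • (A *ᵥ (A *ᵥ (A *ᵥ z))) = 0 := by
        rw [← hv]
        ext i
        simp [Matrix.mulVec, dotProduct, Fin.sum_univ_four, hP, mul_comm]
      have e0 : v 0 = 0 := by
        have := congrArg (fun x => A *ᵥ (A *ᵥ (A *ᵥ x))) hsum
        simp only [Matrix.mulVec_add, Matrix.mulVec_smul, hw4, Matrix.mulVec_zero, smul_zero,
          add_zero] at this
        exact (smul_eq_zero.mp this).resolve_right hwne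
      have e1 : v 1 = 0 := by
        have := congrArg (fun x => A *ᵥ (A *ᵥ x)) hsum
        simp only [e0, zero_smul, zero_add, Matrix.mulVec_add, Matrix.mulVec_smul, hw4,
          Matrix.mulVec_zero, smul_zero, add_zero] at this
        exact (smul_eq_zero.mp this).resolve_right hwne
      have e2 : v 2 = 0 := by
        have := congrArg (fun x => A *ᵥ x) hsum
        simp only [e0, e1, zero_smul, zero_add, Matrix.mulVec_add, Matrix.mulVec_smul, hw4,
          Matrix.mulVec_zero, smul_zero, add_zero] at this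
        exact (smul_eq_zero.mp this).resolve_right hwne
      have e3 : v 3 = 0 := by
        simp only [e0, e1, e2, zero_smul, zero_add] at hsum
        exact (smul_eq_zero.mp hsum).resolve_right hwne
      apply hv0
      ext i
      fin_cases i <;> simp [e0, e1, e2, e3]
    apply hPdet
    rw [← Matrix.exists_vecMul_eq_zero_iff]
    refine ⟨u, hu0, ?_⟩
    ext j
    fin_cases j
    · simpa [Matrix.vecMul, hP, dotProduct] using huz
    · simpa [Matrix.vecMul, hP, dotProduct] using hA0 u hu z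
    · simpa [Matrix.vecMul, hP, dotProduct] using hA0 u hu (A *ᵥ z)
    · simpa [Matrix.vecMul, hP, dotProduct] using hA0 u hu (A *ᵥ (A *ᵥ z))
  · set w := A *ᵥ (A *ᵥ (A *ᵥ z)) with hw
    set φ : (Fin 4 → F) →ₗ[F] F :=
      { toFun := fun r => r ⬝ᵥ w
        map_add' := fun a b => add_dotProduct a b w
        map_smul' := fun c a => by simp [smul_dotProduct] } with hφ
    have hle : LinearMap.range A.vecMulLinear ≤ LinearMap.ker φ := by
      rintro _ ⟨s, rfl⟩
      simp only [LinearMap.mem_ker, hφ, LinearMap.coe_mk, AddHom.coe_mk, Matrix.vecMulLinear_apply]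
      rw [← Matrix.dotProduct_mulVec, hw4, dotProduct_zero]
    have hφs : LinearMap.range φ = ⊤ := by
      rw [LinearMap.range_eq_top]
      intro y
      obtain ⟨i, hi⟩ : ∃ i, w i ≠ 0 := by
        by_contra hcon
        push Not at hcon
        exact hwne (funext hcon)
      refine ⟨Pi.single i (y / w i), ?_⟩
      simp only [hφ, LinearMap.coe_mk, AddHom.coe_mk, single_dotProduct]
      field_simp
    have hfr : Module.finrank F (LinearMap.range A.vecMulLinear) =
        Module.finrank F (LinearMap.ker φ) := by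
      have h1 := LinearMap.finrank_range_add_finrank_ker φ
      rw [hφs, finrank_top] at h1
      have h2 : Module.finrank F (Fin 4 → F) = 4 := by simp
      have h3 : Module.finrank F F = 1 := by simp
      have h4 : Module.finrank F (LinearMap.range A.vecMulLinear) = 3 := by
        rw [← hr, ← Matrix.rank_transpose]
        unfold Matrix.rank
        rw [Matrix.mulVecLin_transpose]
      omega
    have heq := Submodule.eq_of_le_of_finrank_eq hle hfr
    intro r
    constructor
    · intro h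
      have : r ∈ LinearMap.ker φ := by simpa [hφ] using h
      rw [← heq] at this
      obtain ⟨s, hs⟩ := this
      exact ⟨s, by simpa using hs⟩
    · rintro ⟨s, hs⟩
      have : r ∈ LinearMap.range A.vecMulLinear := ⟨s, by simpa using hs⟩
      have h' := hle this
      simpa [hφ] using h'

end Lin

end Pool.Agent.HDP
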