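import Mathlib
import Pool.Agent.Lib.MP_20906e_al.Defs
import Pool.Agent.Lib.MP_20906e_al.Ctx
import Pool.Agent.Lib.MP_20906e_al.Der
import Pool.Agent.Lib.MP_20906e_al.CP
import Pool.Agent.Lib.MP_20906e_al.Lin
import Pool.Agent.Lib.MP_2adc98_lc.RankMap

/-!
# MP_20906e_al, piece B1 : existence of the rank three context
-/

set_option autoImplicit false

namespace Pool.Agent.HDP
open MvPolynomial

/-! ### divisors of forms are forms -/

section Hom
variable {k σ : Type*} [Field k]

/-- `X i ↦ X i T` -/
private noncomputable def b1th : MvPolynomial σ k →ₐ[k] Polynomial (MvPolynomial σ k) :=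
  aeval fun i => Polynomial.C (X i) * Polynomial.X

private lemma b1th_monomial (s : σ →₀ ℕ) (a : k) :
    b1th (monomial s a) = Polynomial.C (monomial s a) * Polynomial.X ^ s.degree := by
  unfold b1th
  rw [aeval_monomial]
  have h1 : (s.prod fun i e => (Polynomial.C (X i : MvPolynomial σ k) * Polynomial.X) ^ e) =
      Polynomial.C (s.prod fun i e => (X i : MvPolynomial σ k) ^ e) *
        Polynomial.X ^ s.degree := by
    unfold Finsupp.prod
    rw [Finsupp.degree_apply, map_prod, ← Finset.prod_pow_eq_pow_sum, ← Finset.prod_mul_distrib]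
    refine Finset.prod_congr rfl fun i _ => ?_
    show (Polynomial.C (X i : MvPolynomial σ k) * Polynomial.X) ^ (s i) =
      Polynomial.C ((X i : MvPolynomial σ k) ^ (s i)) * Polynomial.X ^ (s i)
    rw [mul_pow, map_pow]
  rw [h1, ← mul_assoc]
  congr 1
  rw [monomial_eq, map_mul]
  rfl

private lemma b1th_coeff (P : MvPolynomial σ k) (j : ℕ) :
    (b1th P).coeff j = homogeneousComponent j P := by
  induction P using MvPolynomial.induction_on' with
  | monomial s a =>
    rw [b1th_monomial, Polynomial.coeff_C_mul, Polynomial.coeff_X_pow]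
    by_cases h : j = s.degree
    · rw [if_pos h, mul_one, h]
      exact (homogeneousComponent_of_mem (isHomogeneous_monomial a rfl)).symm ▸ by simp
    · rw [if_neg h, mul_zero]
      exact (homogeneousComponent_of_mem (isHomogeneous_monomial a rfl)).symm ▸ by
        rw [if_neg h]
  | add p q hp hq => rw [map_add, Polynomial.coeff_add, hp, hq, map_add]

private lemma b1th_ne {P : MvPolynomial σ k} (hP : P ≠ 0) : b1th P ≠ 0 := by
  intro h
  apply hP
  rw [← sum_homogeneousComponent P]
  refine Finset.sum_eq_zero fun j _ => ?_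
  rw [← b1th_coeff, h, Polynomial.coeff_zero]

private lemma b1th_hom {P : MvPolynomial σ k} {m : ℕ} (hP : P.IsHomogeneous m) :
    b1th P = Polynomial.C P * Polynomial.X ^ m := by
  ext1 j
  rw [b1th_coeff, Polynomial.coeff_C_mul, Polynomial.coeff_X_pow,
    homogeneousComponent_of_mem hP]
  by_cases h : j = m
  · rw [if_pos h, if_pos h, mul_one]
  · rw [if_neg h, if_neg h, mul_zero]

/-- a divisor of a nonzero form is a form -/
theorem isHomogeneous_of_dvd {P A : MvPolynomial σ k} {m : ℕ} (hP : P.IsHomogeneous m)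
    (hP0 : P ≠ 0) (h : A ∣ P) : ∃ a, A.IsHomogeneous a := by
  obtain ⟨B, rfl⟩ := h
  have hA0 : A ≠ 0 := left_ne_zero_of_mul hP0
  have hB0 : B ≠ 0 := right_ne_zero_of_mul hP0
  have hA := b1th_ne hA0
  have hB := b1th_ne hB0
  have h1 : b1th A * b1th B = Polynomial.C (A * B) * Polynomial.X ^ m := by
    rw [← map_mul, b1th_hom hP]
  have h2 : (b1th A).natDegree + (b1th B).natDegree = m := by
    rw [← Polynomial.natDegree_mul hA hB, h1, Polynomial.natDegree_C_mul_X_pow _ _ hP0]
  have h3 : (b1th A).natTrailingDegree + (b1th B).natTrailingDegree = m := by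
    rw [← Polynomial.natTrailingDegree_mul hA hB, h1, Polynomial.C_mul_X_pow_eq_monomial,
      Polynomial.natTrailingDegree_monomial hP0]
  have h4 := (b1th A).natTrailingDegree_le_natDegree
  have h5 := (b1th B).natTrailingDegree_le_natDegree
  refine ⟨(b1th A).natDegree, fun s hs => ?_⟩
  have h6 : (b1th A).coeff s.degree ≠ 0 := by
    rw [b1th_coeff]
    intro h
    have h7 := congrArg (coeff s) h
    rw [coeff_homogeneousComponent, if_pos rfl, coeff_zero] at h7
    exact hs h7
  have h8 := Polynomial.le_natDegree_of_ne_zero h6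
  have h9 := Polynomial.natTrailingDegree_le_of_ne_zero h6
  have h10 : Finsupp.weight (1 : σ → ℕ) s = s.degree := by
    rw [Finsupp.degree_eq_weight_one]
    rfl
  rw [h10]
  omega

end Hom

section Main
variable {k Ω : Type*} [Field k] [CharZero k] [Field Ω] [Algebra k Ω]

omit [CharZero k] in
/-- the relation between the `y i` -/
private lemma b1_relation {d : ℕ} (hd : 2 ≤ d)
    {H : Fin 4 → MvPolynomial (Fin 4) k} (hom : ∀ i, (H i).IsHomogeneous d)
    (ind : LinearIndependent k H) {x : Fin 4 → Ω} (hx : AlgebraicIndependent k x)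
    {y : Fin 4 → Ω} (hy : ∀ i, y i = aeval x (H i)) (hdep : ¬ AlgebraicIndependent k y)
    (tr3 : ∃ j : Fin 4, AlgebraicIndependent k (fun i : {i : Fin 4 // i ≠ j} => y i.1)) :
    ∃ (r : ℕ) (R : MvPolynomial (Fin 4) k), 2 ≤ r ∧ R.IsHomogeneous r ∧ Irreducible R ∧
      aeval y R = 0 ∧ ∀ P : MvPolynomial (Fin 4) k, aeval y P = 0 → R ∣ P := by
  have hyx : ∀ P : MvPolynomial (Fin 4) k, aeval y P = aeval x (bind₁ H P) := by
    intro P
    have : y = fun i => aeval x (H i) := funext hy
    rw [this, aeval_bind₁]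
  have hker : ∀ P : MvPolynomial (Fin 4) k, aeval y P = 0 ↔ bind₁ H P = 0 := by
    intro P
    rw [hyx]
    constructor
    · intro h
      exact hx (by rw [h, map_zero])
    · intro h
      rw [h, map_zero]
  -- components of a relation are relations
  have hhom : ∀ (P : MvPolynomial (Fin 4) k) (m : ℕ), P.IsHomogeneous m →
      (bind₁ H P).IsHomogeneous (d * m) := by
    intro P m hP
    exact hP.aeval _ hom
  have hcomp : ∀ P : MvPolynomial (Fin 4) k, aeval y P = 0 → ∀ m,
      aeval y (homogeneousComponent m P) = 0 := by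
    intro P hP m
    rw [hker] at hP ⊢
    have h1 : bind₁ H P = ∑ j ∈ Finset.range (P.totalDegree + 1),
        bind₁ H (homogeneousComponent j P) := by
      conv_lhs => rw [← sum_homogeneousComponent P]
      rw [map_sum]
    have h2 := congrArg (homogeneousComponent (d * m)) h1
    rw [hP, map_zero, map_sum] at h2
    have h3 : ∀ j, homogeneousComponent (d * m) (bind₁ H (homogeneousComponent j P)) =
        if j = m then bind₁ H (homogeneousComponent j P) else 0 := by
      intro j
      rw [homogeneousComponent_of_mem (hhom _ _ (homogeneousComponent_isHomogeneous j P))]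
      by_cases h : j = m
      · rw [if_pos h, if_pos (by rw [h])]
      · rw [if_neg h, if_neg]
        intro h'
        exact h (Nat.eq_of_mul_eq_mul_left (by omega) h').symm
    rw [Finset.sum_congr rfl fun j _ => h3 j] at h2
    by_cases hm : m ∈ Finset.range (P.totalDegree + 1)
    · rw [Finset.sum_ite_eq' _ m, if_pos hm] at h2
      exact h2.symm
    · rw [Finset.mem_range, not_lt] at hm
      rw [homogeneousComponent_eq_zero _ _ (by omega), map_zero]
  -- a nonzero relation
  obtain ⟨P, hP, hP0⟩ : ∃ P : MvPolynomial (Fin 4) k, aeval y P = 0 ∧ P ≠ 0 := by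
    by_contra hcon
    push Not at hcon
    apply hdep
    rw [algebraicIndependent_iff]
    exact hcon
  obtain ⟨m, hm⟩ : ∃ m, homogeneousComponent m P ≠ 0 := by
    by_contra hcon
    push Not at hcon
    apply hP0
    rw [← sum_homogeneousComponent P]
    exact Finset.sum_eq_zero fun j _ => hcon j
  obtain ⟨Q, hQ⟩ : ∃ Q, Q = homogeneousComponent m P := ⟨_, rfl⟩
  have hQ0 : Q ≠ 0 := by rw [hQ]; exact hm
  have hQy : aeval y Q = 0 := by rw [hQ]; exact hcomp P hP m
  have hQh : Q.IsHomogeneous m := by rw [hQ]; exact homogeneousComponent_isHomogeneous m P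
  -- an irreducible factor which is a relation
  obtain ⟨R, hRirr, hRQ, hRy⟩ : ∃ R, Irreducible R ∧ R ∣ Q ∧ aeval y R = 0 := by
    obtain ⟨s, hs, hsQ⟩ := WfDvdMonoid.exists_factors Q hQ0
    obtain ⟨u, hu⟩ := hsQ
    have h1 : aeval y s.prod = 0 := by
      have h2 := hQy
      rw [← hu, map_mul] at h2
      have h3 : IsUnit (aeval y (u : MvPolynomial (Fin 4) k)) := u.isUnit.map (aeval y)
      exact (mul_eq_zero.1 h2).resolve_right h3.ne_zero
    rw [map_multiset_prod, Multiset.prod_eq_zero_iff, Multiset.mem_map] at h1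
    obtain ⟨R, hR, hR0⟩ := h1
    exact ⟨R, hs R hR, (Multiset.dvd_prod hR).trans ⟨u, hu.symm⟩, hR0⟩
  obtain ⟨r, hr⟩ := isHomogeneous_of_dvd hQh hQ0 hRQ
  refine ⟨r, R, ?_, hr, hRirr, hRy, ?_⟩
  · -- `2 ≤ r`
    by_contra hlt
    have h01 : r = 0 ∨ r = 1 := by omega
    rcases h01 with rfl | rfl
    · rw [← totalDegree_zero_iff_isHomogeneous, totalDegree_eq_zero_iff_eq_C] at hr
      rw [hr, aeval_C] at hRy
      have h1 : R.coeff 0 = 0 := by
        by_contra h
        exact h ((map_eq_zero (algebraMap k Ω)).1 hRy)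
      rw [h1, map_zero] at hr
      exact hRirr.ne_zero hr
    · have h1 : R ∈ Submodule.span k (Set.range (X : Fin 4 → MvPolynomial (Fin 4) k)) := by
        rw [← homogeneousSubmodule_one_eq_span_X]
        exact hr
      rw [Submodule.mem_span_range_iff_exists_fun] at h1
      obtain ⟨c, hc⟩ := h1
      have h2 : ∑ i, c i • H i = 0 := by
        have h3 := (hker R).1 hRy
        rw [← hc, map_sum] at h3
        rw [← h3]
        refine Finset.sum_congr rfl fun i _ => ?_
        rw [map_smul, bind₁_X_right]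
      have h4 := (Fintype.linearIndependent_iff.1 ind) c h2
      apply hRirr.ne_zero
      rw [← hc]
      exact Finset.sum_eq_zero fun i _ => by rw [h4 i, zero_smul]
  · intro F hF
    by_contra hnd
    obtain ⟨j, hj⟩ := tr3
    exact coprime_pair_zero ((hRirr.isRelPrime_iff_not_dvd).2 hnd) hRy hF j hj

/-- three of the rows of a matrix of rank three are independent -/
private lemma b1_rows {F : Type*} [Field F] {A : Matrix (Fin 4) (Fin 4) F} (hr : A.rank = 3) :
    ∃ j : Fin 4, LinearIndependent F (fun (i : Fin 3) (l : Fin 4) => A (j.succAbove i) l) := by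
  have hdep : ¬ LinearIndependent F A.row := by
    intro h
    have h1 := h.rank_matrix
    rw [hr] at h1
    simp at h1
  rw [Fintype.linearIndependent_iff] at hdep
  push Not at hdep
  obtain ⟨c, hc, j, hj⟩ := hdep
  refine ⟨j, ?_⟩
  rw [linearIndependent_iff_card_eq_finrank_span, Fintype.card_fin, Set.finrank]
  have hspan : Submodule.span F (Set.range fun (i : Fin 3) (l : Fin 4) => A (j.succAbove i) l) =
      Submodule.span F (Set.range A.row) := by
    refine le_antisymm (Submodule.span_mono ?_) (Submodule.span_le.2 ?_)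
    · rintro _ ⟨i, rfl⟩
      exact ⟨j.succAbove i, rfl⟩
    · have h0 : ∀ i : Fin 3, A.row (j.succAbove i) ∈
          Submodule.span F (Set.range fun (i : Fin 3) (l : Fin 4) => A (j.succAbove i) l) :=
        fun i => Submodule.subset_span ⟨i, rfl⟩
      rintro _ ⟨i, rfl⟩
      by_cases hij : i = j
      · subst hij
        rw [Fin.sum_univ_succAbove _ i] at hc
        have h1 : A.row i = -((c i)⁻¹ • ∑ l : Fin 3, c (i.succAbove l) • A.row (i.succAbove l)) := by
          have h2 := congrArg (fun v => (c i)⁻¹ • v) hc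
          simp only [smul_add, smul_smul, inv_mul_cancel₀ hj, one_smul, smul_zero] at h2
          exact eq_neg_of_add_eq_zero_left h2
        show A.row i ∈ _
        rw [h1]
        exact Submodule.neg_mem _ (Submodule.smul_mem _ _
          (Submodule.sum_mem _ fun l _ => Submodule.smul_mem _ _ (h0 l)))
      · obtain ⟨l, hl⟩ := Fin.exists_succAbove_eq hij
        rw [← hl]
        exact h0 l
  rw [hspan, ← Matrix.rank_eq_finrank_span_row, hr]

private lemma b1_ctx {d : ℕ} (hd : 2 ≤ d)
    {H : Fin 4 → MvPolynomial (Fin 4) k} (nil : Nil k 4 d H)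
    (ind : LinearIndependent k H) {x : Fin 4 → Ω} (tb : IsTranscendenceBasis k x)
    {A : Matrix (Fin 4) (Fin 4) Ω} (hA : ∀ i j, A i j = aeval x (pderiv j (H i)))
    (hn : IsNilpotent A) (hr : A.rank = 3) : Nonempty (Ctx3 k Ω) := by
  classical
  obtain ⟨y, hy⟩ : ∃ y : Fin 4 → Ω, ∀ i, y i = aeval x (H i) := ⟨_, fun i => rfl⟩
  have hDy : ∀ (D : Derivation k Ω Ω) (v : Fin 4 → Ω), (∀ i, D (x i) = v i) →
      ∀ i, D (y i) = A.mulVec v i := by
    intro D v hv i
    rw [hy, der_aeval]
    show _ = ∑ j, A i j * v j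
    refine Finset.sum_congr rfl fun j _ => ?_
    rw [hA, hv]
  obtain ⟨z, v1, v2, w, h1, h2, h3, h4, hw, hker, -, -⟩ := nilp4_chain hn hr
  obtain ⟨W, hW⟩ := exists_der tb w
  obtain ⟨V2, hV2⟩ := exists_der tb v2
  obtain ⟨V1, hV1⟩ := exists_der tb v1
  obtain ⟨Z0, hZ0⟩ := exists_der tb z
  obtain ⟨E, hE⟩ := exists_der tb x
  obtain ⟨D, hD, hDE, -, -, -⟩ := exists_dual tb
  have hDA : ∀ i j, D j (y i) = A i j := by
    intro i j
    rw [hDy (D j) (Pi.single j 1) (fun l => by rw [hD j l, Pi.single_apply]; simp [eq_comm]) i,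
      Matrix.mulVec_single_one]
    rfl
  have hdep : ¬ AlgebraicIndependent k y := by
    intro h
    rw [jacobian_criterion tb D hD] at h
    have h5 : LinearIndependent Ω A.row := by
      convert h using 1
      funext i j
      exact (hDA i j).symm
    have h6 := h5.rank_matrix
    rw [hr] at h6
    simp at h6
  have tr3 : ∃ j : Fin 4, AlgebraicIndependent k (fun i : {i : Fin 4 // i ≠ j} => y i.1) := by
    obtain ⟨j, hj⟩ := b1_rows hr
    refine ⟨j, ?_⟩
    have h5 : AlgebraicIndependent k (fun i : Fin 3 => y (j.succAbove i)) := by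
      rw [jacobian_criterion tb D hD]
      convert hj using 1
      funext i l
      exact hDA _ _
    have h6 := (algebraicIndependent_equiv' (finSuccAboveEquiv j)
      (f := fun i : {i : Fin 4 // i ≠ j} => y i.1)
      (g := fun i : Fin 3 => y (j.succAbove i)) (by funext i; rfl)).1 h5
    exact h6
  obtain ⟨r, R, hr2, hRh, hRirr, hRy, hRmin⟩ := b1_relation hd nil.hom ind tb.1 hy hdep tr3
  refine ⟨⟨d, hd, H, nil, ind, x, tb, y, hy, W, V2, V1, Z0, E, ?_, ?_, ?_, ?_, ?_, hE, tr3, r,
    hr2, R, hRh, hRirr, hRy, hRmin⟩⟩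
  · intro i
    rw [hW, hDy V2 v2 hV2, h3]
  · intro i
    rw [hV2, hDy V1 v1 hV1, h2]
  · intro i
    rw [hV1, hDy Z0 z hZ0, h1]
  · intro i
    rw [hDy W w hW, h4]
    rfl
  · intro f hf
    refine mem_acl_of_forall_der tb fun D' hD' => ?_
    obtain ⟨c, hc⟩ := hker (fun i => D' (x i)) (by
      funext i
      rw [← hDy D' _ (fun i => rfl)]
      exact hD' _ ⟨i, rfl⟩)
    have h5 : D' f = c * W f := by
      rw [hDE D' f, hDE W f, Finset.mul_sum]
      refine Finset.sum_congr rfl fun i _ => ?_
      have h6 : D' (x i) = c * w i := by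
        have h7 := congrFun hc i
        simpa using h7
      rw [h6, hW i, mul_assoc]
    rw [h5, hf, mul_zero]

end Main

/-! ## B1: existence of the context -/
universe u
theorem exists_ctx3 {k : Type u} [Field k] [IsAlgClosed k] [CharZero k] {d : ℕ} (hd : 2 ≤ d)
    {H : Fin 4 → MvPolynomial (Fin 4) k} (nil : Nil k 4 d H) (ind : LinearIndependent k H)
    (hr : ((jac H).map (algebraMap _ (FractionRing (MvPolynomial (Fin 4) k)))).rank = 3) :
    ∃ (Ω : Type u) (_ : Field Ω) (_ : Algebra k Ω) (_ : IsAlgClosed Ω), Nonempty (Ctx3 k Ω) := by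
  obtain ⟨ι, hι⟩ : ∃ ι : MvPolynomial (Fin 4) k →+*
      AlgebraicClosure (FractionRing (MvPolynomial (Fin 4) k)),
      ι = algebraMap (MvPolynomial (Fin 4) k)
        (AlgebraicClosure (FractionRing (MvPolynomial (Fin 4) k))) := ⟨_, rfl⟩
  refine ⟨AlgebraicClosure (FractionRing (MvPolynomial (Fin 4) k)), inferInstance,
    inferInstance, inferInstance, ?_⟩
  have hae : ∀ F : MvPolynomial (Fin 4) k, aeval (fun i => ι (X i)) F = ι F := by
    intro F
    rw [hι]
    have h1 := aeval_algebraMap_apply (AlgebraicClosure (FractionRing (MvPolynomial (Fin 4) k)))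
      (X : Fin 4 → MvPolynomial (Fin 4) k) F
    rw [aeval_X_left, AlgHom.id_apply] at h1
    exact h1
  refine b1_ctx hd nil ind (x := fun i => ι (X i)) ?_ (A := (jac H).map ι) ?_ ?_ ?_
  · have h0 : Algebra.IsAlgebraic (MvPolynomial (Fin 4) k)
        (FractionRing (MvPolynomial (Fin 4) k)) :=
      IsLocalization.isAlgebraic _ (nonZeroDivisors (MvPolynomial (Fin 4) k))
    have h00 : Algebra.IsAlgebraic (MvPolynomial (Fin 4) k)
        (AlgebraicClosure (FractionRing (MvPolynomial (Fin 4) k))) :=
      Algebra.IsAlgebraic.trans _ (FractionRing (MvPolynomial (Fin 4) k)) _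
    have hinj : Function.Injective (algebraMap (MvPolynomial (Fin 4) k)
        (AlgebraicClosure (FractionRing (MvPolynomial (Fin 4) k)))) := by
      rw [IsScalarTower.algebraMap_eq (MvPolynomial (Fin 4) k)
        (FractionRing (MvPolynomial (Fin 4) k)) _]
      exact (algebraMap (FractionRing (MvPolynomial (Fin 4) k)) _).injective.comp
        (IsFractionRing.injective _ _)
    have hfs : FaithfulSMul (MvPolynomial (Fin 4) k)
        (AlgebraicClosure (FractionRing (MvPolynomial (Fin 4) k))) :=
      (faithfulSMul_iff_algebraMap_injective _ _).2 hinj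
    have h1 := (IsTranscendenceBasis.mvPolynomial (Fin 4) k).algebraMap_comp
      (A := AlgebraicClosure (FractionRing (MvPolynomial (Fin 4) k)))
    rw [hι]
    exact h1
  · intro i j
    rw [Matrix.map_apply, hae]
    rfl
  · obtain ⟨m, hm⟩ := nil.nilp
    refine ⟨m, ?_⟩
    have h2 := congrArg (fun M : Matrix (Fin 4) (Fin 4) (MvPolynomial (Fin 4) k) =>
      ι.mapMatrix M) hm
    simp only [map_pow, map_zero] at h2
    exact h2
  · have h3 := Pool.Agent.AbsIrr.rank_map_field (algebraMap
      (FractionRing (MvPolynomial (Fin 4) k))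
      (AlgebraicClosure (FractionRing (MvPolynomial (Fin 4) k))))
      ((jac H).map (algebraMap _ (FractionRing (MvPolynomial (Fin 4) k))))
    rw [hr] at h3
    rw [← h3]
    congr 1
    rw [hι]
    ext i j
    simp [Matrix.map_apply, ← IsScalarTower.algebraMap_apply]

end Pool.Agent.HDP
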