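import Mathlib
import Pool.Agent.Lib.MP_20906e_al.Defs
import Pool.Agent.Lib.MP_20906e_al.Ctx
import Pool.Agent.Lib.MP_20906e_al.Acl
import Pool.Agent.Lib.MP_20906e_al.Der

/-!
# MP_20906e_al, piece B2a: basic facts in the rank three context (helper87)
-/

set_option linter.unusedSectionVars false

namespace Pool.Agent.HDP
open MvPolynomial

private theorem b2a_pderiv_comm {k σ : Type*} [CommRing k] (i j : σ) (F : MvPolynomial σ k) :
    pderiv j (pderiv i F) = pderiv i (pderiv j F) := by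
  classical
  induction F using MvPolynomial.induction_on with
  | C a => simp
  | add p q hp hq => simp [hp, hq]
  | mul_X p l hp =>
    simp only [Derivation.leibniz, smul_eq_mul, map_add, pderiv_X, hp]
    have h1 : ∀ a b : σ, pderiv a ((Pi.single b 1 : σ → MvPolynomial σ k) l) = 0 := by
      intro a b
      by_cases h : l = b
      · subst h; simp
      · simp [Pi.single_eq_of_ne h]
    rw [h1, h1]
    ring

namespace Ctx3

variable {k Ω : Type*} [Field k] [IsAlgClosed k] [CharZero k] [Field Ω] [IsAlgClosed Ω] [Algebra k Ω]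
  (c : Ctx3 k Ω)

theorem Ey (i : Fin 4) : c.E (c.y i) = (c.d : Ω) * c.y i := by
  rw [c.hy i, der_aeval]
  have h := congrArg (aeval c.x) (c.nil.hom i).sum_X_mul_pderiv
  rw [map_sum, nsmul_eq_mul, map_mul, map_natCast] at h
  rw [← h]
  refine Finset.sum_congr rfl fun j _ => ?_
  rw [c.Ex, map_mul, aeval_X, mul_comm]

theorem mem_L_iff (f : Ω) : f ∈ c.L ↔ c.W f = 0 := by
  constructor
  · intro h
    refine der_acl_zero c.W (S := Set.range c.y) ?_ f h
    rintro _ ⟨i, rfl⟩
    exact c.Wy i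
  · intro h
    exact c.Wker f h

theorem y_mem (i : Fin 4) : c.y i ∈ c.L := (c.mem_L_iff _).2 (c.Wy i)

private theorem aeval_y_mem (F : MvPolynomial (Fin 4) k) : aeval c.y F ∈ c.L := by
  rw [mem_L_iff, der_aeval]
  refine Finset.sum_eq_zero fun i _ => ?_
  rw [c.Wy, mul_zero]

theorem u_mem (i : Fin 4) : c.u i ∈ c.L := c.aeval_y_mem _

theorem S_mem (i j : Fin 4) : c.S i j ∈ c.L := c.aeval_y_mem _

theorem R3_mem (i j l : Fin 4) : c.R3 i j l ∈ c.L := c.aeval_y_mem _

theorem S_symm (i j : Fin 4) : c.S i j = c.S j i := by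
  unfold S
  rw [b2a_pderiv_comm]

theorem R3_symm (i j l : Fin 4) : c.R3 i j l = c.R3 j i l ∧ c.R3 i j l = c.R3 i l j := by
  unfold R3
  constructor
  · rw [b2a_pderiv_comm i j]
  · rw [b2a_pderiv_comm j l]

theorem u_ne : ∃ i, c.u i ≠ 0 := by
  by_contra hcon
  push Not at hcon
  have h1 : ∀ i, pderiv i c.R = 0 := by
    intro i
    by_contra hne
    obtain ⟨Q, hQ⟩ := c.Rmin _ (hcon i)
    have hQ0 : Q ≠ 0 := by
      rintro rfl
      exact hne (by rw [hQ, mul_zero])
    have hR0 : c.R ≠ 0 := c.Rirr.ne_zero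
    have h2 : (pderiv i c.R).totalDegree = c.R.totalDegree + Q.totalDegree := by
      rw [hQ]
      exact totalDegree_mul_of_isDomain hR0 hQ0
    have h3 : (pderiv i c.R).totalDegree = c.r - 1 := (c.Rhom.pderiv).totalDegree hne
    have h4 : c.R.totalDegree = c.r := c.Rhom.totalDegree hR0
    have h5 := c.hr
    omega
  have h2 := c.Rhom.sum_X_mul_pderiv
  simp only [h1, mul_zero, Finset.sum_const_zero] at h2
  have h3 : (c.r : MvPolynomial (Fin 4) k) * c.R = 0 := by
    rw [← nsmul_eq_mul]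
    exact h2.symm
  rcases mul_eq_zero.1 h3 with h4 | h4
  · have h5 := c.hr
    rw [Nat.cast_eq_zero] at h4
    omega
  · exact c.Rirr.ne_zero h4

theorem u_D (D : Derivation k Ω Ω) : ∑ i, c.u i * D (c.y i) = 0 := by
  unfold u
  rw [← der_aeval, c.Ry, map_zero]

private theorem euler_y {F : MvPolynomial (Fin 4) k} {n : ℕ} (hF : F.IsHomogeneous n) :
    ∑ i, aeval c.y (pderiv i F) * c.y i = (n : Ω) * aeval c.y F := by
  have h := congrArg (aeval c.y) hF.sum_X_mul_pderiv
  rw [map_sum, nsmul_eq_mul, map_mul, map_natCast] at h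
  rw [← h]
  refine Finset.sum_congr rfl fun j _ => ?_
  rw [map_mul, aeval_X, mul_comm]

theorem u_y : ∑ i, c.u i * c.y i = 0 := by
  unfold u
  rw [c.euler_y c.Rhom, c.Ry, mul_zero]

theorem S_y (i : Fin 4) : ∑ j, c.S i j * c.y j = ((c.r : Ω) - 1) * c.u i := by
  unfold S u
  rw [c.euler_y c.Rhom.pderiv]
  have h := c.hr
  rw [Nat.cast_sub (by omega), Nat.cast_one]

theorem R3_y (i j : Fin 4) : ∑ l, c.R3 i j l * c.y l = ((c.r : Ω) - 2) * c.S i j := by
  unfold R3 S
  rw [c.euler_y c.Rhom.pderiv.pderiv]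
  have h := c.hr
  rw [show c.r - 1 - 1 = c.r - 2 by omega, Nat.cast_sub (by omega)]
  norm_num

theorem D_u (D : Derivation k Ω Ω) (i : Fin 4) : D (c.u i) = ∑ j, c.S i j * D (c.y j) := by
  unfold u S
  rw [der_aeval]

theorem D_S (D : Derivation k Ω Ω) (i j : Fin 4) :
    D (c.S i j) = ∑ l, c.R3 i j l * D (c.y l) := by
  unfold S R3
  rw [der_aeval]

theorem lin_indep_y (a : Fin 4 → k) (h : ∑ i, algebraMap k Ω (a i) * c.y i = 0) : a = 0 := by
  have h1 : aeval c.x (∑ i, a i • c.H i) = 0 := by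
    rw [← h, map_sum]
    refine Finset.sum_congr rfl fun i _ => ?_
    rw [map_smul, Algebra.smul_def, c.hy i]
  have h2 : (∑ i, a i • c.H i) = 0 := by
    have h3 := c.tb.1
    exact h3 (by rw [h1, map_zero])
  have h4 := Fintype.linearIndependent_iff.1 c.ind a h2
  funext i
  exact h4 i

theorem lin_indep_x (a : Fin 4 → k) (h : ∑ i, algebraMap k Ω (a i) * c.x i = 0) : a = 0 := by
  have h1 : aeval c.x (∑ i, C (a i) * X i : MvPolynomial (Fin 4) k) = 0 := by
    rw [← h, map_sum]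
    refine Finset.sum_congr rfl fun i _ => ?_
    rw [map_mul, aeval_C, aeval_X]
  have h2 : (∑ i, C (a i) * X i : MvPolynomial (Fin 4) k) = 0 := by
    have h3 := c.tb.1
    exact h3 (by rw [h1, map_zero])
  funext i
  have h3 := congrArg (pderiv i) h2
  rw [map_sum, map_zero] at h3
  rw [Finset.sum_eq_single i] at h3
  · rw [Derivation.leibniz, pderiv_X_self, pderiv_C, smul_zero, add_zero, smul_eq_mul, mul_one] at h3
    exact C_injective _ _ (h3.trans C_0.symm)
  · intro j _ hj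
    rw [Derivation.leibniz, pderiv_C, pderiv_X_of_ne hj]
    simp
  · intro hi
    exact absurd (Finset.mem_univ i) hi

theorem G_mem : c.G ∈ c.L := by
  rw [mem_L_iff]
  unfold G
  rw [map_sum]
  have h1 : ∀ i, c.W (c.u i * c.x i) = c.u i * c.V2 (c.y i) := by
    intro i
    have h2 : c.W (c.u i) = 0 := (c.mem_L_iff _).1 (c.u_mem i)
    rw [Derivation.leibniz, h2, smul_zero, add_zero, smul_eq_mul, c.Wx i]
  simp only [h1]
  exact c.u_D c.V2

theorem E_L (f : Ω) (hf : f ∈ c.L) : c.E f ∈ c.L := by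
  refine der_acl_mem (S := Set.range c.y) (T := Set.range c.y) c.E ?_ ?_ f hf
  · rintro _ ⟨i, rfl⟩
    exact c.y_mem i
  · rintro _ ⟨i, rfl⟩
    rw [c.Ey]
    exact mul_mem (natCast_mem _ _) (c.y_mem i)

end Ctx3

end Pool.Agent.HDP
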