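import Mathlib
import Pool.Agent.Lib.MP_20906e_al.Acl
import Pool.Agent.Lib.MP_20906e_al.Ctx
import Pool.Agent.Lib.MP_20906e_al.Der
import Pool.Agent.Lib.MP_20906e_al.B2a

/-!
# MP_20906e_al, piece B2b : the closed field `L`, derivations with prescribed values (helper8)
-/

namespace Pool.Agent.HDP
open MvPolynomial

section HomFactor
variable {k : Type*} [Field k] {n : ℕ}

/-- the homomorphism `X i ↦ T X i` -/
noncomputable def homT : MvPolynomial (Fin n) k →ₐ[k] Polynomial (MvPolynomial (Fin n) k) :=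
  aeval fun i => Polynomial.C (X i) * Polynomial.X

theorem homT_monomial (s : Fin n →₀ ℕ) (a : k) :
    homT (monomial s a) = Polynomial.monomial s.degree (monomial s a) := by
  rw [homT, aeval_monomial, Finsupp.prod_fintype _ _ (by simp)]
  have h1 : ∀ i, (Polynomial.C (X i : MvPolynomial (Fin n) k) * Polynomial.X) ^ (s i)
      = Polynomial.C ((X i : MvPolynomial (Fin n) k) ^ (s i)) * Polynomial.X ^ (s i) := by
    intro i; rw [mul_pow, Polynomial.C_pow]
  simp_rw [h1]
  rw [Finset.prod_mul_distrib, Finset.prod_pow_eq_pow_sum, ← map_prod,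
    ← Polynomial.C_mul_X_pow_eq_monomial]
  have h2 : s.degree = ∑ i, s i := by
    rw [Finsupp.degree_eq_sum]
  have h3 : (monomial s a : MvPolynomial (Fin n) k) = C a * ∏ i, (X i) ^ (s i) := by
    rw [monomial_eq, Finsupp.prod_fintype _ _ (by simp)]
  rw [h2, h3, Polynomial.C_mul, mul_assoc]
  rfl

theorem coeff_homT (F : MvPolynomial (Fin n) k) (a : ℕ) :
    (homT F).coeff a = homogeneousComponent a F := by
  induction F using MvPolynomial.induction_on' with
  | add p q hp hq => rw [map_add, map_add, Polynomial.coeff_add, hp, hq]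
  | monomial s c =>
    rw [homT_monomial, Polynomial.coeff_monomial]
    ext t
    rw [coeff_homogeneousComponent]
    split_ifs with h1 h2 h2
    · rfl
    · rw [coeff_monomial, if_neg]
      rintro rfl
      exact h2 h1
    · rw [coeff_monomial, if_neg, coeff_zero]
      rintro rfl
      exact h1 h2
    · rfl

theorem homT_of_hom {F : MvPolynomial (Fin n) k} {m : ℕ} (hF : F.IsHomogeneous m) :
    homT F = Polynomial.monomial m F := by
  ext1 a
  rw [coeff_homT, Polynomial.coeff_monomial]
  split_ifs with h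
  · subst h
    exact homogeneousComponent_of_mem hF |>.trans (if_pos rfl)
  · rw [homogeneousComponent_of_mem hF, if_neg (Ne.symm h)]

/-- a factor of a nonzero form is a form -/
theorem hom_of_mul {G P : MvPolynomial (Fin n) k} {m : ℕ} (hF : (G * P).IsHomogeneous m)
    (h0 : G * P ≠ 0) : ∃ a b, a + b = m ∧ G.IsHomogeneous a ∧ P.IsHomogeneous b := by
  have hG : G ≠ 0 := left_ne_zero_of_mul h0
  have hP : P ≠ 0 := right_ne_zero_of_mul h0
  have hinj : ∀ Q : MvPolynomial (Fin n) k, Q ≠ 0 → homT Q ≠ 0 := by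
    intro Q hQ h
    apply hQ
    ext s
    have h1 := coeff_homT Q s.degree
    rw [h, Polynomial.coeff_zero] at h1
    have h2 := congrArg (coeff s) h1
    rw [coeff_homogeneousComponent, if_pos rfl] at h2
    rw [← h2]
  have h1 : homT G * homT P = Polynomial.monomial m (G * P) := by
    rw [← map_mul, homT_of_hom hF]
  have h2 : (homT G).natDegree + (homT P).natDegree = m := by
    rw [← Polynomial.natDegree_mul (hinj G hG) (hinj P hP), h1,
      Polynomial.natDegree_monomial_eq _ h0]
  have h3 : (homT G).natTrailingDegree + (homT P).natTrailingDegree = m := by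
    rw [← Polynomial.natTrailingDegree_mul (hinj G hG) (hinj P hP), h1,
      Polynomial.natTrailingDegree_monomial h0]
  have h4 := Polynomial.natTrailingDegree_le_natDegree (homT G)
  have h5 := Polynomial.natTrailingDegree_le_natDegree (homT P)
  have key : ∀ Q : MvPolynomial (Fin n) k, (homT Q).natDegree ≤ (homT Q).natTrailingDegree →
      Q.IsHomogeneous (homT Q).natDegree := by
    intro Q hQ s hs
    by_contra hne
    have h6 : (homT Q).coeff s.degree = 0 := by
      rcases lt_or_ge s.degree (homT Q).natTrailingDegree with h7 | h7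
      · exact Polynomial.coeff_eq_zero_of_lt_natTrailingDegree h7
      · apply Polynomial.coeff_eq_zero_of_natDegree_lt
        rcases lt_or_eq_of_le (hQ.trans h7) with h8 | h8
        · exact h8
        · refine absurd ?_ hne
          exact (DFunLike.congr_fun (Finsupp.degree_eq_weight_one (R := ℕ) (σ := Fin n)) s).symm.trans
            h8.symm
    rw [coeff_homT] at h6
    have h9 := congrArg (coeff s) h6
    rw [coeff_homogeneousComponent, if_pos rfl, coeff_zero] at h9
    exact hs h9
  exact ⟨_, _, h2, key G (by omega), key P (by omega)⟩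

end HomFactor

section Cons
variable {k Ω : Type*} [Field k] [Field Ω] [Algebra k Ω]

theorem algInd_cons {n : ℕ} {t : Fin n → Ω} (ht : AlgebraicIndependent k t) {f : Ω}
    (hf : f ∉ acl k (Set.range t)) : AlgebraicIndependent k (Fin.cons f t : Fin (n + 1) → Ω) := by
  rw [algInd_iff_notMem]
  intro i
  refine Fin.cases ?_ (fun j => ?_) i
  · intro h
    apply hf
    refine acl_mono ?_ h
    rintro _ ⟨l, hl, rfl⟩
    obtain ⟨l', rfl⟩ := Fin.exists_succ_eq.2 hl
    exact ⟨l', rfl⟩
  · intro h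
    have hj := (algInd_iff_notMem t).1 ht j
    have h1 : t j ∈ acl k (insert f (t '' {j}ᶜ)) := by
      rw [Fin.cons_succ] at h
      refine acl_mono ?_ h
      rintro _ ⟨l, hl, rfl⟩
      refine Fin.cases ?_ (fun l' => ?_) l hl
      · intro _; exact Set.mem_insert _ _
      · intro hl'
        refine Set.mem_insert_of_mem _ ⟨l', ?_, rfl⟩
        intro h2
        rw [Set.mem_singleton_iff] at h2
        subst h2
        exact hl' rfl
    have h2 := acl_exchange h1 hj
    apply hf
    refine acl_mono ?_ h2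
    rintro z (rfl | ⟨l, _, rfl⟩)
    · exact ⟨j, rfl⟩
    · exact ⟨l, rfl⟩

end Cons

namespace Ctx3
variable {k Ω : Type*} [Field k] [IsAlgClosed k] [CharZero k] [Field Ω] [IsAlgClosed Ω] [Algebra k Ω]
  (c : Ctx3 k Ω)

/-- an index `j` with `u j ≠ 0` and dual derivations of the other `y i` -/
theorem exists_index : ∃ j : Fin 4, c.u j ≠ 0 ∧
    AlgebraicIndependent k (fun i : {i : Fin 4 // i ≠ j} => c.y i.1) ∧
    ∃ E : Fin 4 → Derivation k Ω Ω, ∀ i, i ≠ j → (∀ l, l ≠ j → E i (c.y l) = if i = l then 1 else 0) ∧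
      c.u i + c.u j * E i (c.y j) = 0 := by
  classical
  obtain ⟨j, hj⟩ := c.tr3
  obtain ⟨E, hE0, hE1⟩ := exists_dual_of_algInd hj
  let E' : Fin 4 → Derivation k Ω Ω := fun i => if h : i ≠ j then E ⟨i, h⟩ else 0
  have hE' : ∀ i, i ≠ j → ∀ l, l ≠ j → E' i (c.y l) = if i = l then 1 else 0 := by
    intro i hi l hl
    simp only [E', dif_pos hi]
    split_ifs with h
    · subst h; exact hE1 ⟨i, hi⟩
    · exact hE0 ⟨i, hi⟩ ⟨l, hl⟩ (by simpa using h)
  have hsum : ∀ i, i ≠ j → c.u i + c.u j * E' i (c.y j) = 0 := by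
    intro i hi
    have h1 := c.u_D (E' i)
    rw [← Finset.sum_erase_add _ _ (Finset.mem_univ j)] at h1
    rw [Finset.sum_eq_single_of_mem i (by simp [hi])] at h1
    · rw [hE' i hi i hi, if_pos rfl, mul_one] at h1
      exact h1
    · intro l hl hli
      rw [hE' i hi l (by simpa using hl), if_neg (Ne.symm hli), mul_zero]
  refine ⟨j, ?_, hj, E', fun i hi => ⟨hE' i hi, hsum i hi⟩⟩
  intro h0
  obtain ⟨i, hi⟩ := c.u_ne
  by_cases hij : i = j
  · subst hij; exact hi h0
  · have := hsum i hij
    rw [h0, zero_mul, add_zero] at this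
    exact hi this

/-- the left kernel is spanned by `u` -/
theorem ker_left (ρ : Fin 4 → Ω) (h : ∀ D : Derivation k Ω Ω, ∑ i, ρ i * D (c.y i) = 0) :
    ∃ e : Ω, ∀ i, ρ i = e * c.u i := by
  classical
  obtain ⟨j, huj, hj, E, hE⟩ := c.exists_index
  refine ⟨ρ j / c.u j, fun i => ?_⟩
  by_cases hij : i = j
  · subst hij; field_simp
  · have h1 := h (E i)
    rw [← Finset.sum_erase_add _ _ (Finset.mem_univ j)] at h1
    rw [Finset.sum_eq_single_of_mem i (by simp [hij])] at h1
    · rw [(hE i hij).1 i hij, if_pos rfl, mul_one] at h1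
      have h2 := (hE i hij).2
      field_simp
      linear_combination c.u j * h1 - ρ j * h2
    · intro l hl hli
      rw [(hE i hij).1 l (by simpa using hl), if_neg (Ne.symm hli), mul_zero]

/-- derivations with prescribed values on `y` -/
theorem exists_der_y (v : Fin 4 → Ω) (hv : ∑ i, c.u i * v i = 0) :
    ∃ D : Derivation k Ω Ω, (∀ i, D (c.y i) = v i) ∧ ((∀ i, v i ∈ c.L) → ∀ f ∈ c.L, D f ∈ c.L) := by
  classical
  obtain ⟨j, huj, hj, E, hE⟩ := c.exists_index
  let D : Derivation k Ω Ω := ∑ i ∈ Finset.univ.erase j, v i • E i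
  have hD1 : ∀ l, l ≠ j → D (c.y l) = v l := by
    intro l hl
    simp only [D]
    rw [der_sum_apply, Finset.sum_eq_single_of_mem l (by simp [hl])]
    · rw [Derivation.smul_apply, (hE l hl).1 l hl, if_pos rfl, smul_eq_mul, mul_one]
    · intro i hi hil
      rw [Derivation.smul_apply, (hE i (by simpa using hi)).1 l hl, if_neg hil, smul_zero]
  have hD : ∀ i, D (c.y i) = v i := by
    intro i
    by_cases hij : i = j
    · subst hij
      have h1 := c.u_D D
      have h2 : ∑ l, c.u l * D (c.y l) - ∑ l, c.u l * v l = c.u i * (D (c.y i) - v i) := by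
        rw [← Finset.sum_sub_distrib, Finset.sum_eq_single i]
        · ring
        · intro l _ hl
          rw [hD1 l hl, sub_self]
        · simp
      rw [h1, hv, sub_zero] at h2
      exact sub_eq_zero.1 ((mul_eq_zero.1 h2.symm).resolve_left huj)
    · exact hD1 i hij
  refine ⟨D, hD, fun hvL f hf => ?_⟩
  refine der_acl_mem D (S := Set.range c.y) (T := Set.range c.y) (subset_acl _) ?_ f hf
  rintro _ ⟨i, rfl⟩
  rw [hD]
  exact hvL i

theorem der_eq_on_L (D D' : Derivation k Ω Ω) (h : ∀ i, D (c.y i) = D' (c.y i)) :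
    ∀ f ∈ c.L, D f = D' f :=
  der_acl_eq D D' (by rintro _ ⟨i, rfl⟩; exact h i)

/-- three of the `y i` form a transcendence basis of `L` -/
theorem exists_three : ∃ y' : Fin 3 → Ω, AlgebraicIndependent k y' ∧ (∀ i, ∃ l, y' i = c.y l) ∧
    ∀ f ∈ c.L, f ∈ acl k (Set.range y') := by
  classical
  obtain ⟨j, huj, hj, -⟩ := c.exists_index
  let y' : Fin 3 → Ω := fun i => c.y (j.succAbove i)
  have hy' : AlgebraicIndependent k y' := by
    have := hj.comp (fun i : Fin 3 => (⟨j.succAbove i, Fin.succAbove_ne j i⟩ : {i : Fin 4 // i ≠ j}))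
      (by
        intro a b hab
        simpa using hab)
    exact this
  refine ⟨y', hy', fun i => ⟨_, rfl⟩, ?_⟩
  have hle : c.L ≤ acl k (Set.range y') := by
    rw [L, acl_le_iff]
    rintro _ ⟨i, rfl⟩
    by_cases hij : i = j
    · subst hij
      apply mem_acl_of_forall_der c.tb
      intro D hD
      have h1 := c.u_D D
      rw [Finset.sum_eq_single i] at h1
      · exact (mul_eq_zero.1 h1).resolve_left huj
      · intro l _ hl
        obtain ⟨l', rfl⟩ := Fin.exists_succAbove_eq hl
        rw [hD _ ⟨l', rfl⟩, mul_zero]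
      · simp
    · obtain ⟨l', rfl⟩ := Fin.exists_succAbove_eq hij
      exact subset_acl _ ⟨l', rfl⟩
  exact hle

theorem not_algInd_four (t : Fin 4 → Ω) (hL : ∀ i, t i ∈ c.L) : ¬ AlgebraicIndependent k t := by
  obtain ⟨y', -, -, hy⟩ := c.exists_three
  exact not_algInd_of_lt (fun i => hy _ (hL i)) (by norm_num)

/-- `L` has transcendence degree three -/
theorem L_eq_acl (t : Fin 3 → Ω) (ht : AlgebraicIndependent k t) (hL : ∀ i, t i ∈ c.L) :
    ∀ f, f ∈ c.L ↔ f ∈ acl k (Set.range t) := by
  intro f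
  constructor
  · intro hf
    by_contra hne
    refine c.not_algInd_four (Fin.cons f t) ?_ (algInd_cons ht hne)
    intro i
    refine Fin.cases hf (fun j => hL j) i
  · intro hf
    have hle : acl k (Set.range t) ≤ c.L := by
      rw [L, acl_le_iff]
      rintro _ ⟨i, rfl⟩
      exact hL i
    exact hle hf

theorem L_algInd (t : Fin 3 → Ω) (h : ∀ i, c.y i ∈ acl k (Set.range t)) :
    AlgebraicIndependent k t := by
  obtain ⟨y', hy', hyl, -⟩ := c.exists_three
  rw [algInd_iff_notMem]
  intro i hi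
  have hle : acl k (Set.range t) ≤ acl k (Set.range fun l : Fin 2 => t (i.succAbove l)) := by
    rw [acl_le_iff]
    rintro _ ⟨l, rfl⟩
    by_cases hl : l = i
    · subst hl
      refine acl_mono ?_ hi
      rintro _ ⟨m, hm, rfl⟩
      obtain ⟨m', rfl⟩ := Fin.exists_succAbove_eq hm
      exact ⟨m', rfl⟩
    · obtain ⟨l', rfl⟩ := Fin.exists_succAbove_eq hl
      exact subset_acl _ ⟨l', rfl⟩
  refine not_algInd_of_lt (f := fun l : Fin 2 => t (i.succAbove l)) (g := y') ?_ (by norm_num) hy'
  intro m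
  obtain ⟨l, hl⟩ := hyl m
  rw [hl]
  exact hle (h l)

/-- elements of degree zero -/
theorem deg_zero_mem (τ s : Ω) (hτ : τ ∈ c.L) (hs : s ∈ c.L) (hind : AlgebraicIndependent k ![τ, s])
    (hEτ : c.E τ = 0) (hEs : c.E s = 0) {z : Ω} (hz : z ∈ c.L) (hEz : c.E z = 0) :
    z ∈ acl k ({τ, s} : Set Ω) := by
  by_contra hne
  have hr : Set.range ![τ, s] = {τ, s} := by
    ext a
    simp [eq_comm, or_comm]
  have ht : AlgebraicIndependent k (Fin.cons z ![τ, s] : Fin 3 → Ω) := by
    apply algInd_cons hind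
    rwa [hr]
  have hL : ∀ i, (Fin.cons z ![τ, s] : Fin 3 → Ω) i ∈ c.L := by
    intro i
    refine Fin.cases hz (fun j => ?_) i
    refine Fin.cases hτ (fun l => ?_) j
    have : l = 0 := Subsingleton.elim _ _
    subst this
    exact hs
  have hE : ∀ f ∈ c.L, c.E f = 0 := by
    intro f hf
    have h1 := (c.L_eq_acl _ ht hL f).1 hf
    refine der_acl_zero c.E ?_ f h1
    rintro _ ⟨i, rfl⟩
    refine Fin.cases hEz (fun j => ?_) i
    refine Fin.cases hEτ (fun l => ?_) j
    have : l = 0 := Subsingleton.elim _ _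
    subst this
    exact hEs
  obtain ⟨y', hy', hyl, -⟩ := c.exists_three
  obtain ⟨l, hl⟩ := hyl 0
  have h1 := hE _ (c.y_mem l)
  rw [c.Ey, ← hl] at h1
  have h2 : (c.d : Ω) ≠ 0 := by
    have : CharZero Ω := charZero_of_injective_algebraMap (algebraMap k Ω).injective
    have := c.hd
    exact_mod_cast (by omega : c.d ≠ 0)
  exact hy'.ne_zero 0 ((mul_eq_zero.1 h1).resolve_left h2)

/-- an element of `k` is never homogeneous of nonzero degree -/
theorem eq_zero_of_E {z : Ω} (hz : z ∈ acl k (∅ : Set Ω)) {m : Ω} (hm : m ≠ 0) (h : c.E z = m * z) :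
    z = 0 := by
  have h1 := der_acl_zero c.E (S := ∅) (by simp) z hz
  rw [h1] at h
  exact (mul_eq_zero.1 h.symm).resolve_left hm

theorem E_aeval {F : MvPolynomial (Fin 4) k} {m : ℕ} (hF : F.IsHomogeneous m) :
    c.E (aeval c.x F) = (m : Ω) * aeval c.x F := by
  rw [der_aeval]
  have h1 := hF.sum_X_mul_pderiv
  have h2 := congrArg (aeval c.x) h1
  rw [map_sum, map_nsmul, nsmul_eq_mul] at h2
  rw [← h2]
  apply Finset.sum_congr rfl
  intro i _
  rw [map_mul, aeval_X, c.Ex, mul_comm]

/-- a rational function `z` of the `x i` homogeneous of degree zero is a quotient of coprime forms of the same degree -/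
theorem exists_coprime_forms {A B : MvPolynomial (Fin 4) k} {m : ℕ} (hA : A.IsHomogeneous m)
    (hB : B.IsHomogeneous m) (hB0 : B ≠ 0) (hnc : aeval c.x A / aeval c.x B ∉ acl k (∅ : Set Ω)) :
    ∃ (P Q : MvPolynomial (Fin 4) k) (e : ℕ), e ≠ 0 ∧ IsRelPrime P Q ∧ P.IsHomogeneous e ∧
      Q.IsHomogeneous e ∧ aeval c.x Q ≠ 0 ∧ aeval c.x A / aeval c.x B = aeval c.x P / aeval c.x Q := by
  have hA0 : A ≠ 0 := by
    rintro rfl
    apply hnc
    rw [map_zero, zero_div]
    exact zero_mem _
  have hinj : ∀ F : MvPolynomial (Fin 4) k, F ≠ 0 → aeval c.x F ≠ 0 := fun F hF h =>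
    hF ((injective_iff_map_eq_zero _).1 c.tb.1 F h)
  obtain ⟨P, Q, G, hrel, hP, hQ⟩ := UniqueFactorizationMonoid.exists_reduced_factors A hA0 B
  subst hP hQ
  obtain ⟨a, b, hab, hGa, hPb⟩ := hom_of_mul hA hA0
  obtain ⟨a', b', hab', hGa', hQb⟩ := hom_of_mul hB hB0
  have hG0 : G ≠ 0 := left_ne_zero_of_mul hA0
  have hP0 : P ≠ 0 := right_ne_zero_of_mul hA0
  have hQ0 : Q ≠ 0 := right_ne_zero_of_mul hB0
  have haa : a = a' := hGa.inj_right hGa' hG0
  have hbb : b' = b := by omega
  subst hbb
  have hratio : aeval c.x (G * P) / aeval c.x (G * Q) = aeval c.x P / aeval c.x Q := by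
    rw [map_mul, map_mul, mul_div_mul_left _ _ (hinj G hG0)]
  refine ⟨P, Q, b', ?_, hrel, hPb, hQb, hinj Q hQ0, hratio⟩
  rintro rfl
  apply hnc
  rw [hratio]
  have h1 := totalDegree_eq_zero_iff_eq_C.1 (Nat.le_zero.1 hPb.totalDegree_le)
  have h2 := totalDegree_eq_zero_iff_eq_C.1 (Nat.le_zero.1 hQb.totalDegree_le)
  rw [h1, h2, aeval_C, aeval_C]
  exact div_mem (IntermediateField.algebraMap_mem _ _) (IntermediateField.algebraMap_mem _ _)

end Ctx3
end Pool.Agent.HDP
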