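import Mathlib
import Pool.Agent.Lib.MP_20906e_al.Acl

namespace Pool.Agent.HDP
open MvPolynomial

section Place
variable {k Ω : Type*} [Field k] [Field Ω] [Algebra k Ω]

/-! ## Q3: places -/
theorem exists_place {S : Set Ω} {z : Ω} (hz : z ∉ acl k S) :
    ∃ V : ValuationSubring Ω, (∀ a ∈ acl k S, a ∈ V) ∧ z ∉ V := by
  let R : Subring Ω := (acl k S).toSubfield.toSubring
  have hR : ∀ x, x ∈ R ↔ x ∈ acl k S := fun x => Iff.rfl
  have : IsIntegrallyClosedIn R Ω := by
    rw [Subring.isIntegrallyClosedIn_iff]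
    intro x hx
    have h1 : IsIntegral (acl k S) x := hx
    exact (hR x).2 (mem_acl_of_isAlgebraic h1.isAlgebraic)
  have hzR : z ∉ R := fun h => hz ((hR z).1 h)
  obtain ⟨V, hV, hzV⟩ := Subring.exists_le_valuationSubring_of_isIntegrallyClosedIn hzR
  exact ⟨V, fun a ha => hV ((hR a).2 ha), hzV⟩

theorem acl_val_eq_one {S : Set Ω} (V : ValuationSubring Ω) (hV : ∀ a ∈ acl k S, a ∈ V) {e : Ω}
    (he : e ∈ acl k S) (h0 : e ≠ 0) : V.valuation e = 1 := by
  have h1 : V.valuation e ≤ 1 := (V.valuation_le_one_iff e).2 (hV e he)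
  have h2 : V.valuation e⁻¹ ≤ 1 := (V.valuation_le_one_iff e⁻¹).2 (hV _ (inv_mem he))
  rw [map_inv₀] at h2
  have h3 : V.valuation e ≠ 0 := by simpa using h0
  refine le_antisymm h1 ?_
  by_contra hlt
  push Not at hlt
  have := one_lt_inv₀ (zero_lt_iff.2 h3) |>.2 hlt
  exact absurd h2 (not_le.2 this)

theorem residue_unique {S : Set Ω} (V : ValuationSubring Ω) (hV : ∀ a ∈ acl k S, a ∈ V) {e e' z : Ω}
    (he : e ∈ acl k S) (he' : e' ∈ acl k S) (h : V.valuation (z - e) < 1)
    (h' : V.valuation (z - e') < 1) : e = e' := by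
  by_contra hne
  have h1 : V.valuation (e - e') = 1 := acl_val_eq_one V hV (sub_mem he he') (sub_ne_zero.2 hne)
  have h2 : e - e' = (z - e') - (z - e) := by ring
  rw [h2] at h1
  exact absurd h1 (ne_of_lt (Valuation.map_sub_lt _ h' h))

/-- a valuation ring containing `S` with all nonzero polynomial expressions units contains `acl k S`. -/
theorem acl_le_of_trivial {S : Set Ω} (V : ValuationSubring Ω)
    (hV : ∀ a ∈ IntermediateField.adjoin k S, a ∈ V) : ∀ a ∈ acl k S, a ∈ V := by
  intro a ha
  have h1 : IsIntegral (IntermediateField.adjoin k S) a := (mem_acl_iff.1 ha).isIntegral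
  let φ : IntermediateField.adjoin k S →+* V.toSubring :=
    (algebraMap (IntermediateField.adjoin k S) Ω).codRestrict V.toSubring (fun x => hV x x.2)
  have h2 : IsIntegral V.toSubring (RingHom.id Ω a) := by
    refine IsIntegral.map_of_comp_eq φ (RingHom.id Ω) ?_ h1
    ext x
    rfl
  have : IsIntegrallyClosedIn V.toSubring Ω := inferInstanceAs (IsIntegrallyClosedIn V Ω)
  rw [Subring.isIntegrallyClosedIn_iff] at this
  exact this h2

/-- relative residue lemma -/
theorem exists_residue [IsAlgClosed Ω] {S : Set Ω} {t : Ω} (V : ValuationSubring Ω)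
    (hV : ∀ a ∈ acl k S, a ∈ V) (ht : ∃ c ∈ acl k (insert t S), c ∉ V) {z : Ω}
    (hz : z ∈ acl k (insert t S)) (hzV : z ∈ V) : ∃ e ∈ acl k S, V.valuation (z - e) < 1 := by
  by_cases hzS : z ∈ acl k S
  · exact ⟨z, hzS, by simp⟩
  have htz : t ∈ acl k (insert z S) := acl_exchange hz hzS
  have hL : acl k (insert t S) ≤ acl k (insert z S) := by
    rw [acl_le_iff]
    intro x hx
    rcases Set.mem_insert_iff.1 hx with rfl | hx
    · exact htz
    · exact subset_acl _ (Set.mem_insert_of_mem _ hx)
  obtain ⟨c, hc, hcV⟩ := ht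
  have key : ∃ p : Polynomial (acl k S), p ≠ 0 ∧ V.valuation (Polynomial.aeval z p) < 1 := by
    by_contra hno
    push Not at hno
    have hle : ∀ p : Polynomial (acl k S), V.valuation (Polynomial.aeval z p) ≤ 1 := by
      intro p
      rw [V.valuation_le_one_iff, Polynomial.aeval_eq_sum_range]
      refine sum_mem fun i _ => ?_
      rw [Algebra.smul_def]
      exact mul_mem (hV _ (p.coeff i).2) (pow_mem hzV i)
    have hF : ∀ a ∈ IntermediateField.adjoin (acl k S) {z}, a ∈ V := by
      intro a ha
      rw [IntermediateField.mem_adjoin_simple_iff] at ha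
      obtain ⟨r, s, rfl⟩ := ha
      rw [← V.valuation_le_one_iff, map_div₀]
      by_cases hs : s = 0
      · simp [hs]
      · have h1 : V.valuation (Polynomial.aeval z s) = 1 := le_antisymm (hle s) (hno s hs)
        rw [h1, div_one]
        exact hle r
    refine hcV (acl_le_of_trivial (k := k) (S := insert z S) V ?_ c (hL hc))
    have h2 : IntermediateField.adjoin k (insert z S) ≤
        (IntermediateField.adjoin (acl k S) {z}).restrictScalars k := by
      rw [IntermediateField.adjoin_le_iff]
      intro x hx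
      rw [SetLike.mem_coe, IntermediateField.mem_restrictScalars]
      rcases Set.mem_insert_iff.1 hx with h | h
      · rw [h]
        exact IntermediateField.mem_adjoin_simple_self (acl k S) z
      · have hxa : x ∈ acl k S := subset_acl S h
        have := (IntermediateField.adjoin (acl k S) {z}).algebraMap_mem ⟨x, hxa⟩
        simpa using this
    intro a ha
    have h3 := h2 ha
    rw [IntermediateField.mem_restrictScalars] at h3
    exact hF a h3
  obtain ⟨p, hp0, hp⟩ := key
  have := acl_isAlgClosed (k := k) S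
  have hsp := IsAlgClosed.splits p
  by_contra hno
  push Not at hno
  have h1 : V.valuation (Polynomial.aeval z p) = 1 := by
    rw [hsp.eq_prod_roots]
    rw [map_mul, map_mul, Polynomial.aeval_C, map_multiset_prod, map_multiset_prod]
    have hlc : V.valuation (algebraMap (acl k S) Ω p.leadingCoeff) = 1 :=
      acl_val_eq_one V hV p.leadingCoeff.2 (by
        have : p.leadingCoeff ≠ 0 := Polynomial.leadingCoeff_ne_zero.2 hp0
        simpa using this)
    rw [hlc, one_mul]
    apply Multiset.prod_eq_one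
    intro x hx
    simp only [Multiset.map_map, Multiset.mem_map, Function.comp] at hx
    obtain ⟨e, -, rfl⟩ := hx
    rw [map_sub, Polynomial.aeval_X, Polynomial.aeval_C]
    refine le_antisymm ?_ (hno _ e.2)
    rw [V.valuation_le_one_iff]
    exact sub_mem hzV (hV _ e.2)
  exact absurd h1 (ne_of_lt hp)

/-- prescribed centre -/
theorem exists_valuationSubring_center (B : Subring Ω) (p : Ideal B) (hp : p.IsPrime) :
    ∃ V : ValuationSubring Ω, (∀ b : B, (b : Ω) ∈ V) ∧ ∀ b : B, (V.valuation (b : Ω) < 1 ↔ b ∈ p) := by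
  obtain ⟨V, hV⟩ := (LocalSubring.ofPrime B p).exists_le_valuationSubring
  obtain ⟨hle, hloc⟩ := hV
  have hB : B ≤ V.toSubring := (LocalSubring.le_ofPrime B p).trans hle
  refine ⟨V, fun b => hB b.2, fun b => ?_⟩
  have h1 : IsUnit (algebraMap B (LocalSubring.ofPrime B p).toSubring b) ↔ b ∉ p := by
    rw [IsLocalization.AtPrime.isUnit_to_map_iff (LocalSubring.ofPrime B p).toSubring p b]
    rfl
  have h2 : V.valuation (b : Ω) < 1 ↔ ¬ IsUnit (⟨(b : Ω), hB b.2⟩ : V) := by
    have h := V.valuation_lt_one_iff ⟨(b : Ω), hB b.2⟩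
    rw [IsLocalRing.mem_maximalIdeal, mem_nonunits_iff] at h
    exact h.symm
  rw [h2]
  have h3 : IsUnit (⟨(b : Ω), hB b.2⟩ : V) ↔
      IsUnit (algebraMap B (LocalSubring.ofPrime B p).toSubring b) := by
    constructor
    · intro h
      exact hloc.1 _ h
    · intro h
      exact h.map (Subring.inclusion hle)
  rw [h3, h1, not_not]

end Place
end Pool.Agent.HDP
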