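import Mathlib
import Pool.Agent.Lib.MP_20906e_al.Defs
import Pool.Agent.Lib.MP_20906e_al.Ctx
import Pool.Agent.Lib.MP_20906e_al.Acl
import Pool.Agent.Lib.MP_20906e_al.Place
import Pool.Agent.Lib.MP_20906e_al.CP
import Pool.Agent.Lib.MP_20906e_al.Der

/-!
# MP_20906e_al, piece B3: places of the rank three context (helper72)
-/

set_option linter.unusedSectionVars false

namespace Pool.Agent.HDP
open MvPolynomial

section General
variable {k Ω : Type*} [Field k] [Field Ω] [Algebra k Ω]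

/-- a family of `n` elements whose closure contains `n` independent elements is independent -/
theorem b3_algInd_of_rank {n : ℕ} {f g : Fin n → Ω} (hg : AlgebraicIndependent k g)
    (h : ∀ i, g i ∈ acl k (Set.range f)) : AlgebraicIndependent k f := by
  by_contra hf
  rw [algInd_iff_notMem] at hf
  push Not at hf
  obtain ⟨i, hi⟩ := hf
  obtain ⟨m, rfl⟩ : ∃ m, n = m + 1 := ⟨n - 1, by have := i.2; omega⟩
  have h1 : acl k (Set.range f) ≤ acl k (Set.range (fun j => f (i.succAbove j))) := by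
    rw [acl_le_iff]
    have h2 : f '' {i}ᶜ ⊆ Set.range (fun j => f (i.succAbove j)) := by
      rintro _ ⟨j, hj, rfl⟩
      obtain ⟨l, rfl⟩ := Fin.exists_succAbove_eq hj
      exact ⟨l, rfl⟩
    rintro _ ⟨j, rfl⟩
    by_cases hj : j = i
    · subst hj
      exact acl_mono h2 hi
    · exact subset_acl _ (h2 ⟨j, hj, rfl⟩)
  exact not_algInd_of_lt (fun i => h1 (h i)) (Nat.lt_succ_self m) hg

/-- value of a polynomial with integral coefficients at congruent points -/
theorem b3_eval_sub {σ : Type*} (V : ValuationSubring Ω) (F : MvPolynomial σ Ω)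
    (hF : ∀ s, F.coeff s ∈ V) {z b : σ → Ω} (hz : ∀ i, z i ∈ V) (hb : ∀ i, b i ∈ V)
    (hzb : ∀ i, V.valuation (z i - b i) < 1) : V.valuation (eval z F - eval b F) < 1 := by
  have hl : ∃ F' : MvPolynomial σ V, map V.subtype F' = F := by
    refine (mem_range_map_iff_coeffs_subset (f := V.subtype) (x := F)).2 ?_
    intro a ha
    obtain ⟨s, -, hs⟩ := mem_coeffs_iff.1 ha
    exact ⟨⟨F.coeff s, hF s⟩, hs.symm⟩
  obtain ⟨F', rfl⟩ := hl
  have hev : ∀ (w : σ → V), eval (fun i => (w i : Ω)) (map V.subtype F') = V.subtype (eval w F') := by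
    intro w
    have := eval₂_comp_left V.subtype (RingHom.id V) w F'
    rw [eval_map]
    exact this.symm
  let z' : σ → V := fun i => ⟨z i, hz i⟩
  let b' : σ → V := fun i => ⟨b i, hb i⟩
  have hr : ∀ w : σ → V, IsLocalRing.residue V (eval w F') =
      eval₂ (IsLocalRing.residue V) (fun i => IsLocalRing.residue V (w i)) F' := by
    intro w
    have := eval₂_comp_left (IsLocalRing.residue V) (RingHom.id V) w F'
    simpa [Function.comp_def] using this
  have hzb' : ∀ i, IsLocalRing.residue V (z' i) = IsLocalRing.residue V (b' i) := by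
    intro i
    rw [← sub_eq_zero, ← map_sub, IsLocalRing.residue_eq_zero_iff]
    exact (V.valuation_lt_one_iff _).2 (hzb i)
  have h1 : IsLocalRing.residue V (eval z' F' - eval b' F') = 0 := by
    rw [map_sub, hr, hr, sub_eq_zero]
    simp only [hzb']
  rw [IsLocalRing.residue_eq_zero_iff] at h1
  have h2 := (V.valuation_lt_one_iff _).1 h1
  have h3 : eval z (map V.subtype F') - eval b (map V.subtype F') =
      ((eval z' F' - eval b' F' : V) : Ω) := by
    have e1 := hev z'
    have e2 := hev b'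
    rw [show z = fun i => (z' i : Ω) from rfl, show b = fun i => (b' i : Ω) from rfl, e1, e2]
    rfl
  rw [h3]
  exact h2

theorem b3_eval_mem (V : ValuationSubring Ω) {σ : Type*} (F : MvPolynomial σ Ω)
    (hF : ∀ s, F.coeff s ∈ V) {z : σ → Ω} (hz : ∀ i, z i ∈ V) : eval z F ∈ V := by
  rw [eval_eq]
  exact sum_mem fun s _ => mul_mem (hF s) (prod_mem fun i _ => pow_mem (hz i) _)

theorem b3_eval_acl (A : IntermediateField k Ω) {σ : Type*} (F : MvPolynomial σ Ω)
    (hF : ∀ s, F.coeff s ∈ A) {z : σ → Ω} (hz : ∀ i, z i ∈ A) : eval z F ∈ A := by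
  rw [eval_eq]
  exact sum_mem fun s _ => mul_mem (hF s) (prod_mem fun i _ => pow_mem (hz i) _)

theorem b3_aeval_acl (A : IntermediateField k Ω) {σ : Type*} (F : MvPolynomial σ k)
    {z : σ → Ω} (hz : ∀ i, z i ∈ A) : aeval z F ∈ A := by
  rw [aeval_def, eval₂_eq]
  exact sum_mem fun s _ => mul_mem (A.algebraMap_mem _) (prod_mem fun i _ => pow_mem (hz i) _)

/-- value of a polynomial over `k` at congruent points -/
theorem b3_aeval_sub {σ : Type*} (V : ValuationSubring Ω) (hk : ∀ a : k, algebraMap k Ω a ∈ V)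
    (F : MvPolynomial σ k) {z b : σ → Ω} (hz : ∀ i, z i ∈ V) (hb : ∀ i, b i ∈ V)
    (hzb : ∀ i, V.valuation (z i - b i) < 1) : V.valuation (aeval z F - aeval b F) < 1 := by
  have h := b3_eval_sub V (map (algebraMap k Ω) F) (fun s => by rw [coeff_map]; exact hk _) hz hb hzb
  rw [eval_map, eval_map] at h
  exact h

/-- homogeneity -/
theorem b3_eval_hom {σ : Type*} {F : MvPolynomial σ Ω} {m : ℕ} (hF : F.IsHomogeneous m) (z : σ → Ω)
    (t : Ω) : eval (fun i => t * z i) F = t ^ m * eval z F := by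
  rw [eval_eq, eval_eq, Finset.mul_sum]
  refine Finset.sum_congr rfl fun s hs => ?_
  have h2 : s.degree = m := by
    have h3 := hF (mem_support_iff.1 hs)
    rw [Finsupp.degree_eq_weight_one (R := ℕ)]
    exact h3
  simp only [mul_pow, Finset.prod_mul_distrib]
  rw [Finset.prod_pow_eq_pow_sum, ← h2]
  have h4 : s.degree = ∑ i ∈ s.support, s i := rfl
  rw [h4]
  ring

theorem b3_aeval_hom {σ : Type*} {F : MvPolynomial σ k} {m : ℕ} (hF : F.IsHomogeneous m) (z : σ → Ω)
    (t : Ω) : aeval (fun i => t * z i) F = t ^ m * aeval z F := by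
  have h := b3_eval_hom (hF.map (algebraMap k Ω)) z t
  rw [eval_map, eval_map] at h
  exact h

end General

namespace Ctx3
variable {k Ω : Type*} [Field k] [IsAlgClosed k] [CharZero k] [Field Ω] [IsAlgClosed Ω] [Algebra k Ω]
  (c : Ctx3 k Ω)

theorem b3_y_mem (i : Fin 4) : c.y i ∈ c.L := subset_acl _ ⟨i, rfl⟩

theorem b3_u_mem (i : Fin 4) : c.u i ∈ c.L := b3_aeval_acl _ _ c.b3_y_mem

/-- adding any element outside `L` gives a transcendence basis -/
theorem b3_update (j : Fin 4) (hj : AlgebraicIndependent k (fun i : {i : Fin 4 // i ≠ j} => c.y i.1))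
    {z : Ω} (hz : z ∉ acl k (c.y '' {j}ᶜ)) :
    AlgebraicIndependent k (Function.update c.y j z) := by
  rw [algInd_iff_notMem]
  have hyj : ∀ i, i ≠ j → c.y i ∉ acl k (c.y '' {i, j}ᶜ) := by
    intro i hi
    have := (algInd_iff_notMem _).1 hj ⟨i, hi⟩
    convert this using 3
    ext w
    constructor
    · rintro ⟨l, hl, rfl⟩
      simp only [Set.mem_compl_iff, Set.mem_insert_iff, Set.mem_singleton_iff, not_or] at hl
      exact ⟨⟨l, hl.2⟩, fun h => hl.1 (congrArg Subtype.val h), rfl⟩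
    · rintro ⟨⟨l, hl⟩, hl', rfl⟩
      refine ⟨l, ?_, rfl⟩
      simp only [Set.mem_compl_iff, Set.mem_insert_iff, Set.mem_singleton_iff, not_or]
      exact ⟨fun h => hl' (Subtype.ext h), hl⟩
  intro i
  by_cases hi : i = j
  · subst hi
    rw [Function.update_self]
    convert hz using 3
    ext w
    constructor
    · rintro ⟨l, hl, rfl⟩
      exact ⟨l, hl, by rw [Function.update_of_ne hl]⟩
    · rintro ⟨l, hl, rfl⟩
      exact ⟨l, hl, by rw [Function.update_of_ne hl]⟩
  · rw [Function.update_of_ne hi]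
    intro hmem
    have h1 : Function.update c.y j z '' {i}ᶜ ⊆ insert z (c.y '' {i, j}ᶜ) := by
      rintro _ ⟨l, hl, rfl⟩
      by_cases hlj : l = j
      · subst hlj
        rw [Function.update_self]
        exact Set.mem_insert _ _
      · rw [Function.update_of_ne hlj]
        refine Set.mem_insert_of_mem _ ⟨l, ?_, rfl⟩
        simp only [Set.mem_compl_iff, Set.mem_insert_iff, Set.mem_singleton_iff, not_or]
        exact ⟨hl, hlj⟩
    have h2 := acl_exchange (acl_mono h1 hmem) (hyj i hi)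
    apply hz
    refine acl_mono ?_ h2
    intro w hw
    rcases Set.mem_insert_iff.1 hw with rfl | ⟨l, hl, rfl⟩
    · exact ⟨i, hi, rfl⟩
    · simp only [Set.mem_compl_iff, Set.mem_insert_iff, Set.mem_singleton_iff, not_or] at hl
      exact ⟨l, hl.2, rfl⟩

/-- `L` is generated by three independent `y`'s. -/
theorem b3_tr : ∃ j : Fin 4, AlgebraicIndependent k (fun i : {i : Fin 4 // i ≠ j} => c.y i.1) ∧
    c.L = acl k (c.y '' {j}ᶜ) := by
  obtain ⟨j, hj⟩ := c.tr3
  refine ⟨j, hj, le_antisymm ?_ (acl_mono (Set.image_subset_range _ _))⟩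
  rw [L, acl_le_iff]
  have hyj : c.y j ∈ acl k (c.y '' {j}ᶜ) := by
    by_contra hne
    have h := c.b3_update j hj hne
    rw [Function.update_eq_self] at h
    exact c.Rirr.ne_zero (h (by rw [c.Ry, map_zero]))
  rintro _ ⟨i, rfl⟩
  by_cases hi : i = j
  · rw [hi]; exact hyj
  · exact subset_acl _ ⟨i, hi, rfl⟩

/-- an element outside `L` generates everything over `L`. -/
theorem b3_gen {z : Ω} (hz : z ∉ c.L) (w : Ω) : w ∈ acl k (insert z (Set.range c.y)) := by
  obtain ⟨j, hj, hL⟩ := c.b3_tr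
  rw [hL] at hz
  have h := isTB_of_algInd c.tb (c.b3_update j hj hz)
  refine acl_mono ?_ (((isTB_iff _).1 h).2 w)
  rintro _ ⟨i, rfl⟩
  by_cases hi : i = j
  · subst hi
    rw [Function.update_self]
    exact Set.mem_insert _ _
  · rw [Function.update_of_ne hi]
    exact Set.mem_insert_of_mem _ ⟨i, rfl⟩

/-- three independent elements of `L` -/
theorem b3_fin3 : ∃ j : Fin 4, AlgebraicIndependent k (fun i : Fin 3 => c.y (j.succAbove i)) ∧
    c.L = acl k (Set.range (fun i : Fin 3 => c.y (j.succAbove i))) := by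
  obtain ⟨j, hj, hL⟩ := c.b3_tr
  refine ⟨j, ?_, ?_⟩
  · exact hj.comp (fun i : Fin 3 => (⟨j.succAbove i, Fin.succAbove_ne j i⟩ : {i : Fin 4 // i ≠ j}))
      (fun a b h => Fin.succAbove_right_injective (congrArg Subtype.val h))
  · rw [hL]
    congr 1
    ext w
    constructor
    · rintro ⟨i, hi, rfl⟩
      obtain ⟨l, rfl⟩ := Fin.exists_succAbove_eq hi
      exact ⟨l, rfl⟩
    · rintro ⟨l, rfl⟩
      exact ⟨_, Fin.succAbove_ne j l, rfl⟩

/-! ## B3: places -/
theorem exists_infinite : ∃ V : ValuationSubring Ω, c.IsPlace V ∧ ∃ i, c.x i ∉ V := by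
  have h : ∃ i, c.x i ∉ c.L := by
    by_contra hno
    push Not at hno
    obtain ⟨j, hj, hL⟩ := c.b3_fin3
    rw [hL] at hno
    exact not_algInd_of_lt hno (by norm_num) c.tb.1
  obtain ⟨i, hi⟩ := h
  obtain ⟨V, hV, hiV⟩ := exists_place hi
  exact ⟨V, hV, i, hiV⟩

theorem res_exists (V : ValuationSubring Ω) (hV : c.IsPlace V) (hne : ∃ z, z ∉ V) {z : Ω} (hz : z ∈ V) :
    ∃ e ∈ c.L, V.valuation (z - e) < 1 := by
  obtain ⟨t, ht⟩ := hne
  have htL : t ∉ c.L := fun h => ht (hV t h)
  exact exists_residue V hV ⟨t, subset_acl _ (Set.mem_insert _ _), ht⟩ (c.b3_gen htL z) hz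

theorem exists_dir (V : ValuationSubring Ω) (hV : c.IsPlace V) (hi : ∃ i, c.x i ∉ V) :
    ∃ b i0, c.IsDir V b i0 := by
  obtain ⟨i1, hi1⟩ := hi
  obtain ⟨i0, hi0⟩ := Finite.exists_max (fun i => V.valuation (c.x i))
  have hx0 : c.x i0 ∉ V := by
    intro h
    apply hi1
    rw [← V.valuation_le_one_iff] at h ⊢
    exact (hi0 i1).trans h
  have hx00 : c.x i0 ≠ 0 := fun h => hx0 (h ▸ V.zero_mem)
  have hmem : ∀ i, c.x i / c.x i0 ∈ V := by
    intro i
    rw [← V.valuation_le_one_iff, map_div₀]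
    exact div_le_one_of_le₀ (hi0 i) zero_le
  have hres : ∀ i, ∃ e ∈ c.L, V.valuation (c.x i / c.x i0 - e) < 1 := fun i =>
    c.res_exists V hV ⟨_, hi1⟩ (hmem i)
  choose b hb hb' using hres
  refine ⟨b, i0, hV, hx0, ?_, hb, hb'⟩
  have h1 := hb' i0
  rw [div_self hx00] at h1
  refine residue_unique V hV (hb i0) (one_mem _) h1 ?_
  simp

theorem mem_L_of_places {z : Ω} (h : ∀ V : ValuationSubring Ω, c.IsPlace V → z ∈ V) : z ∈ c.L := by
  by_contra hz
  obtain ⟨V, hV, hzV⟩ := exists_place hz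
  exact hzV (h V hV)

theorem val_L (V : ValuationSubring Ω) (hV : c.IsPlace V) {e : Ω} (he : e ∈ c.L) (h0 : e ≠ 0) :
    V.valuation e = 1 := acl_val_eq_one V hV he h0

theorem b3_k_mem {V : ValuationSubring Ω} (hV : c.IsPlace V) (a : k) : algebraMap k Ω a ∈ V :=
  hV _ (c.L.algebraMap_mem a)

theorem b3_ratio_mem {V : ValuationSubring Ω} {b : Fin 4 → Ω} {i0 : Fin 4} (hb : c.IsDir V b i0)
    (i : Fin 4) : (c.x i0)⁻¹ * c.x i ∈ V := by
  have h1 : c.x i / c.x i0 - b i ∈ V := (V.valuation_le_one_iff _).1 (hb.res i).le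
  have h2 := add_mem h1 (hb.place _ (hb.mem i))
  rwa [sub_add_cancel, div_eq_inv_mul] at h2

theorem b3_x0_ne {V : ValuationSubring Ω} {b : Fin 4 → Ω} {i0 : Fin 4} (hb : c.IsDir V b i0) :
    c.x i0 ≠ 0 := fun h => hb.inf (h ▸ V.zero_mem)

theorem b3_inv_lt {V : ValuationSubring Ω} {b : Fin 4 → Ω} {i0 : Fin 4} (hb : c.IsDir V b i0) :
    V.valuation (c.x i0)⁻¹ < 1 := by
  rw [map_inv₀]
  have h := hb.inf
  rw [← V.valuation_le_one_iff, not_le] at h
  exact inv_lt_one_of_one_lt₀ h

theorem b3_res {V : ValuationSubring Ω} {b : Fin 4 → Ω} {i0 : Fin 4} (hb : c.IsDir V b i0)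
    (i : Fin 4) : V.valuation ((c.x i0)⁻¹ * c.x i - b i) < 1 := by
  rw [← div_eq_inv_mul]
  exact hb.res i

theorem b3_L_zero {V : ValuationSubring Ω} (hV : c.IsPlace V) {e : Ω} (he : e ∈ c.L)
    (h : V.valuation e < 1) : e = 0 := by
  by_contra h0
  exact absurd (c.val_L V hV he h0) (ne_of_lt h)

/-- the value of a form at `x`, rescaled -/
theorem b3_form {V : ValuationSubring Ω} {b : Fin 4 → Ω} {i0 : Fin 4} (hb : c.IsDir V b i0)
    {F : MvPolynomial (Fin 4) k} {m : ℕ} (hF : F.IsHomogeneous m) :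
    V.valuation ((c.x i0)⁻¹ ^ m * aeval c.x F - aeval b F) < 1 := by
  rw [← b3_aeval_hom hF]
  exact b3_aeval_sub V (c.b3_k_mem hb.place) F (c.b3_ratio_mem hb)
    (fun i => hb.place _ (hb.mem i)) (c.b3_res hb)

/-- a form of positive degree whose value at `x` is in `L` vanishes at every direction -/
theorem form_dir {V : ValuationSubring Ω} {b : Fin 4 → Ω} {i0 : Fin 4} (hb : c.IsDir V b i0)
    {F : MvPolynomial (Fin 4) k} {m : ℕ} (hm : m ≠ 0) (hF : F.IsHomogeneous m)
    (hFx : aeval c.x F ∈ c.L) : aeval b F = 0 := by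
  refine c.b3_L_zero hb.place (b3_aeval_acl _ _ hb.mem) ?_
  have h1 := c.b3_form hb hF
  have h2 : V.valuation ((c.x i0)⁻¹ ^ m * aeval c.x F) < 1 := by
    rw [map_mul, map_pow]
    refine mul_lt_one_of_lt_of_le (pow_lt_one₀ zero_le (c.b3_inv_lt hb) hm) ?_
    exact (V.valuation_le_one_iff _).2 (hb.place _ hFx)
  have h3 : aeval b F = (c.x i0)⁻¹ ^ m * aeval c.x F -
      ((c.x i0)⁻¹ ^ m * aeval c.x F - aeval b F) := by ring
  rw [h3]
  exact Valuation.map_sub_lt _ h2 h1

/-- same with coefficients in `L` and lower order terms: `A + B + C = 0` with `A` the part of degree `m` -/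
theorem form_dir_L {V : ValuationSubring Ω} {b : Fin 4 → Ω} {i0 : Fin 4} (hb : c.IsDir V b i0)
    {F : MvPolynomial (Fin 4) Ω} {m : ℕ} (hm : m ≠ 0) (hd : F.totalDegree ≤ m)
    (hc : ∀ s, F.coeff s ∈ c.L) (hFx : MvPolynomial.eval c.x F = 0) :
    MvPolynomial.eval b (MvPolynomial.homogeneousComponent m F) = 0 := by
  have hcj : ∀ j s, (homogeneousComponent j F).coeff s ∈ c.L := by
    intro j s
    rw [coeff_homogeneousComponent]
    split_ifs
    · exact hc s
    · exact zero_mem _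
  refine c.b3_L_zero hb.place (b3_eval_acl _ _ (hcj m) hb.mem) ?_
  set t : Ω := (c.x i0)⁻¹ with ht
  have h1 : V.valuation (t ^ m * eval c.x (homogeneousComponent m F) -
      eval b (homogeneousComponent m F)) < 1 := by
    rw [← b3_eval_hom (homogeneousComponent_isHomogeneous m F)]
    exact b3_eval_sub V _ (fun s => hb.place _ (hcj m s)) (c.b3_ratio_mem hb)
      (fun i => hb.place _ (hb.mem i)) (c.b3_res hb)
  have h2 : V.valuation (t ^ m * eval c.x (homogeneousComponent m F)) < 1 := by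
    have hsum : ∑ j ∈ Finset.range (m + 1), homogeneousComponent j F = F := by
      conv_rhs => rw [← sum_homogeneousComponent F]
      symm
      refine Finset.sum_subset (Finset.range_subset_range.2 (by omega)) ?_
      intro j _ hj
      rw [Finset.mem_range, not_lt] at hj
      exact homogeneousComponent_eq_zero _ _ (by omega)
    have h3 : eval c.x (homogeneousComponent m F) =
        - ∑ j ∈ Finset.range m, eval c.x (homogeneousComponent j F) := by
      rw [← hsum, Finset.sum_range_succ, map_add, map_sum] at hFx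
      linear_combination hFx
    rw [h3, mul_neg, Valuation.map_neg, Finset.mul_sum]
    refine Valuation.map_sum_lt _ one_ne_zero fun j hj => ?_
    rw [Finset.mem_range] at hj
    have h4 : t ^ m * eval c.x (homogeneousComponent j F) =
        t ^ (m - j) * eval (fun i => t * c.x i) (homogeneousComponent j F) := by
      rw [b3_eval_hom (homogeneousComponent_isHomogeneous j F), ← mul_assoc, ← pow_add]
      congr 2
      omega
    rw [h4, map_mul, map_pow]
    refine mul_lt_one_of_lt_of_le (pow_lt_one₀ zero_le (c.b3_inv_lt hb) (by omega)) ?_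
    rw [V.valuation_le_one_iff]
    exact b3_eval_mem V _ (fun s => hb.place _ (hcj j s)) (c.b3_ratio_mem hb)
  have h3 : eval b (homogeneousComponent m F) = t ^ m * eval c.x (homogeneousComponent m F) -
      (t ^ m * eval c.x (homogeneousComponent m F) - eval b (homogeneousComponent m F)) := by ring
  rw [h3]
  exact Valuation.map_sub_lt _ h2 h1

theorem H_dir {V : ValuationSubring Ω} {b : Fin 4 → Ω} {i0 : Fin 4} (hb : c.IsDir V b i0)
    (i : Fin 4) : aeval b (c.H i) = 0 :=
  c.form_dir hb (by have := c.hd; omega) (c.nil.hom i) (by rw [← c.hy]; exact c.b3_y_mem i)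

theorem b3_G_mem : c.G ∈ c.L := by
  refine c.Wker _ ?_
  have hW : ∀ f ∈ c.L, c.W f = 0 := by
    refine der_acl_zero c.W ?_
    rintro _ ⟨i, rfl⟩
    exact c.Wy i
  have h1 : ∀ i, c.W (c.u i * c.x i) = c.u i * c.V2 (c.y i) := by
    intro i
    rw [Derivation.leibniz, hW _ (c.b3_u_mem i), smul_zero, add_zero, smul_eq_mul, c.Wx]
  rw [G, map_sum]
  simp only [h1]
  have h2 := der_aeval c.V2 c.y c.R
  rw [c.Ry, map_zero] at h2
  exact h2.symm

theorem u_dir {V : ValuationSubring Ω} {b : Fin 4 → Ω} {i0 : Fin 4} (hb : c.IsDir V b i0) :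
    ∑ i, c.u i * b i = 0 := by
  refine c.b3_L_zero hb.place (sum_mem fun i _ => mul_mem (c.b3_u_mem i) (hb.mem i)) ?_
  have h1 : V.valuation ((c.x i0)⁻¹ * c.G) < 1 := by
    rw [map_mul]
    exact mul_lt_one_of_lt_of_le (c.b3_inv_lt hb)
      ((V.valuation_le_one_iff _).2 (hb.place _ c.b3_G_mem))
  have h2 : V.valuation (∑ i, c.u i * ((c.x i0)⁻¹ * c.x i - b i)) < 1 := by
    refine Valuation.map_sum_lt _ one_ne_zero fun i _ => ?_
    rw [map_mul, mul_comm]
    exact mul_lt_one_of_lt_of_le (c.b3_res hb i)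
      ((V.valuation_le_one_iff _).2 (hb.place _ (c.b3_u_mem i)))
  have h3 : ∑ i, c.u i * b i = (c.x i0)⁻¹ * c.G - ∑ i, c.u i * ((c.x i0)⁻¹ * c.x i - b i) := by
    rw [G, Finset.mul_sum, ← Finset.sum_sub_distrib]
    exact Finset.sum_congr rfl fun i _ => by ring
  rw [h3]
  exact Valuation.map_sub_lt _ h1 h2

/-- finite places: a coprime pair with ratio in `L` has no common zero there -/
theorem finite_unit {V : ValuationSubring Ω} (hV : c.IsPlace V) (hx : ∀ i, c.x i ∈ V)
    {P Q : MvPolynomial (Fin 4) k} (hPQ : IsRelPrime P Q) (hτ : aeval c.x P / aeval c.x Q ∈ c.L)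
    (hQ : aeval c.x Q ≠ 0) : V.valuation (aeval c.x Q) = 1 := by
  have hQV : aeval c.x Q ∈ V := by
    rw [aeval_def, eval₂_eq]
    exact sum_mem fun s _ => mul_mem (c.b3_k_mem hV _) (prod_mem fun i _ => pow_mem (hx i) _)
  refine le_antisymm ((V.valuation_le_one_iff _).2 hQV) ?_
  by_contra hlt
  rw [not_le] at hlt
  have hne : ∃ z, z ∉ V := by
    refine ⟨(aeval c.x Q)⁻¹, ?_⟩
    rw [← V.valuation_le_one_iff, map_inv₀, not_le]
    exact (one_lt_inv₀ (zero_lt_iff.2 (by simpa using hQ))).2 hlt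
  have hres : ∀ i, ∃ e ∈ c.L, V.valuation (c.x i - e) < 1 := fun i => c.res_exists V hV hne (hx i)
  choose a ha ha' using hres
  have hav : ∀ i, a i ∈ V := fun i => hV _ (ha i)
  have hval : ∀ F : MvPolynomial (Fin 4) k, V.valuation (aeval c.x F - aeval a F) < 1 := fun F =>
    b3_aeval_sub V (c.b3_k_mem hV) F hx hav ha'
  have hzero : ∀ F : MvPolynomial (Fin 4) k, V.valuation (aeval c.x F) < 1 → aeval a F = 0 := by
    intro F hF
    refine c.b3_L_zero hV (b3_aeval_acl _ _ ha) ?_
    have h3 : aeval a F = aeval c.x F - (aeval c.x F - aeval a F) := by ring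
    rw [h3]
    exact Valuation.map_sub_lt _ hF (hval F)
  have hQa : aeval a Q = 0 := hzero Q hlt
  have hPa : aeval a P = 0 := by
    refine hzero P ?_
    have h4 : aeval c.x P = (aeval c.x P / aeval c.x Q) * aeval c.x Q := by
      field_simp
    rw [h4, map_mul, mul_comm]
    exact mul_lt_one_of_lt_of_le hlt ((V.valuation_le_one_iff _).2 (hV _ hτ))
  have hya : ∀ i, c.y i = aeval a (c.H i) := by
    intro i
    refine residue_unique V hV (c.b3_y_mem i) (b3_aeval_acl _ _ ha) (z := c.y i) (by simp) ?_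
    conv_lhs => rw [c.hy i]
    exact hval _
  -- three coordinates of `a` are independent
  obtain ⟨j, hj, hL⟩ := c.b3_fin3
  have hy3 : ∀ i, c.y i ∈ acl k (Set.range a) := fun i => by
    rw [hya i]
    exact b3_aeval_acl _ _ fun i => subset_acl _ ⟨i, rfl⟩
  have hdep : ¬ AlgebraicIndependent k a := by
    intro h
    exact coprime_pair_zero hPQ hPa hQa 0 (h.comp _ Subtype.val_injective)
  rw [algInd_iff_notMem] at hdep
  push Not at hdep
  obtain ⟨i, hi⟩ := hdep
  refine coprime_pair_zero hPQ hPa hQa i ?_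
  have h5 : Set.range a ⊆ (acl k (Set.range (fun l => a (i.succAbove l))) : Set Ω) := by
    have h6 : a '' {i}ᶜ ⊆ Set.range (fun l => a (i.succAbove l)) := by
      rintro _ ⟨l, hl, rfl⟩
      obtain ⟨l', rfl⟩ := Fin.exists_succAbove_eq hl
      exact ⟨l', rfl⟩
    rintro _ ⟨l, rfl⟩
    by_cases hl : l = i
    · rw [hl]; exact acl_mono h6 hi
    · exact subset_acl _ (h6 ⟨l, hl, rfl⟩)
  have h7 : AlgebraicIndependent k (fun l : Fin 3 => a (i.succAbove l)) :=
    b3_algInd_of_rank hj fun l => acl_le_iff.2 h5 (hy3 _)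
  have h8 := h7.comp (finSuccAboveEquiv i).symm (finSuccAboveEquiv i).symm.injective
  have h9 : (fun l : Fin 3 => a (i.succAbove l)) ∘ (finSuccAboveEquiv i).symm =
      fun j : {j // j ≠ i} => a j := by
    funext l
    obtain ⟨l', rfl⟩ := (finSuccAboveEquiv i).surjective l
    rw [Function.comp_apply, Equiv.symm_apply_apply]
    rfl
  rwa [h9] at h8

theorem b3_not_base {P Q : MvPolynomial (Fin 4) k} {e : ℕ} 
    (hP : P.IsHomogeneous e) (hQ : Q.IsHomogeneous e) (hτ : aeval c.x P / aeval c.x Q ∈ c.L)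
    (hQ0 : aeval c.x Q ≠ 0) {V : ValuationSubring Ω} {b : Fin 4 → Ω} {i0 : Fin 4}
    (hb : c.IsDir V b i0) (h : ¬ (aeval b P = 0 ∧ aeval b Q = 0)) :
    V.valuation (aeval c.x Q) = V.valuation (c.x i0) ^ e := by
  have hbQ : aeval b Q ≠ 0 := by
    intro h0
    refine h ⟨?_, h0⟩
    refine c.b3_L_zero hb.place (b3_aeval_acl _ _ hb.mem) ?_
    have h1 := c.b3_form hb hP
    have h2 := c.b3_form hb hQ
    rw [h0, sub_zero] at h2
    have h3 : V.valuation ((c.x i0)⁻¹ ^ e * aeval c.x P) < 1 := by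
      have h4 : (c.x i0)⁻¹ ^ e * aeval c.x P =
          (aeval c.x P / aeval c.x Q) * ((c.x i0)⁻¹ ^ e * aeval c.x Q) := by
        field_simp
      rw [h4, map_mul, mul_comm]
      exact mul_lt_one_of_lt_of_le h2 ((V.valuation_le_one_iff _).2 (hb.place _ hτ))
    have h5 : aeval b P = (c.x i0)⁻¹ ^ e * aeval c.x P -
        ((c.x i0)⁻¹ ^ e * aeval c.x P - aeval b P) := by ring
    rw [h5]
    exact Valuation.map_sub_lt _ h3 h1
  have h1 := c.b3_form hb hQ
  have h2 : V.valuation (aeval b Q) = 1 := c.val_L V hb.place (b3_aeval_acl _ _ hb.mem) hbQ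
  have h3 : V.valuation ((c.x i0)⁻¹ ^ e * aeval c.x Q) = 1 := by
    have h4 : (c.x i0)⁻¹ ^ e * aeval c.x Q =
        ((c.x i0)⁻¹ ^ e * aeval c.x Q - aeval b Q) + aeval b Q := by ring
    rw [h4, Valuation.map_add_eq_of_lt_right _ (by rw [h2]; exact h1), h2]
  rw [map_mul, map_pow, map_inv₀, inv_pow] at h3
  have h5 : V.valuation (c.x i0) ^ e ≠ 0 := by
    refine pow_ne_zero _ ?_
    simpa using c.b3_x0_ne hb
  rw [inv_mul_eq_iff_eq_mul₀ h5, mul_one] at h3
  exact h3

/-- some infinite place lies over the base locus -/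
theorem exists_base_dir {P Q : MvPolynomial (Fin 4) k} {e : ℕ} (he : e ≠ 0) (hPQ : IsRelPrime P Q)
    (hP : P.IsHomogeneous e) (hQ : Q.IsHomogeneous e) (hτ : aeval c.x P / aeval c.x Q ∈ c.L)
    (hQ0 : aeval c.x Q ≠ 0) :
    ∃ V b i0, c.IsDir V b i0 ∧ aeval b P = 0 ∧ aeval b Q = 0 := by
  by_contra hno
  push Not at hno
  have hval : ∀ V b i0, c.IsDir V b i0 →
      V.valuation (aeval c.x Q) = V.valuation (c.x i0) ^ e := fun V b i0 hb =>
    c.b3_not_base hP hQ hτ hQ0 hb (fun h => hno V b i0 hb h.1 h.2)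
  have hone : ∀ (V : ValuationSubring Ω) b i0, c.IsDir V b i0 →
      1 < V.valuation (c.x i0) ^ e := by
    intro V b i0 hb
    have h := hb.inf
    rw [← V.valuation_le_one_iff, not_le] at h
    exact one_lt_pow₀ h he
  have hinv : (aeval c.x Q)⁻¹ ∈ c.L := by
    refine c.mem_L_of_places fun V hV => ?_
    by_cases hi : ∃ i, c.x i ∉ V
    · obtain ⟨b, i0, hb⟩ := c.exists_dir V hV hi
      rw [← V.valuation_le_one_iff, map_inv₀, hval V b i0 hb]
      exact inv_le_one_of_one_le₀ (hone V b i0 hb).le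
    · push Not at hi
      rw [← V.valuation_le_one_iff, map_inv₀, c.finite_unit hV hi hPQ hτ hQ0, inv_one]
  have hQL : aeval c.x Q ∈ c.L := by
    have := inv_mem hinv
    rwa [inv_inv] at this
  obtain ⟨V, hV, hi⟩ := c.exists_infinite
  obtain ⟨b, i0, hb⟩ := c.exists_dir V hV hi
  have h1 := hone V b i0 hb
  rw [← hval V b i0 hb, c.val_L V hV hQL hQ0] at h1
  exact lt_irrefl _ h1

/-- one parameter -/
theorem one_param {V : ValuationSubring Ω} {b : Fin 4 → Ω} {i0 : Fin 4} (hb : c.IsDir V b i0)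
    (h2 : Ctx3.TwoForms (k := k) b) : ∃ σ ∈ c.L, ∀ i, b i ∈ acl k ({σ} : Set Ω) := by
  obtain ⟨P, Q, p, q, hPQ, hP, hQ, hPb, hQb⟩ := h2
  by_cases hall : ∀ i, b i ∈ acl k (∅ : Set Ω)
  · exact ⟨0, zero_mem _, fun i => acl_mono (Set.empty_subset _) (hall i)⟩
  push Not at hall
  obtain ⟨i1, hi1⟩ := hall
  refine ⟨b i1, hb.mem i1, ?_⟩
  by_contra hno
  push Not at hno
  obtain ⟨i2, hi2⟩ := hno
  have hbL : acl k (Set.range b) ≤ c.L := by
    have : acl k (Set.range b) ≤ acl k (Set.range c.y) := acl_le_iff.2 (by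
      rintro _ ⟨i, rfl⟩
      exact hb.mem i)
    exact this
  set ξ := c.x i0 with hξ
  have hξL : ξ ∉ c.L := fun h => hb.inf (hb.place _ h)
  have h10 : i1 ≠ i0 := by
    rintro rfl
    rw [hb.one] at hi1
    exact hi1 (one_mem _)
  have h20 : i2 ≠ i0 := by
    rintro rfl
    rw [hb.one] at hi2
    exact hi2 (one_mem _)
  have h21 : i2 ≠ i1 := by
    rintro rfl
    exact hi2 (subset_acl _ rfl)
  -- `ξ, b i1, b i2` are independent
  have hind : AlgebraicIndependent k ![ξ, b i1, b i2] := by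
    rw [algInd_iff_notMem]
    intro i
    fin_cases i
    · intro h
      refine hξL (hbL (acl_le_iff.2 ?_ h))
      rintro _ ⟨l, hl, rfl⟩
      fin_cases l
      · exact absurd rfl hl
      · exact subset_acl _ ⟨i1, rfl⟩
      · exact subset_acl _ ⟨i2, rfl⟩
    · intro h
      have h0 : b i1 ∉ acl k ({b i2} : Set Ω) := by
        intro h'
        have h'' : b i1 ∈ acl k (insert (b i2) ∅ : Set Ω) := by
          rwa [insert_empty_eq]
        have := acl_exchange h'' hi1
        rw [insert_empty_eq] at this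
        exact hi2 this
      have h1 : b i1 ∈ acl k (insert ξ {b i2} : Set Ω) := by
        refine acl_mono ?_ h
        rintro _ ⟨l, hl, rfl⟩
        fin_cases l
        · exact Or.inl rfl
        · exact absurd rfl hl
        · exact Or.inr rfl
      refine hξL (hbL (acl_mono ?_ (acl_exchange h1 h0)))
      intro w hw
      rcases Set.mem_insert_iff.1 hw with rfl | rfl
      · exact ⟨i1, rfl⟩
      · exact ⟨i2, rfl⟩
    · intro h
      have h1 : b i2 ∈ acl k (insert ξ {b i1} : Set Ω) := by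
        refine acl_mono ?_ h
        rintro _ ⟨l, hl, rfl⟩
        fin_cases l
        · exact Or.inl rfl
        · exact Or.inr rfl
        · exact absurd rfl hl
      refine hξL (hbL (acl_mono ?_ (acl_exchange h1 hi2)))
      intro w hw
      rcases Set.mem_insert_iff.1 hw with rfl | rfl
      · exact ⟨i2, rfl⟩
      · exact ⟨i1, rfl⟩
  have hex : ∀ i0 i1 i2 : Fin 4, ∃ i, i ≠ i0 ∧ i ≠ i1 ∧ i ≠ i2 := by
    decide
  obtain ⟨i, hi0, hi1', hi2'⟩ := hex i0 i1 i2
  refine coprime_forms_zero hPQ hP hQ hPb hQb (fun h => hξL (hbL h)) i ?_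
  have h7 : AlgebraicIndependent k (fun l : Fin 3 => ξ * b (i.succAbove l)) := by
    refine b3_algInd_of_rank hind ?_
    have hm : ∀ l, l ≠ i → ξ * b l ∈ acl k (Set.range (fun l : Fin 3 => ξ * b (i.succAbove l))) := by
      intro l hl
      obtain ⟨l', rfl⟩ := Fin.exists_succAbove_eq hl
      exact subset_acl _ ⟨l', rfl⟩
    have hm0 : ξ ∈ acl k (Set.range (fun l : Fin 3 => ξ * b (i.succAbove l))) := by
      have := hm i0 (Ne.symm hi0)
      rwa [hb.one, mul_one] at this
    have hξ0 : ξ ≠ 0 := fun h => hξL (h ▸ zero_mem _)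
    have hm1 : ∀ l, l ≠ i → b l ∈ acl k (Set.range (fun l : Fin 3 => ξ * b (i.succAbove l))) := by
      intro l hl
      have := mul_mem (inv_mem hm0) (hm l hl)
      rwa [inv_mul_cancel_left₀ hξ0] at this
    intro l
    fin_cases l
    · exact hm0
    · exact hm1 i1 (Ne.symm hi1')
    · exact hm1 i2 (Ne.symm hi2')
  have h8 := h7.comp (finSuccAboveEquiv i).symm (finSuccAboveEquiv i).symm.injective
  have h9 : (fun l : Fin 3 => ξ * b (i.succAbove l)) ∘ (finSuccAboveEquiv i).symm =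
      fun j : {j // j ≠ i} => ξ * b j := by
    funext l
    obtain ⟨l', rfl⟩ := (finSuccAboveEquiv i).surjective l
    rw [Function.comp_apply, Equiv.symm_apply_apply]
    rfl
  rwa [h9] at h8

end Ctx3
end Pool.Agent.HDP
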