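import Mathlib
import Pool.Agent.Lib.MP_20906e_al.Defs

/-!
# MP_20906e_al, piece Q10: Jacobian facts for homogeneous maps
-/

namespace Pool.Agent.HDP
open MvPolynomial Matrix

section Setup
variable {k : Type*} [Field k] [CharZero k]

/-! ## Q10: Jacobian facts for homogeneous maps -/
omit [CharZero k] in
theorem jac_euler {n d : ℕ} {H : Fin n → MvPolynomial (Fin n) k} (hH : ∀ i, (H i).IsHomogeneous d) :
    (jac H).mulVec X = fun i => (d : MvPolynomial (Fin n) k) * H i := by
  funext i
  have h := (hH i).sum_X_mul_pderiv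
  rw [nsmul_eq_mul] at h
  rw [← h]
  simp only [Matrix.mulVec, dotProduct, jac, Matrix.of_apply]
  exact Finset.sum_congr rfl fun j _ => mul_comm _ _

/-- linear change of coordinates -/
noncomputable def conj {n : ℕ} (T S : Matrix (Fin n) (Fin n) k) (H : Fin n → MvPolynomial (Fin n) k) :
    Fin n → MvPolynomial (Fin n) k :=
  fun i => ∑ j, C (T i j) * aeval (fun l => ∑ m, C (S l m) * X m) (H j)

omit [CharZero k] in
/-- chain rule -/
theorem pderiv_aeval {n m : ℕ} (g : Fin n → MvPolynomial (Fin m) k) (F : MvPolynomial (Fin n) k)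
    (j : Fin m) : pderiv j (aeval g F) = ∑ i, aeval g (pderiv i F) * pderiv j (g i) := by
  induction F using MvPolynomial.induction_on with
  | C a =>
    rw [aeval_C, MvPolynomial.algebraMap_eq, pderiv_C]
    symm
    refine Finset.sum_eq_zero fun i _ => ?_
    rw [pderiv_C, map_zero, zero_mul]
  | add p q hp hq =>
    simp only [map_add, hp, hq, add_mul, Finset.sum_add_distrib]
  | mul_X p i hp =>
    rw [map_mul, pderiv_mul, hp, aeval_X]
    have : ∀ l, aeval g (pderiv l (p * X i)) * pderiv j (g l) =
        aeval g (pderiv l p) * pderiv j (g l) * g i +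
          (if l = i then aeval g p * pderiv j (g i) else 0) := by
      intro l
      rw [pderiv_mul, map_add, map_mul, map_mul, aeval_X]
      by_cases hl : l = i
      · subst hl
        rw [pderiv_X_self, map_one, if_pos rfl]
        ring
      · rw [pderiv_X_of_ne (Ne.symm hl), map_zero, if_neg hl]
        ring
    simp only [this, Finset.sum_add_distrib, Finset.sum_ite_eq', Finset.mem_univ, if_true,
      Finset.sum_mul]

omit [CharZero k] in
theorem jac_conj {n : ℕ} (T S : Matrix (Fin n) (Fin n) k)
    (H : Fin n → MvPolynomial (Fin n) k) : jac (conj T S H) =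
      T.map C * (jac H).map (aeval (fun l => ∑ m, C (S l m) * X m)) * S.map C := by
  ext1 i j
  simp only [jac, conj, Matrix.of_apply, map_sum, Matrix.mul_apply, Matrix.map_apply]
  have h1 : ∀ l, pderiv j (∑ m, C (S l m) * X m : MvPolynomial (Fin n) k) = C (S l j) := by
    intro l
    rw [map_sum, Finset.sum_eq_single j]
    · rw [pderiv_C_mul, pderiv_X_self, mul_one]
    · intro m _ hm
      rw [pderiv_C_mul, pderiv_X_of_ne hm, mul_zero]
    · simp
  simp only [pderiv_C_mul, pderiv_aeval, h1, Finset.mul_sum, Finset.sum_mul]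
  rw [Finset.sum_comm]
  refine Finset.sum_congr rfl fun l _ => Finset.sum_congr rfl fun p _ => ?_
  ring

omit [CharZero k] in
theorem conj_nil {n d : ℕ} {T S : Matrix (Fin n) (Fin n) k} (hTS : S * T = 1)
    {H : Fin n → MvPolynomial (Fin n) k} (h : Nil k n d H) : Nil k n d (conj T S H) := by
  refine ⟨fun i => ?_, ?_⟩
  · refine IsHomogeneous.sum _ _ _ fun j _ => ?_
    refine IsHomogeneous.C_mul ?_ _
    have h1 := (h.hom j).aeval (fun l => ∑ m, C (S l m) * X m : Fin n → MvPolynomial (Fin n) k)
      (n := 1) (fun l => IsHomogeneous.sum _ _ _ fun m _ => (isHomogeneous_X _ _).C_mul _)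
    rwa [one_mul] at h1
  · rw [jac_conj]
    obtain ⟨m, hm⟩ := h.nilp
    set σ : MvPolynomial (Fin n) k →ₐ[k] MvPolynomial (Fin n) k :=
      aeval (fun l => ∑ m, C (S l m) * X m) with hσ
    have h2 : ((jac H).map σ) ^ m = 0 := by
      have h3 : ((jac H) ^ m).map (σ : MvPolynomial (Fin n) k →+* MvPolynomial (Fin n) k) =
          ((jac H).map (σ : MvPolynomial (Fin n) k →+* MvPolynomial (Fin n) k)) ^ m := by
        have := map_pow (RingHom.mapMatrix (m := Fin n)
          (σ : MvPolynomial (Fin n) k →+* MvPolynomial (Fin n) k)) (jac H) m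
        simpa [RingHom.mapMatrix_apply] using this
      rw [hm] at h3
      have h4 : (0 : Matrix (Fin n) (Fin n) (MvPolynomial (Fin n) k)).map
          (σ : MvPolynomial (Fin n) k →+* MvPolynomial (Fin n) k) = 0 := by
        ext1 i j; simp
      rw [h4] at h3
      exact h3.symm
    have hST : S.map (C : k →+* MvPolynomial (Fin n) k) * T.map C = 1 := by
      have := congrArg (fun M => M.map (C : k →+* MvPolynomial (Fin n) k)) hTS
      simp only [Matrix.map_mul] at this
      rw [this]
      exact Matrix.map_one _ (map_zero _) (map_one _)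
    have key : ∀ m : ℕ, (T.map C * (jac H).map σ * S.map C) ^ (m + 1) =
        T.map C * ((jac H).map σ) ^ (m + 1) * S.map (C : k →+* MvPolynomial (Fin n) k) := by
      intro m
      induction m with
      | zero => simp
      | succ m ih =>
        rw [pow_succ, ih, pow_succ _ (m + 1)]
        calc T.map C * ((jac H).map σ) ^ (m + 1) * S.map C * (T.map C * (jac H).map σ * S.map C)
            = T.map C * ((jac H).map σ) ^ (m + 1) *
              (S.map (C : k →+* MvPolynomial (Fin n) k) * T.map C) * (jac H).map σ *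
              S.map C := by simp only [Matrix.mul_assoc]
          _ = _ := by rw [hST, Matrix.mul_one]; simp only [Matrix.mul_assoc]
    refine ⟨m + 1, ?_⟩
    rw [key, pow_succ, h2]
    simp

omit [CharZero k] in
theorem conj_indep {n : ℕ} {T S : Matrix (Fin n) (Fin n) k} (hTS : S * T = 1)
    {H : Fin n → MvPolynomial (Fin n) k} (h : LinearIndependent k H) :
    LinearIndependent k (conj T S H) := by
  set σ : MvPolynomial (Fin n) k →ₐ[k] MvPolynomial (Fin n) k :=
      aeval (fun l => ∑ m, C (S l m) * X m) with hσ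
  set τ : MvPolynomial (Fin n) k →ₐ[k] MvPolynomial (Fin n) k :=
      aeval (fun l => ∑ m, C (T l m) * X m) with hτ
  have hcomp : ∀ F, τ (σ F) = F := by
    intro F
    have : (τ.comp σ) = AlgHom.id k _ := by
      apply MvPolynomial.algHom_ext
      intro l
      simp only [AlgHom.comp_apply, AlgHom.id_apply, hσ, hτ, aeval_X, map_sum, map_mul,
        MvPolynomial.algHom_C, MvPolynomial.algebraMap_eq, Finset.mul_sum]
      rw [Finset.sum_comm]
      have h1 : ∀ p, ∑ m, (C (S l m) * (C (T m p) * X p) : MvPolynomial (Fin n) k) =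
          C ((S * T) l p) * X p := by
        intro p
        rw [Matrix.mul_apply, map_sum, Finset.sum_mul]
        refine Finset.sum_congr rfl fun m _ => ?_
        rw [C_mul]; ring
      simp only [h1, hTS, Matrix.one_apply]
      rw [Finset.sum_eq_single l]
      · simp
      · intro p _ hp; simp [Ne.symm hp]
      · simp
    exact DFunLike.congr_fun this F
  have hinj : Function.Injective σ := Function.LeftInverse.injective hcomp
  rw [Fintype.linearIndependent_iff] at h ⊢
  intro a ha
  have h1 : ∑ i, a i • conj T S H i = σ (∑ j, (∑ i, a i * T i j) • H j) := by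
    simp only [conj, map_sum, map_smul, Finset.smul_sum, Finset.sum_smul]
    rw [Finset.sum_comm]
    refine Finset.sum_congr rfl fun j _ => Finset.sum_congr rfl fun i _ => ?_
    rw [mul_smul, ← MvPolynomial.smul_eq_C_mul]
  rw [h1] at ha
  have h2 := h _ (hinj (ha.trans (map_zero σ).symm))
  have h3 : Matrix.vecMul a T = 0 := by
    funext j
    simp only [Matrix.vecMul, dotProduct]
    exact h2 j
  have hT : T * S = 1 := mul_eq_one_comm.1 hTS
  have h4 : a = 0 := by
    calc a = Matrix.vecMul a (T * S) := by rw [hT, Matrix.vecMul_one]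
      _ = Matrix.vecMul (Matrix.vecMul a T) S := by rw [Matrix.vecMul_vecMul]
      _ = 0 := by rw [h3, Matrix.zero_vecMul]
  intro i
  rw [h4]; rfl

/-- eigenvalue contradiction: `ℓ(H) = c ℓ^d` with `ℓ ≠ 0`, `c ≠ 0` is impossible. -/
theorem no_power_lf {n d : ℕ} (hd : d ≠ 0) {H : Fin n → MvPolynomial (Fin n) k} (h : Nil k n d H)
    {c : Fin n → k} (hc : c ≠ 0) {a : k} (ha : a ≠ 0)
    (he : ∑ i, C (c i) * H i = C a * (∑ i, C (c i) * X i) ^ d) : False := by
  set ℓ : MvPolynomial (Fin n) k := ∑ i, C (c i) * X i with hℓ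
  set v : Fin n → MvPolynomial (Fin n) k := fun i => C (c i) with hv
  have hℓd : ∀ j, pderiv j ℓ = C (c j) := by
    intro j
    rw [hℓ, map_sum, Finset.sum_eq_single j]
    · rw [pderiv_C_mul, pderiv_X_self, mul_one]
    · intro m _ hm
      rw [pderiv_C_mul, pderiv_X_of_ne hm, mul_zero]
    · simp
  obtain ⟨i0, hi0⟩ := Function.ne_iff.1 hc
  have hℓ0 : ℓ ≠ 0 := by
    intro h0
    have := hℓd i0
    rw [h0, map_zero] at this
    exact hi0 (C_injective (Fin n) k (by rw [← this, Pi.zero_apply, map_zero]))
  set e : MvPolynomial (Fin n) k := C a * ((d : MvPolynomial (Fin n) k) * ℓ ^ (d - 1)) with hE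
  have he0 : e ≠ 0 := by
    refine mul_ne_zero ?_ (mul_ne_zero ?_ (pow_ne_zero _ hℓ0))
    · exact fun h0 => ha (C_injective (Fin n) k (by rw [h0, map_zero]))
    · exact_mod_cast hd
  have hvm : Matrix.vecMul v (jac H) = e • v := by
    funext j
    simp only [Matrix.vecMul, dotProduct, jac, Matrix.of_apply, hv, Pi.smul_apply, smul_eq_mul]
    have h1 := congrArg (pderiv j) he
    rw [map_sum] at h1
    simp only [pderiv_C_mul, pderiv_pow, hℓd] at h1
    rw [h1, hE]
    ring
  have hpow : ∀ m : ℕ, Matrix.vecMul v (jac H ^ m) = e ^ m • v := by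
    intro m
    induction m with
    | zero => simp
    | succ m ih =>
      rw [pow_succ, ← Matrix.vecMul_vecMul, ih, Matrix.smul_vecMul, hvm, smul_smul, ← pow_succ]
  obtain ⟨m, hm⟩ := h.nilp
  have h2 := hpow m
  rw [hm, Matrix.vecMul_zero] at h2
  have h3 := congrFun h2.symm i0
  simp only [Pi.smul_apply, hv, smul_eq_mul, Pi.zero_apply, mul_eq_zero] at h3
  rcases h3 with h3 | h3
  · exact pow_ne_zero m he0 h3
  · exact hi0 (C_injective (Fin n) k (by rw [h3, Pi.zero_apply, map_zero]))

/-- trace condition -/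
theorem trace_div {n d : ℕ} {H G : Fin n → MvPolynomial (Fin n) k} (h : Nil k n d H)
    {f : MvPolynomial (Fin n) k} (hf : Prime f) {j : ℕ} (hj : j ≠ 0) (hfac : ∀ i, H i = f ^ j * G i) :
    f ∣ ∑ i, pderiv i f * G i := by
  have htr : (jac H).trace = 0 := (Matrix.isNilpotent_trace_of_isNilpotent h.nilp).eq_zero
  have h1 : (jac H).trace = f ^ (j - 1) * ((j : MvPolynomial (Fin n) k) *
      (∑ i, pderiv i f * G i) + f * ∑ i, pderiv i (G i)) := by
    obtain ⟨j', rfl⟩ : ∃ j', j = j' + 1 := ⟨j - 1, by omega⟩
    simp only [Matrix.trace, Matrix.diag_apply, jac, Matrix.of_apply, hfac, pderiv_mul,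
      pderiv_pow, Nat.add_sub_cancel, Finset.mul_sum, mul_add, ← Finset.sum_add_distrib]
    refine Finset.sum_congr rfl fun i _ => ?_
    push_cast
    ring
  rw [htr] at h1
  rcases mul_eq_zero.1 h1.symm with h2 | h2
  · exact absurd (eq_zero_of_pow_eq_zero h2) hf.ne_zero
  · have h3 : f ∣ (j : MvPolynomial (Fin n) k) * ∑ i, pderiv i f * G i := by
      refine ⟨-∑ i, pderiv i (G i), ?_⟩
      linear_combination h2
    rcases hf.dvd_or_dvd h3 with h4 | h4
    · exfalso
      have hu : IsUnit (j : MvPolynomial (Fin n) k) := by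
        have : (j : MvPolynomial (Fin n) k) = C (j : k) := by simp
        rw [this]
        exact (isUnit_iff_ne_zero.2 (by exact_mod_cast hj)).map C
      exact hf.not_isUnit (isUnit_of_dvd_unit h4 hu)
    · exact h4

end Setup

end Pool.Agent.HDP
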