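import Mathlib
import Pool.Agent.Lib.MP_20906e_al.Ctx
import Pool.Agent.Lib.MP_20906e_al.Acl
import Pool.Agent.Lib.MP_20906e_al.Der
import Pool.Agent.Lib.MP_20906e_al.Place
import Pool.Agent.Lib.MP_20906e_al.Setup

namespace Pool.Agent.HDP
open MvPolynomial

section Poly
variable {k : Type*} [Field k] {σ : Type*}

/-- the grading substitution `X i ↦ X i * T` -/
private noncomputable def grd : MvPolynomial σ k →ₐ[k] Polynomial (MvPolynomial σ k) :=
  aeval (fun i => Polynomial.C (X i) * Polynomial.X)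

private theorem grd_monomial (s : σ →₀ ℕ) (a : k) :
    grd (monomial s a) = Polynomial.C (monomial s a) * Polynomial.X ^ s.degree := by
  unfold grd
  rw [aeval_monomial, Finsupp.prod]
  simp_rw [mul_pow]
  rw [Finset.prod_mul_distrib, Finset.prod_pow_eq_pow_sum, ← mul_assoc]
  congr 1
  rw [monomial_eq, Finsupp.prod, map_mul, map_prod]
  simp only [map_pow]
  rfl

private theorem grd_hom {F : MvPolynomial σ k} {n : ℕ} (hF : F.IsHomogeneous n) :
    grd F = Polynomial.C F * Polynomial.X ^ n := by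
  conv_lhs => rw [F.as_sum, map_sum]
  conv_rhs => rw [F.as_sum, map_sum, Finset.sum_mul]
  refine Finset.sum_congr rfl fun s hs => ?_
  rw [grd_monomial]
  congr 2
  have := hF (mem_support_iff.1 hs)
  rw [← this, Finsupp.degree_eq_weight_one]
  rfl

private theorem grd_coeff (F : MvPolynomial σ k) (n : ℕ) :
    (grd F).coeff n = homogeneousComponent n F := by
  conv_lhs => rw [← sum_homogeneousComponent F, map_sum]
  rw [Polynomial.finsetSum_coeff]
  simp_rw [grd_hom (homogeneousComponent_isHomogeneous _ F), Polynomial.coeff_C_mul_X_pow]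
  rw [Finset.sum_ite_eq]
  split_ifs with h
  · rfl
  · rw [homogeneousComponent_eq_zero]
    simpa using h

/-- a factor of a nonzero form is a form -/
theorem b4_factor_hom {A B : MvPolynomial σ k} {n : ℕ} (h : (A * B).IsHomogeneous n)
    (h0 : A * B ≠ 0) : ∃ m, A.IsHomogeneous m := by
  have hA0 : A ≠ 0 := left_ne_zero_of_mul h0
  have hB0 : B ≠ 0 := right_ne_zero_of_mul h0
  have h1 : grd A * grd B = Polynomial.C (A * B) * Polynomial.X ^ n := by
    rw [← map_mul, grd_hom h]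
  have hinj : ∀ F : MvPolynomial σ k, F ≠ 0 → grd F ≠ 0 := by
    intro F hF hz
    apply hF
    rw [← sum_homogeneousComponent F]
    refine Finset.sum_eq_zero fun i _ => ?_
    rw [← grd_coeff, hz, Polynomial.coeff_zero]
  have hgA := hinj A hA0
  have hgB := hinj B hB0
  have h2 : (grd A).natDegree + (grd B).natDegree = n := by
    rw [← Polynomial.natDegree_mul hgA hgB, h1, Polynomial.natDegree_C_mul_X_pow _ _ h0]
  have h3 : (grd A).natTrailingDegree + (grd B).natTrailingDegree = n := by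
    rw [← Polynomial.natTrailingDegree_mul hgA hgB, h1, Polynomial.C_mul_X_pow_eq_monomial,
      Polynomial.natTrailingDegree_monomial h0]
  have h4 := Polynomial.natTrailingDegree_le_natDegree (grd A)
  have h5 := Polynomial.natTrailingDegree_le_natDegree (grd B)
  have h6 : (grd A).natTrailingDegree = (grd A).natDegree := by omega
  refine ⟨(grd A).natDegree, ?_⟩
  have h7 : A = homogeneousComponent (grd A).natDegree A := by
    conv_lhs => rw [← sum_homogeneousComponent A]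
    rw [Finset.sum_eq_single (grd A).natDegree]
    · intro i _ hi
      rw [← grd_coeff]
      rcases lt_or_gt_of_ne hi with h8 | h8
      · exact Polynomial.coeff_eq_zero_of_lt_natTrailingDegree (by omega)
      · exact Polynomial.coeff_eq_zero_of_natDegree_lt h8
    · intro hn
      rw [homogeneousComponent_eq_zero]
      simpa using hn
  have h8 := homogeneousComponent_isHomogeneous (grd A).natDegree A
  rw [← h7] at h8
  exact h8

theorem b4_factor_hom' {A B : MvPolynomial σ k} {n : ℕ} (h : (A * B).IsHomogeneous n)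
    (h0 : A * B ≠ 0) : ∃ p q : ℕ, A.IsHomogeneous p ∧ B.IsHomogeneous q ∧ p + q = n := by
  obtain ⟨p, hp⟩ := b4_factor_hom h h0
  have h' : (B * A).IsHomogeneous n := by rw [mul_comm]; exact h
  have h0' : B * A ≠ 0 := by rw [mul_comm]; exact h0
  obtain ⟨q, hq⟩ := b4_factor_hom h' h0'
  exact ⟨p, q, hp, hq, IsHomogeneous.inj_right (hp.mul hq) h h0⟩

/-- a form vanishing at a point has an irreducible form factor vanishing at the point -/
theorem b4_exists_factor {Ω : Type*} [Field Ω] [Algebra k Ω] {F : MvPolynomial σ k} {n : ℕ} (hF : F.IsHomogeneous n)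
    (h0 : F ≠ 0) {b : σ → Ω} (hb : aeval b F = 0) :
    ∃ (f : MvPolynomial σ k) (m : ℕ), Irreducible f ∧ f.IsHomogeneous m ∧ aeval b f = 0 := by
  obtain ⟨s, hs, u, hu⟩ := UniqueFactorizationMonoid.exists_prime_factors F h0
  have h1 : aeval b s.prod = 0 := by
    have : aeval b (s.prod * (u : MvPolynomial σ k)) = 0 := by rw [hu]; exact hb
    rw [map_mul] at this
    refine (mul_eq_zero.1 this).resolve_right ?_
    have h2 : IsUnit (aeval b (u : MvPolynomial σ k)) := u.isUnit.map (aeval b)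
    exact h2.ne_zero
  rw [map_multiset_prod, Multiset.prod_eq_zero_iff, Multiset.mem_map] at h1
  obtain ⟨f, hf, hfb⟩ := h1
  have hdvd : f ∣ F := (Multiset.dvd_prod hf).trans ⟨u, hu.symm⟩
  obtain ⟨g, hg⟩ := hdvd
  obtain ⟨m, hm⟩ := b4_factor_hom (A := f) (B := g) (n := n) (by rwa [← hg]) (by rwa [← hg])
  exact ⟨f, m, (hs f hf).irreducible, hm, hfb⟩

/-- substitution of multiples in a form -/
theorem b4_aeval_smul {S : Type*} [CommRing S] [Algebra k S] {F : MvPolynomial σ k} {n : ℕ}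
    (hF : F.IsHomogeneous n) (t : S) (z : σ → S) :
    aeval (fun i => t * z i) F = t ^ n * aeval z F := by
  rw [aeval_def, aeval_def, eval₂_eq, eval₂_eq, Finset.mul_sum]
  refine Finset.sum_congr rfl fun s hs => ?_
  have h1 : s.degree = n := by
    have := hF (mem_support_iff.1 hs)
    rw [← this, Finsupp.degree_eq_weight_one]
    rfl
  simp_rw [mul_pow]
  rw [Finset.prod_mul_distrib, Finset.prod_pow_eq_pow_sum]
  have h2 : ∑ i ∈ s.support, s i = n := h1
  rw [h2]
  ring

/-- extraction of the exact power of an irreducible -/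
theorem b4_exists_pow {f Z : MvPolynomial σ k} (hf : Irreducible f) (hZ : Z ≠ 0) :
    ∃ (a : ℕ) (Z' : MvPolynomial σ k), Z = f ^ a * Z' ∧ ¬ f ∣ Z' := by
  have h := FiniteMultiplicity.of_not_isUnit hf.not_isUnit hZ
  obtain ⟨c, hc, hc'⟩ := h.exists_eq_pow_mul_and_not_dvd
  exact ⟨_, c, hc, hc'⟩

end Poly

namespace Ctx3
variable {k Ω : Type*} [Field k] [IsAlgClosed k] [CharZero k] [Field Ω] [IsAlgClosed Ω] [Algebra k Ω]
  (c : Ctx3 k Ω)

omit [IsAlgClosed k] [CharZero k] [IsAlgClosed Ω] in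
private theorem aeval_mem' (K : IntermediateField k Ω) {z : Fin 4 → Ω} (hz : ∀ i, z i ∈ K)
    (F : MvPolynomial (Fin 4) k) : aeval z F ∈ K := by
  induction F using MvPolynomial.induction_on with
  | C a => rw [aeval_C]; exact K.algebraMap_mem a
  | add p q hp hq => rw [map_add]; exact add_mem hp hq
  | mul_X p i hp => rw [map_mul, aeval_X]; exact mul_mem hp (hz i)

omit [IsAlgClosed k] [CharZero k] [IsAlgClosed Ω] in
private theorem y_mem' (i : Fin 4) : c.y i ∈ c.L := subset_acl _ ⟨i, rfl⟩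

omit [IsAlgClosed k] [CharZero k] [IsAlgClosed Ω] in
private theorem alg_mem {V : ValuationSubring Ω} (hV : c.IsPlace V) (a : k) : algebraMap k Ω a ∈ V :=
  hV _ (c.L.algebraMap_mem a)

omit [IsAlgClosed k] [CharZero k] [IsAlgClosed Ω] in
private theorem small_zero {V : ValuationSubring Ω} (hV : c.IsPlace V) {e : Ω} (he : e ∈ c.L)
    (h : V.valuation e < 1) : e = 0 := by
  by_contra h0
  have := acl_val_eq_one V hV he h0
  rw [this] at h
  exact lt_irrefl _ h

omit [IsAlgClosed k] [CharZero k] [IsAlgClosed Ω] in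
private theorem res_aux (V : ValuationSubring Ω) (hk : ∀ a : k, algebraMap k Ω a ∈ V)
    {z b : Fin 4 → Ω} (hb : ∀ i, b i ∈ V) (h : ∀ i, V.valuation (z i - b i) < 1)
    (F : MvPolynomial (Fin 4) k) :
    V.valuation (aeval b F) ≤ 1 ∧ V.valuation (aeval z F - aeval b F) < 1 := by
  induction F using MvPolynomial.induction_on with
  | C a =>
    rw [aeval_C, aeval_C, sub_self, map_zero]
    exact ⟨(V.valuation_le_one_iff _).2 (hk a), zero_lt_one⟩
  | add p q hp hq =>
    refine ⟨?_, ?_⟩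
    · rw [map_add]
      exact (Valuation.map_add _ _ _).trans (max_le hp.1 hq.1)
    · have e : aeval z (p + q) - aeval b (p + q) =
        (aeval z p - aeval b p) + (aeval z q - aeval b q) := by rw [map_add, map_add]; ring
      rw [e]
      exact (Valuation.map_add _ _ _).trans_lt (max_lt hp.2 hq.2)
  | mul_X p i hp =>
    have hbi : V.valuation (b i) ≤ 1 := (V.valuation_le_one_iff _).2 (hb i)
    have hzi : V.valuation (z i) ≤ 1 := by
      have e : z i = (z i - b i) + b i := by ring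
      rw [e]
      exact (Valuation.map_add _ _ _).trans (max_le (h i).le hbi)
    refine ⟨?_, ?_⟩
    · rw [map_mul, aeval_X, map_mul]
      exact mul_le_one' hp.1 hbi
    · have e : aeval z (p * X i) - aeval b (p * X i) =
        (aeval z p - aeval b p) * z i + aeval b p * (z i - b i) := by
        rw [map_mul, map_mul, aeval_X, aeval_X]; ring
      rw [e]
      refine (Valuation.map_add _ _ _).trans_lt (max_lt ?_ ?_)
      · rw [map_mul]
        exact mul_lt_one_of_nonneg_of_lt_one_left zero_le hp.2 hzi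
      · rw [map_mul]
        exact mul_lt_one_of_nonneg_of_lt_one_right hp.1 zero_le (h i)

omit [IsAlgClosed k] [CharZero k] [IsAlgClosed Ω] in
private theorem x0_ne {V : ValuationSubring Ω} {b : Fin 4 → Ω} {i0 : Fin 4} (hb : c.IsDir V b i0) :
    c.x i0 ≠ 0 := by
  intro h
  exact hb.inf (h ▸ V.zero_mem)

omit [IsAlgClosed k] [CharZero k] [IsAlgClosed Ω] in
private theorem b_mem {V : ValuationSubring Ω} {b : Fin 4 → Ω} {i0 : Fin 4} (hb : c.IsDir V b i0)
    (F : MvPolynomial (Fin 4) k) : aeval b F ∈ c.L := aeval_mem' c.L hb.mem F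

omit [IsAlgClosed k] [CharZero k] [IsAlgClosed Ω] in
/-- the residue of a form at an infinite place -/
theorem b4_res {V : ValuationSubring Ω} {b : Fin 4 → Ω} {i0 : Fin 4} (hb : c.IsDir V b i0)
    {F : MvPolynomial (Fin 4) k} {m : ℕ} (hF : F.IsHomogeneous m) :
    V.valuation (aeval c.x F / c.x i0 ^ m - aeval b F) < 1 := by
  have h1 := (res_aux V (c.alg_mem hb.place) (fun i => hb.place _ (hb.mem i)) hb.res F).2
  have h2 : aeval (fun i => c.x i / c.x i0) F = aeval c.x F / c.x i0 ^ m := by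
    have h3 := b4_aeval_smul hF (c.x i0)⁻¹ c.x
    have h4 : (fun i => c.x i / c.x i0) = fun i => (c.x i0)⁻¹ * c.x i := by
      funext i; rw [div_eq_mul_inv, mul_comm]
    rw [h4, h3, inv_pow, mul_comm, div_eq_mul_inv]
  rwa [h2] at h1

omit [IsAlgClosed k] [CharZero k] [IsAlgClosed Ω] in
/-- a form with value in `L` at `x` vanishes at the direction -/
theorem b4_form_dir {V : ValuationSubring Ω} {b : Fin 4 → Ω} {i0 : Fin 4} (hb : c.IsDir V b i0)
    {F : MvPolynomial (Fin 4) k} {m : ℕ} (hm : m ≠ 0) (hF : F.IsHomogeneous m)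
    (hFx : aeval c.x F ∈ c.L) : aeval b F = 0 := by
  refine c.small_zero hb.place (c.b_mem hb F) ?_
  have h1 := c.b4_res hb hF
  have h2 : V.valuation (aeval c.x F / c.x i0 ^ m) < 1 := by
    have h3 : V.valuation (aeval c.x F) ≤ 1 := (V.valuation_le_one_iff _).2 (hb.place _ hFx)
    have h4 : 1 < V.valuation (c.x i0) := by
      by_contra h
      exact hb.inf ((V.valuation_le_one_iff _).1 (not_lt.1 h))
    have h5 : 1 < V.valuation (c.x i0) ^ m := one_lt_pow₀ h4 hm
    rw [map_div₀, map_pow]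
    exact (div_lt_one₀ (zero_lt_one.trans h5)).2 (h3.trans_lt h5)
  have e : aeval b F = aeval c.x F / c.x i0 ^ m - (aeval c.x F / c.x i0 ^ m - aeval b F) := by ring
  rw [e]
  exact (Valuation.map_sub _ _ _).trans_lt (max_lt h2 h1)

omit [IsAlgClosed k] [CharZero k] [IsAlgClosed Ω] in
theorem b4_H_dir {V : ValuationSubring Ω} {b : Fin 4 → Ω} {i0 : Fin 4} (hb : c.IsDir V b i0)
    (i : Fin 4) : aeval b (c.H i) = 0 := by
  refine c.b4_form_dir hb (m := c.d) (by have := c.hd; omega) (c.nil.hom i) ?_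
  rw [← c.hy]
  exact c.y_mem' i

end Ctx3

namespace Ctx3
variable {k Ω : Type*} [Field k] [IsAlgClosed k] [CharZero k] [Field Ω] [IsAlgClosed Ω] [Algebra k Ω]
  (c : Ctx3 k Ω)

omit [IsAlgClosed k] [CharZero k] [IsAlgClosed Ω] in
private theorem E_form {F : MvPolynomial (Fin 4) k} {m : ℕ} (hF : F.IsHomogeneous m) :
    c.E (aeval c.x F) = (m : Ω) * aeval c.x F := by
  rw [der_aeval]
  simp_rw [c.Ex]
  have h := congrArg (aeval c.x) hF.sum_X_mul_pderiv
  rw [map_sum] at h
  simp only [map_mul, aeval_X, map_nsmul] at h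
  rw [nsmul_eq_mul] at h
  rw [← h]
  exact Finset.sum_congr rfl fun i _ => mul_comm _ _

omit [IsAlgClosed k] [CharZero k] [IsAlgClosed Ω] in
private theorem Ey' (i : Fin 4) : c.E (c.y i) = (c.d : Ω) * c.y i := by
  rw [c.hy]
  exact c.E_form (c.nil.hom i)

omit [IsAlgClosed k] [CharZero k] [IsAlgClosed Ω] in
private theorem aeval_x_inj : Function.Injective (aeval c.x : MvPolynomial (Fin 4) k →ₐ[k] Ω) :=
  c.tb.1

omit [IsAlgClosed k] [CharZero k] [IsAlgClosed Ω] in
private theorem y_ne (i : Fin 4) : c.y i ≠ 0 := by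
  rw [c.hy]
  intro h
  rw [← map_zero (aeval c.x : MvPolynomial (Fin 4) k →ₐ[k] Ω)] at h
  exact c.ind.ne_zero i (c.aeval_x_inj h)

omit [IsAlgClosed k] [CharZero k] [IsAlgClosed Ω] in
/-- a valuation ring of `Ω` centred at a prime element of `k[x]` -/
private theorem exists_center {f : MvPolynomial (Fin 4) k} (hf : Irreducible f) :
    ∃ V : ValuationSubring Ω, (∀ P : MvPolynomial (Fin 4) k, V.valuation (aeval c.x P) ≤ 1) ∧
      ∀ P : MvPolynomial (Fin 4) k, V.valuation (aeval c.x P) < 1 ↔ f ∣ P := by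
  let φ : MvPolynomial (Fin 4) k →+* Ω := (aeval c.x : MvPolynomial (Fin 4) k →ₐ[k] Ω).toRingHom
  have hφ : Function.Injective φ := c.aeval_x_inj
  let e : MvPolynomial (Fin 4) k ≃+* φ.range :=
    RingEquiv.ofBijective φ.rangeRestrict ⟨fun a b h => hφ (congrArg Subtype.val h),
      φ.rangeRestrict_surjective⟩
  have he : ∀ P, ((e P : φ.range) : Ω) = aeval c.x P := fun P => rfl
  have hprime : (Ideal.span {f}).IsPrime :=
    (Ideal.span_singleton_prime hf.ne_zero).2 hf.prime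
  let p : Ideal φ.range := (Ideal.span {f}).comap e.symm.toRingHom
  have hp : p.IsPrime := Ideal.comap_isPrime _ _
  obtain ⟨V, h1, h2⟩ := exists_valuationSubring_center φ.range p hp
  refine ⟨V, fun P => ?_, fun P => ?_⟩
  · rw [← he]
    exact (V.valuation_le_one_iff _).2 (h1 _)
  · rw [← he, h2, Ideal.mem_comap]
    change e.symm (e P) ∈ Ideal.span {f} ↔ _
    rw [RingEquiv.symm_apply_apply, Ideal.mem_span_singleton]

omit [IsAlgClosed k] [CharZero k] [IsAlgClosed Ω] in
/-- homogenisation -/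
private theorem homogenise (P : MvPolynomial (Fin 4) k) : ∃ Θ : MvPolynomial (Fin 4) k,
    Θ.IsHomogeneous P.totalDegree ∧
      aeval c.y Θ = c.y 0 ^ P.totalDegree * aeval (fun i => c.y i / c.y 0) P := by
  refine ⟨∑ m ∈ Finset.range (P.totalDegree + 1),
    homogeneousComponent m P * X 0 ^ (P.totalDegree - m), ?_, ?_⟩
  · refine IsHomogeneous.sum _ _ _ fun m hm => ?_
    have h1 : m + (P.totalDegree - m) = P.totalDegree := by
      have := Finset.mem_range.1 hm; omega
    have h2 := (homogeneousComponent_isHomogeneous m P).mul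
      (isHomogeneous_X_pow (R := k) (0 : Fin 4) (P.totalDegree - m))
    rwa [h1] at h2
  · rw [map_sum]
    have h3 : aeval (fun i => c.y i / c.y 0) P = ∑ m ∈ Finset.range (P.totalDegree + 1),
        aeval (fun i => c.y i / c.y 0) (homogeneousComponent m P) := by
      rw [← map_sum, sum_homogeneousComponent]
    rw [h3, Finset.mul_sum]
    refine Finset.sum_congr rfl fun m hm => ?_
    have h4 := b4_aeval_smul (homogeneousComponent_isHomogeneous m P) (c.y 0)
      (fun i => c.y i / c.y 0)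
    have h5 : (fun i => c.y 0 * (c.y i / c.y 0)) = c.y := by
      funext i
      rw [mul_div_cancel₀ _ (c.y_ne 0)]
    rw [h5] at h4
    rw [map_mul, map_pow, aeval_X, h4]
    have h6 : c.y 0 ^ P.totalDegree = c.y 0 ^ m * c.y 0 ^ (P.totalDegree - m) := by
      rw [← pow_add]
      congr 1
      have := Finset.mem_range.1 hm; omega
    rw [h6]; ring

omit [IsAlgClosed k] [IsAlgClosed Ω] in
/-- elements of `L` of degree zero are algebraic over `k(y i / y 0)` -/
private theorem deg_zero {ζ : Ω} (hζ : ζ ∈ c.L) (hE : c.E ζ = 0) :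
    ζ ∈ acl k (Set.range fun i => c.y i / c.y 0) := by
  by_contra hnot
  set t : Fin 4 → Ω := fun i => c.y i / c.y 0 with ht
  have h1 : ζ ∈ acl k (insert (c.y 0) (Set.range t)) := by
    have hle : acl k (Set.range c.y) ≤ acl k (insert (c.y 0) (Set.range t)) := by
      rw [acl_le_iff]
      rintro _ ⟨i, rfl⟩
      have e : c.y i = t i * c.y 0 := by
        rw [ht]
        exact (div_mul_cancel₀ _ (c.y_ne 0)).symm
      rw [e]
      exact mul_mem (subset_acl _ (Set.mem_insert_of_mem _ ⟨i, rfl⟩))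
        (subset_acl _ (Set.mem_insert _ _))
    exact hle hζ
  have h2 := acl_exchange h1 hnot
  have h3 := der_acl_zero c.E (S := insert ζ (Set.range t)) (by
    intro s hs
    rcases hs with rfl | ⟨i, rfl⟩
    · exact hE
    · rw [ht]
      simp only
      rw [Derivation.leibniz_div, c.Ey', c.Ey']
      simp only [smul_eq_mul]
      ring) _ h2
  rw [c.Ey'] at h3
  have hd := c.hd
  have : (c.d : Ω) ≠ 0 := by
    have hch : CharZero Ω := charZero_of_injective_algebraMap (algebraMap k Ω).injective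
    exact Nat.cast_ne_zero.2 (by omega)
  exact (mul_ne_zero this (c.y_ne 0)) h3

omit [IsAlgClosed k] [IsAlgClosed Ω] in
/-- comparison of orders -/
private theorem order_core {f : MvPolynomial (Fin 4) k} (hf : Irreducible f) {j : ℕ}
    {Ht : Fin 4 → MvPolynomial (Fin 4) k} (hHt : ∀ i, c.H i = f ^ j * Ht i)
    (hΘ : ∀ (Θ : MvPolynomial (Fin 4) k) (n : ℕ), Θ.IsHomogeneous n → aeval c.y Θ ≠ 0 →
      ¬ f ∣ aeval Ht Θ)
    {Z Z' : MvPolynomial (Fin 4) k} {m a : ℕ} (hZ : Z.IsHomogeneous m)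
    (hZL : aeval c.x Z ∈ c.L) (hZ' : Z = f ^ a * Z') (hfZ : ¬ f ∣ Z') : c.d * a = j * m := by
  obtain ⟨V, hV1, hV2⟩ := c.exists_center hf
  have hunit : ∀ P : MvPolynomial (Fin 4) k, ¬ f ∣ P → V.valuation (aeval c.x P) = 1 := by
    intro P hP
    exact le_antisymm (hV1 P) (not_lt.1 fun h => hP ((hV2 P).1 h))
  set vf := V.valuation (aeval c.x f) with hvf
  have hvf1 : vf < 1 := (hV2 f).2 dvd_rfl
  have hfx : aeval c.x f ≠ 0 := by
    intro h
    rw [← map_zero (aeval c.x : MvPolynomial (Fin 4) k →ₐ[k] Ω)] at h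
    exact hf.ne_zero (c.aeval_x_inj h)
  have hvf0 : vf ≠ 0 := (Valuation.ne_zero_iff _).2 hfx
  have hH0 : ∀ i, ¬ f ∣ Ht i := by
    intro i
    have := hΘ (X i) 1 (isHomogeneous_X _ _) (by rw [aeval_X]; exact c.y_ne i)
    rwa [aeval_X] at this
  have hy : ∀ i, c.y i = aeval c.x f ^ j * aeval c.x (Ht i) := by
    intro i
    rw [c.hy, hHt, map_mul, map_pow]
  have hvy : ∀ i, V.valuation (c.y i) = vf ^ j := by
    intro i
    rw [hy, map_mul, map_pow, hunit _ (hH0 i), mul_one]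
  set t : Fin 4 → Ω := fun i => c.y i / c.y 0 with ht
  have hPt : ∀ P : MvPolynomial (Fin 4) k, aeval t P ≠ 0 → V.valuation (aeval t P) = 1 := by
    intro P hP
    obtain ⟨Θ, hΘ1, hΘ2⟩ := c.homogenise P
    have h1 : aeval c.y Θ ≠ 0 := by
      rw [hΘ2]
      exact mul_ne_zero (pow_ne_zero _ (c.y_ne 0)) hP
    have h2 : V.valuation (aeval c.y Θ) = (vf ^ j) ^ P.totalDegree := by
      have h3 : aeval c.y Θ = (aeval c.x f ^ j) ^ P.totalDegree * aeval c.x (aeval Ht Θ) := by
        have h4 : c.y = fun i => aeval c.x f ^ j * aeval c.x (Ht i) := funext hy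
        rw [h4, b4_aeval_smul hΘ1]
        congr 1
        have h5 : (aeval (fun i => aeval c.x (Ht i)) : MvPolynomial (Fin 4) k →ₐ[k] Ω) =
            (aeval c.x).comp (aeval Ht) := by
          ext i; simp
        rw [h5]; rfl
      rw [h3, map_mul, map_pow, map_pow, hunit _ (hΘ Θ _ hΘ1 h1), mul_one]
    rw [hΘ2, map_mul, map_pow, hvy] at h2
    have h6 : (vf ^ j) ^ P.totalDegree ≠ 0 := pow_ne_zero _ (pow_ne_zero _ hvf0)
    exact mul_left_cancel₀ h6 (by rw [h2, mul_one])
  have hVK : ∀ a ∈ acl k (Set.range t), a ∈ V := by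
    apply acl_le_of_trivial
    intro a ha
    rw [IntermediateField.mem_adjoin_range_iff] at ha
    obtain ⟨P, Q, rfl⟩ := ha
    by_cases hQ : aeval t Q = 0
    · rw [hQ, div_zero]; exact V.zero_mem
    · by_cases hP : aeval t P = 0
      · rw [hP, zero_div]; exact V.zero_mem
      · rw [← V.valuation_le_one_iff, map_div₀, hPt P hP, hPt Q hQ, div_one]
  have hZ0 : aeval c.x Z ≠ 0 := by
    intro h
    rw [← map_zero (aeval c.x : MvPolynomial (Fin 4) k →ₐ[k] Ω)] at h
    have h1 := c.aeval_x_inj h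
    rw [hZ'] at h1
    rcases mul_eq_zero.1 h1 with h2 | h2
    · exact pow_ne_zero a hf.ne_zero h2
    · exact hfZ (h2 ▸ dvd_zero f)
  set ζ : Ω := aeval c.x Z ^ c.d / c.y 0 ^ m with hζ
  have hζL : ζ ∈ c.L := div_mem (pow_mem hZL _) (pow_mem (c.y_mem' 0) _)
  have hζE : c.E ζ = 0 := by
    rw [hζ, Derivation.leibniz_div, Derivation.leibniz_pow, Derivation.leibniz_pow, c.E_form hZ,
      c.Ey']
    simp only [smul_eq_mul, nsmul_eq_mul]
    have hd := c.hd
    have e1 : aeval c.x Z ^ (c.d - 1) * (aeval c.x Z) = aeval c.x Z ^ c.d := by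
      rw [← pow_succ]; congr 1; omega
    rcases Nat.eq_zero_or_pos m with hm | hm
    · subst hm; simp
    · have e2 : c.y 0 ^ (m - 1) * c.y 0 = c.y 0 ^ m := by
        rw [← pow_succ]; congr 1; omega
      have e3 : c.y 0 ^ m * ((c.d : Ω) * (aeval c.x Z ^ (c.d - 1) * ((m : Ω) * aeval c.x Z))) -
          aeval c.x Z ^ c.d * ((m : Ω) * (c.y 0 ^ (m - 1) * ((c.d : Ω) * c.y 0))) = 0 := by
        rw [← e1, ← e2]; ring
      rw [e3, mul_zero]
  have hζ0 : ζ ≠ 0 := div_ne_zero (pow_ne_zero _ hZ0) (pow_ne_zero _ (c.y_ne 0))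
  have hv := acl_val_eq_one V hVK (c.deg_zero hζL hζE) hζ0
  rw [hζ, map_div₀, map_pow, map_pow, hvy, hZ', map_mul, map_pow, map_mul, map_pow,
    hunit _ hfZ, mul_one, div_eq_one_iff_eq (pow_ne_zero _ (pow_ne_zero _ hvf0)), ← pow_mul,
    ← pow_mul] at hv
  have hinj := pow_right_injective₀ (a := vf) (zero_lt_iff.2 hvf0) hvf1.ne
  have := hinj hv
  rw [mul_comm c.d a]
  exact this

end Ctx3

namespace Ctx3
variable {k Ω : Type*} [Field k] [IsAlgClosed k] [CharZero k] [Field Ω] [IsAlgClosed Ω] [Algebra k Ω]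
  (c : Ctx3 k Ω)

omit [IsAlgClosed k] [IsAlgClosed Ω] in
/-- the factorisation `H = f ^ j * Ht` and the order relation -/
theorem b4_order {V : ValuationSubring Ω} {b : Fin 4 → Ω} {i0 : Fin 4} (hb : c.IsDir V b i0)
    {f : MvPolynomial (Fin 4) k} {δ : ℕ} (hf : Irreducible f) (hfh : f.IsHomogeneous δ)
    (hfb : aeval b f = 0)
    (hall : ∀ (F : MvPolynomial (Fin 4) k) (m : ℕ), F.IsHomogeneous m → aeval b F = 0 → f ∣ F) :
    ∃ (j m0 : ℕ) (Ht : Fin 4 → MvPolynomial (Fin 4) k) (e : Ω), j ≠ 0 ∧ m0 ≠ 0 ∧ δ ≠ 0 ∧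
      c.d = δ * j + m0 ∧ (∀ i, c.H i = f ^ j * Ht i) ∧ (∀ i, (Ht i).IsHomogeneous m0) ∧
      e ≠ 0 ∧ (∀ i, aeval b (Ht i) = e * c.y i) ∧
      ∀ (Z Z' : MvPolynomial (Fin 4) k) (m a : ℕ), Z.IsHomogeneous m → aeval c.x Z ∈ c.L →
        Z = f ^ a * Z' → ¬ f ∣ Z' → c.d * a = j * m := by
  classical
  have hδ : δ ≠ 0 := by
    rintro rfl
    rw [← totalDegree_zero_iff_isHomogeneous, totalDegree_eq_zero_iff_eq_C] at hfh
    rw [hfh] at hf
    apply hf.not_isUnit
    refine isUnit_iff_ne_zero.2 ?_ |>.map C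
    intro h0
    rw [h0, map_zero] at hf
    exact hf.ne_zero rfl
  have hH0 : ∀ i, c.H i ≠ 0 := fun i => c.ind.ne_zero i
  have hfH : ∀ i, f ∣ c.H i := fun i => hall _ _ (c.nil.hom i) (c.b4_H_dir hb i)
  -- the maximal power
  have hex : ∃ n, ¬ ∀ i, f ^ n ∣ c.H i := by
    obtain ⟨a, Z', hZ, hZ'⟩ := b4_exists_pow hf (hH0 0)
    refine ⟨a + 1, fun h => hZ' ?_⟩
    have h1 := h 0
    rw [hZ, pow_succ] at h1
    exact (mul_dvd_mul_iff_left (pow_ne_zero a hf.ne_zero)).1 h1
  have hn0 := Nat.find_spec hex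
  have hn1 : 2 ≤ Nat.find hex := by
    by_contra h
    apply hn0
    intro i
    rcases Nat.lt_or_ge (Nat.find hex) 1 with h1 | h1
    · rw [show Nat.find hex = 0 by omega, pow_zero]; exact one_dvd _
    · rw [show Nat.find hex = 1 by omega, pow_one]; exact hfH i
  have hj : ∀ i, f ^ (Nat.find hex - 1) ∣ c.H i := by
    have := Nat.find_min hex (m := Nat.find hex - 1) (by omega)
    exact not_not.1 this
  set j := Nat.find hex - 1 with hjdef
  choose Ht hHt using hj
  have hl : ∃ l, ¬ f ∣ Ht l := by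
    by_contra hcon
    push Not at hcon
    apply hn0
    intro i
    rw [show Nat.find hex = j + 1 by omega, hHt i, pow_succ]
    exact mul_dvd_mul_left _ (hcon i)
  obtain ⟨l, hl⟩ := hl
  have hj1 : j ≠ 0 := by omega
  -- homogeneity
  have hhom : ∀ i, ∃ q, (Ht i).IsHomogeneous q ∧ δ * j + q = c.d := by
    intro i
    have h1 : (f ^ j * Ht i).IsHomogeneous c.d := by rw [← hHt]; exact c.nil.hom i
    have h0 : f ^ j * Ht i ≠ 0 := by rw [← hHt]; exact hH0 i
    obtain ⟨p, q, hp, hq, hpq⟩ := b4_factor_hom' h1 h0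
    have h2 : p = δ * j := IsHomogeneous.inj_right hp (hfh.pow j) (left_ne_zero_of_mul h0)
    exact ⟨q, hq, by rw [← h2]; exact hpq⟩
  obtain ⟨m0, hm0, hdm⟩ := hhom 0
  have hhom' : ∀ i, (Ht i).IsHomogeneous m0 := by
    intro i
    obtain ⟨q, hq, hq'⟩ := hhom i
    have : q = m0 := by omega
    rwa [this] at hq
  -- proportionality
  have hfx : aeval c.x f ≠ 0 := by
    intro h
    rw [← map_zero (aeval c.x : MvPolynomial (Fin 4) k →ₐ[k] Ω)] at h
    exact hf.ne_zero (c.aeval_x_inj h)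
  have hprop : ∀ i i', aeval b (Ht i) * c.y i' = aeval b (Ht i') * c.y i := by
    intro i i'
    have h1 : aeval c.x (Ht i) * c.y i' = aeval c.x (Ht i') * c.y i := by
      rw [c.hy, c.hy, hHt i, hHt i', map_mul, map_mul, map_pow]; ring
    refine sub_eq_zero.1 (c.small_zero hb.place (sub_mem (mul_mem (c.b_mem hb _) (c.y_mem' _))
      (mul_mem (c.b_mem hb _) (c.y_mem' _))) ?_)
    have hx0 := pow_ne_zero m0 (c.x0_ne hb)
    have e : aeval b (Ht i) * c.y i' - aeval b (Ht i') * c.y i =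
        (aeval c.x (Ht i') / c.x i0 ^ m0 - aeval b (Ht i')) * c.y i -
        (aeval c.x (Ht i) / c.x i0 ^ m0 - aeval b (Ht i)) * c.y i' := by
      have : aeval c.x (Ht i) / c.x i0 ^ m0 * c.y i' = aeval c.x (Ht i') / c.x i0 ^ m0 * c.y i := by
        rw [div_mul_eq_mul_div, div_mul_eq_mul_div, h1]
      linear_combination this
    rw [e]
    have hyv : ∀ i, V.valuation (c.y i) = 1 := fun i =>
      acl_val_eq_one V hb.place (c.y_mem' i) (c.y_ne i)
    refine (Valuation.map_sub _ _ _).trans_lt (max_lt ?_ ?_)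
    · rw [map_mul, hyv, mul_one]; exact c.b4_res hb (hhom' _)
    · rw [map_mul, hyv, mul_one]; exact c.b4_res hb (hhom' _)
  have hlb : aeval b (Ht l) ≠ 0 := fun h => hl (hall _ _ (hhom' l) h)
  set e : Ω := aeval b (Ht l) / c.y l with he
  have he0 : e ≠ 0 := div_ne_zero hlb (c.y_ne l)
  have heq : ∀ i, aeval b (Ht i) = e * c.y i := by
    intro i
    rw [he, div_mul_eq_mul_div, eq_div_iff (c.y_ne l)]
    exact hprop i l
  -- degree zero impossible
  have hm00 : m0 ≠ 0 := by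
    rintro rfl
    have h1 : ∀ i, ∃ a : k, Ht i = C a := by
      intro i
      have := hhom' i
      rw [← totalDegree_zero_iff_isHomogeneous, totalDegree_eq_zero_iff_eq_C] at this
      exact ⟨_, this⟩
    choose a ha using h1
    have h2 : ∑ i : Fin 4, (![a 1, - a 0, 0, 0] i) • c.H i = 0 := by
      rw [Fin.sum_univ_four]
      simp only [Matrix.cons_val, hHt, ha, smul_eq_C_mul]
      simp only [map_neg, map_zero]
      ring
    have h3 := Fintype.linearIndependent_iff.1 c.ind _ h2 0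
    simp only [Matrix.cons_val] at h3
    apply hH0 1
    rw [hHt 1, ha 1, h3, map_zero, mul_zero]
  have hΘ : ∀ (Θ : MvPolynomial (Fin 4) k) (n : ℕ), Θ.IsHomogeneous n → aeval c.y Θ ≠ 0 →
      ¬ f ∣ aeval Ht Θ := by
    intro Θ n hΘ1 hΘ2 hdvd
    obtain ⟨g, hg⟩ := hdvd
    have h1 : aeval b (aeval Ht Θ) = e ^ n * aeval c.y Θ := by
      have h5 : (aeval (fun i => aeval b (Ht i)) : MvPolynomial (Fin 4) k →ₐ[k] Ω) =
          (aeval b).comp (aeval Ht) := by
        ext i; simp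
      rw [← b4_aeval_smul hΘ1, ← funext heq, h5]; rfl
    rw [hg, map_mul, hfb, zero_mul] at h1
    exact mul_ne_zero (pow_ne_zero n he0) hΘ2 h1.symm
  exact ⟨j, m0, Ht, e, hj1, hm00, hδ, hdm.symm, hHt, hhom', he0, heq,
    fun Z Z' m a h1 h2 h3 h4 => c.order_core hf hHt hΘ h1 h2 h3 h4⟩

end Ctx3

section
variable {k : Type*} [Field k] {σ : Type*}

private theorem pderiv_comm' (i j : σ) (F : MvPolynomial σ k) :
    pderiv i (pderiv j F) = pderiv j (pderiv i F) := by
  classical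
  have h : (⁅(pderiv i : Derivation k (MvPolynomial σ k) (MvPolynomial σ k)),
      (pderiv j : Derivation k (MvPolynomial σ k) (MvPolynomial σ k))⁆ :
      Derivation k (MvPolynomial σ k) (MvPolynomial σ k)) = 0 := by
    apply MvPolynomial.derivation_ext
    intro l
    rw [Derivation.commutator_apply, pderiv_X, pderiv_X]
    by_cases h1 : j = l <;> by_cases h2 : i = l <;> simp [h1, h2]
  have h2 := congrArg (fun D : Derivation k (MvPolynomial σ k) (MvPolynomial σ k) => D F) h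
  simp only [Derivation.commutator_apply, Derivation.zero_apply] at h2
  exact sub_eq_zero.1 h2

end

namespace Ctx3
variable {k Ω : Type*} [Field k] [IsAlgClosed k] [CharZero k] [Field Ω] [IsAlgClosed Ω] [Algebra k Ω]
  (c : Ctx3 k Ω)

omit [IsAlgClosed k] [IsAlgClosed Ω] in
private theorem mem_L_iff' (f : Ω) : f ∈ c.L ↔ c.W f = 0 := by
  constructor
  · intro h
    refine der_acl_zero c.W ?_ f h
    rintro _ ⟨i, rfl⟩
    exact c.Wy i
  · exact c.Wker f

omit [IsAlgClosed k] [CharZero k] [IsAlgClosed Ω] in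
private theorem u_mem' (i : Fin 4) : c.u i ∈ c.L := aeval_mem' c.L c.y_mem' _

omit [IsAlgClosed k] [CharZero k] [IsAlgClosed Ω] in
private theorem S_mem' (i j : Fin 4) : c.S i j ∈ c.L := aeval_mem' c.L c.y_mem' _

omit [IsAlgClosed k] [CharZero k] [IsAlgClosed Ω] in
private theorem R3_mem' (i j l : Fin 4) : c.R3 i j l ∈ c.L := aeval_mem' c.L c.y_mem' _

omit [IsAlgClosed k] [CharZero k] [IsAlgClosed Ω] in
private theorem S_symm' (i j : Fin 4) : c.S i j = c.S j i := by
  unfold S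
  rw [pderiv_comm']

omit [IsAlgClosed k] [CharZero k] [IsAlgClosed Ω] in
private theorem R3_symm1 (i j l : Fin 4) : c.R3 i j l = c.R3 j i l := by
  unfold R3
  rw [pderiv_comm' j i]

omit [IsAlgClosed k] [CharZero k] [IsAlgClosed Ω] in
private theorem R3_symm2 (i j l : Fin 4) : c.R3 i j l = c.R3 i l j := by
  unfold R3
  rw [pderiv_comm' l j]

omit [IsAlgClosed k] [CharZero k] [IsAlgClosed Ω] in
private theorem u_D' (D : Derivation k Ω Ω) : ∑ i, c.u i * D (c.y i) = 0 := by
  have h := der_aeval D c.y c.R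
  rw [c.Ry, map_zero] at h
  exact h.symm

omit [IsAlgClosed k] [CharZero k] [IsAlgClosed Ω] in
private theorem D_u' (D : Derivation k Ω Ω) (i : Fin 4) :
    D (c.u i) = ∑ j, c.S i j * D (c.y j) := der_aeval D c.y _

omit [IsAlgClosed k] [CharZero k] [IsAlgClosed Ω] in
private theorem D_S' (D : Derivation k Ω Ω) (i j : Fin 4) :
    D (c.S i j) = ∑ l, c.R3 i j l * D (c.y l) := der_aeval D c.y _

omit [IsAlgClosed k] [CharZero k] [IsAlgClosed Ω] in
/-- derivative of the first contact function -/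
private theorem D_G (D D' : Derivation k Ω Ω) (h : ∀ i, D (c.x i) = D' (c.y i)) :
    D c.G = ∑ i, D (c.u i) * c.x i := by
  unfold G
  rw [map_sum]
  simp only [Derivation.leibniz, smul_eq_mul, h]
  rw [Finset.sum_add_distrib, c.u_D' D', zero_add]
  exact Finset.sum_congr rfl fun i _ => mul_comm _ _

omit [IsAlgClosed k] [CharZero k] [IsAlgClosed Ω] in
/-- derivative of the second contact function -/
private theorem D_Z2 (D D' : Derivation k Ω Ω) (h : ∀ i, D (c.x i) = D' (c.y i)) :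
    D (∑ i, ∑ j, c.S i j * c.x i * c.x j) =
      (∑ i, ∑ j, D (c.S i j) * c.x i * c.x j) + 2 * ∑ i, D' (c.u i) * c.x i := by
  have h1 : ∀ i j, D (c.S i j * c.x i * c.x j) = D (c.S i j) * c.x i * c.x j +
      c.S i j * D' (c.y i) * c.x j + c.S i j * c.x i * D' (c.y j) := by
    intro i j
    simp only [Derivation.leibniz, smul_eq_mul, h]
    ring
  simp only [map_sum, h1, Finset.sum_add_distrib]
  have h2 : ∑ i, ∑ j, c.S i j * D' (c.y i) * c.x j = ∑ i, D' (c.u i) * c.x i := by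
    rw [Finset.sum_comm]
    refine Finset.sum_congr rfl fun i _ => ?_
    rw [c.D_u', Finset.sum_mul]
    exact Finset.sum_congr rfl fun j _ => by rw [c.S_symm' j i]
  have h3 : ∑ i, ∑ j, c.S i j * c.x i * D' (c.y j) = ∑ i, D' (c.u i) * c.x i := by
    refine Finset.sum_congr rfl fun i _ => ?_
    rw [c.D_u', Finset.sum_mul]
    exact Finset.sum_congr rfl fun j _ => by ring
  rw [h2, h3]; ring

omit [IsAlgClosed k] [CharZero k] [IsAlgClosed Ω] in
/-- derivative of the third contact function -/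
private theorem D_Z3 (D D' : Derivation k Ω Ω) (h : ∀ i, D (c.x i) = D' (c.y i)) :
    D (∑ i, ∑ j, ∑ l, c.R3 i j l * c.x i * c.x j * c.x l) =
      (∑ i, ∑ j, ∑ l, D (c.R3 i j l) * c.x i * c.x j * c.x l) +
        3 * ∑ i, ∑ j, D' (c.S i j) * c.x i * c.x j := by
  have h1 : ∀ i j l, D (c.R3 i j l * c.x i * c.x j * c.x l) =
      D (c.R3 i j l) * c.x i * c.x j * c.x l +
      c.R3 i j l * D' (c.y i) * c.x j * c.x l + c.R3 i j l * c.x i * D' (c.y j) * c.x l +
      c.R3 i j l * c.x i * c.x j * D' (c.y l) := by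
    intro i j l
    simp only [Derivation.leibniz, smul_eq_mul, h]
    ring
  simp only [map_sum, h1, Finset.sum_add_distrib]
  have h4 : ∑ i, ∑ j, ∑ l, c.R3 i j l * c.x i * c.x j * D' (c.y l) =
      ∑ i, ∑ j, D' (c.S i j) * c.x i * c.x j := by
    refine Finset.sum_congr rfl fun i _ => Finset.sum_congr rfl fun j _ => ?_
    rw [c.D_S', Finset.sum_mul, Finset.sum_mul]
    exact Finset.sum_congr rfl fun l _ => by ring
  have h3 : ∑ i, ∑ j, ∑ l, c.R3 i j l * c.x i * D' (c.y j) * c.x l =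
      ∑ i, ∑ j, D' (c.S i j) * c.x i * c.x j := by
    refine Finset.sum_congr rfl fun i _ => ?_
    rw [Finset.sum_comm]
    refine Finset.sum_congr rfl fun j _ => ?_
    rw [c.D_S', Finset.sum_mul, Finset.sum_mul]
    exact Finset.sum_congr rfl fun l _ => by rw [c.R3_symm2 i l j]; ring
  have h2 : ∑ i, ∑ j, ∑ l, c.R3 i j l * D' (c.y i) * c.x j * c.x l =
      ∑ i, ∑ j, D' (c.S i j) * c.x i * c.x j := by
    rw [Finset.sum_comm]
    refine Finset.sum_congr rfl fun i _ => ?_
    rw [Finset.sum_comm]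
    refine Finset.sum_congr rfl fun j _ => ?_
    rw [c.D_S', Finset.sum_mul, Finset.sum_mul]
    refine Finset.sum_congr rfl fun l _ => ?_
    rw [c.R3_symm1 l i j, c.R3_symm2 i l j]
  rw [h2, h3, h4]; ring

omit [IsAlgClosed k] [IsAlgClosed Ω] in
private theorem G_mem' : c.G ∈ c.L := by
  rw [mem_L_iff', c.D_G c.W c.V2 c.Wx]
  refine Finset.sum_eq_zero fun i _ => ?_
  rw [(c.mem_L_iff' _).1 (c.u_mem' i), zero_mul]

omit [IsAlgClosed k] [IsAlgClosed Ω] in
private theorem Z2_mem (hG : c.G = 0) : (∑ i, ∑ j, c.S i j * c.x i * c.x j) ∈ c.L := by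
  rw [mem_L_iff', c.D_Z2 c.W c.V2 c.Wx, ← c.D_G c.V2 c.V1 c.V2x, hG, map_zero, mul_zero, add_zero]
  refine Finset.sum_eq_zero fun i _ => Finset.sum_eq_zero fun j _ => ?_
  rw [(c.mem_L_iff' _).1 (c.S_mem' i j), zero_mul, zero_mul]

omit [IsAlgClosed k] [IsAlgClosed Ω] in
private theorem Z3_mem (hG : c.G = 0) (hZ : ∑ i, ∑ j, c.S i j * c.x i * c.x j = 0) :
    (∑ i, ∑ j, ∑ l, c.R3 i j l * c.x i * c.x j * c.x l) ∈ c.L := by
  have h1 := c.D_Z2 c.V2 c.V1 c.V2x
  rw [hZ, map_zero, ← c.D_G c.V1 c.Z0 c.V1x, hG, map_zero, mul_zero, add_zero] at h1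
  rw [mem_L_iff', c.D_Z3 c.W c.V2 c.Wx, ← h1, mul_zero, add_zero]
  refine Finset.sum_eq_zero fun i _ => Finset.sum_eq_zero fun j _ =>
    Finset.sum_eq_zero fun l _ => ?_
  rw [(c.mem_L_iff' _).1 (c.R3_mem' i j l), zero_mul, zero_mul, zero_mul]

omit [IsAlgClosed k] [CharZero k] [IsAlgClosed Ω] in
/-- values of forms in `H` -/
private theorem aeval_H (P : MvPolynomial (Fin 4) k) : aeval c.x (aeval c.H P) = aeval c.y P := by
  have h5 : (aeval c.y : MvPolynomial (Fin 4) k →ₐ[k] Ω) = (aeval c.x).comp (aeval c.H) := by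
    ext i; simp [c.hy]
  rw [h5]; rfl

end Ctx3

namespace Ctx3
variable {k Ω : Type*} [Field k] [IsAlgClosed k] [CharZero k] [Field Ω] [IsAlgClosed Ω] [Algebra k Ω]
  (c : Ctx3 k Ω)

omit [IsAlgClosed k] [CharZero k] [IsAlgClosed Ω] in
private theorem exists_fac {V : ValuationSubring Ω} {b : Fin 4 → Ω} {i0 : Fin 4}
    (hb : c.IsDir V b i0) (hno : ¬ Ctx3.TwoForms (k := k) b) :
    ∃ (f : MvPolynomial (Fin 4) k) (δ : ℕ), Irreducible f ∧ f.IsHomogeneous δ ∧ aeval b f = 0 ∧
      ∀ (F : MvPolynomial (Fin 4) k) (m : ℕ), F.IsHomogeneous m → aeval b F = 0 → f ∣ F := by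
  obtain ⟨f, δ, hf, hfh, hfb⟩ := b4_exists_factor (c.nil.hom 0) (c.ind.ne_zero 0) (c.b4_H_dir hb 0)
  refine ⟨f, δ, hf, hfh, hfb, fun F m hF hFb => ?_⟩
  rcases hf.dvd_or_isRelPrime (n := F) with h | h
  · exact h
  · exact absurd ⟨f, F, δ, m, h, hfh, hF, hfb, hFb⟩ hno

/-- the common exponent argument -/
private theorem exp_arg {d δ j m0 q κ a a' : ℕ} (hδ : δ ≠ 0) (hm0 : m0 ≠ 0)
    (hd : d = δ * j + m0) (ha : a = j * q + a') (h : d * a = j * (d * q + κ)) :
    d * a' = κ * j ∧ j < d := by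
  subst ha
  refine ⟨?_, ?_⟩
  · have h2 : d * (j * q + a') = d * (j * q) + d * a' := Nat.mul_add _ _ _
    have h3 : j * (d * q + κ) = d * (j * q) + κ * j := by ring
    omega
  · have : j ≤ δ * j := Nat.le_mul_of_pos_left _ (Nat.pos_of_ne_zero hδ)
    omega

omit [IsAlgClosed k] [IsAlgClosed Ω] in
theorem two_forms_G (hG : c.G ≠ 0) {V : ValuationSubring Ω} {b : Fin 4 → Ω} {i0 : Fin 4}
    (hb : c.IsDir V b i0) : Ctx3.TwoForms (k := k) b := by
  by_contra hno
  obtain ⟨f, δ, hf, hfh, hfb, hall⟩ := c.exists_fac hb hno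
  obtain ⟨j, m0, Ht, e, hj, hm0, hδ, hd, hHt, hHth, he, hHtb, hord⟩ := c.b4_order hb hf hfh hfb hall
  have hr := c.hr
  set Z' : MvPolynomial (Fin 4) k := ∑ i, aeval Ht (pderiv i c.R) * X i with hZ'
  set Z : MvPolynomial (Fin 4) k := ∑ i, aeval c.H (pderiv i c.R) * X i with hZ
  have hZx : aeval c.x Z = c.G := by
    rw [hZ, map_sum]
    unfold G u
    refine Finset.sum_congr rfl fun i _ => ?_
    rw [map_mul, aeval_X, c.aeval_H]
  have hfac : Z = f ^ (j * (c.r - 1)) * Z' := by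
    rw [hZ, hZ', Finset.mul_sum]
    refine Finset.sum_congr rfl fun i _ => ?_
    have h1 : (pderiv i c.R).IsHomogeneous (c.r - 1) := c.Rhom.pderiv
    have h2 := b4_aeval_smul h1 (f ^ j) Ht
    rw [← funext hHt, ← pow_mul] at h2
    rw [h2, mul_assoc]
  have hhom : Z.IsHomogeneous (c.d * (c.r - 1) + 1) := by
    refine IsHomogeneous.sum _ _ _ fun i _ => ?_
    have h1 : (pderiv i c.R).IsHomogeneous (c.r - 1) := c.Rhom.pderiv
    exact (h1.aeval c.H c.nil.hom).mul (isHomogeneous_X _ _)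
  have hZ'0 : Z' ≠ 0 := by
    intro h
    rw [h, mul_zero] at hfac
    rw [hfac, map_zero] at hZx
    exact hG hZx.symm
  obtain ⟨a', Z'', h1, h2⟩ := b4_exists_pow hf hZ'0
  have h3 : Z = f ^ (j * (c.r - 1) + a') * Z'' := by rw [hfac, h1, pow_add, mul_assoc]
  have h4 := hord Z Z'' _ _ hhom (by rw [hZx]; exact c.G_mem') h3 h2
  obtain ⟨h5, h6⟩ := exp_arg hδ hm0 hd rfl h4
  rw [one_mul] at h5
  rcases Nat.eq_zero_or_pos a' with h7 | h7
  · rw [h7, mul_zero] at h5; exact hj h5.symm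
  · have : c.d ≤ c.d * a' := Nat.le_mul_of_pos_right _ h7
    omega

omit [IsAlgClosed k] [IsAlgClosed Ω] in
theorem two_forms_Z2 (hG : c.G = 0) (hZ : ∑ i, ∑ j, c.S i j * c.x i * c.x j ≠ 0)
    {V : ValuationSubring Ω} {b : Fin 4 → Ω} {i0 : Fin 4}
    (hb : c.IsDir V b i0) : Ctx3.TwoForms (k := k) b := by
  by_contra hno
  obtain ⟨f, δ, hf, hfh, hfb, hall⟩ := c.exists_fac hb hno
  obtain ⟨j, m0, Ht, e, hj, hm0, hδ, hd, hHt, hHth, he, hHtb, hord⟩ := c.b4_order hb hf hfh hfb hall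
  have hr := c.hr
  have hder : ∀ i l, (pderiv l (pderiv i c.R)).IsHomogeneous (c.r - 2) := fun i l =>
    (c.Rhom.pderiv (i := i)).pderiv
  set Z' : MvPolynomial (Fin 4) k := ∑ i, ∑ l, aeval Ht (pderiv l (pderiv i c.R)) * (X i * X l)
    with hZ'
  set Z : MvPolynomial (Fin 4) k := ∑ i, ∑ l, aeval c.H (pderiv l (pderiv i c.R)) * (X i * X l)
    with hZd
  have hZx : aeval c.x Z = ∑ i, ∑ j, c.S i j * c.x i * c.x j := by
    rw [hZd, map_sum]
    unfold S
    refine Finset.sum_congr rfl fun i _ => ?_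
    rw [map_sum]
    refine Finset.sum_congr rfl fun l _ => ?_
    rw [map_mul, map_mul, aeval_X, aeval_X, c.aeval_H, mul_assoc]
  have hfac : Z = f ^ (j * (c.r - 2)) * Z' := by
    rw [hZd, hZ', Finset.mul_sum]
    refine Finset.sum_congr rfl fun i _ => ?_
    rw [Finset.mul_sum]
    refine Finset.sum_congr rfl fun l _ => ?_
    have h2 := b4_aeval_smul (hder i l) (f ^ j) Ht
    rw [← funext hHt, ← pow_mul] at h2
    rw [h2, mul_assoc]
  have hhom : Z.IsHomogeneous (c.d * (c.r - 2) + 2) := by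
    refine IsHomogeneous.sum _ _ _ fun i _ => IsHomogeneous.sum _ _ _ fun l _ => ?_
    exact ((hder i l).aeval c.H c.nil.hom).mul
      ((isHomogeneous_X k i).mul (isHomogeneous_X k l))
  have hZ'0 : Z' ≠ 0 := by
    intro h
    rw [h, mul_zero] at hfac
    rw [hfac, map_zero] at hZx
    exact hZ hZx.symm
  obtain ⟨a', Z'', h1, h2⟩ := b4_exists_pow hf hZ'0
  have h3 : Z = f ^ (j * (c.r - 2) + a') * Z'' := by rw [hfac, h1, pow_add, mul_assoc]
  have h4 := hord Z Z'' _ _ hhom (by rw [hZx]; exact c.Z2_mem hG) h3 h2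
  obtain ⟨h5, h6⟩ := exp_arg hδ hm0 hd rfl h4
  -- `a' = 1`, `d = 2 j`, `δ = 1`
  have ha' : a' = 1 := by
    rcases Nat.lt_or_ge a' 2 with h7 | h7
    · rcases Nat.eq_zero_or_pos a' with h8 | h8
      · rw [h8, mul_zero] at h5; omega
      · omega
    · have : c.d * 2 ≤ c.d * a' := Nat.mul_le_mul_left _ h7
      omega
  rw [ha', mul_one] at h5
  have hδ1 : δ = 1 := by
    rcases Nat.lt_or_ge δ 2 with h7 | h7
    · omega
    · have : 2 * j ≤ δ * j := Nat.mul_le_mul_right _ h7
      omega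
  subst hδ1
  -- `f` is a linear form
  have hlin : ∀ i, ∃ a : k, pderiv i f = C a := by
    intro i
    have : (pderiv i f).IsHomogeneous 0 := hfh.pderiv
    rw [← totalDegree_zero_iff_isHomogeneous, totalDegree_eq_zero_iff_eq_C] at this
    exact ⟨_, this⟩
  choose a ha using hlin
  obtain ⟨g, hg⟩ := trace_div c.nil hf.prime hj hHt
  have h8 : ∑ i, algebraMap k Ω (a i) * c.y i = 0 := by
    have h9 := congrArg (aeval b) hg
    rw [map_mul, hfb, zero_mul, map_sum] at h9
    have h10 : e * ∑ i, algebraMap k Ω (a i) * c.y i = 0 := by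
      rw [← h9, Finset.mul_sum]
      refine Finset.sum_congr rfl fun i _ => ?_
      rw [map_mul, ha, aeval_C, hHtb]; ring
    exact (mul_eq_zero.1 h10).resolve_left he
  have h11 : ∑ i, a i • c.H i = 0 := by
    apply c.aeval_x_inj
    rw [map_zero, map_sum, ← h8]
    refine Finset.sum_congr rfl fun i _ => ?_
    rw [map_smul, ← c.hy, Algebra.smul_def]
  have h12 := Fintype.linearIndependent_iff.1 c.ind a h11
  have h13 := hfh.sum_X_mul_pderiv
  rw [one_smul] at h13
  apply hf.ne_zero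
  rw [← h13]
  refine Finset.sum_eq_zero fun i _ => ?_
  rw [ha, h12, map_zero, mul_zero]

omit [IsAlgClosed k] [IsAlgClosed Ω] in
theorem no_Z3 (hG : c.G = 0) (hZ : ∑ i, ∑ j, c.S i j * c.x i * c.x j = 0)
    (hZ3 : ∑ i, ∑ j, ∑ l, c.R3 i j l * c.x i * c.x j * c.x l ≠ 0)
    {V : ValuationSubring Ω} {b : Fin 4 → Ω} {i0 : Fin 4}
    (hb : c.IsDir V b i0) (hby : ∃ e : Ω, ∀ i, b i = e * c.y i) : False := by
  obtain ⟨e', he'⟩ := hby
  have he'0 : e' ≠ 0 := by
    intro h
    have := he' i0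
    rw [hb.one, h, zero_mul] at this
    exact one_ne_zero this
  have hval : ∀ (F : MvPolynomial (Fin 4) k) (m : ℕ), F.IsHomogeneous m →
      aeval b F = e' ^ m * aeval c.y F := by
    intro F m hF
    rw [← b4_aeval_smul hF, ← funext he']
  have hfb : aeval b c.R = 0 := by rw [hval _ _ c.Rhom, c.Ry, mul_zero]
  have hall : ∀ (F : MvPolynomial (Fin 4) k) (m : ℕ), F.IsHomogeneous m → aeval b F = 0 →
      c.R ∣ F := by
    intro F m hF hFb
    apply c.Rmin
    rw [hval F m hF] at hFb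
    exact (mul_eq_zero.1 hFb).resolve_left (pow_ne_zero m he'0)
  obtain ⟨j, m0, Ht, e, hj, hm0, hδ, hd, hHt, hHth, he, hHtb, hord⟩ :=
    c.b4_order hb c.Rirr c.Rhom hfb hall
  have hr := c.hr
  have hder : ∀ i j l, (pderiv l (pderiv j (pderiv i c.R))).IsHomogeneous (c.r - 3) :=
    fun i j l => ((c.Rhom.pderiv (i := i)).pderiv (i := j)).pderiv
  have hr3 : 3 ≤ c.r := by
    by_contra hlt
    have hr2 : c.r = 2 := by omega
    apply hZ3
    refine Finset.sum_eq_zero fun i _ => Finset.sum_eq_zero fun j _ =>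
      Finset.sum_eq_zero fun l _ => ?_
    have h1 : (pderiv j (pderiv i c.R)).IsHomogeneous (c.r - 1 - 1) :=
      (c.Rhom.pderiv (i := i)).pderiv
    rw [hr2] at h1
    rw [show 2 - 1 - 1 = 0 from rfl, ← totalDegree_zero_iff_isHomogeneous,
      totalDegree_eq_zero_iff_eq_C] at h1
    have h2 : c.R3 i j l = 0 := by
      unfold R3
      rw [h1, pderiv_C, map_zero]
    rw [h2, zero_mul, zero_mul, zero_mul]
  set Z' : MvPolynomial (Fin 4) k := ∑ i, ∑ j, ∑ l,
    aeval Ht (pderiv l (pderiv j (pderiv i c.R))) * (X i * X j * X l) with hZ'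
  set Z : MvPolynomial (Fin 4) k := ∑ i, ∑ j, ∑ l,
    aeval c.H (pderiv l (pderiv j (pderiv i c.R))) * (X i * X j * X l) with hZd
  have hZx : aeval c.x Z = ∑ i, ∑ j, ∑ l, c.R3 i j l * c.x i * c.x j * c.x l := by
    rw [hZd, map_sum]
    unfold R3
    refine Finset.sum_congr rfl fun i _ => ?_
    rw [map_sum]
    refine Finset.sum_congr rfl fun j _ => ?_
    rw [map_sum]
    refine Finset.sum_congr rfl fun l _ => ?_
    rw [map_mul, map_mul, map_mul, aeval_X, aeval_X, aeval_X, c.aeval_H]; ring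
  have hfac : Z = c.R ^ (j * (c.r - 3)) * Z' := by
    rw [hZd, hZ', Finset.mul_sum]
    refine Finset.sum_congr rfl fun i _ => ?_
    rw [Finset.mul_sum]
    refine Finset.sum_congr rfl fun i' _ => ?_
    rw [Finset.mul_sum]
    refine Finset.sum_congr rfl fun l _ => ?_
    have h2 := b4_aeval_smul (hder i i' l) (c.R ^ j) Ht
    rw [← funext hHt, ← pow_mul] at h2
    rw [h2, mul_assoc]
  have hhom : Z.IsHomogeneous (c.d * (c.r - 3) + 3) := by
    refine IsHomogeneous.sum _ _ _ fun i _ => IsHomogeneous.sum _ _ _ fun j _ =>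
      IsHomogeneous.sum _ _ _ fun l _ => ?_
    exact ((hder i j l).aeval c.H c.nil.hom).mul
      (((isHomogeneous_X k i).mul (isHomogeneous_X k j)).mul (isHomogeneous_X k l))
  have hZ'0 : Z' ≠ 0 := by
    intro h
    rw [h, mul_zero] at hfac
    rw [hfac, map_zero] at hZx
    exact hZ3 hZx.symm
  obtain ⟨a', Z'', h1, h2⟩ := b4_exists_pow c.Rirr hZ'0
  have h3 : Z = c.R ^ (j * (c.r - 3) + a') * Z'' := by rw [hfac, h1, pow_add, mul_assoc]
  have h4 := hord Z Z'' _ _ hhom (by rw [hZx]; exact c.Z3_mem hG hZ) h3 h2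
  obtain ⟨h5, h6⟩ := exp_arg hδ hm0 hd rfl h4
  have h7 : 3 * j ≤ c.r * j := Nat.mul_le_mul_right _ hr3
  rcases Nat.eq_zero_or_pos a' with h8 | h8
  · rw [h8, mul_zero] at h5; omega
  · have : c.d ≤ c.d * a' := Nat.le_mul_of_pos_right _ h8
    omega

end Ctx3

end Pool.Agent.HDP
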