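import Mathlib
import Pool.Agent.Lib.MP_20906e_al.Defs
import Pool.Agent.Lib.MP_20906e_al.Ctx
import Pool.Agent.Lib.MP_20906e_al.Acl
import Pool.Agent.Lib.MP_20906e_al.Setup

/-!
# MP_20906e_al, piece B5: linear change of coordinates of the rank three context
-/

namespace Pool.Agent.HDP
open MvPolynomial Matrix

namespace Ctx3

section
variable {k Ω : Type*} [Field k] [Field Ω] [Algebra k Ω]

/-- substitution of linear forms -/
noncomputable def ls (S : Matrix (Fin 4) (Fin 4) k) :
    MvPolynomial (Fin 4) k →ₐ[k] MvPolynomial (Fin 4) k :=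
  aeval (fun l => ∑ m, C (S l m) * X m)

theorem ls_X (S : Matrix (Fin 4) (Fin 4) k) (l : Fin 4) : ls S (X l) = ∑ m, C (S l m) * X m := by
  simp [ls]

theorem aeval_ls (S : Matrix (Fin 4) (Fin 4) k) (z : Fin 4 → Ω) (P : MvPolynomial (Fin 4) k) :
    aeval z (ls S P) = aeval (lin S z) P := by
  have h : (aeval z : MvPolynomial (Fin 4) k →ₐ[k] Ω).comp (ls S) = aeval (lin S z) := by
    apply MvPolynomial.algHom_ext
    intro l
    rw [AlgHom.comp_apply, ls_X, aeval_X, map_sum]
    unfold lin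
    refine Finset.sum_congr rfl fun m _ => ?_
    rw [map_mul, aeval_X, ← MvPolynomial.algebraMap_eq, AlgHom.commutes]
  exact DFunLike.congr_fun h P

theorem lin_lin {S T : Matrix (Fin 4) (Fin 4) k} (h : S * T = 1) (z : Fin 4 → Ω) :
    lin S (lin T z) = z := by
  funext i
  unfold lin
  simp only [Finset.mul_sum]
  rw [Finset.sum_comm]
  have h1 : ∀ l, ∑ j, algebraMap k Ω (S i j) * (algebraMap k Ω (T j l) * z l) =
      algebraMap k Ω ((S * T) i l) * z l := by
    intro l
    rw [Matrix.mul_apply, map_sum, Finset.sum_mul]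
    refine Finset.sum_congr rfl fun j _ => ?_
    rw [map_mul, mul_assoc]
  simp only [h1, h, Matrix.one_apply]
  rw [Finset.sum_eq_single i]
  · simp
  · intro j _ hj
    rw [if_neg (Ne.symm hj), map_zero, zero_mul]
  · intro hi
    exact absurd (Finset.mem_univ i) hi

theorem ls_ls {S T : Matrix (Fin 4) (Fin 4) k} (h : S * T = 1) (P : MvPolynomial (Fin 4) k) :
    ls T (ls S P) = P := by
  have h1 : (ls T).comp (ls S) = AlgHom.id k _ := by
    apply MvPolynomial.algHom_ext
    intro l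
    rw [AlgHom.comp_apply, ls_X, AlgHom.id_apply, map_sum]
    have h2 : ∀ m, ls T (C (S l m) * X m) = ∑ p, C (S l m * T m p) * X p := by
      intro m
      rw [map_mul, ls_X, ← MvPolynomial.algebraMap_eq, AlgHom.commutes, Finset.mul_sum]
      refine Finset.sum_congr rfl fun p _ => ?_
      rw [MvPolynomial.algebraMap_eq, C_mul, mul_assoc]
    simp only [h2]
    rw [Finset.sum_comm]
    have h3 : ∀ p, ∑ m, (C (S l m * T m p) * X p : MvPolynomial (Fin 4) k) =
        C ((S * T) l p) * X p := by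
      intro p
      rw [Matrix.mul_apply, map_sum, Finset.sum_mul]
    simp only [h3, h, Matrix.one_apply]
    rw [Finset.sum_eq_single l]
    · simp
    · intro p _ hp
      simp [Ne.symm hp]
    · simp
  exact DFunLike.congr_fun h1 P

/-- the substitution as an equivalence -/
noncomputable def lsE {S T : Matrix (Fin 4) (Fin 4) k} (h : S * T = 1) (h' : T * S = 1) :
    MvPolynomial (Fin 4) k ≃ₐ[k] MvPolynomial (Fin 4) k :=
  AlgEquiv.ofAlgHom (ls S) (ls T) (AlgHom.ext fun P => ls_ls h' P) (AlgHom.ext fun P => ls_ls h P)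

theorem ls_hom {S : Matrix (Fin 4) (Fin 4) k} {P : MvPolynomial (Fin 4) k} {m : ℕ}
    (hP : P.IsHomogeneous m) : (ls S P).IsHomogeneous m := by
  have h1 := hP.aeval (fun l => ∑ m, C (S l m) * X m : Fin 4 → MvPolynomial (Fin 4) k)
      (n := 1) (fun l => IsHomogeneous.sum _ _ _ fun m _ => (isHomogeneous_X _ _).C_mul _)
  rwa [one_mul] at h1

theorem der_lin (D : Derivation k Ω Ω) (T : Matrix (Fin 4) (Fin 4) k) (z : Fin 4 → Ω)
    (i : Fin 4) : D (lin T z i) = lin T (fun j => D (z j)) i := by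
  unfold lin
  rw [map_sum]
  refine Finset.sum_congr rfl fun j _ => ?_
  rw [← Algebra.smul_def, ← Algebra.smul_def, D.map_smul]

theorem lin_mem (K : IntermediateField k Ω) (T : Matrix (Fin 4) (Fin 4) k) {z : Fin 4 → Ω}
    (hz : ∀ i, z i ∈ K) (i : Fin 4) : lin T z i ∈ K := by
  unfold lin
  exact sum_mem fun j _ => mul_mem (K.algebraMap_mem _) (hz j)

theorem acl_lin {T T' : Matrix (Fin 4) (Fin 4) k} (hT : T' * T = 1) (z : Fin 4 → Ω) :
    acl k (Set.range z) ≤ acl k (Set.range (lin T z)) := by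
  rw [acl_le_iff]
  rintro _ ⟨i, rfl⟩
  have h1 : lin T' (lin T z) i ∈ acl k (Set.range (lin T z)) :=
    lin_mem _ T' (fun j => subset_acl _ (Set.mem_range_self j)) i
  rwa [lin_lin hT] at h1

/-- partial derivatives of a substituted polynomial -/
theorem aeval_pderiv_ls {T T' : Matrix (Fin 4) (Fin 4) k} (hT : T' * T = 1)
    (R : MvPolynomial (Fin 4) k) (y : Fin 4 → Ω) (i : Fin 4) :
    aeval (lin T y) (pderiv i (ls T' R)) =
      ∑ j, aeval y (pderiv j R) * algebraMap k Ω (T' j i) := by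
  have h0 : ls T' R = aeval (fun l => ∑ m, C (T' l m) * X m) R := rfl
  rw [h0, pderiv_aeval, map_sum]
  refine Finset.sum_congr rfl fun j _ => ?_
  rw [map_mul]
  have h1 : aeval (lin T y) (aeval (fun l => ∑ m, C (T' l m) * X m) (pderiv j R)) =
      aeval y (pderiv j R) := by
    have h2 := aeval_ls T' (lin T y) (pderiv j R)
    rw [lin_lin hT] at h2
    exact h2
  have h3 : pderiv i (∑ m, C (T' j m) * X m : MvPolynomial (Fin 4) k) = C (T' j i) := by
    rw [map_sum, Finset.sum_eq_single i]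
    · rw [pderiv_C_mul, pderiv_X_self, mul_one]
    · intro m _ hm
      rw [pderiv_C_mul, pderiv_X_of_ne hm, mul_zero]
    · simp
  rw [h1, h3, ← MvPolynomial.algebraMap_eq, AlgHom.commutes]

/-- an irreducible relation generating all relations gives independent coordinates -/
theorem tr3_of_R {r : ℕ} (hr : 2 ≤ r) {R : MvPolynomial (Fin 4) k} (hom : R.IsHomogeneous r)
    (hR0 : R ≠ 0) {y : Fin 4 → Ω}
    (hmin : ∀ P : MvPolynomial (Fin 4) k, aeval y P = 0 → R ∣ P) :
    ∃ j : Fin 4, AlgebraicIndependent k (fun i : {i : Fin 4 // i ≠ j} => y i.1) := by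
  obtain ⟨s, hs⟩ := MvPolynomial.ne_zero_iff.1 hR0
  have hdeg := hom hs
  have hs0 : ∃ j, s j ≠ 0 := by
    by_contra hne
    push Not at hne
    have h0 : s = 0 := Finsupp.ext hne
    rw [h0, map_zero] at hdeg
    omega
  obtain ⟨j, hj⟩ := hs0
  refine ⟨j, ?_⟩
  rw [algebraicIndependent_iff]
  intro Q hQ
  by_contra hQ0
  set P : MvPolynomial (Fin 4) k := rename Subtype.val Q with hP
  have hP0 : P ≠ 0 := by
    rw [hP]
    intro h
    exact hQ0 (rename_injective _ Subtype.val_injective (h.trans (map_zero _).symm))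
  have hPy : aeval y P = 0 := by
    rw [hP, aeval_rename]
    exact hQ
  obtain ⟨P2, hP2⟩ := hmin P hPy
  have hP20 : P2 ≠ 0 := by
    rintro rfl
    exact hP0 (by rw [hP2, mul_zero])
  have h1 : degreeOf j P = degreeOf j R + degreeOf j P2 := by
    rw [hP2]
    exact degreeOf_mul_eq hR0 hP20
  have h2 : s j ≤ degreeOf j R := monomial_le_degreeOf j (mem_support_iff.2 hs)
  have h3 : degreeOf j P = 0 := by
    refine Nat.le_zero.1 (degreeOf_le_iff.2 fun m hm => le_of_eq ?_)
    rw [hP] at hm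
    have h4 := support_rename_of_injective (p := Q) (f := (Subtype.val : {i : Fin 4 // i ≠ j} → Fin 4))
      Subtype.val_injective
    rw [h4, Finset.mem_image] at hm
    obtain ⟨t, -, rfl⟩ := hm
    rw [Finsupp.mapDomain_of_notMem_range]
    rintro ⟨i, hi⟩
    exact i.2 hi
  omega

end

variable {k Ω : Type*} [Field k] [IsAlgClosed k] [CharZero k] [Field Ω] [IsAlgClosed Ω] [Algebra k Ω]
  (c : Ctx3 k Ω)

theorem exists_lin (T T' : Matrix (Fin 4) (Fin 4) k) (hT : T' * T = 1) (hT' : T * T' = 1) :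
    ∃ c' : Ctx3 k Ω, c'.d = c.d ∧ c'.x = Ctx3.lin T c.x ∧ c'.y = Ctx3.lin T c.y ∧
      c'.W = c.W ∧ c'.V2 = c.V2 ∧ c'.V1 = c.V1 ∧ c'.Z0 = c.Z0 ∧ c'.E = c.E ∧ c'.G = c.G := by
  have hinj : Function.Injective (ls T') := (lsE hT hT').injective
  have hR0' : ls T' c.R ≠ 0 := by
    intro h
    exact c.Rirr.ne_zero (hinj (h.trans (map_zero _).symm))
  have hmin : ∀ P : MvPolynomial (Fin 4) k, aeval (lin T c.y) P = 0 → ls T' c.R ∣ P := by
    intro P hP
    rw [← aeval_ls] at hP
    obtain ⟨Q, hQ⟩ := c.Rmin _ hP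
    refine ⟨ls T' Q, ?_⟩
    rw [← map_mul, ← hQ, ls_ls hT']
  have hRirr : Irreducible (ls T' c.R) := by
    have h := (MulEquiv.irreducible_iff (lsE hT hT').toMulEquiv (x := c.R)).2 c.Rirr
    exact h
  have htb : IsTranscendenceBasis k (lin T c.x) := by
    refine isTB_of_algInd c.tb ?_
    rw [algebraicIndependent_iff]
    intro P hP
    rw [← aeval_ls] at hP
    have h1 := (algebraicIndependent_iff.1 c.tb.1) _ hP
    have h2 := ls_ls hT' P
    rw [← h2, h1, map_zero]
  refine ⟨{
    d := c.d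
    hd := c.hd
    H := conj T T' c.H
    nil := conj_nil hT c.nil
    ind := conj_indep hT c.ind
    x := lin T c.x
    tb := htb
    y := lin T c.y
    hy := ?_
    W := c.W
    V2 := c.V2
    V1 := c.V1
    Z0 := c.Z0
    E := c.E
    Wx := ?_
    V2x := ?_
    V1x := ?_
    Wy := ?_
    Wker := ?_
    Ex := ?_
    tr3 := tr3_of_R c.hr (ls_hom c.Rhom) hR0' hmin
    r := c.r
    hr := c.hr
    R := ls T' c.R
    Rhom := ls_hom c.Rhom
    Rirr := hRirr
    Ry := ?_
    Rmin := hmin }, rfl, rfl, rfl, rfl, rfl, rfl, rfl, rfl, ?_⟩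
  · intro i
    unfold conj
    rw [map_sum]
    unfold lin
    refine Finset.sum_congr rfl fun j _ => ?_
    rw [map_mul, ← MvPolynomial.algebraMap_eq, AlgHom.commutes, c.hy j]
    congr 1
    have h1 := aeval_ls T' (lin T c.x) (c.H j)
    rw [lin_lin hT] at h1
    rw [← h1]
    rfl
  · intro i
    rw [der_lin, der_lin]
    simp only [c.Wx]
  · intro i
    rw [der_lin, der_lin]
    simp only [c.V2x]
  · intro i
    rw [der_lin, der_lin]
    simp only [c.V1x]
  · intro i
    rw [der_lin]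
    simp only [c.Wy]
    unfold lin
    simp
  · intro f hf
    exact acl_lin hT c.y (c.Wker f hf)
  · intro i
    rw [der_lin]
    simp only [c.Ex]
  · rw [aeval_ls, lin_lin hT]
    exact c.Ry
  · unfold Ctx3.G Ctx3.u
    simp only [aeval_pderiv_ls hT]
    have h1 : ∀ i, (∑ j, aeval c.y (pderiv j c.R) * algebraMap k Ω (T' j i)) * lin T c.x i =
        ∑ j, aeval c.y (pderiv j c.R) * (algebraMap k Ω (T' j i) * lin T c.x i) := by
      intro i
      rw [Finset.sum_mul]
      exact Finset.sum_congr rfl fun j _ => mul_assoc _ _ _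
    rw [Finset.sum_congr rfl fun i _ => h1 i, Finset.sum_comm]
    refine Finset.sum_congr rfl fun j _ => ?_
    rw [← Finset.mul_sum]
    have h2 := congrFun (lin_lin hT c.x) j
    congr 1

end Ctx3
end Pool.Agent.HDP
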