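import Mathlib
import Pool.Agent.Lib.MP_20906e_al.Acl

/-!
# MP_20906e_al, piece Q5 : linear disjointness and B-places (helper8)
-/

namespace Pool.Agent.HDP
open MvPolynomial

section Place0
variable {k Ω : Type*} [Field k] [Field Ω] [Algebra k Ω]

theorem acl_val_eq_one' {S : Set Ω} (V : ValuationSubring Ω) (hV : ∀ a ∈ acl k S, a ∈ V) {e : Ω}
    (he : e ∈ acl k S) (h0 : e ≠ 0) : V.valuation e = 1 := by
  have h1 : V.valuation e ≤ 1 := (V.valuation_le_one_iff _).2 (hV e he)
  have h2 : V.valuation e⁻¹ ≤ 1 := (V.valuation_le_one_iff _).2 (hV _ (inv_mem he))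
  rw [map_inv₀] at h2
  have h3 : V.valuation e ≠ 0 := (Valuation.ne_zero_iff _).2 h0
  refine le_antisymm h1 ?_
  rwa [inv_le_one₀ (zero_lt_iff.2 h3)] at h2

theorem acl_le_of_trivial' {S : Set Ω} (V : ValuationSubring Ω)
    (hV : ∀ a ∈ IntermediateField.adjoin k S, a ∈ V) : ∀ a ∈ acl k S, a ∈ V := by
  intro a ha
  have h1 : IsIntegral (IntermediateField.adjoin k S) a :=
    isAlgebraic_iff_isIntegral.1 (mem_acl_iff.1 ha)
  apply LocalSubring.mem_of_isMax_of_isIntegral V.isMax_toLocalSubring
  obtain ⟨p, hp, hpa⟩ := h1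
  let f : IntermediateField.adjoin k S →+* V.toLocalSubring.toSubring :=
    (IntermediateField.adjoin k S).val.toRingHom.codRestrict V.toLocalSubring.toSubring
      (fun b => hV b.1 b.2)
  refine ⟨p.map f, hp.map f, ?_⟩
  rw [Polynomial.eval₂_map]
  exact hpa

theorem exists_valuationSubring_center' (B : Subring Ω) (p : Ideal B) (hp : p.IsPrime) :
    ∃ V : ValuationSubring Ω, (∀ b : B, (b : Ω) ∈ V) ∧ ∀ b : B, (V.valuation (b : Ω) < 1 ↔ b ∈ p) := by
  obtain ⟨V, hV⟩ := (LocalSubring.ofPrime B p).exists_le_valuationSubring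
  have hB : ∀ b : B, (b : Ω) ∈ V := fun b => hV.1 (LocalSubring.le_ofPrime B p b.2)
  refine ⟨V, hB, fun b => ?_⟩
  have h1 : IsLocalRing.maximalIdeal V = IsLocalRing.maximalIdeal V.toLocalSubring.toSubring := rfl
  have h2 : V.valuation (b : Ω) < 1 ↔ (⟨b, hB b⟩ : V) ∈ IsLocalRing.maximalIdeal V :=
    (V.valuation_lt_one_iff ⟨b, hB b⟩).symm
  rw [h2, IsLocalRing.mem_maximalIdeal, mem_nonunits_iff]
  have h3 : IsUnit (⟨b, hB b⟩ : V) ↔ IsUnit (algebraMap B (LocalSubring.ofPrime B p).toSubring b) := by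
    obtain ⟨hle, hloc⟩ := hV
    constructor
    · intro h
      exact hloc.1 (algebraMap B (LocalSubring.ofPrime B p).toSubring b) h
    · intro h
      exact h.map (Subring.inclusion hle)
  rw [h3, IsLocalization.AtPrime.isUnit_to_map_iff (LocalSubring.ofPrime B p).toSubring p,
    Ideal.primeCompl, Submonoid.mem_mk, Subsemigroup.mem_mk, Set.mem_compl_iff, not_not]
  rfl
end Place0

section Barg0
variable {k Ω : Type*} [Field k] [Field Ω] [Algebra k Ω]

/-- A valuation ring centred at the kernel of a second homomorphism. -/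
theorem exists_center_of_hom {A D : Type*} [CommRing A] [CommRing D] [IsDomain D] (Φ : A →+* Ω)
    (Ψ : A →+* D) (hker : ∀ a, Φ a = 0 → Ψ a = 0) :
    ∃ V : ValuationSubring Ω, (∀ a, Φ a ∈ V) ∧ ∀ a, (V.valuation (Φ a) < 1 ↔ Ψ a = 0) := by
  classical
  have hsurj : Function.Surjective Φ.rangeRestrict := Φ.rangeRestrict_surjective
  have hkp : (RingHom.ker Ψ).IsPrime := RingHom.ker_isPrime Ψ
  have hle : RingHom.ker Φ.rangeRestrict ≤ RingHom.ker Ψ := by
    intro a ha
    rw [RingHom.mem_ker] at ha ⊢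
    apply hker
    have := congrArg (Subtype.val) ha
    simpa using this
  have hp : (Ideal.map Φ.rangeRestrict (RingHom.ker Ψ)).IsPrime :=
    Ideal.map_isPrime_of_surjective hsurj hle
  obtain ⟨V, hV1, hV2⟩ := exists_valuationSubring_center' Φ.range _ hp
  refine ⟨V, fun a => hV1 (Φ.rangeRestrict a), fun a => ?_⟩
  have := hV2 (Φ.rangeRestrict a)
  simp only [RingHom.coe_rangeRestrict] at this
  rw [this, Ideal.mem_map_iff_of_surjective _ hsurj]
  constructor
  · rintro ⟨b, hb, hba⟩
    have h1 : b - a ∈ RingHom.ker Φ.rangeRestrict := by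
      rw [RingHom.mem_ker, map_sub, hba, sub_self]
    have h2 := hle h1
    rw [RingHom.mem_ker] at h2 hb
    rw [map_sub, hb, zero_sub, neg_eq_zero] at h2
    exact h2
  · intro h
    exact ⟨a, h, rfl⟩

/-- If all nonzero polynomials in `τ` are units of `V`, then `V` contains `acl k {τ}`. -/
theorem acl_singleton_le {τ : Ω} (V : ValuationSubring Ω)
    (h : ∀ p : Polynomial k, p ≠ 0 → V.valuation (Polynomial.aeval τ p) = 1) :
    ∀ a ∈ acl k ({τ} : Set Ω), a ∈ V := by
  apply acl_le_of_trivial'
  intro a ha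
  rw [IntermediateField.mem_adjoin_simple_iff] at ha
  obtain ⟨r, s, rfl⟩ := ha
  have hle : ∀ p : Polynomial k, V.valuation (Polynomial.aeval τ p) ≤ 1 := by
    intro p
    by_cases hp : p = 0
    · subst hp; simp
    · exact (h p hp).le
  rw [← V.valuation_le_one_iff]
  by_cases hs : s = 0
  · subst hs; simp
  · rw [map_div₀, h s hs, div_one]
    exact hle r

/-- Specialisation of finitely many elements of `acl T` to `k`, keeping `τ` generic. -/
theorem exists_specialisation [IsAlgClosed k] {T : Set Ω} {τ : Ω} (hτ : τ ∉ acl k T) {m : ℕ}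
    {z : Fin m → Ω} (hz : ∀ i, z i ∈ acl k T) {i₀ : Fin m} (h0 : z i₀ ≠ 0) :
    ∃ (V : ValuationSubring Ω) (c : Fin m → k), (∀ a ∈ acl k ({τ} : Set Ω), a ∈ V) ∧
      (∀ i, V.valuation (z i - algebraMap k Ω (c i)) < 1) ∧ c i₀ ≠ 0 := by
  classical
  let z' : Option (Fin m) → Ω := fun o => Option.elim o (z i₀)⁻¹ z
  have hz' : ∀ o, z' o ∈ acl k T := by
    rintro (_ | i)
    · exact inv_mem (hz i₀)
    · exact hz i
  let J : Ideal (MvPolynomial (Option (Fin m)) k) := RingHom.ker (aeval (R := k) z')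
  have hJ : J ≠ ⊤ := RingHom.ker_ne_top _
  obtain ⟨M, hM, hJM⟩ := Ideal.exists_le_maximal J hJ
  obtain ⟨c', hc'⟩ := (isMaximal_iff_eq_vanishingIdeal_singleton (K := k)).1 hM
  have hker0 : ∀ f : MvPolynomial (Option (Fin m)) k, aeval z' f = 0 → aeval c' f = 0 := by
    intro f hf
    have h1 : f ∈ M := hJM hf
    rw [hc', mem_vanishingIdeal_singleton_iff] at h1
    exact h1
  have hprod : c' none * c' (some i₀) = 1 := by
    have := hker0 (X none * X (some i₀) - 1) (by simp [z', h0])
    simpa [sub_eq_zero] using this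
  let Φ : Polynomial (MvPolynomial (Option (Fin m)) k) →+* Ω :=
    Polynomial.eval₂RingHom (aeval (R := k) z' : _ →ₐ[k] Ω).toRingHom τ
  let Ψ : Polynomial (MvPolynomial (Option (Fin m)) k) →+* Polynomial k :=
    Polynomial.mapRingHom (aeval (R := k) c' : _ →ₐ[k] k).toRingHom
  have hmem : ∀ f : MvPolynomial (Option (Fin m)) k, aeval z' f ∈ acl k T := by
    intro f
    induction f using MvPolynomial.induction_on with
    | C a => simp
    | add p q hp hq => rw [map_add]; exact add_mem hp hq
    | mul_X p i hp => rw [map_mul, aeval_X]; exact mul_mem hp (hz' i)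
  have hker : ∀ a, Φ a = 0 → Ψ a = 0 := by
    intro f hf
    by_contra hne
    have hf0 : f.map (aeval (R := k) z' : _ →ₐ[k] Ω).toRingHom ≠ 0 := by
      intro h
      apply hne
      ext j
      have h1 := congrArg (fun q => Polynomial.coeff q j) h
      simp only [Polynomial.coeff_map, Polynomial.coeff_zero] at h1
      simp only [Ψ, Polynomial.coe_mapRingHom, Polynomial.coeff_map, Polynomial.coeff_zero]
      exact hker0 _ h1
    apply hτ
    refine mem_acl_of_root _ hf0 ?_ ?_
    · intro i
      rw [Polynomial.coeff_map]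
      exact hmem _
    · rw [Polynomial.eval_map]
      exact hf
  obtain ⟨V, hV1, hV2⟩ := exists_center_of_hom Φ Ψ hker
  refine ⟨V, fun i => c' (some i), ?_, ?_, ?_⟩
  · apply acl_singleton_le
    intro p hp
    have h1 : Φ (p.map C) = Polynomial.aeval τ p := by
      simp only [Φ, Polynomial.coe_eval₂RingHom, Polynomial.eval₂_map, Polynomial.aeval_def]
      congr 1
      ext a
      simp
    have h2 : Ψ (p.map C) = p := by
      simp only [Ψ, Polynomial.coe_mapRingHom, Polynomial.map_map]
      convert! Polynomial.map_id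
      ext a
      simp
    have h3 := hV2 (p.map C)
    have h4 := hV1 (p.map C)
    rw [h1, h2] at h3
    rw [h1] at h4
    have h5 := (V.valuation_le_one_iff _).2 h4
    rcases h5.lt_or_eq with h6 | h6
    · exact absurd (h3.1 h6) hp
    · exact h6
  · intro i
    have h1 : Φ (Polynomial.C (X (some i) - C (c' (some i)))) = z i - algebraMap k Ω (c' (some i)) := by
      simp [Φ, z']
    rw [← h1, hV2]
    simp [Ψ]
  · intro h
    have h' : c' (some i₀) = 0 := h
    rw [h', mul_zero] at hprod
    exact zero_ne_one hprod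

end Barg0

section LD
variable {k Ω : Type*} [Field k] [Field Ω] [Algebra k Ω] [CharZero k] [IsAlgClosed k]

omit [CharZero k] in
theorem lin_disjoint_aux {T : Set Ω} {τ : Ω} (hτ : τ ∉ acl k T) {m : ℕ} {η z : Fin m → Ω}
    (hη : ∀ i, η i ∈ acl k ({τ} : Set Ω)) (hz : ∀ i, z i ∈ acl k T) (hli : LinearIndependent k η)
    (h : ∑ i, η i * z i = 0) : ∀ i, z i = 0 := by
  intro i₀
  by_contra h0
  obtain ⟨V, c, hV1, hV2, hc⟩ := exists_specialisation hτ hz h0
  have hsum : ∑ i, c i • η i = - ∑ i, η i * (z i - algebraMap k Ω (c i)) := by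
    simp only [mul_sub, Finset.sum_sub_distrib, h, zero_sub, neg_neg, Algebra.smul_def]
    exact Finset.sum_congr rfl fun i _ => mul_comm _ _
  have hlt : V.valuation (∑ i, c i • η i) < 1 := by
    rw [hsum, Valuation.map_neg]
    apply Valuation.map_sum_lt _ one_ne_zero
    intro i _
    rw [map_mul]
    exact lt_of_le_of_lt (mul_le_of_le_one_left' ((V.valuation_le_one_iff _).2 (hV1 _ (hη i))))
      (hV2 i)
  have hmem : ∑ i, c i • η i ∈ acl k ({τ} : Set Ω) := by
    apply sum_mem
    intro i _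
    exact IntermediateField.smul_mem _ (hη i)
  have hzero : ∑ i, c i • η i = 0 := by
    by_contra hne
    rw [acl_val_eq_one' V hV1 hmem hne] at hlt
    exact lt_irrefl _ hlt
  exact hc (Fintype.linearIndependent_iff.1 hli c hzero i₀)

/-! ## Q5: linear disjointness and B-places -/
/-- `acl{τ}` and `acl T` are linearly disjoint over `k` when `τ` is transcendental over `acl T`. -/
theorem lin_disjoint {T : Set Ω} {τ : Ω} (hτ : τ ∉ acl k T) {m : ℕ} {η z : Fin m → Ω}
    (hη : ∀ i, η i ∈ acl k ({τ} : Set Ω)) (hz : ∀ i, z i ∈ acl k T) (hli : LinearIndependent k η)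
    (h : ∑ i, η i * z i = 0) : ∀ i, z i = 0 :=
  lin_disjoint_aux hτ hη hz hli h


omit [CharZero k] [IsAlgClosed k] in
/-- transport of the relative algebraic closure along a homomorphism of fields -/
theorem acl_map_mem {Ω' : Type*} [Field Ω'] [Algebra k Ω'] {S : Set Ω} (g : acl k S →ₐ[k] Ω')
    {S' : Set Ω'} (hS : ∀ s (hs : s ∈ S), g ⟨s, subset_acl S hs⟩ ∈ S') (z : acl k S) :
    g z ∈ acl k S' := by
  classical
  have hle : IntermediateField.adjoin k S ≤ acl k S := by
    rw [IntermediateField.adjoin_le_iff]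
    exact subset_acl S
  have hmem : ∀ a (ha : a ∈ IntermediateField.adjoin k S),
      g ⟨a, hle ha⟩ ∈ IntermediateField.adjoin k S' := by
    intro a ha
    induction ha using IntermediateField.adjoin_induction with
    | mem s hs => exact IntermediateField.subset_adjoin _ _ (hS s hs)
    | algebraMap c =>
      have : g ⟨algebraMap k Ω c, _⟩ = algebraMap k Ω' c := g.commutes c
      rw [this]
      exact IntermediateField.algebraMap_mem _ _
    | add x y hx hy h1 h2 =>
      have : g ⟨x + y, hle (add_mem hx hy)⟩ = g ⟨x, hle hx⟩ + g ⟨y, hle hy⟩ := by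
        rw [← map_add]; rfl
      rw [this]; exact add_mem h1 h2
    | inv x hx h1 =>
      have : g ⟨x⁻¹, hle (inv_mem hx)⟩ = (g ⟨x, hle hx⟩)⁻¹ := by
        rw [← map_inv₀]; rfl
      rw [this]; exact inv_mem h1
    | mul x y hx hy h1 h2 =>
      have : g ⟨x * y, hle (mul_mem hx hy)⟩ = g ⟨x, hle hx⟩ * g ⟨y, hle hy⟩ := by
        rw [← map_mul]; rfl
      rw [this]; exact mul_mem h1 h2
  rw [mem_acl_iff]
  let f : IntermediateField.adjoin k S →+* IntermediateField.adjoin k S' :=
    (g.toRingHom.comp (IntermediateField.inclusion hle).toRingHom).codRestrict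
      (IntermediateField.adjoin k S') (fun a => hmem a.1 a.2)
  let _ : Algebra (IntermediateField.adjoin k S) (acl k S) :=
    (IntermediateField.inclusion hle).toRingHom.toAlgebra
  have hz : IsAlgebraic (IntermediateField.adjoin k S) z := by
    have h1 : IsAlgebraic (IntermediateField.adjoin k S) (z : Ω) := mem_acl_iff.1 z.2
    obtain ⟨p, hp, hpz⟩ := h1
    refine ⟨p, hp, ?_⟩
    apply Subtype.val_injective
    have h2 : ((Polynomial.aeval z p : acl k S) : Ω) = Polynomial.aeval (z : Ω) p := by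
      rw [Polynomial.aeval_def, Polynomial.aeval_def]
      exact Polynomial.hom_eval₂ p _ (acl k S).val.toRingHom z
    rw [h2, hpz]
    rfl
  refine hz.ringHom_of_comp_eq f g.toRingHom f.injective ?_
  ext a
  rfl

omit [CharZero k] [IsAlgClosed k] in
/-- If `∑ f_i P^i Q^(N-i) = 0` with `P, Q` relatively prime then all `f_i` lie in `(P, Q)`. -/
theorem forms_mem {n : ℕ} {P Q : MvPolynomial (Fin n) k} (hPQ : IsRelPrime P Q) (hQ0 : Q ≠ 0)
    (I : Ideal (MvPolynomial (Fin n) k)) (hP : P ∈ I) (hQ : Q ∈ I) (N : ℕ)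
    (f : ℕ → MvPolynomial (Fin n) k)
    (h : ∑ i ∈ Finset.range (N + 1), f i * P ^ i * Q ^ (N - i) = 0) :
    ∀ i ≤ N, f i ∈ I := by
  induction N generalizing f with
  | zero =>
    intro i hi
    obtain rfl : i = 0 := by omega
    simp only [zero_add, Finset.range_one, Finset.sum_singleton, pow_zero, mul_one, Nat.sub_zero] at h
    rw [h]; exact zero_mem _
  | succ N ih =>
    rw [Finset.sum_range_succ] at h
    have h1 : ∀ i ∈ Finset.range (N + 1), f i * P ^ i * Q ^ (N + 1 - i)
        = (f i * P ^ i * Q ^ (N - i)) * Q := by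
      intro i hi
      rw [Finset.mem_range] at hi
      rw [show N + 1 - i = (N - i) + 1 by omega, pow_succ]
      ring
    rw [Finset.sum_congr rfl h1, ← Finset.sum_mul, Nat.sub_self, pow_zero, mul_one] at h
    have hdvd : Q ∣ f (N + 1) * P ^ (N + 1) := by
      refine ⟨- ∑ i ∈ Finset.range (N + 1), f i * P ^ i * Q ^ (N - i), ?_⟩
      linear_combination h
    have hrel : IsRelPrime Q (P ^ (N + 1)) := (IsRelPrime.pow_left hPQ).symm
    obtain ⟨g, hg⟩ := hrel.dvd_of_dvd_mul_right hdvd
    have h2 : (∑ i ∈ Finset.range (N + 1), f i * P ^ i * Q ^ (N - i)) + g * P ^ (N + 1) = 0 := by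
      have : ((∑ i ∈ Finset.range (N + 1), f i * P ^ i * Q ^ (N - i)) + g * P ^ (N + 1)) * Q = 0 := by
        rw [hg] at h
        linear_combination h
      exact (mul_eq_zero.1 this).resolve_right hQ0
    let f' : ℕ → MvPolynomial (Fin n) k := fun i => if i = N then f N + g * P else f i
    have h3 : ∑ i ∈ Finset.range (N + 1), f' i * P ^ i * Q ^ (N - i) = 0 := by
      rw [Finset.sum_range_succ] at h2 ⊢
      rw [← h2]
      have h4 : ∑ i ∈ Finset.range N, f' i * P ^ i * Q ^ (N - i)
          = ∑ i ∈ Finset.range N, f i * P ^ i * Q ^ (N - i) := by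
        apply Finset.sum_congr rfl
        intro i hi
        rw [Finset.mem_range] at hi
        simp [f', hi.ne]
      rw [h4]
      simp only [f', if_true, Nat.sub_self, pow_zero, mul_one]
      ring
    have h5 := ih f' h3
    intro i hi
    rcases Nat.lt_or_ge i N with h6 | h6
    · have := h5 i h6.le
      simpa [f', h6.ne] using this
    · rcases Nat.lt_or_ge i (N + 1) with h7 | h7
      · obtain rfl : i = N := by omega
        have := h5 i le_rfl
        simp only [f', if_true] at this
        have h8 : f i = (f i + g * P) - g * P := by ring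
        rw [h8]
        exact sub_mem this (Ideal.mul_mem_left _ _ hP)
      · obtain rfl : i = N + 1 := by omega
        rw [hg]
        exact Ideal.mul_mem_right _ _ hQ

omit [CharZero k] [IsAlgClosed k] in
open scoped IntermediateField.algebraAdjoinAdjoin in
theorem exists_poly_of_mem_acl {n : ℕ} {x' : Fin n → Ω} {t : Ω} (h : t ∈ acl k (Set.range x')) :
    ∃ f : Polynomial (MvPolynomial (Fin n) k),
      f.map (aeval (R := k) x' : _ →ₐ[k] Ω).toRingHom ≠ 0 ∧
        f.eval₂ (aeval (R := k) x' : _ →ₐ[k] Ω).toRingHom t = 0 := by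
  rw [mem_acl_iff, ← IsFractionRing.isAlgebraic_iff (Algebra.adjoin k (Set.range x'))
    (IntermediateField.adjoin k (Set.range x')) Ω] at h
  obtain ⟨p, hp, hpt⟩ := h
  have hr : Algebra.adjoin k (Set.range x') = (aeval (R := k) x' : _ →ₐ[k] Ω).range :=
    Algebra.adjoin_range_eq_range_aeval k x'
  have hm : ∀ F : MvPolynomial (Fin n) k, aeval x' F ∈ Algebra.adjoin k (Set.range x') := by
    intro F
    rw [hr]
    exact ⟨F, rfl⟩
  let θ : MvPolynomial (Fin n) k →+* Algebra.adjoin k (Set.range x') :=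
    (aeval (R := k) x' : _ →ₐ[k] Ω).toRingHom.codRestrict (Algebra.adjoin k (Set.range x')) hm
  have hθ : Function.Surjective θ := by
    rintro ⟨y, hy⟩
    have hy' := hy
    rw [hr] at hy'
    obtain ⟨F, hF⟩ := hy'
    exact ⟨F, Subtype.ext hF⟩
  obtain ⟨f, rfl⟩ := Polynomial.map_surjective θ hθ p
  have hcomp : (algebraMap (Algebra.adjoin k (Set.range x')) Ω).comp θ
      = (aeval (R := k) x' : _ →ₐ[k] Ω).toRingHom := by
    ext <;> rfl
  refine ⟨f, ?_, ?_⟩
  · rw [← hcomp, ← Polynomial.map_map]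
    rwa [Ne, Polynomial.map_eq_zero_iff]
    exact Subtype.val_injective
  · rw [Polynomial.aeval_def, Polynomial.eval₂_map, hcomp] at hpt
    exact hpt

omit [CharZero k] in
theorem barg_aux {n : ℕ} {x : Fin n → Ω} (hx : AlgebraicIndependent k x)
    {P Q : MvPolynomial (Fin n) k}
    (hPQ : IsRelPrime P Q) (hτ : aeval x P / aeval x Q ∉ acl k (∅ : Set Ω))
    (I : Ideal (MvPolynomial (Fin n) k)) (hI : I.IsPrime) (hP : P ∈ I) (hQ : Q ∈ I) :
    ∃ V : ValuationSubring Ω, (∀ i, x i ∈ V) ∧
      (∀ a ∈ acl k ({aeval x P / aeval x Q} : Set Ω), a ∈ V) ∧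
      (∀ F : MvPolynomial (Fin n) k, V.valuation (aeval x F) < 1 ↔ F ∈ I) ∧
      ∀ (m : ℕ) (η : Fin m → Ω) (F : Fin m → MvPolynomial (Fin n) k),
        (∀ i, η i ∈ acl k ({aeval x P / aeval x Q} : Set Ω)) → LinearIndependent k η →
        V.valuation (∑ i, η i * aeval x (F i)) < 1 → ∀ i, F i ∈ I := by
  classical
  have hQ0 : Q ≠ 0 := by
    rintro rfl
    apply hτ
    rw [map_zero, div_zero]
    exact zero_mem _
  set τ : Ω := aeval x P / aeval x Q with hτdef
  have hinj : ∀ F : MvPolynomial (Fin n) k, aeval x F = 0 → F = 0 := fun F hF =>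
    (injective_iff_map_eq_zero _).1 hx F hF
  have hQx : aeval x Q ≠ 0 := fun h => hQ0 (hinj _ h)
  have hτQ : τ * aeval x Q = aeval x P := by rw [hτdef]; field_simp
  let Φ : Polynomial (MvPolynomial (Fin n) k) →+* Ω :=
    Polynomial.eval₂RingHom (aeval (R := k) x : _ →ₐ[k] Ω).toRingHom τ
  let Ψ : Polynomial (MvPolynomial (Fin n) k) →+* Polynomial (MvPolynomial (Fin n) k ⧸ I) :=
    Polynomial.mapRingHom (Ideal.Quotient.mk I)
  have hker : ∀ f, Φ f = 0 → Ψ f = 0 := by
    intro f hf
    have h1 : ∑ i ∈ Finset.range (f.natDegree + 1), f.coeff i * P ^ i * Q ^ (f.natDegree - i) = 0 := by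
      apply hinj
      have h2 : Φ f = ∑ i ∈ Finset.range (f.natDegree + 1), aeval x (f.coeff i) * τ ^ i := by
        simp only [Φ, Polynomial.coe_eval₂RingHom]
        rw [Polynomial.eval₂_eq_sum_range]
        rfl
      rw [map_sum]
      have h3 : ∑ i ∈ Finset.range (f.natDegree + 1),
          aeval x (f.coeff i * P ^ i * Q ^ (f.natDegree - i)) = Φ f * (aeval x Q) ^ f.natDegree := by
        rw [h2, Finset.sum_mul]
        apply Finset.sum_congr rfl
        intro i hi
        rw [Finset.mem_range] at hi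
        rw [map_mul, map_mul, map_pow, map_pow, ← hτQ, mul_pow]
        have h4 : (aeval x Q) ^ f.natDegree = (aeval x Q) ^ i * (aeval x Q) ^ (f.natDegree - i) := by
          rw [← pow_add]; congr 1; omega
        rw [h4]; ring
      rw [h3, hf, zero_mul]
    have h5 := forms_mem hPQ hQ0 I hP hQ f.natDegree f.coeff h1
    ext i
    simp only [Ψ, Polynomial.coe_mapRingHom, Polynomial.coeff_map, Polynomial.coeff_zero]
    rw [Ideal.Quotient.eq_zero_iff_mem]
    rcases Nat.lt_or_ge f.natDegree i with h6 | h6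
    · rw [Polynomial.coeff_eq_zero_of_natDegree_lt h6]; exact zero_mem _
    · exact h5 i h6
  have : IsDomain (MvPolynomial (Fin n) k ⧸ I) := Ideal.Quotient.isDomain I
  obtain ⟨V, hV1, hV2⟩ := exists_center_of_hom
    (D := Polynomial (MvPolynomial (Fin n) k ⧸ I)) Φ Ψ hker
  have hVx : ∀ i, x i ∈ V := by
    intro i
    have h1 := hV1 (Polynomial.C (X i))
    simpa [Φ] using h1
  have hVacl : ∀ a ∈ acl k ({τ} : Set Ω), a ∈ V := by
    apply acl_singleton_le
    intro p hp
    have h1 : Φ (p.map C) = Polynomial.aeval τ p := by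
      simp only [Φ, Polynomial.coe_eval₂RingHom, Polynomial.eval₂_map, Polynomial.aeval_def]
      congr 1
      ext a
      simp
    have h2 : Ψ (p.map C) ≠ 0 := by
      simp only [Ψ, Polynomial.coe_mapRingHom, Polynomial.map_map]
      rwa [Ne, Polynomial.map_eq_zero]
    have h3 := hV2 (p.map C)
    have h4 := hV1 (p.map C)
    rw [h1] at h3 h4
    have h5 := (V.valuation_le_one_iff _).2 h4
    rcases h5.lt_or_eq with h6 | h6
    · exact absurd (h3.1 h6) h2
    · exact h6
  have hVF : ∀ F : MvPolynomial (Fin n) k, V.valuation (aeval x F) < 1 ↔ F ∈ I := by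
    intro F
    have h1 : Φ (Polynomial.C F) = aeval x F := by simp [Φ]
    rw [← h1, hV2]
    simp [Ψ, Ideal.Quotient.eq_zero_iff_mem]
  refine ⟨V, hVx, hVacl, hVF, ?_⟩
  intro m η F hη hli hsum
  -- the residue field
  let κ := IsLocalRing.ResidueField V
  let ρ : V →+* κ := IsLocalRing.residue V
  let ι : acl k ({τ} : Set Ω) →+* V :=
    (acl k ({τ} : Set Ω)).val.toRingHom.codRestrict V (fun a => hVacl a.1 a.2)
  let _ : Algebra k κ := (ρ.comp (ι.comp (algebraMap k (acl k ({τ} : Set Ω))))).toAlgebra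
  let g : acl k ({τ} : Set Ω) →ₐ[k] κ := { ρ.comp ι with commutes' := fun _ => rfl }
  have hτmem : τ ∈ acl k ({τ} : Set Ω) := subset_acl _ rfl
  let τ' : κ := g ⟨τ, hτmem⟩
  let x' : Fin n → κ := fun i => ρ ⟨x i, hVx i⟩
  let Φ' : Polynomial (MvPolynomial (Fin n) k) →+* V := Φ.codRestrict V hV1
  have hΦ' : ρ.comp Φ' = Polynomial.eval₂RingHom (aeval (R := k) x' : _ →ₐ[k] κ).toRingHom τ' := by
    apply Polynomial.ringHom_ext
    · intro a
      simp only [RingHom.coe_comp, Function.comp_apply, Polynomial.coe_eval₂RingHom,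
        Polynomial.eval₂_C]
      have h1 : (ρ.comp Φ').comp Polynomial.C = (aeval (R := k) x' : _ →ₐ[k] κ).toRingHom := by
        apply MvPolynomial.ringHom_ext
        · intro c
          have h2 : Φ' (Polynomial.C (C c)) = ι (algebraMap k _ c) := by
            apply Subtype.ext
            change Φ (Polynomial.C (C c)) = _
            simp [Φ]
            rfl
          simp only [RingHom.coe_comp, Function.comp_apply, h2]
          simp
          rfl
        · intro i
          have h2 : Φ' (Polynomial.C (X i)) = ⟨x i, hVx i⟩ := by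
            apply Subtype.ext
            change Φ (Polynomial.C (X i)) = _
            simp [Φ]
          simp only [RingHom.coe_comp, Function.comp_apply, h2]
          simp [x']
      exact congrArg (fun φ => φ a) h1
    · have h2 : Φ' Polynomial.X = ι ⟨τ, hτmem⟩ := by
        apply Subtype.ext
        change Φ Polynomial.X = _
        simp [Φ]
        rfl
      simp only [RingHom.coe_comp, Function.comp_apply, Polynomial.coe_eval₂RingHom,
        Polynomial.eval₂_X, h2]
      rfl
  have hρ : ∀ f, ρ (Φ' f) = 0 ↔ Ψ f = 0 := by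
    intro f
    rw [← hV2 f]
    change IsLocalRing.residue V (Φ' f) = 0 ↔ _
    rw [IsLocalRing.residue_eq_zero_iff, V.valuation_lt_one_iff]
    rfl
  have hτ' : τ' ∉ acl k (Set.range x') := by
    intro h
    obtain ⟨f, hf1, hf2⟩ := exists_poly_of_mem_acl h
    apply hf1
    have h1 : ρ (Φ' f) = 0 := by
      have := congrArg (fun φ => φ f) hΦ'
      simp only [RingHom.coe_comp, Function.comp_apply, Polynomial.coe_eval₂RingHom] at this
      rw [this]; exact hf2
    have h2 := (hρ f).1 h1
    ext i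
    have h3 := congrArg (fun q => Polynomial.coeff q i) h2
    simp only [Ψ, Polynomial.coe_mapRingHom, Polynomial.coeff_map, Polynomial.coeff_zero] at h3
    rw [Polynomial.coeff_map, Polynomial.coeff_zero]
    have h4 : Ψ (Polynomial.C (f.coeff i)) = 0 := by simp [Ψ, h3]
    have h5 := (hρ _).2 h4
    have := congrArg (fun φ => φ (Polynomial.C (f.coeff i))) hΦ'
    simp only [RingHom.coe_comp, Function.comp_apply, Polynomial.coe_eval₂RingHom,
      Polynomial.eval₂_C] at this
    rw [← this]; exact h5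
  let η' : Fin m → κ := fun i => g ⟨η i, hη i⟩
  let z' : Fin m → κ := fun i => aeval x' (F i)
  have hη' : ∀ i, η' i ∈ acl k ({τ'} : Set κ) := by
    intro i
    apply acl_map_mem g
    intro s hs
    rw [Set.mem_singleton_iff] at hs
    subst hs
    rfl
  have hz' : ∀ i, z' i ∈ acl k (Set.range x') := by
    intro i
    simp only [z']
    generalize F i = G
    induction G using MvPolynomial.induction_on with
    | C a => simp
    | add p q hp hq => rw [map_add]; exact add_mem hp hq
    | mul_X p i hp =>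
      rw [map_mul, aeval_X]
      exact mul_mem hp (subset_acl _ ⟨i, rfl⟩)
  have hli' : LinearIndependent k η' := by
    have h1 : LinearIndependent k (fun i => (⟨η i, hη i⟩ : acl k ({τ} : Set Ω))) :=
      LinearIndependent.of_comp (acl k ({τ} : Set Ω)).val.toLinearMap hli
    exact h1.map' g.toLinearMap (LinearMap.ker_eq_bot.2 g.toRingHom.injective)
  have hsum' : ∑ i, η' i * z' i = 0 := by
    have h1 : ∀ i, η' i * z' i = ρ (ι ⟨η i, hη i⟩ * Φ' (Polynomial.C (F i))) := by
      intro i
      rw [map_mul]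
      have := congrArg (fun φ => φ (Polynomial.C (F i))) hΦ'
      simp only [RingHom.coe_comp, Function.comp_apply, Polynomial.coe_eval₂RingHom,
        Polynomial.eval₂_C] at this
      rw [this]
      rfl
    rw [Finset.sum_congr rfl fun i _ => h1 i, ← map_sum]
    change IsLocalRing.residue V _ = 0
    rw [IsLocalRing.residue_eq_zero_iff, V.valuation_lt_one_iff]
    convert hsum using 2
    push_cast
    apply Finset.sum_congr rfl
    intro i _
    congr 1
    change Φ (Polynomial.C (F i)) = _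
    simp [Φ]
  intro i
  have h1 := lin_disjoint_aux hτ' hη' hz' hli' hsum' i
  have h2 : ρ (Φ' (Polynomial.C (F i))) = 0 := by
    have := congrArg (fun φ => φ (Polynomial.C (F i))) hΦ'
    simp only [RingHom.coe_comp, Function.comp_apply, Polynomial.coe_eval₂RingHom,
      Polynomial.eval₂_C] at this
    rw [this]; exact h1
  have h3 := (hρ _).1 h2
  simpa [Ψ, Ideal.Quotient.eq_zero_iff_mem] using h3

/-- B-place: centre a prime `I` containing the coprime pair `P, Q`, with `τ = P/Q` staying generic. -/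
theorem barg {n : ℕ} {x : Fin n → Ω} (hx : AlgebraicIndependent k x) {P Q : MvPolynomial (Fin n) k}
    (hPQ : IsRelPrime P Q) (hτ : aeval x P / aeval x Q ∉ acl k (∅ : Set Ω))
    (I : Ideal (MvPolynomial (Fin n) k)) (hI : I.IsPrime) (hP : P ∈ I) (hQ : Q ∈ I) :
    ∃ V : ValuationSubring Ω, (∀ i, x i ∈ V) ∧
      (∀ a ∈ acl k ({aeval x P / aeval x Q} : Set Ω), a ∈ V) ∧
      (∀ F : MvPolynomial (Fin n) k, V.valuation (aeval x F) < 1 ↔ F ∈ I) ∧
      ∀ (m : ℕ) (η : Fin m → Ω) (F : Fin m → MvPolynomial (Fin n) k),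
        (∀ i, η i ∈ acl k ({aeval x P / aeval x Q} : Set Ω)) → LinearIndependent k η →
        V.valuation (∑ i, η i * aeval x (F i)) < 1 → ∀ i, F i ∈ I :=
  barg_aux hx hPQ hτ I hI hP hQ

end LD
end Pool.Agent.HDP
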