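import Mathlib
import Pool.Agent.Lib.MP_20906e_al.Defs
import Pool.Agent.Lib.MP_20906e_al.Ctx

/-!
# MP_20906e_al : the developable context (helper59)

`U = u / u_j` has coordinates algebraic over `k(τ)`, `τ = P(x)/Q(x)`; `U1, U2` are the first and second
derivatives of `U` with respect to `τ`.  `FCtx` adds a frame vector `B` and partial derivatives of `L`
with respect to `(τ, a, bb)`, `a = U2·y`, `bb = B·y`.
-/

namespace Pool.Agent.HDP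

open MvPolynomial

/-- Developable context. -/
structure DCtx (k Ω : Type*) [Field k] [Field Ω] [Algebra k Ω] extends Ctx3 k Ω where
  τ : Ω
  τL : τ ∈ toCtx3.L
  τk : τ ∉ acl k (∅ : Set Ω)
  P : MvPolynomial (Fin 4) k
  Q : MvPolynomial (Fin 4) k
  e : ℕ
  he : e ≠ 0
  PQ : IsRelPrime P Q
  Ph : P.IsHomogeneous e
  Qh : Q.IsHomogeneous e
  Q0 : aeval x Q ≠ 0
  hτ : τ = aeval x P / aeval x Q
  U : Fin 4 → Ω
  U1 : Fin 4 → Ω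
  U2 : Fin 4 → Ω
  uj : Ω
  uj0 : uj ≠ 0
  hU : ∀ i, toCtx3.u i = uj * U i
  Umem : ∀ i, U i ∈ acl k ({τ} : Set Ω)
  U1mem : ∀ i, U1 i ∈ acl k ({τ} : Set Ω)
  U2mem : ∀ i, U2 i ∈ acl k ({τ} : Set Ω)
  DU : ∀ (D : Derivation k Ω Ω) (i : Fin 4), D (U i) = U1 i * D τ
  DU1 : ∀ (D : Derivation k Ω Ω) (i : Fin 4), D (U1 i) = U2 i * D τ
  a : Ω
  Uy : ∑ i, U i * y i = 0
  U1y : ∑ i, U1 i * y i = 0
  U2y : ∑ i, U2 i * y i = a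
  a0 : a ≠ 0
  Eτ : E τ = 0
  span3 : ∀ v w : Fin 4 → k, LinearIndependent k ![v, w] →
    ¬ (∑ i, U i * algebraMap k Ω (v i) = 0 ∧ ∑ i, U i * algebraMap k Ω (w i) = 0)

/-- Frame context: `(U, U1, U2, B)` is a basis; structure equations for the derivatives `U3` of `U2`
and `B1` of `B`; `Dt, Da, Db` are derivations of `Ω` which on `L` are the partial derivatives with respect
to the transcendence basis `(τ, a, bb)` of `L`. -/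
structure FCtx (k Ω : Type*) [Field k] [Field Ω] [Algebra k Ω] extends DCtx k Ω where
  B : Fin 4 → Ω
  Bmem : ∀ i, B i ∈ acl k ({τ} : Set Ω)
  p : Fin 4 → Ω
  q : Fin 4 → Ω
  pmem : ∀ i, p i ∈ acl k ({τ} : Set Ω)
  qmem : ∀ i, q i ∈ acl k ({τ} : Set Ω)
  DU2 : ∀ (D : Derivation k Ω Ω) (i : Fin 4),
    D (U2 i) = (p 0 * U2 i + p 1 * B i + p 2 * U1 i + p 3 * U i) * D τ
  DB : ∀ (D : Derivation k Ω Ω) (i : Fin 4),
    D (B i) = (q 0 * U2 i + q 1 * B i + q 2 * U1 i + q 3 * U i) * D τ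
  frame : LinearIndependent Ω ![U, U1, U2, B]
  bb : Ω
  By : ∑ i, B i * y i = bb
  Dt : Derivation k Ω Ω
  Da : Derivation k Ω Ω
  Db : Derivation k Ω Ω
  dual : Dt τ = 1 ∧ Dt a = 0 ∧ Dt bb = 0 ∧ Da τ = 0 ∧ Da a = 1 ∧ Da bb = 0 ∧
    Db τ = 0 ∧ Db a = 0 ∧ Db bb = 1
  comm : ∀ f ∈ toCtx3.L, Da (Dt f) = Dt (Da f) ∧ Db (Dt f) = Dt (Db f) ∧ Da (Db f) = Db (Da f)
  DL : ∀ f ∈ toCtx3.L, Dt f ∈ toCtx3.L ∧ Da f ∈ toCtx3.L ∧ Db f ∈ toCtx3.L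
  chain : ∀ (D : Derivation k Ω Ω), ∀ f ∈ toCtx3.L, D f = Dt f * D τ + Da f * D a + Db f * D bb
  indep : AlgebraicIndependent k ![τ, a, bb]
  Lacl : ∀ f, f ∈ toCtx3.L ↔ f ∈ acl k ({τ, a, bb} : Set Ω)

namespace DCtx
variable {k Ω : Type*} [Field k] [Field Ω] [Algebra k Ω] (c : DCtx k Ω)

/-- `g = U·x` -/
noncomputable def g : Ω := ∑ i, c.U i * c.x i
/-- `N1 = U1·x` -/
noncomputable def N1 : Ω := ∑ i, c.U1 i * c.x i
/-- `N2 = U2·x` -/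
noncomputable def N2 : Ω := ∑ i, c.U2 i * c.x i
end DCtx

namespace FCtx
variable {k Ω : Type*} [Field k] [Field Ω] [Algebra k Ω] (c : FCtx k Ω)

/-- `N3 = B·x` -/
noncomputable def N3 : Ω := ∑ i, c.B i * c.x i
/-- `mu1 = U3·y` -/
noncomputable def mu1 : Ω := c.p 0 * c.a + c.p 1 * c.bb
/-- `mu2 = B1·y` -/
noncomputable def mu2 : Ω := c.q 0 * c.a + c.q 1 * c.bb
/-- `D0 = ∂τ + mu1 ∂a + mu2 ∂b` -/
noncomputable def D0 (f : Ω) : Ω := c.Dt f + c.mu1 * c.Da f + c.mu2 * c.Db f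
/-- `n0 = D0 g` -/
noncomputable def n0 : Ω := c.D0 c.g
/-- second contact function -/
noncomputable def EE : Ω :=
  c.N1 ^ 2 / 2 - c.n0 * c.N1 + c.a * c.Da c.g * c.N2 + c.a * c.Db c.g * c.N3
/-- third contact function -/
noncomputable def FF : Ω :=
  c.D0 c.EE * c.N1 + c.D0 c.n0 * c.N1 ^ 2 / 2
  - c.a * c.Da c.g * (c.p 0 * c.N1 * c.N2 + c.p 1 * c.N1 * c.N3 + c.p 2 * c.N1 ^ 2 / 2
      + c.p 3 * c.g * c.N1)
  - c.a * c.Db c.g * (c.q 0 * c.N1 * c.N2 + c.q 1 * c.N1 * c.N3 + c.q 2 * c.N1 ^ 2 / 2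
      + c.q 3 * c.g * c.N1)
  - c.D0 (c.a * c.Da c.g) * c.N1 * c.N2 - c.D0 (c.a * c.Db c.g) * c.N1 * c.N3
  - c.mu1 / c.a * (c.N1 ^ 3 / 3 - c.n0 * c.N1 ^ 2 / 2)
  - c.a * c.Da c.EE * c.N2 - c.a * c.Db c.EE * c.N3
  + c.a / 2 * (c.Da (c.Da (c.a * c.g)) * c.N2 ^ 2 + 2 * c.Da (c.Db (c.a * c.g)) * c.N2 * c.N3
      + c.Db (c.Db (c.a * c.g)) * c.N3 ^ 2)
end FCtx

end Pool.Agent.HDP
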