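import Mathlib
import Pool.Agent.Lib.MP_20906e_al.Defs
import Pool.Agent.Lib.MP_20906e_al.Ctx
import Pool.Agent.Lib.MP_20906e_al.DCtx

/-!
# MP_20906e_al : cone frames (helper59)
-/

namespace Pool.Agent.HDP
open MvPolynomial

namespace FCtx
variable {k Ω : Type*} [Field k] [Field Ω] [Algebra k Ω]

/-- cone frame -/
structure Cone (c : FCtx k Ω) : Prop where
  U3 : c.U 3 = 0
  B : c.B = ![0, 0, 0, 1]
  q : c.q = 0
  p1 : c.p 1 = 0

/-- all directions are proportional to `(y0, y1, y2, s a)` -/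
structure CaseA (c : FCtx k Ω) (s : Ω) : Prop where
  cone : c.Cone
  smem : s ∈ acl k ({c.τ} : Set Ω)
  dirs : ∀ (V : ValuationSubring Ω) (b : Fin 4 → Ω) (i0 : Fin 4), c.IsDir V b i0 →
    ∃ e : Ω, e ≠ 0 ∧ b 0 = e * c.y 0 / c.a ∧ b 1 = e * c.y 1 / c.a ∧ b 2 = e * c.y 2 / c.a ∧ b 3 = e * s

/-- all directions are the vertex -/
structure CaseB (c : FCtx k Ω) : Prop where
  cone : c.Cone
  dirs : ∀ (V : ValuationSubring Ω) (b : Fin 4 → Ω) (i0 : Fin 4), c.IsDir V b i0 → b = ![0, 0, 0, 1]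

/-- the conic frame -/
structure Conic (c : FCtx k Ω) : Prop where
  U : c.U = ![c.τ ^ 2 / 2, - c.τ, 1, 0]
  U1 : c.U1 = ![c.τ, -1, 0, 0]
  U2 : c.U2 = ![1, 0, 0, 0]
  B : c.B = ![0, 0, 0, 1]
  p : c.p = 0
  q : c.q = 0
  a : c.a = c.y 0
  bb : c.bb = c.y 3
  y1 : c.y 1 = c.τ * c.y 0
  y2 : c.y 2 = c.τ ^ 2 / 2 * c.y 0
end FCtx
end Pool.Agent.HDP
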