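import Mathlib
import Pool.Agent.Lib.MP_20906e_al.Defs
import Pool.Agent.Lib.MP_20906e_al.Ctx
import Pool.Agent.Lib.MP_20906e_al.DCtx
import Pool.Agent.Lib.MP_20906e_al.Cone

/-!
# MP_20906e_al : data structures for case B (helper59)
-/

namespace Pool.Agent.HDP
open MvPolynomial

variable {k Ω : Type*} [Field k] [Field Ω] [Algebra k Ω]

/-- data of case B: `N^d = C a`, `g = N (bb/a + s0)`, `x3` quadratic in `N1` over `L`. -/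
structure FCtx.CaseBData (c : FCtx k Ω) (N C s0 yh c0 c1 : Ω) : Prop where
  caseB : c.CaseB
  N0 : N ≠ 0
  NL : N ∈ c.L
  C0 : C ≠ 0
  Cm : C ∈ acl k ({c.τ} : Set Ω)
  s0m : s0 ∈ acl k ({c.τ} : Set Ω)
  NC : N ^ c.d = C * c.a
  gN : c.g = N * (c.bb / c.a + s0)
  yhm : yh ∈ acl k ({c.τ} : Set Ω)
  c2L : c.N2 - yh * c.N1 ∈ c.L
  N1L : c.N1 ∉ c.L
  c0L : c0 ∈ c.L
  c1L : c1 ∈ c.L
  x3 : c.x 3 = c0 + c1 * c.N1 - c.N1 ^ 2 / (2 * N)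

/-- normal form at the end of case B -/
structure Ctx3.EndData (c : Ctx3 k Ω) (τ : Ω) (η : Fin 3 → Ω) (V0 V1 Om d1 d0 : Ω) : Prop where
  τL : τ ∈ c.L
  τk : τ ∉ acl k (∅ : Set Ω)
  Eτ : c.E τ = 0
  ηm : ∀ i, η i ∈ acl k ({τ} : Set Ω)
  hy : ∀ i : Fin 3, c.y (Fin.castSucc i) = c.x 0 ^ c.d * η i
  V0m : V0 ∈ acl k ({τ} : Set Ω)
  V1m : V1 ∈ acl k ({τ} : Set Ω)
  gL : V0 * c.x 0 + V1 * c.x 1 + c.x 2 ∈ c.L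
  Vη : V0 * η 0 + V1 * η 1 + η 2 = 0
  VD : ∀ D : Derivation k Ω Ω, D V0 * η 0 + D V1 * η 1 = 0
  x0L : c.x 0 ∈ c.L
  x1L : c.x 1 ∉ c.L
  ind : AlgebraicIndependent k ![c.x 0, τ, V0 * c.x 0 + V1 * c.x 1 + c.x 2]
  OmL : Om ∈ c.L
  Om0 : Om ≠ 0
  Omm : c.x 0 * Om ∈ acl k ({τ} : Set Ω)
  d1L : d1 ∈ c.L
  d0L : d0 ∈ c.L
  x3 : c.x 3 = Om * c.x 1 ^ 2 + d1 * c.x 1 + d0
end Pool.Agent.HDP
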