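import Mathlib
import Pool.Agent.Lib.MP_20906e_al.Defs

/-!
# MP_20906e_al : the rank two context (helper59)

`x` is a transcendence basis of the algebraically closed field `Ω` over `k`, `y = H(x) = f h`,
`h` has coordinates algebraic over `k(τ)`, `h'` is the derivative of `h` with respect to `τ`.
`Dh = ∑ h_i ∂_i`, `Dh' = ∑ h'_i ∂_i`.
-/

namespace Pool.Agent.HDP

open MvPolynomial

/-- Rank two context. -/
structure Ctx2 (k Ω : Type*) [Field k] [Field Ω] [Algebra k Ω] (n : ℕ) where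
  d : ℕ
  hd : d ≠ 0
  H : Fin n → MvPolynomial (Fin n) k
  nil : Nil k n d H
  ind : LinearIndependent k H
  x : Fin n → Ω
  tb : IsTranscendenceBasis k x
  y : Fin n → Ω
  hy : ∀ i, y i = aeval x (H i)
  E : Derivation k Ω Ω
  Ex : ∀ i, E (x i) = x i
  j : Fin n
  f : Ω
  hf : f = y j
  f0 : f ≠ 0
  h : Fin n → Ω
  hh : ∀ i, y i = f * h i
  hj : h j = 1
  τ : Ω
  hτ : ∃ i, τ = h i
  τk : τ ∉ acl k (∅ : Set Ω)
  hmem : ∀ i, h i ∈ acl k ({τ} : Set Ω)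
  h' : Fin n → Ω
  hmem' : ∀ i, h' i ∈ acl k ({τ} : Set Ω)
  hD : ∀ (D : Derivation k Ω Ω) (i : Fin n), D (h i) = h' i * D τ
  Dh : Derivation k Ω Ω
  Dh' : Derivation k Ω Ω
  Dhx : ∀ i, Dh (x i) = h i
  Dhx' : ∀ i, Dh' (x i) = h' i
  tr : Dh f + f * Dh' τ = 0
  det : Dh f * Dh' τ = Dh' f * Dh τ

end Pool.Agent.HDP
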