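import Mathlib
import Pool.Agent.Lib.MP_20906e_al.Defs
import Pool.Agent.Lib.MP_20906e_al.Ctx2
import Pool.Agent.Lib.MP_20906e_al.Acl
import Pool.Agent.Lib.MP_20906e_al.Der
import Pool.Agent.Lib.MP_20906e_al.B2b

/-!
# MP_20906e_al: basic facts on the rank two context, for R1, R2, R3 (helper72)
-/

set_option linter.unusedSectionVars false

namespace Pool.Agent.HDP
open MvPolynomial

namespace Ctx2
variable {k Ω : Type*} [Field k] [IsAlgClosed k] [CharZero k] [Field Ω] [IsAlgClosed Ω] [Algebra k Ω]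

section Common
variable {n : ℕ} (c : Ctx2 k Ω n)

theorem aeval_ne {F : MvPolynomial (Fin n) k} (hF : F ≠ 0) : aeval c.x F ≠ 0 := fun h =>
  hF ((injective_iff_map_eq_zero _).1 c.tb.1 F h)

theorem E_aeval {F : MvPolynomial (Fin n) k} {m : ℕ} (hF : F.IsHomogeneous m) :
    c.E (aeval c.x F) = (m : Ω) * aeval c.x F := by
  rw [der_aeval]
  have h1 := hF.sum_X_mul_pderiv
  have h2 := congrArg (aeval c.x) h1
  rw [map_sum, map_nsmul, nsmul_eq_mul] at h2
  rw [← h2]
  apply Finset.sum_congr rfl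
  intro i _
  rw [map_mul, aeval_X, c.Ex, mul_comm]

theorem E_y (i : Fin n) : c.E (c.y i) = (c.d : Ω) * c.y i := by
  rw [c.hy]; exact c.E_aeval (c.nil.hom i)

theorem E_f : c.E c.f = (c.d : Ω) * c.f := by
  rw [c.hf]; exact c.E_y _

theorem E_h (i : Fin n) : c.E (c.h i) = 0 := by
  have h1 := c.E_y i
  rw [c.hh i, Derivation.leibniz, c.E_f, smul_eq_mul, smul_eq_mul] at h1
  have h2 : c.f * c.E (c.h i) = 0 := by linear_combination h1
  exact (mul_eq_zero.1 h2).resolve_left c.f0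

theorem E_τ : c.E c.τ = 0 := by
  obtain ⟨i, hi⟩ := c.hτ
  rw [hi]; exact c.E_h i

theorem E_acl {z : Ω} (hz : z ∈ acl k ({c.τ} : Set Ω)) : c.E z = 0 :=
  der_acl_zero c.E (S := {c.τ}) (by rintro _ rfl; exact c.E_τ) z hz

theorem d_ne : (c.d : Ω) ≠ 0 := by
  have : CharZero Ω := charZero_of_injective_algebraMap (algebraMap k Ω).injective
  exact_mod_cast c.hd

theorem f_notMem : c.f ∉ acl k ({c.τ} : Set Ω) := by
  intro h
  have h1 := c.E_acl h
  rw [c.E_f] at h1
  rcases mul_eq_zero.1 h1 with h2 | h2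
  · exact c.d_ne h2
  · exact c.f0 h2

/-- `τ` is a quotient of coprime forms of the same positive degree -/
theorem exists_forms : ∃ (P Q : MvPolynomial (Fin n) k) (e : ℕ), e ≠ 0 ∧ IsRelPrime P Q ∧
    P.IsHomogeneous e ∧ Q.IsHomogeneous e ∧ aeval c.x Q ≠ 0 ∧ c.τ = aeval c.x P / aeval c.x Q := by
  obtain ⟨i, hi⟩ := c.hτ
  set A := c.H i with hA
  set B := c.H c.j with hB
  have hAh := c.nil.hom i
  have hBh := c.nil.hom c.j
  have hBx : aeval c.x B ≠ 0 := by
    rw [hB, ← c.hy, ← c.hf]; exact c.f0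
  have hB0 : B ≠ 0 := by
    rintro h; exact hBx (by rw [h, map_zero])
  have hτ : c.τ = aeval c.x A / aeval c.x B := by
    rw [hA, hB, ← c.hy, ← c.hy, c.hh i, ← c.hf, mul_div_cancel_left₀ _ c.f0, hi]
  have hnc : aeval c.x A / aeval c.x B ∉ acl k (∅ : Set Ω) := by
    rw [← hτ]; exact c.τk
  have hA0 : A ≠ 0 := by
    intro h
    apply hnc
    rw [h, map_zero, zero_div]
    exact zero_mem _
  rw [← hA] at hAh
  rw [← hB] at hBh
  clear_value A B
  obtain ⟨P, Q, G, hrel, hP, hQ⟩ := UniqueFactorizationMonoid.exists_reduced_factors A hA0 B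
  subst hP hQ
  obtain ⟨a, b, hab, hGa, hPb⟩ := hom_of_mul hAh hA0
  obtain ⟨a', b', hab', hGa', hQb⟩ := hom_of_mul hBh hB0
  have hG0 : G ≠ 0 := left_ne_zero_of_mul hA0
  have hP0 : P ≠ 0 := right_ne_zero_of_mul hA0
  have hQ0 : Q ≠ 0 := right_ne_zero_of_mul hB0
  have haa : a = a' := hGa.inj_right hGa' hG0
  have hbb : b' = b := by omega
  subst hbb
  have hratio : aeval c.x (G * P) / aeval c.x (G * Q) = aeval c.x P / aeval c.x Q := by
    rw [map_mul, map_mul, mul_div_mul_left _ _ (c.aeval_ne hG0)]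
  refine ⟨P, Q, b', ?_, hrel, hPb, hQb, c.aeval_ne hQ0, hτ.trans hratio⟩
  rintro rfl
  apply hnc
  rw [hratio]
  have h1 := totalDegree_eq_zero_iff_eq_C.1 (Nat.le_zero.1 hPb.totalDegree_le)
  have h2 := totalDegree_eq_zero_iff_eq_C.1 (Nat.le_zero.1 hQb.totalDegree_le)
  rw [h1, h2, aeval_C, aeval_C]
  exact div_mem (IntermediateField.algebraMap_mem _ _) (IntermediateField.algebraMap_mem _ _)

/-- the coordinates of `h` are linearly independent over `k` -/
theorem h_indep : LinearIndependent k c.h := by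
  rw [Fintype.linearIndependent_iff]
  intro a ha
  have h1 := (Fintype.linearIndependent_iff.1 c.ind) a
  apply h1
  by_contra hne
  apply c.aeval_ne hne
  rw [map_sum]
  have h2 : ∀ i, aeval c.x (a i • c.H i) = c.f * (a i • c.h i) := by
    intro i
    rw [map_smul, ← c.hy, c.hh, mul_smul_comm]
  simp only [h2]
  rw [← Finset.mul_sum, ha, mul_zero]

/-- `E` on a linear form with coefficients in `acl {τ}` -/
theorem E_lin {U : Fin n → Ω} (hU : ∀ i, U i ∈ acl k ({c.τ} : Set Ω)) :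
    c.E (∑ i, U i * c.x i) = ∑ i, U i * c.x i := by
  rw [map_sum]
  refine Finset.sum_congr rfl fun i _ => ?_
  rw [Derivation.leibniz, c.E_acl (hU i), smul_zero, add_zero, c.Ex, smul_eq_mul]

/-- an element of `acl {f, τ}` of degree zero lies in `acl {τ}` -/
theorem mem_of_deg_zero {z : Ω} (hz : z ∈ acl k (insert c.f {c.τ} : Set Ω)) (hE : c.E z = 0) :
    z ∈ acl k ({c.τ} : Set Ω) := by
  by_contra hne
  have h1 := acl_exchange hz hne
  have h2 : c.E c.f = 0 := by
    refine der_acl_zero c.E (S := insert z {c.τ}) ?_ _ h1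
    rintro w (rfl | rfl)
    · exact hE
    · exact c.E_τ
  rw [c.E_f] at h2
  rcases mul_eq_zero.1 h2 with h2 | h2
  · exact c.d_ne h2
  · exact c.f0 h2

end Common

end Ctx2
end Pool.Agent.HDP
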