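import Mathlib
import Pool.Agent.Lib.MP_20906e_al.Defs
import Pool.Agent.Lib.MP_20906e_al.Ctx

/-!
# MP_20906e_al : the shared definitions of part S6 (text of helper59, file landed by helper78)
-/

namespace Pool.Agent.HDP
open MvPolynomial

namespace Ctx3
variable {k Ω : Type*} [Field k] [IsAlgClosed k] [CharZero k] [Field Ω] [IsAlgClosed Ω] [Algebra k Ω]
  (c : Ctx3 k Ω)

/-- bilinear form attached to `S` -/
noncomputable def Sf (v w : Fin 4 → Ω) : Ω := ∑ i, ∑ j, c.S i j * v i * w j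

/-- the Gauss image is (at most) a curve -/
def Dev : Prop := ∃ (τ : Ω) (j : Fin 4), τ ∈ c.L ∧ c.u j ≠ 0 ∧ ∀ i, c.u i / c.u j ∈ acl k ({τ} : Set Ω)

/-- data of the quadric case in normalised coordinates -/
structure Quad (V V' : ValuationSubring Ω) (b b' : Fin 4 → Ω) (i0 i1 : Fin 4) : Prop where
  q : c.y 0 * c.y 3 = c.y 1 * c.y 2
  dir : c.IsDir V b i0
  dir' : c.IsDir V' b' i1
  one : ∃ σ ∈ c.L, ∀ i, b i ∈ acl k ({σ} : Set Ω)
  one' : ∃ σ ∈ c.L, ∀ i, b' i ∈ acl k ({σ} : Set Ω)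
  nb : b 0 * b' 3 + b 3 * b' 0 - b 1 * b' 2 - b 2 * b' 1 ≠ 0

end Ctx3
end Pool.Agent.HDP
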