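import Mathlib
import Pool.Agent.Lib.MP_20906e_al.Defs

/-!
# MP_20906e_al, piece Q12: descent to an algebraically closed field
-/

namespace Pool.Agent.HDP
open MvPolynomial

/-- The Jacobian matrix commutes with coefficientwise base change. -/
theorem jac_map_descent {κ K : Type*} [Field κ] [Field K] (f : κ →+* K) {n : ℕ}
    (H : Fin n → MvPolynomial (Fin n) κ) :
    jac (fun i => MvPolynomial.map f (H i)) = (MvPolynomial.map f).mapMatrix (jac H) := by
  ext1 i j
  simp only [jac, Matrix.of_apply, RingHom.mapMatrix_apply, Matrix.map_apply]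
  exact pderiv_map

/-- Linear independence of finitely many polynomials is preserved by extension of the field. -/
theorem linIndep_map_descent {κ K : Type*} [Field κ] [Field K] [Algebra κ K] {σ ι : Type*}
    [Fintype ι] {H : ι → MvPolynomial σ κ} (hi : LinearIndependent κ H) :
    LinearIndependent K (fun i => MvPolynomial.map (algebraMap κ K) (H i)) := by
  classical
  rw [Fintype.linearIndependent_iff] at hi ⊢
  intro g hg i
  rw [← Module.forall_dual_apply_eq_zero_iff κ (g i)]
  intro l
  refine hi (fun i => l (g i)) ?_ i
  ext m
  have h1 : ∑ j, g j * (algebraMap κ K) (coeff m (H j)) = 0 := by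
    have := congrArg (coeff m) hg
    simpa [coeff_sum, coeff_smul, coeff_map] using this
  have h2 : l (∑ j, g j * (algebraMap κ K) (coeff m (H j))) = 0 := by rw [h1, map_zero]
  rw [map_sum] at h2
  rw [coeff_sum, coeff_zero, ← h2]
  refine Finset.sum_congr rfl fun j _ => ?_
  rw [coeff_smul, mul_comm (g j), ← Algebra.smul_def, map_smul, smul_eq_mul, smul_eq_mul, mul_comm]

/-- if the homogeneous dependence question has a positive answer over the algebraic closure then also over `κ` -/
theorem descent {κ : Type*} [Field κ] [CharZero κ] {n d : ℕ} {H : Fin n → MvPolynomial (Fin n) κ}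
    (h : Nil κ n d H) (hi : LinearIndependent κ H) :
    Nil (AlgebraicClosure κ) n d (fun i => MvPolynomial.map (algebraMap κ (AlgebraicClosure κ)) (H i)) ∧
    LinearIndependent (AlgebraicClosure κ)
      (fun i => MvPolynomial.map (algebraMap κ (AlgebraicClosure κ)) (H i)) := by
  refine ⟨⟨fun i => (h.hom i).map _, ?_⟩, linIndep_map_descent hi⟩
  rw [jac_map_descent]
  exact h.nilp.map _

end Pool.Agent.HDP
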