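import Mathlib
import Pool.Agent.Lib.MP_20906e_al.Defs
import Pool.Agent.Lib.MP_20906e_al.Acl
import Pool.Agent.Lib.MP_20906e_al.Der

/-!
Q8: the Wronskian criterion over `acl {τ}`.
-/

namespace Pool.Agent.HDP
open MvPolynomial

section Wr
variable {k Ω : Type*} [Field k] [Field Ω] [Algebra k Ω] [CharZero k] [IsAlgClosed k]

theorem const_of_der_zero {τ : Ω} (D : Derivation k Ω Ω) (hD : D τ ≠ 0) {z : Ω}
    (hz : z ∈ acl k ({τ} : Set Ω)) (h : D z = 0) : ∃ c : k, algebraMap k Ω c = z := by
  rw [← acl_empty]
  by_contra hz'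
  have h1 : τ ∈ acl k (insert z (∅ : Set Ω)) :=
    acl_exchange (y := τ) (z := z) (S := ∅) (by simpa using hz) hz'
  refine hD (der_acl_zero D (S := insert z ∅) ?_ τ h1)
  intro s hs
  have : s = z := by simpa using hs
  rw [this, h]

private theorem wr_aux {τ : Ω} (D : Derivation k Ω Ω) (hD : D τ = 1) :
    ∀ (n : ℕ) (U : Fin n → Ω), (∀ i, U i ∈ acl k ({τ} : Set Ω)) → LinearIndependent k U →
      (Matrix.of fun (i j : Fin n) => (fun f => D f)^[(i : ℕ)] (U j)).det ≠ 0 := by
  have hDL : ∀ z ∈ acl k ({τ} : Set Ω), D z ∈ acl k ({τ} : Set Ω) :=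
    der_acl_mem D (subset_acl _) (by
      intro s hs
      rw [Set.mem_singleton_iff.1 hs, hD]
      exact one_mem _)
  have hiter : ∀ (i : ℕ), ∀ z ∈ acl k ({τ} : Set Ω),
      (fun f => D f)^[i] z ∈ acl k ({τ} : Set Ω) := by
    intro i
    induction i with
    | zero => intro z hz; simpa using hz
    | succ i ih =>
      intro z hz
      rw [Function.iterate_succ_apply']
      exact hDL _ (ih z hz)
  intro n
  induction n with
  | zero => intro U _ _; simp
  | succ n ih =>
    intro U hU hli hdet
    have hdet' := ih (fun i => U i.castSucc) (fun i => hU _)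
      (hli.comp _ (Fin.castSucc_injective n))
    -- a relation with coefficients in `acl {τ}`
    obtain ⟨c, hcL, hc0, hc⟩ : ∃ c : Fin (n + 1) → Ω, (∀ j, c j ∈ acl k ({τ} : Set Ω)) ∧
        (∃ j, c j ≠ 0) ∧ ∀ i : Fin (n + 1), ∑ j, (fun f => D f)^[(i : ℕ)] (U j) * c j = 0 := by
      let M : Matrix (Fin (n + 1)) (Fin (n + 1)) (acl k ({τ} : Set Ω)) :=
        Matrix.of fun i j => ⟨(fun f => D f)^[(i : ℕ)] (U j), hiter _ _ (hU j)⟩
      have hM : M.map (algebraMap (acl k ({τ} : Set Ω)) Ω) =
          (Matrix.of fun (i j : Fin (n + 1)) => (fun f => D f)^[(i : ℕ)] (U j)) := by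
        ext i j
        rfl
      have hM0 : M.det = 0 := by
        have h1 : algebraMap (acl k ({τ} : Set Ω)) Ω M.det = 0 := by
          rw [RingHom.map_det, RingHom.mapMatrix_apply, hM, hdet]
        exact (map_eq_zero_iff _ (algebraMap (acl k ({τ} : Set Ω)) Ω).injective).1 h1
      obtain ⟨v, hv0, hv⟩ := Matrix.exists_mulVec_eq_zero_iff.2 hM0
      refine ⟨fun j => (v j : Ω), fun j => (v j).2, ?_, fun i => ?_⟩
      · by_contra hcon
        push Not at hcon
        apply hv0
        funext j
        exact Subtype.ext (hcon j)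
      · have h2 := congrFun hv i
        rw [Matrix.mulVec, dotProduct] at h2
        have h3 := congrArg (fun z : acl k ({τ} : Set Ω) => (z : Ω)) h2
        simpa [M] using h3
    -- the smaller matrix has trivial kernel
    have hker : ∀ e : Fin n → Ω, (∀ i : Fin n, ∑ j : Fin n,
        (fun f => D f)^[(i : ℕ)] (U j.castSucc) * e j = 0) → e = 0 := by
      intro e he
      by_contra hne
      exact hdet' (Matrix.exists_mulVec_eq_zero_iff.1 ⟨e, hne, by
        funext i
        rw [Matrix.mulVec, dotProduct]
        exact he i⟩)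
    have hlast : c (Fin.last n) ≠ 0 := by
      intro h0
      have h1 : (fun j : Fin n => c j.castSucc) = 0 := by
        refine hker _ fun i => ?_
        have h2 := hc i.castSucc
        rw [Fin.sum_univ_castSucc, h0, mul_zero, add_zero] at h2
        exact h2
      obtain ⟨j, hj⟩ := hc0
      refine hj ?_
      rcases Fin.eq_castSucc_or_eq_last j with ⟨j', rfl⟩ | rfl
      · exact congrFun h1 j'
      · exact h0
    -- normalisation
    set e : Fin (n + 1) → Ω := fun j => c j / c (Fin.last n) with he
    have heL : ∀ j, e j ∈ acl k ({τ} : Set Ω) := fun j => div_mem (hcL j) (hcL _)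
    have helast : e (Fin.last n) = 1 := div_self hlast
    have hrel : ∀ i : Fin (n + 1), ∑ j, (fun f => D f)^[(i : ℕ)] (U j) * e j = 0 := by
      intro i
      have : ∑ j, (fun f => D f)^[(i : ℕ)] (U j) * e j =
          (∑ j, (fun f => D f)^[(i : ℕ)] (U j) * c j) / c (Fin.last n) := by
        rw [Finset.sum_div]
        exact Finset.sum_congr rfl fun j _ => by rw [he]; ring
      rw [this, hc i, zero_div]
    have hDe : ∀ j, D (e j) = 0 := by
      have h1 : (fun j : Fin n => D (e j.castSucc)) = 0 := by
        refine hker _ fun i => ?_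
        have h2 := congrArg D (hrel i.castSucc)
        rw [map_zero, map_sum] at h2
        have h3 : ∀ j : Fin (n + 1), D ((fun f => D f)^[((i.castSucc : Fin (n + 1)) : ℕ)] (U j) * e j)
            = (fun f => D f)^[(i : ℕ)] (U j) * D (e j) +
              (fun f => D f)^[((i.succ : Fin (n + 1)) : ℕ)] (U j) * e j := by
          intro j
          rw [Derivation.leibniz, Fin.val_succ, Function.iterate_succ_apply']
          simp only [Fin.val_castSucc, smul_eq_mul]
          ring
        simp only [h3] at h2
        rw [Finset.sum_add_distrib, hrel i.succ, add_zero, Fin.sum_univ_castSucc, helast] at h2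
        simpa using h2
      intro j
      rcases Fin.eq_castSucc_or_eq_last j with ⟨j', rfl⟩ | rfl
      · exact congrFun h1 j'
      · rw [helast]; simp
    choose a ha using fun j => const_of_der_zero D (by rw [hD]; exact one_ne_zero) (heL j) (hDe j)
    have h0 := hrel 0
    have h1 : ∑ j, a j • U j = 0 := by
      rw [← h0]
      refine Finset.sum_congr rfl fun j _ => ?_
      rw [Algebra.smul_def, ha j]
      simp [mul_comm]
    have h2 := Fintype.linearIndependent_iff.1 hli a h1 (Fin.last n)
    have h3 := ha (Fin.last n)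
    rw [h2, map_zero, helast] at h3
    exact zero_ne_one h3

/-- If `D τ = 1` and `U i ∈ acl{τ}` are linearly independent over `k`, then `U, DU, …, D^(n-1)U` are
linearly independent over `Ω` (as vectors), i.e. the Wronskian matrix is invertible.  -/
theorem wronskian_ne_zero {τ : Ω} (hτ : τ ∉ acl k (∅ : Set Ω)) (D : Derivation k Ω Ω) (hD : D τ = 1)
    {n : ℕ} {U : Fin n → Ω} (hU : ∀ i, U i ∈ acl k ({τ} : Set Ω)) (hli : LinearIndependent k U) :
    (Matrix.of fun (i j : Fin n) => (fun f => D f)^[(i : ℕ)] (U j)).det ≠ 0 :=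
  have _ := hτ
  wr_aux D hD n U hU hli

end Wr

end Pool.Agent.HDP
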