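import Mathlib
import Pool.Agent.Lib.MP_20906e_al.Defs
import Pool.Agent.Lib.MP_20906e_al.Ctx
import Pool.Agent.Lib.MP_20906e_al.CtxN
import Pool.Agent.Lib.MP_20906e_al.DCtx
import Pool.Agent.Lib.MP_20906e_al.Acl
import Pool.Agent.Lib.MP_20906e_al.Der
import Pool.Agent.Lib.MP_20906e_al.Wr
import Pool.Agent.Lib.MP_20906e_al.B2a
import Pool.Agent.Lib.MP_20906e_al.B2b

/-!
# MP_20906e_al, piece E1a : the developable context (helper78)
-/

set_option linter.unusedSectionVars false

namespace Pool.Agent.HDP
open MvPolynomial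

variable {k Ω : Type*} [Field k] [IsAlgClosed k] [CharZero k] [Field Ω] [IsAlgClosed Ω] [Algebra k Ω]

/-- two independent covectors cannot kill three independent vectors of `Ω^4` -/
private theorem e1a_dep {U U1 a b y : Fin 4 → Ω} (hU : LinearIndependent Ω ![U, U1])
    (h1 : ∑ i, a i * U i = 0) (h2 : ∑ i, b i * U i = 0) (h3 : ∑ i, y i * U i = 0)
    (h1' : ∑ i, a i * U1 i = 0) (h2' : ∑ i, b i * U1 i = 0) (h3' : ∑ i, y i * U1 i = 0) :
    ∃ α β γ : Ω, (α ≠ 0 ∨ β ≠ 0 ∨ γ ≠ 0) ∧ ∀ i, α * a i + β * b i + γ * y i = 0 := by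
  by_cases hli : LinearIndependent Ω ![a, b, y]
  · exfalso
    set N : Matrix (Fin 3) (Fin 4) Ω := Matrix.of ![a, b, y] with hN
    have hrank : N.rank = 3 := by
      have h4 : LinearIndependent Ω N.row := hli
      have := h4.rank_matrix
      simpa using this
    have hker := LinearMap.finrank_range_add_finrank_ker N.mulVecLin
    rw [Module.finrank_fintype_fun_eq_card, Fintype.card_fin] at hker
    have hr : Module.finrank Ω (LinearMap.range N.mulVecLin) = 3 := hrank
    have hk1 : Module.finrank Ω (LinearMap.ker N.mulVecLin) = 1 := by omega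
    have hmem : ∀ w : Fin 4 → Ω, ∑ i, a i * w i = 0 → ∑ i, b i * w i = 0 → ∑ i, y i * w i = 0 →
        w ∈ LinearMap.ker N.mulVecLin := by
      intro w e1 e2 e3
      rw [LinearMap.mem_ker, Matrix.mulVecLin_apply]
      funext i
      fin_cases i
      · exact e1
      · exact e2
      · exact e3
    have hsub : LinearIndependent Ω
        (![⟨U, hmem U h1 h2 h3⟩, ⟨U1, hmem U1 h1' h2' h3'⟩] : Fin 2 → LinearMap.ker N.mulVecLin) := by
      refine LinearIndependent.of_comp (LinearMap.ker N.mulVecLin).subtype ?_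
      have : (LinearMap.ker N.mulVecLin).subtype ∘
          (![⟨U, hmem U h1 h2 h3⟩, ⟨U1, hmem U1 h1' h2' h3'⟩] :
            Fin 2 → LinearMap.ker N.mulVecLin) = ![U, U1] := by
        funext i
        fin_cases i <;> rfl
      rw [this]
      exact hU
    have := hsub.fintype_card_le_finrank
    rw [hk1, Fintype.card_fin] at this
    omega
  · rw [Fintype.not_linearIndependent_iff] at hli
    obtain ⟨g, hg, i0, hi0⟩ := hli
    refine ⟨g 0, g 1, g 2, ?_, ?_⟩
    · by_contra hcon
      push Not at hcon
      apply hi0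
      fin_cases i0
      · exact hcon.1
      · exact hcon.2.1
      · exact hcon.2.2
    · intro i
      have h4 := congrFun hg i
      rw [Fin.sum_univ_three] at h4
      simpa using h4

theorem exists_dctx (c : Ctx3 k Ω) (h : c.Dev) : ∃ c' : DCtx k Ω, c'.toCtx3 = c := by
  classical
  obtain ⟨τ0, j, hτ0, huj, hmem0⟩ := h
  -- a nonconstant ratio
  have hex : ∃ i, c.u i / c.u j ∉ acl k (∅ : Set Ω) := by
    by_contra hcon
    push Not at hcon
    have h1 : ∀ i, ∃ a : k, algebraMap k Ω a = c.u i / c.u j := fun i => (acl_empty _).1 (hcon i)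
    choose a ha using h1
    have h2 : ∑ i, algebraMap k Ω (a i) * c.y i = 0 := by
      have h3 : ∑ i, algebraMap k Ω (a i) * c.y i = (∑ i, c.u i * c.y i) / c.u j := by
        rw [Finset.sum_div]
        refine Finset.sum_congr rfl fun i _ => ?_
        rw [ha]
        ring
      rw [h3, c.u_y, zero_div]
    have h4 := congrFun (c.lin_indep_y a h2) j
    have h5 := ha j
    rw [h4, Pi.zero_apply, map_zero, div_self huj] at h5
    exact zero_ne_one h5
  obtain ⟨i1, hi1⟩ := hex
  obtain ⟨τ, hτdef⟩ : ∃ τ : Ω, τ = c.u i1 / c.u j := ⟨_, rfl⟩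
  rw [← hτdef] at hi1
  have hτL : τ ∈ c.L := by
    rw [hτdef]
    exact div_mem (c.u_mem i1) (c.u_mem j)
  have hτ00 : τ0 ∈ acl k ({τ} : Set Ω) := by
    have h1 : τ ∈ acl k (insert τ0 (∅ : Set Ω)) := by
      rw [hτdef]
      have := hmem0 i1
      rwa [insert_empty_eq]
    have := acl_exchange h1 hi1
    rwa [insert_empty_eq] at this
  have hUmem : ∀ i, c.u i / c.u j ∈ acl k ({τ} : Set Ω) := by
    intro i
    have h1 : acl k ({τ0} : Set Ω) ≤ acl k ({τ} : Set Ω) := by
      rw [acl_le_iff]
      rintro _ rfl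
      exact hτ00
    exact h1 (hmem0 i)
  obtain ⟨D, -, hD⟩ := exists_der_ne hi1
  have hDmem : ∀ z ∈ acl k ({τ} : Set Ω), D z ∈ acl k ({τ} : Set Ω) := by
    refine der_acl_mem D (subset_acl _) ?_
    rintro _ rfl
    rw [hD]
    exact one_mem _
  have hDer : ∀ (D' : Derivation k Ω Ω), ∀ z ∈ acl k ({τ} : Set Ω), D' z = D z * D' τ := by
    intro D' z hz
    have h1 := der_acl_eq D' (D' τ • D) (S := {τ}) (by
      rintro _ rfl
      rw [Derivation.smul_apply, hD, smul_eq_mul, mul_one]) z hz
    rw [h1, Derivation.smul_apply, smul_eq_mul, mul_comm]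
  -- forms
  have huA : ∀ i, aeval c.x (aeval c.H (pderiv i c.R)) = c.u i := by
    intro i
    have h1 : (aeval c.x).comp (aeval c.H) = (aeval c.y : MvPolynomial (Fin 4) k →ₐ[k] Ω) := by
      rw [comp_aeval]
      congr 1
      funext l
      exact (c.hy l).symm
    exact DFunLike.congr_fun h1 (pderiv i c.R)
  have hAh : ∀ i, (aeval c.H (pderiv i c.R) : MvPolynomial (Fin 4) k).IsHomogeneous
      (c.d * (c.r - 1)) := fun i => (c.Rhom.pderiv).aeval c.H c.nil.hom
  have hB0 : (aeval c.H (pderiv j c.R) : MvPolynomial (Fin 4) k) ≠ 0 := by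
    intro h0
    have := huA j
    rw [h0, map_zero] at this
    exact huj this.symm
  have hτA : τ = aeval c.x (aeval c.H (pderiv i1 c.R)) / aeval c.x (aeval c.H (pderiv j c.R)) := by
    rw [huA, huA, hτdef]
  obtain ⟨P, Q, e, he, hPQ, hPh, hQh, hQ0, hτPQ⟩ := c.exists_coprime_forms (hAh i1) (hAh j) hB0
    (by rw [← hτA]; exact hi1)
  rw [← hτA] at hτPQ
  -- the sums
  have hUy : ∑ i, c.u i / c.u j * c.y i = 0 := by
    have h3 : ∑ i, c.u i / c.u j * c.y i = (∑ i, c.u i * c.y i) / c.u j := by
      rw [Finset.sum_div]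
      refine Finset.sum_congr rfl fun i _ => ?_
      ring
    rw [h3, c.u_y, zero_div]
  have hUD : ∀ D' : Derivation k Ω Ω, ∑ i, c.u i / c.u j * D' (c.y i) = 0 := by
    intro D'
    have h3 : ∑ i, c.u i / c.u j * D' (c.y i) = (∑ i, c.u i * D' (c.y i)) / c.u j := by
      rw [Finset.sum_div]
      refine Finset.sum_congr rfl fun i _ => ?_
      ring
    rw [h3, c.u_D, zero_div]
  have hdsum : ∀ (D' : Derivation k Ω Ω) (w : Fin 4 → Ω),
      D' (∑ i, w i * c.y i) = ∑ i, D' (w i) * c.y i + ∑ i, w i * D' (c.y i) := by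
    intro D' w
    rw [map_sum, ← Finset.sum_add_distrib]
    refine Finset.sum_congr rfl fun i _ => ?_
    rw [Derivation.leibniz]
    simp only [smul_eq_mul]
    ring
  have hU1y : ∑ i, D (c.u i / c.u j) * c.y i = 0 := by
    have h1 := hdsum D (fun i => c.u i / c.u j)
    rw [hUy, map_zero, hUD, add_zero] at h1
    exact h1.symm
  have hU1D : ∀ D' : Derivation k Ω Ω, ∑ i, D (c.u i / c.u j) * D' (c.y i) =
      - ((∑ i, D (D (c.u i / c.u j)) * c.y i) * D' τ) := by
    intro D'
    have h1 := hdsum D' (fun i => D (c.u i / c.u j))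
    rw [hU1y, map_zero] at h1
    have h2 : ∑ i, D' (D (c.u i / c.u j)) * c.y i =
        (∑ i, D (D (c.u i / c.u j)) * c.y i) * D' τ := by
      rw [Finset.sum_mul]
      refine Finset.sum_congr rfl fun i _ => ?_
      rw [hDer D' _ (hDmem _ (hUmem i))]
      ring
    rw [h2] at h1
    linear_combination -h1
  have hUj : c.u j / c.u j = 1 := div_self huj
  have ha0 : ∑ i, D (D (c.u i / c.u j)) * c.y i ≠ 0 := by
    intro h0
    obtain ⟨e', he'⟩ := c.ker_left (fun i => D (c.u i / c.u j)) (by
      intro D'
      rw [hU1D, h0, zero_mul, neg_zero])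
    have h1 : D (c.u j / c.u j) = e' * c.u j := he' j
    rw [hUj, Derivation.map_one_eq_zero] at h1
    have h2 : e' = 0 := (mul_eq_zero.1 h1.symm).resolve_right huj
    have h3 : D (c.u i1 / c.u j) = e' * c.u i1 := he' i1
    rw [← hτdef, hD, h2, zero_mul] at h3
    exact one_ne_zero h3
  have hEu : ∀ i, c.E (c.u i) = ((c.d * (c.r - 1) : ℕ) : Ω) * c.u i := by
    intro i
    rw [← huA i]
    exact c.E_aeval (hAh i)
  have hEτ : c.E τ = 0 := by
    rw [hτdef, Derivation.leibniz_div, hEu, hEu]
    simp only [smul_eq_mul]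
    field_simp
    ring
  have hspan : ∀ v w : Fin 4 → k, LinearIndependent k ![v, w] →
      ¬ (∑ i, c.u i / c.u j * algebraMap k Ω (v i) = 0 ∧
        ∑ i, c.u i / c.u j * algebraMap k Ω (w i) = 0) := by
    rintro v w hvw ⟨hv, hw⟩
    have hd : ∀ v : Fin 4 → k, ∑ i, c.u i / c.u j * algebraMap k Ω (v i) = 0 →
        ∑ i, algebraMap k Ω (v i) * D (c.u i / c.u j) = 0 := by
      intro v hv
      have h1 := congrArg D hv
      rw [map_sum, map_zero] at h1
      rw [← h1]
      refine Finset.sum_congr rfl fun i _ => ?_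
      rw [Derivation.leibniz, Derivation.map_algebraMap, smul_zero, zero_add, smul_eq_mul]
    have hcomm : ∀ (a b : Fin 4 → Ω), ∑ i, a i * b i = ∑ i, b i * a i := fun a b =>
      Finset.sum_congr rfl fun i _ => mul_comm _ _
    have hind : LinearIndependent Ω ![(fun i => c.u i / c.u j), (fun i => D (c.u i / c.u j))] := by
      rw [LinearIndependent.pair_iff]
      intro s t hst
      have h1 := congrFun hst j
      simp only [Pi.add_apply, Pi.smul_apply, smul_eq_mul, Pi.zero_apply] at h1
      rw [hUj, Derivation.map_one_eq_zero, mul_zero, add_zero, mul_one] at h1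
      have h2 := congrFun hst i1
      simp only [Pi.add_apply, Pi.smul_apply, smul_eq_mul, Pi.zero_apply] at h2
      rw [← hτdef, hD, h1, zero_mul, zero_add, mul_one] at h2
      exact ⟨h1, h2⟩
    obtain ⟨α, β, γ, hne, hlin⟩ := e1a_dep (U := fun i => c.u i / c.u j)
      (U1 := fun i => D (c.u i / c.u j)) (a := fun i => algebraMap k Ω (v i))
      (b := fun i => algebraMap k Ω (w i)) (y := c.y) hind
      (by rw [hcomm]; exact hv) (by rw [hcomm]; exact hw) (by rw [hcomm]; exact hUy)
      (hd v hv) (hd w hw) (by rw [hcomm]; exact hU1y)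
    have hcar : (algebraMap k Ω : k → Ω).Injective := (algebraMap k Ω).injective
    by_cases hγ : γ = 0
    · -- `v, w` would be dependent over `k`
      rw [hγ] at hlin hne
      have hpair := LinearIndependent.pair_iff.1 hvw
      have hv0 : v ≠ 0 := hvw.ne_zero 0
      by_cases hβ : β = 0
      · have hα : α ≠ 0 := by
          rcases hne with h | h | h
          · exact h
          · exact absurd hβ h
          · exact absurd rfl h
        apply hv0
        funext i
        have h1 := hlin i
        rw [hβ, zero_mul, zero_mul, add_zero, add_zero] at h1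
        have h2 := (mul_eq_zero.1 h1).resolve_left hα
        exact hcar (h2.trans (map_zero _).symm)
      · obtain ⟨l, hl⟩ := Function.ne_iff.1 hv0
        rw [Pi.zero_apply] at hl
        have hl' : algebraMap k Ω (v l) ≠ 0 := fun h => hl (hcar (h.trans (map_zero _).symm))
        have hκ : ∀ i, w i = w l / v l * v i := by
          intro i
          apply hcar
          rw [map_mul, map_div₀]
          have e1 := hlin i
          have e2 := hlin l
          field_simp
          have h3 : β * (algebraMap k Ω (w i) * algebraMap k Ω (v l)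
              - algebraMap k Ω (w l) * algebraMap k Ω (v i)) = 0 := by
            linear_combination algebraMap k Ω (v l) * e1 - algebraMap k Ω (v i) * e2
          have h4 := (mul_eq_zero.1 h3).resolve_left hβ
          linear_combination h4
        have h5 := hpair (w l / v l) (-1) (by
          funext i
          simp only [Pi.add_apply, Pi.smul_apply, smul_eq_mul, Pi.zero_apply]
          rw [hκ i]
          field_simp
          ring)
        exact one_ne_zero (neg_eq_zero.1 h5.2)
    · -- a constant relation between the `y i`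
      have hker : LinearMap.ker (Matrix.of ![v, w] : Matrix (Fin 2) (Fin 4) k).mulVecLin ≠ ⊥ := by
        apply LinearMap.ker_ne_bot_of_finrank_lt
        rw [Module.finrank_fintype_fun_eq_card, Module.finrank_fintype_fun_eq_card,
          Fintype.card_fin, Fintype.card_fin]
        norm_num
      obtain ⟨z, hz, hz0⟩ := Submodule.exists_mem_ne_zero_of_ne_bot hker
      rw [LinearMap.mem_ker, Matrix.mulVecLin_apply] at hz
      have hz1 : ∑ i, v i * z i = 0 := congrFun hz 0
      have hz2 : ∑ i, w i * z i = 0 := congrFun hz 1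
      apply hz0
      apply c.lin_indep_y
      have h1 : γ * ∑ i, algebraMap k Ω (z i) * c.y i = 0 := by
        have h2 : γ * ∑ i, algebraMap k Ω (z i) * c.y i =
            ∑ i, algebraMap k Ω (z i) * (α * algebraMap k Ω (v i) + β * algebraMap k Ω (w i)
              + γ * c.y i) - α * algebraMap k Ω (∑ i, v i * z i)
              - β * algebraMap k Ω (∑ i, w i * z i) := by
          rw [map_sum, map_sum, Finset.mul_sum, Finset.mul_sum, Finset.mul_sum,
            ← Finset.sum_sub_distrib, ← Finset.sum_sub_distrib]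
          refine Finset.sum_congr rfl fun i _ => ?_
          rw [map_mul, map_mul]
          ring
        rw [h2, hz1, hz2, map_zero, mul_zero, mul_zero, sub_zero, sub_zero]
        refine Finset.sum_eq_zero fun i _ => ?_
        rw [hlin i, mul_zero]
      exact (mul_eq_zero.1 h1).resolve_left hγ
  exact ⟨{ toCtx3 := c
           τ := τ
           τL := hτL
           τk := hi1
           P := P
           Q := Q
           e := e
           he := he
           PQ := hPQ
           Ph := hPh
           Qh := hQh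
           Q0 := hQ0
           hτ := hτPQ
           U := fun i => c.u i / c.u j
           U1 := fun i => D (c.u i / c.u j)
           U2 := fun i => D (D (c.u i / c.u j))
           uj := c.u j
           uj0 := huj
           hU := fun i => by field_simp
           Umem := hUmem
           U1mem := fun i => hDmem _ (hUmem i)
           U2mem := fun i => hDmem _ (hDmem _ (hUmem i))
           DU := fun D' i => hDer D' _ (hUmem i)
           DU1 := fun D' i => hDer D' _ (hDmem _ (hUmem i))
           a := ∑ i, D (D (c.u i / c.u j)) * c.y i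
           Uy := hUy
           U1y := hU1y
           U2y := rfl
           a0 := ha0
           Eτ := hEτ
           span3 := hspan }, rfl⟩

namespace DCtx
variable (c : DCtx k Ω)

/-- elements of `acl{τ}` are in `L` -/
theorem aclτ_le : acl k ({c.τ} : Set Ω) ≤ c.L := by
  rw [Ctx3.L, acl_le_iff]
  rintro _ rfl
  exact c.τL

theorem E_aclτ {z : Ω} (hz : z ∈ acl k ({c.τ} : Set Ω)) : c.E z = 0 :=
  der_acl_zero c.E (by
    rintro _ rfl
    exact c.Eτ) z hz

/-- for every derivation `D`: `U·Dy = 0`, `U1·Dy = -a Dτ` -/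
theorem U_Dy (D : Derivation k Ω Ω) : ∑ i, c.U i * D (c.y i) = 0 := by
  have h1 := c.u_D D
  have h2 : ∑ i, c.u i * D (c.y i) = c.uj * ∑ i, c.U i * D (c.y i) := by
    rw [Finset.mul_sum]
    refine Finset.sum_congr rfl fun i _ => ?_
    rw [c.hU]
    ring
  rw [h2] at h1
  exact (mul_eq_zero.1 h1).resolve_left c.uj0

theorem U1_Dy (D : Derivation k Ω Ω) : ∑ i, c.U1 i * D (c.y i) = - c.a * D c.τ := by
  have h1 := congrArg D c.U1y
  rw [map_sum, map_zero] at h1
  have h2 : ∑ i, D (c.U1 i * c.y i) = (∑ i, c.U2 i * c.y i) * D c.τ + ∑ i, c.U1 i * D (c.y i) := by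
    rw [Finset.sum_mul, ← Finset.sum_add_distrib]
    refine Finset.sum_congr rfl fun i _ => ?_
    rw [Derivation.leibniz, c.DU1]
    simp only [smul_eq_mul]
    ring
  rw [h2, c.U2y] at h1
  linear_combination h1

theorem g_mem : c.g ∈ c.L := by
  have h1 := c.G_mem
  have h2 : c.G = c.uj * c.g := by
    unfold Ctx3.G g
    rw [Finset.mul_sum]
    refine Finset.sum_congr rfl fun i _ => ?_
    rw [c.hU]
    ring
  have huj : c.uj ∈ c.L := by
    -- some `U i` is not zero
    by_cases hz : ∀ i, c.U i = 0
    · exfalso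
      obtain ⟨i, hi⟩ := c.u_ne
      exact hi (by rw [c.hU, hz, mul_zero])
    · push Not at hz
      obtain ⟨i, hi⟩ := hz
      have h3 : c.uj = c.u i / c.U i := by
        rw [c.hU]
        field_simp
      rw [h3]
      exact div_mem (c.u_mem i) (c.aclτ_le (c.Umem i))
  have h3 : c.g = c.G / c.uj := by
    rw [h2]
    field_simp [c.uj0]
  rw [h3]
  exact div_mem h1 huj

theorem Eg : c.E c.g = c.g := by
  unfold g
  rw [map_sum]
  refine Finset.sum_congr rfl fun i _ => ?_
  rw [Derivation.leibniz, c.E_aclτ (c.Umem i), smul_zero, add_zero, c.Ex, smul_eq_mul]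

theorem EN1 : c.E c.N1 = c.N1 := by
  unfold N1
  rw [map_sum]
  refine Finset.sum_congr rfl fun i _ => ?_
  rw [Derivation.leibniz, c.E_aclτ (c.U1mem i), smul_zero, add_zero, c.Ex, smul_eq_mul]

theorem Ea : c.E c.a = (c.d : Ω) * c.a := by
  rw [← c.U2y, map_sum, Finset.mul_sum]
  refine Finset.sum_congr rfl fun i _ => ?_
  rw [Derivation.leibniz, c.E_aclτ (c.U2mem i), smul_zero, add_zero, c.Ey, smul_eq_mul]
  ring

end DCtx

end Pool.Agent.HDP
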