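import Mathlib
import Pool.Agent.Lib.MP_20906e_al.Defs

/-!
# MP_20906e_al, piece Q6

A minimal prime over a pair of polynomials contains at most two independent linear forms
(Krull's height theorem).
-/

set_option autoImplicit false

namespace Pool.Agent.HDP
open MvPolynomial

section Height
variable {k : Type*} [Field k]

/-- linear form with coefficient vector `c` -/
noncomputable def lf {n : ℕ} (c : Fin n → k) : MvPolynomial (Fin n) k := ∑ i, C (c i) * X i

private lemma lf_add {n : ℕ} (c d : Fin n → k) : lf (c + d) = lf c + lf d := by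
  unfold lf
  rw [← Finset.sum_add_distrib]
  refine Finset.sum_congr rfl fun i _ => ?_
  rw [Pi.add_apply, C_add, add_mul]

private lemma lf_smul {n : ℕ} (a : k) (c : Fin n → k) : lf (a • c) = C a * lf c := by
  unfold lf
  rw [Finset.mul_sum]
  refine Finset.sum_congr rfl fun i _ => ?_
  rw [Pi.smul_apply, smul_eq_mul, C_mul, mul_assoc]

private lemma lf_neg {n : ℕ} (c : Fin n → k) : lf (-c) = - lf c := by
  have h := lf_smul (-1 : k) c
  simpa using h

private lemma lf_sub {n : ℕ} (c d : Fin n → k) : lf (c - d) = lf c - lf d := by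
  rw [sub_eq_add_neg, lf_add, lf_neg, sub_eq_add_neg]

private lemma lf_sum {n : ℕ} {ι : Type*} (s : Finset ι) (c : ι → Fin n → k) :
    lf (∑ j ∈ s, c j) = ∑ j ∈ s, lf (c j) := by
  classical
  induction s using Finset.induction_on with
  | empty => simp [lf]
  | insert a s ha ih => rw [Finset.sum_insert ha, Finset.sum_insert ha, lf_add, ih]

private lemma lf_coeff {n : ℕ} (c : Fin n → k) (j : Fin n) :
    (lf c).coeff (Finsupp.single j 1) = c j := by
  unfold lf
  rw [coeff_sum, Finset.sum_eq_single j]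
  · rw [coeff_C_mul, coeff_X, if_pos rfl, mul_one]
  · intro i _ hi
    rw [coeff_C_mul, coeff_X, if_neg, mul_zero]
    intro h
    exact hi (Finsupp.single_left_injective one_ne_zero h)
  · intro h
    exact absurd (Finset.mem_univ j) h

private lemma lf_eq_zero {n : ℕ} {c : Fin n → k} (h : lf c = 0) : c = 0 := by
  funext j
  rw [← lf_coeff c j, h]
  simp

private lemma lf_single {n : ℕ} (i : Fin n) : lf (Pi.single i (1 : k)) = X i := by
  unfold lf
  rw [Finset.sum_eq_single i]
  · simp
  · intro j _ hj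
    simp [Pi.single_eq_of_ne hj]
  · intro h
    exact absurd (Finset.mem_univ i) h

/-- the ideal generated by the linear forms with coefficient vector in `W` -/
private noncomputable def JW {n : ℕ} (W : Submodule k (Fin n → k)) :
    Ideal (MvPolynomial (Fin n) k) := Ideal.span (lf '' (W : Set (Fin n → k)))

/-- the substitution attached to a linear map -/
private noncomputable def subst {n : ℕ} (p : (Fin n → k) →ₗ[k] (Fin n → k)) :
    MvPolynomial (Fin n) k →ₐ[k] MvPolynomial (Fin n) k :=
  aeval fun i => lf (p (Pi.single i 1))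

private lemma subst_lf {n : ℕ} (p : (Fin n → k) →ₗ[k] (Fin n → k)) (c : Fin n → k) :
    subst p (lf c) = lf (p c) := by
  have h1 : c = ∑ i, c i • (Pi.single i (1 : k) : Fin n → k) := by
    rw [← Finset.univ_sum_single c]
    refine Finset.sum_congr rfl fun i _ => ?_
    rw [Finset.univ_sum_single c]
    funext j
    by_cases h : j = i
    · subst h; simp
    · simp [h]
  conv_rhs => rw [h1]
  rw [map_sum, lf_sum]
  unfold lf
  rw [map_sum]
  refine Finset.sum_congr rfl fun i _ => ?_
  have h2 := lf_smul (c i) (p (Pi.single i 1))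
  rw [← map_smul] at h2
  unfold lf at h2
  rw [h2, map_mul]
  unfold subst
  rw [aeval_X, ← algebraMap_eq, AlgHom.commutes]
  rfl

private lemma sub_subst_mem {n : ℕ} {W : Submodule k (Fin n → k)}
    {p : (Fin n → k) →ₗ[k] (Fin n → k)} (hp : ∀ c, c - p c ∈ W) (f : MvPolynomial (Fin n) k) :
    f - subst p f ∈ JW W := by
  have h : (Ideal.Quotient.mkₐ k (JW W)).comp (subst p) = Ideal.Quotient.mkₐ k (JW W) := by
    refine MvPolynomial.algHom_ext fun i => ?_
    rw [AlgHom.comp_apply]
    show Ideal.Quotient.mk (JW W) (subst p (X i)) = Ideal.Quotient.mk (JW W) (X i)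
    rw [eq_comm, Ideal.Quotient.eq, ← lf_single, subst_lf, ← lf_sub]
    exact Ideal.subset_span ⟨_, hp _, rfl⟩
  have h2 := congrArg (fun φ => φ f) h
  simp only [AlgHom.comp_apply] at h2
  exact Ideal.Quotient.eq.1 h2.symm

private lemma exists_proj {n : ℕ} (W : Submodule k (Fin n → k)) :
    ∃ p : (Fin n → k) →ₗ[k] (Fin n → k), (∀ c, c - p c ∈ W) ∧ ∀ c, p c = 0 ↔ c ∈ W := by
  obtain ⟨f, hf⟩ := LinearMap.exists_leftInverse_of_injective W.subtype W.ker_subtype
  refine ⟨LinearMap.id - W.subtype.comp f, fun c => ?_, fun c => ?_⟩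
  · have h : c - (LinearMap.id - W.subtype.comp f : (Fin n → k) →ₗ[k] (Fin n → k)) c = f c := by
      simp
    rw [h]
    exact (f c).2
  · constructor
    · intro h
      have h1 : c = f c := by
        have h2 : c - f c = 0 := by simpa using h
        exact sub_eq_zero.1 h2
      rw [h1]
      exact (f c).2
    · intro h
      have h1 : f c = ⟨c, h⟩ := by
        have h2 := LinearMap.congr_fun hf ⟨c, h⟩
        simpa using h2
      simp [h1]

private lemma JW_eq_ker {n : ℕ} {W : Submodule k (Fin n → k)}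
    {p : (Fin n → k) →ₗ[k] (Fin n → k)} (hp : ∀ c, c - p c ∈ W) (hp0 : ∀ c, p c = 0 ↔ c ∈ W) :
    JW W = RingHom.ker (subst p) := by
  refine le_antisymm ?_ fun f hf => ?_
  · refine Ideal.span_le.2 ?_
    rintro _ ⟨c, hc, rfl⟩
    show lf c ∈ RingHom.ker (subst p)
    rw [RingHom.mem_ker, subst_lf, (hp0 c).2 hc]
    simp [lf]
  · have h := sub_subst_mem hp f
    rw [RingHom.mem_ker] at hf
    rwa [hf, sub_zero] at h

private lemma JW_prime {n : ℕ} (W : Submodule k (Fin n → k)) : (JW W).IsPrime := by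
  obtain ⟨p, hp, hp0⟩ := exists_proj W
  rw [JW_eq_ker hp hp0]
  exact RingHom.ker_isPrime _

private lemma lf_mem_JW {n : ℕ} {W : Submodule k (Fin n → k)} {c : Fin n → k} :
    lf c ∈ JW W ↔ c ∈ W := by
  obtain ⟨p, hp, hp0⟩ := exists_proj W
  rw [JW_eq_ker hp hp0, RingHom.mem_ker, subst_lf]
  constructor
  · intro h
    exact (hp0 c).1 (lf_eq_zero h)
  · intro h
    rw [(hp0 c).2 h]
    simp [lf]

private lemma height_JW {n m : ℕ} {c : Fin m → Fin n → k} (hc : LinearIndependent k c) :
    ∀ j : ℕ, j ≤ m → (j : ℕ∞) ≤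
      (JW (Submodule.span k (c '' {i : Fin m | (i : ℕ) < j}))).height := by
  intro j
  induction j with
  | zero => intro _; simp
  | succ j ih =>
    intro hj
    have h1 := JW_prime (Submodule.span k (c '' {i : Fin m | (i : ℕ) < j}))
    have h2 := JW_prime (Submodule.span k (c '' {i : Fin m | (i : ℕ) < j + 1}))
    have hmem : c ⟨j, hj⟩ ∈ Submodule.span k (c '' {i : Fin m | (i : ℕ) < j + 1}) :=
      Submodule.subset_span ⟨⟨j, hj⟩, by simp, rfl⟩
    have hnot : c ⟨j, hj⟩ ∉ Submodule.span k (c '' {i : Fin m | (i : ℕ) < j}) :=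
      hc.notMem_span_image (by simp)
    have hle : JW (Submodule.span k (c '' {i : Fin m | (i : ℕ) < j})) ≤
        JW (Submodule.span k (c '' {i : Fin m | (i : ℕ) < j + 1})) := by
      refine Ideal.span_mono (Set.image_mono ?_)
      refine Submodule.span_mono (Set.image_mono ?_)
      intro i hi
      exact Nat.lt_succ_of_lt hi
    have hlt : JW (Submodule.span k (c '' {i : Fin m | (i : ℕ) < j})) <
        JW (Submodule.span k (c '' {i : Fin m | (i : ℕ) < j + 1})) := by
      refine lt_of_le_of_ne hle fun h => ?_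
      have h3 := lf_mem_JW.2 hmem
      rw [← h] at h3
      exact hnot (lf_mem_JW.1 h3)
    have h4 := Ideal.height_add_one_le_of_lt_of_isPrime hlt
    refine le_trans ?_ h4
    rw [Nat.cast_succ]
    exact add_le_add_left (ih (Nat.le_of_succ_le hj)) 1

/-! ## Q6: a minimal prime over a pair contains at most two independent linear forms -/
theorem lf_le_two_of_minimalPrime {n : ℕ} {P Q : MvPolynomial (Fin n) k}
    {I : Ideal (MvPolynomial (Fin n) k)} (hI : I ∈ (Ideal.span {P, Q}).minimalPrimes)
    {m : ℕ} {c : Fin m → Fin n → k} (hc : LinearIndependent k c) (hcI : ∀ i, lf (c i) ∈ I) : m ≤ 2 := by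
  have h1 : I.height ≤ ({P, Q} : Set (MvPolynomial (Fin n) k)).ncard :=
    Ideal.height_le_card_of_mem_minimalPrimes_span (Set.toFinite _) hI
  have h2 : ({P, Q} : Set (MvPolynomial (Fin n) k)).ncard ≤ 2 := by
    refine (Set.ncard_insert_le _ _).trans ?_
    rw [Set.ncard_singleton]
  have h3 : (m : ℕ∞) ≤ I.height := by
    refine (height_JW hc m le_rfl).trans (Ideal.height_mono (Ideal.span_le.2 ?_))
    rintro _ ⟨d, hd, rfl⟩
    refine Submodule.span_induction (p := fun d _ => lf d ∈ I) ?_ ?_ ?_ ?_ hd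
    · rintro _ ⟨i, _, rfl⟩
      exact hcI i
    · simp [lf]
    · intro x y _ _ hx hy
      rw [lf_add]
      exact I.add_mem hx hy
    · intro a x _ hx
      rw [lf_smul]
      exact I.mul_mem_left _ hx
  have h4 : (m : ℕ∞) ≤ ((2 : ℕ) : ℕ∞) := h3.trans (h1.trans (by exact_mod_cast h2))
  exact_mod_cast h4

/-- existence of a minimal prime over a pair of nonconstant forms -/
theorem exists_minimalPrime_pair {n : ℕ} {P Q : MvPolynomial (Fin n) k} {e : ℕ} (he : e ≠ 0)
    (hP : P.IsHomogeneous e) (hQ : Q.IsHomogeneous e) :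
    ∃ I ∈ (Ideal.span {P, Q}).minimalPrimes, I.IsPrime ∧ P ∈ I ∧ Q ∈ I := by
  have hc : ∀ {F : MvPolynomial (Fin n) k}, F.IsHomogeneous e → constantCoeff F = 0 := by
    intro F hF
    rw [constantCoeff_eq]
    by_contra h
    have h1 := hF h
    simp at h1
    exact he h1.symm
  have hne : Ideal.span {P, Q} ≠ ⊤ := by
    intro h
    have h1 : Ideal.span {P, Q} ≤ RingHom.ker (constantCoeff : MvPolynomial (Fin n) k →+* k) := by
      refine Ideal.span_le.2 ?_
      rintro x (rfl | rfl)
      · exact hc hP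
      · exact hc hQ
    rw [h, top_le_iff] at h1
    exact RingHom.ker_ne_top _ h1
  obtain ⟨I, hI⟩ := Ideal.nonempty_minimalPrimes hne
  exact ⟨I, hI, hI.1.1, hI.1.2 (Ideal.subset_span (by simp)),
    hI.1.2 (Ideal.subset_span (by simp))⟩

end Height

end Pool.Agent.HDP
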