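import Mathlib
import Pool.Agent.Lib.MP_20906e_al.Defs
import Pool.Agent.Lib.MP_20906e_al.Acl
import Pool.Agent.Lib.MP_20906e_al.Ctx
import Pool.Agent.Lib.MP_20906e_al.CtxN
import Pool.Agent.Lib.MP_20906e_al.DCtx
import Pool.Agent.Lib.MP_20906e_al.Height
import Pool.Agent.Lib.MP_20906e_al.Barg
import Pool.Agent.Lib.MP_20906e_al.B3
import Pool.Agent.Lib.MP_20906e_al.B4

/-!
# MP_20906e_al, piece E1b (helper61)

The constant part of the linear forms vanishing at a direction: `barg_lin`, `g_ne`, `dir_mem`, `dir_two`.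
-/

set_option autoImplicit false

namespace Pool.Agent.HDP
open MvPolynomial

variable {k Ω : Type*} [Field k] [IsAlgClosed k] [CharZero k] [Field Ω] [IsAlgClosed Ω] [Algebra k Ω]

omit [IsAlgClosed k] [CharZero k] [IsAlgClosed Ω] in
/-- decomposition of a vector over `Ω` along linearly independent elements -/
theorem E1b_decomp {n : ℕ} (v : Fin n → Ω) : ∃ (m : ℕ) (η : Fin m → Ω) (c : Fin m → Fin n → k),
    LinearIndependent k η ∧ (∀ l, η l ∈ Submodule.span k (Set.range v)) ∧
      ∀ i, v i = ∑ l, algebraMap k Ω (c l i) * η l := by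
  classical
  let M : Submodule k Ω := Submodule.span k (Set.range v)
  have : FiniteDimensional k M := FiniteDimensional.span_of_finite k (Set.finite_range v)
  let B := Module.finBasis k M
  refine ⟨Module.finrank k M, fun l => (B l : Ω), fun l i => B.repr ⟨v i, Submodule.subset_span ⟨i, rfl⟩⟩ l,
    ?_, fun l => (B l).2, fun i => ?_⟩
  · exact B.linearIndependent.map' M.subtype M.ker_subtype
  · have h := congrArg (fun z : M => (z : Ω)) (B.sum_repr ⟨v i, Submodule.subset_span ⟨i, rfl⟩⟩)
    simp only [Submodule.coe_sum, Submodule.coe_smul] at h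
    rw [← h]
    exact Finset.sum_congr rfl fun l _ => by rw [Algebra.smul_def]

omit [IsAlgClosed k] [CharZero k] [IsAlgClosed Ω] in
theorem E1b_span_le {n : ℕ} (K : IntermediateField k Ω) (v : Fin n → Ω) (hv : ∀ i, v i ∈ K) {z : Ω}
    (hz : z ∈ Submodule.span k (Set.range v)) : z ∈ K := by
  refine Submodule.span_induction (p := fun z _ => z ∈ K) ?_ (zero_mem _)
    (fun a b _ _ ha hb => add_mem ha hb) (fun a b _ hb => ?_) hz
  · rintro _ ⟨i, rfl⟩
    exact hv i
  · rw [Algebra.smul_def]
    exact mul_mem (K.algebraMap_mem a) hb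

omit [IsAlgClosed k] [CharZero k] in
/-- two independent vectors orthogonal to a subspace of dimension at most two of `k^4` -/
theorem E1b_orth (W : Submodule k (Fin 4 → k)) (hW : Module.finrank k W ≤ 2) :
    ∃ v w : Fin 4 → k, LinearIndependent k ![v, w] ∧ (∀ l ∈ W, ∑ i, l i * v i = 0) ∧
      ∀ l ∈ W, ∑ i, l i * w i = 0 := by
  classical
  let φ : (Fin 4 → k) →ₗ[k] (W →ₗ[k] k) :=
    { toFun := fun w =>
        { toFun := fun l => ∑ i, (l : Fin 4 → k) i * w i
          map_add' := fun a b => by simp [add_mul, Finset.sum_add_distrib]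
          map_smul' := fun a b => by simp [Finset.mul_sum, mul_assoc] }
      map_add' := fun a b => by ext l; simp [mul_add, Finset.sum_add_distrib]
      map_smul' := fun a b => by ext l; simp [Finset.mul_sum, mul_left_comm] }
  have h1 := LinearMap.finrank_range_add_finrank_ker φ
  have h2 : Module.finrank k (LinearMap.range φ) ≤ Module.finrank k (W →ₗ[k] k) :=
    Submodule.finrank_le _
  have h3 : Module.finrank k (W →ₗ[k] k) = Module.finrank k W := Subspace.dual_finrank_eq
  rw [Module.finrank_fin_fun] at h1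
  have h4 : 1 < Module.finrank k (LinearMap.ker φ) := by omega
  have : Nontrivial (LinearMap.ker φ) := Module.nontrivial_of_finrank_pos (R := k) (by omega)
  obtain ⟨v, hv⟩ := exists_ne (0 : LinearMap.ker φ)
  obtain ⟨w, hw⟩ := exists_linearIndependent_pair_of_one_lt_finrank h4 hv
  refine ⟨v, w, ?_, fun l hl => ?_, fun l hl => ?_⟩
  · have h5 := hw.map' (LinearMap.ker φ).subtype (LinearMap.ker φ).ker_subtype
    have h6 : (⇑(LinearMap.ker φ).subtype ∘ ![v, w]) = ![(v : Fin 4 → k), (w : Fin 4 → k)] := by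
      funext i
      fin_cases i <;> rfl
    rwa [h6] at h5
  · exact LinearMap.congr_fun (LinearMap.mem_ker.1 v.2) ⟨l, hl⟩
  · exact LinearMap.congr_fun (LinearMap.mem_ker.1 w.2) ⟨l, hl⟩

namespace DCtx
variable (c : DCtx k Ω)

omit [IsAlgClosed Ω] in
theorem E1b_algInd : AlgebraicIndependent k c.x := c.tb.1

/-- B-place over a prime `I` containing `P, Q`, in the form used below: linear forms -/
theorem barg_lin (I : Ideal (MvPolynomial (Fin 4) k)) (hI : I.IsPrime) (hP : c.P ∈ I) (hQ : c.Q ∈ I) :
    ∃ V : ValuationSubring Ω, (∀ i, c.x i ∈ V) ∧ (∀ a ∈ acl k ({c.τ} : Set Ω), a ∈ V) ∧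
      (∀ F : MvPolynomial (Fin 4) k, V.valuation (aeval c.x F) < 1 ↔ F ∈ I) ∧
      (∀ (m : ℕ) (η : Fin m → Ω) (F : Fin m → MvPolynomial (Fin 4) k),
        (∀ i, η i ∈ acl k ({c.τ} : Set Ω)) → LinearIndependent k η →
        V.valuation (∑ i, η i * aeval c.x (F i)) < 1 → ∀ i, F i ∈ I) ∧
      -- a vector `v` over `acl{τ}` with `v·x` in the maximal ideal is orthogonal to every `w ∈ k^4`
      -- which is orthogonal to all linear forms in `I`
      (∀ v : Fin 4 → Ω, (∀ i, v i ∈ acl k ({c.τ} : Set Ω)) → V.valuation (∑ i, v i * c.x i) < 1 →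
        ∀ w : Fin 4 → k, (∀ l : Fin 4 → k, lf l ∈ I → ∑ i, l i * w i = 0) →
          ∑ i, v i * algebraMap k Ω (w i) = 0) := by
  have hτ : aeval c.x c.P / aeval c.x c.Q ∉ acl k (∅ : Set Ω) := by
    rw [← c.hτ]
    exact c.τk
  obtain ⟨V, h1, h2, h3, h4⟩ := barg c.E1b_algInd c.PQ hτ I hI hP hQ
  rw [← c.hτ] at h2 h4
  refine ⟨V, h1, h2, h3, h4, fun v hv hx w hw => ?_⟩
  obtain ⟨m, η, cc, hη, hηm, hc⟩ := E1b_decomp (k := k) v
  have h5 : ∑ i, v i * c.x i = ∑ l, η l * aeval c.x (lf (cc l)) := by
    have : ∀ l, aeval c.x (lf (cc l)) = ∑ i, algebraMap k Ω (cc l i) * c.x i := by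
      intro l
      rw [lf, map_sum]
      exact Finset.sum_congr rfl fun i _ => by rw [map_mul, aeval_X, aeval_C]
    simp only [this, hc, Finset.sum_mul, Finset.mul_sum]
    rw [Finset.sum_comm]
    exact Finset.sum_congr rfl fun l _ => Finset.sum_congr rfl fun i _ => by ring
  rw [h5] at hx
  have h6 := h4 m η (fun l => lf (cc l)) (fun l => E1b_span_le _ v hv (hηm l)) hη hx
  have h7 : ∑ i, v i * algebraMap k Ω (w i) = ∑ l, η l * algebraMap k Ω (∑ i, cc l i * w i) := by
    simp only [hc, Finset.sum_mul, Finset.mul_sum, map_sum, map_mul]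
    rw [Finset.sum_comm]
    exact Finset.sum_congr rfl fun l _ => Finset.sum_congr rfl fun i _ => by ring
  rw [h7]
  exact Finset.sum_eq_zero fun l _ => by rw [hw _ (h6 l), map_zero, mul_zero]

theorem g_ne : c.g ≠ 0 := by
  classical
  intro hg
  obtain ⟨I, hI, hIp, hP, hQ⟩ := exists_minimalPrime_pair c.he c.Ph c.Qh
  obtain ⟨V, -, -, -, -, h⟩ := c.barg_lin I hIp hP hQ
  let W : Submodule k (Fin 4 → k) :=
    { carrier := {l | lf l ∈ I}
      zero_mem' := by
        show lf (0 : Fin 4 → k) ∈ I
        simp [lf]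
      add_mem' := by
        intro a b ha hb
        show lf (a + b) ∈ I
        have : lf (a + b) = lf a + lf b := by
          simp [lf, add_mul, Finset.sum_add_distrib]
        rw [this]
        exact I.add_mem ha hb
      smul_mem' := by
        intro r a ha
        show lf (r • a) ∈ I
        have : lf (r • a) = C r * lf a := by
          simp [lf, Finset.mul_sum, mul_assoc]
        rw [this]
        exact I.mul_mem_left _ ha }
  have hW : Module.finrank k W ≤ 2 := by
    let B := Module.finBasis k W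
    refine lf_le_two_of_minimalPrime hI (c := fun l => (B l : Fin 4 → k)) ?_ fun l => (B l).2
    exact B.linearIndependent.map' W.subtype W.ker_subtype
  obtain ⟨v, w, hvw, hv, hw⟩ := E1b_orth W hW
  have h0 : V.valuation (∑ i, c.U i * c.x i) < 1 := by
    have : ∑ i, c.U i * c.x i = 0 := hg
    rw [this, map_zero]
    exact zero_lt_one
  exact c.span3 v w hvw ⟨h c.U c.Umem h0 v hv, h c.U c.Umem h0 w hw⟩

/-- directions with two forms have coordinates in `acl{τ}` -/
theorem dir_mem {V : ValuationSubring Ω} {b : Fin 4 → Ω} {i0 : Fin 4} (hb : c.IsDir V b i0)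
    (h2 : Ctx3.TwoForms (k := k) b) : ∀ i, b i ∈ acl k ({c.τ} : Set Ω) := by
  classical
  obtain ⟨σ, hσL, hσ⟩ := c.toCtx3.one_param hb h2
  by_cases hτ : c.τ ∈ acl k ({σ} : Set Ω)
  · have h1 : σ ∈ acl k ({c.τ} : Set Ω) := by
      have := acl_exchange (k := k) (S := (∅ : Set Ω)) (y := σ) (z := c.τ) (by simpa using hτ) c.τk
      simpa using this
    intro i
    refine (acl_le_iff (k := k)).2 ?_ (hσ i)
    rintro _ rfl
    exact h1
  · obtain ⟨m, η, cc, hη, hηm, hc⟩ := E1b_decomp (k := k) c.U
    have hUb : ∑ i, c.U i * b i = 0 := by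
      have h3 := c.toCtx3.u_dir hb
      have h4 : c.uj * ∑ i, c.U i * b i = 0 := by
        rw [← h3, Finset.mul_sum]
        exact Finset.sum_congr rfl fun i _ => by rw [c.hU i]; ring
      exact (mul_eq_zero.1 h4).resolve_left c.uj0
    have hz : ∀ l, ∑ i, algebraMap k Ω (cc l i) * b i ∈ acl k ({σ} : Set Ω) := fun l =>
      sum_mem fun i _ => mul_mem (IntermediateField.algebraMap_mem _ _) (hσ i)
    have hs : ∑ l, η l * ∑ i, algebraMap k Ω (cc l i) * b i = 0 := by
      rw [← hUb]
      simp only [hc, Finset.sum_mul, Finset.mul_sum]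
      rw [Finset.sum_comm]
      exact Finset.sum_congr rfl fun l _ => Finset.sum_congr rfl fun i _ => by ring
    have h5 := lin_disjoint hτ (fun l => E1b_span_le _ c.U c.Umem (hηm l)) hz hη hs
    obtain ⟨m', e, β, he, -, hβ⟩ := E1b_decomp (k := k) b
    -- each `β j` is orthogonal to each `cc l`
    have h6 : ∀ l j, ∑ i, cc l i * β j i = 0 := by
      intro l j
      have h7 : ∑ j, (∑ i, cc l i * β j i) • e j = 0 := by
        rw [← h5 l]
        simp only [hβ, Algebra.smul_def, map_sum, map_mul, Finset.sum_mul, Finset.mul_sum]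
        rw [Finset.sum_comm]
        exact Finset.sum_congr rfl fun l _ => Finset.sum_congr rfl fun i _ => by ring
      exact Fintype.linearIndependent_iff.1 he _ h7 j
    have h8 : ∀ j, ∑ i, c.U i * algebraMap k Ω (β j i) = 0 := by
      intro j
      have h9 : ∑ i, c.U i * algebraMap k Ω (β j i)
          = ∑ l, η l * algebraMap k Ω (∑ i, cc l i * β j i) := by
        simp only [hc, Finset.sum_mul, Finset.mul_sum, map_sum, map_mul]
        rw [Finset.sum_comm]
        exact Finset.sum_congr rfl fun l _ => Finset.sum_congr rfl fun i _ => by ring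
      rw [h9]
      exact Finset.sum_eq_zero fun l _ => by rw [h6 l j, map_zero, mul_zero]
    -- some `β j0 i0 ≠ 0`
    have h10 : ∃ j0, β j0 i0 ≠ 0 := by
      by_contra hno
      push Not at hno
      have := hb.one
      rw [hβ i0] at this
      simp [hno] at this
    obtain ⟨j0, hj0⟩ := h10
    have h11 : ∀ j, ∃ s : k, β j = s • β j0 := by
      intro j
      by_contra hno
      push Not at hno
      refine c.span3 (β j0) (β j) ?_ ⟨h8 j0, h8 j⟩
      rw [LinearIndependent.pair_iff' (by
        intro h0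
        exact hj0 (by rw [h0]; rfl))]
      intro a ha
      exact hno a ha.symm
    choose s hs' using h11
    have h12 : ∀ i, b i = (∑ j, algebraMap k Ω (s j) * e j) * algebraMap k Ω (β j0 i) := by
      intro i
      rw [hβ i, Finset.sum_mul]
      refine Finset.sum_congr rfl fun j _ => ?_
      rw [hs' j, Pi.smul_apply, smul_eq_mul, map_mul]
      ring
    have h13 : (∑ j, algebraMap k Ω (s j) * e j) = algebraMap k Ω (β j0 i0)⁻¹ := by
      have h14 := h12 i0
      rw [hb.one] at h14
      rw [map_inv₀]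
      exact eq_inv_of_mul_eq_one_left h14.symm
    intro i
    rw [h12 i, h13, ← map_mul]
    exact IntermediateField.algebraMap_mem _ _

/-- every direction has two forms because `G ≠ 0` -/
theorem dir_two {V : ValuationSubring Ω} {b : Fin 4 → Ω} {i0 : Fin 4} (hb : c.IsDir V b i0) :
    Ctx3.TwoForms (k := k) b := by
  refine c.toCtx3.two_forms_G ?_ hb
  have h1 : c.toCtx3.G = c.uj * c.g := by
    unfold Ctx3.G g
    rw [Finset.mul_sum]
    exact Finset.sum_congr rfl fun i _ => by rw [c.hU i]; ring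
  rw [h1]
  exact mul_ne_zero c.uj0 c.g_ne

end DCtx

end Pool.Agent.HDP
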