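import Mathlib
import Pool.Agent.Lib.MP_20906e_al.DCtx
import Pool.Agent.Lib.MP_20906e_al.CtxN
import Pool.Agent.Lib.MP_20906e_al.Acl
import Pool.Agent.Lib.MP_20906e_al.Der
import Pool.Agent.Lib.MP_20906e_al.Wr
import Pool.Agent.Lib.MP_20906e_al.B2a
import Pool.Agent.Lib.MP_20906e_al.B2b
import Pool.Agent.Lib.MP_20906e_al.B5
import Pool.Agent.Lib.MP_20906e_al.E1a

/-!
# MP_20906e_al, piece E2: frames in the developable context (helper87)
-/

set_option linter.unusedSectionVars false
set_option linter.unusedVariables false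

namespace Pool.Agent.HDP
open MvPolynomial

variable {k Ω : Type*} [Field k] [IsAlgClosed k] [CharZero k] [Field Ω] [IsAlgClosed Ω] [Algebra k Ω]

/-- coordinates with respect to a frame defined over a subfield -/
theorem e2_coords {K : IntermediateField k Ω} {r : Fin 4 → Fin 4 → Ω} (hr : ∀ i j, r i j ∈ K)
    (hli : LinearIndependent Ω r) (v : Fin 4 → Ω) (hv : ∀ i, v i ∈ K) :
    ∃ g : Fin 4 → Ω, (∀ i, g i ∈ K) ∧ ∀ j, v j = ∑ i, g i * r i j := by
  let r' : Fin 4 → Fin 4 → K := fun i j => ⟨r i j, hr i j⟩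
  have h1 : LinearIndependent K r' := by
    rw [Fintype.linearIndependent_iff] at hli ⊢
    intro g hg i
    have h2 := hli (fun i => (g i : Ω)) (by
      funext j
      have h3 := congrFun hg j
      have h4 := congrArg (fun z : K => (z : Ω)) h3
      simpa [r', Finset.sum_apply] using h4) i
    exact Subtype.ext h2
  have hspan := h1.span_eq_top_of_card_eq_finrank (by simp)
  have hvv : (fun i => (⟨v i, hv i⟩ : K)) ∈ Submodule.span K (Set.range r') := by
    rw [hspan]; exact Submodule.mem_top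
  rw [Submodule.mem_span_range_iff_exists_fun] at hvv
  obtain ⟨g, hg⟩ := hvv
  refine ⟨fun i => (g i : Ω), fun i => (g i).2, fun j => ?_⟩
  have h2 := congrArg (fun z : K => (z : Ω)) (congrFun hg j)
  simp only [Finset.sum_apply, Pi.smul_apply, smul_eq_mul] at h2
  push_cast at h2
  exact h2.symm

/-- a function on the line `acl{τ}` is differentiable -/
theorem e2_der {τ : Ω} {dt D : Derivation k Ω Ω} (h : dt τ = 1) {z : Ω}
    (hz : z ∈ acl k ({τ} : Set Ω)) : D z = dt z * D τ := by
  have h1 := der_acl_eq D (D τ • dt) (S := {τ}) (by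
    intro s hs
    rw [Set.mem_singleton_iff.1 hs, Derivation.smul_apply, h, smul_eq_mul, mul_one]) z hz
  rw [h1, Derivation.smul_apply, smul_eq_mul, mul_comm]

theorem e2_der_mem {τ : Ω} {dt : Derivation k Ω Ω} (h : dt τ = 1) {z : Ω}
    (hz : z ∈ acl k ({τ} : Set Ω)) : dt z ∈ acl k ({τ} : Set Ω) :=
  der_acl_mem dt (subset_acl _) (by
    intro s hs
    rw [Set.mem_singleton_iff.1 hs, h]
    exact one_mem _) z hz

theorem e2_exists_der {τ : Ω} (hτ : τ ∉ acl k (∅ : Set Ω)) : ∃ dt : Derivation k Ω Ω, dt τ = 1 := by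
  obtain ⟨D, -, hD⟩ := exists_der_ne hτ
  exact ⟨D, hD⟩

namespace DCtx
variable (c : DCtx k Ω)

/-- the construction of the frame context from a frame vector -/
theorem e2_core (B : Fin 4 → Ω) (hB : ∀ i, B i ∈ acl k ({c.τ} : Set Ω))
    (hf : LinearIndependent Ω ![c.U, c.U1, c.U2, B]) :
    ∃ c' : FCtx k Ω, c'.toDCtx = c ∧ c'.B = B := by
  classical
  obtain ⟨dt, hdt⟩ := e2_exists_der c.τk
  set K := acl k ({c.τ} : Set Ω) with hK
  have hrows : ∀ i j, (![c.U, c.U1, c.U2, B] : Fin 4 → Fin 4 → Ω) i j ∈ K := by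
    intro i j
    fin_cases i
    · exact c.Umem j
    · exact c.U1mem j
    · exact c.U2mem j
    · exact hB j
  have hco : ∀ v : Fin 4 → Ω, (∀ i, v i ∈ K) → ∃ p : Fin 4 → Ω, (∀ i, p i ∈ K) ∧
      ∀ j, v j = p 0 * c.U2 j + p 1 * B j + p 2 * c.U1 j + p 3 * c.U j := by
    intro v hv
    obtain ⟨g, hg, hgv⟩ := e2_coords hrows hf v hv
    refine ⟨![g 2, g 3, g 1, g 0], ?_, fun j => ?_⟩
    · intro i
      fin_cases i
      · exact hg 2
      · exact hg 3
      · exact hg 1
      · exact hg 0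
    · rw [hgv j, Fin.sum_univ_four]
      simp only [Matrix.cons_val_zero, Matrix.cons_val_one, Matrix.cons_val]
      ring
  obtain ⟨p, hp, hpv⟩ := hco (fun i => dt (c.U2 i)) (fun i => e2_der_mem hdt (c.U2mem i))
  obtain ⟨q, hq, hqv⟩ := hco (fun i => dt (B i)) (fun i => e2_der_mem hdt (hB i))
  set bb := ∑ i, B i * c.y i with hbb
  have hτL : c.τ ∈ c.L := c.τL
  have hKL : K ≤ c.L := by
    rw [hK]
    change acl k _ ≤ acl k _
    rw [acl_le_iff]
    intro s hs
    rw [Set.mem_singleton_iff.1 hs]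
    exact hτL
  have haL : c.a ∈ c.L := by
    rw [← c.U2y]
    exact sum_mem fun i _ => mul_mem (hKL (c.U2mem i)) (c.y_mem i)
  have hbL : bb ∈ c.L := sum_mem fun i _ => mul_mem (hKL (hB i)) (c.y_mem i)
  have hr : Set.range ![c.τ, c.a, bb] = {c.τ, c.a, bb} := by
    ext z
    simp only [Set.mem_range, Set.mem_insert_iff, Set.mem_singleton_iff]
    constructor
    · rintro ⟨i, rfl⟩
      fin_cases i <;> simp
    · rintro (rfl | rfl | rfl)
      · exact ⟨0, rfl⟩
      · exact ⟨1, rfl⟩
      · exact ⟨2, rfl⟩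
  have hKT : K ≤ acl k (Set.range ![c.τ, c.a, bb]) := by
    apply acl_mono
    intro s hs
    rw [Set.mem_singleton_iff.1 hs]
    exact ⟨0, rfl⟩
  have hy : ∀ i, c.y i ∈ acl k (Set.range ![c.τ, c.a, bb]) := by
    intro i
    obtain ⟨g, hg, hgv⟩ := hco (Pi.single i 1) (by
      intro j
      by_cases hij : j = i
      · subst hij; simp [one_mem]
      · rw [Pi.single_eq_of_ne hij]; exact zero_mem _)
    have h1 : c.y i = g 0 * c.a + g 1 * bb := by
      have h2 : ∑ j, (Pi.single i 1 : Fin 4 → Ω) j * c.y j = c.y i := by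
        rw [Finset.sum_eq_single i]
        · simp
        · intro j _ hj; rw [Pi.single_eq_of_ne hj, zero_mul]
        · simp
      rw [← h2]
      have h3 : ∀ j, (Pi.single i 1 : Fin 4 → Ω) j * c.y j = g 0 * (c.U2 j * c.y j) +
          g 1 * (B j * c.y j) + g 2 * (c.U1 j * c.y j) + g 3 * (c.U j * c.y j) := by
        intro j; rw [hgv j]; ring
      simp only [h3]
      rw [Finset.sum_add_distrib, Finset.sum_add_distrib, Finset.sum_add_distrib,
        ← Finset.mul_sum, ← Finset.mul_sum, ← Finset.mul_sum, ← Finset.mul_sum, c.U2y, c.U1y,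
        c.Uy, ← hbb]
      ring
    rw [h1]
    exact add_mem (mul_mem (hKT (hg 0)) (subset_acl _ ⟨1, rfl⟩))
      (mul_mem (hKT (hg 1)) (subset_acl _ ⟨2, rfl⟩))
  have hind : AlgebraicIndependent k ![c.τ, c.a, bb] := c.L_algInd _ hy
  have htL : ∀ i, ![c.τ, c.a, bb] i ∈ c.L := by
    intro i
    fin_cases i
    · exact hτL
    · exact haL
    · exact hbL
  have hLacl : ∀ f, f ∈ c.L ↔ f ∈ acl k ({c.τ, c.a, bb} : Set Ω) := by
    intro f
    rw [← hr]
    exact c.L_eq_acl _ hind htL f
  obtain ⟨E, hE0, hE1⟩ := exists_dual_of_algInd hind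
  have hz : ∀ (i : Fin 3) (j : Fin 3), E i (![c.τ, c.a, bb] j) = if i = j then 1 else 0 := by
    intro i j
    split_ifs with h
    · subst h; exact hE1 i
    · exact hE0 i j h
  have e00 : E 0 c.τ = 1 := hz 0 0
  have e01 : E 0 c.a = 0 := hz 0 1
  have e02 : E 0 bb = 0 := hz 0 2
  have e10 : E 1 c.τ = 0 := hz 1 0
  have e11 : E 1 c.a = 1 := hz 1 1
  have e12 : E 1 bb = 0 := hz 1 2
  have e20 : E 2 c.τ = 0 := hz 2 0
  have e21 : E 2 c.a = 0 := hz 2 1
  have e22 : E 2 bb = 1 := hz 2 2
  have hconst : ∀ (i j : Fin 3) (D : Derivation k Ω Ω), D (E i (![c.τ, c.a, bb] j)) = 0 := by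
    intro i j D
    rw [hz]
    split_ifs
    · exact D.map_one_eq_zero
    · exact map_zero D
  have hcomm : ∀ i j : Fin 3, ∀ f ∈ c.L, E i (E j f) = E j (E i f) := by
    intro i j f hfL
    have h1 := der_acl_zero ⁅E i, E j⁆ (S := {c.τ, c.a, bb}) (by
      intro s hs
      rw [← hr] at hs
      obtain ⟨m, rfl⟩ := hs
      rw [Derivation.commutator_apply, hconst, hconst, sub_zero]) f ((hLacl f).1 hfL)
    rw [Derivation.commutator_apply] at h1
    exact sub_eq_zero.1 h1
  have hDL : ∀ i : Fin 3, ∀ f ∈ c.L, E i f ∈ c.L := by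
    intro i f hfL
    rw [hLacl]
    refine der_acl_mem (E i) (S := {c.τ, c.a, bb}) (subset_acl _) ?_ f ((hLacl f).1 hfL)
    intro s hs
    rw [← hr] at hs
    obtain ⟨m, rfl⟩ := hs
    rw [hz]
    split_ifs
    · exact one_mem _
    · exact zero_mem _
  refine ⟨{ c with
    B := B
    Bmem := hB
    p := p
    q := q
    pmem := hp
    qmem := hq
    DU2 := fun D i => by rw [← hpv i]; exact e2_der hdt (c.U2mem i)
    DB := fun D i => by rw [← hqv i]; exact e2_der hdt (hB i)
    frame := hf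
    bb := bb
    By := rfl
    Dt := E 0
    Da := E 1
    Db := E 2
    dual := ⟨e00, e01, e02, e10, e11, e12, e20, e21, e22⟩
    comm := fun f hfL => ⟨hcomm 1 0 f hfL, hcomm 2 0 f hfL, hcomm 1 2 f hfL⟩
    DL := fun f hfL => ⟨hDL 0 f hfL, hDL 1 f hfL, hDL 2 f hfL⟩
    chain := fun D f hfL => by
      have h1 := der_acl_eq D (D c.τ • E 0 + D c.a • E 1 + D bb • E 2) (S := {c.τ, c.a, bb}) (by
        intro s hs
        simp only [Set.mem_insert_iff, Set.mem_singleton_iff] at hs
        simp only [Derivation.add_apply, Derivation.smul_apply, smul_eq_mul]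
        rcases hs with rfl | rfl | rfl
        · rw [e00, e10, e20]; ring
        · rw [e01, e11, e21]; ring
        · rw [e02, e12, e22]; ring) f ((hLacl f).1 hfL)
      rw [h1]
      simp only [Derivation.add_apply, Derivation.smul_apply, smul_eq_mul]
      ring
    indep := hind
    Lacl := hLacl }, rfl, rfl⟩

/-- coordinates in the frame are unique -/
theorem e2_unique (c : FCtx k Ω) {p q : Fin 4 → Ω}
    (h : ∀ j, p 0 * c.U2 j + p 1 * c.B j + p 2 * c.U1 j + p 3 * c.U j =
      q 0 * c.U2 j + q 1 * c.B j + q 2 * c.U1 j + q 3 * c.U j) : p = q := by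
  have h1 := Fintype.linearIndependent_iff.1 c.frame
    (![p 3 - q 3, p 2 - q 2, p 0 - q 0, p 1 - q 1]) (by
      rw [Fin.sum_univ_four]
      funext j
      simp only [Matrix.cons_val_zero, Matrix.cons_val_one, Matrix.cons_val, Pi.add_apply,
        Pi.smul_apply, smul_eq_mul, Pi.zero_apply]
      linear_combination h j)
  have h0 := h1 0
  have h2 := h1 1
  have h3 := h1 2
  have h4 := h1 3
  simp only [Matrix.cons_val_zero, Matrix.cons_val_one, Matrix.cons_val] at h0 h2 h3 h4
  funext i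
  fin_cases i
  · exact sub_eq_zero.1 h3
  · exact sub_eq_zero.1 h4
  · exact sub_eq_zero.1 h2
  · exact sub_eq_zero.1 h0

theorem e2_frame_of_det {M : Matrix (Fin 4) (Fin 4) Ω} (h : M.det ≠ 0) :
    LinearIndependent Ω (fun i => M i) := by
  exact Matrix.linearIndependent_rows_of_det_ne_zero h

/-! ## E2 -/
theorem exists_fctx_noncone (h : ∀ v : Fin 4 → k, ∑ i, c.U i * algebraMap k Ω (v i) = 0 → v = 0) :
    ∃ c' : FCtx k Ω, c'.toDCtx = c ∧ c'.p = ![0, 1, 0, 0] := by
  obtain ⟨dt, hdt⟩ := e2_exists_der c.τk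
  have hli : LinearIndependent k c.U := by
    rw [Fintype.linearIndependent_iff]
    intro g hg
    have h1 := h g (by
      rw [← hg]
      refine Finset.sum_congr rfl fun i _ => ?_
      rw [Algebra.smul_def, mul_comm])
    intro i
    rw [h1]
    rfl
  have hW := wronskian_ne_zero c.τk dt hdt c.Umem hli
  have hU1 : ∀ i, dt (c.U i) = c.U1 i := fun i => by rw [c.DU, hdt, mul_one]
  have hU2 : ∀ i, dt (c.U1 i) = c.U2 i := fun i => by rw [c.DU1, hdt, mul_one]
  have hf := e2_frame_of_det hW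
  have hrows : (fun i => (Matrix.of fun (i j : Fin 4) => (fun f => dt f)^[(i : ℕ)] (c.U j)) i) =
      ![c.U, c.U1, c.U2, fun i => dt (c.U2 i)] := by
    funext i j
    fin_cases i
    · rfl
    · exact hU1 j
    · change dt (dt (c.U j)) = c.U2 j
      rw [hU1, hU2]
    · change dt (dt (dt (c.U j))) = dt (c.U2 j)
      rw [hU1, hU2]
  rw [hrows] at hf
  obtain ⟨c', rfl, hB⟩ := c.e2_core (fun i => dt (c.U2 i)) (fun i => e2_der_mem hdt (c.U2mem i)) hf
  refine ⟨c', rfl, ?_⟩
  apply e2_unique c'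
  intro j
  have h1 := c'.DU2 dt j
  rw [hdt, mul_one] at h1
  rw [← h1, hB]
  simp

/-- an invertible matrix sending `e_3` to a given vector -/
theorem e2_matrix {v : Fin 4 → k} (hv : v ≠ 0) :
    ∃ T T' : Matrix (Fin 4) (Fin 4) k, T' * T = 1 ∧ T * T' = 1 ∧ ∀ i, T' i 3 = v i := by
  classical
  obtain ⟨m, hm⟩ := Function.ne_iff.1 hv
  rw [Pi.zero_apply] at hm
  let T' : Matrix (Fin 4) (Fin 4) k :=
    ((1 : Matrix (Fin 4) (Fin 4) k).updateCol m v).submatrix id (Equiv.swap m 3)
  have hdet : T'.det ≠ 0 := by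
    have h1 : T'.det = Equiv.Perm.sign (Equiv.swap m 3) *
        ((1 : Matrix (Fin 4) (Fin 4) k).updateCol m v).det := Matrix.det_permute' _ _
    have h2 : ((1 : Matrix (Fin 4) (Fin 4) k).updateCol m v).det = v m := by
      rw [← Matrix.cramer_apply, Matrix.cramer_one]
      rfl
    rw [h1, h2]
    refine mul_ne_zero ?_ hm
    rcases Int.units_eq_one_or (Equiv.Perm.sign (Equiv.swap m 3)) with h3 | h3 <;> rw [h3] <;> simp
  have hu : IsUnit T'.det := isUnit_iff_ne_zero.2 hdet
  refine ⟨T'⁻¹, T', Matrix.mul_nonsing_inv _ hu, Matrix.nonsing_inv_mul _ hu, fun i => ?_⟩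
  simp [T', Matrix.submatrix_apply]

theorem cone_normal (h : ∃ v : Fin 4 → k, v ≠ 0 ∧ ∑ i, c.U i * algebraMap k Ω (v i) = 0) :
    ∃ c' : DCtx k Ω, c'.U 3 = 0 := by
  classical
  obtain ⟨v, hv, hUv⟩ := h
  obtain ⟨T, T', hT, hT', hT3⟩ := e2_matrix hv
  obtain ⟨c1, -, -, hy, -⟩ := c.toCtx3.exists_lin T T' hT hT'
  -- relation of the left kernels
  obtain ⟨e, he⟩ := c.toCtx3.ker_left (fun j => ∑ i, c1.u i * algebraMap k Ω (T i j)) (by
    intro D
    have h1 := c1.u_D D
    rw [← h1]
    have h2 : ∀ i, D (c1.y i) = ∑ j, algebraMap k Ω (T i j) * D (c.y j) := by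
      intro i
      rw [hy, Ctx3.der_lin]
      rfl
    simp only [h2, Finset.mul_sum, Finset.sum_mul]
    rw [Finset.sum_comm]
    refine Finset.sum_congr rfl fun i _ => Finset.sum_congr rfl fun j _ => by ring)
  have hu : ∀ l, c1.u l = e * ∑ j, c.u j * algebraMap k Ω (T' j l) := by
    intro l
    have h1 : ∑ j, (∑ i, c1.u i * algebraMap k Ω (T i j)) * algebraMap k Ω (T' j l) = c1.u l := by
      simp only [Finset.sum_mul]
      rw [Finset.sum_comm]
      have h2 : ∀ i, ∑ j, c1.u i * algebraMap k Ω (T i j) * algebraMap k Ω (T' j l) =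
          c1.u i * algebraMap k Ω ((T * T') i l) := by
        intro i
        rw [Matrix.mul_apply, map_sum, Finset.mul_sum]
        refine Finset.sum_congr rfl fun j _ => ?_
        rw [map_mul, mul_assoc]
      simp only [h2, hT', Matrix.one_apply]
      rw [Finset.sum_eq_single l]
      · simp
      · intro i _ hi
        rw [if_neg hi, map_zero, mul_zero]
      · simp
    rw [← h1, Finset.mul_sum]
    refine Finset.sum_congr rfl fun j _ => ?_
    rw [he j]
    ring
  have hu' : ∀ l, c1.u l = (e * c.uj) * ∑ j, c.U j * algebraMap k Ω (T' j l) := by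
    intro l
    rw [hu l, mul_assoc]
    congr 1
    rw [Finset.mul_sum]
    refine Finset.sum_congr rfl fun j _ => ?_
    rw [c.hU j]
    ring
  have hdev : c1.Dev := by
    obtain ⟨j, hj⟩ := c1.u_ne
    refine ⟨c.τ, j, ?_, hj, fun i => ?_⟩
    · have h1 : c.τ ∈ acl k (Set.range c.y) := c.τL
      have h2 := Ctx3.acl_lin hT c.y h1
      rw [← hy] at h2
      exact h2
    · have h0 : e * c.uj ≠ 0 := by
        intro h0
        apply hj
        rw [hu' j, h0, zero_mul]
      rw [hu' i, hu' j, mul_div_mul_left _ _ h0]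
      exact div_mem (sum_mem fun l _ => mul_mem (c.Umem l) (IntermediateField.algebraMap_mem _ _))
        (sum_mem fun l _ => mul_mem (c.Umem l) (IntermediateField.algebraMap_mem _ _))
  obtain ⟨c2, hc2⟩ := exists_dctx c1 hdev
  refine ⟨c2, ?_⟩
  have h1 := c2.hU 3
  rw [hc2, hu' 3] at h1
  have h2 : ∑ j, c.U j * algebraMap k Ω (T' j 3) = 0 := by
    rw [← hUv]
    exact Finset.sum_congr rfl fun j _ => by rw [hT3 j]
  rw [h2, mul_zero] at h1
  exact (mul_eq_zero.1 h1.symm).resolve_left c2.uj0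

theorem exists_fctx_cone (h : c.U 3 = 0) :
    ∃ c' : FCtx k Ω, c'.toDCtx = c ∧ c'.B = ![0, 0, 0, 1] ∧ c'.q = 0 ∧ c'.p 1 = 0 := by
  obtain ⟨dt, hdt⟩ := e2_exists_der c.τk
  have hU1 : ∀ i, dt (c.U i) = c.U1 i := fun i => by rw [c.DU, hdt, mul_one]
  have hU2 : ∀ i, dt (c.U1 i) = c.U2 i := fun i => by rw [c.DU1, hdt, mul_one]
  have h1 : c.U1 3 = 0 := by rw [← hU1, h, map_zero]
  have h2 : c.U2 3 = 0 := by rw [← hU2, h1, map_zero]
  have hli : LinearIndependent k (fun i : Fin 3 => c.U i.castSucc) := by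
    by_contra hcon
    rw [Fintype.linearIndependent_iff] at hcon
    push Not at hcon
    obtain ⟨g, hg, i, hi⟩ := hcon
    let v : Fin 4 → k := Fin.snoc g 0
    let w : Fin 4 → k := Fin.snoc 0 1
    refine c.span3 v w ?_ ⟨?_, ?_⟩
    · rw [LinearIndependent.pair_iff]
      intro s t hst
      have h3 := congrFun hst (Fin.last 3)
      have h4 := congrFun hst i.castSucc
      simp only [v, w, Pi.add_apply, Pi.smul_apply, smul_eq_mul, Fin.snoc_last, Fin.snoc_castSucc,
        Pi.zero_apply, mul_zero, mul_one, zero_add, add_zero] at h3 h4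
      exact ⟨(mul_eq_zero.1 h4).resolve_right hi, h3⟩
    · rw [Fin.sum_univ_castSucc]
      simp only [v, Fin.snoc_last, Fin.snoc_castSucc, map_zero, mul_zero, add_zero]
      rw [← hg]
      refine Finset.sum_congr rfl fun i _ => ?_
      rw [Algebra.smul_def, mul_comm]
    · rw [Fin.sum_univ_castSucc]
      simp only [w, Fin.snoc_last, Fin.snoc_castSucc, Pi.zero_apply, map_zero, mul_zero,
        Finset.sum_const_zero, zero_add, map_one, mul_one]
      exact h
  have hW := wronskian_ne_zero c.τk dt hdt (fun i : Fin 3 => c.Umem i.castSucc) hli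
  have hf3 := Matrix.linearIndependent_rows_of_det_ne_zero hW
  have hf : LinearIndependent Ω ![c.U, c.U1, c.U2, ![0, 0, 0, 1]] := by
    rw [Fintype.linearIndependent_iff] at hf3 ⊢
    intro g hg
    rw [Fin.sum_univ_four] at hg
    simp only [Matrix.cons_val_zero, Matrix.cons_val_one, Matrix.cons_val] at hg
    have h3 := congrFun hg 3
    simp only [Pi.add_apply, Pi.smul_apply, smul_eq_mul, h, h1, h2, mul_zero, zero_add,
      Pi.zero_apply, Matrix.cons_val, mul_one] at h3
    have h4 := hf3 (![g 0, g 1, g 2]) (by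
      rw [Fin.sum_univ_three]
      funext j
      have h5 := congrFun hg j.castSucc
      have h6 : (![0, 0, 0, 1] : Fin 4 → Ω) j.castSucc = 0 := by
        fin_cases j <;> rfl
      simp only [Pi.add_apply, Pi.smul_apply, smul_eq_mul, h6, mul_zero, add_zero,
        Pi.zero_apply] at h5
      simp only [Pi.add_apply, Pi.smul_apply, smul_eq_mul, Pi.zero_apply, Matrix.cons_val_zero,
        Matrix.cons_val_one, Matrix.cons_val]
      change g 0 * c.U j.castSucc + g 1 * dt (c.U j.castSucc) + g 2 * dt (dt (c.U j.castSucc)) = 0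
      rw [hU1, hU2]
      exact h5)
    intro i
    fin_cases i
    · exact h4 0
    · exact h4 1
    · exact h4 2
    · exact h3
  obtain ⟨c', rfl, hB⟩ := c.e2_core ![0, 0, 0, 1] (by
    intro i
    fin_cases i
    · exact zero_mem _
    · exact zero_mem _
    · exact zero_mem _
    · exact one_mem _) hf
  refine ⟨c', rfl, hB, ?_, ?_⟩
  · apply e2_unique c'
    intro j
    have h3 := c'.DB dt j
    rw [hdt, mul_one] at h3
    rw [← h3, hB]
    simp only [Pi.zero_apply, zero_mul, add_zero]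
    fin_cases j
    · exact map_zero dt
    · exact map_zero dt
    · exact map_zero dt
    · exact dt.map_one_eq_zero
  · have h3 := c'.DU2 dt 3
    rw [h, h1, h2, hB, map_zero, hdt] at h3
    simp only [Matrix.cons_val, mul_zero, mul_one, zero_add, add_zero] at h3
    exact h3.symm
end DCtx
end Pool.Agent.HDP
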