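import Mathlib
import Pool.Agent.Lib.MP_20906e_al.Defs
import Pool.Agent.Lib.MP_20906e_al.Ctx
import Pool.Agent.Lib.MP_20906e_al.DCtx
import Pool.Agent.Lib.MP_20906e_al.Acl
import Pool.Agent.Lib.MP_20906e_al.Der
import Pool.Agent.Lib.MP_20906e_al.B2a

/-!
# MP_20906e_al, piece E3: the second and third contact functions are in `L` (helper15)
-/

set_option linter.unusedSectionVars false

namespace Pool.Agent.HDP
open MvPolynomial

variable {k Ω : Type*} [Field k] [IsAlgClosed k] [CharZero k] [Field Ω] [IsAlgClosed Ω] [Algebra k Ω]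

namespace FCtx
variable (c : FCtx k Ω)

private theorem e3_charZero (k Ω : Type*) [Field k] [CharZero k] [Field Ω] [Algebra k Ω] : CharZero Ω :=
  charZero_of_injective_algebraMap (algebraMap k Ω).injective

private theorem e3_mem {z : Ω} (hz : z ∈ acl k ({c.τ} : Set Ω)) : z ∈ c.L :=
  acl_le_iff.2 (Set.singleton_subset_iff.2 c.τL) hz

private theorem e3_kill (D : Derivation k Ω Ω) (hD : D c.τ = 0) {z : Ω}
    (hz : z ∈ acl k ({c.τ} : Set Ω)) : D z = 0 :=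
  der_acl_zero D (S := {c.τ}) (by rintro _ rfl; exact hD) z hz

private theorem e3_mul (D : Derivation k Ω Ω) (a b : Ω) : D (a * b) = D a * b + a * D b := by
  rw [Derivation.leibniz, smul_eq_mul, smul_eq_mul]; ring

private theorem e3_sum (D : Derivation k Ω Ω) (v z w : Fin 4 → Ω) (t : Ω)
    (h : ∀ i, D (v i) = w i * t) :
    D (∑ i, v i * z i) = ∑ i, v i * D (z i) + (∑ i, w i * z i) * t := by
  rw [map_sum, Finset.sum_mul, ← Finset.sum_add_distrib]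
  refine Finset.sum_congr rfl fun i _ => ?_
  rw [e3_mul, h i]; ring

private theorem e3_sum3 (a b d e : Ω) (u v w s z : Fin 4 → Ω) :
    ∑ i, (a * u i + b * v i + d * w i + e * s i) * z i
      = a * ∑ i, u i * z i + b * ∑ i, v i * z i + d * ∑ i, w i * z i + e * ∑ i, s i * z i := by
  simp only [Finset.mul_sum, ← Finset.sum_add_distrib]
  refine Finset.sum_congr rfl fun i _ => ?_
  ring

/-! ### derivatives of the four contact sums -/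

private theorem e3_Dg (D : Derivation k Ω Ω) :
    D c.g = ∑ i, c.U i * D (c.x i) + c.N1 * D c.τ := by
  rw [DCtx.g, DCtx.N1]
  exact e3_sum D c.U c.x c.U1 (D c.τ) (c.DU D)

private theorem e3_DN1 (D : Derivation k Ω Ω) :
    D c.N1 = ∑ i, c.U1 i * D (c.x i) + c.N2 * D c.τ := by
  rw [DCtx.N1, DCtx.N2]
  exact e3_sum D c.U1 c.x c.U2 (D c.τ) (c.DU1 D)

private theorem e3_DN2 (D : Derivation k Ω Ω) :
    D c.N2 = ∑ i, c.U2 i * D (c.x i)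
      + (c.p 0 * c.N2 + c.p 1 * c.N3 + c.p 2 * c.N1 + c.p 3 * c.g) * D c.τ := by
  rw [DCtx.N1, DCtx.N2, FCtx.N3, DCtx.g]
  rw [e3_sum D c.U2 c.x _ (D c.τ) (c.DU2 D), e3_sum3]

private theorem e3_DN3 (D : Derivation k Ω Ω) :
    D c.N3 = ∑ i, c.B i * D (c.x i)
      + (c.q 0 * c.N2 + c.q 1 * c.N3 + c.q 2 * c.N1 + c.q 3 * c.g) * D c.τ := by
  rw [DCtx.N1, DCtx.N2, FCtx.N3, DCtx.g]
  rw [e3_sum D c.B c.x _ (D c.τ) (c.DB D), e3_sum3]

private theorem e3_Uy (D : Derivation k Ω Ω) : ∑ i, c.U i * D (c.y i) = 0 := by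
  have h := e3_sum D c.U c.y c.U1 (D c.τ) (c.DU D)
  rw [c.Uy, c.U1y, map_zero] at h
  linear_combination -h

private theorem e3_U1y (D : Derivation k Ω Ω) : ∑ i, c.U1 i * D (c.y i) = - (c.a * D c.τ) := by
  have h := e3_sum D c.U1 c.y c.U2 (D c.τ) (c.DU1 D)
  rw [c.U1y, c.U2y, map_zero] at h
  linear_combination -h

private theorem e3_U2y (D : Derivation k Ω Ω) :
    ∑ i, c.U2 i * D (c.y i) = D c.a - c.mu1 * D c.τ := by
  have h := e3_sum D c.U2 c.y _ (D c.τ) (c.DU2 D)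
  rw [e3_sum3, c.U1y, c.U2y, c.Uy, c.By] at h
  rw [FCtx.mu1]
  linear_combination -h

private theorem e3_By (D : Derivation k Ω Ω) :
    ∑ i, c.B i * D (c.y i) = D c.bb - c.mu2 * D c.τ := by
  have h := e3_sum D c.B c.y _ (D c.τ) (c.DB D)
  rw [e3_sum3, c.U1y, c.U2y, c.Uy, c.By] at h
  rw [FCtx.mu2]
  linear_combination -h

/-! ### membership -/

private theorem e3_g : c.g ∈ c.L := by
  rw [Ctx3.mem_L_iff, e3_Dg]
  simp only [c.Wx]
  rw [e3_Uy, (c.mem_L_iff c.τ).1 c.τL]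
  ring

private theorem e3_a : c.a ∈ c.L := by
  rw [← c.U2y]
  exact sum_mem fun i _ => mul_mem (c.e3_mem (c.U2mem i)) (c.y_mem i)

private theorem e3_b : c.bb ∈ c.L := by
  rw [← c.By]
  exact sum_mem fun i _ => mul_mem (c.e3_mem (c.Bmem i)) (c.y_mem i)

private theorem e3_mu1 : c.mu1 ∈ c.L :=
  add_mem (mul_mem (c.e3_mem (c.pmem 0)) c.e3_a) (mul_mem (c.e3_mem (c.pmem 1)) c.e3_b)

private theorem e3_mu2 : c.mu2 ∈ c.L :=
  add_mem (mul_mem (c.e3_mem (c.qmem 0)) c.e3_a) (mul_mem (c.e3_mem (c.qmem 1)) c.e3_b)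

private theorem e3_D0_mem {f : Ω} (hf : f ∈ c.L) : c.D0 f ∈ c.L :=
  add_mem (add_mem (c.DL f hf).1 (mul_mem c.e3_mu1 (c.DL f hf).2.1))
    (mul_mem c.e3_mu2 (c.DL f hf).2.2)

/-! ### the algebra of `D0` -/

private theorem e3_D0_mul (f h : Ω) : c.D0 (f * h) = c.D0 f * h + f * c.D0 h := by
  unfold FCtx.D0
  rw [e3_mul, e3_mul, e3_mul]; ring

private theorem e3_D0_a : c.D0 c.a = c.mu1 := by
  unfold FCtx.D0
  obtain ⟨-, h1, -, -, h2, -, -, h3, -⟩ := c.dual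
  rw [h1, h2, h3]; ring

private theorem e3_D0_b : c.D0 c.bb = c.mu2 := by
  unfold FCtx.D0
  obtain ⟨-, -, h1, -, -, h2, -, -, h3⟩ := c.dual
  rw [h1, h2, h3]; ring

private theorem e3_mu_der : c.Da c.mu1 = c.p 0 ∧ c.Db c.mu1 = c.p 1 ∧ c.Da c.mu2 = c.q 0 ∧
    c.Db c.mu2 = c.q 1 := by
  obtain ⟨-, -, -, h1, h2, h3, h4, h5, h6⟩ := c.dual
  unfold FCtx.mu1 FCtx.mu2
  refine ⟨?_, ?_, ?_, ?_⟩
  · rw [map_add, e3_mul, e3_mul, c.e3_kill c.Da h1 (c.pmem 0), c.e3_kill c.Da h1 (c.pmem 1), h2, h3]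
    ring
  · rw [map_add, e3_mul, e3_mul, c.e3_kill c.Db h4 (c.pmem 0), c.e3_kill c.Db h4 (c.pmem 1), h5, h6]
    ring
  · rw [map_add, e3_mul, e3_mul, c.e3_kill c.Da h1 (c.qmem 0), c.e3_kill c.Da h1 (c.qmem 1), h2, h3]
    ring
  · rw [map_add, e3_mul, e3_mul, c.e3_kill c.Db h4 (c.qmem 0), c.e3_kill c.Db h4 (c.qmem 1), h5, h6]
    ring

/-- `Da (D0 f) = D0 (Da f) + p0 Da f + q0 Db f` on `L` -/
private theorem e3_Da_D0 {f : Ω} (hf : f ∈ c.L) :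
    c.Da (c.D0 f) = c.D0 (c.Da f) + c.p 0 * c.Da f + c.q 0 * c.Db f := by
  obtain ⟨h1, h2, h3, h4⟩ := c.e3_mu_der
  obtain ⟨h5, h6, h7⟩ := c.comm f hf
  unfold FCtx.D0
  rw [map_add, map_add, e3_mul, e3_mul, h1, h3, h5, h7]
  ring

private theorem e3_Db_D0 {f : Ω} (hf : f ∈ c.L) :
    c.Db (c.D0 f) = c.D0 (c.Db f) + c.p 1 * c.Da f + c.q 1 * c.Db f := by
  obtain ⟨h1, h2, h3, h4⟩ := c.e3_mu_der
  obtain ⟨h5, h6, h7⟩ := c.comm f hf
  unfold FCtx.D0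
  rw [map_add, map_add, e3_mul, e3_mul, h2, h4, h6, h7]
  ring

/-- the chain rule in the form with `D0` -/
private theorem e3_chain (D : Derivation k Ω Ω) {f : Ω} (hf : f ∈ c.L) :
    D f = c.D0 f * D c.τ + c.Da f * (D c.a - c.mu1 * D c.τ) + c.Db f * (D c.bb - c.mu2 * D c.τ) := by
  rw [c.chain D f hf]
  unfold FCtx.D0
  ring

private theorem e3_Ea : c.E c.a = (c.d : Ω) * c.a := by
  have h := c.e3_U2y c.E
  rw [c.Eτ] at h
  simp only [c.Ey] at h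
  have h1 : ∑ i, c.U2 i * ((c.d : Ω) * c.y i) = (c.d : Ω) * ∑ i, c.U2 i * c.y i := by
    rw [Finset.mul_sum]
    exact Finset.sum_congr rfl fun i _ => by ring
  rw [h1, c.U2y] at h
  linear_combination -h

private theorem e3_Eb : c.E c.bb = (c.d : Ω) * c.bb := by
  have h := c.e3_By c.E
  rw [c.Eτ] at h
  simp only [c.Ey] at h
  have h1 : ∑ i, c.B i * ((c.d : Ω) * c.y i) = (c.d : Ω) * ∑ i, c.B i * c.y i := by
    rw [Finset.mul_sum]
    exact Finset.sum_congr rfl fun i _ => by ring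
  rw [h1, c.By] at h
  linear_combination -h

private theorem e3_d0 : (c.d : Ω) ≠ 0 := by
  have := e3_charZero k Ω
  have h := c.hd
  exact Nat.cast_ne_zero.2 (by omega)

private theorem e3_chainE {f : Ω} (hf : f ∈ c.L) :
    c.E f = (c.d : Ω) * (c.a * c.Da f + c.bb * c.Db f) := by
  rw [c.chain c.E f hf, c.Eτ, c.e3_Ea, c.e3_Eb]
  ring

theorem homog_L {f : Ω} (hf : f ∈ c.L) {m : Ω} (hE : c.E f = m * f) :
    c.a * c.Da f + c.bb * c.Db f = m / (c.d : Ω) * f := by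
  have h := c.e3_d0
  rw [c.e3_chainE hf] at hE
  field_simp
  linear_combination hE

private theorem e3_Eg : c.E c.g = c.g := by
  rw [c.e3_Dg, c.Eτ]
  simp only [c.Ex]
  rw [DCtx.g]; ring

private theorem e3_EN1 : c.E c.N1 = c.N1 := by
  rw [c.e3_DN1, c.Eτ]
  simp only [c.Ex]
  rw [DCtx.N1]; ring

private theorem e3_EN2 : c.E c.N2 = c.N2 := by
  rw [c.e3_DN2, c.Eτ]
  simp only [c.Ex]
  rw [DCtx.N2]; ring

private theorem e3_EN3 : c.E c.N3 = c.N3 := by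
  rw [c.e3_DN3, c.Eτ]
  simp only [c.Ex]
  rw [FCtx.N3]; ring

/-- relation (2'): `a (N1 - n0) V τ = a g_a (V a - mu1 V τ) + ...` -/
private theorem e3_two (D : Derivation k Ω Ω) (hD : ∑ i, c.U i * D (c.x i) = 0) :
    (c.N1 - c.n0) * D c.τ = c.Da c.g * (D c.a - c.mu1 * D c.τ) + c.Db c.g * (D c.bb - c.mu2 * D c.τ) := by
  have h1 := c.e3_Dg D
  rw [hD, c.e3_chain D c.e3_g] at h1
  unfold FCtx.n0
  linear_combination -h1

private theorem e3_V2 : ∑ i, c.U i * c.V2 (c.x i) = 0 := by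
  simp only [c.V2x]; exact c.e3_Uy c.V1

private theorem e3_V1 : ∑ i, c.U i * c.V1 (c.x i) = 0 := by
  simp only [c.V1x]; exact c.e3_Uy c.Z0

private theorem e3_WN1 : c.W c.N1 = - (c.a * c.V2 c.τ) := by
  rw [c.e3_DN1, (c.mem_L_iff c.τ).1 c.τL]
  simp only [c.Wx]
  rw [c.e3_U1y]; ring

private theorem e3_WN2 : c.W c.N2 = c.V2 c.a - c.mu1 * c.V2 c.τ := by
  rw [c.e3_DN2, (c.mem_L_iff c.τ).1 c.τL]
  simp only [c.Wx]
  rw [c.e3_U2y]; ring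

private theorem e3_WN3 : c.W c.N3 = c.V2 c.bb - c.mu2 * c.V2 c.τ := by
  rw [c.e3_DN3, (c.mem_L_iff c.τ).1 c.τL]
  simp only [c.Wx]
  rw [c.e3_By]; ring

private theorem e3_V2N1 : c.V2 c.N1 = - (c.a * c.V1 c.τ) + c.N2 * c.V2 c.τ := by
  rw [c.e3_DN1]
  simp only [c.V2x]
  rw [c.e3_U1y]

private theorem e3_V2N2 : c.V2 c.N2 = (c.V1 c.a - c.mu1 * c.V1 c.τ)
    + (c.p 0 * c.N2 + c.p 1 * c.N3 + c.p 2 * c.N1 + c.p 3 * c.g) * c.V2 c.τ := by
  rw [c.e3_DN2]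
  simp only [c.V2x]
  rw [c.e3_U2y]

private theorem e3_V2N3 : c.V2 c.N3 = (c.V1 c.bb - c.mu2 * c.V1 c.τ)
    + (c.q 0 * c.N2 + c.q 1 * c.N3 + c.q 2 * c.N1 + c.q 3 * c.g) * c.V2 c.τ := by
  rw [c.e3_DN3]
  simp only [c.V2x]
  rw [c.e3_By]

private theorem e3_n0 : c.n0 ∈ c.L := c.e3_D0_mem c.e3_g

private theorem e3_nat (D : Derivation k Ω Ω) (n : ℕ) (hn : n ≠ 0) (z : Ω) :
    D (z / (n : Ω)) = D z / (n : Ω) := by
  have := e3_charZero k Ω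
  have hn' : (n : Ω) ≠ 0 := Nat.cast_ne_zero.2 hn
  have h : D z = (n : Ω) * D (z / (n : Ω)) := by
    have h1 : z = (n : Ω) * (z / (n : Ω)) := by field_simp
    conv_lhs => rw [h1]
    rw [e3_mul, Derivation.map_natCast]; ring
  rw [h]; field_simp

private theorem e3_div2 (D : Derivation k Ω Ω) (z : Ω) : D (z / 2) = D z / 2 := by
  have h := e3_nat D 2 (by norm_num) z
  exact_mod_cast h

private theorem e3_div3 (D : Derivation k Ω Ω) (z : Ω) : D (z / 3) = D z / 3 := by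
  have h := e3_nat D 3 (by norm_num) z
  exact_mod_cast h

private theorem e3_sq (D : Derivation k Ω Ω) (z : Ω) : D (z ^ 2) = 2 * z * D z := by
  rw [pow_two, e3_mul]; ring

private theorem e3_cube (D : Derivation k Ω Ω) (z : Ω) : D (z ^ 3) = 3 * z ^ 2 * D z := by
  rw [show z ^ 3 = z * z ^ 2 by ring, e3_mul, e3_sq]; ring

/-- derivative of `EE` -/
private theorem e3_DEE (D : Derivation k Ω Ω) : D c.EE =
    c.N1 * D c.N1 - D c.n0 * c.N1 - c.n0 * D c.N1 + D (c.a * c.Da c.g) * c.N2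
      + c.a * c.Da c.g * D c.N2 + D (c.a * c.Db c.g) * c.N3 + c.a * c.Db c.g * D c.N3 := by
  have := e3_charZero k Ω
  have h2 : (2 : Ω) ≠ 0 := two_ne_zero
  rw [FCtx.EE, map_add, map_add, map_sub, e3_div2, e3_sq, e3_mul D c.n0, e3_mul D (c.a * c.Da c.g),
    e3_mul D (c.a * c.Db c.g)]
  field_simp
  ring

theorem EE_mem : c.EE ∈ c.L := by
  have hW : ∀ f ∈ c.L, c.W f = 0 := fun f hf => (c.mem_L_iff f).1 hf
  rw [Ctx3.mem_L_iff, c.e3_DEE, hW _ c.e3_n0, hW _ (mul_mem c.e3_a (c.DL _ c.e3_g).2.1),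
    hW _ (mul_mem c.e3_a (c.DL _ c.e3_g).2.2), c.e3_WN1, c.e3_WN2, c.e3_WN3]
  have h := c.e3_two c.V2 c.e3_V2
  linear_combination (-c.a) * h

private theorem e3_En0 : c.E c.n0 = c.n0 := by
  rw [c.e3_chainE c.e3_n0]
  have h1 := c.e3_Da_D0 c.e3_g
  have h2 := c.e3_Db_D0 c.e3_g
  have h3 : c.a * c.Da c.g + c.bb * c.Db c.g = c.g / (c.d : Ω) := by
    have := c.homog_L c.e3_g (m := 1) (by rw [c.e3_Eg]; ring)
    rw [this]; ring
  have h4 : c.D0 (c.a * c.Da c.g + c.bb * c.Db c.g) = c.n0 / (c.d : Ω) := by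
    rw [h3]
    unfold FCtx.n0 FCtx.D0
    rw [e3_nat _ _ (by have := c.hd; omega), e3_nat _ _ (by have := c.hd; omega),
      e3_nat _ _ (by have := c.hd; omega)]
    ring
  have h5 : c.D0 (c.a * c.Da c.g + c.bb * c.Db c.g) =
      c.mu1 * c.Da c.g + c.a * c.D0 (c.Da c.g) + (c.mu2 * c.Db c.g + c.bb * c.D0 (c.Db c.g)) := by
    have h6 : ∀ f h, c.D0 (f + h) = c.D0 f + c.D0 h := by
      intro f h; unfold FCtx.D0; rw [map_add, map_add, map_add]; ring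
    rw [h6, c.e3_D0_mul, c.e3_D0_mul, c.e3_D0_a, c.e3_D0_b]
  rw [h4] at h5
  have hd := c.e3_d0
  have h7 : c.a * c.Da c.n0 + c.bb * c.Db c.n0 = c.n0 / (c.d : Ω) := by
    rw [h5, show c.n0 = c.D0 c.g from rfl, h1, h2]
    unfold FCtx.mu1 FCtx.mu2
    ring
  rw [h7]; field_simp

private theorem e3_Ega : c.E (c.a * c.Da c.g) = c.a * c.Da c.g := by
  have hd := c.e3_d0
  obtain ⟨-, -, -, h1, h2, h3, h4, h5, h6⟩ := c.dual
  have h7 : c.a * c.Da c.g + c.bb * c.Db c.g = c.g / (c.d : Ω) := by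
    have := c.homog_L c.e3_g (m := 1) (by rw [c.e3_Eg]; ring)
    rw [this]; ring
  have h8 := congrArg c.Da h7
  rw [map_add, e3_mul, e3_mul, e3_nat _ _ (by have := c.hd; omega), h2, h3,
    (c.comm _ c.e3_g).2.2] at h8
  rw [e3_mul, c.e3_Ea, c.e3_chainE (c.DL _ c.e3_g).2.1]
  field_simp at h8
  linear_combination c.a * h8

private theorem e3_Egb : c.E (c.a * c.Db c.g) = c.a * c.Db c.g := by
  have hd := c.e3_d0
  obtain ⟨-, -, -, h1, h2, h3, h4, h5, h6⟩ := c.dual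
  have h7 : c.a * c.Da c.g + c.bb * c.Db c.g = c.g / (c.d : Ω) := by
    have := c.homog_L c.e3_g (m := 1) (by rw [c.e3_Eg]; ring)
    rw [this]; ring
  have h8 := congrArg c.Db h7
  rw [map_add, e3_mul, e3_mul, e3_nat _ _ (by have := c.hd; omega), h5, h6,
    ← (c.comm _ c.e3_g).2.2] at h8
  rw [e3_mul, c.e3_Ea, c.e3_chainE (c.DL _ c.e3_g).2.2]
  field_simp at h8
  linear_combination c.a * h8

theorem E_EE : c.E c.EE = 2 * c.EE := by
  have := e3_charZero k Ω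
  have h2 : (2 : Ω) ≠ 0 := two_ne_zero
  rw [c.e3_DEE, c.e3_En0, c.e3_Ega, c.e3_Egb, c.e3_EN1, c.e3_EN2, c.e3_EN3, FCtx.EE]
  field_simp
  ring

/-- relation (3') -/
private theorem e3_three :
    c.D0 c.EE * c.V2 c.τ + c.Da c.EE * c.W c.N2 + c.Db c.EE * c.W c.N3 =
      (c.N1 - c.n0) * c.N2 * c.V2 c.τ
      + c.a * c.Da c.g * (c.p 0 * c.N2 + c.p 1 * c.N3 + c.p 2 * c.N1 + c.p 3 * c.g) * c.V2 c.τ
      + c.a * c.Db c.g * (c.q 0 * c.N2 + c.q 1 * c.N3 + c.q 2 * c.N1 + c.q 3 * c.g) * c.V2 c.τ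
      - c.N1 * (c.D0 c.n0 * c.V2 c.τ + c.Da c.n0 * c.W c.N2 + c.Db c.n0 * c.W c.N3)
      + c.N2 * (c.D0 (c.a * c.Da c.g) * c.V2 c.τ + c.Da (c.a * c.Da c.g) * c.W c.N2
          + c.Db (c.a * c.Da c.g) * c.W c.N3)
      + c.N3 * (c.D0 (c.a * c.Db c.g) * c.V2 c.τ + c.Da (c.a * c.Db c.g) * c.W c.N2
          + c.Db (c.a * c.Db c.g) * c.W c.N3) := by
  have hch : ∀ f ∈ c.L, c.V2 f = c.D0 f * c.V2 c.τ + c.Da f * c.W c.N2 + c.Db f * c.W c.N3 := by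
    intro f hf
    rw [c.e3_chain c.V2 hf, c.e3_WN2, c.e3_WN3]
  have h1 := hch _ c.EE_mem
  have h2 := hch _ c.e3_n0
  have h3 := hch _ (mul_mem c.e3_a (c.DL _ c.e3_g).2.1)
  have h4 := hch _ (mul_mem c.e3_a (c.DL _ c.e3_g).2.2)
  have h5 := c.e3_DEE c.V2
  rw [c.e3_V2N1, c.e3_V2N2, c.e3_V2N3] at h5
  have h6 := c.e3_two c.V1 c.e3_V1
  rw [← h1, ← h2, ← h3, ← h4, h5]
  linear_combination (-c.a) * h6

theorem FF_mem : c.FF ∈ c.L := by
  have := e3_charZero k Ω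
  have hW : ∀ f ∈ c.L, c.W f = 0 := fun f hf => (c.mem_L_iff f).1 hf
  have ha := c.a0
  have h20 : (2 : Ω) ≠ 0 := two_ne_zero
  have h30 : (3 : Ω) ≠ 0 := three_ne_zero
  have hg := c.e3_g
  have hga := (c.DL _ c.e3_g).2.1
  have hgb := (c.DL _ c.e3_g).2.2
  have hEE := c.EE_mem
  -- coefficients are killed by `W`
  have k1 := hW _ (c.e3_D0_mem hEE)
  have k2 := hW _ (c.e3_D0_mem c.e3_n0)
  have k3 := hW _ (mul_mem c.e3_a hga)
  have k4 := hW _ (mul_mem c.e3_a hgb)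
  have k5 := hW _ (c.e3_D0_mem (mul_mem c.e3_a hga))
  have k6 := hW _ (c.e3_D0_mem (mul_mem c.e3_a hgb))
  have k7 := hW _ (div_mem c.e3_mu1 c.e3_a)
  have k8 := hW _ c.e3_n0
  have k9 := hW _ (mul_mem c.e3_a (c.DL _ hEE).2.1)
  have k10 := hW _ (mul_mem c.e3_a (c.DL _ hEE).2.2)
  have k11 : c.W (c.a / 2) = 0 := by rw [e3_div2, hW _ c.e3_a, zero_div]
  have hag : c.a * c.g ∈ c.L := mul_mem c.e3_a hg
  have k12 := hW _ (c.DL _ (c.DL _ hag).2.1).2.1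
  have k13 := hW _ (c.DL _ (c.DL _ hag).2.2).2.1
  have k14 := hW _ (c.DL _ (c.DL _ hag).2.2).2.2
  have k15 := hW _ hg
  have kp : ∀ i, c.W (c.p i) = 0 := fun i => hW _ (c.e3_mem (c.pmem i))
  have kq : ∀ i, c.W (c.q i) = 0 := fun i => hW _ (c.e3_mem (c.qmem i))
  have k16 : c.W 2 = 0 := by
    have := Derivation.map_natCast c.W 2
    exact_mod_cast this
  rw [Ctx3.mem_L_iff, FCtx.FF]
  -- expand
  have e1 : c.W (c.D0 c.EE * c.N1) = c.D0 c.EE * c.W c.N1 := by rw [e3_mul, k1]; ring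
  have e2 : c.W (c.D0 c.n0 * c.N1 ^ 2 / 2) = c.D0 c.n0 * c.N1 * c.W c.N1 := by
    rw [e3_div2, e3_mul, k2, e3_sq]; field_simp; ring
  have e3 : c.W (c.a * c.Da c.g * (c.p 0 * c.N1 * c.N2 + c.p 1 * c.N1 * c.N3 + c.p 2 * c.N1 ^ 2 / 2
      + c.p 3 * c.g * c.N1)) = c.a * c.Da c.g * (c.p 0 * (c.W c.N1 * c.N2 + c.N1 * c.W c.N2)
        + c.p 1 * (c.W c.N1 * c.N3 + c.N1 * c.W c.N3) + c.p 2 * c.N1 * c.W c.N1
        + c.p 3 * c.g * c.W c.N1) := by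
    rw [e3_mul, k3, map_add, map_add, map_add, e3_div2]
    simp only [e3_mul, kp, e3_sq, k15]
    field_simp; ring
  have e4 : c.W (c.a * c.Db c.g * (c.q 0 * c.N1 * c.N2 + c.q 1 * c.N1 * c.N3 + c.q 2 * c.N1 ^ 2 / 2
      + c.q 3 * c.g * c.N1)) = c.a * c.Db c.g * (c.q 0 * (c.W c.N1 * c.N2 + c.N1 * c.W c.N2)
        + c.q 1 * (c.W c.N1 * c.N3 + c.N1 * c.W c.N3) + c.q 2 * c.N1 * c.W c.N1
        + c.q 3 * c.g * c.W c.N1) := by
    rw [e3_mul, k4, map_add, map_add, map_add, e3_div2]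
    simp only [e3_mul, kq, e3_sq, k15]
    field_simp; ring
  have e5 : c.W (c.D0 (c.a * c.Da c.g) * c.N1 * c.N2)
      = c.D0 (c.a * c.Da c.g) * (c.W c.N1 * c.N2 + c.N1 * c.W c.N2) := by
    rw [e3_mul, e3_mul, k5]; ring
  have e6 : c.W (c.D0 (c.a * c.Db c.g) * c.N1 * c.N3)
      = c.D0 (c.a * c.Db c.g) * (c.W c.N1 * c.N3 + c.N1 * c.W c.N3) := by
    rw [e3_mul, e3_mul, k6]; ring
  have e7 : c.W (c.mu1 / c.a * (c.N1 ^ 3 / 3 - c.n0 * c.N1 ^ 2 / 2))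
      = c.mu1 / c.a * ((c.N1 - c.n0) * c.N1 * c.W c.N1) := by
    rw [e3_mul, k7, map_sub, e3_div3, e3_div2, e3_cube, e3_mul c.W c.n0, k8, e3_sq]
    field_simp; ring
  have e8 : c.W (c.a * c.Da c.EE * c.N2) = c.a * c.Da c.EE * c.W c.N2 := by rw [e3_mul, k9]; ring
  have e9 : c.W (c.a * c.Db c.EE * c.N3) = c.a * c.Db c.EE * c.W c.N3 := by rw [e3_mul, k10]; ring
  have e10 : c.W (c.a / 2 * (c.Da (c.Da (c.a * c.g)) * c.N2 ^ 2
      + 2 * c.Da (c.Db (c.a * c.g)) * c.N2 * c.N3 + c.Db (c.Db (c.a * c.g)) * c.N3 ^ 2))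
      = c.a * (c.Da (c.Da (c.a * c.g)) * c.N2 * c.W c.N2
        + c.Da (c.Db (c.a * c.g)) * (c.W c.N2 * c.N3 + c.N2 * c.W c.N3)
        + c.Db (c.Db (c.a * c.g)) * c.N3 * c.W c.N3) := by
    rw [e3_mul c.W (c.a / 2), k11, map_add, map_add]
    simp only [e3_mul c.W, k12, k13, k14, k16, e3_sq c.W]
    field_simp; ring
  simp only [map_add, map_sub] at e1 e2 e3 e4 e5 e6 e7 e8 e9 e10 ⊢
  rw [e1, e2, e3, e4, e5, e6, e7, e8, e9, e10]
  -- second derivatives of `a g`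
  obtain ⟨-, -, -, q1, q2, q3, q4, q5, q6⟩ := c.dual
  have s1 : c.Da (c.Da (c.a * c.g)) = c.Da c.g + c.Da (c.a * c.Da c.g) := by
    rw [e3_mul c.Da c.a c.g, q2, map_add, one_mul]
  have s2 : c.Db (c.a * c.g) = c.a * c.Db c.g := by
    rw [e3_mul c.Db c.a c.g, q5]; ring
  have s3 : c.Da (c.a * c.Db c.g) = c.Db c.g + c.Db (c.a * c.Da c.g) := by
    rw [e3_mul, e3_mul, q2, q5, (c.comm _ hg).2.2]; ring
  have s4 : c.Da c.n0 = c.D0 (c.Da c.g) + c.p 0 * c.Da c.g + c.q 0 * c.Db c.g := c.e3_Da_D0 hg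
  have s5 : c.Db c.n0 = c.D0 (c.Db c.g) + c.p 1 * c.Da c.g + c.q 1 * c.Db c.g := c.e3_Db_D0 hg
  have s6 : c.D0 (c.a * c.Da c.g) = c.mu1 * c.Da c.g + c.a * c.D0 (c.Da c.g) := by
    rw [c.e3_D0_mul, c.e3_D0_a]
  have s7 : c.D0 (c.a * c.Db c.g) = c.mu1 * c.Db c.g + c.a * c.D0 (c.Db c.g) := by
    rw [c.e3_D0_mul, c.e3_D0_a]
  have t1 := c.e3_three
  have t2 : (c.N1 - c.n0) * c.W c.N1 + c.a * c.Da c.g * c.W c.N2 + c.a * c.Db c.g * c.W c.N3 = 0 := by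
    rw [c.e3_WN1, c.e3_WN2, c.e3_WN3]
    linear_combination (-c.a) * c.e3_two c.V2 c.e3_V2
  have t3 : c.V2 c.τ = - (c.W c.N1) / c.a := by rw [c.e3_WN1]; field_simp
  rw [s2, s1]
  rw [s2] at *
  rw [t3, s3, s4, s5, s6, s7] at t1
  rw [s3, s6, s7]
  generalize c.Da (c.a * c.Da c.g) = X1 at *
  generalize c.Db (c.a * c.Da c.g) = X2 at *
  generalize c.Db (c.a * c.Db c.g) = X3 at *
  generalize c.D0 c.EE = X4 at *
  generalize c.D0 c.n0 = X5 at *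
  generalize c.Da c.EE = X6 at *
  generalize c.Db c.EE = X7 at *
  generalize c.D0 (c.Da c.g) = X8 at *
  generalize c.D0 (c.Db c.g) = X9 at *
  generalize c.Da c.g = ga at *
  generalize c.Db c.g = gb at *
  field_simp
  field_simp at t1
  linear_combination (-c.a) * t1 + (c.a * c.N2 - c.mu1 * c.N1) * t2

end FCtx

end Pool.Agent.HDP
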