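import Mathlib
import Pool.Agent.Lib.MP_20906e_al.Defs
import Pool.Agent.Lib.MP_20906e_al.Der
import Pool.Agent.Lib.MP_20906e_al.B2b
import Pool.Agent.Lib.MP_20906e_al.B3
import Pool.Agent.Lib.MP_20906e_al.Cone
import Pool.Agent.Lib.MP_20906e_al.E1a
import Pool.Agent.Lib.MP_20906e_al.E1b
import Pool.Agent.Lib.MP_20906e_al.E3

/-!
# MP_20906e_al, piece E4: directions in the developable case (helper41)
-/

namespace Pool.Agent.HDP
open MvPolynomial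

variable {k Ω : Type*} [Field k] [IsAlgClosed k] [CharZero k] [Field Ω] [IsAlgClosed Ω] [Algebra k Ω]

set_option linter.unusedSectionVars false
set_option linter.unusedVariables false

namespace FCtx
variable (c : FCtx k Ω)

/-! ### basic facts -/

theorem e4_charZero (c : FCtx k Ω) : CharZero Ω :=
  charZero_of_injective_algebraMap (algebraMap k Ω).injective

theorem e4_d_ne : (c.d : Ω) ≠ 0 := by
  have := c.e4_charZero
  have := c.hd
  exact_mod_cast (by omega : c.d ≠ 0)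

theorem e4_τ_le : acl k ({c.τ} : Set Ω) ≤ c.L := by
  show acl k ({c.τ} : Set Ω) ≤ acl k (Set.range c.y)
  rw [acl_le_iff]
  rintro _ rfl
  exact c.τL

theorem e4_a_mem : c.a ∈ c.L := (c.Lacl _).2 (subset_acl _ (by simp))

theorem e4_bb_mem : c.bb ∈ c.L := (c.Lacl _).2 (subset_acl _ (by simp))

theorem e4_kill {f : Ω} (hf : f ∈ acl k ({c.τ} : Set Ω)) (D : Derivation k Ω Ω) (hD : D c.τ = 0) :
    D f = 0 := by
  refine der_acl_zero D ?_ f hf
  rintro _ rfl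
  exact hD

theorem e4_Da_τ {f : Ω} (hf : f ∈ acl k ({c.τ} : Set Ω)) : c.Da f = 0 :=
  c.e4_kill hf _ c.dual.2.2.2.1

theorem e4_Db_τ {f : Ω} (hf : f ∈ acl k ({c.τ} : Set Ω)) : c.Db f = 0 :=
  c.e4_kill hf _ c.dual.2.2.2.2.2.2.1

theorem e4_E_τ {f : Ω} (hf : f ∈ acl k ({c.τ} : Set Ω)) : c.E f = 0 :=
  c.e4_kill hf _ c.Eτ

theorem e4_Ebb : c.E c.bb = (c.d : Ω) * c.bb := by
  rw [← c.By, map_sum, Finset.mul_sum]
  refine Finset.sum_congr rfl fun i _ => ?_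
  rw [Derivation.leibniz, smul_eq_mul, smul_eq_mul, c.e4_E_τ (c.Bmem i), c.Ey i]
  ring

/-- Euler's relation on `L` -/
theorem e4_E_L {f : Ω} (hf : f ∈ c.L) :
    c.E f = (c.d : Ω) * (c.a * c.Da f + c.bb * c.Db f) := by
  rw [c.chain c.E f hf, c.Eτ, c.toDCtx.Ea, c.e4_Ebb]
  ring

/-- `a` and `bb` are linearly independent over `acl{τ}` -/
theorem e4_lin {s t : Ω} (hs : s ∈ acl k ({c.τ} : Set Ω)) (ht : t ∈ acl k ({c.τ} : Set Ω))
    (h : s * c.a + t * c.bb = 0) : s = 0 ∧ t = 0 := by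
  have h1 := congrArg c.Da h
  have h2 := congrArg c.Db h
  simp only [map_add, Derivation.leibniz, smul_eq_mul, map_zero, c.e4_Da_τ hs, c.e4_Da_τ ht,
    c.e4_Db_τ hs, c.e4_Db_τ ht, c.dual.2.2.2.2.1, c.dual.2.2.2.2.2.1, c.dual.2.2.2.2.2.2.2.1,
    c.dual.2.2.2.2.2.2.2.2] at h1 h2
  constructor
  · linear_combination h1
  · linear_combination h2

theorem e4_a_ne : c.a ≠ 0 := c.a0

/-! ### key -/

section Key
variable {V : ValuationSubring Ω}

theorem e4_add {z w : Ω} (hz : V.valuation z < 1) (hw : V.valuation w < 1) :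
    V.valuation (z + w) < 1 := Valuation.map_add_lt _ hz hw

theorem e4_sub {z w : Ω} (hz : V.valuation z < 1) (hw : V.valuation w < 1) :
    V.valuation (z - w) < 1 := Valuation.map_sub_lt _ hz hw

theorem e4_mul {z w : Ω} (hz : z ∈ V) (hw : V.valuation w < 1) : V.valuation (z * w) < 1 := by
  rw [map_mul]
  have h1 : V.valuation z ≤ 1 := (V.valuation_le_one_iff z).2 hz
  exact lt_of_le_of_lt (mul_le_of_le_one_left' h1) hw

theorem e4_memV {z : Ω} (hz : V.valuation z < 1) : z ∈ V := (V.valuation_le_one_iff z).1 hz.le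

end Key

/-- residues of `v·x / x_{i0}` -/
theorem e4_res {V : ValuationSubring Ω} {b : Fin 4 → Ω} {i0 : Fin 4} (hb : c.IsDir V b i0)
    {v : Fin 4 → Ω} (hv : ∀ i, v i ∈ acl k ({c.τ} : Set Ω)) :
    V.valuation ((c.x i0)⁻¹ * (∑ i, v i * c.x i) - ∑ i, v i * b i) < 1 := by
  have h1 : (c.x i0)⁻¹ * (∑ i, v i * c.x i) - ∑ i, v i * b i =
      ∑ i, v i * ((c.x i0)⁻¹ * c.x i - b i) := by
    rw [Finset.mul_sum, ← Finset.sum_sub_distrib]
    refine Finset.sum_congr rfl fun i _ => ?_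
    ring
  rw [h1]
  refine Valuation.map_sum_lt _ one_ne_zero fun i _ => ?_
  exact e4_mul (hb.place _ (c.e4_τ_le (hv i))) (c.b3_res hb i)

theorem e4_form_mem {b : Fin 4 → Ω} (hb : ∀ i, b i ∈ c.L)
    {v : Fin 4 → Ω} (hv : ∀ i, v i ∈ acl k ({c.τ} : Set Ω)) : ∑ i, v i * b i ∈ c.L :=
  sum_mem fun i _ => mul_mem (c.e4_τ_le (hv i)) (hb i)

theorem e4_D0_mem {f : Ω} (hf : f ∈ c.L) : c.D0 f ∈ c.L := by
  obtain ⟨h1, h2, h3⟩ := c.DL f hf
  have hm1 : c.mu1 ∈ c.L := add_mem (mul_mem (c.e4_τ_le (c.pmem 0)) c.e4_a_mem)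
    (mul_mem (c.e4_τ_le (c.pmem 1)) c.e4_bb_mem)
  have hm2 : c.mu2 ∈ c.L := add_mem (mul_mem (c.e4_τ_le (c.qmem 0)) c.e4_a_mem)
    (mul_mem (c.e4_τ_le (c.qmem 1)) c.e4_bb_mem)
  exact add_mem (add_mem h1 (mul_mem hm1 h2)) (mul_mem hm2 h3)

theorem key {V : ValuationSubring Ω} {b : Fin 4 → Ω} {i0 : Fin 4} (hb : c.IsDir V b i0) :
    (∑ i, c.U i * b i = 0) ∧ (∑ i, c.U1 i * b i = 0) ∧
      c.Da (c.Da (c.a * c.g)) * (∑ i, c.U2 i * b i) ^ 2
      + 2 * c.Da (c.Db (c.a * c.g)) * (∑ i, c.U2 i * b i) * (∑ i, c.B i * b i)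
      + c.Db (c.Db (c.a * c.g)) * (∑ i, c.B i * b i) ^ 2 = 0 := by
  have hCZ := c.e4_charZero
  have hX := c.b3_x0_ne hb
  have hw := c.b3_inv_lt hb
  have hLV : ∀ {f : Ω}, f ∈ c.L → f ∈ V := fun hf => hb.place _ hf
  have r0 := c.e4_res hb c.Umem
  have r1 := c.e4_res hb c.U1mem
  have r2 := c.e4_res hb c.U2mem
  have r3 := c.e4_res hb c.Bmem
  have b0 := c.e4_form_mem hb.mem c.Umem
  have b1 := c.e4_form_mem hb.mem c.U1mem
  have b2 := c.e4_form_mem hb.mem c.U2mem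
  have b3 := c.e4_form_mem hb.mem c.Bmem
  rw [show ∑ i, c.U i * c.x i = c.g from rfl] at r0
  rw [show ∑ i, c.U1 i * c.x i = c.N1 from rfl] at r1
  rw [show ∑ i, c.U2 i * c.x i = c.N2 from rfl] at r2
  rw [show ∑ i, c.B i * c.x i = c.N3 from rfl] at r3
  set β := ∑ i, c.U i * b i with hβ
  set β1 := ∑ i, c.U1 i * b i with hβ1
  set β2 := ∑ i, c.U2 i * b i with hβ2
  set β3 := ∑ i, c.B i * b i with hβ3
  set X := c.x i0 with hXdef
  set w := X⁻¹ with hwdef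
  have hwX : w * X = 1 := inv_mul_cancel₀ hX
  have hgL := c.toDCtx.g_mem
  -- memberships in `L`
  have hL2 : ∀ q : ℕ, ((q : Ω))⁻¹ ∈ c.L := fun q => inv_mem (natCast_mem c.L q)
  have hEE := c.EE_mem
  have hFF := c.FF_mem
  have hDg := c.DL _ hgL
  have hDE := c.DL _ hEE
  have hag : c.a * c.g ∈ c.L := mul_mem c.e4_a_mem hgL
  have hDag := c.DL _ hag
  have hDDa := c.DL _ hDag.2.1
  have hDDb := c.DL _ hDag.2.2
  have hA1 : c.a * c.Da c.g ∈ c.L := mul_mem c.e4_a_mem hDg.2.1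
  have hA2 : c.a * c.Db c.g ∈ c.L := mul_mem c.e4_a_mem hDg.2.2
  have hn0 : c.n0 ∈ c.L := c.e4_D0_mem hgL
  have hm1 : c.mu1 ∈ c.L := add_mem (mul_mem (c.e4_τ_le (c.pmem 0)) c.e4_a_mem)
    (mul_mem (c.e4_τ_le (c.pmem 1)) c.e4_bb_mem)
  -- `β = 0`
  have hwg : V.valuation (w * c.g) < 1 := by
    rw [mul_comm]; exact e4_mul (hLV hgL) hw
  have hβ0 : β = 0 := by
    refine c.b3_L_zero hb.place b0 ?_
    have := e4_sub hwg r0
    have e : w * c.g - (w * c.g - β) = β := by ring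
    rwa [e] at this
  -- the normalised quantities
  have v1 : w * c.N1 ∈ V := by
    have := add_mem (e4_memV r1) (hLV b1)
    rwa [sub_add_cancel] at this
  have v2 : w * c.N2 ∈ V := by
    have := add_mem (e4_memV r2) (hLV b2)
    rwa [sub_add_cancel] at this
  have v3 : w * c.N3 ∈ V := by
    have := add_mem (e4_memV r3) (hLV b3)
    rwa [sub_add_cancel] at this
  have vw : w ∈ V := e4_memV hw
  have hEdef : c.EE = c.N1 ^ 2 / 2 - c.n0 * c.N1 + c.a * c.Da c.g * c.N2 + c.a * c.Db c.g * c.N3 :=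
    rfl
  -- `β1 = 0`
  have hsq : V.valuation ((w * c.N1) ^ 2) < 1 := by
    have e : (w * c.N1) ^ 2 = (2 * (w * c.EE + c.n0 * (w * c.N1) - c.a * c.Da c.g * (w * c.N2)
        - c.a * c.Db c.g * (w * c.N3))) * w := by
      rw [hEdef]; ring
    rw [e]
    refine e4_mul ?_ hw
    exact mul_mem (hLV (ofNat_mem c.L 2)) (sub_mem (sub_mem (add_mem (mul_mem vw (hLV hEE))
      (mul_mem (hLV hn0) v1)) (mul_mem (hLV hA1) v2)) (mul_mem (hLV hA2) v3))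
  have hβ10 : β1 = 0 := by
    have h1 : V.valuation (β1 ^ 2) < 1 := by
      have e : β1 ^ 2 = (w * c.N1) ^ 2 - (w * c.N1 + β1) * (w * c.N1 - β1) := by ring
      rw [e]
      exact e4_sub hsq (e4_mul (add_mem v1 (hLV b1)) r1)
    exact pow_eq_zero_iff (two_ne_zero) |>.1 (c.b3_L_zero hb.place (pow_mem b1 2) h1)
  have m1 : V.valuation (w * c.N1) < 1 := by
    rw [hβ10, sub_zero] at r1; exact r1
  have v11 : w * c.N1 ^ 2 ∈ V := by
    have e : w * c.N1 ^ 2 = 2 * (w * c.EE + c.n0 * (w * c.N1) - c.a * c.Da c.g * (w * c.N2)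
        - c.a * c.Db c.g * (w * c.N3)) := by
      rw [hEdef]; ring
    rw [e]
    exact mul_mem (hLV (ofNat_mem c.L 2)) (sub_mem (sub_mem (add_mem (mul_mem vw (hLV hEE))
      (mul_mem (hLV hn0) v1)) (mul_mem (hLV hA1) v2)) (mul_mem (hLV hA2) v3))
  refine ⟨hβ0, hβ10, ?_⟩
  -- the third contact function
  set S1 : Ω := c.D0 c.EE * w + c.D0 c.n0 * (w * c.N1) * (2 : Ω)⁻¹
    - c.a * c.Da c.g * (c.p 0 * (w * c.N2) + c.p 1 * (w * c.N3) + c.p 2 * (w * c.N1) * (2 : Ω)⁻¹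
        + c.p 3 * (w * c.g))
    - c.a * c.Db c.g * (c.q 0 * (w * c.N2) + c.q 1 * (w * c.N3) + c.q 2 * (w * c.N1) * (2 : Ω)⁻¹
        + c.q 3 * (w * c.g))
    - c.D0 (c.a * c.Da c.g) * (w * c.N2) - c.D0 (c.a * c.Db c.g) * (w * c.N3)
    - c.mu1 * c.a⁻¹ * ((w * c.N1 ^ 2) * (3 : Ω)⁻¹ - c.n0 * (w * c.N1) * (2 : Ω)⁻¹) with hS1
  set S2 : Ω := w * c.FF + c.a * c.Da c.EE * (w * c.N2) + c.a * c.Db c.EE * (w * c.N3) with hS2
  set T : Ω := c.a / 2 * (c.Da (c.Da (c.a * c.g)) * (w * c.N2) ^ 2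
      + 2 * c.Da (c.Db (c.a * c.g)) * (w * c.N2) * (w * c.N3)
      + c.Db (c.Db (c.a * c.g)) * (w * c.N3) ^ 2) with hT
  have hFdef : c.FF = c.D0 c.EE * c.N1 + c.D0 c.n0 * c.N1 ^ 2 / 2
    - c.a * c.Da c.g * (c.p 0 * c.N1 * c.N2 + c.p 1 * c.N1 * c.N3 + c.p 2 * c.N1 ^ 2 / 2
        + c.p 3 * c.g * c.N1)
    - c.a * c.Db c.g * (c.q 0 * c.N1 * c.N2 + c.q 1 * c.N1 * c.N3 + c.q 2 * c.N1 ^ 2 / 2
        + c.q 3 * c.g * c.N1)
    - c.D0 (c.a * c.Da c.g) * c.N1 * c.N2 - c.D0 (c.a * c.Db c.g) * c.N1 * c.N3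
    - c.mu1 / c.a * (c.N1 ^ 3 / 3 - c.n0 * c.N1 ^ 2 / 2)
    - c.a * c.Da c.EE * c.N2 - c.a * c.Db c.EE * c.N3
    + c.a / 2 * (c.Da (c.Da (c.a * c.g)) * c.N2 ^ 2 + 2 * c.Da (c.Db (c.a * c.g)) * c.N2 * c.N3
        + c.Db (c.Db (c.a * c.g)) * c.N3 ^ 2) := rfl
  have hTe : T = S2 * w - S1 * (w * c.N1) := by
    rw [hS2, hS1, hT]
    linear_combination (-w ^ 2) * hFdef
  have hS1V : S1 ∈ V := by
    have h2 : (2 : Ω)⁻¹ ∈ V := hLV (by exact_mod_cast hL2 2)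
    have h3 : (3 : Ω)⁻¹ ∈ V := hLV (by exact_mod_cast hL2 3)
    have hp : ∀ i, c.p i ∈ V := fun i => hLV (c.e4_τ_le (c.pmem i))
    have hq : ∀ i, c.q i ∈ V := fun i => hLV (c.e4_τ_le (c.qmem i))
    have vg : w * c.g ∈ V := e4_memV hwg
    rw [hS1]
    refine sub_mem (sub_mem (sub_mem (sub_mem (sub_mem (add_mem ?_ ?_) ?_) ?_) ?_) ?_) ?_
    · exact mul_mem (hLV (c.e4_D0_mem hEE)) vw
    · exact mul_mem (mul_mem (hLV (c.e4_D0_mem hn0)) v1) h2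
    · exact mul_mem (hLV hA1) (add_mem (add_mem (add_mem (mul_mem (hp 0) v2) (mul_mem (hp 1) v3))
        (mul_mem (mul_mem (hp 2) v1) h2)) (mul_mem (hp 3) vg))
    · exact mul_mem (hLV hA2) (add_mem (add_mem (add_mem (mul_mem (hq 0) v2) (mul_mem (hq 1) v3))
        (mul_mem (mul_mem (hq 2) v1) h2)) (mul_mem (hq 3) vg))
    · exact mul_mem (hLV (c.e4_D0_mem hA1)) v2
    · exact mul_mem (hLV (c.e4_D0_mem hA2)) v3
    · exact mul_mem (mul_mem (hLV hm1) (hLV (inv_mem c.e4_a_mem)))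
        (sub_mem (mul_mem v11 h3) (mul_mem (mul_mem (hLV hn0) v1) h2))
  have hS2V : S2 ∈ V := by
    rw [hS2]
    exact add_mem (add_mem (mul_mem vw (hLV hFF))
      (mul_mem (mul_mem (hLV c.e4_a_mem) (hLV hDE.2.1)) v2))
      (mul_mem (mul_mem (hLV c.e4_a_mem) (hLV hDE.2.2)) v3)
  have hTm : V.valuation T < 1 := by
    rw [hTe]
    exact e4_sub (e4_mul hS2V hw) (e4_mul hS1V m1)
  set Z : Ω := c.Da (c.Da (c.a * c.g)) * β2 ^ 2 + 2 * c.Da (c.Db (c.a * c.g)) * β2 * β3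
      + c.Db (c.Db (c.a * c.g)) * β3 ^ 2 with hZ
  have hZL : Z ∈ c.L := by
    rw [hZ]
    exact add_mem (add_mem (mul_mem hDDa.2.1 (pow_mem b2 2))
      (mul_mem (mul_mem (mul_mem (ofNat_mem c.L 2) hDDb.2.1) b2) b3)) (mul_mem hDDb.2.2 (pow_mem b3 2))
  have ha2 : c.a / 2 ∈ c.L := div_mem c.e4_a_mem (ofNat_mem c.L 2)
  have hZm : V.valuation (c.a / 2 * Z) < 1 := by
    have e : c.a / 2 * Z = T - ((c.a / 2 * (c.Da (c.Da (c.a * c.g)) * (w * c.N2 + β2)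
        + 2 * c.Da (c.Db (c.a * c.g)) * (w * c.N3))) * (w * c.N2 - β2)
        + (c.a / 2 * (2 * c.Da (c.Db (c.a * c.g)) * β2 + c.Db (c.Db (c.a * c.g)) * (w * c.N3 + β3)))
          * (w * c.N3 - β3)) := by
      rw [hZ, hT]; ring
    rw [e]
    refine e4_sub hTm (e4_add (e4_mul ?_ r2) (e4_mul ?_ r3))
    · exact mul_mem (hLV ha2) (add_mem (mul_mem (hLV hDDa.2.1) (add_mem v2 (hLV b2)))
        (mul_mem (mul_mem (hLV (ofNat_mem c.L 2)) (hLV hDDb.2.1)) v3))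
    · exact mul_mem (hLV ha2) (add_mem (mul_mem (mul_mem (hLV (ofNat_mem c.L 2)) (hLV hDDb.2.1))
        (hLV b2)) (mul_mem (hLV hDDb.2.2) (add_mem v3 (hLV b3))))
  have h0 := c.b3_L_zero hb.place (mul_mem ha2 hZL) hZm
  rcases mul_eq_zero.1 h0 with h | h
  · exact absurd h (div_ne_zero c.a0 two_ne_zero)
  · exact h

/-! ### degree zero -/

theorem e4_ind2 : AlgebraicIndependent k ![c.τ, c.bb / c.a] := by
  have h := c.indep
  rw [algInd_iff_notMem] at h ⊢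
  have hτ1 : c.τ ∉ acl k ({c.a, c.bb} : Set Ω) := by
    have := h 0
    have e : (![c.τ, c.a, c.bb] '' {0}ᶜ) = ({c.a, c.bb} : Set Ω) := by
      ext z
      simp [Fin.exists_fin_succ, Set.mem_image, eq_comm]
    rw [e] at this
    simpa using this
  have hb1 : c.bb ∉ acl k ({c.τ, c.a} : Set Ω) := by
    have := h 2
    have e : (![c.τ, c.a, c.bb] '' {2}ᶜ) = ({c.τ, c.a} : Set Ω) := by
      ext z
      simp [Fin.exists_fin_succ, Set.mem_image, eq_comm]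
    rw [e] at this
    simpa using this
  intro i
  fin_cases i
  · have e : (![c.τ, c.bb / c.a] '' {(0 : Fin 2)}ᶜ) = ({c.bb / c.a} : Set Ω) := by
      ext z
      simp [Fin.exists_fin_succ, Set.mem_image, eq_comm]
    intro hc
    rw [show ((⟨0, by norm_num⟩ : Fin 2)) = 0 from rfl, e] at hc
    apply hτ1
    have hle : acl k ({c.bb / c.a} : Set Ω) ≤ acl k ({c.a, c.bb} : Set Ω) := by
      rw [acl_le_iff]
      rintro _ rfl
      exact div_mem (subset_acl _ (by simp)) (subset_acl _ (by simp))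
    exact hle hc
  · have e : (![c.τ, c.bb / c.a] '' {(1 : Fin 2)}ᶜ) = ({c.τ} : Set Ω) := by
      ext z
      simp [Fin.exists_fin_succ, Set.mem_image, eq_comm]
    intro hc
    rw [show ((⟨1, by norm_num⟩ : Fin 2)) = 1 from rfl, e] at hc
    have hc' : c.bb / c.a ∈ acl k ({c.τ} : Set Ω) := hc
    apply hb1
    have hle : acl k ({c.τ} : Set Ω) ≤ acl k ({c.τ, c.a} : Set Ω) := acl_mono (by simp)
    have h1 : c.bb = c.bb / c.a * c.a := by rw [div_mul_cancel₀ _ c.a0]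
    rw [h1]
    exact mul_mem (hle hc') (subset_acl _ (by simp))

/-- elements of `L` of degree zero are in `acl{τ, bb/a}` -/
theorem deg_zero {z : Ω} (hz : z ∈ c.L) (h : c.E z = 0) :
    z ∈ acl k ({c.τ, c.bb / c.a} : Set Ω) := by
  refine c.deg_zero_mem c.τ (c.bb / c.a) c.τL (div_mem c.e4_bb_mem c.e4_a_mem) c.e4_ind2 c.Eτ ?_ hz h
  have h1 : c.E (c.bb / c.a * c.a) = c.E c.bb := by rw [div_mul_cancel₀ _ c.a0]
  rw [Derivation.leibniz, smul_eq_mul, smul_eq_mul, c.toDCtx.Ea, c.e4_Ebb] at h1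
  have h2 : c.bb / c.a * ((c.d : Ω) * c.a) = (c.d : Ω) * c.bb := by
    field_simp [c.a0]
  rw [h2] at h1
  have h3 : c.a * c.E (c.bb / c.a) = 0 := by linear_combination h1
  exact (mul_eq_zero.1 h3).resolve_left c.a0

theorem deg_zero_of_kill {z : Ω} (hz : z ∈ c.L) (h : c.E z = 0) {s t : Ω}
    (hst : s ∈ acl k ({c.τ} : Set Ω) ∧ t ∈ acl k ({c.τ} : Set Ω)) (h0 : s ≠ 0 ∨ t ≠ 0)
    (hk : s * c.Da z + t * c.Db z = 0) : z ∈ acl k ({c.τ} : Set Ω) := by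
  have h1 := c.e4_E_L hz
  rw [h] at h1
  have h2 : c.a * c.Da z + c.bb * c.Db z = 0 := (mul_eq_zero.1 h1.symm).resolve_left c.e4_d_ne
  have hdet : t * c.a + (-s) * c.bb ≠ 0 := by
    intro hd
    obtain ⟨h3, h4⟩ := c.e4_lin hst.2 (neg_mem hst.1) hd
    rcases h0 with h0 | h0
    · exact h0 (neg_eq_zero.1 h4)
    · exact h0 h3
  have hDa : c.Da z = 0 := by
    have : (t * c.a + (-s) * c.bb) * c.Da z = 0 := by
      linear_combination t * h2 - c.bb * hk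
    exact (mul_eq_zero.1 this).resolve_left hdet
  have hDb : c.Db z = 0 := by
    have : (t * c.a + (-s) * c.bb) * c.Db z = 0 := by
      linear_combination c.a * hk - s * h2
    exact (mul_eq_zero.1 this).resolve_left hdet
  refine mem_acl_of_forall_der' fun D hD => ?_
  rw [c.chain D z hz, hD c.τ rfl, hDa, hDb]
  ring

/-- the general shape lemma: `δ = s ∂a + t ∂b`, `δ μ = 0`, `δ ν = 1`, `δ² f = 0` -/
theorem e4_shape {s t μ ν f : Ω} (hs : s ∈ acl k ({c.τ} : Set Ω)) (ht : t ∈ acl k ({c.τ} : Set Ω))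
    (h0 : s ≠ 0 ∨ t ≠ 0) (hμ : μ ∈ c.L) (hν : ν ∈ c.L) (hf : f ∈ c.L) (hμ0 : μ ≠ 0)
    (hEμ : c.E μ = (c.d : Ω) * μ) (hEν : c.E ν = (c.d : Ω) * ν)
    (hEf : c.E f = ((c.d : Ω) + 1) * f)
    (hδμ : s * c.Da μ + t * c.Db μ = 0) (hδν : s * c.Da ν + t * c.Db ν = 1)
    (h : s ^ 2 * c.Da (c.Da f) + 2 * s * t * c.Da (c.Db f) + t ^ 2 * c.Db (c.Db f) = 0) :
    ∃ ρ c0 c1 : Ω, ρ ∈ c.L ∧ c0 ∈ acl k ({c.τ} : Set Ω) ∧ c1 ∈ acl k ({c.τ} : Set Ω) ∧
      ρ ^ c.d = μ ∧ f = ρ * (c0 * μ + c1 * ν) := by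
  have hCZ := c.e4_charZero
  have hd := c.e4_d_ne
  have hd0 : 0 < c.d := lt_of_lt_of_le (by norm_num) c.hd
  obtain ⟨ρ, hρ⟩ := IsAlgClosed.exists_pow_nat_eq μ hd0
  have hρL : ρ ∈ c.L := by
    have : ρ ^ c.d ∈ c.L := by rw [hρ]; exact hμ
    exact mem_acl_of_pow hd0.ne' this
  have hρ0 : ρ ≠ 0 := by
    rintro rfl
    rw [zero_pow hd0.ne'] at hρ
    exact hμ0 hρ.symm
  -- a derivation of a root
  have hroot : ∀ D : Derivation k Ω Ω, (c.d : Ω) * (μ * D ρ) = ρ * D μ := by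
    intro D
    have h1 : D μ = (c.d : Ω) * (ρ ^ (c.d - 1) * D ρ) := by
      rw [← hρ, Derivation.leibniz_pow]; simp
    have h2 : ρ ^ c.d = ρ * ρ ^ (c.d - 1) := by
      rw [← pow_succ', Nat.sub_add_cancel hd0]
    rw [h1, ← hρ, h2]; ring
  have hEρ : c.E ρ = ρ := by
    have h1 := hroot c.E
    rw [hEμ] at h1
    have h2 : (c.d : Ω) * μ * (c.E ρ - ρ) = 0 := by linear_combination h1
    have h3 := (mul_eq_zero.1 h2).resolve_left (mul_ne_zero hd hμ0)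
    linear_combination h3
  have hδρ : s * c.Da ρ + t * c.Db ρ = 0 := by
    have h1 := hroot c.Da
    have h2 := hroot c.Db
    have h3 : (c.d : Ω) * μ * (s * c.Da ρ + t * c.Db ρ) = 0 := by
      linear_combination s * h1 + t * h2 + ρ * hδμ
    exact (mul_eq_zero.1 h3).resolve_left (mul_ne_zero hd hμ0)
  obtain ⟨-, hDaf, hDbf⟩ := c.DL f hf
  have hcomm := (c.comm f hf).2.2
  set f1 := s * c.Da f + t * c.Db f with hf1
  have hsL := c.e4_τ_le hs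
  have htL := c.e4_τ_le ht
  have hf1L : f1 ∈ c.L := add_mem (mul_mem hsL hDaf) (mul_mem htL hDbf)
  have hDaf1 : c.Da f1 = s * c.Da (c.Da f) + t * c.Da (c.Db f) := by
    rw [hf1, map_add, Derivation.leibniz, Derivation.leibniz, c.e4_Da_τ hs, c.e4_Da_τ ht]
    simp
  have hDbf1 : c.Db f1 = s * c.Da (c.Db f) + t * c.Db (c.Db f) := by
    rw [hf1, map_add, Derivation.leibniz, Derivation.leibniz, c.e4_Db_τ hs, c.e4_Db_τ ht, ← hcomm]
    simp
  have hδf1 : s * c.Da f1 + t * c.Db f1 = 0 := by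
    rw [hDaf1, hDbf1]; linear_combination h
  -- Euler on `f1`
  have hEf1 : c.E f1 = f1 := by
    have h1 := c.e4_E_L hf
    have h2 : (c.d : Ω) * (c.a * c.Da f + c.bb * c.Db f) = ((c.d : Ω) + 1) * f := by
      rw [← h1, hEf]
    have dτ := c.dual
    have hA := congrArg c.Da h2
    have hB := congrArg c.Db h2
    have hdA : c.Da (c.d : Ω) = 0 := by simp
    have hdB : c.Db (c.d : Ω) = 0 := by simp
    have h1A : c.Da (1 : Ω) = 0 := by simp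
    have h1B : c.Db (1 : Ω) = 0 := by simp
    simp only [map_add, Derivation.leibniz, smul_eq_mul, hdA, hdB, h1A, h1B,
      c.dual.2.2.2.2.1, c.dual.2.2.2.2.2.1, c.dual.2.2.2.2.2.2.2.1,
      c.dual.2.2.2.2.2.2.2.2] at hA hB
    rw [c.e4_E_L hf1L, hDaf1, hDbf1, hf1]
    rw [← hcomm] at hB
    linear_combination s * hA + t * hB
  have hinv : ∀ D : Derivation k Ω Ω, ∀ z u : Ω, u ≠ 0 → D (z / u) = (D z * u - z * D u) / u ^ 2 := by
    intro D z u hu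
    have h1 : D (z / u * u) = D z := by rw [div_mul_cancel₀ _ hu]
    rw [Derivation.leibniz, smul_eq_mul, smul_eq_mul] at h1
    rw [eq_div_iff (pow_ne_zero 2 hu)]
    have h2 : z / u * D u * u = z * D u := by field_simp
    linear_combination u * h1 - h2
  -- `c1`
  have hc1L : f1 / ρ ∈ c.L := div_mem hf1L hρL
  have hEc1 : c.E (f1 / ρ) = 0 := by
    rw [hinv c.E _ _ hρ0, hEf1, hEρ]; ring
  have hδc1 : s * c.Da (f1 / ρ) + t * c.Db (f1 / ρ) = 0 := by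
    rw [hinv c.Da _ _ hρ0, hinv c.Db _ _ hρ0]
    have : s * ((c.Da f1 * ρ - f1 * c.Da ρ) / ρ ^ 2) + t * ((c.Db f1 * ρ - f1 * c.Db ρ) / ρ ^ 2) =
        ((s * c.Da f1 + t * c.Db f1) * ρ - f1 * (s * c.Da ρ + t * c.Db ρ)) / ρ ^ 2 := by ring
    rw [this, hδf1, hδρ]; ring
  have hc1 := c.deg_zero_of_kill hc1L hEc1 ⟨hs, ht⟩ h0 hδc1
  set c1 := f1 / ρ with hc1def
  have hf1c : f1 = c1 * ρ := by rw [hc1def, div_mul_cancel₀ _ hρ0]
  -- `c0`
  set f2 := f - c1 * ρ * ν with hf2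
  have hf2L : f2 ∈ c.L := sub_mem hf (mul_mem (mul_mem hc1L hρL) hν)
  have hEc1' : c.E c1 = 0 := hEc1
  have hEf2 : c.E f2 = ((c.d : Ω) + 1) * f2 := by
    rw [hf2, map_sub, Derivation.leibniz, Derivation.leibniz, hEf, hEc1', hEρ, hEν]
    simp only [smul_eq_mul]; ring
  have hδf2 : s * c.Da f2 + t * c.Db f2 = 0 := by
    rw [hf2, map_sub, map_sub, Derivation.leibniz, Derivation.leibniz, Derivation.leibniz,
      Derivation.leibniz, c.e4_Da_τ hc1, c.e4_Db_τ hc1]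
    simp only [smul_eq_mul]
    linear_combination hf1 * (-1) + hf1c - c1 * ρ * hδν - ν * c1 * hδρ
  have hρμ : ρ * μ ≠ 0 := mul_ne_zero hρ0 hμ0
  have hc0L : f2 / (ρ * μ) ∈ c.L := div_mem hf2L (mul_mem hρL hμ)
  have hEρμ : c.E (ρ * μ) = ((c.d : Ω) + 1) * (ρ * μ) := by
    rw [Derivation.leibniz, hEρ, hEμ]; simp only [smul_eq_mul]; ring
  have hEc0 : c.E (f2 / (ρ * μ)) = 0 := by
    rw [hinv c.E _ _ hρμ, hEf2, hEρμ]; ring
  have hδρμ : s * c.Da (ρ * μ) + t * c.Db (ρ * μ) = 0 := by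
    rw [Derivation.leibniz, Derivation.leibniz]; simp only [smul_eq_mul]
    linear_combination ρ * hδμ + μ * hδρ
  have hδc0 : s * c.Da (f2 / (ρ * μ)) + t * c.Db (f2 / (ρ * μ)) = 0 := by
    rw [hinv c.Da _ _ hρμ, hinv c.Db _ _ hρμ]
    have : s * ((c.Da f2 * (ρ * μ) - f2 * c.Da (ρ * μ)) / (ρ * μ) ^ 2) +
        t * ((c.Db f2 * (ρ * μ) - f2 * c.Db (ρ * μ)) / (ρ * μ) ^ 2) =
        ((s * c.Da f2 + t * c.Db f2) * (ρ * μ) - f2 * (s * c.Da (ρ * μ) + t * c.Db (ρ * μ))) /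
          (ρ * μ) ^ 2 := by ring
    rw [this, hδf2, hδρμ]; ring
  have hc0 := c.deg_zero_of_kill hc0L hEc0 ⟨hs, ht⟩ h0 hδc0
  refine ⟨ρ, f2 / (ρ * μ), c1, hρL, hc0, hc1, hρ, ?_⟩
  have h5 : ρ * (f2 / (ρ * μ) * μ) = f2 := by
    field_simp
  calc f = f2 + c1 * ρ * ν := by rw [hf2]; ring
    _ = ρ * (f2 / (ρ * μ) * μ) + c1 * ρ * ν := by rw [h5]
    _ = _ := by ring

theorem e4_Eag : c.E (c.a * c.g) = ((c.d : Ω) + 1) * (c.a * c.g) := by
  rw [Derivation.leibniz, c.toDCtx.Ea, c.toDCtx.Eg]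
  simp only [smul_eq_mul]; ring

theorem shape1 {s : Ω} (hs : s ∈ acl k ({c.τ} : Set Ω))
    (h : c.Da (c.Da (c.a * c.g)) + 2 * c.Da (c.Db (c.a * c.g)) * s + c.Db (c.Db (c.a * c.g)) * s ^ 2 = 0) :
    ∃ ρ c0 c1 : Ω, ρ ∈ c.L ∧ c0 ∈ acl k ({c.τ} : Set Ω) ∧ c1 ∈ acl k ({c.τ} : Set Ω) ∧
      ρ ^ c.d = c.bb - s * c.a ∧ c.a * c.g = ρ * (c0 * (c.bb - s * c.a) + c1 * c.a) := by
  have hd := c.dual
  refine c.e4_shape (s := 1) (t := s) (one_mem _) hs (Or.inl one_ne_zero)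
    (sub_mem c.e4_bb_mem (mul_mem (c.e4_τ_le hs) c.e4_a_mem)) c.e4_a_mem
    (mul_mem c.e4_a_mem c.toDCtx.g_mem) ?_ ?_ c.toDCtx.Ea c.e4_Eag ?_ ?_ ?_
  · intro h1
    have h2 := c.e4_lin (s := -s) (t := 1) (neg_mem hs) (one_mem _) (by linear_combination h1)
    exact one_ne_zero h2.2
  · rw [map_sub, Derivation.leibniz, c.e4_Ebb, c.toDCtx.Ea, c.e4_E_τ hs]
    simp only [smul_eq_mul]; ring
  · rw [map_sub, map_sub, Derivation.leibniz, Derivation.leibniz, c.e4_Da_τ hs, c.e4_Db_τ hs,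
      c.dual.2.2.2.2.1, c.dual.2.2.2.2.2.1, c.dual.2.2.2.2.2.2.2.1, c.dual.2.2.2.2.2.2.2.2]
    simp only [smul_eq_mul]; ring
  · rw [c.dual.2.2.2.2.1, c.dual.2.2.2.2.2.2.2.1]; ring
  · linear_combination h

theorem shape2 (h : c.Db (c.Db (c.a * c.g)) = 0) :
    ∃ ρ c0 c1 : Ω, ρ ∈ c.L ∧ c0 ∈ acl k ({c.τ} : Set Ω) ∧ c1 ∈ acl k ({c.τ} : Set Ω) ∧
      ρ ^ c.d = c.a ∧ c.a * c.g = ρ * (c0 * c.a + c1 * c.bb) := by
  refine c.e4_shape (s := 0) (t := 1) (zero_mem _) (one_mem _) (Or.inr one_ne_zero)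
    c.e4_a_mem c.e4_bb_mem (mul_mem c.e4_a_mem c.toDCtx.g_mem) c.a0 c.toDCtx.Ea c.e4_Ebb c.e4_Eag
    ?_ ?_ ?_
  · rw [c.dual.2.2.2.2.1, c.dual.2.2.2.2.2.2.2.1]; ring
  · rw [c.dual.2.2.2.2.2.1, c.dual.2.2.2.2.2.2.2.2]; ring
  · linear_combination h

/-! ### cones -/

theorem e4_cone3 (h : c.Cone) : c.U 3 = 0 ∧ c.U1 3 = 0 ∧ c.U2 3 = 0 := by
  have h0 := h.U3
  have h1 := c.DU c.Dt 3
  rw [h0, map_zero, c.dual.1, mul_one] at h1
  have h2 := c.DU1 c.Dt 3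
  rw [← h1, map_zero, c.dual.1, mul_one] at h2
  exact ⟨h0, h1.symm, h2.symm⟩

theorem e4_frame0 (h : c.Cone) {v : Fin 4 → Ω} (h0 : ∑ i, c.U i * v i = 0)
    (h1 : ∑ i, c.U1 i * v i = 0) (h2 : ∑ i, c.U2 i * v i = 0) : v 0 = 0 ∧ v 1 = 0 ∧ v 2 = 0 := by
  obtain ⟨u0, u1, u2⟩ := c.e4_cone3 h
  set M : Matrix (Fin 4) (Fin 4) Ω := Matrix.of ![c.U, c.U1, c.U2, c.B] with hM
  have hu : IsUnit M := by
    rw [← Matrix.linearIndependent_rows_iff_isUnit]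
    exact c.frame
  have hv : M.mulVec ![v 0, v 1, v 2, 0] = 0 := by
    rw [Fin.sum_univ_four] at h0 h1 h2
    ext i
    fin_cases i
    · simp [hM, Matrix.mulVec, dotProduct, Fin.sum_univ_four]
      rw [u0] at h0
      linear_combination h0
    · simp [hM, Matrix.mulVec, dotProduct, Fin.sum_univ_four]
      rw [u1] at h1
      linear_combination h1
    · simp [hM, Matrix.mulVec, dotProduct, Fin.sum_univ_four]
      rw [u2] at h2
      linear_combination h2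
    · simp [hM, Matrix.mulVec, dotProduct, Fin.sum_univ_four, h.B]
  have hz := Matrix.mulVec_injective_of_isUnit hu (by rw [hv, Matrix.mulVec_zero] :
    M.mulVec ![v 0, v 1, v 2, 0] = M.mulVec 0)
  refine ⟨?_, ?_, ?_⟩
  · simpa using congrFun hz 0
  · simpa using congrFun hz 1
  · simpa using congrFun hz 2

theorem e4_Bb (h : c.Cone) (b : Fin 4 → Ω) : ∑ i, c.B i * b i = b 3 := by
  rw [h.B]; simp [Fin.sum_univ_four]

theorem cone_cases (h : c.Cone) : (∃ s, c.CaseA s) ∨ c.CaseB := by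
  have hCZ := c.e4_charZero
  have hd := c.e4_d_ne
  have hvert : ∀ (V : ValuationSubring Ω) (b : Fin 4 → Ω) (i0 : Fin 4), c.IsDir V b i0 →
      ∑ i, c.U2 i * b i = 0 → b = ![0, 0, 0, 1] := by
    intro V b i0 hb h2
    obtain ⟨k0, k1, -⟩ := c.key hb
    obtain ⟨z0, z1, z2⟩ := c.e4_frame0 h k0 k1 h2
    have h3 : b 3 = 1 := by
      have := hb.one
      fin_cases i0
      · exact absurd (z0.symm.trans this) zero_ne_one
      · exact absurd (z1.symm.trans this) zero_ne_one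
      · exact absurd (z2.symm.trans this) zero_ne_one
      · exact this
    ext i
    fin_cases i
    · simpa using z0
    · simpa using z1
    · simpa using z2
    · simpa using h3
  by_cases hall : ∀ (V : ValuationSubring Ω) (b : Fin 4 → Ω) (i0 : Fin 4), c.IsDir V b i0 →
      ∑ i, c.U2 i * b i = 0
  · right
    exact ⟨h, fun V b i0 hb => hvert V b i0 hb (hall V b i0 hb)⟩
  left
  push Not at hall
  obtain ⟨V, b, i0, hb, hβ⟩ := hall
  have hbm := c.toDCtx.dir_mem hb (c.toDCtx.dir_two hb)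
  have hβmem : ∑ i, c.U2 i * b i ∈ acl k ({c.τ} : Set Ω) :=
    sum_mem fun i _ => mul_mem (c.U2mem i) (hbm i)
  obtain ⟨-, -, hQ⟩ := c.key hb
  rw [c.e4_Bb h] at hQ
  set β := ∑ i, c.U2 i * b i with hβdef
  set s := b 3 / β with hs
  have hsm : s ∈ acl k ({c.τ} : Set Ω) := div_mem (hbm 3) hβmem
  have hb3 : b 3 = s * β := by rw [hs, div_mul_cancel₀ _ hβ]
  have hδ2 : c.Da (c.Da (c.a * c.g)) + 2 * c.Da (c.Db (c.a * c.g)) * s
      + c.Db (c.Db (c.a * c.g)) * s ^ 2 = 0 := by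
    rw [hb3] at hQ
    have : β ^ 2 * (c.Da (c.Da (c.a * c.g)) + 2 * c.Da (c.Db (c.a * c.g)) * s
      + c.Db (c.Db (c.a * c.g)) * s ^ 2) = 0 := by linear_combination hQ
    exact (mul_eq_zero.1 this).resolve_left (pow_ne_zero 2 hβ)
  obtain ⟨ρ, c0, c1, hρL, hc0, hc1, hρ, hf⟩ := c.shape1 hsm hδ2
  set μ := c.bb - s * c.a with hμ
  have hμ0 : μ ≠ 0 := by
    intro h1
    have h2 := c.e4_lin (s := -s) (t := 1) (neg_mem hsm) (one_mem _) (by
      rw [hμ] at h1; linear_combination h1)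
    exact one_ne_zero h2.2
  have hd0 : 0 < c.d := lt_of_lt_of_le (by norm_num) c.hd
  have hρ0 : ρ ≠ 0 := by
    rintro rfl
    rw [zero_pow hd0.ne'] at hρ
    exact hμ0 hρ.symm
  have hroot : ∀ D : Derivation k Ω Ω, (c.d : Ω) * (μ * D ρ) = ρ * D μ := by
    intro D
    have h1 : D μ = (c.d : Ω) * (ρ ^ (c.d - 1) * D ρ) := by
      rw [← hρ, Derivation.leibniz_pow]; simp
    have h2 : ρ ^ c.d = ρ * ρ ^ (c.d - 1) := by
      rw [← pow_succ', Nat.sub_add_cancel hd0]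
    rw [h1, ← hρ, h2]; ring
  have dμa : c.Da μ = -s := by
    rw [hμ, map_sub, Derivation.leibniz, c.e4_Da_τ hsm, c.dual.2.2.2.2.1, c.dual.2.2.2.2.2.1]
    simp
  have dμb : c.Db μ = 1 := by
    rw [hμ, map_sub, Derivation.leibniz, c.e4_Db_τ hsm, c.dual.2.2.2.2.2.2.2.1,
      c.dual.2.2.2.2.2.2.2.2]
    simp
  have dρa : c.Da ρ = -s * ρ / (c.d * μ) := by
    rw [eq_div_iff (mul_ne_zero hd hμ0)]
    have := hroot c.Da
    rw [dμa] at this
    linear_combination this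
  have dρb : c.Db ρ = ρ / (c.d * μ) := by
    rw [eq_div_iff (mul_ne_zero hd hμ0)]
    have := hroot c.Db
    rw [dμb] at this
    linear_combination this
  have hinv : ∀ D : Derivation k Ω Ω, D (μ⁻¹) = -D μ / μ ^ 2 := by
    intro D
    rw [Derivation.leibniz_inv, smul_eq_mul]
    field_simp
  -- first derivative
  have hDb : c.Db (c.a * c.g) = ρ * (c0 * (1 + (c.d : Ω)⁻¹) + (c.d : Ω)⁻¹ * (c1 * (c.a * μ⁻¹))) := by
    rw [hf, Derivation.leibniz, map_add, Derivation.leibniz, Derivation.leibniz, c.e4_Db_τ hc0,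
      c.e4_Db_τ hc1, dρb, dμb, c.dual.2.2.2.2.2.2.2.1]
    simp only [smul_eq_mul]
    field_simp
    ring
  have hdinv : ∀ D : Derivation k Ω Ω, D ((c.d : Ω)⁻¹) = 0 := by
    intro D
    rw [Derivation.leibniz_inv]; simp
  have hDbb : c.Db (c.Db (c.a * c.g)) =
      ρ / (c.d * μ ^ 2) * (c0 * (1 + (c.d : Ω)⁻¹) * μ + c1 * ((c.d : Ω)⁻¹ - 1) * c.a) := by
    rw [hDb, Derivation.leibniz, map_add]
    simp only [Derivation.leibniz, map_add, smul_eq_mul, c.e4_Db_τ hc0, c.e4_Db_τ hc1, dρb,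
      hinv c.Db, dμb, c.dual.2.2.2.2.2.2.2.1, hdinv c.Db, Derivation.map_one_eq_zero]
    field_simp
    ring
  have hDab : c.Da (c.Db (c.a * c.g)) + s * c.Db (c.Db (c.a * c.g)) = ρ * c1 / (c.d * μ) := by
    rw [hDbb, hDb, Derivation.leibniz, map_add]
    simp only [Derivation.leibniz, map_add, smul_eq_mul, c.e4_Da_τ hc0, c.e4_Da_τ hc1, dρa,
      hinv c.Da, dμa, c.dual.2.2.2.2.1, hdinv c.Da, Derivation.map_one_eq_zero]
    field_simp
    ring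
  -- all directions
  have hmain : ∀ (V : ValuationSubring Ω) (b' : Fin 4 → Ω) (i1 : Fin 4), c.IsDir V b' i1 →
      b' 3 = s * ∑ i, c.U2 i * b' i := by
    intro V' b' i1 hb'
    have hbm' := c.toDCtx.dir_mem hb' (c.toDCtx.dir_two hb')
    have hβm' : ∑ i, c.U2 i * b' i ∈ acl k ({c.τ} : Set Ω) :=
      sum_mem fun i _ => mul_mem (c.U2mem i) (hbm' i)
    obtain ⟨-, -, hQ'⟩ := c.key hb'
    rw [c.e4_Bb h] at hQ'
    set β' := ∑ i, c.U2 i * b' i with hβ'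
    by_contra hne
    set κ := b' 3 - s * β' with hκ
    have hκ0 : κ ≠ 0 := sub_ne_zero.2 hne
    have hκm : κ ∈ acl k ({c.τ} : Set Ω) := sub_mem (hbm' 3) (mul_mem hsm hβm')
    have hb'3 : b' 3 = κ + s * β' := by rw [hκ]; ring
    have h1 : 2 * β' * κ * (c.Da (c.Db (c.a * c.g)) + s * c.Db (c.Db (c.a * c.g)))
        + κ ^ 2 * c.Db (c.Db (c.a * c.g)) = 0 := by
      rw [hb'3] at hQ'
      linear_combination hQ' - β' ^ 2 * hδ2
    rw [hDab, hDbb] at h1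
    have h2 : ρ * κ / (c.d * μ ^ 2) * (2 * β' * c1 * μ + κ * (c0 * (1 + (c.d : Ω)⁻¹) * μ
        + c1 * ((c.d : Ω)⁻¹ - 1) * c.a)) = 0 := by
      rw [← h1]
      field_simp
    have h3 : 2 * β' * c1 * μ + κ * (c0 * (1 + (c.d : Ω)⁻¹) * μ
        + c1 * ((c.d : Ω)⁻¹ - 1) * c.a) = 0 := by
      refine (mul_eq_zero.1 h2).resolve_left ?_
      exact div_ne_zero (mul_ne_zero hρ0 hκ0) (mul_ne_zero hd (pow_ne_zero 2 hμ0))
    have hdm : (c.d : Ω)⁻¹ ∈ acl k ({c.τ} : Set Ω) := inv_mem (natCast_mem _ _)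
    have h2m : (2 : Ω) ∈ acl k ({c.τ} : Set Ω) := ofNat_mem _ 2
    set A1 := 2 * β' * c1 + κ * (c0 * (1 + (c.d : Ω)⁻¹)) with hA1
    have hA1m : A1 ∈ acl k ({c.τ} : Set Ω) :=
      add_mem (mul_mem (mul_mem h2m hβm') hc1) (mul_mem hκm (mul_mem hc0 (add_mem (one_mem _) hdm)))
    set A2 := κ * (c1 * ((c.d : Ω)⁻¹ - 1)) with hA2
    have hA2m : A2 ∈ acl k ({c.τ} : Set Ω) :=
      mul_mem hκm (mul_mem hc1 (sub_mem hdm (one_mem _)))
    have h4 : (A2 - s * A1) * c.a + A1 * c.bb = 0 := by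
      rw [hA1, hA2]
      rw [hμ] at h3
      linear_combination h3
    obtain ⟨h5, h6⟩ := c.e4_lin (sub_mem hA2m (mul_mem hsm hA1m)) hA1m h4
    have h7 : A2 = 0 := by rw [h6] at h5; linear_combination h5
    have hd1 : (c.d : Ω)⁻¹ - 1 ≠ 0 := by
      intro h8
      have h9 : (c.d : Ω) = 1 := by
        have : (c.d : Ω)⁻¹ = 1 := by linear_combination h8
        exact inv_eq_one.1 this
      have h10 : c.d = 1 := by exact_mod_cast h9
      have := c.hd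
      omega
    have hc10 : c1 = 0 := by
      rcases mul_eq_zero.1 h7 with h8 | h8
      · exact absurd h8 hκ0
      · exact (mul_eq_zero.1 h8).resolve_right hd1
    have hd2 : (1 : Ω) + (c.d : Ω)⁻¹ ≠ 0 := by
      intro h8
      have h9 : (c.d : Ω) * (1 + (c.d : Ω)⁻¹) = 0 := by rw [h8, mul_zero]
      rw [mul_add, mul_one, mul_inv_cancel₀ hd] at h9
      have h10 : ((c.d + 1 : ℕ) : Ω) = 0 := by push_cast; exact h9
      exact absurd (Nat.cast_eq_zero.1 h10) (Nat.succ_ne_zero _)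
    have hc00 : c0 = 0 := by
      rw [hA1, hc10] at h6
      have h8 : κ * (c0 * (1 + (c.d : Ω)⁻¹)) = 0 := by linear_combination h6
      rcases mul_eq_zero.1 h8 with h9 | h9
      · exact absurd h9 hκ0
      · exact (mul_eq_zero.1 h9).resolve_right hd2
    rw [hc10, hc00] at hf
    have h11 : c.a * c.g = 0 := by rw [hf]; ring
    rcases mul_eq_zero.1 h11 with h12 | h12
    · exact c.a0 h12
    · exact c.toDCtx.g_ne h12
  refine ⟨s, h, hsm, ?_⟩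
  intro V' b' i1 hb'
  have h3 := hmain V' b' i1 hb'
  obtain ⟨k0, k1, -⟩ := c.key hb'
  set β' := ∑ i, c.U2 i * b' i with hβ'
  have hβ0 : β' ≠ 0 := by
    intro h0
    have := hvert V' b' i1 hb' h0
    rw [h0, mul_zero, this] at h3
    simp at h3
  have hv : ∀ (u : Fin 4 → Ω) (x y : Ω), ∑ i, u i * b' i = x → ∑ i, u i * c.y i = y →
      ∑ i, u i * (b' i - β' / c.a * c.y i) = x - β' / c.a * y := by
    intro u x y hx hy
    rw [← hx, ← hy, Finset.mul_sum, ← Finset.sum_sub_distrib]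
    refine Finset.sum_congr rfl fun i _ => ?_
    ring
  obtain ⟨z0, z1, z2⟩ := c.e4_frame0 h (v := fun i => b' i - β' / c.a * c.y i)
    (by rw [hv _ _ _ k0 c.Uy]; ring) (by rw [hv _ _ _ k1 c.U1y]; ring)
    (by
      rw [hv _ _ _ hβ'.symm c.U2y, div_mul_cancel₀ _ c.a0]; ring)
  refine ⟨β', hβ0, ?_, ?_, ?_, ?_⟩
  · have : b' 0 = β' / c.a * c.y 0 := by linear_combination z0
    rw [this]; ring
  · have : b' 1 = β' / c.a * c.y 1 := by linear_combination z1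
    rw [this]; ring
  · have : b' 2 = β' / c.a * c.y 2 := by linear_combination z2
    rw [this]; ring
  · rw [h3]; ring

end FCtx
end Pool.Agent.HDP
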