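import Mathlib
import Pool.Agent.Lib.MP_20906e_al.Defs
import Pool.Agent.Lib.MP_20906e_al.Acl
import Pool.Agent.Lib.MP_20906e_al.Der
import Pool.Agent.Lib.MP_20906e_al.Place
import Pool.Agent.Lib.MP_20906e_al.Wr
import Pool.Agent.Lib.MP_20906e_al.Height
import Pool.Agent.Lib.MP_20906e_al.Ctx
import Pool.Agent.Lib.MP_20906e_al.CtxN
import Pool.Agent.Lib.MP_20906e_al.B2a
import Pool.Agent.Lib.MP_20906e_al.B2b
import Pool.Agent.Lib.MP_20906e_al.B3
import Pool.Agent.Lib.MP_20906e_al.DCtx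
import Pool.Agent.Lib.MP_20906e_al.Cone
import Pool.Agent.Lib.MP_20906e_al.E1a
import Pool.Agent.Lib.MP_20906e_al.E1b
import Pool.Agent.Lib.MP_20906e_al.E3
import Pool.Agent.Lib.MP_20906e_al.E4

/-!
# MP_20906e_al : piece E5, the developable case which is not a cone (helper65)
-/

namespace Pool.Agent.HDP
open MvPolynomial

section E5
variable {k Ω : Type*} [Field k] [Field Ω] [Algebra k Ω]

theorem e5_mul {V : ValuationSubring Ω} {x y : Ω} (hx : V.valuation x < 1) (hy : y ∈ V) :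
    V.valuation (x * y) < 1 := by
  rw [map_mul]
  exact mul_lt_one_of_lt_of_le hx ((V.valuation_le_one_iff y).2 hy)

theorem e5_mem {V : ValuationSubring Ω} {x : Ω} (hx : V.valuation x < 1) : x ∈ V :=
  (V.valuation_le_one_iff x).1 hx.le

theorem e5_inv {V : ValuationSubring Ω} {x : Ω} (hx : x ∉ V) : V.valuation x⁻¹ < 1 := by
  rw [← V.valuation_le_one_iff, not_le] at hx
  rw [map_inv₀]
  exact inv_lt_one_of_one_lt₀ hx

theorem e5_inv_mem {V : ValuationSubring Ω} {x : Ω} (hx : V.valuation x = 1) : x⁻¹ ∈ V := by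
  rw [← V.valuation_le_one_iff, map_inv₀, hx, inv_one]

theorem e5_pow {V : ValuationSubring Ω} {x : Ω} {n : ℕ} (hx : V.valuation (x ^ n) < 1) :
    V.valuation x < 1 := by
  by_contra h
  push Not at h
  rw [map_pow] at hx
  exact absurd hx (not_lt.2 (one_le_pow₀ h))

private theorem e5_lf_add {n : ℕ} (c d : Fin n → k) : lf (c + d) = lf c + lf d := by
  unfold lf
  rw [← Finset.sum_add_distrib]
  refine Finset.sum_congr rfl fun i _ => ?_
  rw [Pi.add_apply, C_add, add_mul]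

private theorem e5_lf_smul {n : ℕ} (a : k) (c : Fin n → k) : lf (a • c) = C a * lf c := by
  unfold lf
  rw [Finset.mul_sum]
  refine Finset.sum_congr rfl fun i _ => ?_
  rw [Pi.smul_apply, smul_eq_mul, C_mul, mul_assoc]

/-- over a minimal prime of a pair, two independent constant vectors orthogonal to all linear forms -/
theorem e5_two {P Q : MvPolynomial (Fin 4) k} {I : Ideal (MvPolynomial (Fin 4) k)}
    (hI : I ∈ (Ideal.span {P, Q}).minimalPrimes) :
    ∃ w1 w2 : Fin 4 → k, LinearIndependent k ![w1, w2] ∧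
      (∀ l : Fin 4 → k, lf l ∈ I → ∑ i, l i * w1 i = 0) ∧
      (∀ l : Fin 4 → k, lf l ∈ I → ∑ i, l i * w2 i = 0) := by
  let S : Submodule k (Fin 4 → k) :=
    { carrier := {l | lf l ∈ I}
      add_mem' := by
        intro a b ha hb
        simp only [Set.mem_ofPred_eq] at *
        rw [e5_lf_add]
        exact I.add_mem ha hb
      zero_mem' := by
        simp [lf]
      smul_mem' := by
        intro a b hb
        simp only [Set.mem_ofPred_eq] at *
        rw [e5_lf_smul]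
        exact I.mul_mem_left _ hb }
  let bS := Module.finBasis k S
  have hm : Module.finrank k S ≤ 2 := by
    have h1 : LinearIndependent k (fun j => ((bS j : S) : Fin 4 → k)) :=
      bS.linearIndependent.map' S.subtype (Submodule.ker_subtype S)
    exact lf_le_two_of_minimalPrime hI h1 (fun i => (bS i).2)
  let f : (Fin 4 → k) →ₗ[k] (Fin (Module.finrank k S) → k) :=
    { toFun := fun w j => ∑ i, ((bS j : S) : Fin 4 → k) i * w i
      map_add' := by
        intro a b
        funext j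
        simp only [Pi.add_apply, mul_add, Finset.sum_add_distrib]
      map_smul' := by
        intro r a
        funext j
        simp only [Pi.smul_apply, smul_eq_mul, RingHom.id_apply, Finset.mul_sum]
        refine Finset.sum_congr rfl fun i _ => ?_
        ring }
  have hker : 2 ≤ Module.finrank k (LinearMap.ker f) := by
    have h1 := LinearMap.finrank_range_add_finrank_ker f
    have h2 : Module.finrank k (LinearMap.range f) ≤ Module.finrank k S := by
      refine (Submodule.finrank_le _).trans ?_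
      simp
    simp only [Module.finrank_fin_fun] at h1
    omega
  let bK := Module.finBasis k (LinearMap.ker f)
  have hort : ∀ w ∈ LinearMap.ker f, ∀ l : Fin 4 → k, lf l ∈ I → ∑ i, l i * w i = 0 := by
    intro w hw l hl
    have hlS : l ∈ S := hl
    have h1 := bS.sum_repr ⟨l, hlS⟩
    obtain ⟨r, h2⟩ : ∃ r : Fin (Module.finrank k S) → k, l = ∑ j, r j • ((bS j : S) : Fin 4 → k) := by
      refine ⟨fun j => bS.repr ⟨l, hlS⟩ j, ?_⟩
      have h0 := congrArg S.subtype h1
      rw [map_sum] at h0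
      simp only [map_smul, Submodule.subtype_apply] at h0
      exact h0.symm
    have h3 : ∀ j, ∑ i, ((bS j : S) : Fin 4 → k) i * w i = 0 := by
      intro j
      have := congrFun (LinearMap.mem_ker.1 hw) j
      exact this
    calc ∑ i, l i * w i = ∑ i, (∑ j, r j • ((bS j : S) : Fin 4 → k)) i * w i := by
          rw [← h2]
      _ = ∑ j, r j * ∑ i, ((bS j : S) : Fin 4 → k) i * w i := by
          simp only [Finset.sum_apply, Pi.smul_apply, smul_eq_mul, Finset.sum_mul, Finset.mul_sum]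
          rw [Finset.sum_comm]
          refine Finset.sum_congr rfl fun i _ => Finset.sum_congr rfl fun j _ => ?_
          ring
      _ = 0 := by
          refine Finset.sum_eq_zero fun j _ => ?_
          rw [h3 j, mul_zero]
  let i0 : Fin (Module.finrank k (LinearMap.ker f)) := ⟨0, by omega⟩
  let i1 : Fin (Module.finrank k (LinearMap.ker f)) := ⟨1, by omega⟩
  refine ⟨bK i0, bK i1, ?_, hort _ (bK i0).2, hort _ (bK i1).2⟩
  have h1 : LinearIndependent k (fun j => ((bK j : LinearMap.ker f) : Fin 4 → k)) :=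
    bK.linearIndependent.map' (LinearMap.ker f).subtype (Submodule.ker_subtype _)
  have h2 : Function.Injective ![i0, i1] := by
    intro a b hab
    fin_cases a <;> fin_cases b <;> simp_all [i0, i1]
  have h3 := h1.comp _ h2
  convert h3 using 1
  funext j
  fin_cases j <;> rfl
end E5

namespace FCtx
variable {k Ω : Type*} [Field k] [IsAlgClosed k] [CharZero k] [Field Ω] [IsAlgClosed Ω] [Algebra k Ω]
variable (c : FCtx k Ω)

theorem e5_tau : c.τ ∈ acl k ({c.τ} : Set Ω) := subset_acl _ rfl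

theorem e5_a_L : c.a ∈ c.L := (c.Lacl _).2 (subset_acl _ (by simp))
theorem e5_bb_L : c.bb ∈ c.L := (c.Lacl _).2 (subset_acl _ (by simp))

theorem e5_Da {z : Ω} (hz : z ∈ acl k ({c.τ} : Set Ω)) : c.Da z = 0 :=
  der_acl_zero c.Da (S := {c.τ}) (by
    intro s hs
    have : s = c.τ := by simpa using hs
    rw [this]
    exact c.dual.2.2.2.1) z hz

theorem e5_Db {z : Ω} (hz : z ∈ acl k ({c.τ} : Set Ω)) : c.Db z = 0 :=
  der_acl_zero c.Db (S := {c.τ}) (by
    intro s hs
    have : s = c.τ := by simpa using hs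
    rw [this]
    exact c.dual.2.2.2.2.2.2.1) z hz

theorem e5_E {z : Ω} (hz : z ∈ acl k ({c.τ} : Set Ω)) : c.E z = 0 :=
  der_acl_zero c.E (S := {c.τ}) (by
    intro s hs
    have : s = c.τ := by simpa using hs
    rw [this]
    exact c.Eτ) z hz

theorem e5_Dt {z : Ω} (hz : z ∈ acl k ({c.τ} : Set Ω)) : c.Dt z ∈ acl k ({c.τ} : Set Ω) :=
  der_acl_mem c.Dt (S := {c.τ}) (T := {c.τ}) (subset_acl _) (by
    intro s hs
    have : s = c.τ := by simpa using hs
    rw [this, c.dual.1]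
    exact one_mem _) z hz

theorem e5_Ebb : c.E c.bb = (c.d : Ω) * c.bb := by
  rw [← c.By, map_sum, Finset.mul_sum]
  refine Finset.sum_congr rfl fun i _ => ?_
  rw [Derivation.leibniz, smul_eq_mul, smul_eq_mul, c.e5_E (c.Bmem i), c.toCtx3.Ey i]
  ring

/-- two independent constant vectors cannot satisfy `(U1 - ε U)·w = 0` -/
theorem e5_const (h : ∀ v : Fin 4 → k, ∑ i, c.U i * algebraMap k Ω (v i) = 0 → v = 0)
    {ε : Ω} {w1 w2 : Fin 4 → k} (hw : LinearIndependent k ![w1, w2])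
    (h1 : ∑ i, (c.U1 i - ε * c.U i) * algebraMap k Ω (w1 i) = 0)
    (h2 : ∑ i, (c.U1 i - ε * c.U i) * algebraMap k Ω (w2 i) = 0) : False := by
  have hD : ∀ w : Fin 4 → k, ∑ i, (c.U1 i - ε * c.U i) * algebraMap k Ω (w i) = 0 →
      c.Dt (∑ i, c.U i * algebraMap k Ω (w i)) = ε * ∑ i, c.U i * algebraMap k Ω (w i) := by
    intro w hw
    have e1 : c.Dt (∑ i, c.U i * algebraMap k Ω (w i)) = ∑ i, c.U1 i * algebraMap k Ω (w i) := by
      rw [map_sum]
      refine Finset.sum_congr rfl fun i _ => ?_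
      rw [Derivation.leibniz, smul_eq_mul, smul_eq_mul, c.DU c.Dt i, c.dual.1,
        Derivation.map_algebraMap]
      ring
    rw [e1]
    have e2 : ∑ i, (c.U1 i - ε * c.U i) * algebraMap k Ω (w i) =
        ∑ i, c.U1 i * algebraMap k Ω (w i) - ε * ∑ i, c.U i * algebraMap k Ω (w i) := by
      rw [Finset.mul_sum, ← Finset.sum_sub_distrib]
      refine Finset.sum_congr rfl fun i _ => ?_
      ring
    rw [e2] at hw
    exact sub_eq_zero.1 hw
  have hmem : ∀ w : Fin 4 → k, ∑ i, c.U i * algebraMap k Ω (w i) ∈ acl k ({c.τ} : Set Ω) := by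
    intro w
    exact sum_mem fun i _ => mul_mem (c.Umem i) ((acl k ({c.τ} : Set Ω)).algebraMap_mem _)
  have hw2 : w2 ≠ 0 := by
    have := hw.ne_zero 1
    simpa using this
  have hf2 : ∑ i, c.U i * algebraMap k Ω (w2 i) ≠ 0 := fun h0 => hw2 (h _ h0)
  have hD1 := hD w1 h1
  have hD2 := hD w2 h2
  set f1 := ∑ i, c.U i * algebraMap k Ω (w1 i) with hf1
  set f2 := ∑ i, c.U i * algebraMap k Ω (w2 i) with hf2'
  have hq : c.Dt (f1 / f2) = 0 := by
    have e1 : c.Dt f1 = c.Dt (f1 / f2) * f2 + (f1 / f2) * c.Dt f2 := by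
      conv_lhs => rw [← div_mul_cancel₀ f1 hf2]
      rw [Derivation.leibniz, smul_eq_mul, smul_eq_mul]
      ring
    rw [hD1, hD2] at e1
    have e2 : c.Dt (f1 / f2) * f2 = 0 := by
      have : f1 / f2 * (ε * f2) = ε * f1 := by field_simp
      rw [this] at e1
      linear_combination -e1
    exact (mul_eq_zero.1 e2).resolve_right hf2
  obtain ⟨κ, hκ⟩ := const_of_der_zero (τ := c.τ) c.Dt (by rw [c.dual.1]; exact one_ne_zero)
    (div_mem (hmem w1) (hmem w2)) hq
  have h3 : f1 = algebraMap k Ω κ * f2 := by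
    rw [hκ, div_mul_cancel₀ _ hf2]
  have h4 : w1 - κ • w2 = 0 := by
    apply h
    have : ∑ i, c.U i * algebraMap k Ω ((w1 - κ • w2) i) = f1 - algebraMap k Ω κ * f2 := by
      rw [hf1, hf2', Finset.mul_sum, ← Finset.sum_sub_distrib]
      refine Finset.sum_congr rfl fun i _ => ?_
      rw [Pi.sub_apply, Pi.smul_apply, smul_eq_mul, map_sub, map_mul]
      ring
    rw [this, h3, sub_self]
  have h5 := LinearIndependent.pair_iff.1 hw 1 (-κ) (by
    rw [one_smul, neg_smul, ← sub_eq_add_neg]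
    exact h4)
  exact one_ne_zero h5.1

/-- common end of the two cases -/
theorem e5_end (hp : c.p = ![0, 1, 0, 0])
    (h : ∀ v : Fin 4 → k, ∑ i, c.U i * algebraMap k Ω (v i) = 0 → v = 0)
    {I : Ideal (MvPolynomial (Fin 4) k)} (hI : I ∈ (Ideal.span {c.P, c.Q}).minimalPrimes)
    {V : ValuationSubring Ω} (hx : ∀ i, c.x i ∈ V) (hV : ∀ a ∈ acl k ({c.τ} : Set Ω), a ∈ V)
    (hlin : ∀ v : Fin 4 → Ω, (∀ i, v i ∈ acl k ({c.τ} : Set Ω)) →
        V.valuation (∑ i, v i * c.x i) < 1 →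
        ∀ w : Fin 4 → k, (∀ l : Fin 4 → k, lf l ∈ I → ∑ i, l i * w i = 0) →
          ∑ i, v i * algebraMap k Ω (w i) = 0)
    (hg : V.valuation c.g = 1) {κ : k} (hκ : κ ≠ 0) (hsg : c.bb / c.a ∉ V)
    (h1 : V.valuation (c.a * c.Da c.g + algebraMap k Ω κ * c.g) < 1)
    (h2 : V.valuation (c.a * c.Db c.g) < 1)
    (h3 : V.valuation (c.Dt c.g / (c.bb / c.a)) < 1) : False := by
  have hkV : ∀ r : k, algebraMap k Ω r ∈ V := fun r => hV _ ((acl k ({c.τ} : Set Ω)).algebraMap_mem r)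
  have ha0 : c.a ≠ 0 := c.a0
  have hsg0 : c.bb / c.a ≠ 0 := by
    intro h0
    rw [h0] at hsg
    exact hsg (zero_mem _)
  have hbb0 : c.bb ≠ 0 := by
    intro h0
    exact hsg0 (by rw [h0, zero_div])
  have hg0 : c.g ≠ 0 := c.toDCtx.g_ne
  have hgV : c.g ∈ V := (V.valuation_le_one_iff _).1 hg.le
  have hN1 : c.N1 ∈ V := sum_mem fun i _ => mul_mem (hV _ (c.U1mem i)) (hx i)
  have hN2 : c.N2 ∈ V := sum_mem fun i _ => mul_mem (hV _ (c.U2mem i)) (hx i)
  have hN3 : c.N3 ∈ V := sum_mem fun i _ => mul_mem (hV _ (c.Bmem i)) (hx i)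
  have hsi := e5_inv hsg
  have hsgi : (c.bb / c.a)⁻¹ ∈ V := e5_mem hsi
  have hκ0 : algebraMap k Ω κ ≠ 0 := by simpa using hκ
  -- `n0/sg`
  have hn0 : V.valuation (c.n0 / (c.bb / c.a) + algebraMap k Ω κ * c.g) < 1 := by
    have e1 : c.n0 / (c.bb / c.a) + algebraMap k Ω κ * c.g =
        c.Dt c.g / (c.bb / c.a) + (c.a * c.Da c.g + algebraMap k Ω κ * c.g) +
          (c.a * c.Db c.g) * (c.q 0 * (c.bb / c.a)⁻¹ + c.q 1) := by
      unfold n0 D0 mu1 mu2
      rw [hp]
      simp only [Matrix.cons_val_zero, Matrix.cons_val_one]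
      field_simp
      ring
    rw [e1]
    refine Valuation.map_add_lt _ (Valuation.map_add_lt _ h3 h1) (e5_mul h2 ?_)
    exact add_mem (mul_mem (hV _ (c.qmem 0)) hsgi) (hV _ (c.qmem 1))
  -- `EE/sg`
  have hhalf : (2 : Ω)⁻¹ ∈ V := by
    have := hkV (2 : k)⁻¹
    rwa [map_inv₀, map_ofNat] at this
  have haDa : c.a * c.Da c.g ∈ V := by
    have e1 : c.a * c.Da c.g = (c.a * c.Da c.g + algebraMap k Ω κ * c.g) - algebraMap k Ω κ * c.g := by
      ring
    rw [e1]
    exact sub_mem (e5_mem h1) (mul_mem (hkV _) hgV)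
  have hEE : V.valuation (c.EE / (c.bb / c.a) - algebraMap k Ω κ * c.g * c.N1) < 1 := by
    have e1 : c.EE / (c.bb / c.a) - algebraMap k Ω κ * c.g * c.N1 =
        (c.bb / c.a)⁻¹ * (c.N1 ^ 2 * (2 : Ω)⁻¹)
          - (c.n0 / (c.bb / c.a) + algebraMap k Ω κ * c.g) * c.N1
          + (c.bb / c.a)⁻¹ * ((c.a * c.Da c.g) * c.N2) + (c.a * c.Db c.g) * (c.N3 * (c.bb / c.a)⁻¹) := by
      unfold EE
      field_simp
      ring
    rw [e1]
    refine Valuation.map_add_lt _ (Valuation.map_add_lt _ (Valuation.map_sub_lt _ ?_ ?_) ?_) ?_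
    · exact e5_mul hsi (mul_mem (pow_mem hN1 2) hhalf)
    · exact e5_mul hn0 hN1
    · exact e5_mul hsi (mul_mem haDa hN2)
    · exact e5_mul h2 (mul_mem hN3 hsgi)
  -- the element of degree zero
  set z : Ω := c.EE / (c.g ^ 2 * (c.bb / c.a)) with hz
  have hzL : z ∈ c.L :=
    div_mem c.EE_mem (mul_mem (pow_mem c.toDCtx.g_mem 2) (div_mem c.e5_bb_L c.e5_a_L))
  have hEsg : c.E (c.bb / c.a) = 0 := by
    have e1 : c.E c.bb = c.E (c.bb / c.a) * c.a + (c.bb / c.a) * c.E c.a := by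
      conv_lhs => rw [← div_mul_cancel₀ c.bb ha0]
      rw [Derivation.leibniz, smul_eq_mul, smul_eq_mul]
      ring
    rw [c.e5_Ebb, c.toDCtx.Ea] at e1
    have e2 : c.E (c.bb / c.a) * c.a = 0 := by
      have : c.bb / c.a * ((c.d : Ω) * c.a) = (c.d : Ω) * c.bb := by field_simp
      rw [this] at e1
      linear_combination -e1
    exact (mul_eq_zero.1 e2).resolve_right ha0
  have hEz : c.E z = 0 := by
    have hne : c.g ^ 2 * (c.bb / c.a) ≠ 0 := mul_ne_zero (pow_ne_zero _ hg0) hsg0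
    have e1 : c.E c.EE = c.E z * (c.g ^ 2 * (c.bb / c.a)) + z * c.E (c.g ^ 2 * (c.bb / c.a)) := by
      conv_lhs => rw [← div_mul_cancel₀ c.EE hne]
      rw [Derivation.leibniz, smul_eq_mul, smul_eq_mul]
      ring
    have e3 : c.E (c.g ^ 2 * (c.bb / c.a)) = 2 * (c.g ^ 2 * (c.bb / c.a)) := by
      rw [Derivation.leibniz, smul_eq_mul, smul_eq_mul, hEsg, Derivation.leibniz_pow, c.toDCtx.Eg]
      simp only [smul_eq_mul, nsmul_eq_mul]
      push_cast
      ring
    rw [c.E_EE, e3] at e1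
    have e2 : c.E z * (c.g ^ 2 * (c.bb / c.a)) = 0 := by
      have : z * (2 * (c.g ^ 2 * (c.bb / c.a))) = 2 * c.EE := by
        rw [hz]
        field_simp
      rw [this] at e1
      linear_combination -e1
    exact (mul_eq_zero.1 e2).resolve_right hne
  have hz1 := c.deg_zero hzL hEz
  rw [Set.pair_comm] at hz1
  have hgi := e5_inv_mem hg
  have hzc : V.valuation (z - algebraMap k Ω κ * (c.N1 / c.g)) < 1 := by
    have e1 : z - algebraMap k Ω κ * (c.N1 / c.g) =
        (c.EE / (c.bb / c.a) - algebraMap k Ω κ * c.g * c.N1) * (c.g⁻¹ ^ 2) := by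
      rw [hz]
      field_simp
    rw [e1]
    exact e5_mul hEE (pow_mem hgi 2)
  have hzV : z ∈ V := by
    have e1 : z = (z - algebraMap k Ω κ * (c.N1 / c.g)) + algebraMap k Ω κ * (c.N1 / c.g) := by ring
    rw [e1]
    exact add_mem (e5_mem hzc) (mul_mem (hkV _) (by
      rw [div_eq_mul_inv]
      exact mul_mem hN1 hgi))
  obtain ⟨e, he, hez⟩ := exists_residue (S := {c.τ}) (t := c.bb / c.a) V hV
    ⟨c.bb / c.a, subset_acl _ (Set.mem_insert _ _), hsg⟩ hz1 hzV
  -- `N1 ≡ ε g`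
  have hκi : (algebraMap k Ω κ)⁻¹ ∈ V := by
    have := hkV κ⁻¹
    rwa [map_inv₀] at this
  have hfin : V.valuation (c.N1 - e * (algebraMap k Ω κ)⁻¹ * c.g) < 1 := by
    have e1 : c.N1 - e * (algebraMap k Ω κ)⁻¹ * c.g =
        ((z - e) - (z - algebraMap k Ω κ * (c.N1 / c.g))) * (c.g * (algebraMap k Ω κ)⁻¹) := by
      field_simp
      ring
    rw [e1]
    exact e5_mul (Valuation.map_sub_lt _ hez hzc) (mul_mem hgV hκi)
  have hεm : e * (algebraMap k Ω κ)⁻¹ ∈ acl k ({c.τ} : Set Ω) :=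
    mul_mem he (inv_mem ((acl k ({c.τ} : Set Ω)).algebraMap_mem _))
  set ε := e * (algebraMap k Ω κ)⁻¹ with hε
  have hsum : V.valuation (∑ i, (c.U1 i - ε * c.U i) * c.x i) < 1 := by
    have e1 : ∑ i, (c.U1 i - ε * c.U i) * c.x i = c.N1 - ε * c.g := by
      unfold DCtx.N1 DCtx.g
      rw [Finset.mul_sum, ← Finset.sum_sub_distrib]
      refine Finset.sum_congr rfl fun i _ => ?_
      ring
    rw [e1]
    exact hfin
  have hort := hlin (fun i => c.U1 i - ε * c.U i)
    (fun i => sub_mem (c.U1mem i) (mul_mem hεm (c.Umem i))) hsum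
  obtain ⟨w1, w2, hw, hw1, hw2⟩ := e5_two hI
  exact c.e5_const h hw (hort w1 hw1) (hort w2 hw2)

theorem noncone_false (hp : c.p = ![0, 1, 0, 0])
    (h : ∀ v : Fin 4 → k, ∑ i, c.U i * algebraMap k Ω (v i) = 0 → v = 0) : False := by
  have hτL : aeval c.x c.P / aeval c.x c.Q ∈ c.L := by
    rw [← c.hτ]
    exact c.τL
  obtain ⟨V0, b, i0, hb, -, -⟩ := c.toCtx3.exists_base_dir c.he c.PQ c.Ph c.Qh hτL c.Q0
  have hbm := c.toDCtx.dir_mem hb (c.toDCtx.dir_two hb)
  obtain ⟨k1, k2, k3⟩ := c.key hb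
  -- the prime and the place
  obtain ⟨I, hI, hIp, hPI, hQI⟩ := exists_minimalPrime_pair c.he c.Ph c.Qh
  obtain ⟨V, hx, hV, hVI, hη, hlin⟩ := c.toDCtx.barg_lin I hIp hPI hQI
  have hUind : LinearIndependent k c.U := by
    rw [Fintype.linearIndependent_iff]
    intro g hg
    have h1 : g = 0 := by
      apply h
      rw [← hg]
      refine Finset.sum_congr rfl fun i _ => ?_
      rw [Algebra.smul_def, mul_comm]
    intro i
    rw [h1]
    rfl
  have hHI : ∀ i, c.H i ∈ I := by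
    refine hη 4 c.U c.H c.Umem hUind ?_
    have : ∑ i, c.U i * aeval c.x (c.H i) = 0 := by
      rw [← c.Uy]
      refine Finset.sum_congr rfl fun i _ => ?_
      rw [c.hy i]
    rw [this, map_zero]
    exact zero_lt_one
  have hyV : ∀ i, V.valuation (c.y i) < 1 := by
    intro i
    rw [c.hy i]
    exact (hVI _).2 (hHI i)
  have haV : V.valuation c.a < 1 := by
    rw [← c.U2y]
    refine Valuation.map_sum_lt _ one_ne_zero fun i _ => ?_
    rw [mul_comm]
    exact e5_mul (hyV i) (hV _ (c.U2mem i))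
  have hbbV : V.valuation c.bb < 1 := by
    rw [← c.By]
    refine Valuation.map_sum_lt _ one_ne_zero fun i _ => ?_
    rw [mul_comm]
    exact e5_mul (hyV i) (hV _ (c.Bmem i))
  have hgV : c.g ∈ V := sum_mem fun i _ => mul_mem (hV _ (c.Umem i)) (hx i)
  have hg1 : V.valuation c.g = 1 := by
    refine le_antisymm ((V.valuation_le_one_iff _).2 hgV) ?_
    by_contra hlt
    push Not at hlt
    obtain ⟨w1, w2, hw, hw1, -⟩ := e5_two hI
    have h1 := h w1 (hlin c.U c.Umem hlt w1 hw1)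
    exact hw.ne_zero 0 h1
  have ha0 : c.a ≠ 0 := c.a0
  have hd0 : (c.d : Ω) ≠ 0 := by
    rw [← map_natCast (algebraMap k Ω)]
    exact (map_ne_zero _).2 (Nat.cast_ne_zero.2 (by have := c.hd; omega))
  have hdV : (c.d : Ω)⁻¹ ∈ V := by
    have h1 := hV _ ((acl k ({c.τ} : Set Ω)).algebraMap_mem (c.d : k)⁻¹)
    rwa [map_inv₀, map_natCast] at h1
  have hdn : c.d ≠ 0 := by
    have := c.hd
    omega
  have hd1 : c.d - 1 + 1 = c.d := by omega
  obtain ⟨hDtτ, hDta, hDtb, hDaτ, hDaa, hDab, hDbτ, hDba, hDbb⟩ := c.dual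
  have hpow : ∀ (D : Derivation k Ω Ω) (ρ : Ω),
      D (ρ ^ c.d) = (c.d : Ω) * ρ ^ (c.d - 1) * D ρ := by
    intro D ρ
    rw [Derivation.leibniz_pow, nsmul_eq_mul, smul_eq_mul]
    ring
  have hρD : ∀ (D : Derivation k Ω Ω) (ρ mu : Ω), ρ ^ c.d = mu → mu ≠ 0 →
      D ρ = ρ * D mu * (c.d : Ω)⁻¹ * mu⁻¹ := by
    intro D ρ mu h1 hmu
    have h2 := hpow D ρ
    rw [h1] at h2
    have h3 : ρ * ρ ^ (c.d - 1) = mu := by
      rw [← h1, ← pow_succ', hd1]
    rw [h2]
    have h4 : ρ * ((c.d : Ω) * ρ ^ (c.d - 1) * D ρ) = (c.d : Ω) * mu * D ρ := by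
      rw [← h3]
      ring
    rw [h4]
    field_simp
  have hag1 : ∀ D : Derivation k Ω Ω, D (c.a * c.g) = c.g * D c.a + c.a * D c.g := by
    intro D
    rw [Derivation.leibniz, smul_eq_mul, smul_eq_mul]
    ring
  have hfr : (∑ i, c.U2 i * b i = 0) → (∑ i, c.B i * b i = 0) → False := by
    intro h2 h3
    have hM : IsUnit (Matrix.of ![c.U, c.U1, c.U2, c.B]) :=
      Matrix.linearIndependent_rows_iff_isUnit.1 c.frame
    have hz : (Matrix.of ![c.U, c.U1, c.U2, c.B]).mulVec b = 0 := by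
      funext i
      fin_cases i
      · exact k1
      · exact k2
      · exact h2
      · exact h3
    have h4 : b = 0 := Matrix.mulVec_injective_iff_isUnit.2 hM (by rw [hz, Matrix.mulVec_zero])
    have h5 := hb.one
    rw [h4] at h5
    exact zero_ne_one h5
  by_cases hβ2 : ∑ i, c.U2 i * b i = 0
  · -- case `β2 = 0`
    have hβ3 : ∑ i, c.B i * b i ≠ 0 := fun h0 => hfr hβ2 h0
    have k4 : c.Db (c.Db (c.a * c.g)) = 0 := by
      rw [hβ2] at k3
      have : c.Db (c.Db (c.a * c.g)) * (∑ i, c.B i * b i) ^ 2 = 0 := by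
        linear_combination k3
      exact (mul_eq_zero.1 this).resolve_right (pow_ne_zero _ hβ3)
    obtain ⟨ρ, c0, c1, hρL, hc0, hc1, hρ, hag⟩ := c.shape2 k4
    have hρV : V.valuation ρ < 1 := e5_pow (n := c.d) (by rw [hρ]; exact haV)
    have hgf : c.g = ρ * (c0 + c1 * (c.bb / c.a)) := by
      field_simp
      linear_combination hag
    have hsg : c.bb / c.a ∉ V := by
      intro hsg
      have : V.valuation c.g < 1 := by
        rw [hgf]
        exact e5_mul hρV (add_mem (hV _ hc0) (mul_mem (hV _ hc1) hsg))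
      rw [hg1] at this
      exact lt_irrefl _ this
    have hsg0 : c.bb / c.a ≠ 0 := by
      intro h0
      rw [h0] at hsg
      exact hsg (zero_mem _)
    have hbb0 : c.bb ≠ 0 := by
      intro h0
      exact hsg0 (by rw [h0, zero_div])
    have hsgi : (c.bb / c.a)⁻¹ ∈ V := e5_mem (e5_inv hsg)
    have hκ : (1 - (c.d : k)⁻¹ : k) ≠ 0 := by
      intro h0
      have h1 : (c.d : k)⁻¹ = 1 := by linear_combination -h0
      rw [inv_eq_one] at h1
      have h2 : c.d = 1 := by exact_mod_cast h1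
      have := c.hd
      omega
    have hL : ∀ D : Derivation k Ω Ω, c.g * D c.a + c.a * D c.g =
        D ρ * (c0 * c.a + c1 * c.bb) + ρ * (D c0 * c.a + c0 * D c.a + D c1 * c.bb + c1 * D c.bb) := by
      intro D
      rw [← hag1 D, hag, Derivation.leibniz, smul_eq_mul, smul_eq_mul, map_add, Derivation.leibniz,
        Derivation.leibniz]
      simp only [smul_eq_mul]
      ring
    have hρD' : ∀ D : Derivation k Ω Ω, D ρ * (c0 * c.a + c1 * c.bb) = c.g * D c.a * (c.d : Ω)⁻¹ := by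
      intro D
      rw [hρD D ρ c.a hρ ha0]
      have : ρ * D c.a * (c.d : Ω)⁻¹ * c.a⁻¹ * (c0 * c.a + c1 * c.bb) =
          D c.a * (c.d : Ω)⁻¹ * c.a⁻¹ * (ρ * (c0 * c.a + c1 * c.bb)) := by ring
      rw [this, ← hag]
      field_simp
    refine c.e5_end hp h hI hx hV hlin hg1 hκ hsg ?_ ?_ ?_
    · have h1 := hL c.Da
      rw [hρD' c.Da, hDaa, hDab, c.e5_Da hc0, c.e5_Da hc1] at h1
      have e1 : c.a * c.Da c.g + algebraMap k Ω (1 - (c.d : k)⁻¹) * c.g = ρ * c0 := by
        rw [map_sub, map_one, map_inv₀, map_natCast]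
        linear_combination h1
      rw [e1]
      exact e5_mul hρV (hV _ hc0)
    · have h1 := hL c.Db
      rw [hρD' c.Db, hDba, hDbb, c.e5_Db hc0, c.e5_Db hc1] at h1
      have e1 : c.a * c.Db c.g = ρ * c1 := by
        linear_combination h1
      rw [e1]
      exact e5_mul hρV (hV _ hc1)
    · have h1 := hL c.Dt
      rw [hρD' c.Dt, hDta, hDtb] at h1
      have e1 : c.Dt c.g / (c.bb / c.a) = ρ * (c.Dt c0 * (c.bb / c.a)⁻¹ + c.Dt c1) := by
        field_simp
        linear_combination h1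
      rw [e1]
      exact e5_mul hρV (add_mem (mul_mem (hV _ (c.e5_Dt hc0)) hsgi) (hV _ (c.e5_Dt hc1)))
  · -- case `β2 ≠ 0`
    have hsm : (∑ i, c.B i * b i) / (∑ i, c.U2 i * b i) ∈ acl k ({c.τ} : Set Ω) :=
      div_mem (sum_mem fun i _ => mul_mem (c.Bmem i) (hbm i))
        (sum_mem fun i _ => mul_mem (c.U2mem i) (hbm i))
    set s := (∑ i, c.B i * b i) / (∑ i, c.U2 i * b i) with hs
    have hs' : ∑ i, c.B i * b i = s * ∑ i, c.U2 i * b i := by
      rw [hs, div_mul_cancel₀ _ hβ2]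
    have k4 : c.Da (c.Da (c.a * c.g)) + 2 * c.Da (c.Db (c.a * c.g)) * s
        + c.Db (c.Db (c.a * c.g)) * s ^ 2 = 0 := by
      rw [hs'] at k3
      have : (c.Da (c.Da (c.a * c.g)) + 2 * c.Da (c.Db (c.a * c.g)) * s
        + c.Db (c.Db (c.a * c.g)) * s ^ 2) * (∑ i, c.U2 i * b i) ^ 2 = 0 := by
        linear_combination k3
      exact (mul_eq_zero.1 this).resolve_right (pow_ne_zero _ hβ2)
    obtain ⟨ρ, c0, c1, hρL, hc0, hc1, hρ, hag⟩ := c.shape1 hsm k4
    have hmuV : V.valuation (c.bb - s * c.a) < 1 :=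
      Valuation.map_sub_lt _ hbbV (by
        rw [mul_comm]
        exact e5_mul haV (hV _ hsm))
    have hρV : V.valuation ρ < 1 := e5_pow (n := c.d) (by rw [hρ]; exact hmuV)
    have hρ0 : ρ ≠ 0 := by
      intro h0
      rw [h0, zero_mul] at hag
      rcases mul_eq_zero.1 hag with h1 | h1
      · exact ha0 h1
      · exact c.toDCtx.g_ne h1
    have hmu0 : c.bb - s * c.a ≠ 0 := by
      rw [← hρ]
      exact pow_ne_zero _ hρ0
    have hgf : c.g = ρ * (c0 * (c.bb / c.a - s) + c1) := by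
      field_simp
      linear_combination hag
    have hsg : c.bb / c.a ∉ V := by
      intro hsg
      have : V.valuation c.g < 1 := by
        rw [hgf]
        exact e5_mul hρV (add_mem (mul_mem (hV _ hc0) (sub_mem hsg (hV _ hsm))) (hV _ hc1))
      rw [hg1] at this
      exact lt_irrefl _ this
    have hsg0 : c.bb / c.a ≠ 0 := by
      intro h0
      rw [h0] at hsg
      exact hsg (zero_mem _)
    have hbb0 : c.bb ≠ 0 := by
      intro h0
      exact hsg0 (by rw [h0, zero_div])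
    have hsgi : (c.bb / c.a)⁻¹ ∈ V := e5_mem (e5_inv hsg)
    have hsg' : c.bb / c.a - s ∉ V := by
      intro h0
      apply hsg
      have : c.bb / c.a = (c.bb / c.a - s) + s := by ring
      rw [this]
      exact add_mem h0 (hV _ hsm)
    have hsi' := e5_inv hsg'
    have hsgi' : (c.bb / c.a - s)⁻¹ ∈ V := e5_mem hsi'
    have hmu : c.bb - s * c.a = (c.bb / c.a - s) * c.a := by
      field_simp
    have hss0 : c.bb / c.a - s ≠ 0 := by
      intro h0
      rw [h0] at hsg'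
      exact hsg' (zero_mem _)
    have hL : ∀ D : Derivation k Ω Ω, c.g * D c.a + c.a * D c.g =
        D ρ * (c0 * (c.bb - s * c.a) + c1 * c.a)
          + ρ * (D c0 * (c.bb - s * c.a) + c0 * D (c.bb - s * c.a) + D c1 * c.a + c1 * D c.a) := by
      intro D
      rw [← hag1 D, hag, Derivation.leibniz, smul_eq_mul, smul_eq_mul, map_add, Derivation.leibniz,
        Derivation.leibniz D c1]
      simp only [smul_eq_mul]
      ring
    have hρD' : ∀ D : Derivation k Ω Ω, D ρ * (c0 * (c.bb - s * c.a) + c1 * c.a) =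
        c.g * D (c.bb - s * c.a) * (c.d : Ω)⁻¹ * (c.bb / c.a - s)⁻¹ := by
      intro D
      rw [hρD D ρ _ hρ hmu0]
      have : ρ * D (c.bb - s * c.a) * (c.d : Ω)⁻¹ * (c.bb - s * c.a)⁻¹ *
          (c0 * (c.bb - s * c.a) + c1 * c.a) =
          D (c.bb - s * c.a) * (c.d : Ω)⁻¹ * (c.bb - s * c.a)⁻¹ *
            (ρ * (c0 * (c.bb - s * c.a) + c1 * c.a)) := by ring
      rw [this, ← hag, hmu]
      field_simp
    have hDmu : ∀ D : Derivation k Ω Ω, D (c.bb - s * c.a) = D c.bb - D s * c.a - s * D c.a := by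
      intro D
      rw [map_sub, Derivation.leibniz, smul_eq_mul, smul_eq_mul]
      ring
    refine c.e5_end hp h hI hx hV hlin hg1 (one_ne_zero (α := k)) hsg ?_ ?_ ?_
    · have h1 := hL c.Da
      rw [hρD' c.Da, hDmu, hDaa, hDab, c.e5_Da hc0, c.e5_Da hc1, c.e5_Da hsm] at h1
      have e1 : c.a * c.Da c.g + algebraMap k Ω 1 * c.g =
          (c.bb / c.a - s)⁻¹ * (- (s * c.g * (c.d : Ω)⁻¹)) + ρ * (c1 - c0 * s) := by
        rw [map_one]
        linear_combination h1
      rw [e1]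
      exact Valuation.map_add_lt _
        (e5_mul hsi' (neg_mem (mul_mem (mul_mem (hV _ hsm) hgV) hdV)))
        (e5_mul hρV (sub_mem (hV _ hc1) (mul_mem (hV _ hc0) (hV _ hsm))))
    · have h1 := hL c.Db
      rw [hρD' c.Db, hDmu, hDba, hDbb, c.e5_Db hc0, c.e5_Db hc1, c.e5_Db hsm] at h1
      have e1 : c.a * c.Db c.g = (c.bb / c.a - s)⁻¹ * (c.g * (c.d : Ω)⁻¹) + ρ * c0 := by
        linear_combination h1
      rw [e1]
      exact Valuation.map_add_lt _ (e5_mul hsi' (mul_mem hgV hdV)) (e5_mul hρV (hV _ hc0))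
    · have h1 := hL c.Dt
      rw [hρD' c.Dt, hDmu, hDta, hDtb] at h1
      have e1 : c.Dt c.g / (c.bb / c.a) =
          (c.bb / c.a - s)⁻¹ * (- (c.Dt s * c.g * (c.d : Ω)⁻¹ * (c.bb / c.a)⁻¹))
            + ρ * (c.Dt c0 * (1 - s * (c.bb / c.a)⁻¹) + (c.Dt c1 - c0 * c.Dt s) * (c.bb / c.a)⁻¹) := by
        have h2 : c.Dt c.g = (c.bb / c.a - s)⁻¹ * (- (c.Dt s * c.g * (c.d : Ω)⁻¹))
            + ρ * (c.Dt c0 * (c.bb / c.a - s) + (c.Dt c1 - c0 * c.Dt s)) := by
          apply mul_left_cancel₀ ha0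
          rw [hmu] at h1
          linear_combination h1
        rw [h2, div_eq_mul_inv]
        have h3 : (c.bb / c.a) * (c.bb / c.a)⁻¹ = 1 := mul_inv_cancel₀ hsg0
        linear_combination (ρ * c.Dt c0) * h3
      rw [e1]
      refine Valuation.map_add_lt _ (e5_mul hsi' (neg_mem (mul_mem (mul_mem (mul_mem
        (hV _ (c.e5_Dt hsm)) hgV) hdV) hsgi))) (e5_mul hρV (add_mem (mul_mem (hV _ (c.e5_Dt hc0))
        (sub_mem (one_mem _) (mul_mem (hV _ hsm) hsgi))) (mul_mem (sub_mem (hV _ (c.e5_Dt hc1))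
        (mul_mem (hV _ hc0) (hV _ (c.e5_Dt hsm)))) hsgi)))

end FCtx
end Pool.Agent.HDP
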