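import Mathlib
import Pool.Agent.Lib.MP_20906e_al.DCtx
import Pool.Agent.Lib.MP_20906e_al.Cone
import Pool.Agent.Lib.MP_20906e_al.CtxN
import Pool.Agent.Lib.MP_20906e_al.Acl
import Pool.Agent.Lib.MP_20906e_al.Der
import Pool.Agent.Lib.MP_20906e_al.Height
import Pool.Agent.Lib.MP_20906e_al.B2a
import Pool.Agent.Lib.MP_20906e_al.B2b
import Pool.Agent.Lib.MP_20906e_al.B3
import Pool.Agent.Lib.MP_20906e_al.E1b

/-!
# MP_20906e_al, piece E6: case A, the prime of the curve of directions (helper87)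
-/

set_option linter.unusedSectionVars false
set_option linter.unusedVariables false

namespace Pool.Agent.HDP
open MvPolynomial

variable {k Ω : Type*} [Field k] [IsAlgClosed k] [CharZero k] [Field Ω] [IsAlgClosed Ω] [Algebra k Ω]

namespace FCtx
variable (c : FCtx k Ω)

theorem e6_U12 (h : c.U 3 = 0) : c.U1 3 = 0 ∧ c.U2 3 = 0 := by
  obtain ⟨dt, -, hdt⟩ := exists_der_ne c.τk
  have h1 : c.U1 3 = 0 := by
    have := c.DU dt 3
    rw [h, map_zero, hdt, mul_one] at this
    exact this.symm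
  refine ⟨h1, ?_⟩
  have := c.DU1 dt 3
  rw [h1, map_zero, hdt, mul_one] at this
  exact this.symm

/-- the vanishing locus of `U` in `k^4` is the vertex -/
theorem e6_vertex (h : c.U 3 = 0) {w : Fin 4 → k} (hw : ∑ i, c.U i * algebraMap k Ω (w i) = 0)
    {j : Fin 4} (hj : j ≠ 3) : w j = 0 := by
  by_contra hne
  refine c.span3 (Pi.single 3 1) w ?_ ⟨?_, hw⟩
  · rw [LinearIndependent.pair_iff]
    intro s t hst
    have h1 := congrFun hst j
    have h2 := congrFun hst 3
    rw [Pi.add_apply, Pi.smul_apply, Pi.smul_apply, Pi.single_eq_of_ne hj, smul_zero, zero_add,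
      Pi.zero_apply, smul_eq_mul] at h1
    have ht : t = 0 := (mul_eq_zero.1 h1).resolve_right hne
    rw [Pi.add_apply, Pi.smul_apply, Pi.smul_apply, Pi.single_eq_same, ht, zero_smul, add_zero,
      smul_eq_mul, mul_one] at h2
    exact ⟨h2, ht⟩
  · rw [Finset.sum_eq_single 3]
    · rw [h, zero_mul]
    · intro i _ hi
      rw [Pi.single_eq_of_ne hi, map_zero, mul_zero]
    · simp

/-! ## E6: case A, first normal form -/
/-- the prime of the curve of directions, in case A -/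
theorem caseA_barg {s : Ω} (h : c.CaseA s) :
    ∃ (I : Ideal (MvPolynomial (Fin 4) k)) (V : ValuationSubring Ω), I.IsPrime ∧
      (∀ i, c.x i ∈ V) ∧ (∀ a ∈ acl k ({c.τ} : Set Ω), a ∈ V) ∧
      (∀ F : MvPolynomial (Fin 4) k, V.valuation (aeval c.x F) < 1 ↔ F ∈ I) ∧
      (∀ (m : ℕ) (η : Fin m → Ω) (F : Fin m → MvPolynomial (Fin 4) k),
        (∀ i, η i ∈ acl k ({c.τ} : Set Ω)) → LinearIndependent k η →
        V.valuation (∑ i, η i * aeval c.x (F i)) < 1 → ∀ i, F i ∈ I) ∧
      (∀ (F : MvPolynomial (Fin 4) k) (m : ℕ), F.IsHomogeneous m →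
        (F ∈ I ↔ aeval ![c.y 0, c.y 1, c.y 2, s * c.a] F = 0)) ∧
      V.valuation c.g = 1 ∧ V.valuation c.a < 1 ∧ V.valuation c.bb < 1 := by
  classical
  set z : Fin 4 → Ω := ![c.y 0, c.y 1, c.y 2, s * c.a] with hz
  set I : Ideal (MvPolynomial (Fin 4) k) :=
    RingHom.ker (aeval z : MvPolynomial (Fin 4) k →ₐ[k] Ω) with hI
  have hmem : ∀ F : MvPolynomial (Fin 4) k, F ∈ I ↔ aeval z F = 0 := fun F => RingHom.mem_ker
  have hIp : I.IsPrime := RingHom.ker_isPrime _
  obtain ⟨hU1, hU2⟩ := c.e6_U12 h.cone.U3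
  -- forms vanishing at a direction
  have hdir : ∀ {V : ValuationSubring Ω} {b : Fin 4 → Ω} {i0 : Fin 4}, c.IsDir V b i0 →
      ∀ (F : MvPolynomial (Fin 4) k) (m : ℕ), F.IsHomogeneous m → aeval b F = 0 → F ∈ I := by
    intro V b i0 hb F m hF hFb
    obtain ⟨e, he, h0, h1, h2, h3⟩ := h.dirs V b i0 hb
    have hbz : b = fun i => (e / c.a) * z i := by
      funext i
      fin_cases i
      · change b 0 = e / c.a * c.y 0
        rw [h0]; ring
      · change b 1 = e / c.a * c.y 1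
        rw [h1]; ring
      · change b 2 = e / c.a * c.y 2
        rw [h2]; ring
      · change b 3 = e / c.a * (s * c.a)
        rw [h3]
        have := c.a0
        field_simp
    rw [hbz, b3_aeval_hom hF] at hFb
    rw [hmem]
    exact (mul_eq_zero.1 hFb).resolve_left (pow_ne_zero _ (div_ne_zero he c.a0))
  have hτL : aeval c.x c.P / aeval c.x c.Q ∈ c.L := by
    rw [← c.hτ]; exact c.τL
  obtain ⟨V0, b, i0, hb, hbP, hbQ⟩ := c.exists_base_dir c.he c.PQ c.Ph c.Qh hτL c.Q0
  have hP : c.P ∈ I := hdir hb _ _ c.Ph hbP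
  have hQ : c.Q ∈ I := hdir hb _ _ c.Qh hbQ
  have hH : ∀ i, c.H i ∈ I := fun i => hdir hb _ _ (c.nil.hom i) (c.H_dir hb i)
  obtain ⟨V, hVx, hVτ, hVI, hVη, hVv⟩ := c.barg_lin I hIp hP hQ
  have hVy : ∀ i, V.valuation (c.y i) < 1 := fun i => by
    rw [c.hy i]
    exact (hVI _).2 (hH i)
  have hsum : ∀ v : Fin 4 → Ω, (∀ i, v i ∈ acl k ({c.τ} : Set Ω)) →
      V.valuation (∑ i, v i * c.y i) < 1 := by
    intro v hv
    refine Valuation.map_sum_lt _ one_ne_zero fun i _ => ?_
    rw [map_mul, mul_comm]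
    exact mul_lt_one_of_lt_of_le (hVy i) ((V.valuation_le_one_iff _).2 (hVτ _ (hv i)))
  have hVa : V.valuation c.a < 1 := by
    rw [← c.U2y]
    exact hsum _ c.U2mem
  have hVb : V.valuation c.bb < 1 := by
    rw [← c.By]
    exact hsum _ c.Bmem
  refine ⟨I, V, hIp, hVx, hVτ, hVI, hVη, fun F m _ => hmem F, ?_, hVa, hVb⟩
  have hgV : c.g ∈ V := by
    unfold DCtx.g
    exact sum_mem fun i _ => mul_mem (hVτ _ (c.Umem i)) (hVx i)
  rcases lt_or_eq_of_le ((V.valuation_le_one_iff _).2 hgV) with hlt | heq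
  swap
  · exact heq
  exfalso
  have horth := hVv c.U c.Umem hlt
  -- the linear forms in `I`
  let A : Submodule k (Fin 4 → k) :=
    { carrier := {l | ∑ i, algebraMap k Ω (l i) * z i = 0}
      add_mem' := by
        intro l l' hl hl'
        simp only [Set.mem_ofPred_eq, Pi.add_apply, map_add, add_mul, Finset.sum_add_distrib] at *
        rw [hl, hl', add_zero]
      zero_mem' := by simp
      smul_mem' := by
        intro t l hl
        simp only [Set.mem_ofPred_eq, Pi.smul_apply, smul_eq_mul, map_mul, mul_assoc,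
          ← Finset.mul_sum] at *
        rw [hl, mul_zero] }
  have hAI : ∀ l : Fin 4 → k, lf l ∈ I ↔ l ∈ A := by
    intro l
    rw [hmem]
    change _ ↔ ∑ i, algebraMap k Ω (l i) * z i = 0
    unfold lf
    rw [map_sum]
    simp only [map_mul, aeval_X, aeval_C]
  have hA : ∀ j : Fin 4, j ≠ 3 → (Pi.single j 1 : Fin 4 → k) ∈ A := by
    intro j hj
    by_contra hno
    obtain ⟨f, hf, hle⟩ := A.exists_le_ker_of_notMem hno
    have hfl : ∀ l : Fin 4 → k, f l = ∑ i, l i * f (Pi.single i 1) := by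
      intro l
      conv_lhs => rw [← Finset.univ_sum_single l]
      rw [map_sum]
      refine Finset.sum_congr rfl fun i _ => ?_
      have : (Pi.single i (l i) : Fin 4 → k) = l i • Pi.single i 1 := by
        rw [← Pi.single_smul, smul_eq_mul, mul_one]
      rw [this, map_smul, smul_eq_mul]
    have h1 := horth (fun i => f (Pi.single i 1)) (by
      intro l hl
      rw [← hfl]
      exact hle ((hAI l).1 hl))
    exact hf (c.e6_vertex h.cone.U3 h1 hj)
  have hy0 : ∀ j : Fin 4, j ≠ 3 → z j = 0 := by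
    intro j hj
    have h1 : ∑ i, algebraMap k Ω ((Pi.single j 1 : Fin 4 → k) i) * z i = 0 := hA j hj
    rw [Finset.sum_eq_single j] at h1
    · simpa using h1
    · intro i _ hi
      rw [Pi.single_eq_of_ne hi, map_zero, zero_mul]
    · simp
  apply c.a0
  rw [← c.U2y, Fin.sum_univ_four]
  have e0 : c.y 0 = 0 := hy0 0 (by decide)
  have e1 : c.y 1 = 0 := hy0 1 (by decide)
  have e2 : c.y 2 = 0 := hy0 2 (by decide)
  rw [e0, e1, e2, hU2]
  ring

theorem C1_false {s : Ω} (h : c.CaseA s) {ρ c1 : Ω} (hρ : ρ ^ c.d = c.bb - s * c.a)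
    (hc1 : c1 ∈ acl k ({c.τ} : Set Ω)) (hg : c.g = ρ * c1) : False := by
  obtain ⟨I, V, -, -, hVτ, -, -, -, hVg, hVa, hVb⟩ := c.caseA_barg h
  have h1 : V.valuation (c.bb - s * c.a) < 1 := by
    refine Valuation.map_sub_lt _ hVb ?_
    rw [map_mul, mul_comm]
    exact mul_lt_one_of_lt_of_le hVa ((V.valuation_le_one_iff _).2 (hVτ _ h.smem))
  have h2 : V.valuation ρ < 1 := by
    rw [← hρ, map_pow] at h1
    exact lt_of_not_ge fun h3 => absurd h1 (not_lt.2 (one_le_pow₀ h3))
  have h3 : V.valuation c.g < 1 := by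
    rw [hg, map_mul]
    exact mul_lt_one_of_lt_of_le h2 ((V.valuation_le_one_iff _).2 (hVτ _ hc1))
  rw [hVg] at h3
  exact lt_irrefl _ h3

end FCtx
end Pool.Agent.HDP
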