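import Mathlib
import Pool.Agent.Lib.MP_20906e_al.Defs
import Pool.Agent.Lib.MP_20906e_al.Ctx
import Pool.Agent.Lib.MP_20906e_al.CtxN
import Pool.Agent.Lib.MP_20906e_al.Acl
import Pool.Agent.Lib.MP_20906e_al.B2a
import Pool.Agent.Lib.MP_20906e_al.B3
import Pool.Agent.Lib.MP_20906e_al.B5

/-!
# MP_20906e_al, piece N11: reduction of the quadric to normal form (helper67)
-/

namespace Pool.Agent.HDP
open MvPolynomial Matrix

section
variable {k : Type*} [Field k] [IsAlgClosed k] [CharZero k]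

/-- a nondegenerate symmetric matrix over an algebraically closed field is `Aᵀ A` -/
theorem n11_sym_sq {M : Matrix (Fin 4) (Fin 4) k} (hM : M.transpose = M) (hdet : M.det ≠ 0) :
    ∃ A : Matrix (Fin 4) (Fin 4) k, A.det ≠ 0 ∧ M = Aᵀ * A := by
  have inv2 : Invertible (2 : k) := invertibleOfNonzero two_ne_zero
  have hsymm : LinearMap.IsSymm (Matrix.toBilin' M) :=
    LinearMap.BilinForm.isSymm_iff.1 (Matrix.isSymm_toBilin'_iff_isSymm.2 hM)
  obtain ⟨v0, hv0⟩ := LinearMap.BilinForm.exists_orthogonal_basis hsymm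
  have hfr : Module.finrank k (Fin 4 → k) = 4 := by simp
  let v : Module.Basis (Fin 4) k (Fin 4 → k) := v0.reindex (finCongr hfr)
  have hv : ∀ i j, i ≠ j → Matrix.toBilin' M (v i) (v j) = 0 := by
    intro i j hij
    have h1 : (finCongr hfr).symm i ≠ (finCongr hfr).symm j := fun h => hij ((finCongr hfr).symm.injective h)
    have := hv0 h1
    simpa [v, Module.Basis.reindex_apply] using this
  set P : Matrix (Fin 4) (Fin 4) k := Matrix.of fun i j => v j i with hP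
  have hPv : P = (Pi.basisFun k (Fin 4)).toMatrix v := by
    ext i j
    simp [hP, Module.Basis.toMatrix_apply]
  have hPdet : IsUnit P.det := by
    have : Invertible ((Pi.basisFun k (Fin 4)).toMatrix v) :=
      (Pi.basisFun k (Fin 4)).invertibleToMatrix v
    rw [hPv]
    exact Matrix.isUnit_det_of_invertible _
  have hD : Pᵀ * M * P = Matrix.diagonal fun i => (Pᵀ * M * P) i i := by
    ext i j
    by_cases h : i = j
    · subst h; rw [Matrix.diagonal_apply_eq]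
    · rw [Matrix.diagonal_apply_ne _ h]
      have h1 := hv i j h
      rw [Matrix.toBilin'_apply'] at h1
      rw [← h1, Matrix.mul_assoc, Matrix.mul_apply]
      simp only [dotProduct, Matrix.transpose_apply, hP, Matrix.of_apply]
      refine Finset.sum_congr rfl fun l _ => ?_
      congr 1
  choose e he using fun i => IsAlgClosed.exists_eq_mul_self ((Pᵀ * M * P) i i)
  have hD2 : Pᵀ * M * P = Matrix.diagonal e * Matrix.diagonal e := by
    rw [Matrix.diagonal_mul_diagonal]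
    have h5 : (fun i => e i * e i) = fun i => (Pᵀ * M * P) i i := funext fun i => (he i).symm
    rw [h5]
    exact hD
  have hedet : (Matrix.diagonal e).det ≠ 0 := by
    intro h
    have h1 := congrArg Matrix.det hD2
    rw [Matrix.det_mul, Matrix.det_mul, Matrix.det_mul, Matrix.det_transpose, h, mul_zero] at h1
    exact mul_ne_zero (mul_ne_zero hPdet.ne_zero hdet) hPdet.ne_zero h1
  refine ⟨Matrix.diagonal e * P⁻¹, ?_, ?_⟩
  · rw [Matrix.det_mul]
    refine mul_ne_zero hedet ?_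
    have h2 : P.det * P⁻¹.det = 1 := by
      rw [← Matrix.det_mul, Matrix.mul_nonsing_inv _ hPdet, Matrix.det_one]
    exact right_ne_zero_of_mul_eq_one h2
  · have h3 : (Matrix.diagonal e * P⁻¹)ᵀ * (Matrix.diagonal e * P⁻¹) =
        P⁻¹ᵀ * (Matrix.diagonal e * Matrix.diagonal e) * P⁻¹ := by
      rw [Matrix.transpose_mul, Matrix.diagonal_transpose]
      simp only [Matrix.mul_assoc]
    rw [h3, ← hD2]
    have h4 : P⁻¹ᵀ * Pᵀ = 1 := by
      rw [← Matrix.transpose_mul, Matrix.mul_nonsing_inv _ hPdet, Matrix.transpose_one]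
    calc M = 1 * M * 1 := by simp
      _ = (P⁻¹ᵀ * Pᵀ) * M * (P * P⁻¹) := by rw [h4, Matrix.mul_nonsing_inv _ hPdet]
      _ = P⁻¹ᵀ * (Pᵀ * M * P) * P⁻¹ := by simp only [Matrix.mul_assoc]

/-- twice the matrix of `y0 y3 - y1 y2` -/
def n11_Q : Matrix (Fin 4) (Fin 4) k := !![0, 0, 0, 1; 0, 0, -1, 0; 0, -1, 0, 0; 1, 0, 0, 0]

theorem n11_cong {M : Matrix (Fin 4) (Fin 4) k} (hM : M.transpose = M) (hdet : M.det ≠ 0) :
    ∃ T T' : Matrix (Fin 4) (Fin 4) k, T' * T = 1 ∧ T * T' = 1 ∧ M = Tᵀ * n11_Q * T := by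
  obtain ⟨A, hA, hMA⟩ := n11_sym_sq hM hdet
  have hQ1 : (n11_Q : Matrix (Fin 4) (Fin 4) k).transpose = n11_Q := by
    ext i j
    fin_cases i <;> fin_cases j <;> simp [n11_Q]
  have hQ2 : (n11_Q : Matrix (Fin 4) (Fin 4) k).det ≠ 0 := by
    have : (n11_Q : Matrix (Fin 4) (Fin 4) k).det = 1 := by
      simp [n11_Q, Matrix.det_succ_row_zero, Fin.sum_univ_succ, Fin.succAbove]
      norm_num
    rw [this]; exact one_ne_zero
  obtain ⟨B, hB, hQB⟩ := n11_sym_sq hQ1 hQ2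
  have hBu : IsUnit B.det := isUnit_iff_ne_zero.2 hB
  have hAu : IsUnit A.det := isUnit_iff_ne_zero.2 hA
  refine ⟨B⁻¹ * A, A⁻¹ * B, ?_, ?_, ?_⟩
  · calc A⁻¹ * B * (B⁻¹ * A) = A⁻¹ * (B * B⁻¹) * A := by simp only [Matrix.mul_assoc]
      _ = 1 := by rw [Matrix.mul_nonsing_inv _ hBu, Matrix.mul_one, Matrix.nonsing_inv_mul _ hAu]
  · calc B⁻¹ * A * (A⁻¹ * B) = B⁻¹ * (A * A⁻¹) * B := by simp only [Matrix.mul_assoc]
      _ = 1 := by rw [Matrix.mul_nonsing_inv _ hAu, Matrix.mul_one, Matrix.nonsing_inv_mul _ hBu]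
  · rw [Matrix.transpose_mul, hQB, hMA]
    have h4 : B⁻¹ᵀ * Bᵀ = 1 := by
      rw [← Matrix.transpose_mul, Matrix.mul_nonsing_inv _ hBu, Matrix.transpose_one]
    calc Aᵀ * A = Aᵀ * 1 * (1 * A) := by simp
      _ = Aᵀ * (B⁻¹ᵀ * Bᵀ) * ((B * B⁻¹) * A) := by rw [h4, Matrix.mul_nonsing_inv _ hBu]
      _ = Aᵀ * B⁻¹ᵀ * (Bᵀ * B) * (B⁻¹ * A) := by simp only [Matrix.mul_assoc]

end

namespace Ctx3
variable {k Ω : Type*} [Field k] [IsAlgClosed k] [CharZero k] [Field Ω] [IsAlgClosed Ω] [Algebra k Ω]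
  (c : Ctx3 k Ω)

/-- the bilinear form in the new coordinates -/
theorem n11_form {M T : Matrix (Fin 4) (Fin 4) k} (h : M = Tᵀ * n11_Q * T) (v w : Fin 4 → Ω) :
    ∑ i, ∑ j, algebraMap k Ω (M i j) * v i * w j =
      lin T v 0 * lin T w 3 + lin T v 3 * lin T w 0 - lin T v 1 * lin T w 2 -
        lin T v 2 * lin T w 1 := by
  subst h
  simp only [lin, Matrix.mul_apply, Matrix.transpose_apply, Fin.sum_univ_four, n11_Q,
    Matrix.of_apply, Matrix.cons_val, map_add, map_mul, map_zero, map_one, map_neg,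
    mul_zero, mul_one, add_zero, zero_add, mul_neg]
  ring

/-- direction in the new coordinates -/
theorem n11_dir {c' : Ctx3 k Ω} {T T' : Matrix (Fin 4) (Fin 4) k} (hT : T' * T = 1)
    (hx : c'.x = lin T c.x) (hL : ∀ f, f ∈ c'.L ↔ f ∈ c.L) {V : ValuationSubring Ω}
    {b : Fin 4 → Ω} {i0 : Fin 4} (hb : c.IsDir V b i0) :
    ∃ j0 : Fin 4, lin T b j0 ≠ 0 ∧ c'.IsDir V (fun i => lin T b i / lin T b j0) j0 := by
  have hne : ∃ j0, lin T b j0 ≠ 0 := by
    by_contra hcon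
    push Not at hcon
    have h1 := congrFun (lin_lin hT b) i0
    have h2 : lin T b = fun _ => 0 := funext hcon
    rw [h2, hb.one] at h1
    simp [lin] at h1
  obtain ⟨j0, hj0⟩ := hne
  refine ⟨j0, hj0, ?_⟩
  have hbL : ∀ i, lin T b i ∈ c.L := lin_mem _ T hb.mem
  have hx0 := c.b3_x0_ne hb
  -- the residues of the new coordinates
  have hres : ∀ i, V.valuation (c'.x i / c.x i0 - lin T b i) < 1 := by
    intro i
    have h1 : c'.x i / c.x i0 - lin T b i =
        ∑ j, algebraMap k Ω (T i j) * (c.x j / c.x i0 - b j) := by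
      rw [hx]
      unfold lin
      rw [Finset.sum_div, ← Finset.sum_sub_distrib]
      refine Finset.sum_congr rfl fun j _ => ?_
      ring
    rw [h1]
    refine Valuation.map_sum_lt _ one_ne_zero fun j _ => ?_
    rw [map_mul]
    have h2 : V.valuation (algebraMap k Ω (T i j)) ≤ 1 :=
      (V.valuation_le_one_iff _).2 (c.b3_k_mem hb.place _)
    exact (mul_le_of_le_one_left' h2).trans_lt (hb.res j)
  have hvL : V.valuation (lin T b j0) = 1 := c.val_L V hb.place (hbL j0) hj0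
  have hq1 : V.valuation (c'.x j0 / c.x i0) = 1 := by
    have h1 : c'.x j0 / c.x i0 = (c'.x j0 / c.x i0 - lin T b j0) + lin T b j0 := by ring
    rw [h1, Valuation.map_add_eq_of_lt_right _ (by rw [hvL]; exact hres j0), hvL]
  have hq0 : c'.x j0 / c.x i0 ≠ 0 := by
    intro h0
    rw [h0, map_zero] at hq1
    exact zero_ne_one hq1
  have hx'0 : c'.x j0 ≠ 0 := fun h0 => hq0 (by rw [h0, zero_div])
  refine ⟨fun a ha => hb.place a ((hL a).1 ha), ?_, div_self hj0,
    fun i => (hL _).2 (div_mem (hbL i) (hbL j0)), ?_⟩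
  · intro hmem
    apply hb.inf
    have h1 : c.x i0 = c'.x j0 * (c'.x j0 / c.x i0)⁻¹ := by field_simp
    rw [h1]
    refine V.mul_mem _ _ hmem ?_
    rw [← V.valuation_le_one_iff, map_inv₀, hq1, inv_one]
  · intro i
    have h1 : c'.x i / c'.x j0 - lin T b i / lin T b j0 =
        ((c'.x i / c.x i0 - lin T b i) * lin T b j0 -
          lin T b i * (c'.x j0 / c.x i0 - lin T b j0)) /
          ((c'.x j0 / c.x i0) * lin T b j0) := by
      field_simp
      ring
    rw [h1, map_div₀, map_mul, hq1, hvL, one_mul, div_one]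
    refine (Valuation.map_sub _ _ _).trans_lt (max_lt ?_ ?_)
    · rw [map_mul, hvL, mul_one]; exact hres i
    · rw [map_mul]
      have h2 : V.valuation (lin T b i) ≤ 1 := (V.valuation_le_one_iff _).2 (hb.place _ (hbL i))
      exact (mul_le_of_le_one_left' h2).trans_lt (hres j0)

/-! ## N11: reduction of the quadric to normal form -/
theorem quad_normal {M : Matrix (Fin 4) (Fin 4) k} (hM : M.transpose = M) (hdet : M.det ≠ 0)
    (hy : ∑ i, ∑ j, algebraMap k Ω (M i j) * c.y i * c.y j = 0)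
    {V V' : ValuationSubring Ω} {b b' : Fin 4 → Ω} {i0 i1 : Fin 4} (hb : c.IsDir V b i0)
    (hb' : c.IsDir V' b' i1)
    (hσ : ∃ σ ∈ c.L, ∀ i, b i ∈ acl k ({σ} : Set Ω)) (hσ' : ∃ σ ∈ c.L, ∀ i, b' i ∈ acl k ({σ} : Set Ω))
    (hbb : ∑ i, ∑ j, algebraMap k Ω (M i j) * b i * b' j ≠ 0) :
    ∃ (c' : Ctx3 k Ω) (b₁ b₁' : Fin 4 → Ω) (j0 j1 : Fin 4), c'.Quad V V' b₁ b₁' j0 j1 ∧
      c'.G = c.G := by
  obtain ⟨T, T', hT, hT', hMT⟩ := n11_cong hM hdet
  obtain ⟨c', -, hx, hy', hW, -, -, -, -, hG⟩ := c.exists_lin T T' hT hT'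
  have hL : ∀ f, f ∈ c'.L ↔ f ∈ c.L := by
    intro f
    rw [c'.mem_L_iff, c.mem_L_iff, hW]
  obtain ⟨j0, hj0, hd⟩ := c.n11_dir hT hx hL hb
  obtain ⟨j1, hj1, hd'⟩ := c.n11_dir hT hx hL hb'
  refine ⟨c', _, _, j0, j1, ⟨?_, hd, hd', ?_, ?_, ?_⟩, hG⟩
  · rw [n11_form hMT] at hy
    rw [hy']
    have h2 : (2 : Ω) ≠ 0 := by
      have : CharZero Ω := charZero_of_injective_algebraMap (algebraMap k Ω).injective
      exact two_ne_zero
    have h3 : 2 * (lin T c.y 0 * lin T c.y 3 - lin T c.y 1 * lin T c.y 2) = 0 := by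
      linear_combination hy
    exact sub_eq_zero.1 ((mul_eq_zero.1 h3).resolve_left h2)
  · obtain ⟨σ, hσL, hσb⟩ := hσ
    exact ⟨σ, (hL σ).2 hσL, fun i => div_mem (lin_mem _ T hσb i) (lin_mem _ T hσb j0)⟩
  · obtain ⟨σ, hσL, hσb⟩ := hσ'
    exact ⟨σ, (hL σ).2 hσL, fun i => div_mem (lin_mem _ T hσb i) (lin_mem _ T hσb j1)⟩
  · rw [n11_form hMT] at hbb
    intro h0
    apply hbb
    have h1 : lin T b 0 * lin T b' 3 + lin T b 3 * lin T b' 0 - lin T b 1 * lin T b' 2 -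
        lin T b 2 * lin T b' 1 =
        (lin T b j0 * lin T b' j1) * (lin T b 0 / lin T b j0 * (lin T b' 3 / lin T b' j1) +
          lin T b 3 / lin T b j0 * (lin T b' 0 / lin T b' j1) -
          lin T b 1 / lin T b j0 * (lin T b' 2 / lin T b' j1) -
          lin T b 2 / lin T b j0 * (lin T b' 1 / lin T b' j1)) := by
      field_simp
    rw [h1, h0, mul_zero]

end Ctx3
end Pool.Agent.HDP
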