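import Mathlib
import Pool.Agent.Lib.MP_20906e_al.Defs
import Pool.Agent.Lib.MP_20906e_al.Ctx
import Pool.Agent.Lib.MP_20906e_al.CtxN
import Pool.Agent.Lib.MP_20906e_al.DCtx
import Pool.Agent.Lib.MP_20906e_al.Cone
import Pool.Agent.Lib.MP_20906e_al.Acl
import Pool.Agent.Lib.MP_20906e_al.Der
import Pool.Agent.Lib.MP_20906e_al.Place
import Pool.Agent.Lib.MP_20906e_al.B2a
import Pool.Agent.Lib.MP_20906e_al.B2b
import Pool.Agent.Lib.MP_20906e_al.B3
import Pool.Agent.Lib.MP_20906e_al.B5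
import Pool.Agent.Lib.MP_20906e_al.N11
import Pool.Agent.Lib.MP_20906e_al.E1a
import Pool.Agent.Lib.MP_20906e_al.E1b
import Pool.Agent.Lib.MP_20906e_al.E2
import Pool.Agent.Lib.MP_20906e_al.E3
import Pool.Agent.Lib.MP_20906e_al.E4
import Pool.Agent.Lib.MP_20906e_al.E6

/-!
# MP_20906e_al, piece E7a: case A gives a conic (helper24)
-/

set_option linter.unusedSectionVars false

namespace Pool.Agent.HDP
open MvPolynomial Matrix

/-! ### a conic frame from `y1 ^ 2 = 2 y0 y2` -/

section ConicFrame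
variable {k Ω : Type*} [Field k] [IsAlgClosed k] [CharZero k] [Field Ω] [IsAlgClosed Ω] [Algebra k Ω]

private theorem e7a_poly_zero {τ : Ω} (hτ : τ ∉ acl k (∅ : Set Ω)) {v0 v1 v2 : k}
    (h : algebraMap k Ω v0 * τ ^ 2 + algebraMap k Ω v1 * τ + algebraMap k Ω v2 = 0) :
    v0 = 0 ∧ v1 = 0 ∧ v2 = 0 := by
  have htr : Transcendental k τ := by
    intro halg
    apply hτ
    exact mem_acl_of_isAlgebraic (halg.tower_top (acl k (∅ : Set Ω)))
  rw [transcendental_iff] at htr
  have h1 := htr (Polynomial.C v0 * Polynomial.X ^ 2 + Polynomial.C v1 * Polynomial.X +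
    Polynomial.C v2) (by simpa using h)
  have c0 := congrArg (fun p => Polynomial.coeff p 0) h1
  have c1 := congrArg (fun p => Polynomial.coeff p 1) h1
  have c2 := congrArg (fun p => Polynomial.coeff p 2) h1
  simp [Polynomial.coeff_X, Polynomial.coeff_C] at c0 c1 c2
  exact ⟨c2, c1, c0⟩

theorem exists_conic_aux (c : Ctx3 k Ω) (h : c.y 1 ^ 2 = 2 * c.y 0 * c.y 2) :
    ∃ c' : DCtx k Ω, c'.toCtx3 = c ∧ c'.τ = c.y 1 / c.y 0 ∧
      c'.U = ![(c.y 1 / c.y 0) ^ 2 / 2, - (c.y 1 / c.y 0), 1, 0] ∧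
      c'.U1 = ![c.y 1 / c.y 0, -1, 0, 0] ∧ c'.U2 = ![1, 0, 0, 0] ∧ c'.a = c.y 0 := by
  have hcz : CharZero Ω := charZero_of_injective_algebraMap (algebraMap k Ω).injective
  have h2 : (2 : Ω) ≠ 0 := two_ne_zero
  have hy0 : c.y 0 ≠ 0 := by
    intro h0
    have := c.lin_indep_y (Pi.single 0 1) (by
      rw [Finset.sum_eq_single 0]
      · simp [h0]
      · intro b _ hb; rw [Pi.single_eq_of_ne hb]; simp
      · simp)
    have h3 := congrFun this 0
    simp at h3
  obtain ⟨τ, hτ⟩ : ∃ τ : Ω, τ = c.y 1 / c.y 0 := ⟨_, rfl⟩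
  have hy1 : c.y 1 = τ * c.y 0 := by rw [hτ]; field_simp
  have hy2 : c.y 2 = τ ^ 2 / 2 * c.y 0 := by
    have h3 : 2 * c.y 0 * c.y 2 = 2 * c.y 0 * (τ ^ 2 / 2 * c.y 0) := by
      rw [← h, hy1]; ring
    exact mul_left_cancel₀ (mul_ne_zero h2 hy0) h3
  have hτL : τ ∈ c.L := by rw [hτ]; exact div_mem (c.y_mem 1) (c.y_mem 0)
  have hτk : τ ∉ acl k (∅ : Set Ω) := by
    intro hmem
    obtain ⟨a, ha⟩ := (acl_empty τ).1 hmem
    have := c.lin_indep_y ![-a, 1, 0, 0] (by
      rw [Fin.sum_univ_four]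
      simp only [Matrix.cons_val_zero, Matrix.cons_val_one, Matrix.cons_val, map_neg, map_one,
        map_zero]
      rw [hy1, ha]; ring)
    have h3 := congrFun this 1
    simp at h3
  have hx1 : aeval c.x (c.H 1) / aeval c.x (c.H 0) = τ := by rw [← c.hy, ← c.hy, hτ]
  have hH0 : c.H 0 ≠ 0 := by
    intro h0
    apply hy0
    rw [c.hy, h0, map_zero]
  obtain ⟨P, Q, e, he, hPQ, hP, hQ, hQ0, hPQτ⟩ :=
    c.exists_coprime_forms (c.nil.hom 1) (c.nil.hom 0) hH0 (by rw [hx1]; exact hτk)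
  rw [hx1] at hPQτ
  have hDy : ∀ D : Derivation k Ω Ω, τ ^ 2 / 2 * D (c.y 0) + - τ * D (c.y 1) + 1 * D (c.y 2) = 0 := by
    intro D
    have e1 : D (c.y 1) = τ * D (c.y 0) + c.y 0 * D τ := by
      rw [hy1, Derivation.leibniz, smul_eq_mul, smul_eq_mul]
    have e2 : D (c.y 2) = τ ^ 2 / 2 * D (c.y 0) + c.y 0 * (τ * D τ) := by
      have e3 : 2 * c.y 2 = τ * (τ * c.y 0) := by rw [hy2]; field_simp
      have e4 := congrArg D e3
      have e5 : D (2 * c.y 2) = 2 * D (c.y 2) := by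
        rw [two_mul, map_add, ← two_mul]
      rw [e5, Derivation.leibniz, Derivation.leibniz] at e4
      simp only [smul_eq_mul] at e4
      field_simp
      linear_combination e4
    rw [e1, e2]; ring
  obtain ⟨e', he'⟩ := c.ker_left ![τ ^ 2 / 2, - τ, 1, 0] (by
    intro D
    rw [Fin.sum_univ_four]
    simp only [Matrix.cons_val_zero, Matrix.cons_val_one, Matrix.cons_val]
    have := hDy D
    linear_combination this)
  have he'0 : e' ≠ 0 := by
    rintro rfl
    have := he' 2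
    simp at this
  have hmemτ : τ ∈ acl k ({τ} : Set Ω) := subset_acl _ rfl
  have hE : c.E τ = 0 := by
    rw [hτ, Derivation.leibniz_div, c.Ey, c.Ey]
    simp only [smul_eq_mul]
    ring
  refine ⟨{ toCtx3 := c
            τ := τ
            τL := hτL
            τk := hτk
            P := P
            Q := Q
            e := e
            he := he
            PQ := hPQ
            Ph := hP
            Qh := hQ
            Q0 := hQ0
            hτ := hPQτ
            U := ![τ ^ 2 / 2, - τ, 1, 0]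
            U1 := ![τ, -1, 0, 0]
            U2 := ![1, 0, 0, 0]
            uj := e'⁻¹
            uj0 := inv_ne_zero he'0
            hU := ?_
            Umem := ?_
            U1mem := ?_
            U2mem := ?_
            DU := ?_
            DU1 := ?_
            a := c.y 0
            Uy := ?_
            U1y := ?_
            U2y := ?_
            a0 := hy0
            Eτ := hE
            span3 := ?_ }, rfl, hτ, ?_, ?_, rfl, rfl⟩
  · intro i
    rw [he' i]; field_simp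
  · intro i
    fin_cases i
    · exact div_mem (pow_mem hmemτ 2) (ofNat_mem _ 2)
    · exact neg_mem hmemτ
    · exact one_mem _
    · exact zero_mem _
  · intro i
    fin_cases i
    · exact hmemτ
    · exact neg_mem (one_mem _)
    · exact zero_mem _
    · exact zero_mem _
  · intro i
    fin_cases i
    · exact one_mem _
    · exact zero_mem _
    · exact zero_mem _
    · exact zero_mem _
  · intro D i
    fin_cases i
    · change D (τ ^ 2 / 2) = τ * D τ
      have e3 : τ * τ = 2 * (τ ^ 2 / 2) := by field_simp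
      have e4 := congrArg D e3
      have e5 : D (2 * (τ ^ 2 / 2)) = 2 * D (τ ^ 2 / 2) := by
        rw [two_mul, map_add, ← two_mul]
      rw [e5, Derivation.leibniz, smul_eq_mul] at e4
      have e6 : 2 * D (τ ^ 2 / 2) = 2 * (τ * D τ) := by rw [← e4]; ring
      exact mul_left_cancel₀ h2 e6
    · change D (- τ) = -1 * D τ
      rw [map_neg]; ring
    · change D 1 = 0 * D τ
      rw [D.map_one_eq_zero, zero_mul]
    · change D 0 = 0 * D τ
      rw [map_zero, zero_mul]
  · intro D i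
    fin_cases i
    · change D τ = 1 * D τ
      rw [one_mul]
    · change D (-1) = 0 * D τ
      rw [map_neg, D.map_one_eq_zero, zero_mul, neg_zero]
    · change D 0 = 0 * D τ
      rw [map_zero, zero_mul]
    · change D 0 = 0 * D τ
      rw [map_zero, zero_mul]
  · rw [Fin.sum_univ_four]
    simp only [Matrix.cons_val_zero, Matrix.cons_val_one, Matrix.cons_val]
    rw [hy1, hy2]; ring
  · rw [Fin.sum_univ_four]
    simp only [Matrix.cons_val_zero, Matrix.cons_val_one, Matrix.cons_val]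
    rw [hy1]; ring
  · rw [Fin.sum_univ_four]
    simp only [Matrix.cons_val_zero, Matrix.cons_val_one, Matrix.cons_val]
    ring
  · rintro v w hvw ⟨hv, hw⟩
    have key : ∀ v : Fin 4 → k, ∑ i, (![τ ^ 2 / 2, - τ, 1, 0] : Fin 4 → Ω) i *
        algebraMap k Ω (v i) = 0 → v 0 = 0 ∧ v 1 = 0 ∧ v 2 = 0 := by
      intro v hv
      rw [Fin.sum_univ_four] at hv
      simp only [Matrix.cons_val_zero, Matrix.cons_val_one, Matrix.cons_val] at hv
      have h3 : algebraMap k Ω (v 0) * τ ^ 2 + algebraMap k Ω (-(2 * v 1)) * τ +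
          algebraMap k Ω (2 * v 2) = 0 := by
        rw [map_neg, map_mul, map_mul, map_ofNat]
        linear_combination 2 * hv
      obtain ⟨e0, e1, e2⟩ := e7a_poly_zero hτk h3
      have h2' : (2 : k) ≠ 0 := two_ne_zero
      refine ⟨e0, ?_, ?_⟩
      · exact (mul_eq_zero.1 (neg_eq_zero.1 e1)).resolve_left h2'
      · exact (mul_eq_zero.1 e2).resolve_left h2'
    obtain ⟨v0, v1, v2⟩ := key v hv
    obtain ⟨w0, w1, w2⟩ := key w hw
    rw [LinearIndependent.pair_iff] at hvw
    have h3 := hvw (w 3) (-(v 3)) (by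
      funext i
      fin_cases i
      · simp [v0, w0]
      · simp [v1, w1]
      · simp [v2, w2]
      · simp only [Pi.add_apply, Pi.smul_apply, smul_eq_mul, Pi.zero_apply]
        change w 3 * v 3 + -v 3 * w 3 = 0
        ring)
    have hw0 : w = 0 := by
      funext i
      fin_cases i
      · exact w0
      · exact w1
      · exact w2
      · exact h3.1
    have h4 := hvw 0 1 (by rw [hw0]; simp)
    exact one_ne_zero h4.2
  · rw [← hτ]
  · rw [← hτ]

theorem exists_conic (c : Ctx3 k Ω) (h : c.y 1 ^ 2 = 2 * c.y 0 * c.y 2) :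
    ∃ c' : FCtx k Ω, c'.toCtx3 = c ∧ c'.Conic := by
  have hcz : CharZero Ω := charZero_of_injective_algebraMap (algebraMap k Ω).injective
  obtain ⟨c1, rfl, hτ, hU, hU1, hU2, ha⟩ := exists_conic_aux c h
  rw [← hτ] at hU hU1
  have hy1 : c1.y 1 = c1.τ * c1.y 0 := by
    rw [hτ, ← ha]
    have := c1.a0
    field_simp
  have hy2 : c1.y 2 = c1.τ ^ 2 / 2 * c1.y 0 := by
    have h3 := c1.Uy
    rw [hU, Fin.sum_univ_four] at h3
    simp only [Matrix.cons_val_zero, Matrix.cons_val_one, Matrix.cons_val] at h3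
    rw [hy1] at h3
    linear_combination h3
  have hB : ∀ i, (![0, 0, 0, 1] : Fin 4 → Ω) i ∈ acl k ({c1.τ} : Set Ω) := by
    intro i
    fin_cases i
    · exact zero_mem _
    · exact zero_mem _
    · exact zero_mem _
    · exact one_mem _
  have hfr : LinearIndependent Ω ![c1.U, c1.U1, c1.U2, (![0, 0, 0, 1] : Fin 4 → Ω)] := by
    rw [Fintype.linearIndependent_iff]
    intro g hg
    rw [Fin.sum_univ_four, hU, hU1, hU2] at hg
    have g0 := congrFun hg 0
    have g1 := congrFun hg 1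
    have g2 := congrFun hg 2
    have g3 := congrFun hg 3
    simp at g0 g1 g2 g3
    rw [g2] at g0 g1
    simp at g0 g1
    rw [g1] at g0
    simp at g0
    intro i
    fin_cases i
    · exact g2
    · exact g1
    · exact g0
    · exact g3
  obtain ⟨c', rfl, hB'⟩ := c1.e2_core _ hB hfr
  refine ⟨c', rfl, ?_⟩
  obtain ⟨dt, hdt⟩ := e2_exists_der c'.τk
  have hp : c'.p = 0 := by
    apply DCtx.e2_unique c'
    intro j
    have h1 := c'.DU2 dt j
    rw [hdt, mul_one] at h1
    rw [← h1, hU2]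
    have h2 : dt ((![1, 0, 0, 0] : Fin 4 → Ω) j) = 0 := by
      fin_cases j
      · exact dt.map_one_eq_zero
      · exact map_zero dt
      · exact map_zero dt
      · exact map_zero dt
    rw [h2]; simp
  have hq : c'.q = 0 := by
    apply DCtx.e2_unique c'
    intro j
    have h1 := c'.DB dt j
    rw [hdt, mul_one] at h1
    rw [← h1, hB']
    have h2 : dt ((![0, 0, 0, 1] : Fin 4 → Ω) j) = 0 := by
      fin_cases j
      · exact map_zero dt
      · exact map_zero dt
      · exact map_zero dt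
      · exact dt.map_one_eq_zero
    rw [h2]; simp
  refine ⟨hU, hU1, hU2, hB', hp, hq, ha, ?_, hy1, hy2⟩
  have h3 := c'.By
  rw [hB', Fin.sum_univ_four] at h3
  simpa using h3.symm

end ConicFrame

/-! ### normal form of a ternary form -/

section Tern
variable {k : Type*} [Field k] [IsAlgClosed k] [CharZero k]

/-- every symmetric matrix over an algebraically closed field is `(E A)ᵀ (E A)` with `E` diagonal
and `A` invertible -/
private theorem e7a_diag {M : Matrix (Fin 3) (Fin 3) k} (hM : M.transpose = M) :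
    ∃ (A : Matrix (Fin 3) (Fin 3) k) (e : Fin 3 → k), IsUnit A.det ∧
      M = (Matrix.diagonal e * A)ᵀ * (Matrix.diagonal e * A) := by
  have inv2 : Invertible (2 : k) := invertibleOfNonzero two_ne_zero
  have hsymm : LinearMap.IsSymm (Matrix.toBilin' M) :=
    LinearMap.BilinForm.isSymm_iff.1 (Matrix.isSymm_toBilin'_iff_isSymm.2 hM)
  obtain ⟨v0, hv0⟩ := LinearMap.BilinForm.exists_orthogonal_basis hsymm
  have hfr : Module.finrank k (Fin 3 → k) = 3 := by simp
  let v : Module.Basis (Fin 3) k (Fin 3 → k) := v0.reindex (finCongr hfr)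
  have hv : ∀ i j, i ≠ j → Matrix.toBilin' M (v i) (v j) = 0 := by
    intro i j hij
    have h1 : (finCongr hfr).symm i ≠ (finCongr hfr).symm j := fun h => hij ((finCongr hfr).symm.injective h)
    have := hv0 h1
    simpa [v, Module.Basis.reindex_apply] using this
  set P : Matrix (Fin 3) (Fin 3) k := Matrix.of fun i j => v j i with hP
  have hPv : P = (Pi.basisFun k (Fin 3)).toMatrix v := by
    ext i j
    simp [hP, Module.Basis.toMatrix_apply]
  have hPdet : IsUnit P.det := by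
    have : Invertible ((Pi.basisFun k (Fin 3)).toMatrix v) :=
      (Pi.basisFun k (Fin 3)).invertibleToMatrix v
    rw [hPv]
    exact Matrix.isUnit_det_of_invertible _
  have hD : Pᵀ * M * P = Matrix.diagonal fun i => (Pᵀ * M * P) i i := by
    ext i j
    by_cases h : i = j
    · subst h; rw [Matrix.diagonal_apply_eq]
    · rw [Matrix.diagonal_apply_ne _ h]
      have h1 := hv i j h
      rw [Matrix.toBilin'_apply'] at h1
      rw [← h1, Matrix.mul_assoc, Matrix.mul_apply]
      simp only [dotProduct, Matrix.transpose_apply, hP, Matrix.of_apply]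
      refine Finset.sum_congr rfl fun l _ => ?_
      congr 1
  choose e he using fun i => IsAlgClosed.exists_eq_mul_self ((Pᵀ * M * P) i i)
  have hD2 : Pᵀ * M * P = Matrix.diagonal e * Matrix.diagonal e := by
    rw [Matrix.diagonal_mul_diagonal]
    have h5 : (fun i => e i * e i) = fun i => (Pᵀ * M * P) i i := funext fun i => (he i).symm
    rw [h5]
    exact hD
  refine ⟨P⁻¹, e, Matrix.isUnit_nonsing_inv_det _ hPdet, ?_⟩
  have h3 : (Matrix.diagonal e * P⁻¹)ᵀ * (Matrix.diagonal e * P⁻¹) =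
      P⁻¹ᵀ * (Matrix.diagonal e * Matrix.diagonal e) * P⁻¹ := by
    rw [Matrix.transpose_mul, Matrix.diagonal_transpose]
    simp only [Matrix.mul_assoc]
  rw [h3, ← hD2]
  have h4 : P⁻¹ᵀ * Pᵀ = 1 := by
    rw [← Matrix.transpose_mul, Matrix.mul_nonsing_inv _ hPdet, Matrix.transpose_one]
  calc M = 1 * M * 1 := by simp
    _ = (P⁻¹ᵀ * Pᵀ) * M * (P * P⁻¹) := by rw [h4, Matrix.mul_nonsing_inv _ hPdet]
    _ = P⁻¹ᵀ * (Pᵀ * M * P) * P⁻¹ := by simp only [Matrix.mul_assoc]

/-- the matrix of `X1 ^ 2 - 2 X0 X2` -/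
def e7a_Q : Matrix (Fin 3) (Fin 3) k := !![0, 0, -1; 0, 1, 0; -1, 0, 0]

private theorem e7a_inv {C : Matrix (Fin 3) (Fin 3) k} {e : Fin 3 → k} {A : Matrix (Fin 3) (Fin 3) k}
    (hA : IsUnit A.det) (he : ∀ i, e i ≠ 0) (hC : C = Matrix.diagonal e * A) : IsUnit C.det := by
  rw [hC, Matrix.det_mul, Matrix.det_diagonal]
  exact (isUnit_iff_ne_zero.2 (Finset.prod_ne_zero_iff.2 fun i _ => he i)).mul hA

private theorem e7a_Q_sq : ∃ B : Matrix (Fin 3) (Fin 3) k, IsUnit B.det ∧ e7a_Q = Bᵀ * B := by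
  have hQ1 : (e7a_Q : Matrix (Fin 3) (Fin 3) k).transpose = e7a_Q := by
    ext i j
    fin_cases i <;> fin_cases j <;> simp [e7a_Q]
  have hQ2 : (e7a_Q : Matrix (Fin 3) (Fin 3) k).det = -1 := by
    simp [e7a_Q, Matrix.det_fin_three]
  obtain ⟨A, e, hA, hM⟩ := e7a_diag hQ1
  refine ⟨Matrix.diagonal e * A, ?_, hM⟩
  have h1 := congrArg Matrix.det hM
  rw [hQ2, Matrix.det_mul, Matrix.det_transpose] at h1
  rw [isUnit_iff_ne_zero]
  intro h0
  rw [h0, mul_zero] at h1
  exact (neg_ne_zero.2 one_ne_zero) h1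

variable {Ω : Type*} [Field Ω] [IsAlgClosed Ω] [Algebra k Ω]

/-- normal form of a nonzero ternary form vanishing at an independent triple -/
private theorem e7a_normal {M : Matrix (Fin 3) (Fin 3) k} (hM : M.transpose = M) (hM0 : M ≠ 0)
    {y : Fin 3 → Ω} (hy : ∀ a : Fin 3 → k, ∑ i, algebraMap k Ω (a i) * y i = 0 → a = 0)
    (hMy : ∑ i, ∑ j, algebraMap k Ω (M i j) * y i * y j = 0) :
    ∃ T T' : Matrix (Fin 3) (Fin 3) k, T' * T = 1 ∧ T * T' = 1 ∧
      (∑ j, algebraMap k Ω (T 1 j) * y j) ^ 2 =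
        2 * (∑ j, algebraMap k Ω (T 0 j) * y j) * (∑ j, algebraMap k Ω (T 2 j) * y j) := by
  obtain ⟨A, e, hA, hMA⟩ := e7a_diag hM
  -- the form is the sum of three squares
  have hform : ∀ C : Matrix (Fin 3) (Fin 3) k, M = Cᵀ * C →
      (∑ j, algebraMap k Ω (C 0 j) * y j) ^ 2 + (∑ j, algebraMap k Ω (C 1 j) * y j) ^ 2 +
        (∑ j, algebraMap k Ω (C 2 j) * y j) ^ 2 = 0 := by
    intro C hC
    rw [← hMy, hC]
    simp only [Matrix.mul_apply, Matrix.transpose_apply, Fin.sum_univ_three, map_add, map_mul]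
    ring
  obtain ⟨ii, hii⟩ : ∃ ii : k, ii * ii = -1 := by
    obtain ⟨z, hz⟩ := IsAlgClosed.exists_eq_mul_self (-1 : k)
    exact ⟨z, hz.symm⟩
  have he : ∀ i, e i ≠ 0 := by
    -- if one square is missing, the form factors
    have hAli : LinearIndependent k (fun i => A i) :=
      Matrix.linearIndependent_rows_of_det_ne_zero hA.ne_zero
    rw [Fintype.linearIndependent_iff] at hAli
    have h1 := hform _ hMA
    have hl : ∀ i, ∑ j, algebraMap k Ω ((Matrix.diagonal e * A) i j) * y j =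
        algebraMap k Ω (e i) * ∑ j, algebraMap k Ω (A i j) * y j := by
      intro i
      rw [Finset.mul_sum]
      refine Finset.sum_congr rfl fun j _ => ?_
      rw [Matrix.diagonal_mul, map_mul]; ring
    rw [hl, hl, hl] at h1
    have key : ∀ a b : Fin 3, a ≠ b →
        (algebraMap k Ω (e a) * ∑ j, algebraMap k Ω (A a j) * y j) ^ 2 +
        (algebraMap k Ω (e b) * ∑ j, algebraMap k Ω (A b j) * y j) ^ 2 = 0 → e a = 0 ∧ e b = 0 := by
      intro a b hab hsq
      have hI : algebraMap k Ω ii * algebraMap k Ω ii = -1 := by rw [← map_mul, hii, map_neg, map_one]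
      have hfac : (algebraMap k Ω (e a) * ∑ j, algebraMap k Ω (A a j) * y j +
          algebraMap k Ω ii * (algebraMap k Ω (e b) * ∑ j, algebraMap k Ω (A b j) * y j)) *
          (algebraMap k Ω (e a) * ∑ j, algebraMap k Ω (A a j) * y j -
          algebraMap k Ω ii * (algebraMap k Ω (e b) * ∑ j, algebraMap k Ω (A b j) * y j)) = 0 := by
        linear_combination hsq - (algebraMap k Ω (e b) * ∑ j, algebraMap k Ω (A b j) * y j) ^ 2 * hI
      have hlin : ∀ s : k, algebraMap k Ω (e a) * ∑ j, algebraMap k Ω (A a j) * y j +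
          algebraMap k Ω s * (algebraMap k Ω (e b) * ∑ j, algebraMap k Ω (A b j) * y j) = 0 →
          e a = 0 ∧ s * e b = 0 := by
        intro s hs
        have h2 := hy (fun j => e a * A a j + s * e b * A b j) (by
          rw [← hs, Finset.mul_sum, Finset.mul_sum, Finset.mul_sum, ← Finset.sum_add_distrib]
          refine Finset.sum_congr rfl fun j _ => ?_
          simp only [map_add, map_mul]
          ring)
        have h3 := hAli (fun i => if i = a then e a else if i = b then s * e b else 0) (by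
          funext j
          rw [Finset.sum_apply]
          have h4 := congrFun h2 j
          have h5 : ∑ i, ((if i = a then e a else if i = b then s * e b else 0) • A i) j =
              e a * A a j + s * e b * A b j := by
            rw [← Finset.sum_subset (Finset.subset_univ ({a, b} : Finset (Fin 3)))]
            · rw [Finset.sum_pair hab]
              simp [hab.symm]
            · intro l _ hl
              simp only [Finset.mem_insert, Finset.mem_singleton, not_or] at hl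
              simp [hl.1, hl.2]
          exact h5.trans h4)
        have h5 := h3 a
        have h6 := h3 b
        simp only [if_pos, hab.symm, if_false] at h5 h6
        exact ⟨h5, h6⟩
      have hii0 : ii ≠ 0 := by
        rintro rfl
        rw [mul_zero] at hii
        exact (neg_ne_zero.2 one_ne_zero) hii.symm
      rcases mul_eq_zero.1 hfac with h2 | h2
      · obtain ⟨h3, h4⟩ := hlin ii h2
        exact ⟨h3, (mul_eq_zero.1 h4).resolve_left hii0⟩
      · obtain ⟨h3, h4⟩ := hlin (-ii) (by rw [map_neg, ← h2]; ring)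
        exact ⟨h3, (mul_eq_zero.1 h4).resolve_left (neg_ne_zero.2 hii0)⟩
    have hall : (∀ i, e i = 0) → False := by
      intro h0
      apply hM0
      have h5 : Matrix.diagonal e = 0 := by
        rw [show e = 0 from funext h0]; simp
      rw [hMA, h5]; simp
    intro i h0
    apply hall
    fin_cases i
    · have h0' : e 0 = 0 := h0
      rw [h0', map_zero, zero_mul] at h1
      obtain ⟨h2, h3⟩ := key 1 2 (by decide) (by linear_combination h1)
      intro i; fin_cases i
      · exact h0'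
      · exact h2
      · exact h3
    · have h0' : e 1 = 0 := h0
      rw [h0', map_zero, zero_mul] at h1
      obtain ⟨h2, h3⟩ := key 0 2 (by decide) (by linear_combination h1)
      intro i; fin_cases i
      · exact h2
      · exact h0'
      · exact h3
    · have h0' : e 2 = 0 := h0
      rw [h0', map_zero, zero_mul] at h1
      obtain ⟨h2, h3⟩ := key 0 1 (by decide) (by linear_combination h1)
      intro i; fin_cases i
      · exact h2
      · exact h3
      · exact h0'
  obtain ⟨B, hB, hQB⟩ := e7a_Q_sq (k := k)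
  obtain ⟨C, hC⟩ : ∃ C, C = Matrix.diagonal e * A := ⟨_, rfl⟩
  have hCu : IsUnit C.det := e7a_inv hA he hC
  rw [← hC] at hMA
  refine ⟨B⁻¹ * C, C⁻¹ * B, ?_, ?_, ?_⟩
  · calc C⁻¹ * B * (B⁻¹ * C) = C⁻¹ * (B * B⁻¹) * C := by simp only [Matrix.mul_assoc]
      _ = 1 := by rw [Matrix.mul_nonsing_inv _ hB, Matrix.mul_one, Matrix.nonsing_inv_mul _ hCu]
  · calc B⁻¹ * C * (C⁻¹ * B) = B⁻¹ * (C * C⁻¹) * B := by simp only [Matrix.mul_assoc]
      _ = 1 := by rw [Matrix.mul_nonsing_inv _ hCu, Matrix.mul_one, Matrix.nonsing_inv_mul _ hB]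
  · have hMT : M = (B⁻¹ * C)ᵀ * e7a_Q * (B⁻¹ * C) := by
      rw [Matrix.transpose_mul, hQB, hMA]
      have h4 : B⁻¹ᵀ * Bᵀ = 1 := by
        rw [← Matrix.transpose_mul, Matrix.mul_nonsing_inv _ hB, Matrix.transpose_one]
      calc Cᵀ * C = Cᵀ * 1 * (1 * C) := by simp
        _ = Cᵀ * (B⁻¹ᵀ * Bᵀ) * ((B * B⁻¹) * C) := by rw [h4, Matrix.mul_nonsing_inv _ hB]
        _ = Cᵀ * B⁻¹ᵀ * (Bᵀ * B) * (B⁻¹ * C) := by simp only [Matrix.mul_assoc]
    generalize B⁻¹ * C = T at hMT ⊢
    rw [hMT] at hMy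
    rw [← sub_eq_zero, ← hMy]
    simp only [Matrix.mul_apply, Matrix.transpose_apply, Fin.sum_univ_three, e7a_Q,
      Matrix.of_apply, Matrix.cons_val, map_add, map_mul, map_neg,
      mul_zero, mul_one, add_zero, zero_add, mul_neg]
    ring

/-- block extension of a matrix -/
private def e7a_ext (T : Matrix (Fin 3) (Fin 3) k) : Matrix (Fin 4) (Fin 4) k :=
  !![T 0 0, T 0 1, T 0 2, 0; T 1 0, T 1 1, T 1 2, 0; T 2 0, T 2 1, T 2 2, 0; 0, 0, 0, 1]

private theorem e7a_ext_mul {T T' : Matrix (Fin 3) (Fin 3) k} (h : T * T' = 1) :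
    e7a_ext T * e7a_ext T' = 1 := by
  have h1 : ∀ i j, ∑ l, T i l * T' l j = if i = j then 1 else 0 := by
    intro i j
    rw [← Matrix.mul_apply, h, Matrix.one_apply]
  simp only [Fin.sum_univ_three] at h1
  ext i j
  rw [Matrix.mul_apply, Fin.sum_univ_four, Matrix.one_apply]
  fin_cases i <;> fin_cases j
  · simpa [e7a_ext] using h1 0 0
  · simpa [e7a_ext] using h1 0 1
  · simpa [e7a_ext] using h1 0 2
  · simp [e7a_ext]
  · simpa [e7a_ext] using h1 1 0
  · simpa [e7a_ext] using h1 1 1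
  · simpa [e7a_ext] using h1 1 2
  · simp [e7a_ext]
  · simpa [e7a_ext] using h1 2 0
  · simpa [e7a_ext] using h1 2 1
  · simpa [e7a_ext] using h1 2 2
  · simp [e7a_ext]
  · simp [e7a_ext]
  · simp [e7a_ext]
  · simp [e7a_ext]
  · simp [e7a_ext]

end Tern

section Main
variable {k Ω : Type*} [Field k] [IsAlgClosed k] [CharZero k] [Field Ω] [IsAlgClosed Ω] [Algebra k Ω]

namespace FCtx
variable (c : FCtx k Ω)

private theorem e7a_y0 : c.y 0 ≠ 0 := by
  intro h0
  have := c.lin_indep_y (Pi.single 0 1) (by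
    rw [Finset.sum_eq_single 0]
    · simp [h0]
    · intro b _ hb; rw [Pi.single_eq_of_ne hb]; simp
    · simp)
  have h3 := congrFun this 0
  simp at h3

/-- normal form of the conic -/
theorem conic_normal {s : Ω} (h : c.CaseA s) (q : Fin 3 → Fin 3 → k) (hq0 : ∃ i j, q i j + q j i ≠ 0)
    (hq : ∑ i, ∑ j, algebraMap k Ω (q i j) * c.y (Fin.castSucc i) * c.y (Fin.castSucc j) = 0) :
    ∃ c' : Ctx3 k Ω, c'.y 1 ^ 2 = 2 * c'.y 0 * c'.y 2 ∧
      (∀ (V : ValuationSubring Ω) (b : Fin 4 → Ω) (i0 : Fin 4), c'.IsDir V b i0 →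
        b ≠ ![0, 0, 0, 1]) := by
  obtain ⟨i1, j1, hij⟩ := hq0
  obtain ⟨T, T', hT, hT', hTy⟩ := e7a_normal (M := Matrix.of fun i j => q i j + q j i)
    (y := fun i => c.y (Fin.castSucc i))
    (by ext i j; simp [add_comm])
    (by
      intro h0
      exact hij (congrFun (congrFun h0 i1) j1))
    (by
      intro a ha
      have h1 := c.lin_indep_y (Fin.snoc a 0) (by
        rw [Fin.sum_univ_castSucc]
        simp only [Fin.snoc_castSucc, Fin.snoc_last, map_zero, zero_mul, add_zero]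
        exact ha)
      funext i
      have h2 := congrFun h1 (Fin.castSucc i)
      simpa using h2)
    (by
      have h1 : ∑ i, ∑ j, algebraMap k Ω (q j i) * c.y (Fin.castSucc i) * c.y (Fin.castSucc j) = 0 := by
        rw [Finset.sum_comm, ← hq]
        refine Finset.sum_congr rfl fun i _ => Finset.sum_congr rfl fun j _ => ?_
        ring
      simp only [Matrix.of_apply, map_add, add_mul, Finset.sum_add_distrib]
      rw [hq, h1, add_zero])
  obtain ⟨c', -, hx, hy, hW, -⟩ := c.exists_lin (e7a_ext T) (e7a_ext T') (e7a_ext_mul hT)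
    (e7a_ext_mul hT')
  have hL : ∀ f, f ∈ c.L ↔ f ∈ c'.L := by
    intro f
    rw [c'.mem_L_iff, c.mem_L_iff, hW]
  refine ⟨c', ?_, ?_⟩
  · rw [hy]
    simp only [Fin.sum_univ_three] at hTy
    unfold Ctx3.lin
    simp only [Fin.sum_univ_four]
    simpa [e7a_ext] using hTy
  · intro V b i0 hb hbe
    have hxx : c.x = Ctx3.lin (e7a_ext T') c'.x := by
      rw [hx, Ctx3.lin_lin (e7a_ext_mul hT)]
    obtain ⟨j0, hj0, hd⟩ := c'.n11_dir (c' := c.toCtx3) (e7a_ext_mul hT') hxx hL hb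
    obtain ⟨e, he, h0, -⟩ := h.dirs V _ j0 hd
    have h1 : Ctx3.lin (e7a_ext T') b 0 = 0 := by
      rw [hbe]
      unfold Ctx3.lin
      rw [Fin.sum_univ_four]
      simp [e7a_ext]
    rw [h1, zero_div] at h0
    exact (div_ne_zero (mul_ne_zero he c.e7a_y0) c.a0) h0.symm

/-- residue calculus: `z ≡ e` modulo the maximal ideal -/
private def E7Cg (V : ValuationSubring Ω) (z e : Ω) : Prop := V.valuation (z - e) < 1

section Cg
variable {V : ValuationSubring Ω}

private theorem E7Cg.refl (z : Ω) : E7Cg V z z := by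
  unfold E7Cg; simp

private theorem E7Cg.add {z e z' e' : Ω} (h : E7Cg V z e) (h' : E7Cg V z' e') :
    E7Cg V (z + z') (e + e') := by
  unfold E7Cg at *
  rw [show z + z' - (e + e') = (z - e) + (z' - e') by ring]
  exact Valuation.map_add_lt _ h h'

private theorem E7Cg.neg {z e : Ω} (h : E7Cg V z e) : E7Cg V (-z) (-e) := by
  unfold E7Cg at *
  rw [show -z - -e = -(z - e) by ring, Valuation.map_neg]
  exact h

private theorem E7Cg.sub {z e z' e' : Ω} (h : E7Cg V z e) (h' : E7Cg V z' e') :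
    E7Cg V (z - z') (e - e') := by
  rw [sub_eq_add_neg, sub_eq_add_neg]
  exact h.add h'.neg

private theorem e7_lt_mul {a b : Ω} (ha : a ∈ V) (hb : V.valuation b < 1) :
    V.valuation (a * b) < 1 := by
  rw [map_mul]
  have h1 : V.valuation a ≤ 1 := (V.valuation_le_one_iff a).2 ha
  calc V.valuation a * V.valuation b ≤ 1 * V.valuation b := by gcongr
    _ = V.valuation b := one_mul _
    _ < 1 := hb

private theorem E7Cg.mem_left {z e : Ω} (h : E7Cg V z e) (he : e ∈ V) : z ∈ V := by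
  unfold E7Cg at h
  have h1 : z - e ∈ V := (V.valuation_le_one_iff _).1 h.le
  have := add_mem h1 he
  simpa using this

private theorem E7Cg.mul {z e z' e' : Ω} (h : E7Cg V z e) (h' : E7Cg V z' e') (he : e ∈ V)
    (he' : e' ∈ V) : E7Cg V (z * z') (e * e') := by
  have hz := h.mem_left he
  unfold E7Cg at *
  rw [show z * z' - e * e' = z * (z' - e') + e' * (z - e) by ring]
  exact Valuation.map_add_lt _ (e7_lt_mul hz h') (e7_lt_mul he' h)

private theorem E7Cg.trans {z e w : Ω} (h : E7Cg V z e) (h' : E7Cg V e w) : E7Cg V z w := by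
  have := h.add h'
  unfold E7Cg at *
  rwa [show z + e - (e + w) = z - w by ring] at this

private theorem E7Cg.symm {z e : Ω} (h : E7Cg V z e) : E7Cg V e z := by
  unfold E7Cg at *
  rw [show e - z = -(z - e) by ring, Valuation.map_neg]
  exact h

private theorem E7Cg.of_eq {z e z' e' : Ω} (h : E7Cg V z e) (hz : z' = z) (he : e' = e) :
    E7Cg V z' e' := by
  subst hz; subst he; exact h

private theorem e7_inv_lt {z : Ω} (hz : z ∉ V) : V.valuation z⁻¹ < 1 := by
  have h1 : ¬ V.valuation z ≤ 1 := fun h => hz ((V.valuation_le_one_iff z).1 h)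
  push Not at h1
  rw [map_inv₀]
  exact inv_lt_one_of_one_lt₀ h1

end Cg

/-! ## E7a: case A gives a conic -/
theorem caseA_conic {s : Ω} (h : c.CaseA s) :
    ∃ q : Fin 3 → Fin 3 → k, (∃ i j, q i j + q j i ≠ 0) ∧
      ∑ i, ∑ j, algebraMap k Ω (q i j) * c.y (Fin.castSucc i) * c.y (Fin.castSucc j) = 0 := by
  classical
  have hcz : CharZero Ω := charZero_of_injective_algebraMap (algebraMap k Ω).injective
  have hd : (c.d : Ω) ≠ 0 := by
    have := c.hd
    exact_mod_cast (by omega : c.d ≠ 0)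
  obtain ⟨hU13, hU23⟩ := c.e6_U12 h.cone.U3
  have hU3 := h.cone.U3
  have ha0 := c.a0
  obtain ⟨dτ, da, dbb, Daτ, Daa, Dabb, Dbτ, Dba, Dbbb⟩ := c.dual
  -- any direction gives the quadratic equation
  obtain ⟨V0, hV0, hinf⟩ := c.exists_infinite
  obtain ⟨b, i0, hb⟩ := c.exists_dir V0 hV0 hinf
  obtain ⟨-, -, hkey⟩ := c.key hb
  obtain ⟨e, he0, hb0, hb1, hb2, hb3⟩ := h.dirs V0 b i0 hb
  have hU2b : ∑ i, c.U2 i * b i = e := by
    have h1 := c.U2y
    rw [Fin.sum_univ_four, hU23] at h1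
    rw [Fin.sum_univ_four, hU23, hb0, hb1, hb2]
    have h2 : c.U2 0 * (e * c.y 0 / c.a) + c.U2 1 * (e * c.y 1 / c.a) + c.U2 2 * (e * c.y 2 / c.a)
        + 0 * b 3 = e / c.a * (c.U2 0 * c.y 0 + c.U2 1 * c.y 1 + c.U2 2 * c.y 2 + 0 * c.y 3) := by
      ring
    rw [h2, h1]; field_simp
  have hBb : ∑ i, c.B i * b i = e * s := by
    rw [Fin.sum_univ_four, h.cone.B]
    simp [hb3]
  rw [hU2b, hBb] at hkey
  have hquad : c.Da (c.Da (c.a * c.g)) + 2 * c.Da (c.Db (c.a * c.g)) * s +
      c.Db (c.Db (c.a * c.g)) * s ^ 2 = 0 := by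
    have h1 : e ^ 2 * (c.Da (c.Da (c.a * c.g)) + 2 * c.Da (c.Db (c.a * c.g)) * s +
      c.Db (c.Db (c.a * c.g)) * s ^ 2) = 0 := by linear_combination hkey
    exact (mul_eq_zero.1 h1).resolve_left (pow_ne_zero _ he0)
  obtain ⟨ρ, c0, c1, hρL, hc0, hc1, hρ, hag⟩ := c.shape1 h.smem hquad
  have hc00 : c0 ≠ 0 := by
    rintro rfl
    refine c.C1_false h hρ hc1 ?_
    have h1 : c.a * c.g = c.a * (ρ * c1) := by rw [hag]; ring
    exact mul_left_cancel₀ ha0 h1
  obtain ⟨I, V, hI, hxV, hτV, hFI, hlin, hhom, hgV, haV, hbV⟩ := c.caseA_barg h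
  -- notation
  obtain ⟨rt, hrt⟩ : ∃ rt : Ω, rt = c0 * ρ := ⟨_, rfl⟩
  obtain ⟨C0, hC0⟩ : ∃ C0 : Ω, C0 = c0 ^ c.d := ⟨_, rfl⟩
  obtain ⟨sg, hsg⟩ : ∃ sg : Ω, sg = c.bb / c.a := ⟨_, rfl⟩
  obtain ⟨t, ht⟩ : ∃ t : Ω, t = s - c1 / c0 := ⟨_, rfl⟩
  have hs := h.smem
  have htm : t ∈ acl k ({c.τ} : Set Ω) := by rw [ht]; exact sub_mem hs (div_mem hc1 hc0)
  have hC0m : C0 ∈ acl k ({c.τ} : Set Ω) := by rw [hC0]; exact pow_mem hc0 _
  have hC00 : C0 ≠ 0 := by rw [hC0]; exact pow_ne_zero _ hc00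
  have hg : c.g = rt * (sg - t) := by
    have h1 : c.a * c.g = c.a * (rt * (sg - t)) := by
      rw [hag, hrt, hsg, ht]; field_simp; ring
    exact mul_left_cancel₀ ha0 h1
  have hrtd : rt ^ c.d = C0 * (c.bb - s * c.a) := by
    rw [hrt, hC0, mul_pow, hρ]
  have hbbsg : c.bb = c.a * sg := by rw [hsg]; field_simp
  have hg0 : c.g ≠ 0 := by
    intro h0
    rw [h0, map_zero] at hgV
    exact zero_ne_one hgV
  have hrt0 : rt ≠ 0 := by
    rintro h0
    rw [h0, zero_mul] at hg
    exact hg0 hg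
  have hsgs : sg - s ≠ 0 := by
    intro h0
    have h1 : c.bb - s * c.a = 0 := by rw [hbbsg]; linear_combination c.a * h0
    rw [h1, mul_zero] at hrtd
    exact hrt0 (pow_eq_zero_iff (by have := c.hd; omega) |>.1 hrtd)
  -- the valuation
  have hsV := hτV s hs
  have htV := hτV t htm
  have hbsV : V.valuation (c.bb - s * c.a) < 1 := by
    have h1 := e7_lt_mul hsV haV
    rw [sub_eq_add_neg]
    exact Valuation.map_add_lt _ hbV (by rw [Valuation.map_neg]; exact h1)
  have hrtV : V.valuation rt < 1 := by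
    have h1 : V.valuation (rt ^ c.d) < 1 := by rw [hrtd]; exact e7_lt_mul (hτV _ hC0m) hbsV
    rw [map_pow] at h1
    by_contra hcon
    push Not at hcon
    exact absurd h1 (not_lt.2 (one_le_pow₀ hcon))
  have hrtm : rt ∈ V := (V.valuation_le_one_iff _).1 hrtV.le
  have hgm : c.g ∈ V := (V.valuation_le_one_iff _).1 hgV.le
  have hsgV : sg ∉ V := by
    intro hmem
    have h1 : V.valuation (rt * (sg - t)) < 1 := by
      rw [mul_comm]; exact e7_lt_mul (sub_mem hmem htV) hrtV
    rw [← hg, hgV] at h1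
    exact lt_irrefl _ h1
  have hsgsV : sg - s ∉ V := by
    intro hmem
    apply hsgV
    have := add_mem hmem hsV
    simpa using this
  have hinv : V.valuation (sg - s)⁻¹ < 1 := e7_inv_lt hsgsV
  -- derivatives
  have kill : ∀ D : Derivation k Ω Ω, D c.τ = 0 → ∀ z ∈ acl k ({c.τ} : Set Ω), D z = 0 := by
    intro D hD z hz
    exact der_acl_zero D (by rintro _ rfl; exact hD) z hz
  have Drt : ∀ D : Derivation k Ω Ω, D rt = rt / (c.d * (C0 * (c.bb - s * c.a))) *
      (D C0 * (c.bb - s * c.a) + C0 * (D c.bb - D s * c.a - s * D c.a)) := by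
    intro D
    have h1 := congrArg D hrtd
    rw [Derivation.leibniz_pow, Derivation.leibniz, map_sub, Derivation.leibniz] at h1
    simp only [smul_eq_mul, nsmul_eq_mul] at h1
    have h2 : rt ^ (c.d - 1) * rt = C0 * (c.bb - s * c.a) := by
      rw [← hrtd, ← pow_succ]
      congr 1
      have := c.hd
      omega
    have h3 : C0 * (c.bb - s * c.a) ≠ 0 := by
      rw [← hrtd]; exact pow_ne_zero _ hrt0
    rw [div_mul_eq_mul_div, eq_div_iff (mul_ne_zero hd h3), ← h2]
    linear_combination rt * h1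
  have hbs : c.bb - s * c.a = c.a * (sg - s) := by rw [hbbsg]; ring
  have hDsg : ∀ D : Derivation k Ω Ω, c.a * D sg = D c.bb - sg * D c.a := by
    intro D
    rw [hbbsg, Derivation.leibniz]
    simp only [smul_eq_mul]; ring
  have hDg : ∀ D : Derivation k Ω Ω, D c.g = rt * (D sg - D t) + (sg - t) * D rt := by
    intro D
    rw [hg, Derivation.leibniz, map_sub]
    simp only [smul_eq_mul]
  have hDb : c.a * c.Db c.g = c.g / c.d * (sg - s)⁻¹ + rt := by
    have k1 := kill c.Db Dbτ C0 hC0m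
    have k2 := kill c.Db Dbτ s hs
    have k3 := kill c.Db Dbτ t htm
    have e1 := hDsg c.Db
    have e2 := Drt c.Db
    rw [k1, k2, Dbbb, Dba, hbs] at e2
    rw [Dbbb, Dba] at e1
    rw [hDg, k3, e2]
    have e3 : c.a * (rt * (c.Db sg - 0)) = rt := by linear_combination rt * e1
    rw [mul_add, e3, hg]
    field_simp
    ring
  have hDa : c.a * c.Da c.g = - s * (c.g / c.d) * (sg - s)⁻¹ - (c.g + rt * t) := by
    have k1 := kill c.Da Daτ C0 hC0m
    have k2 := kill c.Da Daτ s hs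
    have k3 := kill c.Da Daτ t htm
    have e1 := hDsg c.Da
    have e2 := Drt c.Da
    rw [k1, k2, Dabb, Daa, hbs] at e2
    rw [Dabb, Daa] at e1
    rw [hDg, k3, e2]
    have e3 : c.a * (rt * (c.Da sg - 0)) = - rt * sg := by linear_combination rt * e1
    rw [mul_add, e3, hg]
    field_simp
    ring
  obtain ⟨κ, hκ⟩ : ∃ κ : Ω, κ = c.Dt C0 / (c.d * C0) - c.p 0 := ⟨_, rfl⟩
  have hn0 : c.n0 = c.g * κ - c.g / c.d * c.Dt s * (sg - s)⁻¹ - rt * c.Dt t
      + c.p 0 * (c.g + c.a * c.Da c.g) := by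
    have e1 := hDsg c.Dt
    have e2 := Drt c.Dt
    rw [dbb, da, hbs] at e2
    rw [dbb, da] at e1
    have e3 : c.Dt sg = 0 := by
      have : c.a * c.Dt sg = 0 := by rw [e1]; ring
      exact (mul_eq_zero.1 this).resolve_left ha0
    have e4 : c.Dt c.g = c.g * (c.Dt C0 / (c.d * C0)) - c.g / c.d * c.Dt s * (sg - s)⁻¹
        - rt * c.Dt t := by
      rw [hDg, e3, e2, hg]
      field_simp
      ring
    have e5 : c.n0 = c.Dt c.g + c.p 0 * (c.a * c.Da c.g) := by
      unfold n0 D0 mu1 mu2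
      rw [h.cone.p1, h.cone.q]
      simp only [Pi.zero_apply]
      ring
    rw [e5, e4, hκ]; ring
  -- residues
  have hDtm : ∀ z ∈ acl k ({c.τ} : Set Ω), c.Dt z ∈ acl k ({c.τ} : Set Ω) := by
    intro z hz
    refine der_acl_mem c.Dt (subset_acl _) ?_ z hz
    rintro _ rfl
    rw [dτ]; exact one_mem _
  have hdm : (c.d : Ω) ∈ acl k ({c.τ} : Set Ω) := natCast_mem _ _
  have hκm : κ ∈ acl k ({c.τ} : Set Ω) := by
    rw [hκ]
    exact sub_mem (div_mem (hDtm _ hC0m) (mul_mem hdm hC0m)) (c.pmem 0)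
  have hκV := hτV _ hκm
  have hgd : c.g / c.d ∈ V := by
    rw [div_eq_mul_inv]
    exact mul_mem hgm (hτV _ (inv_mem hdm))
  have r0 : ∀ {z w : Ω}, z ∈ V → V.valuation w < 1 → E7Cg V (z * w) 0 := by
    intro z w hz hw
    unfold E7Cg
    rw [sub_zero]
    exact e7_lt_mul hz hw
  have rDb : E7Cg V (c.a * c.Db c.g) 0 := by
    rw [hDb]
    have h1 := (r0 hgd hinv).add (r0 (one_mem V) hrtV)
    exact h1.of_eq (by ring) (by ring)
  have rDa : E7Cg V (c.a * c.Da c.g) (- c.g) := by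
    rw [hDa]
    have h1 := (r0 (mul_mem (neg_mem hsV) hgd) hinv).sub
      ((E7Cg.refl c.g).add (r0 htV hrtV))
    exact h1.of_eq (by ring) (by ring)
  have rn0 : E7Cg V c.n0 (c.g * κ) := by
    rw [hn0]
    have hDs := hτV _ (hDtm _ hs)
    have hDt' := hτV _ (hDtm _ htm)
    have hp0 := hτV _ (c.pmem 0)
    have h1 := (((E7Cg.refl (c.g * κ)).sub (r0 (mul_mem hgd hDs) hinv)).sub (r0 hDt' hrtV)).add
      ((E7Cg.refl (c.p 0)).mul ((E7Cg.refl c.g).add rDa) hp0 (by
        rw [add_neg_cancel]; exact zero_mem _))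
    exact h1.of_eq (by ring) (by ring)
  have hmv : ∀ v : Fin 4 → Ω, (∀ i, v i ∈ acl k ({c.τ} : Set Ω)) → ∑ i, v i * c.x i ∈ V := by
    intro v hv
    exact sum_mem fun i _ => mul_mem (hτV _ (hv i)) (hxV i)
  have hN1V : c.N1 ∈ V := hmv _ c.U1mem
  have hN2V : c.N2 ∈ V := hmv _ c.U2mem
  have hN3V : c.N3 ∈ V := hmv _ c.Bmem
  have h2V : (2 : Ω)⁻¹ ∈ V := hτV _ (inv_mem (ofNat_mem _ 2))
  have rEE : E7Cg V c.EE (c.N1 ^ 2 / 2 - c.g * κ * c.N1 - c.g * c.N2) := by
    have hgκ : c.g * κ ∈ V := mul_mem hgm hκV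
    have h1 := (((E7Cg.refl (c.N1 ^ 2 / 2)).sub (rn0.mul (E7Cg.refl c.N1) hgκ hN1V)).add
      (rDa.mul (E7Cg.refl c.N2) (neg_mem hgm) hN2V)).add
      (rDb.mul (E7Cg.refl c.N3) (zero_mem _) hN3V)
    exact h1.of_eq (by unfold EE; ring) (by ring)
  -- the quotient `EE / g ^ 2` has degree zero
  have hgL : c.g ∈ c.L := c.g_mem
  have hz0 : c.E (c.EE / c.g ^ 2) = 0 := by
    rw [Derivation.leibniz_div, c.E_EE, Derivation.leibniz_pow, c.Eg]
    simp only [smul_eq_mul, nsmul_eq_mul]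
    have : c.g ^ 2 ≠ 0 := pow_ne_zero _ hg0
    field_simp
    push_cast
    ring
  have hzmem := c.deg_zero (div_mem c.EE_mem (pow_mem hgL 2)) hz0
  rw [← hsg] at hzmem
  have hEEV : c.EE ∈ V := by
    refine rEE.mem_left ?_
    refine sub_mem (sub_mem ?_ (mul_mem (mul_mem hgm hκV) hN1V)) (mul_mem hgm hN2V)
    rw [div_eq_mul_inv]
    exact mul_mem (pow_mem hN1V 2) h2V
  have hzV : c.EE / c.g ^ 2 ∈ V := by
    rw [← V.valuation_le_one_iff, map_div₀, map_pow, hgV, one_pow, div_one]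
    exact (V.valuation_le_one_iff _).2 hEEV
  have hpair : ({c.τ, sg} : Set Ω) = insert sg {c.τ} := Set.pair_comm _ _
  rw [hpair] at hzmem
  obtain ⟨e1, he1, hze⟩ := exists_residue V hτV ⟨sg, subset_acl _ (Set.mem_insert _ _), hsgV⟩
    hzmem hzV
  have rEE2 : E7Cg V c.EE (e1 * c.g ^ 2) := by
    have h1 : E7Cg V (c.EE / c.g ^ 2 * c.g ^ 2) (e1 * c.g ^ 2) :=
      E7Cg.mul hze (E7Cg.refl _) (hτV _ he1) (pow_mem hgm 2)
    exact h1.of_eq (by field_simp) rfl
  -- the quadratic form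
  have hΦ : V.valuation (c.N1 ^ 2 / 2 - c.g * κ * c.N1 - c.g * c.N2 - e1 * c.g ^ 2) < 1 := by
    have h1 := rEE.symm.trans rEE2
    exact h1
  obtain ⟨M, hM⟩ : ∃ M : Fin 3 × Fin 3 → Ω, ∀ i j : Fin 3, M (i, j) =
      c.U1 (Fin.castSucc i) * c.U1 (Fin.castSucc j) / 2
      - κ * c.U (Fin.castSucc i) * c.U1 (Fin.castSucc j)
      - c.U (Fin.castSucc i) * c.U2 (Fin.castSucc j)
      - e1 * c.U (Fin.castSucc i) * c.U (Fin.castSucc j) :=
    ⟨fun ij => c.U1 (Fin.castSucc ij.1) * c.U1 (Fin.castSucc ij.2) / 2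
      - κ * c.U (Fin.castSucc ij.1) * c.U1 (Fin.castSucc ij.2)
      - c.U (Fin.castSucc ij.1) * c.U2 (Fin.castSucc ij.2)
      - e1 * c.U (Fin.castSucc ij.1) * c.U (Fin.castSucc ij.2), fun i j => rfl⟩
  have hform : ∀ z : Fin 4 → Ω, ∑ i, ∑ j, M (i, j) * z (Fin.castSucc i) * z (Fin.castSucc j) =
      (∑ i, c.U1 i * z i) ^ 2 / 2 - (∑ i, c.U i * z i) * κ * (∑ i, c.U1 i * z i)
      - (∑ i, c.U i * z i) * (∑ i, c.U2 i * z i) - e1 * (∑ i, c.U i * z i) ^ 2 := by
    intro z
    rw [Fin.sum_univ_four, Fin.sum_univ_four, Fin.sum_univ_four, hU3, hU13, hU23]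
    simp only [Fin.sum_univ_three, hM, Fin.castSucc_zero, Fin.castSucc_one]
    have h2 : (Fin.castSucc 2 : Fin 4) = 2 := rfl
    rw [h2]
    ring
  have hMm : ∀ ij, M ij ∈ acl k ({c.τ} : Set Ω) := by
    rintro ⟨i, j⟩
    rw [hM]
    exact sub_mem (sub_mem (sub_mem (div_mem (mul_mem (c.U1mem _) (c.U1mem _)) (ofNat_mem _ 2))
      (mul_mem (mul_mem hκm (c.Umem _)) (c.U1mem _))) (mul_mem (c.Umem _) (c.U2mem _)))
      (mul_mem (mul_mem he1 (c.Umem _)) (c.Umem _))
  -- a vector where the form does not vanish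
  obtain ⟨z, hzU, hzU1, hzU2⟩ : ∃ z : Fin 4 → Ω, ∑ i, c.U i * z i = 0 ∧ ∑ i, c.U1 i * z i = 1 ∧
      ∑ i, c.U2 i * z i = 0 := by
    have hu : IsUnit (Matrix.of ![c.U, c.U1, c.U2, c.B]) :=
      Matrix.linearIndependent_rows_iff_isUnit.1 c.frame
    have hu' := (Matrix.isUnit_iff_isUnit_det _).1 hu
    refine ⟨(Matrix.of ![c.U, c.U1, c.U2, c.B])⁻¹ *ᵥ ![0, 1, 0, 0], ?_⟩
    have h1 : (Matrix.of ![c.U, c.U1, c.U2, c.B]) *ᵥ
        ((Matrix.of ![c.U, c.U1, c.U2, c.B])⁻¹ *ᵥ ![0, 1, 0, 0]) = ![0, 1, 0, 0] := by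
      rw [Matrix.mulVec_mulVec, Matrix.mul_nonsing_inv _ hu', Matrix.one_mulVec]
    exact ⟨congrFun h1 0, congrFun h1 1, congrFun h1 2⟩
  have hne : ∃ i j : Fin 3, M (i, j) + M (j, i) ≠ 0 := by
    by_contra hcon
    push Not at hcon
    have h1 := hform z
    rw [hzU, hzU1, hzU2] at h1
    have h3 : ∑ i, ∑ j, M (i, j) * z (Fin.castSucc i) * z (Fin.castSucc j) =
        ∑ i, ∑ j, M (j, i) * z (Fin.castSucc i) * z (Fin.castSucc j) := by
      rw [Finset.sum_comm]
      exact Finset.sum_congr rfl fun i _ => Finset.sum_congr rfl fun j _ => by ring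
    have h4 : ∑ i, ∑ j, M (i, j) * z (Fin.castSucc i) * z (Fin.castSucc j) +
        ∑ i, ∑ j, M (j, i) * z (Fin.castSucc i) * z (Fin.castSucc j) = 0 := by
      rw [← Finset.sum_add_distrib]
      refine Finset.sum_eq_zero fun i _ => ?_
      rw [← Finset.sum_add_distrib]
      refine Finset.sum_eq_zero fun j _ => ?_
      rw [← add_mul, ← add_mul, hcon, zero_mul, zero_mul]
    rw [← h3, h1] at h4
    norm_num at h4
  -- expansion along a basis
  obtain ⟨m, η, cf, hη, hηs, hexp⟩ := E1b_decomp (k := k) (fun l : Fin 9 => M (finProdFinEquiv.symm l))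
  have hexp' : ∀ i j : Fin 3, M (i, j) = ∑ l, algebraMap k Ω (cf l (finProdFinEquiv (i, j))) * η l := by
    intro i j
    have := hexp (finProdFinEquiv (i, j))
    simpa using this
  have hηm : ∀ l, η l ∈ acl k ({c.τ} : Set Ω) := fun l =>
    E1b_span_le (acl k ({c.τ} : Set Ω)) _ (fun i => hMm _) (hηs l)
  let F : Fin m → MvPolynomial (Fin 4) k := fun l =>
    ∑ i : Fin 3, ∑ j : Fin 3, C (cf l (finProdFinEquiv (i, j))) * X (Fin.castSucc i) * X (Fin.castSucc j)
  have hFval : ∀ (l : Fin m) (w : Fin 4 → Ω), aeval w (F l) = ∑ i : Fin 3, ∑ j : Fin 3,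
      algebraMap k Ω (cf l (finProdFinEquiv (i, j))) * w (Fin.castSucc i) * w (Fin.castSucc j) := by
    intro l w
    simp only [F, map_sum, map_mul, aeval_C, aeval_X]
  have hFsum : ∑ l, η l * aeval c.x (F l) =
      ∑ i, ∑ j, M (i, j) * c.x (Fin.castSucc i) * c.x (Fin.castSucc j) := by
    simp only [hFval, hexp', Finset.mul_sum, Finset.sum_mul]
    rw [Finset.sum_comm]
    refine Finset.sum_congr rfl fun i _ => ?_
    rw [Finset.sum_comm]
    refine Finset.sum_congr rfl fun j _ => ?_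
    refine Finset.sum_congr rfl fun l _ => ?_
    ring
  have hFI' := hlin m η F hηm hη (by
    rw [hFsum, hform]
    exact hΦ)
  have hFhom : ∀ l, (F l).IsHomogeneous 2 := by
    intro l
    refine IsHomogeneous.sum _ _ _ fun i _ => IsHomogeneous.sum _ _ _ fun j _ => ?_
    have h1 := ((isHomogeneous_C (Fin 4) (cf l (finProdFinEquiv (i, j)))).mul
      (isHomogeneous_X k (Fin.castSucc i))).mul (isHomogeneous_X k (Fin.castSucc j))
    exact h1
  obtain ⟨i, j, hij⟩ := hne
  obtain ⟨l, hl⟩ : ∃ l, cf l (finProdFinEquiv (i, j)) + cf l (finProdFinEquiv (j, i)) ≠ 0 := by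
    by_contra hcon
    push Not at hcon
    apply hij
    rw [hexp', hexp', ← Finset.sum_add_distrib]
    refine Finset.sum_eq_zero fun l _ => ?_
    rw [← add_mul, ← map_add, hcon, map_zero, zero_mul]
  refine ⟨fun i j => cf l (finProdFinEquiv (i, j)), ⟨i, j, hl⟩, ?_⟩
  have h1 := (hhom (F l) 2 (hFhom l)).1 (hFI' l)
  rw [hFval] at h1
  rw [← h1]
  refine Finset.sum_congr rfl fun i _ => Finset.sum_congr rfl fun j _ => ?_
  have h3 : ∀ i : Fin 3, (![c.y 0, c.y 1, c.y 2, s * c.a] : Fin 4 → Ω) (Fin.castSucc i) =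
      c.y (Fin.castSucc i) := by
    intro i
    fin_cases i <;> rfl
  rw [h3, h3]

end FCtx
end Main
end Pool.Agent.HDP
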