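import Mathlib
import Pool.Agent.Lib.MP_20906e_al.Defs
import Pool.Agent.Lib.MP_20906e_al.Ctx
import Pool.Agent.Lib.MP_20906e_al.CtxN
import Pool.Agent.Lib.MP_20906e_al.DCtx
import Pool.Agent.Lib.MP_20906e_al.Cone
import Pool.Agent.Lib.MP_20906e_al.Acl
import Pool.Agent.Lib.MP_20906e_al.Der
import Pool.Agent.Lib.MP_20906e_al.Wr
import Pool.Agent.Lib.MP_20906e_al.Place
import Pool.Agent.Lib.MP_20906e_al.B2a
import Pool.Agent.Lib.MP_20906e_al.B2b
import Pool.Agent.Lib.MP_20906e_al.B3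
import Pool.Agent.Lib.MP_20906e_al.E1a
import Pool.Agent.Lib.MP_20906e_al.E3
import Pool.Agent.Lib.MP_20906e_al.E4
import Pool.Agent.Lib.MP_20906e_al.E6


/-!
# MP_20906e_al, piece E7b1: shape of `g` in the conic frame (helper31)
-/

namespace Pool.Agent.HDP
open MvPolynomial

namespace E7b1
variable {k Ω : Type*} [Field k] [Field Ω] [Algebra k Ω]

theorem small_mul {V : ValuationSubring Ω} {a b : Ω} (ha : V.valuation a < 1) (hb : b ∈ V) :
    V.valuation (a * b) < 1 := by
  rw [map_mul]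
  exact mul_lt_one_of_lt_of_le ha ((V.valuation_le_one_iff b).2 hb)

theorem small_add {V : ValuationSubring Ω} {a b : Ω} (ha : V.valuation a < 1)
    (hb : V.valuation b < 1) : V.valuation (a + b) < 1 := V.valuation.map_add_lt ha hb

theorem small_sub {V : ValuationSubring Ω} {a b : Ω} (ha : V.valuation a < 1)
    (hb : V.valuation b < 1) : V.valuation (a - b) < 1 := by
  rw [sub_eq_add_neg]
  exact small_add ha (by rwa [Valuation.map_neg])

theorem small_mem {V : ValuationSubring Ω} {a : Ω} (ha : V.valuation a < 1) : a ∈ V :=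
  (V.valuation_le_one_iff a).1 ha.le

/-- logarithmic derivative of a `d`-th root -/
theorem der_root [CharZero k] (D : Derivation k Ω Ω) {r C m : Ω} {d : ℕ} (hd : d ≠ 0)
    (h : r ^ d = C * m) (hC : C ≠ 0) (hm : m ≠ 0) :
    D r = r * (D C / ((d : Ω) * C) + D m / ((d : Ω) * m)) := by
  have hd0 : (d : Ω) ≠ 0 := by
    have : CharZero Ω := charZero_of_injective_algebraMap (algebraMap k Ω).injective
    exact_mod_cast hd
  obtain ⟨e, rfl⟩ := Nat.exists_eq_succ_of_ne_zero hd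
  have h1 := congrArg D h
  rw [Derivation.leibniz_pow, Derivation.leibniz] at h1
  simp only [Nat.succ_eq_add_one, Nat.add_sub_cancel, smul_eq_mul, nsmul_eq_mul] at h1 h hd0 ⊢
  have h2 : ((e + 1 : ℕ) : Ω) * (C * m) * D r = r * (C * D m + m * D C) := by
    rw [← h1, ← h]
    ring
  field_simp
  linear_combination h2

/-- a linear form in `x0, x1, x2` with coefficients in `acl{τ}` which is small at the place is zero -/
theorem lf_zero {c : DCtx k Ω} [IsAlgClosed k] [CharZero k] [IsAlgClosed Ω] {s : Ω}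
    {I : Ideal (MvPolynomial (Fin 4) k)} {V : ValuationSubring Ω}
    (hV : ∀ (m : ℕ) (η : Fin m → Ω) (F : Fin m → MvPolynomial (Fin 4) k),
        (∀ i, η i ∈ acl k ({c.τ} : Set Ω)) → LinearIndependent k η →
        V.valuation (∑ i, η i * aeval c.x (F i)) < 1 → ∀ i, F i ∈ I)
    (hI : ∀ (F : MvPolynomial (Fin 4) k) (m : ℕ), F.IsHomogeneous m →
        (F ∈ I ↔ aeval ![c.y 0, c.y 1, c.y 2, s * c.a] F = 0))
    {v : Fin 4 → Ω} (hv : ∀ i, v i ∈ acl k ({c.τ} : Set Ω)) (hv3 : v 3 = 0)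
    (h : V.valuation (∑ i, v i * c.x i) < 1) : v = 0 := by
  classical
  let M : Submodule k Ω := Submodule.span k (Set.range v)
  have : FiniteDimensional k M := FiniteDimensional.span_of_finite k (Set.finite_range v)
  have hM : M ≤ Subalgebra.toSubmodule (acl k ({c.τ} : Set Ω)).toSubalgebra := by
    rw [Submodule.span_le]
    rintro _ ⟨i, rfl⟩
    exact hv i
  let b := Module.finBasis k M
  let w : Fin 4 → M := fun i => ⟨v i, Submodule.subset_span ⟨i, rfl⟩⟩
  let η : Fin (Module.finrank k M) → Ω := fun l => (b l : Ω)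
  have hη : LinearIndependent k η := by
    have := b.linearIndependent.map' M.subtype (Submodule.ker_subtype M)
    exact this
  have hηm : ∀ l, η l ∈ acl k ({c.τ} : Set Ω) := fun l => hM (b l).2
  have hvr : ∀ i, v i = ∑ l, algebraMap k Ω (b.repr (w i) l) * η l := by
    intro i
    have h1 := congrArg (fun z : M => (z : Ω)) (b.sum_repr (w i))
    simp only [Submodule.coe_sum, Submodule.coe_smul] at h1
    have h2 : v i = (w i : Ω) := rfl
    rw [h2, ← h1]
    exact Finset.sum_congr rfl fun l _ => by rw [Algebra.smul_def]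
  let F : Fin (Module.finrank k M) → MvPolynomial (Fin 4) k :=
    fun l => ∑ i, C (b.repr (w i) l) * X i
  have hF : ∀ l, F l ∈ I := by
    refine hV _ η F hηm hη ?_
    have : ∑ l, η l * aeval c.x (F l) = ∑ i, v i * c.x i := by
      simp only [F, map_sum, map_mul, aeval_C, aeval_X]
      simp only [hvr, Finset.mul_sum, Finset.sum_mul]
      rw [Finset.sum_comm]
      exact Finset.sum_congr rfl fun i _ => Finset.sum_congr rfl fun l _ => by ring
    rw [this]
    exact h
  have h3 : w 3 = 0 := Subtype.ext hv3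
  have hz : ∀ l i, b.repr (w i) l = 0 := by
    intro l
    have h1 := (hI (F l) 1 (IsHomogeneous.sum _ _ _ fun i _ =>
      (isHomogeneous_X _ _).C_mul _)).1 (hF l)
    have h2 : ∑ i, algebraMap k Ω (b.repr (w i) l) * c.y i = 0 := by
      simp only [F, Fin.sum_univ_four, h3, map_zero,
        Finsupp.coe_zero, Pi.zero_apply, zero_mul, add_zero] at h1 ⊢
      simpa using h1
    have h4 := c.toCtx3.lin_indep_y (fun i => b.repr (w i) l) h2
    intro i
    exact congrFun h4 i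
  funext i
  rw [hvr i]
  simp [hz]

end E7b1

variable {k Ω : Type*} [Field k] [IsAlgClosed k] [CharZero k] [Field Ω] [IsAlgClosed Ω] [Algebra k Ω]

namespace FCtx
variable (c : FCtx k Ω)

open E7b1 in
/-- `g = ρ (σ - t)`, `ρ^d = C0 (bb - s a)` with `C0 ∈ k`, `σ = bb/a` -/
theorem conic_shape (hc : c.Conic) {s : Ω} (h : c.CaseA s) :
    ∃ (ρ t : Ω) (C0 : k), C0 ≠ 0 ∧ ρ ∈ c.L ∧ t ∈ acl k ({c.τ} : Set Ω) ∧
      ρ ^ c.d = algebraMap k Ω C0 * (c.bb - s * c.a) ∧ c.g = ρ * (c.bb / c.a - t) := by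
  have : CharZero Ω := charZero_of_injective_algebraMap (algebraMap k Ω).injective
  have hd : c.d ≠ 0 := by have := c.hd; omega
  have hd0 : (c.d : Ω) ≠ 0 := by exact_mod_cast hd
  have ha0 : c.a ≠ 0 := c.a0
  have hs : s ∈ acl k ({c.τ} : Set Ω) := h.smem
  -- a direction
  obtain ⟨V0, hV0, hi0⟩ := c.toCtx3.exists_infinite
  obtain ⟨b, i0, hb⟩ := c.toCtx3.exists_dir V0 hV0 hi0
  obtain ⟨e0, he0, hb0, hb1, hb2, hb3⟩ := h.dirs V0 b i0 hb
  have hU2b : ∑ i, c.U2 i * b i = e0 := by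
    rw [hc.U2, Fin.sum_univ_four, hb0, hc.a]
    have : c.y 0 ≠ 0 := by rw [← hc.a]; exact ha0
    simp
    field_simp
  have hBb : ∑ i, c.B i * b i = e0 * s := by
    rw [hc.B, Fin.sum_univ_four, hb3]
    simp
  have hkey := (c.key hb).2.2
  rw [hU2b, hBb] at hkey
  obtain ⟨ρ, c0, c1, hρL, hc0, hc1, hρ, hg⟩ := c.shape1 hs (by
    have h1 : e0 ^ 2 * (c.Da (c.Da (c.a * c.g)) + 2 * c.Da (c.Db (c.a * c.g)) * s +
        c.Db (c.Db (c.a * c.g)) * s ^ 2) = 0 := by linear_combination hkey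
    exact (mul_eq_zero.1 h1).resolve_left (pow_ne_zero _ he0))
  have hc00 : c0 ≠ 0 := by
    rintro rfl
    refine c.C1_false h hρ hc1 ?_
    have : c.a * c.g = c.a * (ρ * c1) := by rw [hg]; ring
    exact mul_left_cancel₀ ha0 this
  obtain ⟨I, V, hIp, hxV, hτV, hVI, hVη, hI, hVg, hVa, hVb⟩ := c.caseA_barg h
  have hg0 : c.g ≠ 0 := by
    intro h0
    rw [h0, map_zero] at hVg
    exact zero_ne_one hVg
  have hρ0 : ρ ≠ 0 := by
    rintro rfl
    rw [zero_mul] at hg
    exact (mul_ne_zero ha0 hg0) hg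
  have hmu0 : c.bb - s * c.a ≠ 0 := by rw [← hρ]; exact pow_ne_zero _ hρ0
  -- notation
  set rt : Ω := c0 * ρ with hrt
  set CC : Ω := c0 ^ c.d with hCC
  set t : Ω := s - c1 / c0 with ht
  have hCC0 : CC ≠ 0 := pow_ne_zero _ hc00
  have hCCm : CC ∈ acl k ({c.τ} : Set Ω) := pow_mem hc0 _
  have htm : t ∈ acl k ({c.τ} : Set Ω) := sub_mem hs (div_mem hc1 hc0)
  have hrtd : rt ^ c.d = CC * (c.bb - s * c.a) := by rw [hrt, mul_pow, hρ]
  have hgs : c.g = rt * (c.bb / c.a - t) := by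
    have h1 : c.a * c.g = c.a * (rt * (c.bb / c.a - t)) := by
      rw [hg, hrt, ht]
      field_simp
      ring
    exact mul_left_cancel₀ ha0 h1
  have hrt0 : rt ≠ 0 := mul_ne_zero hc00 hρ0
  have hτL : acl k ({c.τ} : Set Ω) ≤ c.L := acl_le_iff.2 (by
    rintro _ rfl
    exact c.τL)
  have hrtL : rt ∈ c.L := mul_mem (hτL hc0) hρL
  -- derivations
  obtain ⟨dtt, dta, dtb, dat, daa, dab, dbt, dba, dbb⟩ := c.dual
  have hz (D : Derivation k Ω Ω) (hD : D c.τ = 0) : ∀ z ∈ acl k ({c.τ} : Set Ω), D z = 0 :=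
    der_acl_zero D (by rintro _ rfl; exact hD)
  have htz : ∀ z ∈ acl k ({c.τ} : Set Ω), c.Dt z ∈ acl k ({c.τ} : Set Ω) :=
    der_acl_mem c.Dt (subset_acl _) (by
      intro s' hs'
      rw [Set.mem_singleton_iff.1 hs', dtt]
      exact one_mem _)
  set sg : Ω := c.bb / c.a with hsg
  have hsga : sg * c.a = c.bb := by rw [hsg]; field_simp
  have hsgs : sg - s ≠ 0 := by
    intro h0
    apply hmu0
    rw [← hsga]
    linear_combination c.a * h0
  have hmu : c.bb - s * c.a = c.a * (sg - s) := by rw [← hsga]; ring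
  have hDsg (D : Derivation k Ω Ω) : sg * D c.a + c.a * D sg = D c.bb := by
    rw [← hsga, Derivation.leibniz]
    simp only [smul_eq_mul]
  have hDmu (D : Derivation k Ω Ω) : D (c.bb - s * c.a) = D c.bb - (s * D c.a + c.a * D s) := by
    rw [map_sub, Derivation.leibniz]
    simp only [smul_eq_mul]
  have hDg (D : Derivation k Ω Ω) : D c.g = rt * (D sg - D t) + (sg - t) * D rt := by
    rw [hgs, Derivation.leibniz, map_sub]
    simp only [smul_eq_mul]
  have hDbg : c.a * c.Db c.g = c.g * (sg - s)⁻¹ / c.d + rt := by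
    have h1 := hDg c.Db
    have h2 := der_root c.Db hd hrtd hCC0 hmu0
    rw [hDmu, hz c.Db dbt CC hCCm, hz c.Db dbt s hs, dbb, dba, hmu, zero_div, zero_add] at h2
    have h3 : c.Db sg = c.a⁻¹ := by
      have h4 := hDsg c.Db
      rw [dba, dbb, mul_zero, zero_add] at h4
      exact eq_inv_of_mul_eq_one_right h4
    rw [hz c.Db dbt t htm, h2, h3] at h1
    rw [h1, hgs]
    field_simp
    ring
  have hDag : c.a * c.Da c.g = - c.g - s * c.g * (sg - s)⁻¹ / c.d - rt * t := by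
    have h1 := hDg c.Da
    have h2 := der_root c.Da hd hrtd hCC0 hmu0
    rw [hDmu, hz c.Da dat CC hCCm, hz c.Da dat s hs, dab, daa, hmu, zero_div, zero_add] at h2
    have h3 : c.Da sg = - sg / c.a := by
      have h4 := hDsg c.Da
      rw [daa, dab, mul_one] at h4
      rw [eq_div_iff ha0]
      linear_combination h4
    rw [hz c.Da dat t htm, h2, h3] at h1
    rw [h1, hgs]
    field_simp
    ring
  have hDtg : c.Dt c.g = c.Dt CC / (c.d * CC) * c.g - c.Dt s * c.g * (sg - s)⁻¹ / c.d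
      - rt * c.Dt t := by
    have h1 := hDg c.Dt
    have h2 := der_root c.Dt hd hrtd hCC0 hmu0
    rw [hDmu, dta, dtb] at h2
    have h3 := hDsg c.Dt
    rw [dta, dtb] at h3
    have h4 : c.Dt sg = 0 := by
      have h5 : c.a * c.Dt sg = 0 := by linear_combination h3
      exact (mul_eq_zero.1 h5).resolve_left ha0
    rw [h4, h2] at h1
    rw [h1, hgs, hmu]
    field_simp
    ring
  -- places
  have hsV : s ∈ V := hτV _ hs
  have hrts : V.valuation rt < 1 := by
    have h1 : V.valuation (rt ^ c.d) < 1 := by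
      rw [hrtd, mul_comm]
      refine small_mul (small_sub hVb ?_) (hτV _ hCCm)
      rw [mul_comm]
      exact small_mul hVa hsV
    rw [map_pow] at h1
    by_contra hcon
    exact absurd h1 (not_lt.2 (one_le_pow_of_one_le' (not_lt.1 hcon) _))
  have hsgt : 1 < V.valuation (sg - t) := by
    have h1 : V.valuation rt * V.valuation (sg - t) = 1 := by
      rw [← map_mul, ← hgs, hVg]
    by_contra hcon
    have h2 : V.valuation rt * V.valuation (sg - t) < 1 :=
      mul_lt_one_of_lt_of_le hrts (not_lt.1 hcon)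
    rw [h1] at h2
    exact lt_irrefl _ h2
  have hsgV : sg ∉ V := by
    intro hcon
    have h1 : sg - t ∈ V := sub_mem hcon (hτV _ htm)
    exact absurd hsgt (not_lt.2 ((V.valuation_le_one_iff _).2 h1))
  have heps : V.valuation (sg - s)⁻¹ < 1 := by
    have h1 : sg - s ∉ V := by
      intro hcon
      apply hsgV
      have : sg = (sg - s) + s := by ring
      rw [this]
      exact add_mem hcon hsV
    rw [map_inv₀]
    exact inv_lt_one_of_one_lt₀ (by
      by_contra hcon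
      exact h1 ((V.valuation_le_one_iff _).1 (not_lt.1 hcon)))
  have hgV : c.g ∈ V := (V.valuation_le_one_iff _).1 hVg.le
  have hdinv : ((c.d : Ω))⁻¹ ∈ V := hτV _ (inv_mem (natCast_mem _ _))
  have hN1V : c.N1 ∈ V := sum_mem fun i _ => mul_mem (hτV _ (c.U1mem i)) (hxV i)
  have hN2V : c.N2 ∈ V := sum_mem fun i _ => mul_mem (hτV _ (c.U2mem i)) (hxV i)
  have hN3V : c.N3 ∈ V := sum_mem fun i _ => mul_mem (hτV _ (c.Bmem i)) (hxV i)
  set κ : Ω := c.Dt CC / (c.d * CC) with hκ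
  have hκm : κ ∈ acl k ({c.τ} : Set Ω) :=
    div_mem (htz _ hCCm) (mul_mem (natCast_mem _ _) hCCm)
  -- `EE` modulo the maximal ideal
  have hp : ∀ i, c.p i = 0 := fun i => by rw [hc.p]; rfl
  have hq : ∀ i, c.q i = 0 := fun i => by rw [hc.q]; rfl
  have hn0 : c.n0 = c.Dt c.g := by
    simp [FCtx.n0, FCtx.D0, FCtx.mu1, FCtx.mu2, hp, hq]
  have hEE : V.valuation (c.EE - (c.N1 ^ 2 / 2 - κ * c.g * c.N1 - c.g * c.N2)) < 1 := by
    have h1 : c.EE - (c.N1 ^ 2 / 2 - κ * c.g * c.N1 - c.g * c.N2) =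
        (sg - s)⁻¹ * (c.Dt s * c.g * (c.d : Ω)⁻¹ * c.N1 - s * c.g * (c.d : Ω)⁻¹ * c.N2 +
          c.g * (c.d : Ω)⁻¹ * c.N3) + rt * (c.Dt t * c.N1 - t * c.N2 + c.N3) := by
      unfold FCtx.EE
      rw [hn0, hDag, hDbg, hDtg]
      ring
    rw [h1]
    refine small_add (small_mul heps ?_) (small_mul hrts ?_)
    · refine add_mem (sub_mem ?_ ?_) ?_
      · exact mul_mem (mul_mem (mul_mem (hτV _ (htz _ hs)) hgV) hdinv) hN1V
      · exact mul_mem (mul_mem (mul_mem hsV hgV) hdinv) hN2V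
      · exact mul_mem (mul_mem hgV hdinv) hN3V
    · exact add_mem (sub_mem (mul_mem (hτV _ (htz _ htm)) hN1V) (mul_mem (hτV _ htm) hN2V)) hN3V
  have hhalf : (2 : Ω)⁻¹ ∈ V := by
    have : (2 : Ω)⁻¹ ∈ acl k ({c.τ} : Set Ω) := inv_mem (ofNat_mem _ 2)
    exact hτV _ this
  have hEEV : c.EE ∈ V := by
    have h1 : c.EE = (c.EE - (c.N1 ^ 2 / 2 - κ * c.g * c.N1 - c.g * c.N2)) +
        (c.N1 ^ 2 / 2 - κ * c.g * c.N1 - c.g * c.N2) := by ring
    rw [h1]
    refine add_mem (small_mem hEE) (sub_mem (sub_mem ?_ ?_) (mul_mem hgV hN2V))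
    · rw [div_eq_mul_inv]
      exact mul_mem (pow_mem hN1V _) hhalf
    · exact mul_mem (mul_mem (hτV _ hκm) hgV) hN1V
  obtain ⟨e, he, hez⟩ : ∃ e ∈ acl k ({c.τ} : Set Ω), V.valuation (c.EE / c.g ^ 2 - e) < 1 := by
    have hE0 : c.E (c.EE / c.g ^ 2) = 0 := by
      have h1 : c.E (c.EE / c.g ^ 2 * c.g ^ 2) = c.E c.EE := by
        congr 1
        field_simp
      rw [Derivation.leibniz, Derivation.leibniz_pow, c.E_EE] at h1
      have h2 : c.E c.g = c.g := c.toDCtx.Eg
      rw [h2] at h1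
      simp only [smul_eq_mul, nsmul_eq_mul] at h1
      have h3 : c.g ^ 2 * c.E (c.EE / c.g ^ 2) = 0 := by
        have h4 : c.EE / c.g ^ 2 * ((2 : ℕ) * (c.g ^ (2 - 1) * c.g)) = 2 * c.EE := by
          field_simp
          push_cast
          ring
        rw [h4] at h1
        linear_combination h1
      exact (mul_eq_zero.1 h3).resolve_left (pow_ne_zero _ hg0)
    have hmem := c.deg_zero (z := c.EE / c.g ^ 2)
      (div_mem c.EE_mem (pow_mem c.toDCtx.g_mem _)) hE0
    rw [← hsg, Set.pair_comm] at hmem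
    refine exists_residue V hτV ⟨sg, subset_acl _ (Set.mem_insert _ _), hsgV⟩ hmem ?_
    rw [← V.valuation_le_one_iff, map_div₀, map_pow, hVg, one_pow, div_one]
    exact (V.valuation_le_one_iff _).2 hEEV
  -- the quadratic form
  have hN1 : c.N1 = c.τ * c.x 0 - c.x 1 := by
    simp only [DCtx.N1, hc.U1, Fin.sum_univ_four]
    simp
    ring
  have hN2 : c.N2 = c.x 0 := by
    simp only [DCtx.N2, hc.U2, Fin.sum_univ_four]
    simp
  have hgx : c.g = c.τ ^ 2 / 2 * c.x 0 - c.τ * c.x 1 + c.x 2 := by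
    simp only [DCtx.g, hc.U, Fin.sum_univ_four]
    simp
    ring
  have hF : V.valuation (c.x 1 ^ 2 / 2 - c.x 0 * c.x 2) < 1 := by
    have h1 := (hVI (C (2⁻¹ : k) * X 1 ^ 2 - X 0 * X 2)).2 ((hI _ 2 ?_).2 ?_)
    · have h2 : aeval c.x (C (2⁻¹ : k) * X 1 ^ 2 - X 0 * X 2 : MvPolynomial (Fin 4) k) =
          c.x 1 ^ 2 / 2 - c.x 0 * c.x 2 := by
        simp only [map_sub, map_mul, aeval_C, map_pow, aeval_X, map_inv₀, map_ofNat]
        ring
      rwa [h2] at h1
    · refine IsHomogeneous.sub (IsHomogeneous.C_mul (isHomogeneous_X_pow _ _) _) ?_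
      exact (isHomogeneous_X _ _).mul (isHomogeneous_X _ _)
    · simp only [map_sub, map_mul, aeval_C, map_pow, aeval_X, map_inv₀, map_ofNat]
      simp only [Matrix.cons_val_zero, Matrix.cons_val_one, Matrix.cons_val]
      rw [hc.y1, hc.y2]
      ring
  have hlin : V.valuation (κ * c.N1 + e * c.g) < 1 := by
    have h1 : V.valuation (c.g ^ 2 * (c.EE / c.g ^ 2 - e)) < 1 := by
      rw [mul_comm]
      exact small_mul hez (pow_mem hgV _)
    have h2 : V.valuation (c.g * (κ * c.N1 + e * c.g)) < 1 := by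
      have h3 : c.g * (κ * c.N1 + e * c.g) = (c.x 1 ^ 2 / 2 - c.x 0 * c.x 2) +
          (c.EE - (c.N1 ^ 2 / 2 - κ * c.g * c.N1 - c.g * c.N2)) -
            c.g ^ 2 * (c.EE / c.g ^ 2 - e) := by
        have h4 : c.g ^ 2 * (c.EE / c.g ^ 2 - e) = c.EE - e * c.g ^ 2 := by
          field_simp
        rw [h4, hN2, hN1]
        have h5 : c.g * c.x 0 = (c.τ ^ 2 / 2 * c.x 0 - c.τ * c.x 1 + c.x 2) * c.x 0 := by
          rw [← hgx]
        linear_combination -h5
      rw [h3]
      exact small_sub (small_add hF hEE) h1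
    rwa [map_mul, hVg, one_mul] at h2
  have hv := lf_zero (c := c.toDCtx) (s := s) (v := fun i => κ * c.U1 i + e * c.U i) hVη hI
    (fun i => add_mem (mul_mem hκm (c.U1mem i)) (mul_mem he (c.Umem i)))
    (by simp only [hc.U1, hc.U]; simp) (by
      have : ∑ i, (κ * c.U1 i + e * c.U i) * c.x i = κ * c.N1 + e * c.g := by
        simp only [DCtx.N1, DCtx.g, Finset.mul_sum, ← Finset.sum_add_distrib]
        exact Finset.sum_congr rfl fun i _ => by ring
      rw [this]
      exact hlin)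
  have he0' : e = 0 := by
    have := congrFun hv 2
    simpa [hc.U1, hc.U] using this
  have hκ0 : κ = 0 := by
    have := congrFun hv 1
    simpa [hc.U1, hc.U, he0'] using this
  have hC' : c.Dt CC = 0 := by
    rw [hκ, div_eq_zero_iff] at hκ0
    exact hκ0.resolve_right (mul_ne_zero hd0 hCC0)
  obtain ⟨C0, hC0⟩ := const_of_der_zero c.Dt (by rw [dtt]; exact one_ne_zero) hCCm hC'
  refine ⟨rt, t, C0, ?_, hrtL, htm, ?_, hgs⟩
  · rintro rfl
    rw [map_zero] at hC0
    exact hCC0 hC0.symm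
  · rw [hC0, hrtd]

end FCtx
end Pool.Agent.HDP

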