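import Mathlib
import Pool.Agent.Lib.MP_20906e_al.Defs
import Pool.Agent.Lib.MP_20906e_al.Acl
import Pool.Agent.Lib.MP_20906e_al.Ctx
import Pool.Agent.Lib.MP_20906e_al.CtxN
import Pool.Agent.Lib.MP_20906e_al.DCtx
import Pool.Agent.Lib.MP_20906e_al.Cone
import Pool.Agent.Lib.MP_20906e_al.B1

/-!
# MP_20906e_al, piece E7b2a: case A in the conic frame, rationality (helper54)

`s` and `ρ` are in `k(x)`.  `lin_of_pow_form`: an element of `k(x)` whose `m`-th power is a form of
degree `m` is a linear form.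
-/

namespace Pool.Agent.HDP
open MvPolynomial

set_option linter.unusedSectionVars false

section Aux
variable {k Ω : Type*} [Field k] [CharZero k] [Field Ω] [IsAlgClosed Ω] [Algebra k Ω]

/-- an element fixed by all automorphisms of `Ω` over `k(x)` is in `k(x)` -/
private lemma e7b2_fixed {ι : Type*} {x : ι → Ω} (tb : IsTranscendenceBasis k x) {z : Ω}
    (h : ∀ f : Ω ≃ₐ[IntermediateField.adjoin k (Set.range x)] Ω, f z = z) :
    z ∈ IntermediateField.adjoin k (Set.range x) := by
  have halg : Algebra.IsAlgebraic (IntermediateField.adjoin k (Set.range x)) Ω :=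
    tb.isAlgebraic_field
  have hcl : IsAlgClosure (IntermediateField.adjoin k (Set.range x)) Ω := ⟨inferInstance, halg⟩
  have hgal : IsGalois (IntermediateField.adjoin k (Set.range x)) Ω := {}
  have h2 := InfiniteGalois.mem_bot_iff_fixed z |>.2 h
  obtain ⟨y, hy⟩ := IntermediateField.mem_bot.1 h2
  rw [← hy]
  exact y.2

/-- an automorphism fixing `τ` preserves the closure of `τ` -/
private lemma e7b2_acl (K : IntermediateField k Ω) (f : Ω ≃ₐ[K] Ω) {τ : Ω} (hτ : τ ∈ K) {z : Ω}
    (hz : z ∈ acl k ({τ} : Set Ω)) : f z ∈ acl k ({τ} : Set Ω) := by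
  rw [mem_acl_iff] at hz ⊢
  have hle : IntermediateField.adjoin k ({τ} : Set Ω) ≤ K :=
    IntermediateField.adjoin_le_iff.2 (by simpa using hτ)
  let f' : Ω →ₐ[IntermediateField.adjoin k ({τ} : Set Ω)] Ω :=
    { (f : Ω →+* Ω) with commutes' := fun r => f.commutes ⟨r.1, hle r.2⟩ }
  exact hz.algHom f'

/-- the roots of `(Z - s) (Z - t)^d` -/
private lemma e7b2_roots {s t s' t' : Ω} {d : ℕ} (hd : 2 ≤ d)
    (h : (Polynomial.X - Polynomial.C s) * (Polynomial.X - Polynomial.C t) ^ d =
      (Polynomial.X - Polynomial.C s') * (Polynomial.X - Polynomial.C t') ^ d) :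
    s = s' ∧ t = t' := by
  have ht : t = t' := by
    by_contra hne
    have hco : IsCoprime ((Polynomial.X - Polynomial.C t) ^ d)
        ((Polynomial.X - Polynomial.C t') ^ d) :=
      (Polynomial.isCoprime_X_sub_C_of_isUnit_sub
        (sub_ne_zero.2 hne).isUnit).pow
    have hdvd : (Polynomial.X - Polynomial.C t) ^ d ∣ (Polynomial.X - Polynomial.C s') :=
      hco.dvd_of_dvd_mul_right (h ▸ Dvd.intro_left _ rfl)
    have h1 := Polynomial.natDegree_le_of_dvd hdvd (Polynomial.X_sub_C_ne_zero s')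
    rw [Polynomial.natDegree_pow, Polynomial.natDegree_X_sub_C, Polynomial.natDegree_X_sub_C] at h1
    omega
  subst ht
  have h2 := mul_right_cancel₀ (pow_ne_zero d (Polynomial.X_sub_C_ne_zero t)) h
  have h3 := congrArg (Polynomial.eval s) h2
  simp only [Polynomial.eval_sub, Polynomial.eval_X, Polynomial.eval_C, sub_self] at h3
  exact ⟨(sub_eq_zero.1 h3.symm), rfl⟩

/-- an element of `k(x)` whose `m`-th power is a form of degree `m` is a linear form -/
theorem lin_of_pow_form {n : ℕ} {x : Fin n → Ω} (hx : AlgebraicIndependent k x) {ρ : Ω}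
    (hρ : ρ ∈ IntermediateField.adjoin k (Set.range x)) (hρ0 : ρ ≠ 0) {m : ℕ} (hm : m ≠ 0)
    {F : MvPolynomial (Fin n) k} (hF : F.IsHomogeneous m) (h : ρ ^ m = aeval x F) :
    ∃ l : Fin n → k, ρ = ∑ i, algebraMap k Ω (l i) * x i := by
  obtain ⟨A, B, hAB⟩ := (IntermediateField.mem_adjoin_range_iff k x ρ).1 hρ
  have hB : aeval x B ≠ 0 := by
    intro h0
    rw [h0, div_zero] at hAB
    exact hρ0 hAB
  have hB0 : B ≠ 0 := by
    rintro rfl
    exact hB (map_zero _)
  have h1 : A ^ m = F * B ^ m := by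
    apply hx
    rw [map_mul, map_pow, map_pow, ← h, hAB, div_pow, div_mul_cancel₀ _ (pow_ne_zero m hB)]
  have h2 : B ∣ A := by
    rw [← IsIntegrallyClosed.pow_dvd_pow_iff hm, h1]
    exact Dvd.intro_left _ rfl
  obtain ⟨lam, rfl⟩ := h2
  have h3 : lam ^ m = F := by
    apply mul_right_cancel₀ (pow_ne_zero m hB0)
    rw [← h1]
    ring
  have h4 : ρ = aeval x lam := by
    rw [hAB, map_mul, mul_div_cancel_left₀ _ hB]
  have hF0 : F ≠ 0 := by
    rintro rfl
    rw [map_zero] at h
    exact hρ0 (pow_eq_zero_iff hm |>.1 h)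
  obtain ⟨a, ha⟩ := isHomogeneous_of_dvd hF hF0 (h3 ▸ dvd_pow_self lam hm)
  have h5 : a * m = m := by
    have := ha.pow m
    rw [h3] at this
    exact this.inj_right hF hF0
  have h6 : a = 1 := by
    rcases Nat.eq_or_lt_of_le (Nat.one_le_iff_ne_zero.2 hm) with hm1 | hm1
    · rw [← hm1] at h5
      omega
    · exact Nat.eq_of_mul_eq_mul_right (Nat.pos_of_ne_zero hm) (by rw [h5, one_mul])
  subst h6
  have h7 : lam ∈ Submodule.span k (Set.range (X : Fin n → MvPolynomial (Fin n) k)) := by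
    rw [← homogeneousSubmodule_one_eq_span_X]
    exact ha
  obtain ⟨l, hl⟩ := (Submodule.mem_span_range_iff_exists_fun k).1 h7
  refine ⟨l, ?_⟩
  rw [h4, ← hl, map_sum]
  refine Finset.sum_congr rfl fun i _ => ?_
  rw [map_smul, aeval_X, Algebra.smul_def]

end Aux

variable {k Ω : Type*} [Field k] [IsAlgClosed k] [CharZero k] [Field Ω] [IsAlgClosed Ω] [Algebra k Ω]

namespace FCtx
variable (c : FCtx k Ω)

/-- `bb/a` is transcendental over the closure of `τ` -/
theorem e7b2_sg : c.bb / c.a ∉ acl k ({c.τ} : Set Ω) := by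
  intro hsg
  have h := (algInd_iff_notMem (k := k) ![c.τ, c.a, c.bb]).1 c.indep 2
  apply h
  have h1 : c.bb = c.bb / c.a * c.a := by
    rw [div_mul_cancel₀ _ c.a0]
  show c.bb ∈ _
  rw [h1]
  refine mul_mem ?_ ?_
  · refine acl_mono ?_ hsg
    intro z hz
    rw [Set.mem_singleton_iff] at hz
    exact ⟨0, by simp, by simp [hz]⟩
  · exact subset_acl _ ⟨1, by simp, by simp⟩

/-- rationality of `s`, `t`, `ρ` over `k(x)` -/
theorem conic_rational (hc : c.Conic) {s : Ω} (h : c.CaseA s) {ρ t : Ω} {C0 : k} (hC : C0 ≠ 0)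
    (ht : t ∈ acl k ({c.τ} : Set Ω)) (hρ : ρ ^ c.d = algebraMap k Ω C0 * (c.bb - s * c.a))
    (hg : c.g = ρ * (c.bb / c.a - t)) :
    s ∈ IntermediateField.adjoin k (Set.range c.x) ∧ ρ ∈ IntermediateField.adjoin k (Set.range c.x) := by
  obtain ⟨K, hK⟩ : ∃ K : IntermediateField k Ω, K = IntermediateField.adjoin k (Set.range c.x) :=
    ⟨_, rfl⟩
  have hxK : ∀ i, c.x i ∈ K := fun i => by
    rw [hK]
    exact IntermediateField.subset_adjoin _ _ ⟨i, rfl⟩
  have hyK : ∀ i, c.y i ∈ K := fun i => by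
    rw [c.hy, MvPolynomial.aeval_def, MvPolynomial.eval₂_eq']
    exact sum_mem fun m _ => mul_mem (K.algebraMap_mem _) (prod_mem fun i _ => pow_mem (hxK i) _)
  have ha0 : c.a ≠ 0 := c.a0
  have haK : c.a ∈ K := by rw [hc.a]; exact hyK 0
  have hbK : c.bb ∈ K := by rw [hc.bb]; exact hyK 3
  have hτK : c.τ ∈ K := by
    have h1 : c.τ = c.y 1 / c.y 0 := by
      rw [hc.y1, mul_div_cancel_right₀]
      rw [← hc.a]; exact ha0
    rw [h1]
    exact div_mem (hyK 1) (hyK 0)
  have hgK : c.g ∈ K := by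
    have h2K : (2 : Ω) ∈ K := ofNat_mem K 2
    rw [DCtx.g, hc.U, Fin.sum_univ_four]
    refine add_mem (add_mem (add_mem ?_ ?_) ?_) ?_
    · exact mul_mem (div_mem (pow_mem hτK 2) h2K) (hxK 0)
    · exact mul_mem (neg_mem hτK) (hxK 1)
    · exact mul_mem (one_mem K) (hxK 2)
    · exact mul_mem (zero_mem K) (hxK 3)
  have hsgK : c.bb / c.a ∈ K := div_mem hbK haK
  have hC' : algebraMap k Ω C0 ≠ 0 := by
    rw [Ne, map_eq_zero]
    exact hC
  have key : c.g ^ c.d = algebraMap k Ω C0 * c.a *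
      ((c.bb / c.a - s) * (c.bb / c.a - t) ^ c.d) := by
    rw [hg, mul_pow, hρ]
    field_simp
  have hfix : ∀ f : Ω ≃ₐ[K] Ω, f s = s ∧ f t = t := by
    intro f
    have hfK : ∀ z ∈ K, f z = z := fun z hz => f.commutes ⟨z, hz⟩
    have hfs := e7b2_acl K f hτK h.smem
    have hft := e7b2_acl K f hτK ht
    have key2 := congrArg f key
    rw [map_pow, map_mul, map_mul, map_mul, map_pow, map_sub, map_sub, hfK _ hgK,
      hfK _ haK, hfK _ hsgK, hfK _ (K.algebraMap_mem C0), key] at key2
    have key3 := mul_left_cancel₀ (mul_ne_zero hC' ha0) key2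
    have hpoly : (Polynomial.X - Polynomial.C s) * (Polynomial.X - Polynomial.C t) ^ c.d =
        (Polynomial.X - Polynomial.C (f s)) * (Polynomial.X - Polynomial.C (f t)) ^ c.d := by
      by_contra hne
      apply c.e7b2_sg
      refine mem_acl_of_root (k := k) _ (sub_ne_zero.2 hne) ?_ (z := c.bb / c.a) ?_
      · intro i
        have hl : ∀ p q : Polynomial Ω, (∀ i, p.coeff i ∈ acl k ({c.τ} : Set Ω)) →
            (∀ i, q.coeff i ∈ acl k ({c.τ} : Set Ω)) →
            ∀ i, (p * q).coeff i ∈ acl k ({c.τ} : Set Ω) := by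
          intro p q hp hq i
          rw [Polynomial.coeff_mul]
          exact sum_mem fun j _ => mul_mem (hp _) (hq _)
        have hX : ∀ z ∈ acl k ({c.τ} : Set Ω), ∀ i,
            (Polynomial.X - Polynomial.C z).coeff i ∈ acl k ({c.τ} : Set Ω) := by
          intro z hz i
          rw [Polynomial.coeff_sub, Polynomial.coeff_X, Polynomial.coeff_C]
          refine sub_mem ?_ ?_
          · split_ifs
            · exact one_mem _
            · exact zero_mem _
          · split_ifs
            · exact hz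
            · exact zero_mem _
        have hpw : ∀ p : Polynomial Ω, (∀ i, p.coeff i ∈ acl k ({c.τ} : Set Ω)) →
            ∀ n i, (p ^ n).coeff i ∈ acl k ({c.τ} : Set Ω) := by
          intro p hp n
          induction n with
          | zero =>
            intro i
            rw [pow_zero, Polynomial.coeff_one]
            split_ifs
            · exact one_mem _
            · exact zero_mem _
          | succ n ih =>
            rw [pow_succ]
            exact hl _ _ ih hp
        rw [Polynomial.coeff_sub]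
        exact sub_mem (hl _ _ (hX s h.smem) (hpw _ (hX t ht) _) i)
          (hl _ _ (hX _ hfs) (hpw _ (hX _ hft) _) i)
      · simp only [Polynomial.eval_sub, Polynomial.eval_mul, Polynomial.eval_pow,
          Polynomial.eval_X, Polynomial.eval_C]
        rw [key3, sub_self]
    obtain ⟨h1, h2⟩ := e7b2_roots c.hd hpoly
    exact ⟨h1.symm, h2.symm⟩
  have hsK : s ∈ K := by
    subst hK
    exact e7b2_fixed c.tb fun f => (hfix f).1
  have htK : t ∈ K := by
    subst hK
    exact e7b2_fixed c.tb fun f => (hfix f).2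
  have hne : c.bb / c.a - t ≠ 0 := by
    intro h0
    apply c.e7b2_sg
    rw [sub_eq_zero.1 h0]
    exact ht
  rw [← hK]
  refine ⟨hsK, ?_⟩
  rw [← div_eq_iff hne] at hg
  rw [← hg]
  exact div_mem hgK (sub_mem hsgK htK)

end FCtx
end Pool.Agent.HDP
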