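import Mathlib
import Pool.Agent.Lib.MP_20906e_al.Defs
import Pool.Agent.Lib.MP_20906e_al.Ctx
import Pool.Agent.Lib.MP_20906e_al.CtxN
import Pool.Agent.Lib.MP_20906e_al.DCtx
import Pool.Agent.Lib.MP_20906e_al.Cone
import Pool.Agent.Lib.MP_20906e_al.B2a
import Pool.Agent.Lib.MP_20906e_al.B3
import Pool.Agent.Lib.MP_20906e_al.E1a
import Pool.Agent.Lib.MP_20906e_al.E3
import Pool.Agent.Lib.MP_20906e_al.E4
import Pool.Agent.Lib.MP_20906e_al.E6

/-!
# MP_20906e_al, piece E7b3: planarity in the conic frame (helper97)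
-/

namespace Pool.Agent.HDP
open MvPolynomial

variable {k Ω : Type*} [Field k] [IsAlgClosed k] [CharZero k] [Field Ω] [IsAlgClosed Ω] [Algebra k Ω]

namespace FCtx
variable (c : FCtx k Ω)

private theorem acl_tau_L {z : Ω} (hz : z ∈ acl k ({c.τ} : Set Ω)) : z ∈ c.L := by
  have h : acl k ({c.τ} : Set Ω) ≤ c.L := by
    rw [Ctx3.L, acl_le_iff]
    intro w hw
    rw [Set.mem_singleton_iff.1 hw]
    exact c.τL
  exact h hz

private theorem D0_eq (hc : c.Conic) (f : Ω) : c.D0 f = c.Dt f := by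
  unfold D0 mu1 mu2
  rw [hc.p, hc.q]
  simp

/-- the algebraic identities -/
private theorem planar_ids (hc : c.Conic) {s ρ t : Ω} {C0 : k} (hC : C0 ≠ 0)
    (hs : s ∈ acl k ({c.τ} : Set Ω)) (ht : t ∈ acl k ({c.τ} : Set Ω))
    (hρL : ρ ∈ c.L) (hρ : ρ ^ c.d = algebraMap k Ω C0 * (c.bb - s * c.a))
    (hg : c.g = ρ * (c.bb / c.a - t)) (hst : s ≠ t) (hρ0 : ρ ≠ 0) :
    ∃ w h1 B1 Hb : Ω, w ∈ c.L ∧ w ≠ 0 ∧ h1 ∈ c.L ∧ h1 ≠ 0 ∧ B1 ∈ c.L ∧ Hb ∈ c.L ∧
      c.EE = c.N1 ^ 2 / 2 - c.n0 * c.N1 + w * c.x 0 + B1 * (c.x 3 - s * c.x 0) ∧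
      c.FF = c.a * h1 * c.x 0 * ((c.x 3 - s * c.x 0) + c.Dt s * c.N1)
        - c.a * (c.Da c.EE + s * c.Db c.EE) * c.x 0
        + (c.Dt c.EE * c.N1 + c.Dt c.n0 * c.N1 ^ 2 / 2 - c.Dt B1 * c.N1 * (c.x 3 - s * c.x 0)
          - c.a * c.Db c.EE * (c.x 3 - s * c.x 0) + c.a / 2 * Hb * (c.x 3 - s * c.x 0) ^ 2) := by
  have hch : CharZero Ω := charZero_of_injective_algebraMap (algebraMap k Ω).injective
  obtain ⟨hDtτ, hDta, hDtb, hDaτ, hDaa, hDab, hDbτ, hDba, hDbb⟩ := c.dual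
  have hker : ∀ (D : Derivation k Ω Ω), D c.τ = 0 → ∀ z ∈ acl k ({c.τ} : Set Ω), D z = 0 := by
    intro D hD
    exact der_acl_zero D (fun w hw => by rw [Set.mem_singleton_iff.1 hw]; exact hD)
  have hDas := hker c.Da hDaτ s hs
  have hDbs := hker c.Db hDbτ s hs
  have hDat := hker c.Da hDaτ t ht
  have hDbt := hker c.Db hDbτ t ht
  have ha0 := c.a0
  have hd0 : (c.d : Ω) ≠ 0 := by
    have := c.hd
    exact_mod_cast (by omega : c.d ≠ 0)
  have hC' : algebraMap k Ω C0 ≠ 0 := by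
    simpa using hC
  set μ : Ω := c.bb - s * c.a with hμ
  have hμ0 : μ ≠ 0 := by
    intro h0
    rw [h0, mul_zero] at hρ
    exact hρ0 (pow_eq_zero_iff (by have := c.hd; omega) |>.1 hρ)
  have hD : ∀ D : Derivation k Ω Ω, (c.d : Ω) * μ * D ρ = ρ * D μ := by
    intro D
    have h1 := congrArg D hρ
    rw [Derivation.leibniz_pow, Derivation.leibniz, Derivation.map_algebraMap, smul_zero, add_zero,
      nsmul_eq_mul, smul_eq_mul, smul_eq_mul] at h1
    have h2 : ρ * ρ ^ (c.d - 1) = ρ ^ c.d := by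
      rw [← pow_succ']
      congr 1
      have := c.hd
      omega
    have h3 : algebraMap k Ω C0 * ((c.d : Ω) * μ * D ρ) = algebraMap k Ω C0 * (ρ * D μ) := by
      calc algebraMap k Ω C0 * ((c.d : Ω) * μ * D ρ) = c.d * ρ ^ c.d * D ρ := by rw [hρ]; ring
        _ = ρ * (c.d * (ρ ^ (c.d - 1) * D ρ)) := by rw [← h2]; ring
        _ = _ := by rw [h1]; ring
    exact mul_left_cancel₀ hC' h3
  have hdμ : (c.d : Ω) * μ ≠ 0 := mul_ne_zero hd0 hμ0
  have hDbμ : c.Db μ = 1 := by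
    rw [hμ, map_sub, Derivation.leibniz, hDbb, hDba, hDbs]; simp
  have hDaμ : c.Da μ = - s := by
    rw [hμ, map_sub, Derivation.leibniz, hDab, hDaa, hDas]; simp
  have hDtμ : c.Dt μ = - (c.Dt s * c.a) := by
    rw [hμ, map_sub, Derivation.leibniz, hDtb, hDta]; simp [mul_comm]
  set P : Ω := c.Db ρ with hP
  have hP1 : (c.d : Ω) * μ * P = ρ := by rw [hP, hD, hDbμ, mul_one]
  have hDaρ : c.Da ρ = - s * P := by
    apply mul_left_cancel₀ hdμ
    rw [hD, hDaμ]
    linear_combination (-s) * hP1 * (-1)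
  have hDtρ : c.Dt ρ = - (c.Dt s * c.a * P) := by
    apply mul_left_cancel₀ hdμ
    rw [hD, hDtμ]
    linear_combination (c.Dt s * c.a) * hP1
  set P2 : Ω := c.Db P with hP2
  have e1 : (c.d : Ω) * P + (c.d : Ω) * μ * P2 = P := by
    have h1 := congrArg c.Db hP1
    rw [Derivation.leibniz, Derivation.leibniz, hDbμ, Derivation.map_natCast] at h1
    simp only [smul_eq_mul, mul_one, mul_zero, add_zero] at h1
    rw [← hP, ← hP2] at h1
    linear_combination h1
  have hDaP : c.Da P = - s * P2 := by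
    apply mul_left_cancel₀ hdμ
    have h1 := congrArg c.Da hP1
    rw [Derivation.leibniz, Derivation.leibniz, hDaμ, Derivation.map_natCast, hDaρ] at h1
    simp only [smul_eq_mul, mul_zero, add_zero] at h1
    linear_combination h1 + s * e1
  -- a g
  have hag : c.a * c.g = ρ * (c.bb - t * c.a) := by
    rw [hg]; field_simp
  have hDaK : c.Da (c.bb - t * c.a) = - t := by
    rw [map_sub, Derivation.leibniz, hDab, hDaa, hDat]; simp
  have hDbK : c.Db (c.bb - t * c.a) = 1 := by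
    rw [map_sub, Derivation.leibniz, hDbb, hDba, hDbt]; simp
  have hDa1 : c.Da (c.a * c.g) = - s * P * (c.bb - t * c.a) - t * ρ := by
    rw [hag, Derivation.leibniz, hDaK, hDaρ, smul_eq_mul, smul_eq_mul]; ring
  have hDb1 : c.Db (c.a * c.g) = P * (c.bb - t * c.a) + ρ := by
    rw [hag, Derivation.leibniz, hDbK, ← hP, smul_eq_mul, smul_eq_mul]; ring
  have hA1 : c.a * c.Da c.g = - s * P * (c.bb - t * c.a) - t * ρ - c.g := by
    rw [← hDa1, Derivation.leibniz, hDaa, smul_eq_mul, smul_eq_mul]; ring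
  have hB1 : c.a * c.Db c.g = P * (c.bb - t * c.a) + ρ := by
    rw [← hDb1, Derivation.leibniz, hDba, smul_eq_mul, smul_eq_mul]; ring
  have hHaa : c.Da (c.Da (c.a * c.g)) = s ^ 2 * P2 * (c.bb - t * c.a) + 2 * s * t * P := by
    rw [hDa1, map_sub, Derivation.leibniz, Derivation.leibniz, Derivation.leibniz, hDaK, hDaP, hDaρ,
      Derivation.map_neg, hDas, hDat]
    simp only [smul_eq_mul]; ring
  have hHab : c.Da (c.Db (c.a * c.g)) = - s * P2 * (c.bb - t * c.a) - t * P - s * P := by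
    rw [hDb1, map_add, Derivation.leibniz, hDaK, hDaP, hDaρ]
    simp only [smul_eq_mul]; ring
  have hHbb : c.Db (c.Db (c.a * c.g)) = P2 * (c.bb - t * c.a) + 2 * P := by
    rw [hDb1, map_add, Derivation.leibniz, hDbK, ← hP, ← hP2]
    simp only [smul_eq_mul]; ring
  -- memberships
  have haL : c.a ∈ c.L := by rw [hc.a]; exact c.y_mem 0
  have hbL : c.bb ∈ c.L := by rw [hc.bb]; exact c.y_mem 3
  have hsL := c.acl_tau_L hs
  have htL := c.acl_tau_L ht
  have hPL : P ∈ c.L := (c.DL ρ hρL).2.2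
  have hP2L : P2 ∈ c.L := (c.DL P hPL).2.2
  have hgL : c.g ∈ c.L := c.toDCtx.g_mem
  -- the elements
  set A1 : Ω := c.a * c.Da c.g with hA1d
  set B1 : Ω := c.a * c.Db c.g with hB1d
  have hw : A1 + s * B1 = (s - t) * ρ - c.g := by rw [hA1, hB1]; ring
  have haw : c.a * (A1 + s * B1) = - ρ * μ := by
    rw [hw, mul_sub, hag, hμ]; ring
  have hN2 : c.N2 = c.x 0 := by
    unfold DCtx.N2
    rw [hc.U2]
    simp [Fin.sum_univ_four]
  have hN3 : c.N3 = c.x 3 := by
    unfold N3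
    rw [hc.B]
    simp [Fin.sum_univ_four]
  have hDtw : c.Dt A1 + s * c.Dt B1 = - (c.Dt s * c.a * ((s - t) * P)) := by
    have h1 : c.a * c.Dt (A1 + s * B1) = c.Dt s * c.a * P * μ + ρ * (c.Dt s * c.a) := by
      have h2 := congrArg c.Dt haw
      rw [Derivation.leibniz c.Dt c.a, hDta, Derivation.leibniz c.Dt (-ρ), Derivation.map_neg,
        hDtρ, hDtμ] at h2
      simp only [smul_eq_mul, mul_zero, add_zero] at h2
      linear_combination h2
    have h3 : c.Dt (A1 + s * B1) = c.Dt A1 + (s * c.Dt B1 + B1 * c.Dt s) := by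
      rw [map_add, Derivation.leibniz c.Dt s B1]; simp only [smul_eq_mul]
    rw [h3] at h1
    apply mul_left_cancel₀ ha0
    linear_combination h1 - c.a * c.Dt s * hB1
  refine ⟨A1 + s * B1, (s - t) * P, B1, c.Db (c.Db (c.a * c.g)), ?_, ?_, ?_, ?_, ?_, ?_, ?_, ?_⟩
  · rw [hw]
    exact sub_mem (mul_mem (sub_mem hsL htL) hρL) hgL
  · intro h0
    rw [h0, mul_zero] at haw
    exact mul_ne_zero (neg_ne_zero.2 hρ0) hμ0 haw.symm
  · exact mul_mem (sub_mem hsL htL) hPL
  · refine mul_ne_zero (sub_ne_zero.2 hst) ?_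
    intro h0
    rw [h0, mul_zero] at hP1
    exact hρ0 hP1.symm
  · exact mul_mem haL (c.DL _ hgL).2.2
  · exact (c.DL _ (c.DL _ (mul_mem haL hgL)).2.2).2.2
  · unfold EE
    rw [hN2, hN3, ← hA1d, ← hB1d]
    ring
  · have hFF : c.FF = c.Dt c.EE * c.N1 + c.Dt c.n0 * c.N1 ^ 2 / 2
        - c.Dt A1 * c.N1 * c.x 0 - c.Dt B1 * c.N1 * c.x 3
        - c.a * c.Da c.EE * c.x 0 - c.a * c.Db c.EE * c.x 3
        + c.a / 2 * (c.Da (c.Da (c.a * c.g)) * c.x 0 ^ 2
          + 2 * c.Da (c.Db (c.a * c.g)) * c.x 0 * c.x 3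
          + c.Db (c.Db (c.a * c.g)) * c.x 3 ^ 2) := by
      unfold FF
      rw [c.D0_eq hc, c.D0_eq hc, c.D0_eq hc, c.D0_eq hc, hN2, hN3, hc.p, hc.q]
      have hmu : c.mu1 = 0 := by unfold mu1; rw [hc.p]; simp
      rw [hmu]
      simp only [Pi.zero_apply]
      ring
    rw [hFF, hHaa, hHab, hHbb]
    linear_combination (-(c.N1 * c.x 0)) * hDtw

/-- `m + s' N1` is in `L` -/
private theorem planar_mem (hc : c.Conic) {s ρ t : Ω} {C0 : k} (h : c.CaseA s) (hC : C0 ≠ 0)
    (ht : t ∈ acl k ({c.τ} : Set Ω))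
    (hρL : ρ ∈ c.L) (hρ : ρ ^ c.d = algebraMap k Ω C0 * (c.bb - s * c.a))
    (hg : c.g = ρ * (c.bb / c.a - t)) (hst : s ≠ t) (hρ0 : ρ ≠ 0) :
    (c.x 3 - s * c.x 0) + c.Dt s * (c.τ * c.x 0 - c.x 1) ∈ c.L := by
  have hch : CharZero Ω := charZero_of_injective_algebraMap (algebraMap k Ω).injective
  obtain ⟨w, h1, B1, Hb, hwL, hw0, h1L, h10, hB1, hHb, hE, hF⟩ :=
    c.planar_ids hc hC h.smem ht hρL hρ hg hst hρ0
  have hsL := c.acl_tau_L h.smem
  have hs'L : c.Dt s ∈ c.L := (c.DL s hsL).1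
  have haL : c.a ∈ c.L := by rw [hc.a]; exact c.y_mem 0
  have hgL : c.g ∈ c.L := c.toDCtx.g_mem
  have hN1 : c.N1 = c.τ * c.x 0 - c.x 1 := by
    unfold DCtx.N1
    rw [hc.U1]
    simp [Fin.sum_univ_four, sub_eq_add_neg]
  have hEL := c.EE_mem
  have hFL := c.FF_mem
  have hn0L : c.n0 ∈ c.L := by
    unfold n0
    rw [c.D0_eq hc]
    exact (c.DL _ hgL).1
  rw [← hN1]
  refine c.mem_L_of_places fun V hV => ?_
  by_cases hfin : ∀ i, c.x i ∈ V
  · rw [hN1]
    exact add_mem (sub_mem (hfin 3) (mul_mem (hV _ hsL) (hfin 0)))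
      (mul_mem (hV _ hs'L) (sub_mem (mul_mem (hV _ c.τL) (hfin 0)) (hfin 1)))
  push Not at hfin
  obtain ⟨b, i0, hb⟩ := c.exists_dir V hV hfin
  obtain ⟨e, he0, hb0, hb1, hb2, hb3⟩ := h.dirs V b i0 hb
  have hL1 : ∀ z ∈ c.L, V.valuation z ≤ 1 := fun z hz => (V.valuation_le_one_iff z).2 (hV z hz)
  have ha0 := c.a0
  have hb0' : b 0 = e := by rw [hb0, ← hc.a]; field_simp
  have hb1' : b 1 = c.τ * b 0 := by
    rw [hb1, hb0', hc.y1, ← hc.a]; field_simp
  have hb3' : b 3 = s * b 0 := by rw [hb3, hb0', mul_comm]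
  have hxi := c.b3_x0_ne hb
  have hinf : 1 < V.valuation (c.x i0) := by
    rw [← not_le, V.valuation_le_one_iff]; exact hb.inf
  have hxv : V.valuation (c.x i0) ≠ 0 := by
    rw [Valuation.ne_zero_iff]; exact hxi
  -- the valuation of `x 0`
  have hX : V.valuation (c.x 0) = V.valuation (c.x i0) := by
    have h2 : V.valuation (b 0) = 1 := c.val_L V hV (hb.mem 0) (by rw [hb0']; exact he0)
    have h3 : V.valuation (c.x 0 / c.x i0) = 1 := by
      have h4 : c.x 0 / c.x i0 = (c.x 0 / c.x i0 - b 0) + b 0 := by ring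
      rw [h4, Valuation.map_add_eq_of_lt_right _ (by rw [h2]; exact hb.res 0), h2]
    rw [map_div₀] at h3
    exact (div_eq_one_iff_eq hxv).1 h3
  have hlin : ∀ z v : Ω, v ∈ V → ∀ (hz : V.valuation (z / c.x i0 - v * b 0) < 1),
      V.valuation (z - v * c.x 0) < V.valuation (c.x 0) := by
    intro z v hv hz
    have h4 : z - v * c.x 0 = ((z / c.x i0 - v * b 0) - v * (c.x 0 / c.x i0 - b 0)) * c.x i0 := by
      field_simp
      ring
    rw [h4, map_mul, hX]
    have h5 : V.valuation ((z / c.x i0 - v * b 0) - v * (c.x 0 / c.x i0 - b 0)) < 1 := by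
      refine Valuation.map_sub_lt _ hz ?_
      rw [map_mul]
      calc V.valuation v * V.valuation (c.x 0 / c.x i0 - b 0)
          ≤ 1 * V.valuation (c.x 0 / c.x i0 - b 0) :=
            mul_le_mul_left ((V.valuation_le_one_iff v).2 hv) _
        _ < 1 := by rw [one_mul]; exact hb.res 0
    calc _ < 1 * V.valuation (c.x i0) := mul_lt_mul_of_pos_right h5 (zero_lt_iff.2 hxv)
      _ = _ := one_mul _
  have hMX : V.valuation (c.x 3 - s * c.x 0) < V.valuation (c.x 0) :=
    hlin _ _ (hV _ hsL) (by rw [← hb3']; exact hb.res 3)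
  have hYX : V.valuation c.N1 < V.valuation (c.x 0) := by
    rw [hN1, ← neg_sub, Valuation.map_neg]
    exact hlin _ _ (hV _ c.τL) (by rw [← hb1']; exact hb.res 1)
  have hX1 : 1 < V.valuation (c.x 0) := by rw [hX]; exact hinf
  have hX0 : 0 < V.valuation (c.x 0) := lt_trans zero_lt_one hX1
  set m : Ω := c.x 3 - s * c.x 0 with hm
  set X := V.valuation (c.x 0) with hXd
  set Y := V.valuation c.N1 with hY
  set M := V.valuation m with hM
  have hhalf : V.valuation (2 : Ω)⁻¹ ≤ 1 := by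
    rw [V.valuation_le_one_iff]
    have := c.b3_k_mem hV ((2 : k)⁻¹)
    rwa [map_inv₀, map_ofNat] at this
  have hle : ∀ z ∈ c.L, ∀ w' : Ω, V.valuation (z * w') ≤ V.valuation w' := by
    intro z hz w'
    rw [map_mul]
    calc _ ≤ 1 * V.valuation w' := mul_le_mul_left (hL1 z hz) _
      _ = _ := one_mul _
  have hsub : ∀ {p q : Ω} {K : V.ValueGroup}, V.valuation p ≤ K → V.valuation q ≤ K →
      V.valuation (p - q) ≤ K := fun hp hq => (Valuation.map_sub _ _ _).trans (max_le hp hq)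
  have hadd : ∀ {p q : Ω} {K : V.ValueGroup}, V.valuation p ≤ K → V.valuation q ≤ K →
      V.valuation (p + q) ≤ K := fun hp hq => (Valuation.map_add _ _ _).trans (max_le hp hq)
  -- `Y ^ 2 ≤ X`
  have hYY : Y ^ 2 ≤ X := by
    have h2 : c.N1 ^ 2 = 2 * ((c.EE + c.n0 * c.N1) - (w * c.x 0 + B1 * m)) := by
      rw [hE]; ring
    have h3 : V.valuation (c.N1 ^ 2) ≤ X := by
      rw [h2]
      have h2L : (2 : Ω) ∈ c.L := by
        have := natCast_mem c.L 2
        simpa using this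
      refine (hle 2 h2L _).trans ?_
      refine hsub (hadd ((hL1 _ hEL).trans hX1.le) ((hle _ hn0L _).trans hYX.le))
        (hadd (hle _ hwL _) ((hle _ hB1 _).trans hMX.le))
    rwa [map_pow] at h3
  -- contradiction
  by_contra hcon
  rw [← V.valuation_le_one_iff, not_le] at hcon
  set k0 : Ω := m + c.Dt s * c.N1 with hk0
  set K := V.valuation k0 with hK
  have hKX : X < K * X := by
    calc X = 1 * X := (one_mul _).symm
      _ < K * X := mul_lt_mul_of_pos_right hcon hX0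
  have hYM : Y * M < K * X ∧ M ^ 2 < K * X := by
    rcases le_or_gt M Y with hMY | hMY
    · refine ⟨lt_of_le_of_lt ?_ hKX, lt_of_le_of_lt ?_ hKX⟩
      · calc Y * M ≤ Y * Y := mul_le_mul_right hMY _
          _ = Y ^ 2 := (sq Y).symm
          _ ≤ X := hYY
      · calc M ^ 2 ≤ Y ^ 2 := pow_le_pow_left₀ zero_le hMY 2
          _ ≤ X := hYY
    · have hKM : K = M := by
        rw [hK, hk0]
        exact Valuation.map_add_eq_of_lt_left _ (lt_of_le_of_lt (hle _ hs'L _) hMY)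
      have hM0 : 0 < M := lt_of_le_of_lt zero_le hMY
      rw [hKM]
      refine ⟨?_, ?_⟩
      · rw [mul_comm]
        exact mul_lt_mul_of_pos_left hYX hM0
      · rw [sq]
        exact mul_lt_mul_of_pos_left hMX hM0
  have hid : c.a * h1 * (c.x 0 * k0) = c.FF + c.a * (c.Da c.EE + s * c.Db c.EE) * c.x 0
        - (c.Dt c.EE * c.N1 + c.Dt c.n0 * ((2 : Ω)⁻¹ * c.N1 ^ 2) - c.Dt B1 * (c.N1 * m)
          - c.a * c.Db c.EE * m + c.a * Hb * ((2 : Ω)⁻¹ * m ^ 2)) := by
    rw [hF]; ring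
  have hah : V.valuation (c.a * h1) = 1 :=
    c.val_L V hV (mul_mem haL h1L) (mul_ne_zero ha0 h10)
  have hlt : V.valuation (c.a * h1 * (c.x 0 * k0)) < K * X := by
    have hlt1 : (1 : V.ValueGroup) < K * X := lt_trans hX1 hKX
    have hs2 : ∀ {p q : Ω}, V.valuation p < K * X → V.valuation q < K * X →
      V.valuation (p - q) < K * X := fun hp hq => Valuation.map_sub_lt _ hp hq
    have ha2 : ∀ {p q : Ω}, V.valuation p < K * X → V.valuation q < K * X →
      V.valuation (p + q) < K * X := fun hp hq => Valuation.map_add_lt _ hp hq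
    have hDaE := (c.DL _ hEL).2.1
    have hDbE := (c.DL _ hEL).2.2
    have hDtE := (c.DL _ hEL).1
    have hDtn := (c.DL _ hn0L).1
    have hDtB := (c.DL _ hB1).1
    rw [hid]
    refine hs2 (ha2 ?_ ?_) (ha2 (hs2 (hs2 (ha2 ?_ ?_) ?_) ?_) ?_)
    · exact lt_of_le_of_lt (hL1 _ hFL) hlt1
    · exact lt_of_le_of_lt (hle _ (mul_mem haL (add_mem hDaE (mul_mem hsL hDbE))) _) hKX
    · exact lt_of_le_of_lt (hle _ hDtE _) (lt_trans hYX hKX)
    · refine lt_of_le_of_lt (hle _ hDtn _) (lt_of_le_of_lt ?_ hKX)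
      rw [map_mul, map_pow]
      calc _ ≤ 1 * Y ^ 2 := mul_le_mul_left hhalf _
        _ ≤ X := by rw [one_mul]; exact hYY
    · refine lt_of_le_of_lt (hle _ hDtB _) ?_
      rw [map_mul]
      exact hYM.1
    · exact lt_of_le_of_lt (hle _ (mul_mem haL hDbE) _) (lt_trans hMX hKX)
    · refine lt_of_le_of_lt (hle _ (mul_mem haL hHb) _) (lt_of_le_of_lt ?_ hYM.2)
      rw [map_mul, map_pow]
      calc _ ≤ 1 * M ^ 2 := mul_le_mul_left hhalf _
        _ = M ^ 2 := one_mul _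
  rw [map_mul, hah, one_mul, map_mul, mul_comm] at hlt
  exact lt_irrefl _ hlt

/-- a linear form over `acl {τ}` in the maximal ideal, with last coefficient `1`, is defined over `k` -/
private theorem lin_over_k {s : Ω} (I : Ideal (MvPolynomial (Fin 4) k)) (V : ValuationSubring Ω)
    (hLI : ∀ (m : ℕ) (η : Fin m → Ω) (F : Fin m → MvPolynomial (Fin 4) k),
        (∀ i, η i ∈ acl k ({c.τ} : Set Ω)) → LinearIndependent k η →
        V.valuation (∑ i, η i * aeval c.x (F i)) < 1 → ∀ i, F i ∈ I)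
    (hI : ∀ (F : MvPolynomial (Fin 4) k) (m : ℕ), F.IsHomogeneous m →
        (F ∈ I ↔ aeval ![c.y 0, c.y 1, c.y 2, s * c.a] F = 0))
    (v : Fin 4 → Ω) (hv : ∀ i, v i ∈ acl k ({c.τ} : Set Ω)) (hv3 : v 3 = 1)
    (h : V.valuation (∑ i, v i * c.x i) < 1) : ∀ i, ∃ a : k, algebraMap k Ω a = v i := by
  -- a basis of the span of the coefficients
  set W : Submodule k Ω := Submodule.span k (Set.range v) with hW
  have hfin : Module.Finite k W := Module.Finite.span_of_finite k (Set.finite_range v)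
  let bs := Module.finBasis k W
  have hvW : ∀ i, v i ∈ W := fun i => Submodule.subset_span ⟨i, rfl⟩
  have hWacl : ∀ z ∈ W, z ∈ acl k ({c.τ} : Set Ω) := by
    intro z hz
    have h1 : W ≤ (acl k ({c.τ} : Set Ω)).toSubalgebra.toSubmodule := by
      rw [hW, Submodule.span_le]
      rintro _ ⟨i, rfl⟩
      exact hv i
    exact h1 hz
  let co : Fin 4 → Fin (Module.finrank k W) → k := fun i j => bs.repr ⟨v i, hvW i⟩ j
  have hexp : ∀ i, v i = ∑ j, algebraMap k Ω (co i j) * (bs j : Ω) := by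
    intro i
    have h1 := congrArg (Subtype.val) (bs.sum_repr ⟨v i, hvW i⟩)
    rw [AddSubmonoidClass.coe_finset_sum] at h1
    simp only [Submodule.coe_smul, Algebra.smul_def] at h1
    exact h1.symm
  let F : Fin (Module.finrank k W) → MvPolynomial (Fin 4) k := fun j => ∑ i, C (co i j) * X i
  have hF : ∀ j, aeval c.x (F j) = ∑ i, algebraMap k Ω (co i j) * c.x i := by
    intro j
    simp only [F, map_sum, map_mul, aeval_C, aeval_X]
  have hFI : ∀ j, F j ∈ I := by
    refine hLI _ (fun j => (bs j : Ω)) F (fun j => hWacl _ (bs j).2) ?_ ?_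
    · exact bs.linearIndependent.map' W.subtype (Submodule.ker_subtype W)
    · have hsum : ∑ j, (bs j : Ω) * aeval c.x (F j) = ∑ i, v i * c.x i := by
        simp only [hF, Finset.mul_sum]
        rw [Finset.sum_comm]
        refine Finset.sum_congr rfl fun i _ => ?_
        rw [hexp i, Finset.sum_mul]
        refine Finset.sum_congr rfl fun j _ => ?_
        ring
      rw [hsum]
      exact h
  -- linear functionals vanishing at `1`
  have hφ : ∀ φ : Ω →ₗ[k] k, φ 1 = 0 → ∀ i, φ (v i) = 0 := by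
    intro φ hφ1
    have h1 : (∑ i, C (φ (v i)) * X i : MvPolynomial (Fin 4) k) ∈ I := by
      have h2 : (∑ i, C (φ (v i)) * X i : MvPolynomial (Fin 4) k) =
          ∑ j, C (φ (bs j : Ω)) * F j := by
        simp only [F, Finset.mul_sum]
        rw [Finset.sum_comm]
        refine Finset.sum_congr rfl fun i _ => ?_
        have h3 : φ (v i) = ∑ j, co i j * φ (bs j : Ω) := by
          rw [hexp i, map_sum]
          refine Finset.sum_congr rfl fun j _ => ?_
          rw [← Algebra.smul_def, map_smul, smul_eq_mul]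
        rw [h3, map_sum, Finset.sum_mul]
        refine Finset.sum_congr rfl fun j _ => ?_
        rw [C_mul]
        ring
      rw [h2]
      exact I.sum_mem fun j _ => I.mul_mem_left _ (hFI j)
    have h2 : (∑ i, C (φ (v i)) * X i : MvPolynomial (Fin 4) k).IsHomogeneous 1 :=
      IsHomogeneous.sum _ _ _ fun i _ => (isHomogeneous_X _ i).C_mul _
    have h3 := (hI _ 1 h2).1 h1
    rw [map_sum, Fin.sum_univ_four] at h3
    simp only [map_mul, aeval_C, aeval_X, hv3, hφ1, map_zero, zero_mul, add_zero, Matrix.cons_val] at h3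
    have h4 := c.lin_indep_y ![φ (v 0), φ (v 1), φ (v 2), 0] (by
      rw [Fin.sum_univ_four]
      simp only [Matrix.cons_val, map_zero, zero_mul, add_zero]
      exact h3)
    intro i
    fin_cases i
    · exact congrFun h4 0
    · exact congrFun h4 1
    · exact congrFun h4 2
    · change φ (v 3) = 0
      rw [hv3, hφ1]
  intro i
  by_contra hno
  push Not at hno
  have h1 : v i ∉ Submodule.span k ({1} : Set Ω) := by
    intro h2
    obtain ⟨a, ha⟩ := Submodule.mem_span_singleton.1 h2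
    exact hno a (by rw [← ha, Algebra.smul_def, mul_one])
  obtain ⟨φ, hφ0, hφ1⟩ := Submodule.exists_le_ker_of_notMem h1
  refine hφ0 (hφ φ ?_ i)
  exact hφ1 (Submodule.mem_span_singleton_self 1)

/-- planarity when `s ≠ t` -/
theorem conic_planar (hc : c.Conic) {s : Ω} (h : c.CaseA s) {ρ t : Ω} {C0 : k} (hC : C0 ≠ 0)
    (hρL : ρ ∈ c.L)
    (ht : t ∈ acl k ({c.τ} : Set Ω)) (hρ : ρ ^ c.d = algebraMap k Ω C0 * (c.bb - s * c.a))
    (hg : c.g = ρ * (c.bb / c.a - t)) (hst : s ≠ t) :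
    ∃ n0 n1 n2 : k, s = algebraMap k Ω n0 + algebraMap k Ω n1 * c.τ + algebraMap k Ω n2 * c.τ ^ 2 := by
  have hch : CharZero Ω := charZero_of_injective_algebraMap (algebraMap k Ω).injective
  obtain ⟨I, V, -, hx, hacl, -, hLI, hI, hVg, hVa, hVb⟩ := c.caseA_barg h
  have hg0 : c.g ≠ 0 := by
    intro h0
    rw [h0, map_zero] at hVg
    exact zero_ne_one hVg
  have hρ0 : ρ ≠ 0 := by
    intro h0
    rw [h0, zero_mul] at hg
    exact hg0 hg
  have hk0 := c.planar_mem hc h hC ht hρL hρ hg hst hρ0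
  set s' : Ω := c.Dt s with hs'
  have hs'a : s' ∈ acl k ({c.τ} : Set Ω) := by
    refine der_acl_mem c.Dt (subset_acl _) ?_ s h.smem
    intro w hw
    rw [Set.mem_singleton_iff.1 hw, c.dual.1]
    exact one_mem _
  have hτa : c.τ ∈ acl k ({c.τ} : Set Ω) := subset_acl _ rfl
  have hE0 : ∀ z ∈ acl k ({c.τ} : Set Ω), c.E z = 0 :=
    der_acl_zero c.E (fun w hw => by rw [Set.mem_singleton_iff.1 hw]; exact c.Eτ)
  set k0 : Ω := (c.x 3 - s * c.x 0) + s' * (c.τ * c.x 0 - c.x 1) with hk0d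
  have hEk0 : c.E k0 = k0 := by
    rw [hk0d, map_add, map_sub, Derivation.leibniz, Derivation.leibniz, map_sub, Derivation.leibniz,
      hE0 s h.smem, hE0 s' hs'a, hE0 c.τ hτa, c.Ex, c.Ex, c.Ex]
    simp only [smul_eq_mul, mul_zero, add_zero]
  have hEg : c.E c.g = c.g := c.toDCtx.Eg
  have hgL : c.g ∈ c.L := c.toDCtx.g_mem
  have hV1 : ∀ z ∈ acl k ({c.τ} : Set Ω), V.valuation z ≤ 1 := fun z hz =>
    (V.valuation_le_one_iff z).2 (hacl z hz)
  have hk0V : k0 ∈ V :=
    add_mem (sub_mem (hx 3) (mul_mem (hacl _ h.smem) (hx 0)))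
      (mul_mem (hacl _ hs'a) (sub_mem (mul_mem (hacl _ hτa) (hx 0)) (hx 1)))
  -- the quotient
  have hz : k0 / c.g ∈ acl k ({c.τ, c.bb / c.a} : Set Ω) := by
    refine c.deg_zero (div_mem hk0 hgL) ?_
    rw [Derivation.leibniz_div, hEk0, hEg]
    simp only [smul_eq_mul]
    rw [mul_comm c.g k0, sub_self, mul_zero]
  have hzV : k0 / c.g ∈ V := by
    rw [← V.valuation_le_one_iff, map_div₀, hVg, div_one, V.valuation_le_one_iff]
    exact hk0V
  have hσ : c.bb / c.a ∉ V := by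
    intro hσ
    have h1 : V.valuation (ρ ^ c.d) < 1 := by
      rw [hρ, map_mul]
      have h2 : V.valuation (algebraMap k Ω C0) ≤ 1 :=
        hV1 _ ((acl k ({c.τ} : Set Ω)).algebraMap_mem C0)
      have h3 : V.valuation (c.bb - s * c.a) < 1 := by
        refine Valuation.map_sub_lt _ hVb ?_
        rw [map_mul]
        exact lt_of_le_of_lt (mul_le_mul_left (hV1 s h.smem) _) (by rw [one_mul]; exact hVa)
      exact lt_of_le_of_lt (mul_le_mul_left h2 _) (by rw [one_mul]; exact h3)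
    have h4 : V.valuation ρ < 1 := by
      rw [map_pow] at h1
      by_contra hno
      rw [not_lt] at hno
      exact absurd h1 (not_lt.2 (one_le_pow₀ hno))
    have h5 : V.valuation (c.bb / c.a - t) ≤ 1 :=
      (V.valuation_le_one_iff _).2 (sub_mem hσ (hacl t ht))
    have h6 : V.valuation c.g < 1 := by
      rw [hg, map_mul]
      exact lt_of_le_of_lt (mul_le_mul_right h5 _) (by rw [mul_one]; exact h4)
    exact absurd hVg (ne_of_lt h6)
  have hpair : ({c.τ, c.bb / c.a} : Set Ω) = insert (c.bb / c.a) {c.τ} := Set.pair_comm _ _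
  rw [hpair] at hz
  obtain ⟨e', he', hev⟩ := exists_residue V hacl
    ⟨c.bb / c.a, subset_acl _ (Set.mem_insert _ _), hσ⟩ hz hzV
  have hlin : V.valuation (k0 - e' * c.g) < 1 := by
    have h1 : k0 - e' * c.g = (k0 / c.g - e') * c.g := by field_simp
    rw [h1, map_mul, hVg, mul_one]
    exact hev
  have hgx : c.g = c.τ ^ 2 / 2 * c.x 0 - c.τ * c.x 1 + c.x 2 := by
    unfold DCtx.g
    rw [hc.U, Fin.sum_univ_four]
    simp only [Matrix.cons_val]
    ring
  have h2a : (2 : Ω) ∈ acl k ({c.τ} : Set Ω) := by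
    have := natCast_mem (acl k ({c.τ} : Set Ω)) 2
    simpa using this
  have hk := c.lin_over_k (s := s) I V hLI hI
    ![- s + s' * c.τ - e' * (c.τ ^ 2 / 2), - s' + e' * c.τ, - e', 1] (by
      intro i
      fin_cases i
      · exact sub_mem (add_mem (neg_mem h.smem) (mul_mem hs'a hτa))
          (mul_mem he' (div_mem (pow_mem hτa 2) h2a))
      · exact add_mem (neg_mem hs'a) (mul_mem he' hτa)
      · exact neg_mem he'
      · exact one_mem _) rfl (by
      convert hlin using 2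
      rw [Fin.sum_univ_four, hgx]
      simp only [Matrix.cons_val]
      rw [hk0d]
      ring)
  obtain ⟨a0, ha0⟩ := hk 0
  obtain ⟨a1, ha1⟩ := hk 1
  obtain ⟨a2, ha2⟩ := hk 2
  simp only [Matrix.cons_val] at ha0 ha1 ha2
  refine ⟨-a0, -a1, -a2 / 2, ?_⟩
  rw [map_neg, map_neg, map_div₀, map_neg, map_ofNat, ha0, ha1, ha2]
  ring

end FCtx
end Pool.Agent.HDP
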