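import Mathlib
import Pool.Agent.Lib.MP_20906e_al.Defs
import Pool.Agent.Lib.MP_20906e_al.Ctx
import Pool.Agent.Lib.MP_20906e_al.CtxN
import Pool.Agent.Lib.MP_20906e_al.DCtx
import Pool.Agent.Lib.MP_20906e_al.Cone
import Pool.Agent.Lib.MP_20906e_al.E7b2a
import Pool.Agent.Lib.MP_20906e_al.E7b3

/-!
# MP_20906e_al, piece E7b2: case A in the conic frame, linearity (helper54)

`conic_rational` is in `E7b2a`; here: `ρ` is a linear form in `x`.
-/

namespace Pool.Agent.HDP
open MvPolynomial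

variable {k Ω : Type*} [Field k] [IsAlgClosed k] [CharZero k] [Field Ω] [IsAlgClosed Ω] [Algebra k Ω]

namespace FCtx
variable (c : FCtx k Ω)

/-- `ρ` is a linear form -/
theorem conic_linear (hc : c.Conic) {s : Ω} (h : c.CaseA s) {ρ t : Ω} {C0 : k} (hC : C0 ≠ 0)
    (hρL : ρ ∈ c.L)
    (ht : t ∈ acl k ({c.τ} : Set Ω)) (hρ : ρ ^ c.d = algebraMap k Ω C0 * (c.bb - s * c.a))
    (hg : c.g = ρ * (c.bb / c.a - t)) :
    ∃ l : Fin 4 → k, ρ = ∑ i, algebraMap k Ω (l i) * c.x i := by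
  obtain ⟨-, hρK⟩ := c.conic_rational hc h hC ht hρ hg
  have hchar : CharZero Ω := charZero_of_injective_algebraMap (algebraMap k Ω).injective
  have hd : c.d ≠ 0 := by have := c.hd; omega
  have ha0 : c.a ≠ 0 := c.a0
  have hC' : algebraMap k Ω C0 ≠ 0 := by
    rw [Ne, map_eq_zero]
    exact hC
  have hρ0 : ρ ≠ 0 := by
    rintro rfl
    rw [zero_pow hd] at hρ
    apply c.e7b2_sg
    have h1 := (mul_eq_zero.1 hρ.symm).resolve_left hC'
    rw [sub_eq_zero] at h1
    rw [h1, mul_div_cancel_right₀ _ ha0]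
    exact h.smem
  by_cases hst : s = t
  · subst hst
    have hga : c.g * c.a = ρ * (c.bb - s * c.a) := by
      rw [hg]
      field_simp
    refine lin_of_pow_form c.tb.1 hρK hρ0 (Nat.succ_ne_zero c.d)
      (F := C C0 * (c.H 2 * X 0 - c.H 1 * X 1 + c.H 0 * X 2)) ?_ ?_
    · have h1 := (isHomogeneous_C (Fin 4) C0).mul
        (((((c.nil.hom 2).mul (isHomogeneous_X k 0)).sub
          ((c.nil.hom 1).mul (isHomogeneous_X k 1)))).add
            ((c.nil.hom 0).mul (isHomogeneous_X k 2)))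
      rwa [zero_add] at h1
    · rw [pow_succ, hρ, map_mul, map_add, map_sub, map_mul, map_mul, map_mul, aeval_C, aeval_X,
        aeval_X, aeval_X, ← c.hy, ← c.hy, ← c.hy, hc.y1, hc.y2]
      have h2 : c.g = c.τ ^ 2 / 2 * c.x 0 - c.τ * c.x 1 + c.x 2 := by
        rw [DCtx.g, hc.U, Fin.sum_univ_four]
        simp
        ring
      rw [h2] at hga
      rw [← hc.a]
      linear_combination (- algebraMap k Ω C0) * hga
  · obtain ⟨n0, n1, n2, hs⟩ := c.conic_planar hc h hC hρL ht hρ hg hst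
    refine lin_of_pow_form c.tb.1 hρK hρ0 hd
      (F := C C0 * (c.H 3 - C n0 * c.H 0 - C n1 * c.H 1 - C (2 * n2) * c.H 2)) ?_ ?_
    · have h0 : ∀ (m : k) (i : Fin 4), (C m * c.H i).IsHomogeneous c.d := fun m i => by
        have := (isHomogeneous_C (Fin 4) m).mul (c.nil.hom i)
        rwa [zero_add] at this
      have h1 := (isHomogeneous_C (Fin 4) C0).mul
        ((((c.nil.hom 3).sub (h0 n0 0)).sub (h0 n1 1)).sub (h0 (2 * n2) 2))
      rwa [zero_add] at h1
    · rw [hρ, hs, map_mul, map_sub, map_sub, map_sub, map_mul, map_mul, map_mul, aeval_C, aeval_C,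
        aeval_C, aeval_C, ← c.hy, ← c.hy, ← c.hy, ← c.hy, hc.y1, hc.y2, ← hc.bb, ← hc.a, map_mul,
        map_ofNat]
      ring

end FCtx
end Pool.Agent.HDP
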