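import Mathlib
import Pool.Agent.Lib.MP_20906e_al.Defs
import Pool.Agent.Lib.MP_20906e_al.Ctx
import Pool.Agent.Lib.MP_20906e_al.DCtx
import Pool.Agent.Lib.MP_20906e_al.Cone
import Pool.Agent.Lib.MP_20906e_al.Setup
import Pool.Agent.Lib.MP_20906e_al.B2a
import Pool.Agent.Lib.MP_20906e_al.B3
import Pool.Agent.Lib.MP_20906e_al.E1b
import Pool.Agent.Lib.MP_20906e_al.E4
import Pool.Agent.Lib.MP_20906e_al.E7a
import Pool.Agent.Lib.MP_20906e_al.E7b1
import Pool.Agent.Lib.MP_20906e_al.E7b2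

/-!
# MP_20906e_al, piece E7b4: case A is impossible (assembly)
-/

namespace Pool.Agent.HDP
open MvPolynomial

variable {k Ω : Type*} [Field k] [IsAlgClosed k] [CharZero k] [Field Ω] [IsAlgClosed Ω] [Algebra k Ω]

namespace FCtx
variable (c : FCtx k Ω)

theorem conic_false (hc : c.Conic) {s : Ω} (h : c.CaseA s) : False := by
  obtain ⟨ρ, t, C0, hC, hρL, ht, hρ, hg⟩ := c.conic_shape hc h
  obtain ⟨l, hl⟩ := c.conic_linear hc h hC hρL ht hρ hg
  have hρ0 : ρ ≠ 0 := by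
    rintro rfl
    exact c.toDCtx.g_ne (by rw [hg, zero_mul])
  have hl0 : l ≠ 0 := by
    rintro rfl
    exact hρ0 (by rw [hl]; simp)
  obtain ⟨V, hV, hi⟩ := c.toCtx3.exists_infinite
  obtain ⟨b, i0, hb⟩ := c.toCtx3.exists_dir V hV hi
  have haev : ∀ z : Fin 4 → Ω, aeval z (∑ i, C (l i) * X i : MvPolynomial (Fin 4) k) =
      ∑ i, algebraMap k Ω (l i) * z i := by
    intro z
    simp [map_sum, map_mul, aeval_X]
  have hhom : (∑ i, C (l i) * X i : MvPolynomial (Fin 4) k).IsHomogeneous 1 := by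
    apply IsHomogeneous.sum
    intro i _
    have := (isHomogeneous_C (Fin 4) (l i)).mul (isHomogeneous_X k i)
    simpa using this
  have hb0 : ∑ i, algebraMap k Ω (l i) * b i = 0 := by
    rw [← haev]
    exact c.toCtx3.form_dir hb one_ne_zero hhom (by rw [haev, ← hl]; exact hρL)
  obtain ⟨e, he, e0, e1, e2, e3⟩ := h.dirs V b i0 hb
  have ha0 : c.a ≠ 0 := c.a0
  have hy0 : c.y 0 ≠ 0 := by rw [← hc.a]; exact ha0
  rw [Fin.sum_univ_four, e0, e1, e2, e3, hc.a, hc.y1, hc.y2] at hb0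
  have key : ∑ i, algebraMap k Ω (l i) * c.y i = algebraMap k Ω (l 3) * (c.bb - s * c.a) := by
    rw [Fin.sum_univ_four, hc.y1, hc.y2, hc.bb, hc.a]
    have h1 : e * (algebraMap k Ω (l 0) + algebraMap k Ω (l 1) * c.τ +
        algebraMap k Ω (l 2) * (c.τ ^ 2 / 2) + algebraMap k Ω (l 3) * s) = 0 := by
      rw [← hb0]
      field_simp
    have h2 := (mul_eq_zero.1 h1).resolve_left he
    linear_combination c.y 0 * h2
  have hl3 : l 3 ≠ 0 := by
    intro h3
    rw [h3, map_zero, zero_mul] at key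
    exact hl0 (c.toCtx3.lin_indep_y l key)
  have hCΩ : algebraMap k Ω C0 ≠ 0 := by
    rw [Ne, map_eq_zero]
    exact hC
  have hpoly : ∑ i, C (l i) * c.H i = C (l 3 / C0) * (∑ i, C (l i) * X i) ^ c.d := by
    apply c.tb.1
    rw [map_mul, map_pow, haev, ← hl, hρ, aeval_C, map_div₀, map_sum]
    have h4 : ∀ i, aeval c.x (C (l i) * c.H i) = algebraMap k Ω (l i) * c.y i := by
      intro i
      rw [map_mul, aeval_C, c.hy]
    rw [Finset.sum_congr rfl fun i _ => h4 i, key]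
    field_simp
  exact no_power_lf (by have := c.hd; omega) c.nil hl0 (div_ne_zero hl3 hC) hpoly

/-- case A is impossible -/
theorem caseA_false {s : Ω} (h : c.CaseA s) : False := by
  obtain ⟨q, hq0, hq⟩ := c.caseA_conic h
  obtain ⟨c', h1, h2⟩ := c.conic_normal h q hq0 hq
  obtain ⟨c'', rfl, h3⟩ := exists_conic c' h1
  have hcone : c''.Cone := by
    refine ⟨?_, h3.B, h3.q, ?_⟩
    · rw [h3.U]; rfl
    · rw [h3.p]; rfl
  rcases c''.cone_cases hcone with ⟨s', hs'⟩ | hB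
  · exact c''.conic_false h3 hs'
  · obtain ⟨V, hV, hi⟩ := c''.toCtx3.exists_infinite
    obtain ⟨b, i0, hb⟩ := c''.toCtx3.exists_dir V hV hi
    exact h2 V b i0 hb (hB.dirs V b i0 hb)

end FCtx
end Pool.Agent.HDP
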