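import Mathlib
import Pool.Agent.Lib.MP_20906e_al.B2b

/-!
# MP_20906e_al, piece E8a : the t-expansion lemma (helper69)
-/

namespace Pool.Agent.HDP
open MvPolynomial

namespace TE

variable {k : Type*} [Field k]

/-- splitting off the last variable -/
noncomputable def spl : MvPolynomial (Fin 4) k →ₐ[k] Polynomial (MvPolynomial (Fin 3) k) :=
  aeval ![Polynomial.C (X 0), Polynomial.C (X 1), Polynomial.C (X 2), Polynomial.X]

theorem eval₂_spl {A : Type*} [CommRing A] [Algebra k A] (x : Fin 4 → A)
    (F : MvPolynomial (Fin 4) k) :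
    Polynomial.eval₂ (aeval (fun i : Fin 3 => x i.castSucc) :
      MvPolynomial (Fin 3) k →ₐ[k] A).toRingHom (x 3) (spl F) = aeval x F := by
  induction F using MvPolynomial.induction_on with
  | C a =>
    have h : spl (C a : MvPolynomial (Fin 4) k) = Polynomial.C (C a) := by
      rw [spl, aeval_C]; rfl
    rw [h, Polynomial.eval₂_C, aeval_C]
    exact aeval_C _ a
  | add p q hp hq => rw [map_add, map_add, Polynomial.eval₂_add, hp, hq]
  | mul_X p i hp =>
    rw [map_mul, map_mul, Polynomial.eval₂_mul, hp, aeval_X]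
    congr 1
    rw [spl, aeval_X]
    fin_cases i
    · exact (Polynomial.eval₂_C _ _).trans (aeval_X _ 0)
    · exact (Polynomial.eval₂_C _ _).trans (aeval_X _ 1)
    · exact (Polynomial.eval₂_C _ _).trans (aeval_X _ 2)
    · exact Polynomial.eval₂_X _ _

theorem spl_monomial (s : Fin 4 →₀ ℕ) (a : k) :
    spl (monomial s a) = Polynomial.monomial (s 3) (C a * (X 0 ^ s 0 * X 1 ^ s 1 * X 2 ^ s 2)) := by
  rw [spl, aeval_monomial, Finsupp.prod_fintype _ _ (by simp), Fin.prod_univ_four,
    ← Polynomial.C_mul_X_pow_eq_monomial]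
  simp only [Matrix.cons_val_zero, Matrix.cons_val_one, Matrix.cons_val, Polynomial.C_mul,
    Polynomial.C_pow]
  have h : (algebraMap k (Polynomial (MvPolynomial (Fin 3) k))) a = Polynomial.C (C a) := rfl
  rw [h]
  ring

theorem spl_coeff_hom {F : MvPolynomial (Fin 4) k} {e : ℕ} (hF : F.IsHomogeneous e) (j m : ℕ)
    (hjm : j + m = e) : ((spl F).coeff j).IsHomogeneous m := by
  rw [F.as_sum, map_sum, Polynomial.finsetSum_coeff]
  apply IsHomogeneous.sum
  intro s hs
  rw [spl_monomial, Polynomial.coeff_monomial]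
  split_ifs with h
  · have h1 : s 0 + s 1 + s 2 + s 3 = e := by
      have := hF (mem_support_iff.1 hs)
      rw [← this, Finsupp.weight_apply, Finsupp.sum_fintype _ _ (by simp), Fin.sum_univ_four]
      simp
    have h2 : m = 0 + (s 0 + s 1 + s 2) := by omega
    rw [h2]
    refine (isHomogeneous_C _ _).mul (((?_ : IsHomogeneous _ _).mul ?_).mul ?_)
    · simpa using (isHomogeneous_X k (0 : Fin 3)).pow (s 0)
    · simpa using (isHomogeneous_X k (1 : Fin 3)).pow (s 1)
    · simpa using (isHomogeneous_X k (2 : Fin 3)).pow (s 2)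
  · exact isHomogeneous_zero _ _ _

theorem spl_coeff_zero {F : MvPolynomial (Fin 4) k} {e : ℕ} (hF : F.IsHomogeneous e) (j : ℕ)
    (hj : e < j) : (spl F).coeff j = 0 := by
  rw [F.as_sum, map_sum, Polynomial.finsetSum_coeff]
  apply Finset.sum_eq_zero
  intro s hs
  rw [spl_monomial, Polynomial.coeff_monomial, if_neg]
  have h1 : s 0 + s 1 + s 2 + s 3 = e := by
    have := hF (mem_support_iff.1 hs)
    rw [← this, Finsupp.weight_apply, Finsupp.sum_fintype _ _ (by simp), Fin.sum_univ_four]
    simp
  omega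

/-- if only the coefficient `0` of `spl F` is nonzero, `F` is the renamed coefficient -/
theorem eq_rename_of_spl {F : MvPolynomial (Fin 4) k} (h : ∀ j, j ≠ 0 → (spl F).coeff j = 0) :
    F = rename Fin.castSucc ((spl F).coeff 0) := by
  have h1 := eval₂_spl (X : Fin 4 → MvPolynomial (Fin 4) k) F
  have h2 : spl F = Polynomial.C ((spl F).coeff 0) := by
    ext1 j
    rw [Polynomial.coeff_C]
    split_ifs with hj
    · rw [hj]
    · exact h j hj
  rw [aeval_X_left_apply] at h1
  have h3 : rename Fin.castSucc ((spl F).coeff 0)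
      = (aeval (fun i : Fin 3 => (X i.castSucc : MvPolynomial (Fin 4) k)) :
        MvPolynomial (Fin 3) k →ₐ[k] MvPolynomial (Fin 4) k) ((spl F).coeff 0) := by
    rw [← aeval_X_left_apply (rename Fin.castSucc ((spl F).coeff 0)), aeval_rename]
    rfl
  rw [h3]
  rw [h2, Polynomial.eval₂_C] at h1
  exact h1.symm

/-! ### `G (z + t q)` -/

section Line
variable {F : Type*} [Field F] [Algebra k F] (z q : Fin 3 → F)

/-- the line -/
noncomputable def ln : Fin 3 → Polynomial F := fun i => Polynomial.C (z i) + Polynomial.C (q i) * Polynomial.X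

theorem ln_natDegree (i : Fin 3) : (ln z q i).natDegree ≤ 1 := by
  rw [ln]
  compute_degree

theorem ln_coeff (i : Fin 3) : (ln z q i).coeff 1 = q i := by
  rw [ln]
  simp [Polynomial.coeff_C]

theorem aeval_ln_monomial (s : Fin 3 →₀ ℕ) (a : k) :
    (aeval (ln z q) (monomial s a)).natDegree ≤ s.degree ∧
    (aeval (ln z q) (monomial s a)).coeff s.degree = aeval q (monomial s a) := by
  have hs : s.degree = s 0 + s 1 + s 2 := by
    rw [Finsupp.degree_eq_sum, Fin.sum_univ_three]
  have h0 : ∀ i, (ln z q i ^ s i).natDegree ≤ s i := by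
    intro i
    have := Polynomial.natDegree_pow_le_of_le (s i) (ln_natDegree z q i)
    simpa using this
  have h0' : ∀ i, (ln z q i ^ s i).coeff (s i) = q i ^ s i := by
    intro i
    have := Polynomial.coeff_pow_of_natDegree_le (m := s i) (ln_natDegree z q i)
    rw [mul_one, ln_coeff] at this
    exact this
  have h1 : (ln z q 0 ^ s 0 * ln z q 1 ^ s 1).natDegree ≤ s 0 + s 1 :=
    Polynomial.natDegree_mul_le_of_le (h0 0) (h0 1)
  have h2 : (ln z q 0 ^ s 0 * ln z q 1 ^ s 1 * ln z q 2 ^ s 2).natDegree ≤ s 0 + s 1 + s 2 :=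
    Polynomial.natDegree_mul_le_of_le h1 (h0 2)
  have h3 : (ln z q 0 ^ s 0 * ln z q 1 ^ s 1 * ln z q 2 ^ s 2).coeff (s 0 + s 1 + s 2)
      = q 0 ^ s 0 * q 1 ^ s 1 * q 2 ^ s 2 := by
    rw [Polynomial.coeff_mul_add_eq_of_natDegree_le h1 (h0 2),
      Polynomial.coeff_mul_add_eq_of_natDegree_le (h0 0) (h0 1), h0', h0', h0']
  rw [aeval_monomial, aeval_monomial, Finsupp.prod_fintype _ _ (by simp),
    Finsupp.prod_fintype _ _ (by simp), Fin.prod_univ_three, Fin.prod_univ_three, hs]
  have h4 : (algebraMap k (Polynomial F)) a = Polynomial.C (algebraMap k F a) := rfl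
  rw [h4]
  refine ⟨(Polynomial.natDegree_C_mul_le _ _).trans h2, ?_⟩
  rw [Polynomial.coeff_C_mul, h3]

theorem aeval_ln {G : MvPolynomial (Fin 3) k} {m : ℕ} (hG : G.IsHomogeneous m) :
    (aeval (ln z q) G).natDegree ≤ m ∧ (aeval (ln z q) G).coeff m = aeval q G := by
  have hd : ∀ s ∈ G.support, s.degree = m := by
    intro s hs
    have h := hG (mem_support_iff.1 hs)
    rw [← h]
    exact (DFunLike.congr_fun (Finsupp.degree_eq_weight_one (R := ℕ) (σ := Fin 3)) s)
  constructor
  · rw [G.as_sum, map_sum]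
    apply Polynomial.natDegree_sum_le_of_forall_le
    intro s hs
    rw [← hd s hs]
    exact (aeval_ln_monomial z q s _).1
  · conv_lhs => rw [G.as_sum]
    conv_rhs => rw [G.as_sum]
    rw [map_sum, map_sum, Polynomial.finsetSum_coeff]
    apply Finset.sum_congr rfl
    intro s hs
    rw [← hd s hs]
    exact (aeval_ln_monomial z q s _).2

theorem derivative_aeval_ln (G : MvPolynomial (Fin 3) k) :
    Polynomial.derivative (aeval (ln z q) G)
      = ∑ i, Polynomial.C (q i) * aeval (ln z q) (pderiv i G) := by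
  induction G using MvPolynomial.induction_on with
  | C a =>
    rw [aeval_C]
    have h4 : (algebraMap k (Polynomial F)) a = Polynomial.C (algebraMap k F a) := rfl
    simp [h4]
  | add p q' hp hq => simp only [map_add, hp, hq, mul_add, Finset.sum_add_distrib]
  | mul_X p j hp =>
    rw [map_mul, Polynomial.derivative_mul, hp, aeval_X]
    have h5 : Polynomial.derivative (ln z q j) = Polynomial.C (q j) := by
      rw [ln]; simp
    rw [h5]
    have h6 : ∀ i, Polynomial.C (q i) * aeval (ln z q) (pderiv i (p * X j))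
        = (if i = j then Polynomial.C (q i) * aeval (ln z q) p else 0)
          + Polynomial.C (q i) * aeval (ln z q) (pderiv i p) * ln z q j := by
      intro i
      rw [Derivation.leibniz, smul_eq_mul, smul_eq_mul, map_add, map_mul, map_mul, aeval_X]
      by_cases hx : i = j
      · subst hx
        rw [pderiv_X_self, map_one, if_pos rfl]
        ring
      · rw [pderiv_X_of_ne (Ne.symm hx), map_zero, if_neg hx]
        ring
    rw [Finset.sum_congr rfl (fun i _ => h6 i), Finset.sum_add_distrib,
      Finset.sum_ite_eq' Finset.univ j, if_pos (Finset.mem_univ j), Finset.sum_mul, add_comm]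
    congr 1
    ring

theorem aeval_ln_coeff_pred [CharZero k] {G : MvPolynomial (Fin 3) k} {m : ℕ} (hG : G.IsHomogeneous (m + 1)) :
    (aeval (ln z q) G).coeff m = ∑ i, z i * aeval q (pderiv i G) := by
  have h1 := congrArg (aeval (ln z q)) hG.sum_X_mul_pderiv
  rw [map_sum] at h1
  have h2 : ∀ i, (pderiv i G).IsHomogeneous m := fun i => by
    simpa using hG.pderiv (i := i)
  have h3 : ∑ i, aeval (ln z q) (X i * pderiv i G)
      = ∑ i, Polynomial.C (z i) * aeval (ln z q) (pderiv i G)
        + Polynomial.X * Polynomial.derivative (aeval (ln z q) G) := by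
    rw [derivative_aeval_ln, Finset.mul_sum, ← Finset.sum_add_distrib]
    apply Finset.sum_congr rfl
    intro i _
    rw [map_mul, aeval_X, ln]
    ring
  rw [h3] at h1
  have h4 := congrArg (fun p => Polynomial.coeff p m) h1
  simp only [Polynomial.coeff_add, Polynomial.finsetSum_coeff, Polynomial.coeff_C_mul] at h4
  have h5 : ∀ i, (aeval (ln z q) (pderiv i G)).coeff m = aeval q (pderiv i G) :=
    fun i => (aeval_ln z q (h2 i)).2
  simp_rw [h5] at h4
  have h6 : (Polynomial.X * Polynomial.derivative (aeval (ln z q) G)).coeff m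
      = (aeval (ln z q) G).coeff m * m := by
    rcases m with _ | m
    · simp
    · rw [Polynomial.coeff_X_mul, Polynomial.coeff_derivative]
      push_cast
      ring
  have h7 : (aeval (ln z q) ((m + 1) • G)).coeff m = (aeval (ln z q) G).coeff m * (m + 1) := by
    rw [map_nsmul, Polynomial.coeff_smul, nsmul_eq_mul]
    push_cast
    ring
  rw [h6, h7] at h4
  linear_combination -h4

end Line

section Key
variable {F : Type*} [Field F] [Algebra k F] [CharZero k]

omit [CharZero k] in
theorem aeval_mem (M : IntermediateField k F) {q : Fin 3 → F} (hq : ∀ i, q i ∈ M)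
    (G : MvPolynomial (Fin 3) k) : aeval q G ∈ M := by
  induction G using MvPolynomial.induction_on with
  | C a => rw [aeval_C]; exact M.algebraMap_mem a
  | add p q' hp hq' => rw [map_add]; exact M.add_mem hp hq'
  | mul_X p j hp => rw [map_mul, aeval_X]; exact M.mul_mem hp (hq j)

theorem key (M : IntermediateField k F) (hM : ∀ z : F, IsAlgebraic M z → z ∈ M)
    {q : Fin 3 → F} (hq : ∀ i, q i ∈ M) {f : MvPolynomial (Fin 3) k} {δ : ℕ}
    (hfh : f.IsHomogeneous δ) (hfi : Irreducible f) (hf0 : aeval q f = 0)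
    (hfmin : ∀ (G : MvPolynomial (Fin 3) k) (m : ℕ), G.IsHomogeneous m → aeval q G = 0 → f ∣ G)
    {z : Fin 3 → F} {w : Polynomial F} (hw : w.natDegree ≤ 2) (hom : w.coeff 2 ≠ 0)
    (hZ : ∑ i, z i * aeval q (pderiv i f) ≠ 0)
    (hZM : (∑ i, z i * aeval q (pderiv i f)) * w.coeff 2 ∉ M)
    {P : MvPolynomial (Fin 4) k} {e : ℕ} (he : e ≠ 0) (hP : P.IsHomogeneous e)
    {xx : Fin 4 → Polynomial F} (hx : ∀ i : Fin 3, xx i.castSucc = ln z q i) (hx3 : xx 3 = w)
    (hPc : ∃ r : F, aeval xx P = Polynomial.C r) : rename Fin.castSucc f ∣ P := by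
  classical
  obtain ⟨r, hr⟩ := hPc
  -- `δ ≠ 0`
  have hδ : δ ≠ 0 := by
    rintro rfl
    have h1 : f.totalDegree = 0 := Nat.le_zero.1 hfh.totalDegree_le
    rw [totalDegree_eq_zero_iff_eq_C] at h1
    rw [h1, aeval_C] at hf0
    have h2 : coeff 0 f = 0 := (map_eq_zero (algebraMap k F)).1 hf0
    rw [h2, C_0] at h1
    exact hfi.ne_zero h1
  obtain ⟨δ, rfl⟩ := Nat.exists_eq_succ_of_ne_zero hδ
  clear hδ
  set om : F := w.coeff 2 with hom_def
  set Z : F := ∑ i, z i * aeval q (pderiv i f) with hZ_def
  set u : Polynomial F := aeval (ln z q) f with hu_def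
  have hu1 : u.natDegree ≤ δ := by
    rw [Polynomial.natDegree_le_iff_coeff_eq_zero]
    intro N hN
    rcases Nat.lt_or_ge (δ + 1) N with h | h
    · exact Polynomial.coeff_eq_zero_of_natDegree_lt ((aeval_ln z q hfh).1.trans_lt h)
    · have : N = δ + 1 := by omega
      rw [this]
      exact (aeval_ln z q hfh).2.trans hf0
  have hu2 : u.coeff δ = Z := aeval_ln_coeff_pred z q hfh
  -- decomposition of the coefficients
  have hdec : ∀ j ∈ (spl P).support, ∃ (v m : ℕ) (G : MvPolynomial (Fin 3) k),
      (spl P).coeff j = f ^ v * G ∧ G.IsHomogeneous m ∧ aeval q G ≠ 0 ∧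
      v * (δ + 1) + m + j = e := by
    intro j hj
    have hj0 : (spl P).coeff j ≠ 0 := Polynomial.mem_support_iff.1 hj
    have hje : j ≤ e := by
      by_contra hlt
      exact hj0 (spl_coeff_zero hP j (by omega))
    have hhom : ((spl P).coeff j).IsHomogeneous (e - j) := spl_coeff_hom hP j (e - j) (by omega)
    obtain ⟨G, hG1, hG2⟩ := (FiniteMultiplicity.of_not_isUnit hfi.not_isUnit
      hj0).exists_eq_pow_mul_and_not_dvd
    set v := multiplicity f ((spl P).coeff j)
    rw [hG1] at hhom
    have hne : f ^ v * G ≠ 0 := by rw [← hG1]; exact hj0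
    obtain ⟨a, b, hab, ha, hb⟩ := hom_of_mul hhom hne
    have ha' : (f ^ v).IsHomogeneous ((δ + 1) * v) := hfh.pow v
    have hav : a = (δ + 1) * v := ha.inj_right ha' (left_ne_zero_of_mul hne)
    refine ⟨v, b, G, hG1, hb, ?_, ?_⟩
    · intro h0
      exact hG2 (hfmin G b hb h0)
    · rw [hav] at hab
      have : v * (δ + 1) = (δ + 1) * v := mul_comm _ _
      omega
  choose! v m G hG1 hG2 hG3 hG4 using hdec
  set S := (spl P).support with hS
  set T : ℕ → Polynomial F := fun j => u ^ (v j) * aeval (ln z q) (G j) * w ^ j with hT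
  set n : ℕ → ℕ := fun j => v j * δ + m j + j * 2 with hn
  have hnv : ∀ j ∈ S, n j + v j = e + j := by
    intro j hj
    have h := hG4 j hj
    have h' : v j * (δ + 1) = v j * δ + v j := by ring
    simp only [hn]
    omega
  have hT0 : ∀ j ∈ S, (T j).natDegree ≤ n j ∧
      (T j).coeff (n j) = Z ^ v j * aeval q (G j) * om ^ j := by
    intro j hj
    have a1 : (u ^ (v j)).natDegree ≤ v j * δ := Polynomial.natDegree_pow_le_of_le _ hu1
    have a1' : (u ^ (v j)).coeff (v j * δ) = Z ^ v j := by
      rw [Polynomial.coeff_pow_of_natDegree_le hu1, hu2]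
    obtain ⟨a2, a2'⟩ := aeval_ln z q (hG2 j hj)
    have a3 : (w ^ j).natDegree ≤ j * 2 := Polynomial.natDegree_pow_le_of_le _ hw
    have a3' : (w ^ j).coeff (j * 2) = om ^ j := Polynomial.coeff_pow_of_natDegree_le hw
    have a4 : (u ^ (v j) * aeval (ln z q) (G j)).natDegree ≤ v j * δ + m j :=
      Polynomial.natDegree_mul_le_of_le a1 a2
    refine ⟨Polynomial.natDegree_mul_le_of_le a4 a3, ?_⟩
    simp only [hT, hn]
    rw [Polynomial.coeff_mul_add_eq_of_natDegree_le a4 a3,
      Polynomial.coeff_mul_add_eq_of_natDegree_le a1 a2, a1', a2', a3']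
  have hsum : aeval xx P = ∑ j ∈ S, T j := by
    rw [← eval₂_spl xx P, Polynomial.eval₂_eq_sum, Polynomial.sum_def]
    apply Finset.sum_congr rfl
    intro j hj
    have h1 : (fun i : Fin 3 => xx i.castSucc) = ln z q := funext hx
    rw [h1, hx3, hG1 j hj]
    simp only [hT]
    congr 1
    change aeval (ln z q) (f ^ v j * G j) = _
    rw [map_mul, map_pow]
  by_cases hall : ∀ j ∈ S, n j = 0
  · -- all degrees zero
    have hj0 : ∀ j ∈ S, j = 0 ∧ v j ≠ 0 := by
      intro j hj
      have h1 := hall j hj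
      have h2 := hG4 j hj
      have h3 := hnv j hj
      simp only [hn] at h1
      refine ⟨by omega, ?_⟩
      intro hv
      rw [hv] at h2 h3
      omega
    have h1 : P = rename Fin.castSucc ((spl P).coeff 0) := by
      apply eq_rename_of_spl
      intro j hj
      by_contra hne
      exact hj (hj0 j (Polynomial.mem_support_iff.2 hne)).1
    have h2 : f ∣ (spl P).coeff 0 := by
      by_cases h3 : (spl P).coeff 0 = 0
      · rw [h3]; exact dvd_zero _
      · have h4 : 0 ∈ S := Polynomial.mem_support_iff.2 h3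
        rw [hG1 0 h4]
        exact (dvd_pow_self f (hj0 0 h4).2).mul_right _
    rw [h1]
    exact map_dvd (rename Fin.castSucc) h2
  · exfalso
    push Not at hall
    obtain ⟨j1, hj1, hj1'⟩ := hall
    obtain ⟨j0, hj0, hmax⟩ := Finset.exists_max_image S n ⟨j1, hj1⟩
    set N := n j0 with hN
    have hN0 : N ≠ 0 := by
      have := hmax j1 hj1
      omega
    have hc : ∑ j ∈ S.filter (fun j => n j = N), Z ^ v j * aeval q (G j) * om ^ j = 0 := by
      have h1 : (aeval xx P).coeff N = 0 := by
        rw [hr, Polynomial.coeff_C_of_ne_zero hN0]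
      rw [hsum, Polynomial.finsetSum_coeff] at h1
      rw [Finset.sum_filter]
      refine Eq.trans ?_ h1
      apply Finset.sum_congr rfl
      intro j hj
      split_ifs with h2
      · rw [← h2]; exact (hT0 j hj).2.symm
      · symm
        apply Polynomial.coeff_eq_zero_of_natDegree_lt
        have := (hT0 j hj).1
        have := hmax j hj
        omega
    have hv : ∀ j ∈ S.filter (fun j => n j = N), v j + N = e + j := by
      intro j hj
      obtain ⟨h1, h2⟩ := Finset.mem_filter.1 hj
      have := hnv j h1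
      omega
    set p : Polynomial M := ∑ j ∈ S.filter (fun j => n j = N),
      Polynomial.monomial (v j) (⟨aeval q (G j), aeval_mem M hq (G j)⟩ : M) with hp
    apply hZM
    apply hM
    refine ⟨p, ?_, ?_⟩
    · intro hp0
      have h1 := congrArg (fun p => Polynomial.coeff p (v j0)) hp0
      simp only [hp, Polynomial.finsetSum_coeff, Polynomial.coeff_monomial,
        Polynomial.coeff_zero] at h1
      have hj0f : j0 ∈ S.filter (fun j => n j = N) := Finset.mem_filter.2 ⟨hj0, rfl⟩
      rw [Finset.sum_eq_single j0] at h1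
      · rw [if_pos rfl] at h1
        exact hG3 j0 hj0 (congrArg Subtype.val h1)
      · intro j hj hjne
        rw [if_neg]
        intro hvv
        have h2 := hv j hj
        have h3 := hv j0 hj0f
        omega
      · intro h2; exact absurd hj0f h2
    · have h1 : Polynomial.aeval (Z * om) p = ∑ j ∈ S.filter (fun j => n j = N),
          aeval q (G j) * (Z * om) ^ v j := by
        rw [hp, map_sum]
        apply Finset.sum_congr rfl
        intro j hj
        rw [Polynomial.aeval_monomial]
        rfl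
      have h2 : Polynomial.aeval (Z * om) p * om ^ N = 0 := by
        rw [h1, Finset.sum_mul, ← mul_zero (om ^ e), ← hc, Finset.mul_sum]
        apply Finset.sum_congr rfl
        intro j hj
        have h3 : om ^ v j * om ^ N = om ^ e * om ^ j := by
          rw [← pow_add, ← pow_add, hv j hj]
        rw [mul_pow]
        linear_combination (aeval q (G j) * Z ^ v j) * h3
      exact (mul_eq_zero.1 h2).resolve_right (pow_ne_zero _ hom)

end Key

end TE

/-! ## E8a: the t-expansion lemma (pure algebra) -/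
theorem t_expansion {k F : Type*} [Field k] [Field F] [Algebra k F] [CharZero k]
    (M : IntermediateField k F) (hM : ∀ z : F, IsAlgebraic M z → z ∈ M)
    {q : Fin 3 → F} (hq : ∀ i, q i ∈ M) {f : MvPolynomial (Fin 3) k} {δ : ℕ}
    (hfh : f.IsHomogeneous δ) (hfi : Irreducible f) (hf0 : aeval q f = 0)
    (hfmin : ∀ (G : MvPolynomial (Fin 3) k) (m : ℕ), G.IsHomogeneous m → aeval q G = 0 → f ∣ G)
    {z : Fin 3 → F} {c0 c1 om : F} (hom : om ≠ 0)
    {P Q : MvPolynomial (Fin 4) k} {e : ℕ} (he : e ≠ 0) (hPQ : IsRelPrime P Q)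
    (hP : P.IsHomogeneous e) (hQ : Q.IsHomogeneous e)
    (hPc : ∃ r : F, aeval ![Polynomial.C (z 0) + Polynomial.C (q 0) * Polynomial.X,
        Polynomial.C (z 1) + Polynomial.C (q 1) * Polynomial.X,
        Polynomial.C (z 2) + Polynomial.C (q 2) * Polynomial.X,
        Polynomial.C c0 + Polynomial.C c1 * Polynomial.X + Polynomial.C om * Polynomial.X ^ 2] P
        = Polynomial.C r)
    (hQc : ∃ r : F, aeval ![Polynomial.C (z 0) + Polynomial.C (q 0) * Polynomial.X,
        Polynomial.C (z 1) + Polynomial.C (q 1) * Polynomial.X,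
        Polynomial.C (z 2) + Polynomial.C (q 2) * Polynomial.X,
        Polynomial.C c0 + Polynomial.C c1 * Polynomial.X + Polynomial.C om * Polynomial.X ^ 2] Q
        = Polynomial.C r) :
    ∑ i, z i * aeval q (pderiv i f) = 0 ∨ (∑ i, z i * aeval q (pderiv i f)) * om ∈ M := by
  by_contra hcon
  push Not at hcon
  obtain ⟨hZ, hZM⟩ := hcon
  set w : Polynomial F := Polynomial.C c0 + Polynomial.C c1 * Polynomial.X
    + Polynomial.C om * Polynomial.X ^ 2 with hw
  have hw1 : w.natDegree ≤ 2 := by rw [hw]; compute_degree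
  have hw2 : w.coeff 2 = om := by
    rw [hw]; simp
  have hx : ∀ i : Fin 3, (![Polynomial.C (z 0) + Polynomial.C (q 0) * Polynomial.X,
        Polynomial.C (z 1) + Polynomial.C (q 1) * Polynomial.X,
        Polynomial.C (z 2) + Polynomial.C (q 2) * Polynomial.X, w] : Fin 4 → Polynomial F)
        i.castSucc = TE.ln z q i := by
    intro i
    fin_cases i <;> rfl
  have h1 : rename Fin.castSucc f ∣ P :=
    TE.key M hM hq hfh hfi hf0 hfmin hw1 (by rw [hw2]; exact hom) hZ (by rw [hw2]; exact hZM)
      he hP hx rfl hPc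
  have h2 : rename Fin.castSucc f ∣ Q :=
    TE.key M hM hq hfh hfi hf0 hfmin hw1 (by rw [hw2]; exact hom) hZ (by rw [hw2]; exact hZM)
      he hQ hx rfl hQc
  have h3 : IsUnit (rename Fin.castSucc f : MvPolynomial (Fin 4) k) := hPQ h1 h2
  have h4 := h3.map (aeval (![X 0, X 1, X 2, 0] : Fin 4 → MvPolynomial (Fin 3) k))
  rw [aeval_rename] at h4
  have h5 : ((![X 0, X 1, X 2, 0] : Fin 4 → MvPolynomial (Fin 3) k) ∘ Fin.castSucc) = X := by
    funext i
    fin_cases i <;> rfl
  rw [h5, aeval_X_left_apply] at h4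
  exact hfi.not_isUnit h4

end Pool.Agent.HDP
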