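import Mathlib
import Pool.Agent.Lib.MP_20906e_al.Defs
import Pool.Agent.Lib.MP_20906e_al.Acl
import Pool.Agent.Lib.MP_20906e_al.Der
import Pool.Agent.Lib.MP_20906e_al.CP
import Pool.Agent.Lib.MP_20906e_al.Wr
import Pool.Agent.Lib.MP_20906e_al.B1

/-!
# MP_20906e_al, piece E8b: equation of a plane curve (helper97)
-/

namespace Pool.Agent.HDP
open MvPolynomial

variable {k Ω : Type*} [Field k] [IsAlgClosed k] [CharZero k] [Field Ω] [IsAlgClosed Ω] [Algebra k Ω]

/-- a homogeneous relation -/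
private theorem e8b_relation {τ ξ : Ω} (hξ : ξ ∉ acl k ({τ} : Set Ω))
    {q : Fin 3 → Ω} (hq : ∀ i, q i ∈ acl k ({τ} : Set Ω)) :
    ∃ (Q : MvPolynomial (Fin 3) k) (m : ℕ), Q.IsHomogeneous m ∧ Q ≠ 0 ∧ aeval q Q = 0 := by
  have hsub : acl k ({τ} : Set Ω) ≤ acl k (Set.range ![τ, ξ]) :=
    acl_mono (by rintro _ rfl; exact ⟨0, rfl⟩)
  have h1 : ¬ AlgebraicIndependent k (fun i => ξ * q i) :=
    not_algInd_of_lt (f := ![τ, ξ]) (fun i => mul_mem (subset_acl _ ⟨1, rfl⟩) (hsub (hq i)))
      (by norm_num)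
  obtain ⟨P, hP, hP0⟩ : ∃ P : MvPolynomial (Fin 3) k, aeval (fun i => ξ * q i) P = 0 ∧ P ≠ 0 := by
    by_contra hcon
    push Not at hcon
    apply h1
    rw [algebraicIndependent_iff]
    exact hcon
  obtain ⟨m, hm⟩ : ∃ m, homogeneousComponent m P ≠ 0 := by
    by_contra hcon
    push Not at hcon
    apply hP0
    rw [← sum_homogeneousComponent P]
    exact Finset.sum_eq_zero fun j _ => hcon j
  refine ⟨homogeneousComponent m P, m, homogeneousComponent_isHomogeneous m P, hm, ?_⟩
  -- the polynomial in `ξ`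
  have hscale : ∀ (F : MvPolynomial (Fin 3) k) (d : ℕ), F.IsHomogeneous d →
      aeval (fun i => ξ * q i) F = ξ ^ d * aeval q F := by
    intro F d hF
    rw [aeval_def, aeval_def, eval₂_eq, eval₂_eq, Finset.mul_sum]
    refine Finset.sum_congr rfl fun s hs => ?_
    have h2 : s.degree = d := by
      have h3 := hF (mem_support_iff.1 hs)
      rw [Finsupp.degree_eq_weight_one (R := ℕ)]
      exact h3
    simp only [mul_pow, Finset.prod_mul_distrib]
    rw [Finset.prod_pow_eq_pow_sum, ← h2]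
    have h4 : s.degree = ∑ i ∈ s.support, s i := rfl
    rw [h4]
    ring
  have hmem : ∀ F : MvPolynomial (Fin 3) k, aeval q F ∈ acl k ({τ} : Set Ω) := by
    intro F
    rw [aeval_def, eval₂_eq]
    exact sum_mem fun s _ => mul_mem ((acl k ({τ} : Set Ω)).algebraMap_mem _)
      (prod_mem fun i _ => pow_mem (hq i) _)
  set p : Polynomial Ω := ∑ j ∈ Finset.range (P.totalDegree + 1),
    Polynomial.monomial j (aeval q (homogeneousComponent j P)) with hp
  have hcoef : ∀ j, p.coeff j = aeval q (homogeneousComponent j P) := by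
    intro j
    rw [hp, Polynomial.finset_sum_coeff]
    simp only [Polynomial.coeff_monomial]
    by_cases hj : j ∈ Finset.range (P.totalDegree + 1)
    · rw [Finset.sum_ite_eq' _ j, if_pos hj]
    · rw [Finset.sum_ite_eq' _ j, if_neg hj]
      rw [Finset.mem_range, not_lt] at hj
      rw [homogeneousComponent_eq_zero _ _ (by omega), map_zero]
  have heval : p.eval ξ = 0 := by
    have h2 : aeval (fun i => ξ * q i) P = ∑ j ∈ Finset.range (P.totalDegree + 1),
        ξ ^ j * aeval q (homogeneousComponent j P) := by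
      conv_lhs => rw [← sum_homogeneousComponent P]
      rw [map_sum]
      exact Finset.sum_congr rfl fun j _ => hscale _ j (homogeneousComponent_isHomogeneous j P)
    rw [hP] at h2
    rw [hp, Polynomial.eval_finset_sum, h2]
    refine Finset.sum_congr rfl fun j _ => ?_
    rw [Polynomial.eval_monomial, mul_comm]
  have hp0 : p = 0 := by
    by_contra hne
    exact hξ (mem_acl_of_root p hne (fun i => by rw [hcoef]; exact hmem _) heval)
  rw [← hcoef, hp0, Polynomial.coeff_zero]

/-- two elements of `acl {τ}`, scaled by a new element, are dependent only if the ratio is constant -/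
private theorem e8b_ratio {τ ξ : Ω} (hξ : ξ ∉ acl k ({τ} : Set Ω)) {a b : Ω}
    (ha : a ∈ acl k ({τ} : Set Ω)) (hb : b ∈ acl k ({τ} : Set Ω)) (hb0 : b ≠ 0)
    (h : ¬ (ξ * a ∉ acl k ({ξ * b} : Set Ω) ∧ ξ * b ∉ acl k ({ξ * a} : Set Ω))) :
    ∃ r : k, a / b = algebraMap k Ω r := by
  have hξ0 : ξ ≠ 0 := by
    rintro rfl
    exact hξ (zero_mem _)
  by_cases hr : a / b ∈ acl k (∅ : Set Ω)
  · obtain ⟨r, hr⟩ := (acl_empty _).1 hr
    exact ⟨r, hr.symm⟩
  exfalso
  have ha0 : a ≠ 0 := by
    rintro rfl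
    rw [zero_div] at hr
    exact hr (zero_mem _)
  have key : ∀ z : Ω, z ∈ acl k ({τ} : Set Ω) → z ≠ 0 → a / b ∉ acl k ({ξ * z} : Set Ω) := by
    intro z hz hz0 hmem
    have h1 : a / b ∈ acl k (insert (ξ * z) (∅ : Set Ω)) := by simpa using hmem
    have h2 := acl_exchange h1 hr
    have h3 : acl k (insert (a / b) (∅ : Set Ω)) ≤ acl k ({τ} : Set Ω) := by
      rw [acl_le_iff]
      intro w hw
      have : w = a / b := by simpa using hw
      rw [this]
      exact div_mem ha hb
    have h4 := h3 h2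
    apply hξ
    have h5 : ξ = ξ * z / z := by field_simp
    rw [h5]
    exact div_mem h4 hz
  apply h
  constructor
  · intro h1
    apply key b hb hb0
    have h2 : a / b = ξ * a / (ξ * b) := by field_simp
    rw [h2]
    exact div_mem h1 (subset_acl _ rfl)
  · intro h1
    apply key a ha ha0
    have h2 : a / b = ξ * a / (ξ * b) := by field_simp
    rw [h2]
    exact div_mem (subset_acl _ rfl) h1

private theorem e8b_third : ∀ j l : Fin 3, j ≠ l →
    ∃ i : Fin 3, j ≠ i ∧ l ≠ i ∧ ∀ m, m ≠ i → m = j ∨ m = l := by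
  decide

/-! ## E8b: equation of a plane curve -/
theorem exists_curve_eq {τ : Ω} (hτ : τ ∉ acl k (∅ : Set Ω)) (hξ : ∃ ξ : Ω, ξ ∉ acl k ({τ} : Set Ω))
    {q : Fin 3 → Ω} (hq : ∀ i, q i ∈ acl k ({τ} : Set Ω))
    (hnc : ∀ v : Fin 3 → k, v ≠ 0 → ¬ ∃ e : Ω, ∀ i, q i = e * algebraMap k Ω (v i)) (hq0 : q ≠ 0) :
    ∃ (f : MvPolynomial (Fin 3) k) (δ : ℕ), f.IsHomogeneous δ ∧ Irreducible f ∧ aeval q f = 0 ∧
      (∀ (G : MvPolynomial (Fin 3) k) (m : ℕ), G.IsHomogeneous m → aeval q G = 0 → f ∣ G) ∧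
      (∃ i, aeval q (pderiv i f) ≠ 0) ∧ ∑ i, q i * aeval q (pderiv i f) = 0 ∧
      (∀ D : Derivation k Ω Ω, ∑ i, D (q i) * aeval q (pderiv i f) = 0) := by
  obtain ⟨ξ, hξ⟩ := hξ
  obtain ⟨Q, m0, hQh, hQ0, hQq⟩ := e8b_relation hξ hq
  -- an irreducible factor
  obtain ⟨f, hfirr, hfQ, hfq⟩ : ∃ R, Irreducible R ∧ R ∣ Q ∧ aeval q R = 0 := by
    obtain ⟨s, hs, hsQ⟩ := WfDvdMonoid.exists_factors Q hQ0
    obtain ⟨u, hu⟩ := hsQ
    have h1 : aeval q s.prod = 0 := by
      have h2 := hQq
      rw [← hu, map_mul] at h2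
      have h3 : IsUnit (aeval q (u : MvPolynomial (Fin 3) k)) := u.isUnit.map (aeval q)
      exact (mul_eq_zero.1 h2).resolve_right h3.ne_zero
    rw [map_multiset_prod, Multiset.prod_eq_zero_iff, Multiset.mem_map] at h1
    obtain ⟨R, hR, hR0⟩ := h1
    exact ⟨R, hs R hR, (Multiset.dvd_prod hR).trans ⟨u, hu.symm⟩, hR0⟩
  obtain ⟨δ, hfh⟩ := isHomogeneous_of_dvd hQh hQ0 hfQ
  -- minimality
  have hmin : ∀ (G : MvPolynomial (Fin 3) k) (m : ℕ), G.IsHomogeneous m → aeval q G = 0 → f ∣ G := by
    intro G m hG hGq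
    by_contra hnd
    have hrel : IsRelPrime f G := (hfirr.isRelPrime_iff_not_dvd).2 hnd
    have hξ' : ξ ∉ acl k (Set.range q) := by
      intro h
      apply hξ
      have h1 : acl k (Set.range q) ≤ acl k ({τ} : Set Ω) := by
        rw [acl_le_iff]
        rintro _ ⟨i, rfl⟩
        exact hq i
      exact h1 h
    have hdep := fun i => coprime_forms_zero hrel hfh hG hfq hGq hξ' i
    -- all ratios are constant
    have hrat : ∀ j l : Fin 3, j ≠ l → q l ≠ 0 → ∃ r : k, q j / q l = algebraMap k Ω r := by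
      intro j l hjl hl0
      refine e8b_ratio hξ (hq j) (hq l) hl0 ?_
      rintro ⟨h1, h2⟩
      obtain ⟨i, hij, hil, hall⟩ := e8b_third j l hjl
      apply hdep i
      rw [algInd_iff_notMem]
      rintro ⟨p, hp⟩
      rcases hall p hp with rfl | rfl
      · intro h3
        apply h1
        refine acl_mono ?_ h3
        rintro _ ⟨⟨p', hp'⟩, hne, rfl⟩
        rcases hall p' hp' with rfl | rfl
        · exact absurd rfl hne
        · rfl
      · intro h3
        apply h2
        refine acl_mono ?_ h3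
        rintro _ ⟨⟨p', hp'⟩, hne, rfl⟩
        rcases hall p' hp' with rfl | rfl
        · rfl
        · exact absurd rfl hne
    obtain ⟨l, hl⟩ : ∃ l, q l ≠ 0 := by
      by_contra hcon
      push Not at hcon
      exact hq0 (funext hcon)
    have hall : ∀ j, ∃ r : k, q j = q l * algebraMap k Ω r := by
      intro j
      by_cases hjl : j = l
      · exact ⟨1, by rw [hjl, map_one, mul_one]⟩
      · obtain ⟨r, hr⟩ := hrat j l hjl hl
        exact ⟨r, by rw [← hr]; field_simp⟩
    choose v hv using hall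
    refine hnc v ?_ ⟨q l, hv⟩
    rintro rfl
    apply hl
    rw [hv l]
    simp
  have hder : ∀ D : Derivation k Ω Ω, ∑ i, D (q i) * aeval q (pderiv i f) = 0 := by
    intro D
    have h1 := congrArg D hfq
    rw [der_aeval, map_zero] at h1
    rw [← h1]
    exact Finset.sum_congr rfl fun i _ => mul_comm _ _
  have heuler : ∑ i, q i * aeval q (pderiv i f) = 0 := by
    have h1 := congrArg (aeval q) hfh.sum_X_mul_pderiv
    rw [map_sum, nsmul_eq_mul, map_mul, hfq, mul_zero] at h1
    rw [← h1]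
    refine Finset.sum_congr rfl fun i _ => ?_
    rw [map_mul, aeval_X]
  have hf0 := hfirr.ne_zero
  have hδ : δ ≠ 0 := by
    rintro rfl
    rw [← totalDegree_zero_iff_isHomogeneous, totalDegree_eq_zero_iff_eq_C] at hfh
    rw [hfh, aeval_C] at hfq
    have h1 : f.coeff 0 = 0 := by
      by_contra h
      exact h ((map_eq_zero (algebraMap k Ω)).1 hfq)
    rw [h1, C_0] at hfh
    exact hf0 hfh
  refine ⟨f, δ, hfh, hfirr, hfq, hmin, ?_, heuler, hder⟩
  by_contra hcon
  push Not at hcon
  have h1 : ∀ i, pderiv i f = 0 := by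
    intro i
    by_contra hne
    obtain ⟨Q', hQ'⟩ := hmin _ _ hfh.pderiv (hcon i)
    have hQ0' : Q' ≠ 0 := by
      rintro rfl
      exact hne (by rw [hQ', mul_zero])
    have h2 : (pderiv i f).totalDegree = f.totalDegree + Q'.totalDegree := by
      rw [hQ']
      exact totalDegree_mul_of_isDomain hf0 hQ0'
    have h3 : (pderiv i f).totalDegree = δ - 1 := (hfh.pderiv).totalDegree hne
    have h4 : f.totalDegree = δ := hfh.totalDegree hf0
    omega
  have h2 := hfh.sum_X_mul_pderiv
  simp only [h1, mul_zero, Finset.sum_const_zero] at h2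
  have h3 : (δ : MvPolynomial (Fin 3) k) * f = 0 := by
    rw [← nsmul_eq_mul]
    exact h2.symm
  rcases mul_eq_zero.1 h3 with h4 | h4
  · rw [Nat.cast_eq_zero] at h4
    exact hδ h4
  · exact hf0 h4

/-- if all tangent lines pass through a fixed point the curve is a line -/
theorem curve_line {τ : Ω} {q lam : Fin 3 → Ω} (hq : ∀ i, q i ∈ acl k ({τ} : Set Ω))
    (D : Derivation k Ω Ω) (hD : D τ ≠ 0) (hl0 : lam ≠ 0)
    (h1 : ∑ i, q i * lam i = 0) (h2 : ∑ i, D (q i) * lam i = 0)
    (hnc : ∀ v : Fin 3 → k, v ≠ 0 → ¬ ∃ e : Ω, ∀ i, q i = e * algebraMap k Ω (v i)) (hq0 : q ≠ 0)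
    {v : Fin 3 → k} (hv : v ≠ 0) (h3 : ∑ i, algebraMap k Ω (v i) * lam i = 0) :
    ∃ n : Fin 3 → k, n ≠ 0 ∧ ∑ i, algebraMap k Ω (n i) * q i = 0 := by
  set w : Fin 3 → Ω := fun i => algebraMap k Ω (v i) with hw
  rw [Fin.sum_univ_three] at h1 h2 h3
  -- cross products of vectors orthogonal to `lam`
  have hcross : ∀ a b : Fin 3 → Ω, a 0 * lam 0 + a 1 * lam 1 + a 2 * lam 2 = 0 →
      b 0 * lam 0 + b 1 * lam 1 + b 2 * lam 2 = 0 → ∀ i j,
      crossProduct a b i * lam j = crossProduct a b j * lam i := by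
    intro a b ha hb i j
    simp only [cross_apply]
    fin_cases i <;> fin_cases j <;>
      simp only [Fin.zero_eta, Fin.mk_one, Fin.reduceFinMk, Matrix.cons_val]
    · linear_combination (b 2) * ha - (a 2) * hb
    · linear_combination (-(b 1)) * ha + (a 1) * hb
    · linear_combination (-(b 2)) * ha + (a 2) * hb
    · linear_combination (b 0) * ha - (a 0) * hb
    · linear_combination (b 1) * ha - (a 1) * hb
    · linear_combination (-(b 0)) * ha + (a 0) * hb
  set m : Fin 3 → Ω := crossProduct q w with hm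
  have hDm : ∀ i, D (m i) = crossProduct (fun i => D (q i)) w i := by
    intro i
    simp only [hm, cross_apply, hw]
    fin_cases i <;>
      simp only [Fin.zero_eta, Fin.mk_one, Fin.reduceFinMk, Matrix.cons_val, map_sub,
        Derivation.leibniz, Derivation.map_algebraMap, smul_zero, smul_eq_mul, zero_add] <;> ring
  have e1 := hcross q w h1 h3
  have e2 := hcross (fun i => D (q i)) w h2 h3
  obtain ⟨l, hl⟩ : ∃ l, lam l ≠ 0 := by
    by_contra hcon
    push Not at hcon
    exact hl0 (funext hcon)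
  have hmm : ∀ i, m i * lam l = m l * lam i := fun i => e1 i l
  have hDD : ∀ i, D (m i) * lam l = D (m l) * lam i := by
    intro i
    rw [hDm, hDm]
    exact e2 i l
  have hml : m l ≠ 0 := by
    intro h0
    have hmz : ∀ i, m i = 0 := by
      intro i
      have h4 := hmm i
      rw [h0, zero_mul] at h4
      exact (mul_eq_zero.1 h4).resolve_right hl
    obtain ⟨j, hj⟩ : ∃ j, v j ≠ 0 := by
      by_contra hcon
      push Not at hcon
      exact hv (funext hcon)
    have hwj : w j ≠ 0 := by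
      simp only [hw]
      exact (map_ne_zero _).2 hj
    have hz0 := hmz 0
    have hz1 := hmz 1
    have hz2 := hmz 2
    simp only [hm, cross_apply, Matrix.cons_val] at hz0 hz1 hz2
    refine hnc v hv ⟨q j / w j, fun i => ?_⟩
    change q i = q j / w j * w i
    rw [div_mul_eq_mul_div, eq_div_iff hwj]
    fin_cases i <;> fin_cases j <;>
      simp only [Fin.zero_eta, Fin.mk_one, Fin.reduceFinMk] <;>
      first
        | ring1
        | linear_combination hz0
        | linear_combination hz1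
        | linear_combination hz2
        | linear_combination -hz0
        | linear_combination -hz1
        | linear_combination -hz2
  have hmmem : ∀ i, m i ∈ acl k ({τ} : Set Ω) := by
    intro i
    have hwm : ∀ j, w j ∈ acl k ({τ} : Set Ω) := fun j =>
      (acl k ({τ} : Set Ω)).algebraMap_mem _
    simp only [hm, cross_apply]
    fin_cases i <;> simp only [Fin.zero_eta, Fin.mk_one, Fin.reduceFinMk, Matrix.cons_val] <;>
      exact sub_mem (mul_mem (hq _) (hwm _)) (mul_mem (hq _) (hwm _))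
  have hconst : ∀ i, ∃ a : k, algebraMap k Ω a = m i / m l := by
    intro i
    refine const_of_der_zero D hD (div_mem (hmmem i) (hmmem l)) ?_
    rw [Derivation.leibniz_div]
    have h4 : m l * D (m i) - m i * D (m l) = 0 := by
      apply mul_left_cancel₀ hl
      rw [mul_zero]
      linear_combination (m l) * hDD i - (D (m l)) * hmm i
    simp only [smul_eq_mul]
    rw [h4, mul_zero]
  choose n hn using hconst
  refine ⟨n, ?_, ?_⟩
  · rintro rfl
    have h4 := hn l
    rw [div_self hml] at h4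
    simp at h4
  · rw [Fin.sum_univ_three, hn, hn, hn]
    have h5 : m 0 * q 0 + m 1 * q 1 + m 2 * q 2 = 0 := by
      simp only [hm, cross_apply, Matrix.cons_val]
      ring
    field_simp
    rw [h5, mul_zero]

end Pool.Agent.HDP
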