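import Mathlib
import Pool.Agent.Lib.MP_20906e_al.Defs
import Pool.Agent.Lib.MP_20906e_al.Cone
import Pool.Agent.Lib.MP_20906e_al.E1a
import Pool.Agent.Lib.MP_20906e_al.E1b
import Pool.Agent.Lib.MP_20906e_al.E3
import Pool.Agent.Lib.MP_20906e_al.E4

/-!
# MP_20906e_al, piece E8c: shape of the data in case B (helper41)
-/

namespace Pool.Agent.HDP
open MvPolynomial

variable {k Ω : Type*} [Field k] [IsAlgClosed k] [CharZero k] [Field Ω] [IsAlgClosed Ω] [Algebra k Ω]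

set_option linter.unusedSectionVars false
set_option linter.unusedVariables false

namespace FCtx
variable (c : FCtx k Ω)

/-- as in `g_ne`: `g` is a unit at the places over the minimal primes of `(P, Q)` -/
theorem e8c_g_val {I : Ideal (MvPolynomial (Fin 4) k)} (hI : I ∈ (Ideal.span {c.P, c.Q}).minimalPrimes)
    {V : ValuationSubring Ω}
    (h : ∀ v : Fin 4 → Ω, (∀ i, v i ∈ acl k ({c.τ} : Set Ω)) → V.valuation (∑ i, v i * c.x i) < 1 →
        ∀ w : Fin 4 → k, (∀ l : Fin 4 → k, lf l ∈ I → ∑ i, l i * w i = 0) →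
          ∑ i, v i * algebraMap k Ω (w i) = 0) (h0 : V.valuation c.g < 1) : False := by
  classical
  let W : Submodule k (Fin 4 → k) :=
    { carrier := {l | lf l ∈ I}
      zero_mem' := by
        show lf (0 : Fin 4 → k) ∈ I
        simp [lf]
      add_mem' := by
        intro a b ha hb
        show lf (a + b) ∈ I
        have : lf (a + b) = lf a + lf b := by
          simp [lf, add_mul, Finset.sum_add_distrib]
        rw [this]
        exact I.add_mem ha hb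
      smul_mem' := by
        intro r a ha
        show lf (r • a) ∈ I
        have : lf (r • a) = C r * lf a := by
          simp [lf, Finset.mul_sum, mul_assoc]
        rw [this]
        exact I.mul_mem_left _ ha }
  have hW : Module.finrank k W ≤ 2 := by
    let B := Module.finBasis k W
    refine lf_le_two_of_minimalPrime hI (c := fun l => (B l : Fin 4 → k)) ?_ fun l => (B l).2
    exact B.linearIndependent.map' W.subtype W.ker_subtype
  obtain ⟨v, w, hvw, hv, hw⟩ := E1b_orth W hW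
  exact c.span3 v w hvw ⟨h c.U c.Umem h0 v hv, h c.U c.Umem h0 w hw⟩

/-- `U_0, U_1, U_2` are independent over `k` -/
theorem e8c_ind (h : c.Cone) : LinearIndependent k ![c.U 0, c.U 1, c.U 2] := by
  rw [Fintype.linearIndependent_iff]
  intro g hg
  by_contra hno
  push Not at hno
  obtain ⟨j, hj⟩ := hno
  refine c.span3 ![g 0, g 1, g 2, 0] ![0, 0, 0, 1] ?_ ⟨?_, ?_⟩
  · rw [LinearIndependent.pair_iff]
    intro s t hst
    have h0 := congrFun hst 0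
    have h1 := congrFun hst 1
    have h2 := congrFun hst 2
    have h3 := congrFun hst 3
    simp at h0 h1 h2 h3
    refine ⟨?_, h3⟩
    fin_cases j
    · exact h0.resolve_right hj
    · exact h1.resolve_right hj
    · exact h2.resolve_right hj
  · simp [Fin.sum_univ_three, Algebra.smul_def] at hg
    simp [Fin.sum_univ_four]
    linear_combination hg
  · simp [Fin.sum_univ_four, h.U3]

theorem caseB_shape (h : c.CaseB) : ∃ N C s0 : Ω, N ≠ 0 ∧ N ∈ c.L ∧ C ≠ 0 ∧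
    C ∈ acl k ({c.τ} : Set Ω) ∧ s0 ∈ acl k ({c.τ} : Set Ω) ∧ N ^ c.d = C * c.a ∧
    c.g = N * (c.bb / c.a + s0) := by
  classical
  have hCZ := c.e4_charZero
  have hd := c.e4_d_ne
  have hd0 : c.d ≠ 0 := by have := c.hd; omega
  obtain ⟨u0, u1, u2⟩ := c.e4_cone3 h.cone
  obtain ⟨V0, hV0, hi⟩ := c.toCtx3.exists_infinite
  obtain ⟨b, i0, hb⟩ := c.toCtx3.exists_dir V0 hV0 hi
  have hbe := h.dirs V0 b i0 hb
  obtain ⟨-, -, hQ⟩ := c.key hb
  rw [c.e4_Bb h.cone, hbe] at hQ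
  simp only [Fin.sum_univ_four, u2] at hQ
  have hbb : c.Db (c.Db (c.a * c.g)) = 0 := by
    simpa [-Derivation.leibniz] using hQ
  obtain ⟨ρ, c0, c1, hρL, hc0, hc1, hρ, hf⟩ := c.shape2 hbb
  have hρ0 : ρ ≠ 0 := by
    rintro rfl
    rw [zero_pow hd0] at hρ
    exact c.a0 hρ.symm
  have hc10 : c1 ≠ 0 := by
    rintro rfl
    have hg : c.g = ρ * c0 := by
      have h1 : c.a * (c.g - ρ * c0) = 0 := by linear_combination hf
      linear_combination (mul_eq_zero.1 h1).resolve_left c.a0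
    obtain ⟨I, hI, hIp, hP, hQI⟩ := exists_minimalPrime_pair c.he c.Ph c.Qh
    obtain ⟨V, hVx, hVτ, hVI, hV4, h5⟩ := c.toDCtx.barg_lin I hIp hP hQI
    refine c.e8c_g_val hI h5 ?_
    have h6 : V.valuation (∑ i : Fin 3, (![c.U 0, c.U 1, c.U 2] : Fin 3 → Ω) i *
        aeval c.x ((![c.H 0, c.H 1, c.H 2] : Fin 3 → MvPolynomial (Fin 4) k) i)) < 1 := by
      have h7 : ∑ i : Fin 3, (![c.U 0, c.U 1, c.U 2] : Fin 3 → Ω) i *
        aeval c.x ((![c.H 0, c.H 1, c.H 2] : Fin 3 → MvPolynomial (Fin 4) k) i) = 0 := by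
        have h8 := c.Uy
        simp only [Fin.sum_univ_four, u0, c.hy] at h8
        simp [Fin.sum_univ_three]
        linear_combination h8
      rw [h7, map_zero]
      exact zero_lt_one
    have h7 := hV4 3 ![c.U 0, c.U 1, c.U 2] ![c.H 0, c.H 1, c.H 2] (by
      intro i
      fin_cases i
      · exact c.Umem 0
      · exact c.Umem 1
      · exact c.Umem 2) (c.e8c_ind h.cone) h6
    have hy0 : V.valuation (c.y 0) < 1 := by rw [c.hy]; exact (hVI _).2 (h7 0)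
    have hy1 : V.valuation (c.y 1) < 1 := by rw [c.hy]; exact (hVI _).2 (h7 1)
    have hy2 : V.valuation (c.y 2) < 1 := by rw [c.hy]; exact (hVI _).2 (h7 2)
    have ha : V.valuation c.a < 1 := by
      rw [← c.U2y, Fin.sum_univ_four, u2, zero_mul, add_zero]
      exact e4_add (e4_add (e4_mul (hVτ _ (c.U2mem 0)) hy0) (e4_mul (hVτ _ (c.U2mem 1)) hy1))
        (e4_mul (hVτ _ (c.U2mem 2)) hy2)
    have hρ1 : V.valuation ρ < 1 := by
      rw [← hρ, map_pow] at ha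
      by_contra hno
      push Not at hno
      exact absurd ha (not_lt.2 (one_le_pow₀ hno))
    rw [hg, mul_comm]
    exact e4_mul (hVτ _ hc0) hρ1
  refine ⟨c1 * ρ, c1 ^ c.d, c0 / c1, mul_ne_zero hc10 hρ0, mul_mem (c.e4_τ_le hc1) hρL,
    pow_ne_zero _ hc10, pow_mem hc1 _, div_mem hc0 hc1, by rw [mul_pow, hρ], ?_⟩
  have h1 : c.a * (c.g - c1 * ρ * (c.bb / c.a + c0 / c1)) = 0 := by
    rw [mul_sub, hf]
    field_simp [c.a0]
    ring
  linear_combination (mul_eq_zero.1 h1).resolve_left c.a0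

/-- derivatives of `N` -/
theorem e8c_DN (h : c.CaseB) {N C : Ω} (hN0 : N ≠ 0) (hC0 : C ≠ 0)
    (hC : C ∈ acl k ({c.τ} : Set Ω)) (hNC : N ^ c.d = C * c.a) (D : Derivation k Ω Ω) :
    D N = N * (D C / C + D c.a / c.a) / c.d := by
  have hCZ := c.e4_charZero
  have hd := c.e4_d_ne
  have hd0 : c.d ≠ 0 := by have := c.hd; omega
  have h1 := congrArg D hNC
  rw [Derivation.leibniz_pow, Derivation.leibniz] at h1
  simp only [smul_eq_mul, nsmul_eq_mul] at h1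
  have h2 : N * N ^ (c.d - 1) = N ^ c.d := by
    rw [← pow_succ', Nat.sub_add_cancel (by omega)]
  have h3 : (c.d : Ω) * N ^ c.d * D N = N * (C * D c.a + c.a * D C) := by
    rw [← h1, ← h2]
    ring
  rw [hNC] at h3
  have ha := c.a0
  have h4 : ((c.d : Ω) * (C * c.a)) ≠ 0 := mul_ne_zero hd (mul_ne_zero hC0 ha)
  have h5 : D N = N * (C * D c.a + c.a * D C) / ((c.d : Ω) * (C * c.a)) := by
    rw [eq_div_iff h4]
    linear_combination h3
  rw [h5]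
  field_simp
  ring

theorem e8c_neg {V : ValuationSubring Ω} {z : Ω} (hz : V.valuation z < 1) : V.valuation (-z) < 1 := by
  rwa [Valuation.map_neg]

/-- the infinite places in case B -/
theorem e8c_inf (h : c.CaseB) {N : Ω} (hN0 : N ≠ 0) (hNL : N ∈ c.L)
    (hE : c.EE = c.N1 ^ 2 / 2 - c.n0 * c.N1 + c.a * c.Da c.g * c.N2 + N * c.x 3)
    {V : ValuationSubring Ω} (hV : c.IsPlace V) (hi : ∃ i, c.x i ∉ V) :
    V.valuation (c.N1)⁻¹ < 1 ∧ V.valuation (c.N2 * (c.N1⁻¹) ^ 2) < 1 ∧ c.N1 ≠ 0 := by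
  have hCZ := c.e4_charZero
  obtain ⟨u0, u1, u2⟩ := c.e4_cone3 h.cone
  obtain ⟨b, i0, hb⟩ := c.toCtx3.exists_dir V hV hi
  have hbe := h.dirs V b i0 hb
  have hi0 : i0 = 3 := by
    have h1 := hb.one
    rw [hbe] at h1
    fin_cases i0 <;> simp at h1 ⊢
  subst hi0
  have r1 := c.e4_res hb c.U1mem
  have r2 := c.e4_res hb c.U2mem
  have s1 : ∑ i, c.U1 i * b i = 0 := by rw [hbe, Fin.sum_univ_four]; simp [u1]
  have s2 : ∑ i, c.U2 i * b i = 0 := by rw [hbe, Fin.sum_univ_four]; simp [u2]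
  rw [s1, sub_zero] at r1
  rw [s2, sub_zero] at r2
  have r3 := c.toCtx3.b3_inv_lt hb
  change V.valuation ((c.x 3)⁻¹ * c.N1) < 1 at r1
  change V.valuation ((c.x 3)⁻¹ * c.N2) < 1 at r2
  have hx3 : c.x 3 ≠ 0 := c.toCtx3.b3_x0_ne hb
  have hGL : c.a * c.Da c.g ∈ c.L := mul_mem c.e4_a_mem (c.DL _ c.toDCtx.g_mem).2.1
  have hn0 : c.n0 ∈ c.L := c.e4_D0_mem c.toDCtx.g_mem
  have h1 : V.valuation (c.N1 ^ 2 * (c.x 3)⁻¹ / 2 + N) < 1 := by
    have h2 : c.N1 ^ 2 * (c.x 3)⁻¹ / 2 + N = c.EE * (c.x 3)⁻¹ + c.n0 * ((c.x 3)⁻¹ * c.N1)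
        - c.a * c.Da c.g * ((c.x 3)⁻¹ * c.N2) := by
      rw [hE]
      field_simp
      ring
    rw [h2]
    exact e4_sub (e4_add (e4_mul (hV _ c.EE_mem) r3) (e4_mul (hV _ hn0) r1)) (e4_mul (hV _ hGL) r2)
  have hvN : V.valuation N = 1 := c.toCtx3.val_L V hV hNL hN0
  have h2 : V.valuation (c.N1 ^ 2 * (c.x 3)⁻¹ / 2) = 1 := by
    have h3 : c.N1 ^ 2 * (c.x 3)⁻¹ / 2 = (c.N1 ^ 2 * (c.x 3)⁻¹ / 2 + N) - N := by ring
    rw [h3, Valuation.map_sub_eq_of_lt_right _ (by rw [hvN]; exact h1), hvN]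
  have hv2 : V.valuation (2 : Ω) = 1 := c.toCtx3.val_L V hV (ofNat_mem _ 2) two_ne_zero
  have h3 : V.valuation (c.N1 ^ 2 * (c.x 3)⁻¹) = 1 := by
    rw [map_div₀, hv2, div_one] at h2
    exact h2
  have hN10 : c.N1 ≠ 0 := by
    intro h0
    rw [h0] at h3
    simp at h3
  refine ⟨?_, ?_, hN10⟩
  · rw [map_inv₀]
    have h4 : V.valuation c.N1 ≠ 0 := by simpa using hN10
    by_contra hno
    push Not at hno
    have h5 : V.valuation c.N1 ≤ 1 := (one_le_inv₀ (zero_lt_iff.2 h4)).1 hno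
    have h6 : V.valuation (c.N1 ^ 2 * (c.x 3)⁻¹) < 1 :=
      e4_mul (pow_mem ((V.valuation_le_one_iff _).1 h5) 2) r3
    rw [h3] at h6
    exact lt_irrefl _ h6
  · have h4 : c.N2 * (c.N1⁻¹) ^ 2 * (c.N1 ^ 2 * (c.x 3)⁻¹) = (c.x 3)⁻¹ * c.N2 := by
      field_simp
    have h5 := congrArg V.valuation h4
    rw [map_mul, h3, mul_one] at h5
    rw [h5]
    exact r2

/-- the cubic relation -/
theorem e8c_alg (L : IntermediateField k Ω)
    {n1 n2 x N EE FF n0 G1 p0 p2 p3 g κ s0 dd D0E D0n D0G aE bE : Ω} [CharZero Ω]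
    (hNL : N ∈ L) (hEL : EE ∈ L) (hFL : FF ∈ L) (hn0 : n0 ∈ L) (hGL : G1 ∈ L) (hp0 : p0 ∈ L)
    (hp2 : p2 ∈ L) (hp3 : p3 ∈ L) (hgL : g ∈ L) (hκ : κ ∈ L) (hdL : dd ∈ L) (hD0E : D0E ∈ L)
    (hD0n : D0n ∈ L) (hD0G : D0G ∈ L) (haE : aE ∈ L) (hbE : bE ∈ L)
    (hd : dd ≠ 0) (hN : N ≠ 0) (hG1 : G1 = N * s0 - (1 - dd⁻¹) * g)
    (hEE : EE = n1 ^ 2 / 2 - n0 * n1 + G1 * n2 + N * x)
    (hFF : FF = D0E * n1 + D0n * n1 ^ 2 / 2 - G1 * (p0 * n1 * n2 + p2 * n1 ^ 2 / 2 + p3 * g * n1)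
      - D0G * n1 * n2 - κ * N * n1 * x - p0 * (n1 ^ 3 / 3 - n0 * n1 ^ 2 / 2) - aE * n2 - bE * x
      + (1 / (2 * dd)) * (2 * N * s0 - (1 - dd⁻¹) * g) * n2 ^ 2 + N / dd * n2 * x) :
    ∃ A0 ∈ L, ∃ A1 ∈ L, ∃ A2 ∈ L, ∃ A3 ∈ L, ∃ A4 ∈ L, ∃ A5 ∈ L,
      n1 ^ 2 * (n2 - 2 * dd * (κ / 2 - p0 / 3) * n1) = A0 * n2 ^ 2 + A1 * (n1 * n2) + A2 * n1 ^ 2
      + A3 * n2 + A4 * n1 + A5 := by
  have h1L : (1 : Ω) ∈ L := one_mem _
  have h2L : (2 : Ω) ∈ L := ofNat_mem _ 2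
  have h3L : (3 : Ω) ∈ L := ofNat_mem _ 3
  have hlam : bE / N ∈ L := div_mem hbE hNL
  have hx : x = (EE - n1 ^ 2 / 2 + n0 * n1 - G1 * n2) / N := by
    rw [eq_div_iff hN, hEE]; ring
  refine ⟨(1 - dd⁻¹) * g, mul_mem (sub_mem h1L (inv_mem hdL)) hgL,
    2 * dd * (-G1 * p0 - D0G + κ * G1 + n0 / dd), ?_,
    2 * dd * (D0n / 2 - G1 * p2 / 2 - κ * n0 + p0 * n0 / 2 + bE / N / 2), ?_,
    2 * dd * (-aE + bE / N * G1 + EE / dd), ?_,
    2 * dd * (D0E - G1 * p3 * g - κ * EE - bE / N * n0), ?_,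
    2 * dd * (-(bE / N * EE) - FF), ?_, ?_⟩
  · exact mul_mem (mul_mem h2L hdL) (add_mem (add_mem (sub_mem (mul_mem (neg_mem hGL) hp0) hD0G)
      (mul_mem hκ hGL)) (div_mem hn0 hdL))
  · exact mul_mem (mul_mem h2L hdL) (add_mem (add_mem (sub_mem (sub_mem (div_mem hD0n h2L)
      (div_mem (mul_mem hGL hp2) h2L)) (mul_mem hκ hn0)) (div_mem (mul_mem hp0 hn0) h2L))
      (div_mem hlam h2L))
  · exact mul_mem (mul_mem h2L hdL) (add_mem (add_mem (neg_mem haE) (mul_mem hlam hGL))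
      (div_mem hEL hdL))
  · exact mul_mem (mul_mem h2L hdL) (sub_mem (sub_mem (sub_mem hD0E (mul_mem (mul_mem hGL hp3) hgL))
      (mul_mem hκ hEL)) (mul_mem hlam hn0))
  · exact mul_mem (mul_mem h2L hdL) (sub_mem (neg_mem (mul_mem hlam hEL)) hFL)
  · have hFF2 : FF = D0E * n1 + D0n * n1 ^ 2 / 2
      - G1 * (p0 * n1 * n2 + p2 * n1 ^ 2 / 2 + p3 * g * n1)
      - D0G * n1 * n2 - κ * n1 * (EE - n1 ^ 2 / 2 + n0 * n1 - G1 * n2)
      - p0 * (n1 ^ 3 / 3 - n0 * n1 ^ 2 / 2) - aE * n2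
      - bE / N * (EE - n1 ^ 2 / 2 + n0 * n1 - G1 * n2)
      + (1 / (2 * dd)) * (2 * (G1 + (1 - dd⁻¹) * g) - (1 - dd⁻¹) * g) * n2 ^ 2
      + 1 / dd * n2 * (EE - n1 ^ 2 / 2 + n0 * n1 - G1 * n2) := by
      rw [hFF, hx, hG1]
      field_simp
      ring
    rw [hFF2]
    field_simp
    ring

theorem caseB_data (h : c.CaseB) {N C s0 : Ω} (hN0 : N ≠ 0) (hNL : N ∈ c.L) (hC0 : C ≠ 0)
    (hC : C ∈ acl k ({c.τ} : Set Ω)) (hs0 : s0 ∈ acl k ({c.τ} : Set Ω)) (hNC : N ^ c.d = C * c.a)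
    (hg : c.g = N * (c.bb / c.a + s0)) :
    ∃ yh ∈ acl k ({c.τ} : Set Ω), c.N2 - yh * c.N1 ∈ c.L ∧ c.N1 ∉ c.L ∧
      ∃ c0 c1 : Ω, c0 ∈ c.L ∧ c1 ∈ c.L ∧ c.x 3 = c0 + c1 * c.N1 - c.N1 ^ 2 / (2 * N) := by
  have hCZ := c.e4_charZero
  have hd := c.e4_d_ne
  have ha := c.a0
  obtain ⟨u0, u1, u2⟩ := c.e4_cone3 h.cone
  obtain ⟨dτ, dta, dtb, daτ, daa, dab, dbτ, dba, dbb⟩ := c.dual
  -- derivatives of `N`
  have hDaN : c.Da N = N / (c.d * c.a) := by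
    rw [c.e8c_DN h hN0 hC0 hC hNC, c.e4_Da_τ hC, daa]
    field_simp
    ring
  have hDbN : c.Db N = 0 := by
    rw [c.e8c_DN h hN0 hC0 hC hNC, c.e4_Db_τ hC, dba]
    simp
  have hDtN : c.Dt N = N * (c.Dt C / C) / c.d := by
    rw [c.e8c_DN h hN0 hC0 hC hNC, dta]
    simp
  have hmu1 : c.mu1 = c.p 0 * c.a := by unfold mu1; rw [h.cone.p1]; ring
  have hmu2 : c.mu2 = 0 := by unfold mu2; rw [h.cone.q]; simp
  set κ : Ω := (c.Dt C / C + c.p 0) / c.d with hκ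
  have hD0N : c.D0 N = κ * N := by
    unfold D0
    rw [hDaN, hDbN, hDtN, hmu1, hmu2, hκ]
    field_simp
    ring
  have hqa : ∀ D : Derivation k Ω Ω, D (c.bb / c.a) = D c.bb / c.a - c.bb * D c.a / c.a ^ 2 := by
    intro D
    have h1 : c.a * (c.bb / c.a) = c.bb := by field_simp
    have h2 := congrArg D h1
    rw [Derivation.leibniz, smul_eq_mul, smul_eq_mul] at h2
    field_simp
    field_simp at h2
    linear_combination h2
  have hDg : ∀ D : Derivation k Ω Ω, D c.g = N * (D (c.bb / c.a) + D s0) + (c.bb / c.a + s0) * D N := by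
    intro D
    rw [hg, Derivation.leibniz, map_add, smul_eq_mul, smul_eq_mul]
  have hDbg : c.a * c.Db c.g = N := by
    rw [hDg, hqa, hDbN, dba, dbb, c.e4_Db_τ hs0]
    field_simp
    ring
  have hDag : c.a * c.Da c.g = N * s0 - (1 - (c.d : Ω)⁻¹) * c.g := by
    rw [hDg, hqa, hDaN, daa, dab, c.e4_Da_τ hs0, hg]
    field_simp
    ring
  have hDbag : c.Db (c.a * c.g) = N := by
    rw [Derivation.leibniz, smul_eq_mul, smul_eq_mul, dba, hDbg]
    ring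
  have hDaag : c.Da (c.a * c.g) = N * s0 + (c.d : Ω)⁻¹ * c.g := by
    rw [Derivation.leibniz, smul_eq_mul, smul_eq_mul, daa, hDag]
    ring
  have hDadinv : c.Da ((c.d : Ω)⁻¹) = 0 :=
    c.e4_Da_τ (inv_mem (natCast_mem _ _))
  have h2a : c.a / 2 * c.Da (c.Da (c.a * c.g)) =
      (1 / (2 * c.d)) * (2 * N * s0 - (1 - (c.d : Ω)⁻¹) * c.g) := by
    rw [hDaag, map_add, Derivation.leibniz, Derivation.leibniz]
    simp only [smul_eq_mul]
    rw [hDaN, c.e4_Da_τ hs0, hDadinv]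
    have h1 : c.Da c.g = (N * s0 - (1 - (c.d : Ω)⁻¹) * c.g) / c.a := by
      rw [eq_div_iff ha, ← hDag]; ring
    rw [h1]
    field_simp
    ring
  have h2b : c.Da (c.Db (c.a * c.g)) = N / (c.d * c.a) := by rw [hDbag, hDaN]
  have h2c : c.Db (c.Db (c.a * c.g)) = 0 := by rw [hDbag, hDbN]
  have hN3 : c.N3 = c.x 3 := by unfold N3; exact c.e4_Bb h.cone c.x
  have hEE : c.EE = c.N1 ^ 2 / 2 - c.n0 * c.N1 + c.a * c.Da c.g * c.N2 + N * c.x 3 := by
    unfold EE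
    rw [hDbg, hN3]
  -- memberships
  have hle := c.e4_τ_le
  have hgL := c.toDCtx.g_mem
  have haL := c.e4_a_mem
  have hDtC : c.Dt C ∈ acl k ({c.τ} : Set Ω) := by
    refine der_acl_mem c.Dt (subset_acl _) ?_ C hC
    rintro _ rfl
    rw [dτ]
    exact one_mem _
  have hdm : (c.d : Ω) ∈ acl k ({c.τ} : Set Ω) := natCast_mem _ _
  have h2m : (2 : Ω) ∈ acl k ({c.τ} : Set Ω) := ofNat_mem _ 2
  have h3m : (3 : Ω) ∈ acl k ({c.τ} : Set Ω) := ofNat_mem _ 3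
  have hκm : κ ∈ acl k ({c.τ} : Set Ω) := div_mem (add_mem (div_mem hDtC hC) (c.pmem 0)) hdm
  have hGL : c.a * c.Da c.g ∈ c.L := mul_mem haL (c.DL _ hgL).2.1
  have hn0 : c.n0 ∈ c.L := c.e4_D0_mem hgL
  have hEL := c.EE_mem
  have hFL := c.FF_mem
  have hD0E : c.D0 c.EE ∈ c.L := c.e4_D0_mem hEL
  have hD0n : c.D0 c.n0 ∈ c.L := c.e4_D0_mem hn0
  have hD0G : c.D0 (c.a * c.Da c.g) ∈ c.L := c.e4_D0_mem hGL
  obtain ⟨-, hDaE, hDbE⟩ := c.DL _ hEL
  have h2L : (2 : Ω) ∈ c.L := hle h2m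
  have h3L : (3 : Ω) ∈ c.L := hle h3m
  have hdL : (c.d : Ω) ∈ c.L := hle hdm
  have hκL : κ ∈ c.L := hle hκm
  have hp0L : c.p 0 ∈ c.L := hle (c.pmem 0)
  have hp2L : c.p 2 ∈ c.L := hle (c.pmem 2)
  have hp3L : c.p 3 ∈ c.L := hle (c.pmem 3)
  have h1L : (1 : Ω) ∈ c.L := one_mem _
  obtain ⟨A0, hA0, A1, hA1, A2, hA2, A3, hA3, A4, hA4, A5, hA5, hcub⟩ :=
    e8c_alg (k := k) c.L (n1 := c.N1) (n2 := c.N2) (x := c.x 3) (N := N) (EE := c.EE) (FF := c.FF)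
      (n0 := c.n0) (G1 := c.a * c.Da c.g) (p0 := c.p 0) (p2 := c.p 2) (p3 := c.p 3) (g := c.g)
      (κ := κ) (s0 := s0) (dd := (c.d : Ω)) (D0E := c.D0 c.EE) (D0n := c.D0 c.n0)
      (D0G := c.D0 (c.a * c.Da c.g)) (aE := c.a * c.Da c.EE) (bE := c.a * c.Db c.EE)
      hNL hEL hFL hn0 hGL hp0L hp2L hp3L hgL hκL hdL hD0E hD0n hD0G (mul_mem haL hDaE)
      (mul_mem haL hDbE) hd hN0 hDag hEE (by
        have hm : c.mu1 / c.a = c.p 0 := by rw [hmu1]; field_simp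
        have hq0 : ∀ i, c.q i = 0 := fun i => by rw [h.cone.q]; rfl
        unfold FF
        rw [hDbg, hD0N, hm, hN3, h2b, h2c, h.cone.p1, hq0, hq0, hq0, hq0]
        have h2a' : c.a * c.Da (c.Da (c.a * c.g)) =
            2 * ((1 / (2 * c.d)) * (2 * N * s0 - (1 - (c.d : Ω)⁻¹) * c.g)) := by
          rw [← h2a]; ring
        have hN' : c.a * (N / ((c.d : Ω) * c.a)) = N / c.d := by field_simp
        linear_combination (c.N2 * c.x 3) * hN' + (c.N2 ^ 2 / 2) * h2a')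
  have hyhm : 2 * (c.d : Ω) * (κ / 2 - c.p 0 / 3) ∈ acl k ({c.τ} : Set Ω) :=
    mul_mem (mul_mem h2m hdm) (sub_mem (div_mem hκm h2m) (div_mem (c.pmem 0) h3m))
  -- places
  have hδ : c.N2 - 2 * (c.d : Ω) * (κ / 2 - c.p 0 / 3) * c.N1 ∈ c.L := by
    refine c.toCtx3.mem_L_of_places fun V hV => ?_
    have hyV : 2 * (c.d : Ω) * (κ / 2 - c.p 0 / 3) ∈ V := hV _ (hle hyhm)
    by_cases hi : ∃ i, c.x i ∉ V
    · obtain ⟨v1, v2, hN1⟩ := c.e8c_inf h hN0 hNL hEE hV hi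
      set u : Ω := (c.N1)⁻¹ with hu
      have huV : u ∈ V := e4_memV v1
      by_cases hr : c.N2 * u ∈ V
      · have h1 : c.N2 - 2 * (c.d : Ω) * (κ / 2 - c.p 0 / 3) * c.N1 =
            A0 * (c.N2 * u) ^ 2 + A1 * (c.N2 * u) + A2 + A3 * (c.N2 * u) * u + A4 * u + A5 * u ^ 2 := by
          have h2 : c.N1 * u = 1 := by rw [hu]; exact mul_inv_cancel₀ hN1
          have h3 : c.N2 - 2 * (c.d : Ω) * (κ / 2 - c.p 0 / 3) * c.N1 =
              (c.N1 ^ 2 * (c.N2 - 2 * (c.d : Ω) * (κ / 2 - c.p 0 / 3) * c.N1)) * u ^ 2 := by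
            rw [hu]; field_simp
          rw [h3, hcub, hu]
          field_simp
        rw [h1]
        exact add_mem (add_mem (add_mem (add_mem (add_mem (mul_mem (hV _ hA0) (pow_mem hr 2))
          (mul_mem (hV _ hA1) hr)) (hV _ hA2)) (mul_mem (mul_mem (hV _ hA3) hr) huV))
          (mul_mem (hV _ hA4) huV)) (mul_mem (hV _ hA5) (pow_mem huV 2))
      · exfalso
        have hN2 : c.N2 ≠ 0 := by
          rintro h0
          rw [h0, zero_mul] at hr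
          exact hr (zero_mem _)
        have hw : V.valuation (c.N2 * u)⁻¹ < 1 := by
          rw [map_inv₀]
          rw [← V.valuation_le_one_iff, not_le] at hr
          exact inv_lt_one_of_one_lt₀ hr
        set w : Ω := (c.N2 * u)⁻¹ with hw'
        have hwV : w ∈ V := e4_memV hw
        have h1 : (1 : Ω) = 2 * (c.d : Ω) * (κ / 2 - c.p 0 / 3) * w + A0 * (c.N2 * u ^ 2) + A1 * u
            + A2 * (w * u) + A3 * (u * u) + A4 * (w * u * u) + A5 * (w * u * u * u) := by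
          have h3 : (1 : Ω) - 2 * (c.d : Ω) * (κ / 2 - c.p 0 / 3) * w =
              (c.N1 ^ 2 * (c.N2 - 2 * (c.d : Ω) * (κ / 2 - c.p 0 / 3) * c.N1)) * (w * u * u * u) := by
            rw [hw', hu]; field_simp
          have h4 : (1 : Ω) = 2 * (c.d : Ω) * (κ / 2 - c.p 0 / 3) * w +
              (c.N1 ^ 2 * (c.N2 - 2 * (c.d : Ω) * (κ / 2 - c.p 0 / 3) * c.N1)) * (w * u * u * u) := by
            rw [← h3]; ring
          rw [hcub] at h4
          refine h4.trans ?_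
          rw [hw', hu]
          field_simp
          ring
        have h2 : V.valuation (1 : Ω) < 1 := by
          rw [h1]
          exact e4_add (e4_add (e4_add (e4_add (e4_add (e4_add (e4_mul hyV hw)
            (e4_mul (hV _ hA0) v2)) (e4_mul (hV _ hA1) v1))
            (e4_mul (hV _ hA2) (e4_mul hwV v1))) (e4_mul (hV _ hA3) (e4_mul huV v1)))
            (e4_mul (hV _ hA4) (e4_mul (mul_mem hwV huV) v1)))
            (e4_mul (hV _ hA5) (e4_mul (mul_mem (mul_mem hwV huV) huV) v1))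
        rw [map_one] at h2
        exact lt_irrefl _ h2
    · push Not at hi
      have h1 : c.N1 ∈ V := sum_mem fun i _ => mul_mem (hV _ (hle (c.U1mem i))) (hi i)
      have h2 : c.N2 ∈ V := sum_mem fun i _ => mul_mem (hV _ (hle (c.U2mem i))) (hi i)
      exact sub_mem h2 (mul_mem hyV h1)
  refine ⟨2 * (c.d : Ω) * (κ / 2 - c.p 0 / 3), hyhm, hδ, ?_, ?_⟩
  · intro hN1L
    obtain ⟨V, hV, hi⟩ := c.toCtx3.exists_infinite
    obtain ⟨v1, -, hN1⟩ := c.e8c_inf h hN0 hNL hEE hV hi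
    have h1 := c.toCtx3.val_L V hV (inv_mem hN1L) (inv_ne_zero hN1)
    rw [h1] at v1
    exact lt_irrefl _ v1
  · refine ⟨(c.EE - c.a * c.Da c.g * (c.N2 - 2 * (c.d : Ω) * (κ / 2 - c.p 0 / 3) * c.N1)) / N,
      (c.n0 - c.a * c.Da c.g * (2 * (c.d : Ω) * (κ / 2 - c.p 0 / 3))) / N,
      div_mem (sub_mem hEL (mul_mem hGL hδ)) hNL,
      div_mem (sub_mem hn0 (mul_mem hGL (hle hyhm))) hNL, ?_⟩
    rw [hEE]
    field_simp
    ring

end FCtx
end Pool.Agent.HDP
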