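import Mathlib
import Pool.Agent.Lib.MP_20906e_al.Defs
import Pool.Agent.Lib.MP_20906e_al.Acl
import Pool.Agent.Lib.MP_20906e_al.Ctx
import Pool.Agent.Lib.MP_20906e_al.CtxN
import Pool.Agent.Lib.MP_20906e_al.DCtx
import Pool.Agent.Lib.MP_20906e_al.Cone
import Pool.Agent.Lib.MP_20906e_al.CaseB
import Pool.Agent.Lib.MP_20906e_al.CP
import Pool.Agent.Lib.MP_20906e_al.Height
import Pool.Agent.Lib.MP_20906e_al.E1a
import Pool.Agent.Lib.MP_20906e_al.E1b
import Pool.Agent.Lib.MP_20906e_al.E8a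
import Pool.Agent.Lib.MP_20906e_al.E8b

/-!
# MP_20906e_al, piece E8d (helper70)

Case B: `P(x), Q(x) ∈ L`, and `N = nt (n·x)` with a constant vector `n`.
-/

set_option autoImplicit false

namespace Pool.Agent.HDP
open MvPolynomial

section Gen

variable {k Ω : Type*} [Field k] [Field Ω] [Algebra k Ω]

/-- substituting polynomials over `K` gives a polynomial over `K` -/
theorem E8d_lift (K : IntermediateField k Ω) {X : Fin 4 → Polynomial Ω}
    (hX : ∀ i, ∃ p : Polynomial K, p.map (algebraMap K Ω) = X i) (F : MvPolynomial (Fin 4) k) :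
    ∃ p : Polynomial K, p.map (algebraMap K Ω) = aeval X F := by
  choose p hp using hX
  refine ⟨aeval p F, ?_⟩
  have h1 := comp_aeval_apply (f := p) (Polynomial.mapAlgHom K.val) F
  have h2 : (fun i => Polynomial.mapAlgHom K.val (p i)) = X := funext hp
  rw [h2] at h1
  exact h1

theorem E8d_eval (X : Fin 4 → Polynomial Ω) (t : Ω) (F : MvPolynomial (Fin 4) k) :
    (aeval X F).eval t = aeval (fun i => (X i).eval t) F := by
  have h1 := comp_aeval_apply (f := X) ((Polynomial.aeval t : Polynomial Ω →ₐ[Ω] Ω).restrictScalars k) F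
  simp only [AlgHom.coe_restrictScalars', Polynomial.coe_aeval_eq_eval] at h1
  exact h1

/-- a polynomial over a relatively algebraically closed field with a value in the field at a point
outside is constant -/
theorem E8d_const {K : IntermediateField k Ω} {t r : Ω} (ht : Transcendental K t) (hr : r ∈ K)
    (p : Polynomial K) (h : (p.map (algebraMap K Ω)).eval t = r) :
    p.map (algebraMap K Ω) = Polynomial.C r := by
  have h1 := transcendental_iff.1 ht (p - Polynomial.C ⟨r, hr⟩) (by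
      rw [map_sub, Polynomial.aeval_C, ← Polynomial.eval_map_algebraMap, h]
      exact sub_self _)
  have h2 : p = Polynomial.C ⟨r, hr⟩ := sub_eq_zero.1 h1
  rw [h2, Polynomial.map_C]
  rfl

/-- values of polynomials over `k` stay in an intermediate field -/
theorem E8d_aeval_mem {σ : Type*} (K : IntermediateField k Ω) {f : σ → Ω} (hf : ∀ i, f i ∈ K)
    (F : MvPolynomial σ k) : aeval f F ∈ K := by
  induction F using MvPolynomial.induction_on with
  | C a => rw [aeval_C]; exact K.algebraMap_mem a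
  | add p q hp hq => rw [map_add]; exact K.add_mem hp hq
  | mul_X p i hp => rw [map_mul, aeval_X]; exact K.mul_mem hp (hf i)

/-- a regular linear system over an intermediate field -/
theorem E8d_solve (K : IntermediateField k Ω) (M : Matrix (Fin 3) (Fin 3) Ω)
    (hM : ∀ i j, M i j ∈ K) (hdet : M.det ≠ 0) (r : Fin 3 → Ω) (hr : ∀ i, r i ∈ K) :
    ∃ s : Fin 3 → Ω, (∀ i, s i ∈ K) ∧ M.mulVec s = r := by
  let M' : Matrix (Fin 3) (Fin 3) K := Matrix.of fun i j => ⟨M i j, hM i j⟩
  let r' : Fin 3 → K := fun i => ⟨r i, hr i⟩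
  have h1 : M = (algebraMap K Ω).mapMatrix M' := rfl
  have h2 : algebraMap K Ω M'.det = M.det := by rw [h1, RingHom.map_det]
  have h3 : M'.det ≠ 0 := by
    intro h; rw [h, map_zero] at h2; exact hdet h2.symm
  have h4 : M'.mulVec (M'⁻¹.mulVec r') = r' := by
    rw [Matrix.mulVec_mulVec, Matrix.mul_nonsing_inv _ (isUnit_iff_ne_zero.2 h3),
      Matrix.one_mulVec]
  refine ⟨fun i => algebraMap K Ω (M'⁻¹.mulVec r' i), fun i => (M'⁻¹.mulVec r' i).2, ?_⟩
  funext i
  have h5 := congrArg (algebraMap K Ω) (congrFun h4 i)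
  rw [RingHom.map_mulVec] at h5
  exact h5

theorem E8d_inj {M : Matrix (Fin 3) (Fin 3) Ω} (hdet : M.det ≠ 0) {s t : Fin 3 → Ω}
    (h : M.mulVec s = M.mulVec t) : s = t := by
  have h1 : M.mulVec (s - t) = 0 := by rw [Matrix.mulVec_sub, h, sub_self]
  exact sub_eq_zero.1 (Matrix.eq_zero_of_mulVec_eq_zero hdet h1)

/-- at most two independent coordinates if no three of the four are independent -/
theorem E8d_rank {ζ : Fin 4 → Ω} (h : ∀ i : Fin 4, ¬ AlgebraicIndependent k
      (fun j : {j : Fin 4 // j ≠ i} => ζ j)) {y : Fin 4 → Ω}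
    (hy : ∀ i, y i ∈ acl k (Set.range ζ)) (j : Fin 4) :
    ¬ AlgebraicIndependent k (fun i : {i : Fin 4 // i ≠ j} => y i.1) := by
  classical
  intro hj
  set Mt := AlgebraicIndependent.matroid k Ω with hMt
  have h1 : Mt.Indep (Set.range fun i : {i : Fin 4 // i ≠ j} => y i.1) :=
    AlgebraicIndependent.matroid_indep_iff.2 hj.to_subtype_range
  have h2 : 3 ≤ (Set.range fun i : {i : Fin 4 // i ≠ j} => y i.1).encard := by
    refine le_trans ?_ hj.injective.encard_range
    simp
  have h3 : (Set.range fun i : {i : Fin 4 // i ≠ j} => y i.1) ⊆ Mt.closure (Set.range ζ) := by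
    rintro _ ⟨i, rfl⟩
    exact mem_acl_iff_closure.1 (hy i)
  have h4 : (3 : ℕ∞) ≤ Mt.eRk (Set.range ζ) := by
    rw [← Mt.eRk_closure_eq]
    exact h2.trans (h1.encard_le_eRk_of_subset h3)
  obtain ⟨I, hI, hInd, hI3⟩ := Matroid.le_eRk_iff.1 h4
  -- indices of the elements of `I`
  choose σ hσ using hI
  have hIfin : I.Finite := Set.finite_of_encard_eq_coe (k := 3) (by rw [hI3]; rfl)
  have : Fintype I := hIfin.fintype
  let T : Finset (Fin 4) := Finset.univ.image (fun a : I => σ a.2)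
  have hTcard : T.card = 3 := by
    rw [Finset.card_image_of_injective]
    · have h5 : (I.encard : ℕ∞) = Fintype.card I := by
        rw [Set.encard_eq_coe_toFinset_card, Set.toFinset_card]
      rw [hI3] at h5
      rw [Finset.card_univ]
      exact_mod_cast h5.symm
    · intro a b hab
      have ha := hσ a.2
      have hb := hσ b.2
      simp only at hab
      rw [hab, hb] at ha
      exact Subtype.ext ha.symm
  obtain ⟨i, hi⟩ : ∃ i, i ∉ T := by
    by_contra hc
    push Not at hc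
    have : T = Finset.univ := Finset.eq_univ_of_forall hc
    rw [this, Finset.card_univ, Fintype.card_fin] at hTcard
    omega
  have hT : ∀ l, l ≠ i → l ∈ T := by
    intro l hl
    by_contra hc
    have h6 : (insert i (insert l T)).card ≤ 4 := by
      simpa using Finset.card_le_univ (insert i (insert l T))
    rw [Finset.card_insert_of_notMem, Finset.card_insert_of_notMem hc, hTcard] at h6
    · omega
    · rw [Finset.mem_insert, not_or]; exact ⟨hl.symm, hi⟩
  apply h i
  have hmem : ∀ l : {l : Fin 4 // l ≠ i}, ∃ a : I, σ a.2 = l.1 := by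
    intro l
    have := hT l.1 l.2
    simpa [T] using this
  have hval : ∀ (l : {l : Fin 4 // l ≠ i}) (a : I), σ a.2 = l.1 → ζ l.1 = a := by
    intro l a ha
    rw [← ha]; exact hσ a.2
  have hinj : Function.Injective (fun l : {l : Fin 4 // l ≠ i} => ζ l.1) := by
    intro l l' hll
    obtain ⟨a, ha⟩ := hmem l
    obtain ⟨a', ha'⟩ := hmem l'
    have e1 := hval l a ha
    have e2 := hval l' a' ha'
    simp only at hll
    have e3 : a = a' := Subtype.ext (by rw [← e1, ← e2]; exact hll)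
    subst e3
    exact Subtype.ext (ha.symm.trans ha')
  apply AlgebraicIndependent.of_subtype_range hinj
  have hsub : (Set.range fun l : {l : Fin 4 // l ≠ i} => ζ l.1) ⊆ I := by
    rintro _ ⟨l, rfl⟩
    obtain ⟨a, ha⟩ := hmem l
    show ζ l.1 ∈ I
    rw [hval l a ha]; exact a.2
  exact AlgebraicIndependent.matroid_indep_iff.1 (hInd.subset hsub)

/-- some vector orthogonal to a small space of linear forms does not vanish on the first three
coordinates -/
theorem E8d_orth (Λ : Submodule k (Fin 4 → k))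
    (hΛ : ∀ (m : ℕ) (l : Fin m → Fin 4 → k), LinearIndependent k l → (∀ i, l i ∈ Λ) → m ≤ 2) :
    ∃ w : Fin 4 → k, (∃ i : Fin 3, w (Fin.castSucc i) ≠ 0) ∧ ∀ l ∈ Λ, ∑ i, l i * w i = 0 := by
  classical
  set m := Module.finrank k Λ with hm
  let b := Module.finBasis k Λ
  have hli : LinearIndependent k (fun i : Fin m => ((b i : Λ) : Fin 4 → k)) := by
    have := b.linearIndependent
    exact this.map' Λ.subtype (Submodule.ker_subtype _)
  have hm2 : m ≤ 2 := hΛ m _ hli (fun i => (b i).2)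
  let Φ : (Fin 4 → k) →ₗ[k] (Fin m → k) :=
    LinearMap.pi fun j => ∑ i, ((b j : Λ) : Fin 4 → k) i • LinearMap.proj i
  have hΦ : ∀ w j, Φ w j = ∑ i, ((b j : Λ) : Fin 4 → k) i * w i := by
    intro w j
    simp [Φ]
  have h1 := LinearMap.finrank_range_add_finrank_ker Φ
  have h2 : Module.finrank k (LinearMap.range Φ) ≤ m := by
    refine (Submodule.finrank_le _).trans ?_
    simp
  have h3 : Module.finrank k (Fin 4 → k) = 4 := by simp
  have h4 : 2 ≤ Module.finrank k (LinearMap.ker Φ) := by omega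
  have h5 : ¬ LinearMap.ker Φ ≤ Submodule.span k {(Pi.single 3 1 : Fin 4 → k)} := by
    intro hc
    have h6 := Submodule.finrank_mono hc
    have h7 := finrank_span_singleton (K := k) (v := (Pi.single 3 1 : Fin 4 → k)) (by
      intro h; have := congrFun h 3; simp at this)
    omega
  obtain ⟨w, hw, hw'⟩ := SetLike.not_le_iff_exists.1 h5
  refine ⟨w, ?_, ?_⟩
  · by_contra hc
    push Not at hc
    apply hw'
    rw [Submodule.mem_span_singleton]
    refine ⟨w 3, ?_⟩
    funext i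
    refine Fin.lastCases ?_ (fun i => ?_) i
    · simp [Fin.last]
    · rw [hc i]
      have : (Fin.castSucc i : Fin 4) ≠ 3 := by
        intro h; exact absurd h (Fin.castSucc_lt_last i).ne
      simp [this]
  · intro l hl
    have h6 : ∀ j, ∑ i, ((b j : Λ) : Fin 4 → k) i * w i = 0 := by
      intro j
      rw [← hΦ]
      rw [LinearMap.mem_ker] at hw
      rw [hw]; rfl
    have h7 : l ∈ Submodule.span k (Set.range fun i : Fin m => ((b i : Λ) : Fin 4 → k)) := by
      have h8 := b.span_eq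
      have h9 : (⟨l, hl⟩ : Λ) ∈ Submodule.span k (Set.range b) := by rw [h8]; trivial
      have h10 := Submodule.mem_map_of_mem (f := Λ.subtype) h9
      rw [Submodule.map_span, ← Set.range_comp] at h10
      exact h10
    clear hl
    induction h7 using Submodule.span_induction with
    | mem x hx =>
      obtain ⟨j, rfl⟩ := hx
      exact h6 j
    | zero => simp
    | add x y _ _ hx hy => simp only [Pi.add_apply, add_mul, Finset.sum_add_distrib, hx, hy, add_zero]
    | smul a x _ hx => simp only [Pi.smul_apply, smul_eq_mul, mul_assoc, ← Finset.mul_sum, hx, mul_zero]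

/-- an irreducible form dividing a linear form is proportional to it -/
theorem E8d_linear {n : Fin 3 → k} (hn : n ≠ 0) {f : MvPolynomial (Fin 3) k} (hf : Irreducible f)
    (hd : f ∣ lf n) : ∃ e : k, e ≠ 0 ∧ ∀ i, pderiv i f = C (e * n i) := by
  obtain ⟨h, hh⟩ := hd
  have hp : ∀ i, pderiv i (lf n) = C (n i) := by
    intro i
    unfold lf
    rw [map_sum, Finset.sum_eq_single i]
    · simp
    · intro b _ hb
      simp only [Derivation.leibniz, pderiv_C, smul_zero, add_zero, pderiv_X_of_ne hb]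
    · intro hc; exact absurd (Finset.mem_univ _) hc
  have hG0 : lf n ≠ 0 := by
    intro hc
    apply hn
    funext i
    have := hp i
    rw [hc, map_zero] at this
    exact (C_injective _ _ (by rw [Pi.zero_apply, map_zero]; exact this)).symm
  have hf0 : f ≠ 0 := hf.ne_zero
  have hh0 : h ≠ 0 := by rintro rfl; rw [mul_zero] at hh; exact hG0 hh
  have hdeg : (lf n).totalDegree ≤ 1 := by
    unfold lf
    refine (totalDegree_finsetSum _ _).trans (Finset.sup_le fun i _ => ?_)
    refine (totalDegree_mul _ _).trans ?_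
    simp
  have h1 : f.totalDegree + h.totalDegree ≤ 1 := by
    rw [← totalDegree_mul_of_isDomain hf0 hh0, ← hh]; exact hdeg
  have h2 : f.totalDegree ≠ 0 := by
    intro hc
    rw [totalDegree_eq_zero_iff_eq_C] at hc
    apply hf.not_isUnit
    rw [hc]
    apply IsUnit.map
    rw [isUnit_iff_ne_zero]
    intro h3
    rw [h3, map_zero] at hc
    exact hf0 hc
  have h3 : h.totalDegree = 0 := by omega
  rw [totalDegree_eq_zero_iff_eq_C] at h3
  set e := coeff 0 h with he
  have he0 : e ≠ 0 := by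
    intro hc; rw [hc, map_zero] at h3; exact hh0 h3
  refine ⟨e⁻¹, inv_ne_zero he0, fun i => ?_⟩
  have h4 : f = C e⁻¹ * lf n := by
    rw [hh, h3, mul_left_comm, ← C_mul, inv_mul_cancel₀ he0, C_1, mul_one]
  rw [h4, Derivation.leibniz, pderiv_C, hp, smul_eq_mul, smul_zero, add_zero, ← C_mul]

end Gen


variable {k Ω : Type*} [Field k] [IsAlgClosed k] [CharZero k] [Field Ω] [IsAlgClosed Ω] [Algebra k Ω]

namespace FCtx
variable (c : FCtx k Ω)

omit [IsAlgClosed k] [CharZero k] [IsAlgClosed Ω] in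
theorem E8d_A_le : acl k ({c.τ} : Set Ω) ≤ c.L := by
  rw [Ctx3.L, acl_le_iff]
  rintro _ rfl
  exact c.τL

omit [IsAlgClosed k] [CharZero k] [IsAlgClosed Ω] in
theorem E8d_U13 (h3 : c.U 3 = 0) : c.U1 3 = 0 ∧ c.U2 3 = 0 := by
  have h1 := c.DU c.Dt 3
  rw [h3, map_zero, c.dual.1, mul_one] at h1
  have h2 := c.DU1 c.Dt 3
  rw [← h1, map_zero, c.dual.1, mul_one] at h2
  exact ⟨h1.symm, h2.symm⟩

/-- the matrix of the first three coordinates of `U, U1, U2` -/
noncomputable def E8d_M : Matrix (Fin 3) (Fin 3) Ω :=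
  Matrix.of ![fun j => c.U (Fin.castSucc j), fun j => c.U1 (Fin.castSucc j),
    fun j => c.U2 (Fin.castSucc j)]

omit [IsAlgClosed k] [CharZero k] [IsAlgClosed Ω] in
theorem E8d_M_mulVec (v : Fin 3 → Ω) : c.E8d_M.mulVec v =
    ![∑ j, c.U (Fin.castSucc j) * v j, ∑ j, c.U1 (Fin.castSucc j) * v j,
      ∑ j, c.U2 (Fin.castSucc j) * v j] := by
  funext i
  fin_cases i <;> rfl

omit [IsAlgClosed k] [CharZero k] [IsAlgClosed Ω] in
theorem E8d_M_mem (i j : Fin 3) : c.E8d_M i j ∈ acl k ({c.τ} : Set Ω) := by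
  fin_cases i
  · exact c.Umem _
  · exact c.U1mem _
  · exact c.U2mem _

omit [IsAlgClosed k] [CharZero k] [IsAlgClosed Ω] in
theorem E8d_det (h3 : c.U 3 = 0) : c.E8d_M.det ≠ 0 := by
  intro hd
  obtain ⟨v, hv, hv0⟩ := Matrix.exists_vecMul_eq_zero_iff.2 hd
  obtain ⟨h13, h23⟩ := c.E8d_U13 h3
  have hf := Fintype.linearIndependent_iff.1 c.frame ![v 0, v 1, v 2, 0] (by
    funext j
    rw [Fin.sum_univ_four]
    refine Fin.lastCases ?_ (fun j => ?_) j
    · simp [Fin.last, h3, h13, h23]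
    · have h1 := congrFun hv0 j
      rw [Matrix.vecMul, dotProduct, Fin.sum_univ_three] at h1
      simp only [Matrix.cons_val_zero, Matrix.cons_val_one, Matrix.cons_val, Pi.add_apply,
        Pi.smul_apply, smul_eq_mul, zero_mul, add_zero, Pi.zero_apply]
      exact h1)
  apply hv
  funext i
  fin_cases i
  · exact hf 0
  · exact hf 1
  · exact hf 2

omit [IsAlgClosed k] [CharZero k] [IsAlgClosed Ω] in
theorem E8d_sum4 {V : Fin 4 → Ω} (h3 : V 3 = 0) (w : Fin 4 → Ω) :
    ∑ j, V (Fin.castSucc j) * w (Fin.castSucc j) = ∑ i, V i * w i := by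
  rw [Fin.sum_univ_castSucc (n := 3)]
  have : V (Fin.last 3) = 0 := h3
  rw [this, zero_mul, add_zero]

omit [CharZero k] [IsAlgClosed Ω] in
/-- `U 0, U 1, U 2` are linearly independent over `k` -/
theorem E8d_Uli (h3 : c.U 3 = 0) {v : Fin 3 → k}
    (hv : ∑ j, c.U (Fin.castSucc j) * algebraMap k Ω (v j) = 0) : v = 0 := by
  by_contra hne
  refine c.span3 (Fin.snoc v 0) (Pi.single 3 1) ?_ ⟨?_, ?_⟩
  · rw [LinearIndependent.pair_iff]
    intro s t hst
    have h1 : ∀ j : Fin 3, s * v j = 0 := by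
      intro j
      have := congrFun hst (Fin.castSucc j)
      have h5 : (Fin.castSucc j : Fin 4) ≠ 3 := (Fin.castSucc_lt_last j).ne
      simpa [Pi.single_eq_of_ne h5] using this
    have hs : s = 0 := by
      by_contra hs
      exact hne (funext fun j => (mul_eq_zero.1 (h1 j)).resolve_left hs)
    refine ⟨hs, ?_⟩
    have := congrFun hst 3
    simpa [hs] using this
  · rw [Fin.sum_univ_castSucc]
    have h4 : c.U (Fin.last 3) = 0 := h3
    rw [h4, zero_mul, add_zero]
    simpa using hv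
  · rw [Fin.sum_univ_castSucc]
    have h4 : c.U (Fin.last 3) = 0 := h3
    rw [h4, zero_mul, add_zero]
    refine Finset.sum_eq_zero fun j _ => ?_
    rw [Pi.single_eq_of_ne, map_zero, mul_zero]
    exact (Fin.castSucc_lt_last j).ne

/-- the parametrisation of `x 0, x 1, x 2` by `N1` -/
theorem E8d_param {N C s0 yh c0 c1 : Ω} (h : c.CaseBData N C s0 yh c0 c1) :
    ∃ q z : Fin 3 → Ω, (∀ i, q i ∈ acl k ({c.τ} : Set Ω)) ∧ (∀ i, z i ∈ c.L) ∧
      (∑ j, c.U (Fin.castSucc j) * q j = 0) ∧ (∑ j, c.U1 (Fin.castSucc j) * q j = 1) ∧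
      ∀ i, c.x (Fin.castSucc i) = z i + q i * c.N1 := by
  have h3 := h.caseB.cone.U3
  obtain ⟨h13, h23⟩ := c.E8d_U13 h3
  have hdet := c.E8d_det h3
  obtain ⟨q, hq, hq'⟩ := E8d_solve (acl k ({c.τ} : Set Ω)) c.E8d_M c.E8d_M_mem hdet
    ![0, 1, yh] (by
      intro i
      fin_cases i
      · exact zero_mem _
      · exact one_mem _
      · exact h.yhm)
  obtain ⟨z, hz, hz'⟩ := E8d_solve c.L c.E8d_M (fun i j => c.E8d_A_le (c.E8d_M_mem i j)) hdet
    ![c.g, 0, c.N2 - yh * c.N1] (by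
      intro i
      fin_cases i
      · exact c.toDCtx.g_mem
      · exact zero_mem _
      · exact h.c2L)
  have hM := c.E8d_M_mulVec q
  rw [hq'] at hM
  refine ⟨q, z, hq, hz, ?_, ?_, ?_⟩
  · exact (congrFun hM 0).symm
  · exact (congrFun hM 1).symm
  · have h1 : c.E8d_M.mulVec (fun j => c.x (Fin.castSucc j)) = ![c.g, c.N1, c.N2] := by
      rw [E8d_M_mulVec, E8d_sum4 h3, E8d_sum4 h13, E8d_sum4 h23]
      rfl
    have h2 : c.E8d_M.mulVec (z + c.N1 • q) = ![c.g, c.N1, c.N2] := by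
      rw [Matrix.mulVec_add, Matrix.mulVec_smul, hq', hz']
      funext i
      fin_cases i
      · simp
      · simp
      · simp; ring
    have h4 := E8d_inj hdet (h1.trans h2.symm)
    intro i
    have h5 := congrFun h4 i
    simp only [Pi.add_apply, Pi.smul_apply, smul_eq_mul] at h5
    rw [h5]; ring


/-- `x` as a polynomial in `N1` over `L` -/
noncomputable def E8d_X (q z : Fin 3 → Ω) (c0 c1 om : Ω) : Fin 4 → Polynomial Ω :=
  ![Polynomial.C (z 0) + Polynomial.C (q 0) * Polynomial.X,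
    Polynomial.C (z 1) + Polynomial.C (q 1) * Polynomial.X,
    Polynomial.C (z 2) + Polynomial.C (q 2) * Polynomial.X,
    Polynomial.C c0 + Polynomial.C c1 * Polynomial.X + Polynomial.C om * Polynomial.X ^ 2]

omit [IsAlgClosed k] [CharZero k] [IsAlgClosed Ω] in
theorem E8d_X_lift (K : IntermediateField k Ω) {q z : Fin 3 → Ω} {c0 c1 om : Ω} (hq : ∀ i, q i ∈ K)
    (hz : ∀ i, z i ∈ K) (h0 : c0 ∈ K) (h1 : c1 ∈ K) (ho : om ∈ K) (i : Fin 4) :
    ∃ p : Polynomial K, p.map (algebraMap K Ω) = E8d_X q z c0 c1 om i := by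
  fin_cases i
  · exact ⟨Polynomial.C ⟨z 0, hz 0⟩ + Polynomial.C ⟨q 0, hq 0⟩ * Polynomial.X, by
      simp only [Polynomial.map_add, Polynomial.map_mul, Polynomial.map_C, Polynomial.map_X]; rfl⟩
  · exact ⟨Polynomial.C ⟨z 1, hz 1⟩ + Polynomial.C ⟨q 1, hq 1⟩ * Polynomial.X, by
      simp only [Polynomial.map_add, Polynomial.map_mul, Polynomial.map_C, Polynomial.map_X]; rfl⟩
  · exact ⟨Polynomial.C ⟨z 2, hz 2⟩ + Polynomial.C ⟨q 2, hq 2⟩ * Polynomial.X, by
      simp only [Polynomial.map_add, Polynomial.map_mul, Polynomial.map_C, Polynomial.map_X]; rfl⟩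
  · exact ⟨Polynomial.C ⟨c0, h0⟩ + Polynomial.C ⟨c1, h1⟩ * Polynomial.X +
      Polynomial.C ⟨om, ho⟩ * Polynomial.X ^ 2, by
      simp only [Polynomial.map_add, Polynomial.map_mul, Polynomial.map_C, Polynomial.map_X,
        Polynomial.map_pow]; rfl⟩

theorem E8d_om_mem {N C s0 yh c0 c1 : Ω} (h : c.CaseBData N C s0 yh c0 c1) :
    -1 / (2 * N) ∈ c.L := by
  refine div_mem (neg_mem (one_mem _)) (mul_mem ?_ h.NL)
  exact ofNat_mem _ 2

theorem E8d_X_eval {N C s0 yh c0 c1 : Ω} (h : c.CaseBData N C s0 yh c0 c1) {q z : Fin 3 → Ω}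
    (hx : ∀ i, c.x (Fin.castSucc i) = z i + q i * c.N1) (i : Fin 4) :
    (E8d_X q z c0 c1 (-1 / (2 * N)) i).eval c.N1 = c.x i := by
  fin_cases i
  · simp only [E8d_X, Fin.zero_eta, Matrix.cons_val_zero, Polynomial.eval_add, Polynomial.eval_C,
      Polynomial.eval_mul, Polynomial.eval_X]
    exact (hx 0).symm
  · simp only [E8d_X, Fin.mk_one, Matrix.cons_val_one, Matrix.cons_val_zero, Polynomial.eval_add,
      Polynomial.eval_C, Polynomial.eval_mul, Polynomial.eval_X]
    exact (hx 1).symm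
  · simp only [E8d_X, Fin.reduceFinMk, Matrix.cons_val, Polynomial.eval_add, Polynomial.eval_C,
      Polynomial.eval_mul, Polynomial.eval_X]
    exact (hx 2).symm
  · simp only [E8d_X, Fin.reduceFinMk, Matrix.cons_val, Polynomial.eval_add, Polynomial.eval_C,
      Polynomial.eval_mul, Polynomial.eval_X, Polynomial.eval_pow]
    rw [h.x3]; ring

theorem E8d_main {N C s0 yh c0 c1 : Ω} (h : c.CaseBData N C s0 yh c0 c1) {q z : Fin 3 → Ω}
    (hq : ∀ i, q i ∈ acl k ({c.τ} : Set Ω)) (hz : ∀ i, z i ∈ c.L)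
    (hx : ∀ i, c.x (Fin.castSucc i) = z i + q i * c.N1) :
    (aeval c.x c.P ∈ c.L ∧ aeval c.x c.Q ∈ c.L) ∧
      ∀ F : MvPolynomial (Fin 4) k, aeval c.x F ∈ c.L →
        aeval (E8d_X q z c0 c1 (-1 / (2 * N))) F = Polynomial.C (aeval c.x F) := by
  have htr : Transcendental c.L c.N1 := transcendental_iff_notMem_acl.2 h.N1L
  set X := E8d_X q z c0 c1 (-1 / (2 * N)) with hX
  have hlift : ∀ F : MvPolynomial (Fin 4) k, ∃ p : Polynomial c.L,
      p.map (algebraMap c.L Ω) = aeval X F := fun F =>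
    E8d_lift c.L (E8d_X_lift c.L (fun i => c.E8d_A_le (hq i)) hz h.c0L h.c1L (c.E8d_om_mem h)) F
  have hev : ∀ F : MvPolynomial (Fin 4) k, (aeval X F).eval c.N1 = aeval c.x F := by
    intro F
    rw [E8d_eval]
    congr 2
    funext i
    exact c.E8d_X_eval h hx i
  have hconst : ∀ F : MvPolynomial (Fin 4) k, aeval c.x F ∈ c.L →
      aeval X F = Polynomial.C (aeval c.x F) := by
    intro F hF
    obtain ⟨p, hp⟩ := hlift F
    rw [← hp]
    exact E8d_const htr hF p (by rw [hp]; exact hev F)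
  refine ⟨?_, hconst⟩
  obtain ⟨pP, hpP⟩ := hlift c.P
  obtain ⟨pQ, hpQ⟩ := hlift c.Q
  have hτ : aeval c.x c.P = c.τ * aeval c.x c.Q := by
    rw [c.hτ, div_mul_cancel₀ _ c.Q0]
  have hPQ : aeval X c.P = Polynomial.C c.τ * aeval X c.Q := by
    have h1 := E8d_const htr (zero_mem _) (pP - Polynomial.C ⟨c.τ, c.τL⟩ * pQ) (by
      rw [Polynomial.map_sub, Polynomial.map_mul, Polynomial.map_C, hpP, hpQ,
        Polynomial.eval_sub, Polynomial.eval_mul, Polynomial.eval_C, hev, hev, hτ]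
      exact sub_self _)
    rw [Polynomial.map_sub, Polynomial.map_mul, Polynomial.map_C, hpP, hpQ, Polynomial.C_0] at h1
    exact sub_eq_zero.1 h1
  have hQc : (aeval X c.Q).degree = 0 ∨ (aeval X c.Q).degree ≠ 0 := em _
  rcases hQc with hQc | hQc
  · rw [Polynomial.eq_C_of_degree_eq_zero hQc] at hpQ
    have h1 : aeval c.x c.Q = (aeval X c.Q).coeff 0 := by
      rw [← hev, Polynomial.eq_C_of_degree_eq_zero hQc, Polynomial.eval_C, Polynomial.coeff_C_zero]
    have h2 : aeval c.x c.Q ∈ c.L := by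
      rw [h1]
      have h3 := congrArg (fun p => Polynomial.coeff p 0) hpQ
      simp only [Polynomial.coeff_map, Polynomial.coeff_C_zero] at h3
      rw [← h3]
      exact (pQ.coeff 0).2
    exact ⟨by rw [hτ]; exact mul_mem c.τL h2, h2⟩
  · exfalso
    obtain ⟨t0, ht0, hroot⟩ := exists_root_acl (k := k) (aeval X c.Q) hQc (by
      intro i
      rw [← hpQ, Polynomial.coeff_map]
      exact (pQ.coeff i).2)
    obtain ⟨ζ, hζ⟩ : ∃ ζ : Fin 4 → Ω, ζ = fun i => (X i).eval t0 := ⟨_, rfl⟩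
    have hevt : ∀ F : MvPolynomial (Fin 4) k, (aeval X F).eval t0 = aeval ζ F := by
      intro F
      rw [E8d_eval, hζ]
    have hQ0 : aeval ζ c.Q = 0 := by rw [← hevt]; exact hroot
    have hP0 : aeval ζ c.P = 0 := by
      rw [← hevt, hPQ, Polynomial.eval_mul, hroot, mul_zero]
    have hy : ∀ i, c.y i ∈ acl k (Set.range ζ) := by
      intro i
      have h1 : aeval c.x (c.H i) ∈ c.L := by
        rw [← c.hy]
        exact subset_acl (k := k) (Set.range c.y) ⟨i, rfl⟩
      have h2 := hconst (c.H i) h1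
      have h3 : aeval ζ (c.H i) = c.y i := by
        rw [← hevt, h2, Polynomial.eval_C, c.hy]
      rw [← h3]
      exact E8d_aeval_mem _ (fun i => subset_acl (k := k) (Set.range ζ) ⟨i, rfl⟩) _
    obtain ⟨j, hj⟩ := c.tr3
    exact E8d_rank (fun i => coprime_pair_zero c.PQ hP0 hQ0 i) hy j hj

theorem caseB_PQ {N C s0 yh c0 c1 : Ω} (h : c.CaseBData N C s0 yh c0 c1) :
    aeval c.x c.P ∈ c.L ∧ aeval c.x c.Q ∈ c.L := by
  obtain ⟨q, z, hq, hz, -, -, hx⟩ := c.E8d_param h
  exact (c.E8d_main h hq hz hx).1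


theorem E8d_a : c.a ∉ acl k ({c.τ} : Set Ω) := by
  intro ha
  have h := (algInd_iff_notMem (k := k) ![c.τ, c.a, c.bb]).1 c.indep 1
  apply h
  show c.a ∈ _
  refine acl_mono ?_ ha
  intro z hz
  rw [Set.mem_singleton_iff] at hz
  exact ⟨0, by simp, by simp [hz]⟩

/-- the space of linear forms in an ideal -/
noncomputable def E8d_lin (I : Ideal (MvPolynomial (Fin 4) k)) : Submodule k (Fin 4 → k) where
  carrier := {l | lf l ∈ I}
  zero_mem' := by
    show lf (0 : Fin 4 → k) ∈ I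
    simp [lf]
  add_mem' := by
    intro a b ha hb
    show lf (a + b) ∈ I
    have : lf (a + b) = lf a + lf b := by
      simp [lf, add_mul, Finset.sum_add_distrib]
    rw [this]
    exact I.add_mem ha hb
  smul_mem' := by
    intro r a ha
    show lf (r • a) ∈ I
    have : lf (r • a) = C r * lf a := by
      simp [lf, mul_assoc, Finset.mul_sum]
    rw [this]
    exact I.mul_mem_left _ ha

/-- a linear combination of the first three `x`-s over `acl{τ}` which is a multiple of `N` has a constant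
vector orthogonal to its coefficients -/
theorem E8d_vec {N C s0 yh c0 c1 : Ω} (h : c.CaseBData N C s0 yh c0 c1) {lam : Fin 3 → Ω}
    (hl : ∀ i, lam i ∈ acl k ({c.τ} : Set Ω)) {r : Ω} (hr : r ∈ acl k ({c.τ} : Set Ω))
    (hS : ∑ i, lam i * c.x (Fin.castSucc i) = r * N) :
    ∃ v : Fin 3 → k, v ≠ 0 ∧ ∑ i, algebraMap k Ω (v i) * lam i = 0 := by
  have hU3 := h.caseB.cone.U3
  obtain ⟨h13, h23⟩ := c.E8d_U13 hU3
  obtain ⟨I, hI, hIp, hP, hQI⟩ := exists_minimalPrime_pair c.he c.Ph c.Qh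
  obtain ⟨V, hVx, hVτ, hVI, hV4, h5⟩ := c.toDCtx.barg_lin I hIp hP hQI
  have h7 := hV4 3 (fun j => c.U (Fin.castSucc j)) (fun j => c.H (Fin.castSucc j))
    (fun j => c.Umem _) (by
      rw [Fintype.linearIndependent_iff]
      intro g hg i
      have h8 : g = 0 := by
        apply c.E8d_Uli hU3
        rw [← hg]
        refine Finset.sum_congr rfl fun j _ => ?_
        rw [Algebra.smul_def, mul_comm]
      rw [h8]; rfl) (by
      have h8 : ∑ j : Fin 3, c.U (Fin.castSucc j) * aeval c.x (c.H (Fin.castSucc j)) = 0 := by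
        have h9 := c.Uy
        rw [← E8d_sum4 hU3] at h9
        rw [← h9]
        refine Finset.sum_congr rfl fun j _ => ?_
        rw [c.hy]
      rw [h8, map_zero]
      exact zero_lt_one)
  have hy : ∀ j : Fin 3, V.valuation (c.y (Fin.castSucc j)) < 1 := by
    intro j
    rw [c.hy]; exact (hVI _).2 (h7 j)
  have ha : V.valuation c.a < 1 := by
    rw [← c.U2y, ← E8d_sum4 h23]
    refine Valuation.map_sum_lt _ one_ne_zero fun j _ => ?_
    rw [map_mul]
    have h8 : V.valuation (c.U2 (Fin.castSucc j)) ≤ 1 := (V.valuation_le_one_iff _).2 (hVτ _ (c.U2mem _))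
    exact lt_of_le_of_lt (mul_le_mul_left h8 _) (by rw [one_mul]; exact hy j)
  have hN : V.valuation N < 1 := by
    have h8 : V.valuation (N ^ c.d) < 1 := by
      rw [h.NC, map_mul]
      have h9 : V.valuation C ≤ 1 := (V.valuation_le_one_iff _).2 (hVτ _ h.Cm)
      exact lt_of_le_of_lt (mul_le_mul_left h9 _) (by rw [one_mul]; exact ha)
    rw [map_pow] at h8
    by_contra hno
    push Not at hno
    exact absurd h8 (not_lt.2 (one_le_pow₀ hno))
  have hlt : V.valuation (∑ i, (Fin.snoc lam 0 : Fin 4 → Ω) i * c.x i) < 1 := by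
    have h8 : ∑ i, (Fin.snoc lam 0 : Fin 4 → Ω) i * c.x i = r * N := by
      rw [Fin.sum_univ_castSucc, ← hS]
      have h9 : (Fin.snoc lam 0 : Fin 4 → Ω) (Fin.last 3) = 0 := Fin.snoc_last _ _
      rw [h9, zero_mul, add_zero]
      refine Finset.sum_congr rfl fun j _ => ?_
      rw [Fin.snoc_castSucc (α := fun _ => Ω)]
    rw [h8, map_mul]
    have h9 : V.valuation r ≤ 1 := (V.valuation_le_one_iff _).2 (hVτ _ hr)
    exact lt_of_le_of_lt (mul_le_mul_left h9 _) (by rw [one_mul]; exact hN)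
  obtain ⟨w, ⟨i, hi⟩, hw⟩ := E8d_orth (E8d_lin I) (fun m l hl hlI =>
    lf_le_two_of_minimalPrime hI hl hlI)
  refine ⟨fun j => w (Fin.castSucc j), fun hc => hi (congrFun hc i), ?_⟩
  have h8 := h5 (Fin.snoc lam 0) (by
    intro i
    refine Fin.lastCases ?_ (fun j => ?_) i
    · rw [Fin.snoc_last (α := fun _ => Ω)]; exact zero_mem _
    · rw [Fin.snoc_castSucc (α := fun _ => Ω)]; exact hl j) hlt w (fun l hlI => hw l hlI)
  rw [Fin.sum_univ_castSucc] at h8
  have h9 : (Fin.snoc lam 0 : Fin 4 → Ω) (Fin.last 3) = 0 := Fin.snoc_last _ _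
  rw [h9, zero_mul, add_zero] at h8
  rw [← h8]
  refine Finset.sum_congr rfl fun j _ => ?_
  rw [Fin.snoc_castSucc (α := fun _ => Ω), mul_comm]

theorem caseB_n {N C s0 yh c0 c1 : Ω} (h : c.CaseBData N C s0 yh c0 c1) :
    ∃ n : Fin 3 → k, n ≠ 0 ∧ ∃ nt ∈ acl k ({c.τ} : Set Ω),
      N = nt * ∑ i, algebraMap k Ω (n i) * c.x (Fin.castSucc i) := by
  have hCZ : CharZero Ω := charZero_of_injective_algebraMap (algebraMap k Ω).injective
  have hU3 := h.caseB.cone.U3
  obtain ⟨q, z, hq, hz, hUq, hU1q, hx⟩ := c.E8d_param h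
  obtain ⟨⟨hPL, hQL⟩, hconst⟩ := c.E8d_main h hq hz hx
  -- `q` is not proportional to a constant vector
  have hnc : ∀ v : Fin 3 → k, v ≠ 0 → ¬ ∃ e : Ω, ∀ i, q i = e * algebraMap k Ω (v i) := by
    rintro v hv ⟨e, he⟩
    apply hv
    apply c.E8d_Uli hU3
    have h1 : e * ∑ j, c.U (Fin.castSucc j) * algebraMap k Ω (v j) = 0 := by
      rw [Finset.mul_sum, ← hUq]
      refine Finset.sum_congr rfl fun j _ => ?_
      rw [he j]; ring
    refine (mul_eq_zero.1 h1).resolve_left ?_
    rintro rfl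
    have : ∑ j, c.U1 (Fin.castSucc j) * q j = 0 := Finset.sum_eq_zero fun j _ => by
      rw [he j]; ring
    rw [this] at hU1q
    exact zero_ne_one hU1q
  have hq0 : q ≠ 0 := by
    rintro rfl
    simp at hU1q
  obtain ⟨f, δ, hfh, hfi, hf0, hfmin, hl0, hql, hDl⟩ :=
    exists_curve_eq c.τk ⟨c.a, c.E8d_a⟩ hq hnc hq0
  obtain ⟨lam, hlam⟩ : ∃ lam : Fin 3 → Ω, lam = fun i => aeval q (pderiv i f) := ⟨_, rfl⟩
  have hlamm : ∀ i, lam i ∈ acl k ({c.τ} : Set Ω) := by
    intro i
    rw [hlam]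
    exact E8d_aeval_mem _ hq _
  have hN0 := h.N0
  have hom : -1 / (2 * N) ≠ 0 := by
    rw [div_ne_zero_iff]
    exact ⟨neg_ne_zero.2 one_ne_zero, mul_ne_zero two_ne_zero hN0⟩
  have hMacl : ∀ w : Ω, IsAlgebraic (acl k ({c.τ} : Set Ω)) w → w ∈ acl k ({c.τ} : Set Ω) :=
    fun w hw => mem_acl_of_isAlgebraic hw
  have halt := t_expansion (acl k ({c.τ} : Set Ω)) hMacl hq hfh hfi hf0 hfmin (z := z) (c0 := c0) (c1 := c1)
    hom c.he c.PQ c.Ph c.Qh ⟨_, hconst c.P hPL⟩ ⟨_, hconst c.Q hQL⟩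
  have hSz : ∑ i, lam i * c.x (Fin.castSucc i) = ∑ i, z i * lam i := by
    have h1 : ∑ i, lam i * c.x (Fin.castSucc i) = ∑ i, z i * lam i + c.N1 * ∑ i, q i * lam i := by
      rw [Finset.mul_sum, ← Finset.sum_add_distrib]
      refine Finset.sum_congr rfl fun i _ => ?_
      rw [hx i]; ring
    have h2 : ∑ i, q i * lam i = 0 := by rw [hlam]; exact hql
    rw [h1, h2, mul_zero, add_zero]
  have halt' : ∃ r ∈ acl k ({c.τ} : Set Ω), ∑ i, lam i * c.x (Fin.castSucc i) = r * N := by
    rw [hSz, hlam]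
    rcases halt with h1 | h1
    · exact ⟨0, zero_mem _, by rw [zero_mul]; exact h1⟩
    · refine ⟨-2 * ((∑ i, z i * aeval q (pderiv i f)) * (-1 / (2 * N))), mul_mem ?_ h1, ?_⟩
      · exact neg_mem (ofNat_mem _ 2)
      · field_simp
  obtain ⟨r, hr, hS⟩ := halt'
  obtain ⟨v, hv, hvl⟩ := c.E8d_vec h hlamm hr hS
  obtain ⟨n, hn, hnq⟩ := curve_line hq c.Dt (by rw [c.dual.1]; exact one_ne_zero)
    (lam := lam) (by
      rintro rfl
      obtain ⟨i, hi⟩ := hl0
      exact hi (congrFun hlam i).symm) (by rw [hlam]; exact hql) (by rw [hlam]; exact hDl c.Dt)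
    hnc hq0 hv hvl
  have hlfq : aeval q (lf n) = 0 := by
    unfold lf
    rw [map_sum, ← hnq]
    refine Finset.sum_congr rfl fun i _ => ?_
    rw [map_mul, aeval_C, aeval_X]
  have hlfh : (lf n).IsHomogeneous 1 := by
    unfold lf
    refine IsHomogeneous.sum _ _ _ fun i _ => ?_
    have := (isHomogeneous_C (Fin 3) (n i)).mul (isHomogeneous_X k i)
    simpa using this
  obtain ⟨e, he, hpd⟩ := E8d_linear hn hfi (hfmin _ 1 hlfh hlfq)
  have hlam2 : ∀ i, lam i = algebraMap k Ω e * algebraMap k Ω (n i) := by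
    intro i
    rw [hlam]
    simp only [hpd i, aeval_C, map_mul]
  have hnx : ∑ i, algebraMap k Ω (n i) * c.x (Fin.castSucc i) ≠ 0 := by
    intro hc
    have h1 := c.tb.1.linearIndependent
    rw [Fintype.linearIndependent_iff] at h1
    have h2 := h1 (Fin.snoc n 0) (by
      rw [Fin.sum_univ_castSucc]
      have h9 : (Fin.snoc n 0 : Fin 4 → k) (Fin.last 3) = 0 := Fin.snoc_last _ _
      rw [h9, zero_smul, add_zero, ← hc]
      refine Finset.sum_congr rfl fun j _ => ?_
      rw [Fin.snoc_castSucc (α := fun _ => k), Algebra.smul_def])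
    apply hn
    funext i
    have h3 := h2 (Fin.castSucc i)
    rwa [Fin.snoc_castSucc (α := fun _ => k)] at h3
  have hSn : algebraMap k Ω e * ∑ i, algebraMap k Ω (n i) * c.x (Fin.castSucc i) = r * N := by
    rw [← hS, Finset.mul_sum]
    refine Finset.sum_congr rfl fun i _ => ?_
    rw [hlam2 i]; ring
  have he' : algebraMap k Ω e ≠ 0 := by
    rw [Ne, map_eq_zero]; exact he
  have hr0 : r ≠ 0 := by
    rintro rfl
    rw [zero_mul] at hSn
    exact mul_ne_zero he' hnx hSn
  refine ⟨n, hn, algebraMap k Ω e / r, div_mem ((acl k ({c.τ} : Set Ω)).algebraMap_mem e) hr, ?_⟩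
  rw [div_mul_eq_mul_div, hSn, mul_div_assoc, mul_comm r, div_mul_cancel₀ _ hr0]

end FCtx
end Pool.Agent.HDP
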