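import Mathlib
import Pool.Agent.Lib.MP_20906e_al.Defs
import Pool.Agent.Lib.MP_20906e_al.Acl
import Pool.Agent.Lib.MP_20906e_al.Der
import Pool.Agent.Lib.MP_20906e_al.B2a
import Pool.Agent.Lib.MP_20906e_al.B2b
import Pool.Agent.Lib.MP_20906e_al.B5
import Pool.Agent.Lib.MP_20906e_al.Cone
import Pool.Agent.Lib.MP_20906e_al.CaseB
import Pool.Agent.Lib.MP_20906e_al.E1a
import Pool.Agent.Lib.MP_20906e_al.E4

/-!
# MP_20906e_al, piece E8e: normal form of case B (helper15)
-/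

set_option linter.unusedSectionVars false
set_option linter.unusedVariables false

namespace Pool.Agent.HDP
open MvPolynomial

variable {k Ω : Type*} [Field k] [IsAlgClosed k] [CharZero k] [Field Ω] [IsAlgClosed Ω] [Algebra k Ω]

/-- an invertible block matrix with first row `(n, 0)` and fourth row and column `e_3` -/
private theorem e8e_matrix {n : Fin 3 → k} (hn : n ≠ 0) :
    ∃ T T' : Matrix (Fin 4) (Fin 4) k, T' * T = 1 ∧ T * T' = 1 ∧ T 0 = ![n 0, n 1, n 2, 0] ∧
      T 3 = ![0, 0, 0, 1] ∧ (∀ i, i ≠ 3 → T i 3 = 0) := by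
  have key : ∀ T : Matrix (Fin 4) (Fin 4) k, T.det ≠ 0 → T 0 = ![n 0, n 1, n 2, 0] →
      T 3 = ![0, 0, 0, 1] → (∀ i, i ≠ 3 → T i 3 = 0) →
      ∃ T T' : Matrix (Fin 4) (Fin 4) k, T' * T = 1 ∧ T * T' = 1 ∧ T 0 = ![n 0, n 1, n 2, 0] ∧
      T 3 = ![0, 0, 0, 1] ∧ (∀ i, i ≠ 3 → T i 3 = 0) := by
    intro T hT h1 h2 h3
    have hu : IsUnit T.det := isUnit_iff_ne_zero.2 hT
    exact ⟨T, T⁻¹, Matrix.nonsing_inv_mul _ hu, Matrix.mul_nonsing_inv _ hu, h1, h2, h3⟩
  by_cases h0 : n 0 = 0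
  · by_cases h1 : n 1 = 0
    · have h2 : n 2 ≠ 0 := by
        intro h2
        apply hn
        funext i
        fin_cases i
        · exact h0
        · exact h1
        · exact h2
      refine key !![n 0, n 1, n 2, 0; 1, 0, 0, 0; 0, 1, 0, 0; 0, 0, 0, 1] ?_ rfl rfl ?_
      · rw [Matrix.det_succ_row_zero]
        simp [Fin.sum_univ_four, Matrix.det_fin_three, Matrix.submatrix, Fin.succAbove, h0, h1, h2]
      · intro i hi
        fin_cases i <;> simp_all
    · refine key !![n 0, n 1, n 2, 0; 1, 0, 0, 0; 0, 0, 1, 0; 0, 0, 0, 1] ?_ rfl rfl ?_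
      · rw [Matrix.det_succ_row_zero]
        simp [Fin.sum_univ_four, Matrix.det_fin_three, Matrix.submatrix, Fin.succAbove, h0, h1]
      · intro i hi
        fin_cases i <;> simp_all
  · refine key !![n 0, n 1, n 2, 0; 0, 1, 0, 0; 0, 0, 1, 0; 0, 0, 0, 1] ?_ rfl rfl ?_
    · rw [Matrix.det_succ_row_zero]
      simp [Fin.sum_univ_four, Matrix.det_fin_three, Matrix.submatrix, Fin.succAbove, h0]
    · intro i hi
      fin_cases i <;> simp_all

/-- `(U T') · (T z) = U · z` -/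
private theorem e8e_pair {T T' : Matrix (Fin 4) (Fin 4) k} (hT : T' * T = 1) (U z : Fin 4 → Ω) :
    ∑ i, (∑ j, U j * algebraMap k Ω (T' j i)) * Ctx3.lin T z i = ∑ j, U j * z j := by
  have h1 : ∀ j, z j = ∑ i, algebraMap k Ω (T' j i) * Ctx3.lin T z i := by
    intro j
    have := congrFun (Ctx3.lin_lin hT z) j
    rw [← this]
    simp only [Ctx3.lin]
  conv_rhs => enter [2, j]; rw [h1 j]
  simp only [Finset.mul_sum, Finset.sum_mul]
  rw [Finset.sum_comm]
  exact Finset.sum_congr rfl fun j _ => Finset.sum_congr rfl fun i _ => by ring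

private theorem e8e_mul (D : Derivation k Ω Ω) (a b : Ω) : D (a * b) = D a * b + a * D b := by
  rw [Derivation.leibniz, smul_eq_mul, smul_eq_mul]; ring

/-- in a cone, `y_i / a ∈ acl{τ}` for `i < 3` -/
private theorem e8e_ya (c : FCtx k Ω) (h : c.Cone) (i : Fin 4) (hi : i ≠ 3) :
    c.y i / c.a ∈ acl k ({c.τ} : Set Ω) := by
  apply mem_acl_of_forall_der'
  intro D hD
  have hτ : D c.τ = 0 := hD _ rfl
  have hsum : ∀ U : Fin 4 → Ω, (∀ i, D (U i) = 0) →
      ∑ i, U i * D (c.y i / c.a) = D ((∑ i, U i * c.y i) / c.a) := by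
    intro U hU
    rw [Finset.sum_div, map_sum]
    refine Finset.sum_congr rfl fun i _ => ?_
    rw [mul_div_assoc, e8e_mul, hU, zero_mul, zero_add]
  have h0 : ∑ i, c.U i * D (c.y i / c.a) = 0 := by
    rw [hsum _ (fun i => by rw [c.DU, hτ, mul_zero]), c.Uy, zero_div, map_zero]
  have h1 : ∑ i, c.U1 i * D (c.y i / c.a) = 0 := by
    rw [hsum _ (fun i => by rw [c.DU1, hτ, mul_zero]), c.U1y, zero_div, map_zero]
  have h2 : ∑ i, c.U2 i * D (c.y i / c.a) = 0 := by
    rw [hsum _ (fun i => by rw [c.DU2, hτ, mul_zero]), c.U2y, div_self c.a0, Derivation.map_one_eq_zero]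
  obtain ⟨e0, e1, e2⟩ := c.e4_frame0 h h0 h1 h2
  fin_cases i
  · exact e0
  · exact e1
  · exact e2
  · exact absurd rfl hi

/-- from `N = nt (n·x)` to the normal form -/
theorem caseB_normal (c : FCtx k Ω) {N C s0 yh c0 c1 : Ω} (h : c.CaseBData N C s0 yh c0 c1)
    {n : Fin 3 → k} (hn : n ≠ 0) {nt : Ω} (hnt : nt ∈ acl k ({c.τ} : Set Ω))
    (hN : N = nt * ∑ i, algebraMap k Ω (n i) * c.x (Fin.castSucc i)) :
    ∃ (c' : Ctx3 k Ω) (τ : Ω) (η : Fin 3 → Ω) (V0 V1 Om d1 d0 : Ω), c'.EndData τ η V0 V1 Om d1 d0 := by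
  have hCZ : CharZero Ω := c.e4_charZero
  have h20 : (2 : Ω) ≠ 0 := two_ne_zero
  have hcone := h.caseB.cone
  have hN0 := h.N0
  have ha0 := c.a0
  have hC0 := h.C0
  obtain ⟨u3, u13, u23⟩ := c.e4_cone3 hcone
  obtain ⟨T, T', hT, hT', hT0, hT3, hTi⟩ := e8e_matrix hn
  obtain ⟨c', hd, hx, hy, hW, -, -, -, hE, -⟩ := c.toCtx3.exists_lin T T' hT hT'
  have hL : ∀ f, f ∈ c'.L ↔ f ∈ c.L := by
    intro f; rw [Ctx3.mem_L_iff, Ctx3.mem_L_iff, hW]
  -- the coordinates
  have X0 : c'.x 0 = ∑ i, algebraMap k Ω (n i) * c.x (Fin.castSucc i) := by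
    rw [hx, Ctx3.lin, hT0]
    simp [Fin.sum_univ_four, Fin.sum_univ_three]
  have X3 : c'.x 3 = c.x 3 := by
    rw [hx, Ctx3.lin, hT3]
    simp [Fin.sum_univ_four]
  rw [← X0] at hN
  have hnt0 : nt ≠ 0 := by rintro rfl; exact hN0 (by rw [hN, zero_mul])
  have hx00 : c'.x 0 ≠ 0 := by
    intro h0; exact hN0 (by rw [hN, h0, mul_zero])
  have hle := c.e4_τ_le
  -- the transformed covectors
  set U : Fin 4 → Ω := fun i => ∑ j, c.U j * algebraMap k Ω (T' j i) with hU
  set U1 : Fin 4 → Ω := fun i => ∑ j, c.U1 j * algebraMap k Ω (T' j i) with hU1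
  have hT'3 : ∀ j, j ≠ 3 → T' j 3 = 0 := by
    intro j hj
    -- `T' e_3 = T' (T e_3) = e_3`
    have h1 := congrFun (congrFun hT j) 3
    rw [Matrix.mul_apply, Fin.sum_univ_four, hTi 0 (by decide), hTi 1 (by decide),
      hTi 2 (by decide), hT3, Matrix.one_apply_ne hj] at h1
    simpa using h1
  have hUi3 : ∀ V : Fin 4 → Ω, V 3 = 0 → ∑ j, V j * algebraMap k Ω (T' j 3) = 0 := by
    intro V hV
    rw [Fin.sum_univ_four, hT'3 0 (by decide), hT'3 1 (by decide), hT'3 2 (by decide), hV]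
    simp
  have hU3 : U 3 = 0 := hUi3 _ u3
  have hU13 : U1 3 = 0 := hUi3 _ u13
  have hUm : ∀ i, U i ∈ acl k ({c.τ} : Set Ω) := fun i =>
    sum_mem fun j _ => mul_mem (c.Umem j) (IntermediateField.algebraMap_mem _ _)
  have hU1m : ∀ i, U1 i ∈ acl k ({c.τ} : Set Ω) := fun i =>
    sum_mem fun j _ => mul_mem (c.U1mem j) (IntermediateField.algebraMap_mem _ _)
  have hDU : ∀ (D : Derivation k Ω Ω) i, D (U i) = U1 i * D c.τ := by
    intro D i
    rw [hU, hU1]
    simp only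
    rw [map_sum, Finset.sum_mul]
    refine Finset.sum_congr rfl fun j _ => ?_
    rw [e8e_mul, c.DU, Derivation.map_algebraMap]; ring
  have hU2 : U 2 ≠ 0 := by
    intro h0
    -- `T' e_2` is proportional to `e_3`
    have hli : LinearIndependent k ![(fun j => T' j 2 : Fin 4 → k), Pi.single 3 1] := by
      rw [LinearIndependent.pair_iff]
      intro s t hst
      -- apply `T`
      have h1 : ∑ j, T 2 j * (s * T' j 2 + t * (Pi.single 3 1 : Fin 4 → k) j) = 0 := by
        refine Finset.sum_eq_zero fun j _ => ?_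
        have := congrFun hst j
        simp only [Pi.add_apply, Pi.smul_apply, smul_eq_mul, Pi.zero_apply] at this
        rw [this, mul_zero]
      have h2 : ∑ j, T 2 j * (s * T' j 2 + t * (Pi.single 3 1 : Fin 4 → k) j) =
          s * (T * T') 2 2 + t * T 2 3 := by
        rw [Matrix.mul_apply, Finset.mul_sum]
        rw [Finset.sum_congr rfl (g := fun j => s * (T 2 j * T' j 2) +
          t * (T 2 j * (Pi.single 3 1 : Fin 4 → k) j)) (fun j _ => by ring), Finset.sum_add_distrib]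
        congr 1
        rw [← Finset.mul_sum]
        congr 1
        rw [Finset.sum_eq_single 3]
        · simp
        · intro i _ hi; rw [Pi.single_eq_of_ne hi, mul_zero]
        · simp
      rw [h2, hT', Matrix.one_apply_eq, hTi 2 (by decide), mul_one, mul_zero, add_zero] at h1
      subst h1
      have h3 := congrFun hst 3
      simp only [Pi.add_apply, Pi.smul_apply, smul_eq_mul, Pi.zero_apply, Pi.single_eq_same,
        zero_mul, zero_add, mul_one] at h3
      exact ⟨rfl, h3⟩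
    refine c.span3 _ _ hli ⟨h0, ?_⟩
    rw [Finset.sum_eq_single 3]
    · rw [u3, zero_mul]
    · intro i _ hi; rw [Pi.single_eq_of_ne hi, map_zero, mul_zero]
    · simp
  -- the contact sums in the new coordinates
  have hg : U 0 * c'.x 0 + U 1 * c'.x 1 + U 2 * c'.x 2 = c.g := by
    have h1 := e8e_pair hT c.U c.x
    rw [← hx, Fin.sum_univ_four] at h1
    change U 0 * _ + U 1 * _ + U 2 * _ + U 3 * _ = _ at h1
    rw [hU3, zero_mul, add_zero] at h1
    rw [h1]; rfl
  have hN1 : U1 0 * c'.x 0 + U1 1 * c'.x 1 + U1 2 * c'.x 2 = c.N1 := by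
    have h1 := e8e_pair hT c.U1 c.x
    rw [← hx, Fin.sum_univ_four] at h1
    change U1 0 * _ + U1 1 * _ + U1 2 * _ + U1 3 * _ = _ at h1
    rw [hU13, zero_mul, add_zero] at h1
    rw [h1]; rfl
  have hUy : U 0 * c'.y 0 + U 1 * c'.y 1 + U 2 * c'.y 2 = 0 := by
    have h1 := e8e_pair hT c.U c.y
    rw [← hy, Fin.sum_univ_four] at h1
    change U 0 * _ + U 1 * _ + U 2 * _ + U 3 * _ = _ at h1
    rw [hU3, zero_mul, add_zero, c.Uy] at h1
    exact h1
  have hU1y : U1 0 * c'.y 0 + U1 1 * c'.y 1 + U1 2 * c'.y 2 = 0 := by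
    have h1 := e8e_pair hT c.U1 c.y
    rw [← hy, Fin.sum_univ_four] at h1
    change U1 0 * _ + U1 1 * _ + U1 2 * _ + U1 3 * _ = _ at h1
    rw [hU13, zero_mul, add_zero, c.U1y] at h1
    exact h1
  -- the data
  set V0 := U 0 / U 2 with hV0
  set V1 := U 1 / U 2 with hV1
  have hV0m : V0 ∈ acl k ({c.τ} : Set Ω) := div_mem (hUm 0) (hUm 2)
  have hV1m : V1 ∈ acl k ({c.τ} : Set Ω) := div_mem (hUm 1) (hUm 2)
  have hV0e : V0 * U 2 = U 0 := div_mul_cancel₀ _ hU2
  have hV1e : V1 * U 2 = U 1 := div_mul_cancel₀ _ hU2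
  set g' := V0 * c'.x 0 + V1 * c'.x 1 + c'.x 2 with hg'
  have hg'e : g' * U 2 = c.g := by
    rw [hg', ← hg]; linear_combination c'.x 0 * hV0e + c'.x 1 * hV1e
  have hg'L : g' ∈ c.L := by
    have : g' = c.g / U 2 := by rw [← hg'e]; field_simp
    rw [this]
    exact div_mem c.toDCtx.g_mem (hle (hUm 2))
  have hx0L : c'.x 0 ∈ c.L := by
    have : c'.x 0 = N / nt := by rw [hN]; field_simp
    rw [this]
    exact div_mem h.NL (hle hnt)
  set al := U1 1 - V1 * U1 2 with hal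
  set be := (U1 0 - V0 * U1 2) * c'.x 0 + U1 2 * g' with hbe
  have halm : al ∈ acl k ({c.τ} : Set Ω) := sub_mem (hU1m 1) (mul_mem hV1m (hU1m 2))
  have hbeL : be ∈ c.L := add_mem (mul_mem (sub_mem (hle (hU1m 0)) (mul_mem (hle hV0m) (hle (hU1m 2))))
    hx0L) (mul_mem (hle (hU1m 2)) hg'L)
  have hN1e : c.N1 = al * c'.x 1 + be := by
    rw [← hN1, hal, hbe, hg']; ring
  have hal0 : al ≠ 0 := by
    intro h0
    rw [h0, zero_mul, zero_add] at hN1e
    exact h.N1L (by rw [hN1e]; exact hbeL)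
  have hx1L : c'.x 1 ∉ c.L := by
    intro h1
    exact h.N1L (by rw [hN1e]; exact add_mem (mul_mem (hle halm) h1) hbeL)
  -- the curve
  set η : Fin 3 → Ω := fun i => nt ^ c.d / C * (c'.y (Fin.castSucc i) / c.a) with hη
  have hηm : ∀ i, η i ∈ acl k ({c.τ} : Set Ω) := by
    intro i
    refine mul_mem (div_mem (pow_mem hnt _) h.Cm) ?_
    have h1 : c'.y (Fin.castSucc i) / c.a =
        ∑ j, algebraMap k Ω (T (Fin.castSucc i) j) * (c.y j / c.a) := by
      rw [hy, Ctx3.lin, Finset.sum_div]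
      exact Finset.sum_congr rfl fun j _ => by ring
    rw [h1]
    refine sum_mem fun j _ => ?_
    by_cases hj : j = 3
    · subst hj
      rw [hTi _ (by fin_cases i <;> decide), map_zero, zero_mul]
      exact zero_mem _
    · exact mul_mem (IntermediateField.algebraMap_mem _ _) (e8e_ya c hcone j hj)
  have hae : c.a = nt ^ c.d * c'.x 0 ^ c.d / C := by
    rw [← mul_pow, ← hN, h.NC]; field_simp
  have hye : ∀ i : Fin 3, c'.y (Fin.castSucc i) = c'.x 0 ^ c.d * η i := by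
    intro i
    have h1 : c'.x 0 ^ c.d * nt ^ c.d = C * c.a := by
      rw [hae]; field_simp
    rw [hη]
    simp only
    field_simp
    linear_combination (- c'.y (Fin.castSucc i)) * h1
  have hxd : c'.x 0 ^ c.d ≠ 0 := pow_ne_zero _ hx00
  have hy0 : c'.y 0 = c'.x 0 ^ c.d * η 0 := hye 0
  have hy1 : c'.y 1 = c'.x 0 ^ c.d * η 1 := hye 1
  have hy2 : c'.y 2 = c'.x 0 ^ c.d * η 2 := hye 2
  have hUη : U 0 * η 0 + U 1 * η 1 + U 2 * η 2 = 0 := by
    have h1 : c'.x 0 ^ c.d * (U 0 * η 0 + U 1 * η 1 + U 2 * η 2) = 0 := by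
      rw [hy0, hy1, hy2] at hUy
      linear_combination hUy
    exact (mul_eq_zero.1 h1).resolve_left hxd
  have hU1η : U1 0 * η 0 + U1 1 * η 1 + U1 2 * η 2 = 0 := by
    have h1 : c'.x 0 ^ c.d * (U1 0 * η 0 + U1 1 * η 1 + U1 2 * η 2) = 0 := by
      rw [hy0, hy1, hy2] at hU1y
      linear_combination hU1y
    exact (mul_eq_zero.1 h1).resolve_left hxd
  have hVη : V0 * η 0 + V1 * η 1 + η 2 = 0 := by
    have h1 : U 2 * (V0 * η 0 + V1 * η 1 + η 2) = 0 := by
      linear_combination hUη + η 0 * hV0e + η 1 * hV1e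
    exact (mul_eq_zero.1 h1).resolve_left hU2
  have hNL := h.NL
  refine ⟨c', c.τ, η, V0, V1, - al ^ 2 / (2 * N), c1 * al - al * be / N,
    c0 + c1 * be - be ^ 2 / (2 * N), ?_⟩
  refine ⟨(hL _).2 c.τL, c.τk, by rw [hE]; exact c.Eτ, hηm, ?_, hV0m, hV1m, (hL _).2 hg'L, hVη, ?_,
    (hL _).2 hx0L, fun h1 => hx1L ((hL _).1 h1), ?_, (hL _).2 ?_, ?_, ?_, (hL _).2 ?_, (hL _).2 ?_, ?_⟩
  · intro i; rw [hd]; exact hye i
  · intro D
    have e0 : D V0 * U 2 = (U1 0 - V0 * U1 2) * D c.τ := by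
      have := congrArg D hV0e
      rw [e8e_mul, hDU, hDU] at this
      linear_combination this
    have e1 : D V1 * U 2 = (U1 1 - V1 * U1 2) * D c.τ := by
      have := congrArg D hV1e
      rw [e8e_mul, hDU, hDU] at this
      linear_combination this
    have h1 : U 2 * (D V0 * η 0 + D V1 * η 1) = 0 := by
      linear_combination η 0 * e0 + η 1 * e1 + D c.τ * hU1η - U1 2 * D c.τ * hVη
    exact (mul_eq_zero.1 h1).resolve_left hU2
  · -- algebraic independence
    apply c.toCtx3.L_algInd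
    set K := acl k (Set.range ![c'.x 0, c.τ, V0 * c'.x 0 + V1 * c'.x 1 + c'.x 2]) with hK
    have m0 : c'.x 0 ∈ K := subset_acl _ ⟨0, rfl⟩
    have m1 : c.τ ∈ K := subset_acl _ ⟨1, rfl⟩
    have m2 : g' ∈ K := subset_acl _ ⟨2, rfl⟩
    have mle : acl k ({c.τ} : Set Ω) ≤ K := by
      rw [hK, acl_le_iff]
      rintro _ rfl
      exact m1
    have ma : c.a ∈ K := by
      rw [hae]
      exact div_mem (mul_mem (pow_mem (mle hnt) _) (pow_mem m0 _)) (mle h.Cm)
    have mN : N ∈ K := by rw [hN]; exact mul_mem (mle hnt) m0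
    have mg : c.g ∈ K := by rw [← hg'e]; exact mul_mem m2 (mle (hUm 2))
    have mb : c.bb ∈ K := by
      have h1 : c.bb = c.a * (c.g / N - s0) := by
        rw [h.gN]; field_simp; ring
      rw [h1]
      exact mul_mem ma (sub_mem (div_mem mg mN) (mle h.s0m))
    intro i
    by_cases hi : i = 3
    · subst hi
      have h1 : c.y 3 = c.bb := by rw [← c.By, c.e4_Bb hcone]
      rw [h1]; exact mb
    · have h1 : c.y i = c.y i / c.a * c.a := by field_simp
      rw [h1]
      exact mul_mem (mle (e8e_ya c hcone i hi)) ma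
  · exact div_mem (neg_mem (pow_mem (hle halm) _)) (mul_mem (by
      have : (2 : Ω) = ((2 : ℕ) : Ω) := by norm_num
      rw [this]; exact natCast_mem _ _) hNL)
  · exact div_ne_zero (neg_ne_zero.2 (pow_ne_zero _ hal0)) (mul_ne_zero h20 hN0)
  · have h1 : c'.x 0 * (- al ^ 2 / (2 * N)) = - al ^ 2 / (2 * nt) := by
      rw [hN]; field_simp
    rw [h1]
    exact div_mem (neg_mem (pow_mem halm _)) (mul_mem (by
      have : (2 : Ω) = ((2 : ℕ) : Ω) := by norm_num
      rw [this]; exact natCast_mem _ _) hnt)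
  · exact sub_mem (mul_mem h.c1L (hle halm)) (div_mem (mul_mem (hle halm) hbeL) hNL)
  · refine sub_mem (add_mem h.c0L (mul_mem h.c1L hbeL)) (div_mem (pow_mem hbeL _) (mul_mem ?_ hNL))
    have : (2 : Ω) = ((2 : ℕ) : Ω) := by norm_num
    rw [this]; exact natCast_mem _ _
  · rw [X3, h.x3, hN1e]
    field_simp
    ring

end Pool.Agent.HDP
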