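import Mathlib
import Pool.Agent.Lib.MP_20906e_al.Defs
import Pool.Agent.Lib.MP_20906e_al.Ctx
import Pool.Agent.Lib.MP_20906e_al.CtxN
import Pool.Agent.Lib.MP_20906e_al.Acl
import Pool.Agent.Lib.MP_20906e_al.Der
import Pool.Agent.Lib.MP_20906e_al.B2a
import Pool.Agent.Lib.MP_20906e_al.B2b
import Pool.Agent.Lib.MP_20906e_al.B3
import Pool.Agent.Lib.MP_20906e_al.Setup

/-!
# MP_20906e_al, piece N13, part a: the contact functions of a quadric in normal form (helper10)
-/

set_option linter.unusedSectionVars false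

namespace Pool.Agent.HDP
open MvPolynomial

namespace Ctx3
variable {k Ω : Type*} [Field k] [IsAlgClosed k] [CharZero k] [Field Ω] [IsAlgClosed Ω] [Algebra k Ω]
  (c : Ctx3 k Ω)

/-- the polar form of `X0 X3 - X1 X2` -/
def n13q (v w : Fin 4 → Ω) : Ω := v 0 * w 3 + v 3 * w 0 - v 1 * w 2 - v 2 * w 1

theorem n13q_symm (v w : Fin 4 → Ω) : n13q v w = n13q w v := by
  unfold n13q; ring

theorem n13q_D (D : Derivation k Ω Ω) (v w : Fin 4 → Ω) :
    D (n13q v w) = n13q (fun i => D (v i)) w + n13q v (fun i => D (w i)) := by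
  unfold n13q
  simp only [map_sub, map_add, Derivation.leibniz, smul_eq_mul]
  ring

/-- the quadratic relation in normal form -/
theorem n13_R (hq : c.y 0 * c.y 3 = c.y 1 * c.y 2) :
    ∃ κ : k, κ ≠ 0 ∧ c.R = C κ * (X 0 * X 3 - X 1 * X 2) := by
  set Q : MvPolynomial (Fin 4) k := X 0 * X 3 - X 1 * X 2 with hQ
  have hQh : Q.IsHomogeneous 2 :=
    ((isHomogeneous_X k 0).mul (isHomogeneous_X k 3)).sub
      ((isHomogeneous_X k 1).mul (isHomogeneous_X k 2))
  have hQ0 : Q ≠ 0 := by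
    intro h
    have := congrArg (aeval (fun i : Fin 4 => if i = 0 ∨ i = 3 then (1 : k) else 0)) h
    simp [hQ] at this
  have hQy : aeval c.y Q = 0 := by
    simp [hQ, hq]
  obtain ⟨P, hP⟩ := c.Rmin Q hQy
  have h0 : c.R * P ≠ 0 := by rw [← hP]; exact hQ0
  obtain ⟨a, b, hab, hRa, hPb⟩ := hom_of_mul (by rw [← hP]; exact hQh) h0
  have hR0 : c.R ≠ 0 := left_ne_zero_of_mul h0
  have hP0 : P ≠ 0 := right_ne_zero_of_mul h0
  have har : a = c.r := hRa.inj_right c.Rhom hR0
  have hr := c.hr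
  have hb0 : b = 0 := by omega
  subst hb0
  have hPC : P = C (P.coeff 0) := by
    have := hPb.totalDegree hP0
    exact totalDegree_eq_zero_iff_eq_C.1 this
  set p := P.coeff 0 with hp
  have hp0 : p ≠ 0 := by
    rintro h
    rw [h, C_0] at hPC
    exact hP0 hPC
  refine ⟨p⁻¹, inv_ne_zero hp0, ?_⟩
  rw [hP, hPC, mul_comm c.R, ← mul_assoc, ← C_mul, inv_mul_cancel₀ hp0, C_1, one_mul]

theorem n13_u (hq : c.y 0 * c.y 3 = c.y 1 * c.y 2) :
    ∃ κ : Ω, κ ≠ 0 ∧ c.u 0 = κ * c.y 3 ∧ c.u 1 = -(κ * c.y 2) ∧ c.u 2 = -(κ * c.y 1) ∧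
      c.u 3 = κ * c.y 0 := by
  obtain ⟨κ, hκ, hR⟩ := c.n13_R hq
  refine ⟨algebraMap k Ω κ, (map_ne_zero _).2 hκ, ?_, ?_, ?_, ?_⟩ <;>
  · unfold u
    rw [hR, pderiv_C_mul, map_sub]
    simp [pderiv_mul, pderiv_X, Pi.single_apply]

theorem n13_qD (hq : c.y 0 * c.y 3 = c.y 1 * c.y 2) (D : Derivation k Ω Ω) :
    n13q c.y (fun i => D (c.y i)) = 0 := by
  have h := congrArg D hq
  simp only [Derivation.leibniz, smul_eq_mul] at h
  unfold n13q
  linear_combination h

theorem n13_y0 : c.y 0 ≠ 0 := by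
  intro h
  have := c.lin_indep_y (fun i => if i = 0 then 1 else 0) (by
    rw [Finset.sum_eq_single 0]
    · simp [h]
    · intro b _ hb; simp [hb]
    · simp)
  have := congrFun this 0
  simp at this

/-- gradient: derivations attached to the coordinates `y 0, y 1, y 2` of `L` -/
theorem n13_grad (hq : c.y 0 * c.y 3 = c.y 1 * c.y 2) :
    ∃ P : Fin 4 → Derivation k Ω Ω, (∀ i, ∀ g ∈ c.L, P i g ∈ c.L) ∧
      (∀ D : Derivation k Ω Ω, ∀ g ∈ c.L, D g = ∑ i, D (c.y i) * P i g) ∧
      (∀ i j, ∀ g ∈ c.L, P i (P j g) = P j (P i g)) := by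
  obtain ⟨κ, hκ, hu0, hu1, hu2, hu3⟩ := c.n13_u hq
  have hy0 := c.n13_y0
  have hu3' : c.u 3 ≠ 0 := by rw [hu3]; exact mul_ne_zero hκ hy0
  have hex : ∀ i : Fin 4, ∃ D : Derivation k Ω Ω,
      (∀ l, D (c.y l) = if i = 3 then 0 else if l = 3 then -(c.u i / c.u 3) else
        if i = l then 1 else 0) ∧ ∀ f ∈ c.L, D f ∈ c.L := by
    intro i
    obtain ⟨D, hD1, hD2⟩ := c.exists_der_y (fun l => if i = 3 then 0 else if l = 3 then
      -(c.u i / c.u 3) else if i = l then 1 else 0) (by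
      fin_cases i <;> simp [Fin.sum_univ_four] <;> field_simp <;> ring)
    refine ⟨D, hD1, hD2 ?_⟩
    intro l
    have h3 : -(c.u i / c.u 3) ∈ c.L := neg_mem (div_mem (c.u_mem i) (c.u_mem 3))
    split_ifs
    · exact zero_mem _
    · exact h3
    · exact one_mem _
    · exact zero_mem _
  choose P hP1 hP2 using hex
  have hext : ∀ D D' : Derivation k Ω Ω, (∀ i, i ≠ 3 → D (c.y i) = D' (c.y i)) →
      ∀ f ∈ c.L, D f = D' f := by
    intro D D' h
    apply c.der_eq_on_L
    intro i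
    by_cases hi : i = 3
    · subst hi
      have e1 := c.u_D D
      have e2 := c.u_D D'
      rw [Fin.sum_univ_four] at e1 e2
      rw [h 0 (by decide), h 1 (by decide), h 2 (by decide)] at e1
      have e3 : c.u 3 * D (c.y 3) = c.u 3 * D' (c.y 3) := by linear_combination e1 - e2
      exact mul_left_cancel₀ hu3' e3
    · exact h i hi
  refine ⟨P, fun i g hg => hP2 i g hg, ?_, ?_⟩
  · intro D g hg
    have h := hext D (∑ i, D (c.y i) • P i) (by
      intro l hl
      rw [der_sum_apply]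
      simp only [Derivation.smul_apply, smul_eq_mul, hP1]
      fin_cases l <;> simp [Fin.sum_univ_four] at hl ⊢) g hg
    rw [h, der_sum_apply]
    simp only [Derivation.smul_apply, smul_eq_mul]
  · intro i j g hg
    have h := hext ⁅P i, P j⁆ 0 (by
      intro l hl
      rw [Derivation.commutator_apply, hP1, hP1]
      have h1 : ∀ (D : Derivation k Ω Ω) (a b : Fin 4),
          D (if a = 3 then 0 else if l = 3 then -(c.u a / c.u 3) else if a = l then 1 else 0) = 0 := by
        intro D a b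
        split_ifs
        · simp
        · simp
        · simp
      rw [h1 _ _ 0, h1 _ _ 0]
      simp) g hg
    rw [Derivation.commutator_apply, Derivation.zero_apply, sub_eq_zero] at h
    exact h

/-- a quadratic relation over `L` satisfied by `x` forces the quadratic part to vanish at a direction -/
theorem n13_quad_dir {V : ValuationSubring Ω} {b : Fin 4 → Ω} {i0 : Fin 4} (hb : c.IsDir V b i0)
    (A : Fin 4 → Fin 4 → Ω) (B : Fin 4 → Ω) (z : Ω) (hA : ∀ i j, A i j ∈ c.L) (hB : ∀ i, B i ∈ c.L)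
    (hz : z ∈ c.L) (h : (∑ i, ∑ j, A i j * c.x i * c.x j) + (∑ i, B i * c.x i) + z = 0) :
    ∑ i, ∑ j, A i j * b i * b j = 0 := by
  set F2 : MvPolynomial (Fin 4) Ω := ∑ i, ∑ j, C (A i j) * X i * X j with hF2
  set F1 : MvPolynomial (Fin 4) Ω := ∑ i, C (B i) * X i with hF1
  set F0 : MvPolynomial (Fin 4) Ω := C z with hF0
  have h2 : F2.IsHomogeneous 2 := by
    refine IsHomogeneous.sum _ _ _ fun i _ => IsHomogeneous.sum _ _ _ fun j _ => ?_
    exact ((isHomogeneous_X _ i).C_mul _).mul (isHomogeneous_X _ j)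
  have h1 : F1.IsHomogeneous 1 :=
    IsHomogeneous.sum _ _ _ fun i _ => (isHomogeneous_X _ i).C_mul _
  have h0 : F0.IsHomogeneous 0 := isHomogeneous_C _ _
  have hcomp : homogeneousComponent 2 (F2 + F1 + F0) = F2 := by
    rw [map_add, map_add, homogeneousComponent_of_mem h2, homogeneousComponent_of_mem h1,
      homogeneousComponent_of_mem h0]
    simp
  have hdeg : (F2 + F1 + F0).totalDegree ≤ 2 := by
    refine (totalDegree_add _ _).trans (max_le ((totalDegree_add _ _).trans (max_le ?_ ?_)) ?_)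
    · exact h2.totalDegree_le
    · exact h1.totalDegree_le.trans (by norm_num)
    · exact h0.totalDegree_le.trans (by norm_num)
  have hlift : ∃ F' : MvPolynomial (Fin 4) c.L, map (algebraMap c.L Ω) F' = F2 + F1 + F0 := by
    refine ⟨(∑ i, ∑ j, C ⟨A i j, hA i j⟩ * X i * X j) + (∑ i, C ⟨B i, hB i⟩ * X i) + C ⟨z, hz⟩, ?_⟩
    simp only [map_add, map_sum, map_mul, map_C, map_X, hF2, hF1, hF0]
    rfl
  obtain ⟨F', hF'⟩ := hlift
  have hc : ∀ s, (F2 + F1 + F0).coeff s ∈ c.L := by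
    intro s
    rw [← hF', coeff_map]
    exact (F'.coeff s).2
  have hev : eval c.x (F2 + F1 + F0) = 0 := by
    rw [← h]
    simp [hF2, hF1, hF0, map_sum]
  have h3 := c.form_dir_L hb (by norm_num : (2 : ℕ) ≠ 0) hdeg hc hev
  rw [hcomp] at h3
  simpa [hF2, map_sum] using h3

/-- all facts about the contact function at a direction -/
theorem n13_dir (hq : c.y 0 * c.y 3 = c.y 1 * c.y 2) {V : ValuationSubring Ω} {b : Fin 4 → Ω}
    {i0 : Fin 4} (hb : c.IsDir V b i0) :
    n13q c.y b = 0 ∧ b 0 * b 3 = b 1 * b 2 ∧ ∃ δ : Derivation k Ω Ω, (∀ i, δ (c.y i) = b i) ∧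
      (∀ g ∈ c.L, δ g ∈ c.L) ∧ ((∀ i, δ (b i) = 0) → δ (δ (n13q c.y c.x)) = 0) := by
  obtain ⟨κ, hκ, hu0, hu1, hu2, hu3⟩ := c.n13_u hq
  obtain ⟨P, hPL, hP, hPc⟩ := c.n13_grad hq
  have hWL : ∀ g ∈ c.L, c.W g = 0 := fun g hg => (c.mem_L_iff g).1 hg
  have hub := c.u_dir hb
  have hqb : n13q c.y b = 0 := by
    rw [Fin.sum_univ_four, hu0, hu1, hu2, hu3] at hub
    have : κ * n13q c.y b = 0 := by
      unfold n13q
      linear_combination hub
    exact (mul_eq_zero.1 this).resolve_left hκ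
  set f : Ω := n13q c.y c.x with hf
  have hDf : ∀ D : Derivation k Ω Ω, D f = n13q (fun i => D (c.y i)) c.x +
      n13q c.y (fun i => D (c.x i)) := fun D => n13q_D D _ _
  have hfL : f ∈ c.L := by
    rw [mem_L_iff, hDf]
    simp only [c.Wy, c.Wx]
    rw [c.n13_qD hq c.V2]
    unfold n13q
    ring
  -- first order: V2 f and V1 f
  have hV2f : c.V2 f = n13q (fun i => c.V2 (c.y i)) c.x := by
    rw [hDf]
    simp only [c.V2x]
    rw [c.n13_qD hq c.V1, add_zero]
  have hV1f : c.V1 f = n13q (fun i => c.V1 (c.y i)) c.x := by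
    rw [hDf]
    simp only [c.V1x]
    rw [c.n13_qD hq c.Z0, add_zero]
  -- E2
  set E2 : Ω := (c.x 0 * c.x 3 - c.x 1 * c.x 2) - ∑ i, P i f * c.x i with hE2
  have hDE2 : ∀ D : Derivation k Ω Ω, D E2 = n13q (fun i => D (c.x i)) c.x -
      ((∑ i, D (P i f) * c.x i) + ∑ i, P i f * D (c.x i)) := by
    intro D
    rw [hE2, map_sub, map_sum, ← Finset.sum_add_distrib]
    congr 1
    · simp only [map_sub, Derivation.leibniz, smul_eq_mul]
      unfold n13q
      ring
    · refine Finset.sum_congr rfl fun i _ => ?_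
      rw [Derivation.leibniz, smul_eq_mul, smul_eq_mul]
      ring
  have hE2L : E2 ∈ c.L := by
    rw [mem_L_iff, hDE2]
    have e1 : ∑ i, c.W (P i f) * c.x i = 0 := by
      refine Finset.sum_eq_zero fun i _ => ?_
      rw [hWL _ (hPL i f hfL), zero_mul]
    have e2 : ∑ i, P i f * c.W (c.x i) = c.V2 f := by
      rw [hP c.V2 f hfL]
      refine Finset.sum_congr rfl fun i _ => ?_
      rw [c.Wx, mul_comm]
    have e3 : (fun i => c.W (c.x i)) = fun i => c.V2 (c.y i) := funext c.Wx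
    rw [e1, e2, e3, hV2f]
    ring
  -- F2
  set F2 : Ω := (∑ i, ∑ j, P i (P j f) * c.x i * c.x j) + ∑ i, (2 * P i E2) * c.x i with hF2
  have hF2L : F2 ∈ c.L := by
    rw [mem_L_iff, hF2, map_add, map_sum, map_sum]
    have e1 : ∀ i, c.W (∑ j, P i (P j f) * c.x i * c.x j) =
        ∑ j, (P i (P j f) * c.W (c.x i) * c.x j + P i (P j f) * c.x i * c.W (c.x j)) := by
      intro i
      rw [map_sum]
      refine Finset.sum_congr rfl fun j _ => ?_
      simp only [Derivation.leibniz, smul_eq_mul, hWL _ (hPL i _ (hPL j f hfL))]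
      ring
    have e2 : ∀ i, c.W (2 * P i E2 * c.x i) = 2 * (P i E2 * c.W (c.x i)) := by
      intro i
      have : (2 : Ω) * P i E2 * c.x i = P i E2 * c.x i + P i E2 * c.x i := by ring
      rw [this, map_add, Derivation.leibniz, hWL _ (hPL i E2 hE2L)]
      simp only [smul_eq_mul]
      ring
    simp only [e1, e2]
    -- V2 E2
    have e3 : c.V2 E2 = - ∑ i, ∑ j, P i (P j f) * c.W (c.x i) * c.x j := by
      rw [hDE2]
      have a1 : ∑ i, P i f * c.V2 (c.x i) = c.V1 f := by
        rw [hP c.V1 f hfL]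
        refine Finset.sum_congr rfl fun i _ => ?_
        rw [c.V2x, mul_comm]
      have a2 : (fun i => c.V2 (c.x i)) = fun i => c.V1 (c.y i) := funext c.V2x
      have a3 : ∑ i, c.V2 (P i f) * c.x i = ∑ i, ∑ j, P i (P j f) * c.W (c.x i) * c.x j := by
        rw [Finset.sum_comm]
        refine Finset.sum_congr rfl fun j _ => ?_
        rw [hP c.V2 _ (hPL j f hfL), Finset.sum_mul]
        refine Finset.sum_congr rfl fun i _ => ?_
        rw [c.Wx]
        ring
      rw [a1, a2, a3, hV1f]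
      ring
    have e4 : ∑ i, 2 * (P i E2 * c.W (c.x i)) = 2 * c.V2 E2 := by
      rw [hP c.V2 E2 hE2L, ← Finset.mul_sum]
      congr 1
      refine Finset.sum_congr rfl fun i _ => ?_
      rw [c.Wx, mul_comm]
    have e5 : ∑ i, ∑ j, (P i (P j f) * c.W (c.x i) * c.x j + P i (P j f) * c.x i * c.W (c.x j)) =
        2 * ∑ i, ∑ j, P i (P j f) * c.W (c.x i) * c.x j := by
      simp only [Finset.sum_add_distrib]
      rw [two_mul]
      congr 1
      rw [Finset.sum_comm]
      refine Finset.sum_congr rfl fun i _ => Finset.sum_congr rfl fun j _ => ?_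
      rw [hPc j i f hfL]
      ring
    rw [e4, e5, e3]
    ring
  have hfL2 : ∀ i j, P i (P j f) ∈ c.L := fun i j => hPL i _ (hPL j f hfL)
  refine ⟨hqb, ?_, ?_⟩
  · have h := c.n13_quad_dir hb
      (fun i j => if i = 0 ∧ j = 3 then 1 else if i = 1 ∧ j = 2 then -1 else 0)
      (fun i => - P i f) (- E2) (by
        intro i j
        split_ifs
        · exact one_mem _
        · exact neg_mem (one_mem _)
        · exact zero_mem _) (fun i => neg_mem (hPL i f hfL)) (neg_mem hE2L) (by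
        rw [hE2]
        simp [Fin.sum_univ_four]
        ring)
    simp [Fin.sum_univ_four] at h
    linear_combination h
  · obtain ⟨δ, hδ, hδL⟩ := c.exists_der_y b hub
    refine ⟨δ, hδ, hδL hb.mem, fun hδb => ?_⟩
    have h := c.n13_quad_dir hb (fun i j => P i (P j f)) (fun i => 2 * P i E2) (- F2) hfL2
      (fun i => mul_mem (by exact_mod_cast natCast_mem c.L 2) (hPL i E2 hE2L)) (neg_mem hF2L) (by
        rw [hF2]; ring)
    rw [hP δ f hfL, map_sum]
    rw [← h]
    rw [Finset.sum_comm]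
    refine Finset.sum_congr rfl fun j _ => ?_
    rw [Derivation.leibniz, hδ, hδb, smul_zero, add_zero, smul_eq_mul, hP δ _ (hPL j f hfL),
      Finset.mul_sum]
    refine Finset.sum_congr rfl fun i _ => ?_
    rw [hδ]
    ring

end Ctx3
end Pool.Agent.HDP
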