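import Pool.Agent.Lib.MP_20906e_al.B2a
import Pool.Agent.Lib.MP_20906e_al.B2b
import Pool.Agent.Lib.MP_20906e_al.B3
import Pool.Agent.Lib.MP_20906e_al.Lin
import Pool.Agent.Lib.MP_20906e_al.Wr
import Pool.Agent.Lib.MP_20906e_al.CaseB
import Pool.Agent.Lib.MP_20906e_al.N13a

/-!
# MP_20906e_al, piece E8f: the quadratic relation at the end of case B (helper10)
-/

set_option linter.unusedSectionVars false

namespace Pool.Agent.HDP
open MvPolynomial

/-- a quadratic polynomial in `x` whose coefficients are killed by a derivation with `D x = 1` -/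
theorem e8f_quad {k Ω : Type*} [Field k] [CharZero k] [Field Ω] [Algebra k Ω]
    (D : Derivation k Ω Ω) {x a b c : Ω} (hx : D x = 1) (ha : D a = 0) (hb : D b = 0) (hc : D c = 0)
    (h : a + b * x + c * x ^ 2 = 0) : a = 0 ∧ b = 0 ∧ c = 0 := by
  have hcz : CharZero Ω := charZero_of_injective_algebraMap (algebraMap k Ω).injective
  have h1 := congrArg D h
  have h2 : b + 2 * c * x = 0 := by
    simp only [map_add, map_zero, Derivation.leibniz, Derivation.leibniz_pow, smul_eq_mul, ha, hb, hc,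
      hx, nsmul_eq_mul] at h1
    norm_num at h1
    linear_combination h1
  have h3 := congrArg D h2
  have h4 : 2 * c = 0 := by
    have h5 : D (2 * c) = 0 := by
      rw [two_mul, map_add, hc, add_zero]
    rw [map_add, map_zero, Derivation.leibniz, h5, hb, hx] at h3
    simp only [smul_eq_mul] at h3
    linear_combination h3
  have hc0 : c = 0 := by
    rcases mul_eq_zero.1 h4 with h5 | h5
    · exact absurd h5 two_ne_zero
    · exact h5
  have hb0 : b = 0 := by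
    rw [hc0] at h2
    linear_combination h2
  refine ⟨?_, hb0, hc0⟩
  rw [hb0, hc0] at h
  linear_combination h

variable {k Ω : Type*} [Field k] [IsAlgClosed k] [CharZero k] [Field Ω] [IsAlgClosed Ω] [Algebra k Ω]

/-- the pairing matrix is nilpotent -/
theorem e8f_nil (c : Ctx3 k Ω) {s : Fin 4 → Ω} {D Dx : Fin 4 → Derivation k Ω Ω}
    (hE : ∀ (E : Derivation k Ω Ω) (f : Ω), E f = ∑ i, E (s i) * D i f)
    (hDx : ∀ i j, Dx i (c.x j) = if i = j then 1 else 0) (h0 : ∀ i, D 0 (c.y i) = 0) :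
    IsNilpotent (Matrix.of (fun r t : Fin 3 => ∑ j, Dx j (s r.succ) * D t.succ (c.y j))) := by
  have hn : IsNilpotent ((jac c.H).map (aeval c.x)) := by
    have := c.nil.nilp.map (RingHom.mapMatrix (m := Fin 4) (aeval c.x : MvPolynomial (Fin 4) k →ₐ[k] Ω).toRingHom)
    exact this
  have h1 : (jac c.H).map (aeval c.x) =
      (Matrix.of fun (i : Fin 4) (r : Fin 3) => D r.succ (c.y i)) *
        (Matrix.of fun (r : Fin 3) (j : Fin 4) => Dx j (s r.succ)) := by
    ext i j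
    rw [Matrix.map_apply, Matrix.mul_apply]
    simp only [jac, Matrix.of_apply]
    have h2 : Dx j (c.y i) = aeval c.x (pderiv j (c.H i)) := by
      rw [c.hy i, der_aeval, Finset.sum_eq_single j]
      · rw [hDx, if_pos rfl, mul_one]
      · intro b _ hb
        rw [hDx, if_neg (Ne.symm hb), mul_zero]
      · intro h; exact absurd (Finset.mem_univ j) h
    rw [← h2, hE (Dx j) (c.y i), Fin.sum_univ_succ, h0, mul_zero, zero_add]
    exact Finset.sum_congr rfl fun r _ => mul_comm _ _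
  rw [h1] at hn
  have h3 := nilp_pairing hn
  have h4 : Matrix.of (fun r t : Fin 3 => ∑ j, Dx j (s r.succ) * D t.succ (c.y j)) =
      (Matrix.of fun (r : Fin 3) (j : Fin 4) => Dx j (s r.succ)) *
        (Matrix.of fun (i : Fin 4) (r : Fin 3) => D r.succ (c.y i)) := by
    ext r t
    rw [Matrix.mul_apply]
    rfl
  rw [h4]
  exact h3

/-- everything up to the two scalar identities -/
theorem e8f_basic (c : Ctx3 k Ω) {τ : Ω} {η : Fin 3 → Ω} {V0 V1 Om d1 d0 : Ω}
    (h : c.EndData τ η V0 V1 Om d1 d0) :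
    ∃ p0 pt pg p1 : Derivation k Ω Ω,
      (∀ E : Derivation k Ω Ω, ∀ f, E f = E (c.x 1) * p1 f + E (c.x 0) * p0 f + E τ * pt f +
        E (V0 * c.x 0 + V1 * c.x 1 + c.x 2) * pg f) ∧
      p1 (c.x 1) = 1 ∧ p1 (c.x 0) = 0 ∧ p1 τ = 0 ∧ p1 (V0 * c.x 0 + V1 * c.x 1 + c.x 2) = 0 ∧
      p0 (c.x 1) = 0 ∧ p0 (c.x 0) = 1 ∧ p0 τ = 0 ∧ p0 (V0 * c.x 0 + V1 * c.x 1 + c.x 2) = 0 ∧
      pt (c.x 1) = 0 ∧ pt (c.x 0) = 0 ∧ pt τ = 1 ∧ pt (V0 * c.x 0 + V1 * c.x 1 + c.x 2) = 0 ∧
      pg (c.x 1) = 0 ∧ pg (c.x 0) = 0 ∧ pg τ = 0 ∧ pg (V0 * c.x 0 + V1 * c.x 1 + c.x 2) = 1 ∧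
      (∀ f ∈ c.L, p1 f = 0) ∧ (∀ f ∈ c.L, p0 f ∈ c.L ∧ pt f ∈ c.L ∧ pg f ∈ c.L) ∧
      (∀ f ∈ acl k ({τ} : Set Ω), p0 f = 0 ∧ pg f = 0 ∧ pt f ∈ acl k ({τ} : Set Ω)) ∧
      (∀ f, p1 f = 0 → p0 f = 0 → pg f = 0 → f ∈ acl k ({τ} : Set Ω)) ∧
      (∃ D2 : Ω, D2 ≠ 0 ∧ D2 = pt (c.x 3) + (pt V0 * c.x 0 + pt V1 * c.x 1) * pg (c.x 3) ∧
        (pt (c.y 3) - p0 (c.x 3) * pt (c.y 0) - p1 (c.x 3) * pt (c.y 1) +
          (pt V0 * c.x 0 + pt V1 * c.x 1) * pg (c.y 3) = - (D2 * p0 (c.y 0))) ∧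
        (pt (c.y 0) * (p0 (c.y 3) - p0 (c.x 3) * p0 (c.y 0) - p1 (c.x 3) * p0 (c.y 1)) =
          - (p0 (c.y 0) ^ 2 * D2))) := by
  set g : Ω := V0 * c.x 0 + V1 * c.x 1 + c.x 2 with hg
  have hLmem : ∀ f, f ∈ c.L ↔ f ∈ acl k (Set.range ![c.x 0, τ, g]) := by
    refine c.L_eq_acl ![c.x 0, τ, g] h.ind ?_
    intro i
    fin_cases i
    · exact h.x0L
    · exact h.τL
    · exact h.gL
  have hx1 : c.x 1 ∉ acl k (Set.range ![c.x 0, τ, g]) := fun h0 => h.x1L ((hLmem _).2 h0)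
  have htb := isTB_of_algInd c.tb (algInd_cons h.ind hx1)
  set s : Fin 4 → Ω := Fin.cons (c.x 1) ![c.x 0, τ, g] with hs
  have hs0 : s 0 = c.x 1 := rfl
  have hs1 : s 1 = c.x 0 := rfl
  have hs2 : s 2 = τ := rfl
  have hs3 : s 3 = g := rfl
  obtain ⟨D, hD, hE, -, -, hmem⟩ := exists_dual htb
  obtain ⟨Dx, hDx, -, -, -, -⟩ := exists_dual c.tb
  have hE' : ∀ E : Derivation k Ω Ω, ∀ f, E f = E (c.x 1) * D 0 f + E (c.x 0) * D 1 f +
      E τ * D 2 f + E g * D 3 f := by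
    intro E f
    have := hE E f
    rw [Fin.sum_univ_four] at this
    exact this
  have hDL : ∀ f ∈ c.L, D 0 f = 0 := by
    intro f hf
    refine der_acl_zero (D 0) (S := Set.range ![c.x 0, τ, g]) ?_ f ((hLmem f).1 hf)
    rintro _ ⟨i, rfl⟩
    fin_cases i
    · exact hD 0 1
    · exact hD 0 2
    · exact hD 0 3
  have hDτ : ∀ j : Fin 4, j ≠ 2 → ∀ f ∈ acl k ({τ} : Set Ω), D j f = 0 := by
    intro j hj
    refine der_acl_zero (D j) (S := {τ}) ?_
    intro z hz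
    rw [Set.mem_singleton_iff.1 hz]
    have := hD j 2
    rw [if_neg hj] at this
    exact this
  have hDt : ∀ f ∈ acl k ({τ} : Set Ω), D 2 f ∈ acl k ({τ} : Set Ω) := by
    refine der_acl_mem (D 2) (subset_acl _) ?_
    intro z hz
    rw [Set.mem_singleton_iff.1 hz]
    have := hD 2 2
    rw [if_pos rfl] at this
    have h2 : D 2 τ = 1 := this
    rw [h2]; exact one_mem _
  have hDLL : ∀ j : Fin 4, j ≠ 0 → ∀ f ∈ c.L, D j f ∈ c.L := by
    intro j hj f hf
    rw [hLmem] at hf ⊢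
    refine der_acl_mem (D j) (subset_acl _) ?_ f hf
    have h01 : ∀ l : Fin 4, D j (s l) ∈ acl k (Set.range ![c.x 0, τ, g]) := by
      intro l
      rw [hD j l]
      split_ifs
      · exact one_mem _
      · exact zero_mem _
    rintro _ ⟨i, rfl⟩
    fin_cases i
    · exact h01 1
    · exact h01 2
    · exact h01 3
  refine ⟨D 1, D 2, D 3, D 0, hE', hD 0 0, hD 0 1, hD 0 2, hD 0 3, hD 1 0, hD 1 1, hD 1 2, hD 1 3,
    hD 2 0, hD 2 1, hD 2 2, hD 2 3, hD 3 0, hD 3 1, hD 3 2, hD 3 3, hDL,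
    fun f hf => ⟨hDLL 1 (by decide) f hf, hDLL 2 (by decide) f hf, hDLL 3 (by decide) f hf⟩, ?_, ?_, ?_⟩
  · intro f hf
    exact ⟨hDτ 1 (by decide) f hf, hDτ 3 (by decide) f hf, hDt f hf⟩
  · intro f h1 h0 h3
    have := (hmem {2} f).2 (by
      intro i hi
      fin_cases i
      · exact h1
      · exact h0
      · exact absurd rfl hi
      · exact h3)
    simpa [hs2] using this
  · -- the nilpotent matrix
    set Nh : Ω := D 2 V0 * c.x 0 + D 2 V1 * c.x 1 with hNh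
    set D2 : Ω := D 2 (c.x 3) + Nh * D 3 (c.x 3) with hD2
    have hnil := e8f_nil c hE hDx (fun i => hDL _ (c.y_mem i))
    obtain ⟨htr, hsec, -⟩ := nilp3 hnil
    -- values of the dual derivations
    have hV0 : ∀ j, Dx j V0 = Dx j τ * D 2 V0 := by
      intro j
      rw [hE' (Dx j) V0, hDτ 0 (by decide) _ h.V0m, hDτ 1 (by decide) _ h.V0m,
        hDτ 3 (by decide) _ h.V0m]
      ring
    have hV1 : ∀ j, Dx j V1 = Dx j τ * D 2 V1 := by
      intro j
      rw [hE' (Dx j) V1, hDτ 0 (by decide) _ h.V1m, hDτ 1 (by decide) _ h.V1m,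
        hDτ 3 (by decide) _ h.V1m]
      ring
    have hgx : ∀ j, Dx j g = Nh * Dx j τ + (V0 * Dx j (c.x 0) + V1 * Dx j (c.x 1) + Dx j (c.x 2)) := by
      intro j
      rw [hg]
      simp only [map_add, Derivation.leibniz, smul_eq_mul, hV0, hV1, hNh]
      ring
    have hX : ∀ j, Dx j (c.x 3) = Dx j (c.x 1) * D 0 (c.x 3) + Dx j (c.x 0) * D 1 (c.x 3) +
        Dx j τ * D2 + (V0 * Dx j (c.x 0) + V1 * Dx j (c.x 1) + Dx j (c.x 2)) * D 3 (c.x 3) := by
      intro j
      rw [hE' (Dx j) (c.x 3), hgx, hD2]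
      ring
    have t3 : Dx 3 τ * D2 = 1 := by
      have := hX 3
      simp only [hDx, Fin.reduceEq, if_true, if_false, mul_zero, zero_mul, add_zero, zero_add, mul_one, one_mul] at this
      exact this.symm
    have t2 : Dx 2 τ * D2 = - D 3 (c.x 3) := by
      have := hX 2
      simp only [hDx, Fin.reduceEq, if_true, if_false, mul_zero, zero_mul, add_zero, zero_add, mul_one, one_mul] at this
      linear_combination -this
    have t1 : Dx 1 τ * D2 = - (D 0 (c.x 3) + V1 * D 3 (c.x 3)) := by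
      have := hX 1
      simp only [hDx, Fin.reduceEq, if_true, if_false, mul_zero, zero_mul, add_zero, zero_add, mul_one, one_mul] at this
      linear_combination -this
    have t0 : Dx 0 τ * D2 = - (D 1 (c.x 3) + V0 * D 3 (c.x 3)) := by
      have := hX 0
      simp only [hDx, Fin.reduceEq, if_true, if_false, mul_zero, zero_mul, add_zero, zero_add, mul_one, one_mul] at this
      linear_combination -this
    have hD20 : D2 ≠ 0 := by
      intro h0
      rw [h0, mul_zero] at t3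
      exact zero_ne_one t3
    -- the sums
    have hy0 : c.y 0 = c.x 0 ^ c.d * η 0 := h.hy 0
    have hy1 : c.y 1 = c.x 0 ^ c.d * η 1 := h.hy 1
    have hy2 : c.y 2 = c.x 0 ^ c.d * η 2 := h.hy 2
    have hbr : ∀ t : Fin 4, t ≠ 0 → V0 * D t (c.y 0) + V1 * D t (c.y 1) + D t (c.y 2) = 0 := by
      intro t ht
      rw [hy0, hy1, hy2]
      have e1 : D t (c.x 0 ^ c.d * η 0) = c.x 0 ^ c.d * D t (η 0) + η 0 * D t (c.x 0 ^ c.d) := by
        rw [Derivation.leibniz]; simp [smul_eq_mul]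
      have e2 : D t (c.x 0 ^ c.d * η 1) = c.x 0 ^ c.d * D t (η 1) + η 1 * D t (c.x 0 ^ c.d) := by
        rw [Derivation.leibniz]; simp [smul_eq_mul]
      have e3 : D t (c.x 0 ^ c.d * η 2) = c.x 0 ^ c.d * D t (η 2) + η 2 * D t (c.x 0 ^ c.d) := by
        rw [Derivation.leibniz]; simp [smul_eq_mul]
      rw [e1, e2, e3]
      have e4 := congrArg (D t) h.Vη
      simp only [map_add, map_zero, Derivation.leibniz, smul_eq_mul] at e4
      have e5 := h.VD (D t)
      linear_combination c.x 0 ^ c.d * e4 - c.x 0 ^ c.d * e5 + D t (c.x 0 ^ c.d) * h.Vη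
    have hM0 : ∀ t : Fin 4, ∑ j, Dx j (s 1) * D t (c.y j) = D t (c.y 0) := by
      intro t
      rw [hs1, Fin.sum_univ_four]
      simp only [hDx, Fin.reduceEq, if_true, if_false, mul_zero, zero_mul, add_zero, zero_add, mul_one, one_mul]
    have hM1 : ∀ t : Fin 4, t ≠ 0 → (∑ j, Dx j (s 2) * D t (c.y j)) * D2 =
        D t (c.y 3) - D 1 (c.x 3) * D t (c.y 0) - D 0 (c.x 3) * D t (c.y 1) := by
      intro t ht
      rw [hs2, Fin.sum_univ_four]
      have := hbr t ht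
      linear_combination D t (c.y 0) * t0 + D t (c.y 1) * t1 + D t (c.y 2) * t2 + D t (c.y 3) * t3
        - D 3 (c.x 3) * this
    have hM2 : ∀ t : Fin 4, t ≠ 0 → (∑ j, Dx j (s 3) * D t (c.y j)) =
        Nh * (∑ j, Dx j (s 2) * D t (c.y j)) := by
      intro t ht
      rw [hs3, hs2, Fin.sum_univ_four, Fin.sum_univ_four]
      simp only [hgx]
      simp only [hDx, Fin.reduceEq, if_true, if_false, mul_zero, zero_mul, add_zero, zero_add, mul_one, one_mul]
      have := hbr t ht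
      linear_combination this
    simp only [Matrix.of_apply] at htr hsec
    have f1 : (Fin.succ 0 : Fin 4) = 1 := rfl
    have f2 : (Fin.succ 1 : Fin 4) = 2 := rfl
    have f3 : (Fin.succ 2 : Fin 4) = 3 := rfl
    rw [f1, f2, f3] at htr hsec
    rw [hM0, hM2 3 (by decide)] at htr
    rw [hM0, hM0, hM0, hM2 1 (by decide), hM2 2 (by decide), hM2 3 (by decide)] at hsec
    have hg0 : D 3 (c.y 0) = 0 := by
      rw [hy0, Derivation.leibniz, hDτ 3 (by decide) _ (h.ηm 0), Derivation.leibniz_pow]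
      have : D 3 (c.x 0) = 0 := hD 3 1
      rw [this]
      simp
    have m1 := hM1 1 (by decide)
    have m2 := hM1 2 (by decide)
    have m3 := hM1 3 (by decide)
    set T1 := ∑ j, Dx j (s 2) * D 1 (c.y j) with hT1
    set T2 := ∑ j, Dx j (s 2) * D 2 (c.y j) with hT2
    set T3 := ∑ j, Dx j (s 2) * D 3 (c.y j) with hT3
    have m3' : D 3 (c.y 1) = 0 := by
      rw [hy1, Derivation.leibniz, hDτ 3 (by decide) _ (h.ηm 1), Derivation.leibniz_pow]
      have : D 3 (c.x 0) = 0 := hD 3 1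
      rw [this]
      simp
    rw [hg0, m3'] at m3
    rw [hg0] at hsec
    refine ⟨D2, hD20, rfl, ?_, ?_⟩
    · linear_combination D2 * htr - m2 - Nh * m3
    · linear_combination (-D2) * hsec + D 1 (c.y 0) * D2 * htr - D 2 (c.y 0) * m1

theorem e8f_div {k Ω : Type*} [Field k] [Field Ω] [Algebra k Ω] (D : Derivation k Ω Ω) {p q e : Ω}
    (hq : q ≠ 0) (hp : D p = e * p) (hq' : D q = e * q) : D (p / q) = 0 := by
  rw [div_eq_mul_inv, Derivation.leibniz, Derivation.leibniz_inv, hp, hq']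
  simp only [smul_eq_mul]
  field_simp
  ring

theorem end_quad (c : Ctx3 k Ω) {τ : Ω} {η : Fin 3 → Ω} {V0 V1 Om d1 d0 : Ω}
    (h : c.EndData τ η V0 V1 Om d1 d0) :
    ∃ (ε l0 l1 l2 : Ω) (a0 a1 a2 : k), ε ∈ acl k ({τ} : Set Ω) ∧ l0 ∈ acl k ({τ} : Set Ω) ∧
      l1 ∈ acl k ({τ} : Set Ω) ∧ l2 ∈ acl k ({τ} : Set Ω) ∧ ¬ (a0 = 0 ∧ a1 = 0 ∧ a2 = 0) ∧
      ε ^ c.d * η 0 = 1 ∧
      c.x 0 * c.x 3 = ε * (algebraMap k Ω a0 * c.x 1 ^ 2 + algebraMap k Ω a1 * c.x 1 * c.x 2
        + algebraMap k Ω a2 * c.x 2 ^ 2) + c.x 0 * (l0 * c.x 0 + l1 * c.x 1 + l2 * c.x 2) ∧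
      (∃ D : Derivation k Ω Ω, D (η 0) ≠ 0) := by
  have hcz : CharZero Ω := charZero_of_injective_algebraMap (algebraMap k Ω).injective
  have hd2 := c.hd
  have hd : (c.d : Ω) ≠ 0 := Nat.cast_ne_zero.2 (by omega)
  obtain ⟨p0, pt, pg, p1, hE, p1x1, p1x0, p1τ, p1g, p0x1, p0x0, p0τ, p0g, ptx1, ptx0, ptτ, ptg,
    pgx1, pgx0, pgτ, pgg, hp1L, hLL, hA, hAm, D2, hD20, hD2, hT, hS⟩ := e8f_basic c h
  set g : Ω := V0 * c.x 0 + V1 * c.x 1 + c.x 2 with hg
  set x0 : Ω := c.x 0 with hx0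
  set x1 : Ω := c.x 1 with hx1
  set X : Ω := c.x 3 with hX
  set hh : Ω := c.y 3 with hhh
  set e0 : Ω := η 0 with he0
  set e1 : Ω := η 1 with he1
  have hpt : ∀ f ∈ acl k ({τ} : Set Ω), pt f ∈ acl k ({τ} : Set Ω) := fun f hf => (hA f hf).2.2
  have hp0A : ∀ f ∈ acl k ({τ} : Set Ω), p0 f = 0 := fun f hf => (hA f hf).1
  have hpgA : ∀ f ∈ acl k ({τ} : Set Ω), pg f = 0 := fun f hf => (hA f hf).2.1
  have hEA : ∀ f ∈ acl k ({τ} : Set Ω), c.E f = 0 :=
    der_acl_zero c.E (fun z hz => by rw [Set.mem_singleton_iff.1 hz]; exact h.Eτ)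
  have hAL : ∀ f ∈ acl k ({τ} : Set Ω), f ∈ c.L := by
    have hle : acl k ({τ} : Set Ω) ≤ c.L := by
      rw [Ctx3.L, acl_le_iff]
      intro z hz
      rw [Set.mem_singleton_iff.1 hz]
      exact h.τL
    exact hle
  have hy0ne := c.n13_y0
  have hy0 : c.y 0 = x0 ^ c.d * e0 := h.hy 0
  have hy1 : c.y 1 = x0 ^ c.d * e1 := h.hy 1
  have hx00 : x0 ≠ 0 := by
    intro h0
    rw [h0, zero_pow (by omega), zero_mul] at hy0
    exact hy0ne hy0
  have he00 : e0 ≠ 0 := by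
    intro h0
    rw [h0, mul_zero] at hy0
    exact hy0ne hy0
  set q : Ω := x0 ^ (c.d - 1) with hq
  have hq0 : q ≠ 0 := pow_ne_zero _ hx00
  have hqx : x0 ^ c.d = q * x0 := by
    rw [hq, ← pow_succ]; congr 1; omega
  have he0m : e0 ∈ acl k ({τ} : Set Ω) := h.ηm 0
  have he1m : e1 ∈ acl k ({τ} : Set Ω) := h.ηm 1
  -- derivatives of y0, y1
  have hDq : ∀ D : Derivation k Ω Ω, D (x0 ^ c.d) = c.d * (q * D x0) := by
    intro D
    rw [Derivation.leibniz_pow, smul_eq_mul, nsmul_eq_mul]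
  have hp0y0 : p0 (c.y 0) = c.d * q * e0 := by
    rw [hy0, Derivation.leibniz, hp0A _ he0m, hDq, p0x0]
    simp only [smul_eq_mul]; ring
  have hp0y1 : p0 (c.y 1) = c.d * q * e1 := by
    rw [hy1, Derivation.leibniz, hp0A _ he1m, hDq, p0x0]
    simp only [smul_eq_mul]; ring
  have hpty0 : pt (c.y 0) = q * x0 * pt e0 := by
    rw [hy0, Derivation.leibniz, hDq, ptx0, hqx]
    simp only [smul_eq_mul]; ring
  have hpty1 : pt (c.y 1) = q * x0 * pt e1 := by
    rw [hy1, Derivation.leibniz, hDq, ptx0, hqx]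
    simp only [smul_eq_mul]; ring
  rw [hp0y0, hpty0, hpty1] at hT
  rw [hp0y0, hp0y1, hpty0] at hS
  set e0' : Ω := pt e0 with he0'
  set e1' : Ω := pt e1 with he1'
  set v0' : Ω := pt V0 with hv0'
  set v1' : Ω := pt V1 with hv1'
  have he0'm : e0' ∈ acl k ({τ} : Set Ω) := hpt _ he0m
  have he1'm : e1' ∈ acl k ({τ} : Set Ω) := hpt _ he1m
  have hv0'm : v0' ∈ acl k ({τ} : Set Ω) := hpt _ h.V0m
  have hv1'm : v1' ∈ acl k ({τ} : Set Ω) := hpt _ h.V1m
  clear_value e0' e1' v0' v1'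
  have he0'0 : e0' ≠ 0 := by
    intro h0
    rw [h0, mul_zero, zero_mul] at hS
    have : (c.d * q * e0) ^ 2 * D2 = 0 := by linear_combination hS
    rcases mul_eq_zero.1 this with h1 | h1
    · exact (mul_ne_zero (mul_ne_zero hd hq0) he00) (pow_eq_zero_iff two_ne_zero |>.1 h1)
    · exact hD20 h1
  -- K
  set K : Ω := e0 * e1' - e0' * e1 with hK
  have hKm : K ∈ acl k ({τ} : Set Ω) := sub_mem (mul_mem he0m he1'm) (mul_mem he0'm he1m)
  clear_value K
  have hK0 : K ≠ 0 := by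
    intro h0
    have h1 : pt (e1 / e0) = 0 := by
      rw [div_eq_mul_inv, Derivation.leibniz, Derivation.leibniz_inv]
      simp only [smul_eq_mul]
      rw [← he0', ← he1']
      have h2 : e0 * e1' = e0' * e1 := sub_eq_zero.1 (hK.symm.trans h0)
      field_simp
      linear_combination h2
    obtain ⟨a, ha⟩ := const_of_der_zero pt (by rw [ptτ]; exact one_ne_zero)
      (div_mem he1m he0m) h1
    have h3 : e1 = algebraMap k Ω a * e0 := by rw [ha]; field_simp
    have h4 := c.lin_indep_y (fun i => if i = 1 then 1 else if i = 0 then -a else 0) (by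
      rw [Fin.sum_univ_four]
      simp only [Fin.reduceEq, if_true, if_false, map_one, map_zero, map_neg, zero_mul, one_mul,
        add_zero]
      rw [hy0, hy1, h3]
      ring)
    have h5 := congrFun h4 1
    simp at h5
  -- L membership
  have hx0L : x0 ∈ c.L := h.x0L
  have hgL : g ∈ c.L := h.gL
  have hhL : hh ∈ c.L := c.y_mem 3
  have hqL : q ∈ c.L := pow_mem hx0L _
  -- the derivative of X in x1
  have hXeq : X = Om * x1 ^ 2 + d1 * x1 + d0 := h.x3
  have hw : p1 X = 2 * Om * x1 + d1 := by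
    rw [hXeq]
    simp only [map_add, Derivation.leibniz, Derivation.leibniz_pow, smul_eq_mul, nsmul_eq_mul,
      hp1L _ h.OmL, hp1L _ h.d1L, hp1L _ h.d0L, p1x1]
    norm_num
    ring
  -- the combination of the two identities
  have hstar : c.d * e0 * (pt hh + (v0' * x0 + v1' * x1) * pg hh) - x0 * e0' * p0 hh =
      c.d * (q * x0) * K * p1 X := by
    apply mul_left_cancel₀ hq0
    rw [hK]
    linear_combination (c.d * q * e0) * hT - hS
  rw [hw] at hstar
  have hstar2 := e8f_quad p1 (x := x1)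
    (a := c.d * e0 * (pt hh + v0' * x0 * pg hh) - x0 * e0' * p0 hh - c.d * (q * x0) * K * d1)
    (b := c.d * e0 * v1' * pg hh - 2 * (c.d * (q * x0) * K * Om)) (c := 0) p1x1
    (hp1L _ (by
      have := natCast_mem c.L c.d
      exact sub_mem (sub_mem (mul_mem (mul_mem this (hAL _ he0m)) (add_mem (hLL _ hhL).2.1
        (mul_mem (mul_mem (hAL _ hv0'm) hx0L) (hLL _ hhL).2.2)))
        (mul_mem (mul_mem hx0L (hAL _ he0'm)) (hLL _ hhL).1))
        (mul_mem (mul_mem (mul_mem this (mul_mem hqL hx0L)) (hAL _ hKm)) h.d1L)))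
    (hp1L _ (by
      have := natCast_mem c.L c.d
      have h2 : (2 : Ω) ∈ c.L := by exact_mod_cast natCast_mem c.L 2
      exact sub_mem (mul_mem (mul_mem (mul_mem this (hAL _ he0m)) (hAL _ hv1'm)) (hLL _ hhL).2.2)
        (mul_mem h2 (mul_mem (mul_mem (mul_mem this (mul_mem hqL hx0L)) (hAL _ hKm)) h.OmL))))
    (map_zero _) (by linear_combination hstar)
  obtain ⟨hs0, hs1, -⟩ := hstar2
  have hv1'0 : v1' ≠ 0 := by
    intro h0
    rw [h0] at hs1
    have h1 : 2 * (c.d * (q * x0) * K * Om) = 0 := by linear_combination -hs1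
    exact (mul_ne_zero two_ne_zero (mul_ne_zero (mul_ne_zero (mul_ne_zero hd
      (mul_ne_zero hq0 hx00)) hK0) h.Om0)) h1
  set om0 : Ω := x0 * Om with hom0
  have hom0m : om0 ∈ acl k ({τ} : Set Ω) := h.Omm
  have hom00 : om0 ≠ 0 := mul_ne_zero hx00 h.Om0
  clear_value om0
  have h2A : (2 : Ω) ∈ acl k ({τ} : Set Ω) := by exact_mod_cast natCast_mem (acl k ({τ} : Set Ω)) 2
  have hdA : (c.d : Ω) ∈ acl k ({τ} : Set Ω) := natCast_mem _ c.d
  set χ1 : Ω := 2 * K * om0 / (e0 * v1') with hχ1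
  have hχ1m : χ1 ∈ acl k ({τ} : Set Ω) :=
    div_mem (mul_mem (mul_mem h2A hKm) hom0m) (mul_mem he0m hv1'm)
  clear_value χ1
  have hpgh : pg hh = q * χ1 := by
    have h1 : (c.d : Ω) * e0 * v1' * pg hh = (c.d * e0 * v1') * (q * χ1) := by
      have h0 : ((c.d : Ω) * e0 * v1') * (q * χ1) = c.d * q * (2 * K * (x0 * Om)) := by
        rw [hχ1, hom0]
        field_simp
      rw [h0]
      linear_combination hs1
    exact mul_left_cancel₀ (mul_ne_zero (mul_ne_zero hd he00) hv1'0) h1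
  -- Euler
  have hEg : c.E g = g := by
    rw [hg]
    simp only [map_add, Derivation.leibniz, smul_eq_mul, hEA _ h.V0m, hEA _ h.V1m, hx0, hx1, c.Ex]
    ring
  have hEx0 : c.E x0 = x0 := c.Ex 0
  have hEx1 : c.E x1 = x1 := c.Ex 1
  have hEX : c.E X = X := c.Ex 3
  have hEf : ∀ f, c.E f = x1 * p1 f + x0 * p0 f + g * pg f := by
    intro f
    rw [hE c.E f, hEx1, hEx0, h.Eτ, hEg]
    ring
  have hEh : c.E hh = c.d * hh := c.Ey 3
  have hEq : c.E q = (c.d - 1) * q := by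
    have h1 : c.E (q * x0) = c.d * (q * x0) := by
      rw [← hqx, hDq, hEx0, hqx]
    rw [Derivation.leibniz, hEx0] at h1
    simp only [smul_eq_mul] at h1
    apply mul_left_cancel₀ hx00
    linear_combination h1
  have hxh : x0 * p0 hh = c.d * hh - g * (q * χ1) := by
    have h1 := hEf hh
    rw [hEh, hp1L _ hhL, hpgh] at h1
    linear_combination -h1
  have hEχ1 : c.E χ1 = 0 := hEA _ hχ1m
  set χ0 : Ω := (hh - q * χ1 * g) / (q * x0) with hχ0
  have hχ0m : χ0 ∈ acl k ({τ} : Set Ω) := by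
    have hL : χ0 ∈ c.L := div_mem (sub_mem hhL (mul_mem (mul_mem hqL (hAL _ hχ1m)) hgL))
      (mul_mem hqL hx0L)
    have h1 : p1 χ0 = 0 := hp1L _ hL
    have hpgq : pg q = 0 := by
      rw [hq, Derivation.leibniz_pow, pgx0]; simp
    have h3 : pg χ0 = 0 := by
      refine e8f_div pg (e := 0) (mul_ne_zero hq0 hx00) ?_ ?_
      · simp only [map_sub, Derivation.leibniz, smul_eq_mul, hpgh, hpgq, hpgA _ hχ1m, pgg]
        ring
      · simp only [Derivation.leibniz, smul_eq_mul, hpgq, pgx0]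
        ring
    have hE0 : c.E χ0 = 0 := by
      refine e8f_div c.E (e := (c.d : Ω)) (mul_ne_zero hq0 hx00) ?_ ?_
      · simp only [map_sub, Derivation.leibniz, smul_eq_mul, hEh, hEq, hEχ1, hEg]
        ring
      · simp only [Derivation.leibniz, smul_eq_mul, hEq, hEx0]
        ring
    have h2 : p0 χ0 = 0 := by
      have h4 := hEf χ0
      rw [hE0, h1, h3] at h4
      have h5 : x0 * p0 χ0 = 0 := by linear_combination -h4
      exact (mul_eq_zero.1 h5).resolve_left hx00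
    exact hAm _ h1 h2 h3
  clear_value χ0
  have hheq : hh = q * (χ1 * g + χ0 * x0) := by
    rw [hχ0]
    field_simp
    ring
  have hptq : pt q = 0 := by
    rw [hq, Derivation.leibniz_pow, ptx0]; simp
  set χ1' : Ω := pt χ1 with hχ1'
  set χ0' : Ω := pt χ0 with hχ0'
  have hχ1'm : χ1' ∈ acl k ({τ} : Set Ω) := hpt _ hχ1m
  have hχ0'm : χ0' ∈ acl k ({τ} : Set Ω) := hpt _ hχ0m
  clear_value χ1' χ0'
  have hpth : pt hh = q * (χ1' * g + χ0' * x0) := by
    rw [hheq]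
    simp only [map_add, Derivation.leibniz, smul_eq_mul, hptq, ptg, ptx0]
    rw [← hχ1', ← hχ0']
    ring
  -- d1
  set c11 : Ω := (c.d * e0 * χ1' - (c.d - 1) * e0' * χ1) / (c.d * K) with hc11
  set c10 : Ω := (e0 * (χ0' + v0' * χ1) - e0' * χ0) / K with hc10
  have hc11m : c11 ∈ acl k ({τ} : Set Ω) :=
    div_mem (sub_mem (mul_mem (mul_mem hdA he0m) hχ1'm) (mul_mem (mul_mem (sub_mem hdA (one_mem _))
      he0'm) hχ1m)) (mul_mem hdA hKm)
  have hc10m : c10 ∈ acl k ({τ} : Set Ω) :=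
    div_mem (sub_mem (mul_mem he0m (add_mem hχ0'm (mul_mem hv0'm hχ1m))) (mul_mem he0'm hχ0m)) hKm
  clear_value c11 c10
  have hd1 : x0 * d1 = c11 * g + c10 * x0 := by
    have h1 : (c.d * K * q) * (x0 * d1) = (c.d * K * q) * (c11 * g + c10 * x0) := by
      have h2 : (c.d * K * q) * (c11 * g + c10 * x0) =
          q * ((c.d * e0 * χ1' - (c.d - 1) * e0' * χ1) * g +
            c.d * (e0 * (χ0' + v0' * χ1) - e0' * χ0) * x0) := by
        rw [hc11, hc10]
        field_simp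
      rw [h2]
      rw [hpth, hpgh] at hs0
      linear_combination -hs0 - e0' * hxh - e0' * c.d * hheq
    exact mul_left_cancel₀ (mul_ne_zero (mul_ne_zero hd hK0) hq0) h1
  -- E0
  set E0 : Ω := x0 * d0 with hE0
  have hE0L : E0 ∈ c.L := mul_mem hx0L h.d0L
  clear_value E0
  have hY : x0 * X = om0 * x1 ^ 2 + (c11 * g + c10 * x0) * x1 + E0 := by
    rw [hXeq, hom0, hE0]
    linear_combination x1 * hd1
  have hp0X : x0 * p0 X = X - g * pg X - x1 * p1 X := by
    have h1 := hEf X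
    rw [hEX] at h1
    linear_combination -h1
  have hG1 : x0 * pg X = c11 * x1 + pg E0 := by
    have h1 := congrArg pg hY
    simp only [map_add, Derivation.leibniz, Derivation.leibniz_pow, smul_eq_mul, nsmul_eq_mul,
      pgx0, pgx1, pgg, hpgA _ hom0m, hpgA _ hc11m, hpgA _ hc10m] at h1
    linear_combination h1
  have hW1 : x0 * p1 X = 2 * om0 * x1 + (c11 * g + c10 * x0) := by
    rw [hw, hom0]
    linear_combination hd1
  set om0' : Ω := pt om0 with hom0'
  set c11' : Ω := pt c11 with hc11'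
  set c10' : Ω := pt c10 with hc10'
  have hom0'm : om0' ∈ acl k ({τ} : Set Ω) := hpt _ hom0m
  have hc11'm : c11' ∈ acl k ({τ} : Set Ω) := hpt _ hc11m
  have hc10'm : c10' ∈ acl k ({τ} : Set Ω) := hpt _ hc10m
  clear_value om0' c11' c10'
  have hTt : x0 * pt X = om0' * x1 ^ 2 + (c11' * g + c10' * x0) * x1 + pt E0 := by
    have h1 := congrArg pt hY
    simp only [map_add, Derivation.leibniz, Derivation.leibniz_pow, smul_eq_mul, nsmul_eq_mul,
      ptx0, ptx1, ptg] at h1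
    rw [← hom0', ← hc11', ← hc10'] at h1
    linear_combination h1
  -- identity (T) multiplied out
  have hT2 : x0 * (χ1' * g + χ0' * x0) - e0' * (x0 * X - g * (x0 * pg X) - x1 * (x0 * p1 X))
      - x0 * e1' * (x0 * p1 X) + x0 * (v0' * x0 + v1' * x1) * χ1 =
      - (c.d * e0 * (x0 * pt X + (v0' * x0 + v1' * x1) * (x0 * pg X))) := by
    apply mul_left_cancel₀ hq0
    rw [hpth, hpgh, hD2] at hT
    linear_combination x0 * hT + q * x0 * e0' * hp0X
  rw [hG1, hW1, hTt, hY] at hT2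
  have hC := e8f_quad p1 (x := x1)
    (a := x0 * (χ1' * g + χ0' * x0) - e0' * (E0 - g * pg E0) - x0 * e1' * (c11 * g + c10 * x0)
      + x0 ^ 2 * v0' * χ1 + c.d * e0 * (pt E0 + v0' * x0 * pg E0))
    (b := e0' * c11 * g - 2 * x0 * e1' * om0 + x0 * v1' * χ1 + c.d * e0 * (c11' * g + c10' * x0
      + v0' * x0 * c11 + v1' * pg E0))
    (c := e0' * om0 + c.d * e0 * (om0' + v1' * c11)) p1x1
    (hp1L _ (by
      have hdL := natCast_mem c.L c.d
      exact add_mem (add_mem (sub_mem (sub_mem (mul_mem hx0L (add_mem (mul_mem (hAL _ hχ1'm) hgL)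
        (mul_mem (hAL _ hχ0'm) hx0L))) (mul_mem (hAL _ he0'm) (sub_mem hE0L (mul_mem hgL
        (hLL _ hE0L).2.2)))) (mul_mem (mul_mem hx0L (hAL _ he1'm)) (add_mem (mul_mem (hAL _ hc11m) hgL)
        (mul_mem (hAL _ hc10m) hx0L)))) (mul_mem (mul_mem (pow_mem hx0L 2) (hAL _ hv0'm)) (hAL _ hχ1m)))
        (mul_mem (mul_mem hdL (hAL _ he0m)) (add_mem (hLL _ hE0L).2.1 (mul_mem (mul_mem (hAL _ hv0'm)
        hx0L) (hLL _ hE0L).2.2)))))
    (hp1L _ (by
      have hdL := natCast_mem c.L c.d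
      exact add_mem (add_mem (sub_mem (mul_mem (mul_mem (hAL _ he0'm) (hAL _ hc11m)) hgL)
        (mul_mem (mul_mem (mul_mem (hAL _ h2A) hx0L) (hAL _ he1'm)) (hAL _ hom0m)))
        (mul_mem (mul_mem hx0L (hAL _ hv1'm)) (hAL _ hχ1m)))
        (mul_mem (mul_mem hdL (hAL _ he0m)) (add_mem (add_mem (add_mem (mul_mem (hAL _ hc11'm) hgL)
        (mul_mem (hAL _ hc10'm) hx0L)) (mul_mem (mul_mem (hAL _ hv0'm) hx0L) (hAL _ hc11m)))
        (mul_mem (hAL _ hv1'm) (hLL _ hE0L).2.2)))))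
    (hp1L _ (hAL _ (add_mem (mul_mem he0'm hom0m) (mul_mem (mul_mem hdA he0m) (add_mem hom0'm
      (mul_mem hv1'm hc11m))))))
    (by linear_combination hT2)
  obtain ⟨hC0, hC1, hC2⟩ := hC
  have hde : (c.d : Ω) * e0 * v1' ≠ 0 := mul_ne_zero (mul_ne_zero hd he00) hv1'0
  set c02 : Ω := -(c.d * e0 * c11' + e0' * c11) / (2 * (c.d * e0 * v1')) with hc02
  set c01 : Ω := -(c.d * e0 * (c10' + v0' * c11) - 2 * e1' * om0 + v1' * χ1) / (c.d * e0 * v1') with hc01
  have hc02m : c02 ∈ acl k ({τ} : Set Ω) :=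
    div_mem (neg_mem (add_mem (mul_mem (mul_mem hdA he0m) hc11'm) (mul_mem he0'm hc11m)))
      (mul_mem h2A (mul_mem (mul_mem hdA he0m) hv1'm))
  have hc01m : c01 ∈ acl k ({τ} : Set Ω) :=
    div_mem (neg_mem (add_mem (sub_mem (mul_mem (mul_mem hdA he0m) (add_mem hc10'm
      (mul_mem hv0'm hc11m))) (mul_mem (mul_mem h2A he1'm) hom0m)) (mul_mem hv1'm hχ1m)))
      (mul_mem (mul_mem hdA he0m) hv1'm)
  clear_value c02 c01
  have hR1 : 2 * (c.d * e0 * v1') * c02 = -(c.d * e0 * c11' + e0' * c11) := by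
    rw [hc02]; field_simp
  have hR1' : (c.d * e0 * v1') * c01 = -(c.d * e0 * (c10' + v0' * c11) - 2 * e1' * om0 + v1' * χ1) := by
    rw [hc01]; field_simp
  have hpgE0 : pg E0 = 2 * c02 * g + c01 * x0 := by
    apply mul_left_cancel₀ hde
    linear_combination hC1 - g * hR1 - x0 * hR1'
  have hEE0 : c.E E0 = 2 * E0 := by
    have h1 : E0 = x0 * X - om0 * x1 ^ 2 - (c11 * g + c10 * x0) * x1 := by rw [hY]; ring
    rw [h1]
    simp only [map_sub, map_add, Derivation.leibniz, Derivation.leibniz_pow, smul_eq_mul,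
      nsmul_eq_mul, hEx0, hEx1, hEX, hEg, hEA _ hom0m, hEA _ hc11m, hEA _ hc10m]
    norm_num
    ring
  set c00 : Ω := (E0 - c02 * g ^ 2 - c01 * g * x0) / x0 ^ 2 with hc00
  have hc00m : c00 ∈ acl k ({τ} : Set Ω) := by
    have hL : c00 ∈ c.L := div_mem (sub_mem (sub_mem hE0L (mul_mem (hAL _ hc02m) (pow_mem hgL 2)))
      (mul_mem (mul_mem (hAL _ hc01m) hgL) hx0L)) (pow_mem hx0L 2)
    have h1 : p1 c00 = 0 := hp1L _ hL
    have h3 : pg c00 = 0 := by
      refine e8f_div pg (e := 0) (pow_ne_zero 2 hx00) ?_ ?_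
      · simp only [map_sub, Derivation.leibniz, Derivation.leibniz_pow, smul_eq_mul, nsmul_eq_mul,
          hpgE0, hpgA _ hc02m, hpgA _ hc01m, pgg, pgx0]
        norm_num
        ring
      · simp only [Derivation.leibniz_pow, smul_eq_mul, nsmul_eq_mul, pgx0]
        ring
    have hE0' : c.E c00 = 0 := by
      refine e8f_div c.E (e := 2) (pow_ne_zero 2 hx00) ?_ ?_
      · simp only [map_sub, Derivation.leibniz, Derivation.leibniz_pow, smul_eq_mul, nsmul_eq_mul,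
          hEE0, hEA _ hc02m, hEA _ hc01m, hEg, hEx0]
        norm_num
        ring
      · simp only [Derivation.leibniz_pow, smul_eq_mul, nsmul_eq_mul, hEx0]
        norm_num
        ring
    have h2 : p0 c00 = 0 := by
      have h4 := hEf c00
      rw [hE0', h1, h3] at h4
      have h5 : x0 * p0 c00 = 0 := by linear_combination -h4
      exact (mul_eq_zero.1 h5).resolve_left hx00
    exact hAm _ h1 h2 h3
  clear_value c00
  have hE0eq : E0 = c02 * g ^ 2 + c01 * g * x0 + c00 * x0 ^ 2 := by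
    rw [hc00]
    field_simp
    ring
  set c02' : Ω := pt c02 with hc02'
  set c01' : Ω := pt c01 with hc01'
  set c00' : Ω := pt c00 with hc00'
  have hc02'm : c02' ∈ acl k ({τ} : Set Ω) := hpt _ hc02m
  have hc01'm : c01' ∈ acl k ({τ} : Set Ω) := hpt _ hc01m
  have hc00'm : c00' ∈ acl k ({τ} : Set Ω) := hpt _ hc00m
  clear_value c02' c01' c00'
  have hptE0 : pt E0 = c02' * g ^ 2 + c01' * g * x0 + c00' * x0 ^ 2 := by
    rw [hE0eq]
    simp only [map_add, Derivation.leibniz, Derivation.leibniz_pow, smul_eq_mul, nsmul_eq_mul,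
      ptg, ptx0]
    rw [← hc02', ← hc01', ← hc00']
    ring
  have hpgx : ∀ a ∈ acl k ({τ} : Set Ω), ∀ n : ℕ, pg (x0 ^ n * a) = 0 := by
    intro a ha n
    rw [Derivation.leibniz, Derivation.leibniz_pow, pgx0, hpgA _ ha]
    simp
  have hQ := e8f_quad pg (x := g)
    (a := x0 ^ 2 * (χ0' - e0' * c00 - e1' * c10 + v0' * χ1 + c.d * e0 * (c00' + v0' * c01)))
    (b := x0 ^ 1 * (χ1' - e1' * c11 + c.d * e0 * (c01' + v0' * (2 * c02))))
    (c := x0 ^ 0 * (e0' * c02 + c.d * e0 * c02')) pgg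
    (hpgx _ (add_mem (add_mem (sub_mem (sub_mem hχ0'm (mul_mem he0'm hc00m)) (mul_mem he1'm hc10m))
      (mul_mem hv0'm hχ1m)) (mul_mem (mul_mem hdA he0m) (add_mem hc00'm (mul_mem hv0'm hc01m)))) 2)
    (hpgx _ (add_mem (sub_mem hχ1'm (mul_mem he1'm hc11m)) (mul_mem (mul_mem hdA he0m)
      (add_mem hc01'm (mul_mem hv0'm (mul_mem h2A hc02m))))) 1)
    (hpgx _ (add_mem (mul_mem he0'm hc02m) (mul_mem (mul_mem hdA he0m) hc02'm)) 0)
    (by
      rw [hpgE0, hptE0, hE0eq] at hC0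
      linear_combination hC0)
  have hR3 : e0' * c02 + c.d * e0 * c02' = 0 := by
    have := hQ.2.2
    rwa [pow_zero, one_mul] at this
  -- the binary quadratic form
  set A : Ω := om0 + c11 * V1 + c02 * V1 ^ 2 with hAdef
  set B : Ω := c11 + 2 * c02 * V1 with hBdef
  have hAm' : A ∈ acl k ({τ} : Set Ω) :=
    add_mem (add_mem hom0m (mul_mem hc11m h.V1m)) (mul_mem hc02m (pow_mem h.V1m 2))
  have hBm' : B ∈ acl k ({τ} : Set Ω) := add_mem hc11m (mul_mem (mul_mem h2A hc02m) h.V1m)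
  clear_value A B
  have hA' : c.d * e0 * pt A = - (e0' * A) := by
    rw [hAdef]
    simp only [map_add, Derivation.leibniz, Derivation.leibniz_pow, smul_eq_mul, nsmul_eq_mul]
    rw [← hom0', ← hc11', ← hc02', ← hv1']
    norm_num
    linear_combination hC2 + V1 * hR1 + V1 ^ 2 * hR3
  have hB' : c.d * e0 * pt B = - (e0' * B) := by
    rw [hBdef]
    have e1 : (2 : Ω) * c02 * V1 = c02 * V1 + c02 * V1 := by ring
    rw [e1]
    simp only [map_add, Derivation.leibniz, smul_eq_mul]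
    rw [← hc11', ← hc02', ← hv1']
    linear_combination hR1 + 2 * V1 * hR3
  have hC' : c.d * e0 * pt c02 = - (e0' * c02) := by
    rw [← hc02']
    linear_combination hR3
  -- the root
  obtain ⟨ε, hε⟩ := IsAlgClosed.exists_pow_nat_eq (e0⁻¹) (n := c.d) (by omega)
  have hεm : ε ∈ acl k ({τ} : Set Ω) := mem_acl_of_pow (m := c.d) (by omega) (by
    rw [hε]; exact inv_mem he0m)
  have hε1 : ε ^ c.d * e0 = 1 := by rw [hε]; field_simp
  have hε0 : ε ≠ 0 := by
    rintro rfl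
    rw [zero_pow (by omega), zero_mul] at hε1
    exact zero_ne_one hε1
  have hε' : c.d * e0 * pt ε = - (e0' * ε) := by
    have h1 := congrArg pt hε1
    rw [Derivation.leibniz, Derivation.leibniz_pow, Derivation.map_one_eq_zero] at h1
    simp only [smul_eq_mul, nsmul_eq_mul] at h1
    rw [← he0'] at h1
    have h2 : ε ^ c.d = ε ^ (c.d - 1) * ε := by
      rw [← pow_succ]; congr 1; omega
    rw [h2] at h1
    apply mul_left_cancel₀ (pow_ne_zero (c.d - 1) hε0)
    linear_combination h1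
  have hconst : ∀ Z ∈ acl k ({τ} : Set Ω), c.d * e0 * pt Z = - (e0' * Z) →
      ∃ a : k, Z = ε * algebraMap k Ω a := by
    intro Z hZ hZ'
    have h1 : pt (Z / ε) = 0 := by
      refine e8f_div pt (e := -(e0' / (c.d * e0))) hε0 ?_ ?_
      · field_simp
        linear_combination hZ'
      · field_simp
        linear_combination hε'
    obtain ⟨a, ha⟩ := const_of_der_zero pt (by rw [ptτ]; exact one_ne_zero) (div_mem hZ hεm) h1
    refine ⟨a, ?_⟩
    rw [ha]
    field_simp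
  obtain ⟨a0, ha0⟩ := hconst A hAm' hA'
  obtain ⟨a1, ha1⟩ := hconst B hBm' hB'
  obtain ⟨a2, ha2⟩ := hconst c02 hc02m hC'
  have hlast : pt e0 ≠ 0 := by rw [← he0']; exact he0'0
  refine ⟨ε, c02 * V0 ^ 2 + c01 * V0 + c00, c11 * V0 + c10 + 2 * c02 * V0 * V1 + c01 * V1,
    2 * c02 * V0 + c01, a0, a1, a2, hεm, ?_, ?_, ?_, ?_, hε1, ?_, ⟨pt, hlast⟩⟩
  · exact add_mem (add_mem (mul_mem hc02m (pow_mem h.V0m 2)) (mul_mem hc01m h.V0m)) hc00m
  · exact add_mem (add_mem (add_mem (mul_mem hc11m h.V0m) hc10m) (mul_mem (mul_mem (mul_mem h2A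
      hc02m) h.V0m) h.V1m)) (mul_mem hc01m h.V1m)
  · exact add_mem (mul_mem (mul_mem h2A hc02m) h.V0m) hc01m
  · rintro ⟨r0, r1, r2⟩
    rw [r0, map_zero, mul_zero] at ha0
    rw [r1, map_zero, mul_zero] at ha1
    rw [r2, map_zero, mul_zero] at ha2
    apply hom00
    rw [hAdef] at ha0
    rw [hBdef] at ha1
    rw [ha2] at ha0 ha1
    have h1 : c11 = 0 := by linear_combination ha1
    rw [h1] at ha0
    linear_combination ha0
  · have hx2 : g = V0 * x0 + V1 * x1 + c.x 2 := hg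
    have e1 : ε * (algebraMap k Ω a0 * x1 ^ 2 + algebraMap k Ω a1 * x1 * c.x 2 +
        algebraMap k Ω a2 * c.x 2 ^ 2) = A * x1 ^ 2 + B * x1 * c.x 2 + c02 * c.x 2 ^ 2 := by
      rw [ha0, ha1]
      linear_combination -(c.x 2 ^ 2) * ha2
    rw [e1, hY, hE0eq, hx2, hAdef, hBdef]
    ring

end Pool.Agent.HDP
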