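import Mathlib
import Pool.Agent.Lib.MP_20906e_al.Defs
import Pool.Agent.Lib.MP_20906e_al.Ctx2
import Pool.Agent.Lib.MP_20906e_al.Acl
import Pool.Agent.Lib.MP_20906e_al.Der
import Pool.Agent.Lib.MP_20906e_al.Lin
import Pool.Agent.Lib.MP_2adc98_lc.RankMap

/-!
# MP_20906e_al, piece R0 : existence of the rank two context (helper22)
-/

set_option autoImplicit false

namespace Pool.Agent.HDP
open MvPolynomial

section Main
variable {k Ω : Type*} [Field k] [IsAlgClosed k] [CharZero k] [Field Ω] [IsAlgClosed Ω] [Algebra k Ω]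

omit [IsAlgClosed Ω] in
private lemma r0_ctx {n d : ℕ} (hn2 : 2 ≤ n) (hd : d ≠ 0)
    {H : Fin n → MvPolynomial (Fin n) k} (nil : Nil k n d H)
    (ind : LinearIndependent k H) {x : Fin n → Ω} (tb : IsTranscendenceBasis k x)
    {A : Matrix (Fin n) (Fin n) Ω} (hA : ∀ i j, A i j = aeval x (pderiv j (H i)))
    (hn : IsNilpotent A) (hr : A.rank ≤ 2) : Nonempty (Ctx2 k Ω n) := by
  classical
  have char0 : CharZero Ω := charZero_of_injective_algebraMap (algebraMap k Ω).injective
  obtain ⟨y, hy⟩ : ∃ y : Fin n → Ω, ∀ i, y i = aeval x (H i) := ⟨_, fun i => rfl⟩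
  obtain ⟨E, hE⟩ := exists_der tb x
  obtain ⟨D, hD, hDE, -, -, -⟩ := exists_dual tb
  have hDy : ∀ (D : Derivation k Ω Ω) (v : Fin n → Ω), (∀ i, D (x i) = v i) →
      ∀ i, D (y i) = A.mulVec v i := by
    intro D v hv i
    rw [hy, der_aeval]
    show _ = ∑ j, A i j * v j
    refine Finset.sum_congr rfl fun j _ => ?_
    rw [hA, hv]
  have hDA : ∀ i j, D j (y i) = A i j := by
    intro i j
    rw [hDy (D j) (Pi.single j 1) (fun l => by rw [hD j l, Pi.single_apply]; simp [eq_comm]) i,
      Matrix.mulVec_single_one]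
    rfl
  have hEy : ∀ i, E (y i) = (d : Ω) * y i := by
    intro i
    rw [hy, der_aeval]
    have h1 := (nil.hom i).sum_X_mul_pderiv
    have h2 := congrArg (aeval x) h1
    rw [map_sum, map_nsmul, nsmul_eq_mul] at h2
    rw [← h2]
    apply Finset.sum_congr rfl
    intro l _
    rw [map_mul, aeval_X, hE, mul_comm]
  have hne : ∀ F : MvPolynomial (Fin n) k, F ≠ 0 → aeval x F ≠ 0 := fun F hF h =>
    hF ((injective_iff_map_eq_zero _).1 tb.1 F h)
  have hd0 : (d : Ω) ≠ 0 := by exact_mod_cast hd
  -- the index `j`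
  obtain ⟨j, i1, hji⟩ : ∃ j i1 : Fin n, i1 ≠ j :=
    ⟨⟨0, by omega⟩, ⟨1, by omega⟩, by simp [Fin.ext_iff]⟩
  obtain ⟨f, hf⟩ : ∃ f : Ω, f = y j := ⟨_, rfl⟩
  have f0 : f ≠ 0 := by
    rw [hf, hy]
    exact hne _ (ind.ne_zero j)
  have hEf : E f = (d : Ω) * f := by rw [hf]; exact hEy j
  obtain ⟨h, hh'⟩ : ∃ h : Fin n → Ω, ∀ i, h i = y i / f := ⟨_, fun i => rfl⟩
  have hh : ∀ i, y i = f * h i := by
    intro i
    rw [hh', mul_div_cancel₀ _ f0]
  have hj : h j = 1 := by rw [hh', ← hf, div_self f0]
  have hEh : ∀ i, E (h i) = 0 := by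
    intro i
    have h1 := hEy i
    rw [hh i, Derivation.leibniz, hEf, smul_eq_mul, smul_eq_mul] at h1
    have h2 : f * E (h i) = 0 := by linear_combination h1
    exact (mul_eq_zero.1 h2).resolve_left f0
  -- the function `τ`
  have hexτ : ∃ i, h i ∉ acl k (∅ : Set Ω) := by
    by_contra hcon
    push Not at hcon
    obtain ⟨c, hc⟩ := (acl_empty _).1 (hcon i1)
    have h1 : aeval x (H i1 - C c * H j) = 0 := by
      rw [map_sub, map_mul, ← hy, ← hy, ← hf, hh i1, ← hc, aeval_C]
      ring
    have h2 : H i1 - C c * H j = 0 := by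
      by_contra h3
      exact hne _ h3 h1
    have h3 := Fintype.linearIndependent_iff.1 ind
      (fun i => if i = i1 then 1 else if i = j then -c else 0) (by
        have : ∀ i, (if i = i1 then (1 : k) else if i = j then -c else 0) • H i =
            (if i = i1 then H i1 else 0) + (if i = j then -(C c * H j) else 0) := by
          intro i
          by_cases hi1 : i = i1
          · subst hi1
            simp [hji]
          · by_cases hi2 : i = j
            · subst hi2
              simp [hi1, smul_eq_C_mul]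
            · simp [hi1, hi2]
        rw [Finset.sum_congr rfl fun i _ => this i, Finset.sum_add_distrib]
        simp only [Finset.sum_ite_eq', Finset.mem_univ, if_true]
        rw [← sub_eq_add_neg]
        exact h2) i1
    simp at h3
  obtain ⟨i0, hi0⟩ := hexτ
  obtain ⟨τ, hτ⟩ : ∃ τ : Ω, τ = h i0 := ⟨_, rfl⟩
  have τk : τ ∉ acl k (∅ : Set Ω) := by rw [hτ]; exact hi0
  obtain ⟨D0, -, hD0⟩ := exists_der_ne τk
  -- rows
  have hrow : ∀ i, (fun l => D l (h i)) ∈ Submodule.span Ω (Set.range A.row) := by
    intro i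
    have h1 : (fun l => D l (h i)) = f⁻¹ • A.row i - (f⁻¹ * h i) • A.row j := by
      funext l
      have h2 : D l (y i) = D l (f * h i) := by rw [hh i]
      rw [Derivation.leibniz, smul_eq_mul, smul_eq_mul, hf, hDA, hDA, ← hf] at h2
      simp only [Pi.sub_apply, Pi.smul_apply, smul_eq_mul, Matrix.row_apply]
      rw [h2]
      field_simp
      ring
    rw [h1]
    exact sub_mem (Submodule.smul_mem _ _ (Submodule.subset_span ⟨i, rfl⟩))
      (Submodule.smul_mem _ _ (Submodule.subset_span ⟨j, rfl⟩))
  have hrowf : (fun l => D l f) ∈ Submodule.span Ω (Set.range A.row) := by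
    have h1 : (fun l => D l f) = A.row j := by
      funext l
      rw [hf, hDA]
      rfl
    rw [h1]
    exact Submodule.subset_span ⟨j, rfl⟩
  have hmem : ∀ i, h i ∈ acl k ({τ} : Set Ω) := by
    intro i
    by_contra hi
    obtain ⟨D1, hD1, hD1'⟩ := exists_der_ne hi
    have hli : LinearIndependent Ω (![fun l => D l τ, fun l => D l (h i), fun l => D l f] :
        Fin 3 → Fin n → Ω) := by
      rw [Fintype.linearIndependent_iff]
      intro g hg
      have h1 : ∀ D' : Derivation k Ω Ω, g 0 * D' τ + g 1 * D' (h i) + g 2 * D' f = 0 := by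
        intro D'
        rw [hDE D' τ, hDE D' (h i), hDE D' f, Finset.mul_sum, Finset.mul_sum, Finset.mul_sum,
          ← Finset.sum_add_distrib, ← Finset.sum_add_distrib]
        refine Finset.sum_eq_zero fun l _ => ?_
        have h2 := congrFun hg l
        simp only [Fin.sum_univ_three, Matrix.cons_val_zero, Matrix.cons_val_one,
          Matrix.cons_val, Pi.add_apply, Pi.smul_apply, smul_eq_mul, Pi.zero_apply] at h2
        linear_combination (D' (x l)) * h2
      have hEτ : E τ = 0 := by rw [hτ]; exact hEh i0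
      have hg2 : g 2 = 0 := by
        have h2 := h1 E
        rw [hEτ, hEh, hEf, mul_zero, mul_zero, zero_add, zero_add] at h2
        exact (mul_eq_zero.1 h2).resolve_right (mul_ne_zero hd0 f0)
      have hg1 : g 1 = 0 := by
        have h2 := h1 D1
        rw [hD1 τ (subset_acl _ rfl), hD1', hg2, mul_zero, mul_one, zero_mul, zero_add,
          add_zero] at h2
        exact h2
      have hg0 : g 0 = 0 := by
        have h2 := h1 D0
        rw [hD0, hg1, hg2, mul_one, zero_mul, zero_mul, add_zero, add_zero] at h2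
        exact h2
      intro a
      fin_cases a
      · exact hg0
      · exact hg1
      · exact hg2
    have h1 := finrank_span_eq_card hli
    have h2 : Submodule.span Ω (Set.range (![fun l => D l τ, fun l => D l (h i), fun l => D l f] :
        Fin 3 → Fin n → Ω)) ≤ Submodule.span Ω (Set.range A.row) := by
      rw [Submodule.span_le]
      rintro _ ⟨a, rfl⟩
      fin_cases a
      · show (fun l => D l τ) ∈ _
        rw [hτ]
        exact hrow i0
      · exact hrow i
      · exact hrowf
    have h3 := Submodule.finrank_mono h2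
    rw [h1, ← Matrix.rank_eq_finrank_span_row, Fintype.card_fin] at h3
    omega
  -- derivative with respect to `τ`
  have hDD : ∀ (D' : Derivation k Ω Ω) (i : Fin n), D' (h i) = D0 (h i) * D' τ := by
    intro D' i
    have h1 := der_acl_eq (S := ({τ} : Set Ω)) D' (D' τ • D0) (by
      rintro _ rfl
      rw [Derivation.smul_apply, hD0, smul_eq_mul, mul_one]) (h i) (hmem i)
    rw [h1, Derivation.smul_apply, smul_eq_mul, mul_comm]
  have hmem' : ∀ i, D0 (h i) ∈ acl k ({τ} : Set Ω) := by
    intro i
    refine der_acl_mem (S := {τ}) (T := {τ}) D0 (subset_acl _) ?_ (h i) (hmem i)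
    rintro _ rfl
    rw [hD0]
    exact one_mem _
  obtain ⟨Dh, hDh⟩ := exists_der tb h
  obtain ⟨Dh', hDh'⟩ := exists_der tb (fun i => D0 (h i))
  -- trace and determinant
  have hAPR : A = (Matrix.of fun i (a : Fin 2) => ![h i, f * D0 (h i)] a) *
      (Matrix.of fun (a : Fin 2) l => ![D l f, D l τ] a) := by
    ext i l
    rw [Matrix.mul_apply, Fin.sum_univ_two]
    simp only [Matrix.of_apply, Matrix.cons_val_zero, Matrix.cons_val_one]
    rw [← hDA, hh i, Derivation.leibniz, hDD (D l) i, smul_eq_mul, smul_eq_mul]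
    ring
  have hnil2 := nilp2 (nilp_pairing (hAPR ▸ hn))
  have e00 : ((Matrix.of fun (a : Fin 2) l => ![D l f, D l τ] a) *
      (Matrix.of fun i (a : Fin 2) => ![h i, f * D0 (h i)] a) : Matrix (Fin 2) (Fin 2) Ω) 0 0 =
        Dh f := by
    rw [Matrix.mul_apply, hDE Dh f]
    refine Finset.sum_congr rfl fun l _ => ?_
    simp only [Matrix.of_apply, Matrix.cons_val_zero, hDh]
    ring
  have e01 : ((Matrix.of fun (a : Fin 2) l => ![D l f, D l τ] a) *
      (Matrix.of fun i (a : Fin 2) => ![h i, f * D0 (h i)] a) : Matrix (Fin 2) (Fin 2) Ω) 0 1 =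
        f * Dh' f := by
    rw [Matrix.mul_apply, hDE Dh' f, Finset.mul_sum]
    refine Finset.sum_congr rfl fun l _ => ?_
    simp only [Matrix.of_apply, Matrix.cons_val_zero, Matrix.cons_val_one, hDh']
    ring
  have e10 : ((Matrix.of fun (a : Fin 2) l => ![D l f, D l τ] a) *
      (Matrix.of fun i (a : Fin 2) => ![h i, f * D0 (h i)] a) : Matrix (Fin 2) (Fin 2) Ω) 1 0 =
        Dh τ := by
    rw [Matrix.mul_apply, hDE Dh τ]
    refine Finset.sum_congr rfl fun l _ => ?_
    simp only [Matrix.of_apply, Matrix.cons_val_zero, Matrix.cons_val_one, hDh]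
    ring
  have e11 : ((Matrix.of fun (a : Fin 2) l => ![D l f, D l τ] a) *
      (Matrix.of fun i (a : Fin 2) => ![h i, f * D0 (h i)] a) : Matrix (Fin 2) (Fin 2) Ω) 1 1 =
        f * Dh' τ := by
    rw [Matrix.mul_apply, hDE Dh' τ, Finset.mul_sum]
    refine Finset.sum_congr rfl fun l _ => ?_
    simp only [Matrix.of_apply, Matrix.cons_val_one, Matrix.cons_val_zero, hDh']
    ring
  rw [e00, e01, e10, e11] at hnil2
  refine ⟨⟨d, hd, H, nil, ind, x, tb, y, hy, E, hE, j, f, hf, f0, h, hh, hj, τ, ⟨i0, hτ⟩, τk, hmem,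
    fun i => D0 (h i), hmem', hDD, Dh, Dh', hDh, hDh', hnil2.1, ?_⟩⟩
  have h1 : f * (Dh f * Dh' τ) = f * (Dh' f * Dh τ) := by
    linear_combination hnil2.2
  exact mul_left_cancel₀ f0 h1

end Main

universe u

/-! ## R0: construction of the rank two context -/
theorem exists_ctx2 {k : Type u} [Field k] [IsAlgClosed k] [CharZero k] {n d : ℕ} (hn : 2 ≤ n) (hd : d ≠ 0)
    {H : Fin n → MvPolynomial (Fin n) k} (nil : Nil k n d H) (ind : LinearIndependent k H)
    (hr : ((jac H).map (algebraMap _ (FractionRing (MvPolynomial (Fin n) k)))).rank ≤ 2) :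
    ∃ (Ω : Type u) (_ : Field Ω) (_ : Algebra k Ω) (_ : IsAlgClosed Ω), Nonempty (Ctx2 k Ω n) := by
  obtain ⟨ι, hι⟩ : ∃ ι : MvPolynomial (Fin n) k →+*
      AlgebraicClosure (FractionRing (MvPolynomial (Fin n) k)),
      ι = algebraMap (MvPolynomial (Fin n) k)
        (AlgebraicClosure (FractionRing (MvPolynomial (Fin n) k))) := ⟨_, rfl⟩
  refine ⟨AlgebraicClosure (FractionRing (MvPolynomial (Fin n) k)), inferInstance,
    inferInstance, inferInstance, ?_⟩
  have hae : ∀ F : MvPolynomial (Fin n) k, aeval (fun i => ι (X i)) F = ι F := by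
    intro F
    rw [hι]
    have h1 := aeval_algebraMap_apply (AlgebraicClosure (FractionRing (MvPolynomial (Fin n) k)))
      (X : Fin n → MvPolynomial (Fin n) k) F
    rw [aeval_X_left, AlgHom.id_apply] at h1
    exact h1
  refine r0_ctx hn hd nil ind (x := fun i => ι (X i)) ?_ (A := (jac H).map ι) ?_ ?_ ?_
  · have h0 : Algebra.IsAlgebraic (MvPolynomial (Fin n) k)
        (FractionRing (MvPolynomial (Fin n) k)) :=
      IsLocalization.isAlgebraic _ (nonZeroDivisors (MvPolynomial (Fin n) k))
    have h00 : Algebra.IsAlgebraic (MvPolynomial (Fin n) k)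
        (AlgebraicClosure (FractionRing (MvPolynomial (Fin n) k))) :=
      Algebra.IsAlgebraic.trans _ (FractionRing (MvPolynomial (Fin n) k)) _
    have hinj : Function.Injective (algebraMap (MvPolynomial (Fin n) k)
        (AlgebraicClosure (FractionRing (MvPolynomial (Fin n) k)))) := by
      rw [IsScalarTower.algebraMap_eq (MvPolynomial (Fin n) k)
        (FractionRing (MvPolynomial (Fin n) k)) _]
      exact (algebraMap (FractionRing (MvPolynomial (Fin n) k)) _).injective.comp
        (IsFractionRing.injective _ _)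
    have hfs : FaithfulSMul (MvPolynomial (Fin n) k)
        (AlgebraicClosure (FractionRing (MvPolynomial (Fin n) k))) :=
      (faithfulSMul_iff_algebraMap_injective _ _).2 hinj
    have hne : Nonempty (Fin n) := ⟨⟨0, by omega⟩⟩
    have h1 := (IsTranscendenceBasis.mvPolynomial (Fin n) k).algebraMap_comp
      (A := AlgebraicClosure (FractionRing (MvPolynomial (Fin n) k)))
    rw [hι]
    exact h1
  · intro i j
    rw [Matrix.map_apply, hae]
    rfl
  · obtain ⟨m, hm⟩ := nil.nilp
    refine ⟨m, ?_⟩
    have h2 := congrArg (fun M : Matrix (Fin n) (Fin n) (MvPolynomial (Fin n) k) =>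
      ι.mapMatrix M) hm
    simp only [map_pow, map_zero] at h2
    exact h2
  · have h3 := Pool.Agent.AbsIrr.rank_map_field (algebraMap
      (FractionRing (MvPolynomial (Fin n) k))
      (AlgebraicClosure (FractionRing (MvPolynomial (Fin n) k))))
      ((jac H).map (algebraMap _ (FractionRing (MvPolynomial (Fin n) k))))
    rw [← h3] at hr
    convert hr using 2
    rw [hι]
    ext i j
    simp [Matrix.map_apply, ← IsScalarTower.algebraMap_apply]

end Pool.Agent.HDP
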