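import Pool.Agent.Lib.MP_20906e_al.Barg
import Pool.Agent.Lib.MP_20906e_al.Height

/-!
# MP_20906e_al, piece Q7 : translation invariance lemma (helper7)
-/

namespace Pool.Agent.HDP
open MvPolynomial

section TIaux
variable {k : Type*} [Field k]

/-- The directional derivative along a constant vector. -/
noncomputable def dird {n : ℕ} (v : Fin n → k) (F : MvPolynomial (Fin n) k) :
    MvPolynomial (Fin n) k := ∑ i, C (v i) * pderiv i F

/-- The vectors whose directional derivative preserves `I`. -/
def stab {n : ℕ} (I : Ideal (MvPolynomial (Fin n) k)) : Submodule k (Fin n → k) where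
  carrier := {v | ∀ F ∈ I, dird v F ∈ I}
  zero_mem' := by
    intro F _
    simp [dird]
  add_mem' := by
    intro v w hv hw F hF
    have : dird (v + w) F = dird v F + dird w F := by
      simp [dird, add_mul, Finset.sum_add_distrib]
    rw [this]
    exact I.add_mem (hv F hF) (hw F hF)
  smul_mem' := by
    intro a v hv F hF
    have : dird (a • v) F = C a * dird v F := by
      simp [dird, mul_assoc, Finset.mul_sum]
    rw [this]
    exact I.mul_mem_left _ (hv F hF)

/-- A form in a proper ideal which is stable under `v` vanishes at `v`. -/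
lemma eval_eq_zero_of_stab [CharZero k] {n : ℕ} {I : Ideal (MvPolynomial (Fin n) k)} (hI : I ≠ ⊤)
    {v : Fin n → k} (hv : v ∈ stab I) : ∀ (e : ℕ) (P : MvPolynomial (Fin n) k),
      P.IsHomogeneous e → P ∈ I → eval v P = 0 := by
  intro e
  induction e with
  | zero =>
    intro P hP hPI
    have h0 : P = C (coeff 0 P) := by
      have := (totalDegree_eq_zero_iff_eq_C (p := P)).1 (by
        by_cases h : P = 0
        · simp [h]
        · exact hP.totalDegree h)
      exact this
    have h1 : coeff 0 P = 0 := by
      by_contra h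
      apply hI
      rw [Ideal.eq_top_iff_one]
      have : (1 : MvPolynomial (Fin n) k) = C (coeff 0 P)⁻¹ * P := by
        conv_rhs => rw [h0]
        rw [← C_mul]
        simp [h]
      rw [this]
      exact I.mul_mem_left _ hPI
    rw [h0, h1]
    simp
  | succ e ih =>
    intro P hP hPI
    have hD : (dird v P).IsHomogeneous e := by
      apply IsHomogeneous.sum
      intro i _
      have := (isHomogeneous_C (Fin n) (v i)).mul (hP.pderiv (i := i))
      simpa using this
    have h1 := ih (dird v P) hD (hv P hPI)
    have h2 : eval v (dird v P) = (e + 1 : ℕ) • eval v P := by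
      have := congrArg (eval v) hP.sum_X_mul_pderiv
      rw [map_sum, map_nsmul] at this
      rw [← this]
      simp [dird]
    rw [h2] at h1
    have h3 : ((e + 1 : ℕ) : k) ≠ 0 := Nat.cast_ne_zero.2 (Nat.succ_ne_zero e)
    rw [nsmul_eq_mul] at h1
    exact (mul_eq_zero.1 h1).resolve_left h3

/-- A polynomial vanishing on the kernel of a linear form is divisible by it. -/
lemma dvd_of_vanish [Infinite k] {n : ℕ} (f : (Fin n → k) →ₗ[k] k) {u : Fin n → k} (hu : f u = 1)
    {P : MvPolynomial (Fin n) k} (hP : ∀ v, f v = 0 → eval v P = 0) :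
    (∑ i, C (f (Pi.single i 1)) * X i : MvPolynomial (Fin n) k) ∣ P := by
  set ℓ : MvPolynomial (Fin n) k := ∑ i, C (f (Pi.single i 1)) * X i with hℓ
  have hev : ∀ v : Fin n → k, eval v ℓ = f v := by
    intro v
    rw [hℓ, map_sum]
    have : f v = f (∑ i, v i • (Pi.single i 1 : Fin n → k)) := by
      congr 1
      ext j
      simp [Finset.sum_apply, Pi.single_apply]
    rw [this, map_sum]
    refine Finset.sum_congr rfl fun i _ => ?_
    simp [mul_comm]
  let σ : Fin n → MvPolynomial (Fin n) k := fun i => X i - C (u i) * ℓ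
  have h0 : aeval σ P = 0 := by
    apply MvPolynomial.funext
    intro v
    rw [map_zero]
    have h1 : eval v (aeval σ P) = eval (fun i => eval v (σ i)) P := by
      have : (eval v).comp (aeval σ).toRingHom = eval (fun i => eval v (σ i)) := by
        apply MvPolynomial.ringHom_ext
        · intro a; simp
        · intro i; simp
      exact congrArg (fun g : MvPolynomial (Fin n) k →+* k => g P) this
    rw [h1]
    apply hP
    have h2 : (fun i => eval v (σ i)) = v - f v • u := by
      ext i
      simp [σ, hev, mul_comm]
    rw [h2, map_sub, map_smul, hu]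
    simp
  have h3 : P - aeval σ P ∈ Ideal.span {ℓ} := by
    rw [← Ideal.Quotient.eq]
    have : (Ideal.Quotient.mkₐ k (Ideal.span {ℓ})) =
        (Ideal.Quotient.mkₐ k (Ideal.span {ℓ})).comp (aeval σ) := by
      apply MvPolynomial.algHom_ext
      intro i
      simp only [AlgHom.comp_apply, aeval_X, Ideal.Quotient.mkₐ_eq_mk]
      rw [Ideal.Quotient.eq, Ideal.mem_span_singleton]
      refine ⟨C (u i), ?_⟩
      simp only [σ]
      ring
    exact congrArg (fun g : MvPolynomial (Fin n) k →ₐ[k] _ => g P) this
  rw [h0, sub_zero, Ideal.mem_span_singleton] at h3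
  exact h3

/-- Linear algebra: two coprime forms cannot both vanish on a subspace of codimension at most one. -/
lemma finrank_add_two_le [Infinite k] {n : ℕ} {P Q : MvPolynomial (Fin n) k} {e : ℕ} (he : e ≠ 0)
    (hPh : P.IsHomogeneous e) (hPQ : IsRelPrime P Q) (hP0 : P ≠ 0)
    (W : Submodule k (Fin n → k)) (hP : ∀ v ∈ W, eval v P = 0) (hQ : ∀ v ∈ W, eval v Q = 0) :
    Module.finrank k W + 2 ≤ n := by
  by_contra hcon
  push Not at hcon
  have hn : n ≠ 0 := by
    rintro rfl
    apply hP0
    have h1 : P = C (coeff 0 P) := by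
      have : Subsingleton (Fin 0 →₀ ℕ) := inferInstance
      ext m
      rw [Subsingleton.elim m 0]
      simp
    have h2 : coeff 0 P = 0 := by
      by_contra h
      exact he (by simpa using (hPh h).symm)
    rw [h1, h2, map_zero]
  -- a nonzero functional whose kernel is contained in `W`
  obtain ⟨f, hf0, hf⟩ : ∃ f : (Fin n → k) →ₗ[k] k, f ≠ 0 ∧ LinearMap.ker f ≤ W := by
    by_cases hW : W = ⊤
    · refine ⟨LinearMap.proj ⟨0, Nat.pos_of_ne_zero hn⟩, ?_, by rw [hW]; exact le_top⟩
      intro h
      have := congrArg (fun g : (Fin n → k) →ₗ[k] k => g (fun _ => 1)) h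
      simp at this
    · obtain ⟨f, hf0, hf⟩ := Submodule.exists_le_ker_of_lt_top W (lt_top_iff_ne_top.2 hW)
      refine ⟨f, hf0, ?_⟩
      have hr : Module.finrank k (LinearMap.range f) = 1 := by
        have : LinearMap.range f = ⊤ := LinearMap.range_eq_top.2 (LinearMap.surjective hf0)
        rw [this, finrank_top, Module.finrank_self]
      have h1 := LinearMap.finrank_range_add_finrank_ker f
      rw [hr, Module.finrank_fin_fun] at h1
      exact (Submodule.eq_of_le_of_finrank_le hf (by omega)).ge
  obtain ⟨u, hu⟩ : ∃ u, f u = 1 := LinearMap.surjective hf0 1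
  have h1 := dvd_of_vanish f hu (P := P) fun v hv => hP v (hf (LinearMap.mem_ker.2 hv))
  have h2 := dvd_of_vanish f hu (P := Q) fun v hv => hQ v (hf (LinearMap.mem_ker.2 hv))
  have h3 := hPQ h1 h2
  have h4 := h3.map (eval (0 : Fin n → k))
  simp at h4

end TIaux

section TI
variable {k Ω : Type*} [Field k] [Field Ω] [Algebra k Ω] [CharZero k] [IsAlgClosed k]

/-- coefficients of `F (x + T b)` : chain rule in degree one -/
lemma coeff_one_shift {R S : Type*} [CommRing R] [CommRing S] (g : R →+* S) {n : ℕ}
    (x b : Fin n → S) (F : MvPolynomial (Fin n) R) :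
    (eval₂ (Polynomial.C.comp g) (fun i => Polynomial.C (x i) + Polynomial.X * Polynomial.C (b i))
      F).coeff 0 = eval₂ g x F ∧
    (eval₂ (Polynomial.C.comp g) (fun i => Polynomial.C (x i) + Polynomial.X * Polynomial.C (b i))
      F).coeff 1 = ∑ i, b i * eval₂ g x (pderiv i F) := by
  induction F using MvPolynomial.induction_on with
  | C a => simp
  | add p q hp hq =>
    refine ⟨?_, ?_⟩
    · simp only [eval₂_add, Polynomial.coeff_add, hp.1, hq.1]
    · simp only [eval₂_add, Polynomial.coeff_add, hp.2, hq.2, map_add, mul_add,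
        Finset.sum_add_distrib]
  | mul_X p j hp =>
    refine ⟨?_, ?_⟩
    · simp only [eval₂_mul, eval₂_X, Polynomial.mul_coeff_zero, hp.1, Polynomial.coeff_add,
        Polynomial.coeff_C_zero, Polynomial.coeff_X_zero, zero_mul, add_zero]
    · simp only [eval₂_mul, eval₂_X]
      rw [Polynomial.mul_coeff_one]
      simp only [hp.1, hp.2, Polynomial.coeff_add, Polynomial.coeff_C_zero,
        Polynomial.mul_coeff_zero, Polynomial.coeff_X_zero, zero_mul, add_zero]
      have h1 : (Polynomial.C (x j) : Polynomial S).coeff 1 = 0 := by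
        rw [Polynomial.coeff_C]; simp
      have h2 : ((Polynomial.X : Polynomial S) * Polynomial.C (b j)).coeff 1 = b j := by
        rw [Polynomial.coeff_mul_C]; simp
      rw [h1, h2, zero_add]
      have h3 : ∀ i, eval₂ g x (pderiv i (p * X j)) =
          eval₂ g x (pderiv i p) * x j + (if i = j then eval₂ g x p else 0) := by
        intro i
        rw [Derivation.leibniz, pderiv_X]
        by_cases h : i = j
        · subst h
          simp only [smul_eq_mul, eval₂_add, eval₂_mul, eval₂_X, Pi.single_eq_same, eval₂_one,
            if_true]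
          ring
        · have : (Pi.single i (1 : MvPolynomial (Fin n) R) : Fin n → _) j = 0 := by
            rw [Pi.single_apply, if_neg (Ne.symm h)]
          simp only [smul_eq_mul, eval₂_mul, eval₂_X, this, mul_zero,
            if_neg h, zero_add, add_zero]
          ring
      simp only [h3, mul_add, Finset.sum_add_distrib, mul_ite, mul_zero, Finset.sum_ite_eq',
        Finset.mem_univ, if_true, Finset.sum_mul]
      rw [add_comm]
      congr 1
      · exact Finset.sum_congr rfl fun i _ => by ring
      · ring

/-! ## Q7: translation invariance lemma -/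
/-- If `b ∈ acl{τ}^n`, `τ = P/Q`, and `P, Q` are invariant under `x ↦ x + T b` (T a parameter), then the
`k`-span of the coordinates of `b` has dimension at most `n - 2`. -/
theorem translation_invariance {n : ℕ} {x : Fin n → Ω} (hx : AlgebraicIndependent k x)
    {P Q : MvPolynomial (Fin n) k} {e : ℕ} (he : e ≠ 0) (hPh : P.IsHomogeneous e)
    (hQh : Q.IsHomogeneous e) (hPQ : IsRelPrime P Q)
    (hτ : aeval x P / aeval x Q ∉ acl k (∅ : Set Ω))
    {b : Fin n → Ω} (hb : ∀ i, b i ∈ acl k ({aeval x P / aeval x Q} : Set Ω))
    (hPb : ∀ T : Ω, aeval (fun i => x i + T * b i) P = aeval x P)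
    (hQb : ∀ T : Ω, aeval (fun i => x i + T * b i) Q = aeval x Q) :
    Module.finrank k (Submodule.span k (Set.range b)) + 2 ≤ n := by
  obtain ⟨I, hImin, hIp, hPI, hQI⟩ := exists_minimalPrime_pair he hPh hQh
  obtain ⟨V, hxV, haV, hcen, hlin⟩ := barg hx hPQ hτ I hIp hPI hQI
  set τ : Ω := aeval x P / aeval x Q with hτdef
  have hP0 : P ≠ 0 := by
    rintro rfl
    apply hτ
    rw [hτdef, map_zero, zero_div]
    exact zero_mem _
  have hbV : ∀ i, b i ∈ V := fun i => haV _ (hb i)
  have hkV : ∀ c : k, algebraMap k Ω c ∈ V := fun c => haV _ (algebraMap_mem _ c)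
  -- the ring hom from `k` to `V`
  let gV : k →+* V := (algebraMap k Ω).codRestrict V.toSubring hkV
  have hgV : V.subtype.comp gV = algebraMap k Ω := by ext c; rfl
  let xV : Fin n → V := fun i => ⟨x i, hxV i⟩
  let bV : Fin n → V := fun i => ⟨b i, hbV i⟩
  let ψ : MvPolynomial (Fin n) k →+* Polynomial V :=
    eval₂Hom (Polynomial.C.comp gV) (fun i => Polynomial.C (xV i) + Polynomial.X * Polynomial.C (bV i))
  have hψ : ∀ F, ψ F = eval₂ (Polynomial.C.comp gV)
      (fun i => Polynomial.C (xV i) + Polynomial.X * Polynomial.C (bV i)) F := fun F => rfl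
  have hsub : ∀ F : MvPolynomial (Fin n) k, ((eval₂ gV xV F : V) : Ω) = aeval x F := by
    intro F
    have : V.subtype (eval₂ gV xV F) = eval₂ (V.subtype.comp gV) (fun i => V.subtype (xV i)) F :=
      eval₂_comp_left V.subtype gV xV F
    rw [hgV] at this
    exact this
  let J : Ideal (MvPolynomial (Fin n) k) :=
    Ideal.comap ψ (Ideal.map Polynomial.C (IsLocalRing.maximalIdeal V))
  have hJp : J.IsPrime := by
    have : (Ideal.map Polynomial.C (IsLocalRing.maximalIdeal V)).IsPrime :=
      Ideal.isPrime_map_C_of_isPrime
    exact Ideal.comap_isPrime _ _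
  have hJmem : ∀ F, F ∈ J ↔ ∀ j, (ψ F).coeff j ∈ IsLocalRing.maximalIdeal V := fun F => by
    rw [Ideal.mem_comap, Ideal.mem_map_C_iff]
  -- forms invariant under the translation
  have hinv : ∀ F : MvPolynomial (Fin n) k, F ∈ I →
      (∀ T : Ω, aeval (fun i => x i + T * b i) F = aeval x F) → F ∈ J := by
    intro F hFI hF
    have hfun : (ψ F).map V.subtype = Polynomial.C (aeval x F) := by
      have : Infinite Ω := by
        have : CharZero Ω := charZero_of_injective_algebraMap (algebraMap k Ω).injective
        infer_instance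
      apply Polynomial.funext
      intro T
      rw [Polynomial.eval_C, ← hF T, Polynomial.eval_map]
      have h1 : Polynomial.eval₂ V.subtype T (ψ F) =
          (Polynomial.eval₂RingHom V.subtype T).comp ψ F := rfl
      have h2 : (Polynomial.eval₂RingHom V.subtype T).comp ψ =
          ((aeval (fun i => x i + T * b i) : MvPolynomial (Fin n) k →ₐ[k] Ω) :
            MvPolynomial (Fin n) k →+* Ω) := by
        apply MvPolynomial.ringHom_ext
        · intro c
          simp [ψ, gV]
        · intro i
          simp only [ψ, RingHom.comp_apply, coe_eval₂Hom, eval₂_X, RingHom.coe_coe, aeval_X,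
            Polynomial.coe_eval₂RingHom, Polynomial.eval₂_add, Polynomial.eval₂_mul,
            Polynomial.eval₂_C, Polynomial.eval₂_X]
          rfl
      rw [h1, h2]
      rfl
    rw [hJmem]
    intro j
    rcases Nat.eq_zero_or_pos j with rfl | hj
    · rw [hψ, (coeff_one_shift gV xV bV F).1, ValuationSubring.valuation_lt_one_iff, hsub]
      exact (hcen F).2 hFI
    · have h1 : ((ψ F).coeff j : Ω) = 0 := by
        have := congrArg (fun p => Polynomial.coeff p j) hfun
        simp only [Polynomial.coeff_map] at this
        rw [Polynomial.coeff_C, if_neg hj.ne'] at this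
        exact this
      have h2 : (ψ F).coeff j = 0 := Subtype.ext h1
      rw [h2]
      exact zero_mem _
  have hJI : J ≤ I := by
    intro F hF
    have h1 := (hJmem F).1 hF 0
    rw [hψ, (coeff_one_shift gV xV bV F).1, ValuationSubring.valuation_lt_one_iff, hsub] at h1
    exact (hcen F).1 h1
  have hIJ : I ≤ J := by
    refine hImin.2 ⟨hJp, ?_⟩ hJI
    rw [Ideal.span_le]
    rintro F (rfl | hF)
    · exact hinv _ hPI hPb
    · rw [Set.mem_singleton_iff] at hF
      rw [hF]
      exact hinv _ hQI hQb
  -- first order coefficient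
  have hfirst : ∀ F ∈ I, V.valuation (∑ i, b i * aeval x (pderiv i F)) < 1 := by
    intro F hF
    have h1 := (hJmem F).1 (hIJ hF) 1
    rw [hψ, (coeff_one_shift gV xV bV F).2, ValuationSubring.valuation_lt_one_iff] at h1
    have h2 : ((∑ i, bV i * eval₂ gV xV (pderiv i F) : V) : Ω) =
        ∑ i, b i * aeval x (pderiv i F) := by
      rw [AddSubmonoidClass.coe_finsetSum]
      refine Finset.sum_congr rfl fun i _ => ?_
      rw [← hsub]
      rfl
    rw [h2] at h1
    exact h1
  -- a basis of the span
  set B := Submodule.span k (Set.range b) with hB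
  have hBfin : FiniteDimensional k B := FiniteDimensional.span_of_finite k (Set.finite_range b)
  set m := Module.finrank k B with hm
  let β : Module.Basis (Fin m) k B := Module.finBasisOfFinrankEq k B rfl
  let η : Fin m → Ω := fun l => (β l : Ω)
  have hBacl : ∀ z ∈ B, z ∈ acl k ({τ} : Set Ω) := by
    intro z hz
    have : B ≤ Subalgebra.toSubmodule (acl k ({τ} : Set Ω)).toSubalgebra := by
      rw [hB, Submodule.span_le]
      rintro _ ⟨i, rfl⟩
      exact hb i
    exact this hz
  have hη : ∀ l, η l ∈ acl k ({τ} : Set Ω) := fun l => hBacl _ (β l).2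
  have hηli : LinearIndependent k η :=
    β.linearIndependent.map' B.subtype (Submodule.ker_subtype B)
  have hbB : ∀ i, b i ∈ B := fun i => Submodule.subset_span ⟨i, rfl⟩
  let c : Fin m → Fin n → k := fun l i => β.repr ⟨b i, hbB i⟩ l
  have hbc : ∀ i, b i = ∑ l, algebraMap k Ω (c l i) * η l := by
    intro i
    have h1 := β.sum_repr ⟨b i, hbB i⟩
    have h2 := congrArg (fun z : B => (z : Ω)) h1
    simp only [AddSubmonoidClass.coe_finsetSum, SetLike.val_smul] at h2
    rw [← h2]
    exact Finset.sum_congr rfl fun l _ => by rw [Algebra.smul_def]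
  have hcli : LinearIndependent k c := by
    rw [Fintype.linearIndependent_iff]
    intro a ha l
    -- the functional with values `a` on the basis kills all `b i`
    let f : B →ₗ[k] k := β.constr k a
    have hf : ∀ z : B, f z = 0 := by
      have hf1 : ∀ i, f ⟨b i, hbB i⟩ = 0 := by
        intro i
        have h1 : f ⟨b i, hbB i⟩ = ∑ l, a l * c l i := by
          rw [Module.Basis.constr_apply_fintype]
          exact Finset.sum_congr rfl fun l _ => by
            simp only [Module.Basis.equivFun_apply, smul_eq_mul, c]; ring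
        rw [h1]
        have h2 := congrFun ha i
        simpa [Finset.sum_apply] using h2
      rintro ⟨z, hz⟩
      induction hz using Submodule.span_induction with
      | mem z hz => obtain ⟨i, rfl⟩ := hz; exact hf1 i
      | zero => exact map_zero f
      | add y z hy hz h1 h2 =>
        have := map_add f ⟨y, hy⟩ ⟨z, hz⟩
        rw [h1, h2, add_zero] at this
        exact this
      | smul t y hy h1 =>
        have := map_smul f t ⟨y, hy⟩
        rw [h1, smul_zero] at this
        exact this
    have h3 := hf (β l)
    rw [Module.Basis.constr_basis] at h3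
    exact h3
  have hcstab : ∀ l, c l ∈ stab I := by
    intro l F hF
    refine hlin m η (fun l => dird (c l) F) hη hηli ?_ l
    have h1 : ∑ l, η l * aeval x (dird (c l) F) = ∑ i, b i * aeval x (pderiv i F) := by
      simp only [dird, map_sum, map_mul, aeval_C, Finset.mul_sum]
      rw [Finset.sum_comm]
      refine Finset.sum_congr rfl fun i _ => ?_
      rw [hbc i, Finset.sum_mul]
      exact Finset.sum_congr rfl fun l _ => by ring
    rw [h1]
    exact hfirst F hF
  have hmW : m ≤ Module.finrank k (stab I) := by
    let c' : Fin m → stab I := fun l => ⟨c l, hcstab l⟩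
    have hc' : LinearIndependent k c' := by
      apply LinearIndependent.of_comp (stab I).subtype
      exact hcli
    simpa using hc'.fintype_card_le_finrank
  have hItop : I ≠ ⊤ := hIp.ne_top
  have : Infinite k := inferInstance
  have h1 := finrank_add_two_le he hPh hPQ hP0 (stab I)
    (fun v hv => eval_eq_zero_of_stab hItop hv e P hPh hPI)
    (fun v hv => eval_eq_zero_of_stab hItop hv e Q hQh hQI)
  omega

end TI
end Pool.Agent.HDP
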