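import Mathlib
import Pool.Agent.Lib.MP_20906e_al.Ctx2Basic
import Pool.Agent.Lib.MP_20906e_al.TI
import Pool.Agent.Lib.MP_20906e_al.CP

/-!
# MP_20906e_al, piece R1: the case `Dh τ = 0` of the rank two context (helper60)
-/

namespace Pool.Agent.HDP
open MvPolynomial

section R1
variable {k Ω : Type*} [Field k] [Field Ω] [Algebra k Ω]

/-- `F (x + T h)` as a polynomial in `T` -/
noncomputable def shiftPoly {n : ℕ} (x h : Fin n → Ω) (F : MvPolynomial (Fin n) k) : Polynomial Ω :=
  aeval (fun i => Polynomial.C (x i) + Polynomial.X * Polynomial.C (h i)) F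

theorem shiftPoly_eval {n : ℕ} (x h : Fin n → Ω) (F : MvPolynomial (Fin n) k) (T : Ω) :
    (shiftPoly x h F).eval T = aeval (fun i => x i + T * h i) F := by
  unfold shiftPoly
  induction F using MvPolynomial.induction_on with
  | C a => rw [aeval_C, aeval_C, Polynomial.algebraMap_apply, Polynomial.eval_C]
  | add p q hp hq => rw [map_add, map_add, Polynomial.eval_add, hp, hq]
  | mul_X p j hp =>
    rw [map_mul, map_mul, Polynomial.eval_mul, hp, aeval_X, aeval_X, Polynomial.eval_add,
      Polynomial.eval_mul, Polynomial.eval_C, Polynomial.eval_C, Polynomial.eval_X]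

theorem shiftPoly_coeff_zero {n : ℕ} (x h : Fin n → Ω) (F : MvPolynomial (Fin n) k) :
    (shiftPoly x h F).coeff 0 = aeval x F := by
  rw [Polynomial.coeff_zero_eq_eval_zero, shiftPoly_eval]
  simp

/-- Taylor: `(m+1) a_{m+1} = D a_m` if `D x = h`, `D h = 0`. -/
theorem shiftPoly_coeff_succ {n : ℕ} (D : Derivation k Ω Ω) {x h : Fin n → Ω}
    (hx : ∀ i, D (x i) = h i) (hh : ∀ i, D (h i) = 0) (F : MvPolynomial (Fin n) k) :
    ∀ m : ℕ, ((m : Ω) + 1) * (shiftPoly x h F).coeff (m + 1) = D ((shiftPoly x h F).coeff m) := by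
  unfold shiftPoly
  induction F using MvPolynomial.induction_on with
  | C a =>
    intro m
    rw [aeval_C, Polynomial.algebraMap_apply, Polynomial.coeff_C, Polynomial.coeff_C]
    split_ifs <;> simp_all
  | add p q hp hq =>
    intro m
    rw [map_add, Polynomial.coeff_add, Polynomial.coeff_add, map_add, ← hp m, ← hq m]
    ring
  | mul_X p j hp =>
    intro m
    rw [map_mul, aeval_X]
    set A := aeval (fun i => Polynomial.C (x i) + Polynomial.X * Polynomial.C (h i)) p with hA
    have e1 : A * (Polynomial.C (x j) + Polynomial.X * Polynomial.C (h j)) =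
        A * Polynomial.C (x j) + (A * Polynomial.C (h j)) * Polynomial.X := by ring
    rw [e1]
    rcases m with _ | m
    · rw [Polynomial.coeff_add, Polynomial.coeff_add, Polynomial.coeff_mul_C,
        Polynomial.coeff_mul_C, Polynomial.coeff_mul_X, Polynomial.coeff_mul_C,
        Polynomial.mul_coeff_zero, Polynomial.coeff_X_zero, mul_zero, add_zero,
        Derivation.leibniz, hx, smul_eq_mul, smul_eq_mul, ← hp 0]
      push_cast
      ring
    · rw [Polynomial.coeff_add, Polynomial.coeff_add, Polynomial.coeff_mul_C,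
        Polynomial.coeff_mul_C, Polynomial.coeff_mul_X, Polynomial.coeff_mul_C,
        Polynomial.coeff_mul_X, Polynomial.coeff_mul_C, map_add,
        Derivation.leibniz, Derivation.leibniz, hx, hh, smul_eq_mul, smul_eq_mul, smul_zero,
        smul_eq_mul, ← hp (m + 1), ← hp m]
      push_cast
      ring

variable [CharZero k]

theorem shiftPoly_const {n : ℕ} (D : Derivation k Ω Ω) {x h : Fin n → Ω}
    (hx : ∀ i, D (x i) = h i) (hh : ∀ i, D (h i) = 0) {F : MvPolynomial (Fin n) k}
    (hF : D (aeval x F) = 0) : shiftPoly x h F = Polynomial.C (aeval x F) := by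
  have : CharZero Ω := charZero_of_injective_algebraMap (algebraMap k Ω).injective
  have key : ∀ m : ℕ, (shiftPoly x h F).coeff (m + 1) = 0 := by
    intro m
    induction m with
    | zero =>
      have h1 := shiftPoly_coeff_succ D hx hh F 0
      rw [shiftPoly_coeff_zero, hF] at h1
      simpa using h1
    | succ m ih =>
      have h1 := shiftPoly_coeff_succ D hx hh F (m + 1)
      rw [ih, map_zero] at h1
      have h2 : (((m + 1 : ℕ) : Ω) + 1) ≠ 0 := by exact_mod_cast Nat.succ_ne_zero (m + 1)
      exact (mul_eq_zero.1 h1).resolve_left h2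
  ext m
  rcases m with _ | m
  · rw [shiftPoly_coeff_zero, Polynomial.coeff_C_zero]
  · rw [key, Polynomial.coeff_C_succ]

/-- proportional: if `P(x) = τ Q(x)` with `D τ = 0`, then `P(x + T h) = τ Q(x + T h)` -/
theorem shiftPoly_prop {n : ℕ} (D : Derivation k Ω Ω) {x h : Fin n → Ω}
    (hx : ∀ i, D (x i) = h i) (hh : ∀ i, D (h i) = 0) {P Q : MvPolynomial (Fin n) k} {τ : Ω}
    (hτ : D τ = 0) (hPQ : aeval x P = τ * aeval x Q) :
    shiftPoly x h P = Polynomial.C τ * shiftPoly x h Q := by
  have : CharZero Ω := charZero_of_injective_algebraMap (algebraMap k Ω).injective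
  ext m
  rw [Polynomial.coeff_C_mul]
  induction m with
  | zero => rw [shiftPoly_coeff_zero, shiftPoly_coeff_zero, hPQ]
  | succ m ih =>
    have h1 := shiftPoly_coeff_succ D hx hh P m
    have h2 := shiftPoly_coeff_succ D hx hh Q m
    rw [ih, Derivation.leibniz, hτ, smul_zero, add_zero, smul_eq_mul, ← h2] at h1
    have h3 : ((m : Ω) + 1) ≠ 0 := by exact_mod_cast Nat.succ_ne_zero m
    apply mul_left_cancel₀ h3
    rw [h1]
    ring

omit [CharZero k] in
/-- if `x ∈ acl (z, T)` then some `n - 1` of the `z` are algebraically independent -/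
theorem exists_index_of_span {n : ℕ} (j0 : Fin n) {x z : Fin n → Ω} {T : Ω}
    (hx : AlgebraicIndependent k x)
    (h : ∀ i, x i ∈ acl k (insert T (Set.range z))) :
    ∃ i : Fin n, AlgebraicIndependent k (fun j : {j // j ≠ i} => z j) := by
  classical
  -- a maximal independent index set
  let 𝒮 : Finset (Finset (Fin n)) :=
    Finset.univ.filter (fun S => AlgebraicIndependent k (fun j : {j // j ∈ S} => z j))
  have hne : 𝒮.Nonempty := by
    refine ⟨∅, ?_⟩
    simp only [𝒮, Finset.mem_filter, Finset.mem_univ, true_and]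
    have : IsEmpty {j // j ∈ (∅ : Finset (Fin n))} := ⟨fun j => absurd j.2 (Finset.notMem_empty _)⟩
    rw [algebraicIndependent_empty_type_iff]
    exact (algebraMap k Ω).injective
  obtain ⟨S, hS, hmax⟩ := Finset.exists_max_image 𝒮 Finset.card hne
  have hSi : AlgebraicIndependent k (fun j : {j // j ∈ S} => z j) := by
    simpa [𝒮] using hS
  have hmem : ∀ i, z i ∈ acl k (z '' (S : Set (Fin n))) := by
    intro i
    by_cases hi : i ∈ S
    · exact subset_acl _ ⟨i, hi, rfl⟩
    by_contra hcon
    have hins : AlgebraicIndependent k (fun j : {j // j ∈ insert i S} => z j) := by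
      rw [algInd_iff_notMem]
      rintro ⟨j, hj⟩ hjm
      by_cases hji : j = i
      · subst hji
        apply hcon
        refine acl_mono ?_ hjm
        rintro _ ⟨⟨l, hl⟩, hl', rfl⟩
        refine ⟨l, ?_, rfl⟩
        rcases Finset.mem_insert.1 hl with rfl | h
        · exact absurd rfl hl'
        · exact h
      · have hjS : j ∈ S := (Finset.mem_insert.1 hj).resolve_left hji
        have h1 := (algInd_iff_notMem _).1 hSi ⟨j, hjS⟩
        -- z j ∈ acl (z i, z l : l in S, l ≠ j)
        have h2 : z j ∈ acl k (insert (z i) ((fun l : {l // l ∈ S} => z l) '' {⟨j, hjS⟩}ᶜ)) := by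
          refine acl_mono ?_ hjm
          rintro _ ⟨⟨l, hl⟩, hl', rfl⟩
          rcases Finset.mem_insert.1 hl with rfl | h
          · exact Set.mem_insert _ _
          · refine Set.mem_insert_of_mem _ ⟨⟨l, h⟩, ?_, rfl⟩
            intro h3
            apply hl'
            rw [Set.mem_singleton_iff, Subtype.mk.injEq] at h3 ⊢
            exact h3
        have h3 := acl_exchange h2 h1
        apply hcon
        refine acl_mono ?_ h3
        rintro w (rfl | ⟨⟨l, hl⟩, _, rfl⟩)
        · exact ⟨j, hjS, rfl⟩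
        · exact ⟨l, hl, rfl⟩
    have hcard := hmax (insert i S) (by simpa [𝒮] using hins)
    rw [Finset.card_insert_of_notMem hi] at hcard
    omega
  have hspan : ∀ i, x i ∈ acl k (Set.range (Fin.cons T (fun l : Fin S.card => z (S.equivFin.symm l).1) :
      Fin (S.card + 1) → Ω)) := by
    intro i
    have hle : acl k (insert T (Set.range z)) ≤
        acl k (Set.range (Fin.cons T (fun l : Fin S.card => z (S.equivFin.symm l).1) :
          Fin (S.card + 1) → Ω)) := by
      rw [acl_le_iff]
      rintro w (rfl | ⟨l, rfl⟩)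
      · exact subset_acl _ ⟨0, rfl⟩
      · refine acl_mono ?_ (hmem l)
        rintro _ ⟨m, hm, rfl⟩
        refine ⟨Fin.succ (S.equivFin ⟨m, hm⟩), ?_⟩
        rw [Fin.cons_succ]
        simp
    exact hle (h i)
  have hcard : n ≤ S.card + 1 := by
    by_contra hlt
    push Not at hlt
    exact not_algInd_of_lt hspan hlt hx
  obtain ⟨i, hi⟩ : ∃ i, ∀ j, j ≠ i → j ∈ S := by
    have h1 : Sᶜ.card ≤ 1 := by
      rw [Finset.card_compl, Fintype.card_fin]
      omega
    rw [Finset.card_le_one] at h1
    by_cases h2 : Sᶜ.Nonempty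
    · obtain ⟨i, hi⟩ := h2
      refine ⟨i, fun j hj => ?_⟩
      by_contra hjS
      exact hj (h1 j (Finset.mem_compl.2 hjS) i hi)
    · rw [Finset.not_nonempty_iff_eq_empty] at h2
      refine ⟨j0, fun j _ => ?_⟩
      by_contra hjS
      have := Finset.mem_compl.2 hjS
      rw [h2] at this
      exact absurd this (Finset.notMem_empty _)
  refine ⟨i, ?_⟩
  exact hSi.comp (fun j : {j // j ≠ i} => (⟨j.1, hi j.1 j.2⟩ : {j // j ∈ S})) (by
    intro a b hab
    apply Subtype.ext
    simpa using hab)

end R1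

namespace Ctx2
variable {k Ω : Type*} [Field k] [IsAlgClosed k] [CharZero k] [Field Ω] [IsAlgClosed Ω] [Algebra k Ω]

theorem theta_zero {n : ℕ} (c : Ctx2 k Ω n) (hθ : c.Dh c.τ = 0) : False := by
  have : CharZero Ω := charZero_of_injective_algebraMap (algebraMap k Ω).injective
  -- `Dh f = 0`
  have hDf : c.Dh c.f = 0 := by
    have h1 := c.det
    rw [hθ, mul_zero] at h1
    rcases mul_eq_zero.1 h1 with h2 | h2
    · exact h2
    · have h3 := c.tr
      rw [h2, mul_zero, add_zero] at h3
      exact h3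
  have hDacl : ∀ z ∈ acl k ({c.τ} : Set Ω), c.Dh z = 0 :=
    der_acl_zero c.Dh (S := {c.τ}) (by rintro _ rfl; exact hθ)
  have hDh : ∀ i, c.Dh (c.h i) = 0 := fun i => hDacl _ (c.hmem i)
  have hDy : ∀ i, c.Dh (c.y i) = 0 := by
    intro i
    rw [c.hh, Derivation.leibniz, hDh, hDf, smul_zero, smul_zero, add_zero]
  obtain ⟨P, Q, e, he, hrel, hP, hQ, hQ0, hτ⟩ := c.exists_forms
  have hPQ : aeval c.x P = c.τ * aeval c.x Q := by
    rw [hτ, div_mul_cancel₀ _ hQ0]
  have hprop := shiftPoly_prop c.Dh c.Dhx hDh hθ hPQ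
  -- the constant case
  have hconst : (shiftPoly c.x c.h Q).degree = 0 → False := by
    intro hdeg
    have hQc : shiftPoly c.x c.h Q = Polynomial.C (aeval c.x Q) := by
      rw [Polynomial.eq_C_of_degree_eq_zero hdeg, shiftPoly_coeff_zero]
    have hQb : ∀ T : Ω, aeval (fun i => c.x i + T * c.h i) Q = aeval c.x Q := by
      intro T
      rw [← shiftPoly_eval, hQc, Polynomial.eval_C]
    have hPb : ∀ T : Ω, aeval (fun i => c.x i + T * c.h i) P = aeval c.x P := by
      intro T
      rw [← shiftPoly_eval, hprop, hQc, Polynomial.eval_mul, Polynomial.eval_C, Polynomial.eval_C,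
        hPQ]
    have h1 := translation_invariance c.tb.1 he hP hQ hrel (by rw [← hτ]; exact c.τk)
      (b := c.h) (by intro i; rw [← hτ]; exact c.hmem i) hPb hQb
    rw [finrank_span_eq_card c.h_indep, Fintype.card_fin] at h1
    omega
  by_cases hdeg : (shiftPoly c.x c.h Q).degree = 0
  · exact hconst hdeg
  -- a root
  obtain ⟨T0, hT0⟩ := IsAlgClosed.exists_root (shiftPoly c.x c.h Q) hdeg
  rw [Polynomial.IsRoot.def] at hT0
  set z : Fin n → Ω := fun i => c.x i + T0 * c.h i with hz
  have hzQ : aeval z Q = 0 := by rw [hz, ← shiftPoly_eval]; exact hT0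
  have hzP : aeval z P = 0 := by
    rw [hz, ← shiftPoly_eval, hprop, Polynomial.eval_mul, hT0, mul_zero]
  have hzH : ∀ i, aeval z (c.H i) = c.y i := by
    intro i
    have h1 : c.Dh (aeval c.x (c.H i)) = 0 := by rw [← c.hy]; exact hDy i
    rw [hz, ← shiftPoly_eval, shiftPoly_const c.Dh c.Dhx hDh h1, Polynomial.eval_C, c.hy]
  have haev : ∀ F : MvPolynomial (Fin n) k, aeval z F ∈ acl k (Set.range z) := by
    intro F
    induction F using MvPolynomial.induction_on with
    | C a => rw [aeval_C]; exact IntermediateField.algebraMap_mem _ _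
    | add p q hp hq => rw [map_add]; exact add_mem hp hq
    | mul_X p j hp => rw [map_mul, aeval_X]; exact mul_mem hp (subset_acl _ ⟨j, rfl⟩)
  have hhz : ∀ i, c.h i ∈ acl k (Set.range z) := by
    intro i
    have h1 : c.h i = aeval z (c.H i) / aeval z (c.H c.j) := by
      rw [hzH, hzH, ← c.hf, c.hh, mul_div_cancel_left₀ _ c.f0]
    rw [h1]
    exact div_mem (haev _) (haev _)
  have hxz : ∀ i, c.x i ∈ acl k (insert T0 (Set.range z)) := by
    intro i
    have h1 : c.x i = z i - T0 * c.h i := by rw [hz]; ring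
    rw [h1]
    exact sub_mem (subset_acl _ (Set.mem_insert_of_mem _ ⟨i, rfl⟩))
      (mul_mem (subset_acl _ (Set.mem_insert _ _)) (acl_mono (Set.subset_insert _ _) (hhz i)))
  obtain ⟨i, hi⟩ := exists_index_of_span c.j c.tb.1 hxz
  exact coprime_pair_zero hrel hzP hzQ i hi

end Ctx2
end Pool.Agent.HDP
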