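import Mathlib
import Pool.Agent.Lib.MP_20906e_al.Defs
import Pool.Agent.Lib.MP_20906e_al.Ctx2
import Pool.Agent.Lib.MP_20906e_al.Ctx2Basic
import Pool.Agent.Lib.MP_20906e_al.Acl
import Pool.Agent.Lib.MP_20906e_al.Der
import Pool.Agent.Lib.MP_20906e_al.Barg
import Pool.Agent.Lib.MP_20906e_al.Height
import Pool.Agent.Lib.MP_20906e_al.Wr

/-!
# MP_20906e_al, piece R2: rank two, dimension three (helper72)
-/

set_option linter.unusedSectionVars false

namespace Pool.Agent.HDP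
open MvPolynomial

namespace Ctx2
variable {k Ω : Type*} [Field k] [IsAlgClosed k] [CharZero k] [Field Ω] [IsAlgClosed Ω] [Algebra k Ω]

section Theta
variable {n : ℕ} (c : Ctx2 k Ω n)

/-- the derivation killing `f` and `τ` -/
noncomputable def Xd : Derivation k Ω Ω := c.Dh' - (c.Dh' c.τ / c.Dh c.τ) • c.Dh

theorem Xd_apply (z : Ω) : c.Xd z = c.Dh' z - (c.Dh' c.τ / c.Dh c.τ) * c.Dh z := by
  simp [Xd]

theorem Xd_τ (hθ : c.Dh c.τ ≠ 0) : c.Xd c.τ = 0 := by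
  rw [Xd_apply]
  field_simp
  ring

theorem Xd_f (hθ : c.Dh c.τ ≠ 0) : c.Xd c.f = 0 := by
  rw [Xd_apply]
  have := c.det
  field_simp
  linear_combination -this

theorem Xd_x (i : Fin n) : c.Xd (c.x i) = c.h' i - (c.Dh' c.τ / c.Dh c.τ) * c.h i := by
  rw [Xd_apply, c.Dhx, c.Dhx']

theorem Xd_acl (hθ : c.Dh c.τ ≠ 0) {z : Ω} (hz : z ∈ acl k ({c.τ} : Set Ω)) : c.Xd z = 0 :=
  der_acl_zero c.Xd (S := {c.τ}) (by rintro _ rfl; exact c.Xd_τ hθ) z hz

/-- the derivation with `D τ = 1` -/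
noncomputable def Dt : Derivation k Ω Ω := (c.Dh c.τ)⁻¹ • c.Dh

theorem Dt_apply (z : Ω) : c.Dt z = (c.Dh c.τ)⁻¹ * c.Dh z := by simp [Dt]

theorem Dt_τ (hθ : c.Dh c.τ ≠ 0) : c.Dt c.τ = 1 := by
  rw [Dt_apply, inv_mul_cancel₀ hθ]

theorem Dt_h (hθ : c.Dh c.τ ≠ 0) (i : Fin n) : c.Dt (c.h i) = c.h' i := by
  rw [c.hD, c.Dt_τ hθ, mul_one]

theorem Dt_acl (hθ : c.Dh c.τ ≠ 0) {z : Ω} (hz : z ∈ acl k ({c.τ} : Set Ω)) :
    c.Dt z ∈ acl k ({c.τ} : Set Ω) := by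
  refine der_acl_mem c.Dt (S := {c.τ}) (T := {c.τ}) (subset_acl _) ?_ z hz
  rintro _ rfl
  rw [c.Dt_τ hθ]
  exact one_mem _

theorem Xd_ne (hθ : c.Dh c.τ ≠ 0) : ∃ i, c.Xd (c.x i) ≠ 0 := by
  by_contra hno
  push Not at hno
  have h1 : ∀ i, c.h' i = (c.Dh' c.τ / c.Dh c.τ) * c.h i := by
    intro i
    have := hno i
    rw [Xd_x] at this
    linear_combination this
  have h2 := h1 c.j
  have h3 : c.h' c.j = 0 := by
    rw [← c.Dt_h hθ, c.hj, Derivation.map_one_eq_zero]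
  rw [h3, c.hj, mul_one] at h2
  obtain ⟨i, hi⟩ := c.hτ
  have h4 := c.Dt_h hθ i
  rw [h1 i, ← h2, zero_mul, ← hi, c.Dt_τ hθ] at h4
  exact one_ne_zero h4

end Theta

theorem mem_f_τ3 (c : Ctx2 k Ω 3) (hθ : c.Dh c.τ ≠ 0) {g : Ω} (hg : c.Xd g = 0) :
    g ∈ acl k (insert c.f {c.τ} : Set Ω) := by
  by_contra hne
  have h1 : AlgebraicIndependent k ![c.τ] := by
    rw [algInd_iff_notMem]
    intro i hi
    refine c.τk (acl_mono ?_ (?_ : c.τ ∈ acl k (![c.τ] '' {i}ᶜ)))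
    · rintro _ ⟨l, hl, rfl⟩
      exact absurd (Subsingleton.elim l i) hl
    · have : ![c.τ] i = c.τ := by
        fin_cases i; rfl
      rwa [this] at hi
  have h2 : AlgebraicIndependent k (Fin.cons c.f ![c.τ] : Fin 2 → Ω) := by
    refine algInd_cons h1 fun h => c.f_notMem (acl_mono ?_ h)
    rintro _ ⟨l, rfl⟩
    fin_cases l
    rfl
  have h3 : AlgebraicIndependent k (Fin.cons g (Fin.cons c.f ![c.τ] : Fin 2 → Ω) : Fin 3 → Ω) := by
    refine algInd_cons h2 fun h => hne (acl_mono ?_ h)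
    rintro _ ⟨l, rfl⟩
    fin_cases l
    · exact Or.inl rfl
    · exact Or.inr rfl
  have h4 := ((isTB_iff _).1 (isTB_of_algInd c.tb h3)).2
  obtain ⟨i, hi⟩ := c.Xd_ne hθ
  apply hi
  refine der_acl_zero c.Xd ?_ _ (h4 (c.x i))
  rintro _ ⟨l, rfl⟩
  fin_cases l
  · exact hg
  · exact c.Xd_f hθ
  · exact c.Xd_τ hθ

/-- cross product -/
noncomputable def cv (c : Ctx2 k Ω 3) : Fin 3 → Ω :=
  ![c.h 1 * c.h' 2 - c.h 2 * c.h' 1, c.h 2 * c.h' 0 - c.h 0 * c.h' 2, c.h 0 * c.h' 1 - c.h 1 * c.h' 0]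

theorem cv_mem (c : Ctx2 k Ω 3) (i : Fin 3) : c.cv i ∈ acl k ({c.τ} : Set Ω) := by
  fin_cases i
  · exact sub_mem (mul_mem (c.hmem _) (c.hmem' _)) (mul_mem (c.hmem _) (c.hmem' _))
  · exact sub_mem (mul_mem (c.hmem _) (c.hmem' _)) (mul_mem (c.hmem _) (c.hmem' _))
  · exact sub_mem (mul_mem (c.hmem _) (c.hmem' _)) (mul_mem (c.hmem _) (c.hmem' _))

theorem cv_h (c : Ctx2 k Ω 3) : ∑ i, c.cv i * c.h i = 0 := by
  simp [cv, Fin.sum_univ_three]
  ring

theorem cv_h' (c : Ctx2 k Ω 3) : ∑ i, c.cv i * c.h' i = 0 := by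
  simp [cv, Fin.sum_univ_three]
  ring

theorem cv_indep (c : Ctx2 k Ω 3) (hθ : c.Dh c.τ ≠ 0) : LinearIndependent k c.cv := by
  rw [Fintype.linearIndependent_iff]
  intro v hv
  have hW := wronskian_ne_zero c.τk c.Dt (c.Dt_τ hθ) c.hmem c.h_indep
  set w : Fin 3 → Ω := fun i => algebraMap k Ω (v i) with hw
  set h2 : Fin 3 → Ω := fun i => c.Dt (c.h' i) with hh2
  have hW' : c.h 0 * (c.h' 1 * h2 2 - c.h' 2 * h2 1) - c.h 1 * (c.h' 0 * h2 2 - c.h' 2 * h2 0)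
      + c.h 2 * (c.h' 0 * h2 1 - c.h' 1 * h2 0) ≠ 0 := by
    rw [Matrix.det_fin_three] at hW
    simp only [Matrix.of_apply, Fin.isValue, Fin.val_zero, Function.iterate_zero, id_eq,
      Fin.val_one, Fin.val_two, Function.iterate_succ,
      Function.comp_apply, c.Dt_h hθ] at hW
    intro h0
    apply hW
    linear_combination h0
  have e1 : w 0 * (c.h 1 * c.h' 2 - c.h 2 * c.h' 1) + w 1 * (c.h 2 * c.h' 0 - c.h 0 * c.h' 2)
      + w 2 * (c.h 0 * c.h' 1 - c.h 1 * c.h' 0) = 0 := by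
    rw [Fin.sum_univ_three] at hv
    simp only [Algebra.smul_def] at hv
    exact hv
  have e2 : w 0 * (c.h 1 * h2 2 - c.h 2 * h2 1) + w 1 * (c.h 2 * h2 0 - c.h 0 * h2 2)
      + w 2 * (c.h 0 * h2 1 - c.h 1 * h2 0) = 0 := by
    have h3 := congrArg c.Dt e1
    simp only [map_add, map_sub, map_zero, Derivation.leibniz, smul_eq_mul, c.Dt_h hθ] at h3
    have h4 : ∀ i, c.Dt (w i) = 0 := fun i => c.Dt.map_algebraMap _
    simp only [h4, mul_zero, add_zero] at h3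
    simp only [hh2]
    linear_combination h3
  have e3 : ∀ i, (c.h 0 * (c.h' 1 * h2 2 - c.h' 2 * h2 1) - c.h 1 * (c.h' 0 * h2 2 - c.h' 2 * h2 0)
      + c.h 2 * (c.h' 0 * h2 1 - c.h' 1 * h2 0)) * w i = (w 0 * (c.h' 1 * h2 2 - c.h' 2 * h2 1)
      - w 1 * (c.h' 0 * h2 2 - c.h' 2 * h2 0) + w 2 * (c.h' 0 * h2 1 - c.h' 1 * h2 0)) * c.h i := by
    intro i
    fin_cases i
    · show _ * w 0 = _ * c.h 0
      linear_combination c.h' 0 * (-e2) + h2 0 * e1
    · show _ * w 1 = _ * c.h 1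
      linear_combination c.h' 1 * (-e2) + h2 1 * e1
    · show _ * w 2 = _ * c.h 2
      linear_combination c.h' 2 * (-e2) + h2 2 * e1
  have e4 : ∀ i, w i = w c.j * c.h i := by
    intro i
    have h5 := e3 i
    have h6 := e3 c.j
    rw [c.hj, mul_one] at h6
    rw [← h6] at h5
    exact mul_left_cancel₀ hW' (by rw [h5, mul_assoc])
  have e5 : w c.j = 0 := by
    by_contra hne
    apply c.τk
    obtain ⟨i, hi⟩ := c.hτ
    have h7 : c.τ = w i / w c.j := by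
      rw [hi, e4 i, mul_div_cancel_left₀ _ hne]
    rw [h7]
    exact div_mem (IntermediateField.algebraMap_mem _ _) (IntermediateField.algebraMap_mem _ _)
  intro i
  have h8 := e4 i
  rw [e5, zero_mul] at h8
  exact (map_eq_zero _).1 h8

/-! ## R2 -/
theorem n3_theta (c : Ctx2 k Ω 3) (hθ : c.Dh c.τ ≠ 0) : False := by
  obtain ⟨P, Q, e, he, hPQ, hP, hQ, hQx, hτ⟩ := c.exists_forms
  obtain ⟨I, hImin, hI, hPI, hQI⟩ := exists_minimalPrime_pair he hP hQ
  obtain ⟨V, hxV, haV, hV, hVlin⟩ := barg c.tb.1 hPQ (by rw [← hτ]; exact c.τk) I hI hPI hQI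
  rw [← hτ] at haV hVlin
  have hHI : ∀ i, c.H i ∈ I := by
    refine hVlin 3 c.cv c.H c.cv_mem (c.cv_indep hθ) ?_
    have h1 : ∑ i, c.cv i * aeval c.x (c.H i) = 0 := by
      have h2 : ∀ i, c.cv i * aeval c.x (c.H i) = c.f * (c.cv i * c.h i) := by
        intro i
        rw [← c.hy, c.hh]; ring
      simp only [h2]
      rw [← Finset.mul_sum, c.cv_h, mul_zero]
    rw [h1, map_zero]
    exact zero_lt_one
  have hVf : V.valuation c.f < 1 := by
    rw [c.hf, c.hy]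
    exact (hV _).2 (hHI _)
  have hno : ¬ V.valuation (∑ i, c.cv i * c.x i) < 1 := by
    intro hlt
    have h1 : ∀ i, (X i : MvPolynomial (Fin 3) k) ∈ I := by
      refine hVlin 3 c.cv X c.cv_mem (c.cv_indep hθ) ?_
      simpa using hlt
    have h2 := lf_le_two_of_minimalPrime hImin (c := fun i : Fin 3 => Pi.single i (1 : k))
      (Pi.linearIndependent_single_one (Fin 3) k) ?_
    · omega
    · intro i
      have h3 : lf (Pi.single i (1 : k)) = (X i : MvPolynomial (Fin 3) k) := by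
        rw [lf, Finset.sum_eq_single i]
        · simp
        · intro j _ hj
          rw [Pi.single_eq_of_ne hj, C_0, zero_mul]
        · simp
      rw [h3]
      exact h1 i
  set g := ∑ i, c.cv i * c.x i with hg
  have hg0 : g ≠ 0 := by
    intro h
    apply hno
    rw [h, map_zero]
    exact zero_lt_one
  have hXg : c.Xd g = 0 := by
    have h1 : ∀ i, c.Xd (c.cv i * c.x i) = c.cv i * c.h' i -
        (c.Dh' c.τ / c.Dh c.τ) * (c.cv i * c.h i) := by
      intro i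
      rw [Derivation.leibniz, c.Xd_acl hθ (c.cv_mem i), smul_zero, add_zero, smul_eq_mul, c.Xd_x]
      ring
    rw [hg, map_sum]
    simp only [h1]
    rw [Finset.sum_sub_distrib, ← Finset.mul_sum, c.cv_h, c.cv_h', mul_zero, sub_zero]
  have hEg : c.E g = g := c.E_lin c.cv_mem
  have hgm := c.mem_f_τ3 hθ hXg
  have hψ : g ^ c.d / c.f ∈ acl k ({c.τ} : Set Ω) := by
    refine c.mem_of_deg_zero (div_mem (pow_mem hgm _) (subset_acl _ (Set.mem_insert _ _))) ?_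
    have h1 : (g ^ c.d / c.f) * c.f = g ^ c.d := div_mul_cancel₀ _ c.f0
    have h2 := congrArg c.E h1
    rw [Derivation.leibniz, Derivation.leibniz_pow, hEg, c.E_f] at h2
    simp only [smul_eq_mul, nsmul_eq_mul] at h2
    rw [← pow_succ, Nat.sub_add_cancel (Nat.one_le_iff_ne_zero.2 c.hd)] at h2
    have h3 : c.f * c.E (g ^ c.d / c.f) = 0 := by linear_combination h2 - (c.d : Ω) * h1
    exact (mul_eq_zero.1 h3).resolve_left c.f0
  apply hno
  have h4 : g ^ c.d = (g ^ c.d / c.f) * c.f := by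
    rw [div_mul_cancel₀ _ c.f0]
  have h5 : V.valuation g ^ c.d < 1 := by
    rw [← map_pow, h4, map_mul, mul_comm]
    exact mul_lt_one_of_lt_of_le hVf ((V.valuation_le_one_iff _).2 (haV _ hψ))
  exact (pow_lt_one_iff_of_nonneg zero_le c.hd).1 h5

end Ctx2
end Pool.Agent.HDP
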