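import Mathlib
import Pool.Agent.Lib.MP_20906e_al.Defs
import Pool.Agent.Lib.MP_20906e_al.Ctx2
import Pool.Agent.Lib.MP_20906e_al.Ctx2Basic
import Pool.Agent.Lib.MP_20906e_al.Acl
import Pool.Agent.Lib.MP_20906e_al.Der
import Pool.Agent.Lib.MP_20906e_al.Barg
import Pool.Agent.Lib.MP_20906e_al.Height
import Pool.Agent.Lib.MP_20906e_al.Place
import Pool.Agent.Lib.MP_20906e_al.CP
import Pool.Agent.Lib.MP_20906e_al.Wr
import Pool.Agent.Lib.MP_20906e_al.B2b
import Pool.Agent.Lib.MP_20906e_al.B3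

/-!
# MP_20906e_al, piece R3: the rank two case in dimension four (helper26)
-/

set_option linter.unusedSectionVars false

namespace Pool.Agent.HDP
open MvPolynomial

section Gen
variable {k Ω : Type*} [Field k] [Field Ω] [Algebra k Ω]

/-- a vector over an intermediate field as a combination of constant vectors -/
theorem r3_decomp {n : ℕ} (A : IntermediateField k Ω) (W : Fin n → Ω) (hW : ∀ i, W i ∈ A) :
    ∃ (m : ℕ) (η : Fin m → Ω) (c : Fin m → Fin n → k), (∀ l, η l ∈ A) ∧ LinearIndependent k η ∧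
      LinearIndependent k c ∧ ∀ i, W i = ∑ l, algebraMap k Ω (c l i) * η l := by
  classical
  let R : Submodule k Ω := Submodule.span k (Set.range W)
  have hfin : FiniteDimensional k R := FiniteDimensional.span_of_finite k (Set.finite_range W)
  let b := Module.finBasis k R
  have hWR : ∀ i, W i ∈ R := fun i => Submodule.subset_span ⟨i, rfl⟩
  have hRA : ∀ z ∈ R, z ∈ A := by
    intro z hz
    have h1 : R ≤ Subalgebra.toSubmodule A.toSubalgebra := by
      refine Submodule.span_le.2 ?_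
      rintro _ ⟨i, rfl⟩
      exact hW i
    exact h1 hz
  refine ⟨Module.finrank k R, fun l => (b l : Ω), fun l i => b.repr ⟨W i, hWR i⟩ l,
    fun l => hRA _ (b l).2, ?_, ?_, ?_⟩
  · have h1 := b.linearIndependent
    have h2 := h1.map' R.subtype (Submodule.ker_subtype R)
    exact h2
  · rw [Fintype.linearIndependent_iff]
    intro g hg l
    -- the functional `∑ g l * coord l` vanishes on `R`
    let φ : R →ₗ[k] k := ∑ l, g l • b.coord l
    have hφW : ∀ i, φ ⟨W i, hWR i⟩ = 0 := by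
      intro i
      have h1 := congrFun hg i
      rw [Finset.sum_apply] at h1
      simp only [Pi.smul_apply, smul_eq_mul, Pi.zero_apply] at h1
      rw [← h1]
      simp [φ, LinearMap.sum_apply]
    have hφ : ∀ z (hz : z ∈ R), φ ⟨z, hz⟩ = 0 := by
      intro z hz
      refine Submodule.span_induction (p := fun z hz => φ ⟨z, hz⟩ = 0) ?_ ?_ ?_ ?_ hz
      · rintro _ ⟨i, rfl⟩
        exact hφW i
      · exact map_zero φ
      · intro u v hu hv h1 h2
        have : (⟨u + v, add_mem hu hv⟩ : R) = ⟨u, hu⟩ + ⟨v, hv⟩ := rfl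
        rw [this, map_add, h1, h2, add_zero]
      · intro a u hu h1
        have : (⟨a • u, R.smul_mem a hu⟩ : R) = a • ⟨u, hu⟩ := rfl
        rw [this, map_smul, h1, smul_zero]
    have h2 := hφ (b l) (b l).2
    have h3 : (⟨(b l : Ω), (b l).2⟩ : R) = b l := rfl
    rw [h3] at h2
    simpa [φ, LinearMap.sum_apply, Finsupp.single_apply] using h2
  · intro i
    have h1 := b.sum_repr ⟨W i, hWR i⟩
    have h2 := congrArg (fun z : R => (z : Ω)) h1
    simp only [AddSubmonoidClass.coe_finsetSum, Submodule.coe_smul] at h2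
    rw [← h2]
    refine Finset.sum_congr rfl fun l _ => ?_
    rw [Algebra.smul_def]

/-- linear forms over `acl τ` small at the place of `barg` -/
theorem r3_lin_mem {n : ℕ} {x : Fin n → Ω} {A : IntermediateField k Ω} {V : ValuationSubring Ω}
    {I : Ideal (MvPolynomial (Fin n) k)}
    (hB : ∀ (m : ℕ) (η : Fin m → Ω) (F : Fin m → MvPolynomial (Fin n) k),
        (∀ i, η i ∈ A) → LinearIndependent k η →
        V.valuation (∑ i, η i * aeval x (F i)) < 1 → ∀ i, F i ∈ I)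
    {W : Fin n → Ω} (hW : ∀ i, W i ∈ A) (hv : V.valuation (∑ i, W i * x i) < 1) :
    ∃ (m : ℕ) (η : Fin m → Ω) (c : Fin m → Fin n → k), LinearIndependent k c ∧
      (∀ l, lf (c l) ∈ I) ∧ ∀ i, W i = ∑ l, algebraMap k Ω (c l i) * η l := by
  obtain ⟨m, η, c, h1, h2, h3, h4⟩ := r3_decomp A W hW
  refine ⟨m, η, c, h3, ?_, h4⟩
  refine hB m η (fun l => lf (c l)) h1 h2 ?_
  have h5 : ∑ l, η l * aeval x (lf (c l)) = ∑ i, W i * x i := by
    simp only [lf, map_sum, map_mul, aeval_C, aeval_X, h4, Finset.mul_sum, Finset.sum_mul]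
    rw [Finset.sum_comm]
    refine Finset.sum_congr rfl fun i _ => Finset.sum_congr rfl fun l _ => ?_
    ring
  rw [h5]
  exact hv

/-- at most two equations in four unknowns -/
theorem r3_two_ker {m : ℕ} (hm : m ≤ 2) (c : Fin m → Fin 4 → k) :
    ∃ v : Fin 2 → Fin 4 → k, LinearIndependent k v ∧ ∀ a l, ∑ i, c l i * v a i = 0 := by
  let φ : (Fin 4 → k) →ₗ[k] (Fin m → k) := Matrix.mulVecLin (Matrix.of c)
  have h1 := φ.finrank_range_add_finrank_ker
  have h2 : Module.finrank k (LinearMap.range φ) ≤ m := by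
    refine (Submodule.finrank_le _).trans ?_
    simp
  rw [Module.finrank_fin_fun] at h1
  have h3 : 2 ≤ Module.finrank k (LinearMap.ker φ) := by omega
  obtain ⟨v, hv⟩ := exists_linearIndependent_of_le_finrank h3
  refine ⟨fun a => (v a : Fin 4 → k), hv.map' _ (Submodule.ker_subtype _), fun a l => ?_⟩
  have h4 := congrFun (LinearMap.mem_ker.1 (v a).2) l
  exact h4

/-- coprime polynomials have no common zero of transcendence degree three in dimension four -/
theorem r3_no_pair {P Q : MvPolynomial (Fin 4) k} (hPQ : IsRelPrime P Q) {z : Fin 4 → Ω}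
    (hP : aeval z P = 0) (hQ : aeval z Q = 0) {t : Fin 3 → Ω} (ht : AlgebraicIndependent k t)
    (htz : ∀ i, t i ∈ acl k (Set.range z)) : False := by
  have hdep : ¬ AlgebraicIndependent k z := by
    intro h
    exact coprime_pair_zero hPQ hP hQ 0 (h.comp _ Subtype.val_injective)
  rw [algInd_iff_notMem] at hdep
  push Not at hdep
  obtain ⟨i, hi⟩ := hdep
  refine coprime_pair_zero hPQ hP hQ i ?_
  have h5 : Set.range z ⊆ (acl k (Set.range (fun l => z (i.succAbove l))) : Set Ω) := by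
    have h6 : z '' {i}ᶜ ⊆ Set.range (fun l => z (i.succAbove l)) := by
      rintro _ ⟨l, hl, rfl⟩
      obtain ⟨l', rfl⟩ := Fin.exists_succAbove_eq hl
      exact ⟨l', rfl⟩
    rintro _ ⟨l, rfl⟩
    by_cases hl : l = i
    · rw [hl]; exact acl_mono h6 hi
    · exact subset_acl _ (h6 ⟨l, hl, rfl⟩)
  have h7 : AlgebraicIndependent k (fun l : Fin 3 => z (i.succAbove l)) :=
    b3_algInd_of_rank ht fun l => acl_le_iff.2 h5 (htz l)
  have h8 := h7.comp (finSuccAboveEquiv i).symm (finSuccAboveEquiv i).symm.injective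
  have h9 : (fun l : Fin 3 => z (i.succAbove l)) ∘ (finSuccAboveEquiv i).symm =
      fun j : {j // j ≠ i} => z j := by
    funext l
    obtain ⟨l', rfl⟩ := (finSuccAboveEquiv i).surjective l
    rw [Function.comp_apply, Equiv.symm_apply_apply]
    rfl
  rwa [h9] at h8

/-- the top coefficient of a form along a quadratic curve -/
theorem r3_top {R : Type*} [CommRing R] [Algebra k R] {n : ℕ} (g : Fin n → Polynomial R)
    (hg : ∀ i, (g i).natDegree ≤ 2) {G : MvPolynomial (Fin n) k} {m : ℕ} (hG : G.IsHomogeneous m) :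
    (aeval g G).coeff (2 * m) = aeval (fun i => (g i).coeff 2) G := by
  classical
  have key : ∀ (s : Fin n →₀ ℕ) (t : Finset (Fin n)),
      (∏ i ∈ t, g i ^ s i).natDegree ≤ 2 * ∑ i ∈ t, s i ∧
      (∏ i ∈ t, g i ^ s i).coeff (2 * ∑ i ∈ t, s i) = ∏ i ∈ t, (g i).coeff 2 ^ s i := by
    intro s t
    induction t using Finset.induction_on with
    | empty => simp
    | insert a t ha ih =>
      rw [Finset.prod_insert ha, Finset.sum_insert ha, Finset.prod_insert ha, mul_add]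
      have h1 : (g a ^ s a).natDegree ≤ 2 * s a := by
        refine (Polynomial.natDegree_pow_le).trans ?_
        rw [mul_comm]
        exact Nat.mul_le_mul_right _ (hg a)
      refine ⟨Polynomial.natDegree_mul_le_of_le h1 ih.1, ?_⟩
      rw [Polynomial.coeff_mul_add_eq_of_natDegree_le h1 ih.1, ih.2, mul_comm 2 (s a),
        Polynomial.coeff_pow_of_natDegree_le (hg a)]
  conv_lhs => rw [G.as_sum]
  conv_rhs => rw [G.as_sum]
  rw [map_sum, map_sum, Polynomial.finsetSum_coeff]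
  refine Finset.sum_congr rfl fun s hs => ?_
  rw [aeval_monomial, aeval_monomial, Finsupp.prod_fintype _ _ (by simp),
    Finsupp.prod_fintype _ _ (by simp)]
  have h2 : ∑ i, s i = m := by
    have h3 := hG (mem_support_iff.1 hs)
    rw [← h3]
    simp [Finsupp.weight_apply, Finsupp.sum_fintype]
  have h4 := (key s Finset.univ).2
  rw [h2] at h4
  rw [IsScalarTower.algebraMap_apply k R (Polynomial R), Polynomial.algebraMap_eq, Polynomial.coeff_C_mul, h4]

end Gen

section Deg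
variable {k Ω : Type*} [Field k] [Field Ω] [Algebra k Ω] [CharZero k]

/-- an element of degree zero of `acl (g, S)` lies in `acl S` -/
theorem r3_deg_zero (E : Derivation k Ω Ω) {S : Set Ω} (hS : ∀ s ∈ S, E s = 0) {g z : Ω}
    (hg : E g ≠ 0) (hz : z ∈ acl k (insert g S)) (hE : E z = 0) : z ∈ acl k S := by
  by_contra hne
  have h1 := acl_exchange hz hne
  refine hg (der_acl_zero E (S := insert z S) ?_ _ h1)
  rintro w (rfl | hw)
  · exact hE
  · exact hS w hw

end Deg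


/-- osculating frame of the rank two context in dimension four -/
structure R3 {k Ω : Type*} [Field k] [Field Ω] [Algebra k Ω] (c : Ctx2 k Ω 4) where
  D : Derivation k Ω Ω
  hD : D c.τ = 1
  U : Fin 4 → Ω
  hU : ∀ i, U i ∈ acl k ({c.τ} : Set Ω)
  p0 : ∑ i, U i * c.h i = 0
  p1 : ∑ i, U i * D (c.h i) = 0
  p2 : ∑ i, U i * D (D (c.h i)) = 0
  p3 : ∑ i, U i * D (D (D (c.h i))) = 1

namespace R3
variable {k Ω : Type*} [Field k] [IsAlgClosed k] [CharZero k] [Field Ω] [IsAlgClosed Ω] [Algebra k Ω]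
variable {c : Ctx2 k Ω 4}

theorem exists_r3 (c : Ctx2 k Ω 4) : Nonempty (R3 c) := by
  obtain ⟨D, -, hD⟩ := exists_der_ne c.τk
  have hmem : ∀ z ∈ acl k ({c.τ} : Set Ω), D z ∈ acl k ({c.τ} : Set Ω) := by
    refine der_acl_mem D (subset_acl _) ?_
    rintro _ rfl
    rw [hD]
    exact one_mem _
  have hit : ∀ (m : ℕ) (i : Fin 4), (fun f => D f)^[m] (c.h i) ∈ acl k ({c.τ} : Set Ω) := by
    intro m i
    induction m with
    | zero => exact c.hmem i
    | succ m ih => rw [Function.iterate_succ_apply']; exact hmem _ ih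
  have hdet := wronskian_ne_zero c.τk D hD c.hmem c.h_indep
  let M : Matrix (Fin 4) (Fin 4) (acl k ({c.τ} : Set Ω)) :=
    Matrix.of fun i j => ⟨(fun f => D f)^[(i : ℕ)] (c.h j), hit i j⟩
  have hM : M.map (algebraMap (acl k ({c.τ} : Set Ω)) Ω) =
      Matrix.of fun (i j : Fin 4) => (fun f => D f)^[(i : ℕ)] (c.h j) := rfl
  have hM0 : M.det ≠ 0 := by
    intro h0
    apply hdet
    rw [← hM, ← RingHom.mapMatrix_apply, ← RingHom.map_det, h0, map_zero]
  have hinv : M * M⁻¹ = 1 := Matrix.mul_nonsing_inv _ (isUnit_iff_ne_zero.2 hM0)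
  have hrel : ∀ i : Fin 4, ∑ j, ((M⁻¹ j 3 : acl k ({c.τ} : Set Ω)) : Ω) *
      (fun f => D f)^[(i : ℕ)] (c.h j) = if i = 3 then 1 else 0 := by
    intro i
    have h1 := congrFun (congrFun hinv i) 3
    rw [Matrix.mul_apply, Matrix.one_apply] at h1
    have h2 := congrArg (fun z : acl k ({c.τ} : Set Ω) => (z : Ω)) h1
    have h3 : ((∑ j, M i j * M⁻¹ j 3 : acl k ({c.τ} : Set Ω)) : Ω) =
        ∑ j, ((M i j : acl k ({c.τ} : Set Ω)) : Ω) * ((M⁻¹ j 3 : acl k ({c.τ} : Set Ω)) : Ω) := by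
      push_cast
      rfl
    simp only [h3] at h2
    have h4 : (((if i = 3 then 1 else 0 : acl k ({c.τ} : Set Ω))) : Ω) = if i = 3 then 1 else 0 := by
      split_ifs <;> rfl
    rw [h4] at h2
    rw [← h2]
    refine Finset.sum_congr rfl fun j _ => ?_
    rw [mul_comm]
    rfl
  refine ⟨⟨D, hD, fun j => M⁻¹ j 3, fun j => (M⁻¹ j 3).2, ?_, ?_, ?_, ?_⟩⟩
  · exact hrel 0
  · exact hrel 1
  · exact hrel 2
  · exact hrel 3

variable (r : R3 c)

theorem D_mem {z : Ω} (hz : z ∈ acl k ({c.τ} : Set Ω)) : r.D z ∈ acl k ({c.τ} : Set Ω) := by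
  refine der_acl_mem r.D (subset_acl _) ?_ z hz
  rintro _ rfl
  rw [r.hD]
  exact one_mem _

/-- every derivation is a multiple of `D` on `acl τ` -/
theorem der_eq (Z : Derivation k Ω Ω) {z : Ω} (hz : z ∈ acl k ({c.τ} : Set Ω)) :
    Z z = r.D z * Z c.τ := by
  have h1 := der_acl_eq (S := {c.τ}) Z (Z c.τ • r.D) (by
    rintro _ rfl
    rw [Derivation.smul_apply, r.hD, smul_eq_mul, mul_one]) z hz
  rw [h1, Derivation.smul_apply, smul_eq_mul, mul_comm]

theorem h'_eq (i : Fin 4) : c.h' i = r.D (c.h i) := by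
  rw [c.hD r.D i, r.hD, mul_one]

theorem D_pair (a b : Fin 4 → Ω) :
    r.D (∑ i, a i * b i) = ∑ i, r.D (a i) * b i + ∑ i, a i * r.D (b i) := by
  rw [map_sum, ← Finset.sum_add_distrib]
  refine Finset.sum_congr rfl fun i _ => ?_
  rw [Derivation.leibniz, smul_eq_mul, smul_eq_mul]
  ring

theorem q00 : ∑ i, r.D (r.U i) * c.h i = 0 := by
  have h := r.D_pair r.U c.h
  rw [r.p0, r.p1, map_zero, add_zero] at h
  exact h.symm

theorem q01 : ∑ i, r.D (r.U i) * r.D (c.h i) = 0 := by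
  have h := r.D_pair r.U (fun i => r.D (c.h i))
  rw [r.p1, r.p2, map_zero, add_zero] at h
  exact h.symm

theorem q02 : ∑ i, r.D (r.U i) * r.D (r.D (c.h i)) = -1 := by
  have h := r.D_pair r.U (fun i => r.D (r.D (c.h i)))
  rw [r.p2, r.p3, map_zero] at h
  linear_combination -h

theorem q10 : ∑ i, r.D (r.D (r.U i)) * c.h i = 0 := by
  have h := r.D_pair (fun i => r.D (r.U i)) c.h
  rw [r.q00, r.q01, map_zero, add_zero] at h
  exact h.symm

theorem q11 : ∑ i, r.D (r.D (r.U i)) * r.D (c.h i) = 1 := by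
  have h := r.D_pair (fun i => r.D (r.U i)) (fun i => r.D (c.h i))
  rw [r.q01, r.q02, map_zero] at h
  linear_combination -h

theorem q20 : ∑ i, r.D (r.D (r.D (r.U i))) * c.h i = -1 := by
  have h := r.D_pair (fun i => r.D (r.D (r.U i))) c.h
  rw [r.q10, r.q11, map_zero] at h
  linear_combination -h

/-- a constant vector orthogonal to `U` is zero -/
theorem const_zero {v : Fin 4 → k} (hv : ∑ i, r.U i * algebraMap k Ω (v i) = 0) : v = 0 := by
  have hdet := wronskian_ne_zero c.τk r.D r.hD c.hmem c.h_indep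
  set M := (Matrix.of fun (i j : Fin 4) => (fun f => r.D f)^[(i : ℕ)] (c.h j)) with hM
  have hinv : M⁻¹ * M = 1 := Matrix.nonsing_inv_mul _ (isUnit_iff_ne_zero.2 hdet)
  -- `v` as a combination of `h, h', h'', h'''`
  let w : Fin 4 → Ω := Matrix.vecMul (fun i => algebraMap k Ω (v i)) M⁻¹
  have hw : Matrix.vecMul w M = fun i => algebraMap k Ω (v i) := by
    rw [Matrix.vecMul_vecMul, hinv, Matrix.vecMul_one]
  have hw' : ∀ i, algebraMap k Ω (v i) = w 0 * c.h i + w 1 * r.D (c.h i) + w 2 * r.D (r.D (c.h i)) +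
      w 3 * r.D (r.D (r.D (c.h i))) := by
    intro i
    have h1 := congrFun hw i
    rw [← h1, Matrix.vecMul, dotProduct, Fin.sum_univ_four]
    rfl
  have hDv : ∀ a : Fin 4 → Ω, ∑ i, a i * algebraMap k Ω (v i) = 0 →
      ∑ i, r.D (a i) * algebraMap k Ω (v i) = 0 := by
    intro a ha
    have h := r.D_pair a (fun i => algebraMap k Ω (v i))
    simp only [Derivation.map_algebraMap, mul_zero, Finset.sum_const_zero, add_zero, ha, map_zero] at h
    exact h.symm
  have h1 := hDv _ hv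
  have h2 := hDv _ h1
  have h3 := hDv _ h2
  have hexp : ∀ a : Fin 4 → Ω, ∑ i, a i * algebraMap k Ω (v i) = w 0 * ∑ i, a i * c.h i +
      w 1 * ∑ i, a i * r.D (c.h i) + w 2 * ∑ i, a i * r.D (r.D (c.h i)) +
      w 3 * ∑ i, a i * r.D (r.D (r.D (c.h i))) := by
    intro a
    simp only [Finset.mul_sum, ← Finset.sum_add_distrib]
    refine Finset.sum_congr rfl fun i _ => ?_
    rw [hw' i]
    ring
  have w3 : w 3 = 0 := by
    have h := hexp r.U
    rw [hv, r.p0, r.p1, r.p2, r.p3] at h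
    linear_combination -h
  have w2 : w 2 = 0 := by
    have h := hexp (fun i => r.D (r.U i))
    rw [h1, r.q00, r.q01, r.q02, w3] at h
    linear_combination h
  have w1 : w 1 = 0 := by
    have h := hexp (fun i => r.D (r.D (r.U i)))
    rw [h2, r.q10, r.q11, w2, w3] at h
    linear_combination -h
  have w0 : w 0 = 0 := by
    have h := hexp (fun i => r.D (r.D (r.D (r.U i))))
    rw [h3, r.q20, w1, w2, w3] at h
    linear_combination h
  funext i
  have h := hw' i
  rw [w0, w1, w2, w3] at h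
  simp only [zero_mul, add_zero] at h
  exact (map_eq_zero_iff _ (algebraMap k Ω).injective).1 h

theorem U_indep : LinearIndependent k r.U := by
  rw [Fintype.linearIndependent_iff]
  intro g hg
  have h1 : g = 0 := by
    refine r.const_zero ?_
    rw [← hg]
    refine Finset.sum_congr rfl fun i _ => ?_
    rw [Algebra.smul_def, mul_comm]
  intro i
  rw [h1]
  rfl

/-- linear coordinates -/
noncomputable def N0 : Ω := ∑ i, r.U i * c.x i
noncomputable def N1 : Ω := ∑ i, r.D (r.U i) * c.x i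
noncomputable def N2 : Ω := ∑ i, r.D (r.D (r.U i)) * c.x i

theorem der_lin (Z : Derivation k Ω Ω) {a : Fin 4 → Ω} (ha : ∀ i, a i ∈ acl k ({c.τ} : Set Ω)) :
    Z (∑ i, a i * c.x i) = (∑ i, r.D (a i) * c.x i) * Z c.τ + ∑ i, a i * Z (c.x i) := by
  rw [map_sum, Finset.sum_mul, ← Finset.sum_add_distrib]
  refine Finset.sum_congr rfl fun i _ => ?_
  rw [Derivation.leibniz, smul_eq_mul, smul_eq_mul, r.der_eq Z (ha i)]
  ring

theorem E_N0 : c.E r.N0 = r.N0 := c.E_lin r.hU
theorem E_N1 : c.E r.N1 = r.N1 := c.E_lin fun i => r.D_mem (r.hU i)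
theorem E_N2 : c.E r.N2 = r.N2 := c.E_lin fun i => r.D_mem (r.D_mem (r.hU i))

theorem Dh_N0 : c.Dh r.N0 = r.N1 * c.Dh c.τ := by
  have h := r.der_lin c.Dh r.hU
  simp only [c.Dhx] at h
  rw [r.p0, add_zero] at h
  exact h

theorem Dh_N1 : c.Dh r.N1 = r.N2 * c.Dh c.τ := by
  have h := r.der_lin c.Dh fun i => r.D_mem (r.hU i)
  simp only [c.Dhx] at h
  rw [r.q00, add_zero] at h
  exact h

/-- base ideal containing `P, Q` : place of `barg` -/
theorem N0_facts {P Q : MvPolynomial (Fin 4) k} (hPQ : IsRelPrime P Q)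
    (hτ : c.τ = aeval c.x P / aeval c.x Q) (I : Ideal (MvPolynomial (Fin 4) k)) (hI : I.IsPrime)
    (hP : P ∈ I) (hQ : Q ∈ I) (hX : ∃ i, (X i : MvPolynomial (Fin 4) k) ∉ I) :
    ∃ V : ValuationSubring Ω, (∀ i, c.x i ∈ V) ∧ (∀ a ∈ acl k ({c.τ} : Set Ω), a ∈ V) ∧
      (∀ F : MvPolynomial (Fin 4) k, V.valuation (aeval c.x F) < 1 ↔ F ∈ I) ∧
      (∀ (m : ℕ) (η : Fin m → Ω) (F : Fin m → MvPolynomial (Fin 4) k),
        (∀ i, η i ∈ acl k ({c.τ} : Set Ω)) → LinearIndependent k η →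
        V.valuation (∑ i, η i * aeval c.x (F i)) < 1 → ∀ i, F i ∈ I) ∧
      V.valuation r.N0 = 1 ∧ r.N0 ≠ 0 ∧ V.valuation r.N1 ≤ 1 := by
  obtain ⟨V, h1, h2, h3, h4⟩ := barg c.tb.1 hPQ (by rw [← hτ]; exact c.τk) I hI hP hQ
  rw [← hτ] at h2 h4
  have hN0 : ¬ V.valuation r.N0 < 1 := by
    intro h
    obtain ⟨i, hi⟩ := hX
    apply hi
    refine h4 4 r.U (fun i => X i) r.hU r.U_indep ?_ i
    simpa [N0] using h
  have hN0' : V.valuation r.N0 ≤ 1 := by
    rw [V.valuation_le_one_iff]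
    exact sum_mem fun i _ => mul_mem (h2 _ (r.hU i)) (h1 i)
  refine ⟨V, h1, h2, h3, h4, le_antisymm hN0' (not_lt.1 hN0), ?_, ?_⟩
  · intro h
    apply hN0
    rw [h, map_zero]
    exact zero_lt_one
  · rw [V.valuation_le_one_iff]
    exact sum_mem fun i _ => mul_mem (h2 _ (r.D_mem (r.hU i))) (h1 i)

/-- a minimal prime over the pair does not contain all variables -/
theorem exists_X_notMem {P Q : MvPolynomial (Fin 4) k} {I : Ideal (MvPolynomial (Fin 4) k)}
    (hI : I ∈ (Ideal.span {P, Q}).minimalPrimes) : ∃ i, (X i : MvPolynomial (Fin 4) k) ∉ I := by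
  by_contra hcon
  push Not at hcon
  have h1 : (4 : ℕ) ≤ 2 := by
    refine lf_le_two_of_minimalPrime hI (c := fun i : Fin 4 => Pi.single i (1 : k)) ?_ ?_
    · exact Pi.linearIndependent_single_one (Fin 4) k
    · intro i
      have : lf (Pi.single i (1 : k)) = X i := by
        unfold lf
        rw [Finset.sum_eq_single i]
        · simp
        · intro j _ hj
          simp [Pi.single_eq_of_ne hj]
        · intro h
          exact absurd (Finset.mem_univ i) h
      rw [this]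
      exact hcon i
  omega


/-- the ratio `N1 / N0` is not algebraic over `τ` -/
theorem ratio_notMem {P Q : MvPolynomial (Fin 4) k} {I : Ideal (MvPolynomial (Fin 4) k)}
    (hI : I ∈ (Ideal.span {P, Q}).minimalPrimes) {V : ValuationSubring Ω}
    (hB : ∀ (m : ℕ) (η : Fin m → Ω) (F : Fin m → MvPolynomial (Fin 4) k),
        (∀ i, η i ∈ acl k ({c.τ} : Set Ω)) → LinearIndependent k η →
        V.valuation (∑ i, η i * aeval c.x (F i)) < 1 → ∀ i, F i ∈ I) (hN : r.N0 ≠ 0) :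
    r.N1 / r.N0 ∉ acl k ({c.τ} : Set Ω) := by
  intro hρ
  set ρ := r.N1 / r.N0 with hρd
  have hN1 : r.N1 = ρ * r.N0 := by rw [hρd]; field_simp
  obtain ⟨m, η, cc, hc1, hc2, hc3⟩ := r3_lin_mem hB (W := fun i => r.D (r.U i) - ρ * r.U i)
    (fun i => sub_mem (r.D_mem (r.hU i)) (mul_mem hρ (r.hU i))) (by
      have h1 : ∑ i, (r.D (r.U i) - ρ * r.U i) * c.x i = 0 := by
        simp only [sub_mul, Finset.sum_sub_distrib]
        have h2 : ∑ i, ρ * r.U i * c.x i = ρ * r.N0 := by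
          rw [N0, Finset.mul_sum]
          exact Finset.sum_congr rfl fun i _ => by ring
        rw [h2, ← hN1]
        exact sub_self _
      rw [h1, map_zero]
      exact zero_lt_one)
  have hm := lf_le_two_of_minimalPrime hI hc1 hc2
  obtain ⟨v, hv1, hv2⟩ := r3_two_ker hm cc
  -- the functions `g a = U · v a`
  set g : Fin 2 → Ω := fun a => ∑ i, r.U i * algebraMap k Ω (v a i) with hg
  have hgmem : ∀ a, g a ∈ acl k ({c.τ} : Set Ω) := fun a =>
    sum_mem fun i _ => mul_mem (r.hU i) (IntermediateField.algebraMap_mem _ _)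
  have hDg : ∀ a, r.D (g a) = ρ * g a := by
    intro a
    have h1 := r.D_pair r.U (fun i => algebraMap k Ω (v a i))
    simp only [Derivation.map_algebraMap, mul_zero, Finset.sum_const_zero, add_zero] at h1
    have h2 : ∑ i, (r.D (r.U i) - ρ * r.U i) * algebraMap k Ω (v a i) = 0 := by
      simp only [hc3]
      have h3 : ∀ l, ∑ i, algebraMap k Ω (cc l i) * algebraMap k Ω (v a i) = 0 := by
        intro l
        have h4 := congrArg (algebraMap k Ω) (hv2 a l)
        rw [map_sum, map_zero] at h4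
        rw [← h4]
        exact Finset.sum_congr rfl fun i _ => by rw [map_mul]
      calc ∑ i, (∑ l, algebraMap k Ω (cc l i) * η l) * algebraMap k Ω (v a i)
          = ∑ l, η l * ∑ i, algebraMap k Ω (cc l i) * algebraMap k Ω (v a i) := by
            simp only [Finset.sum_mul, Finset.mul_sum]
            rw [Finset.sum_comm]
            exact Finset.sum_congr rfl fun _ _ => Finset.sum_congr rfl fun _ _ => by ring
        _ = 0 := by simp [h3]
    simp only [sub_mul, Finset.sum_sub_distrib] at h2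
    have h5 : ∑ i, ρ * r.U i * algebraMap k Ω (v a i) = ρ * g a := by
      rw [hg, Finset.mul_sum]
      exact Finset.sum_congr rfl fun i _ => by ring
    rw [h5] at h2
    rw [hg]
    rw [h1]
    exact sub_eq_zero.1 h2
  have hg0 : ∀ a, g a ≠ 0 := by
    intro a h0
    have h1 := r.const_zero h0
    exact hv1.ne_zero a h1
  -- the quotient is constant
  have hq : r.D (g 0 / g 1) = 0 := by
    have h1 : g 0 = (g 0 / g 1) * g 1 := by
      field_simp [hg0 1]
    have h2 := congrArg r.D h1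
    rw [Derivation.leibniz, hDg, hDg, smul_eq_mul, smul_eq_mul] at h2
    have h3 : g 1 * r.D (g 0 / g 1) = 0 := by
      have h4 : g 0 / g 1 * (ρ * g 1) = ρ * g 0 := by
        field_simp [hg0 1]
      rw [h4] at h2
      linear_combination -h2
    exact (mul_eq_zero.1 h3).resolve_left (hg0 1)
  obtain ⟨lam, hlam⟩ := const_of_der_zero r.D (by rw [r.hD]; exact one_ne_zero)
    (div_mem (hgmem 0) (hgmem 1)) hq
  have h0 : v 0 - lam • v 1 = 0 := by
    refine r.const_zero ?_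
    have h1 : ∀ i, r.U i * algebraMap k Ω ((v 0 - lam • v 1) i) =
        r.U i * algebraMap k Ω (v 0 i) - g 0 / g 1 * (r.U i * algebraMap k Ω (v 1 i)) := by
      intro i
      rw [Pi.sub_apply, Pi.smul_apply, smul_eq_mul, map_sub, map_mul, hlam]
      ring
    simp only [h1, Finset.sum_sub_distrib, ← Finset.mul_sum]
    have h2 : g 0 - g 0 / g 1 * g 1 = 0 := by
      field_simp [hg0 1]
      ring
    exact h2
  have h1 := Fintype.linearIndependent_iff.1 hv1 ![1, -lam] (by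
    rw [Fin.sum_univ_two]
    simp only [Matrix.cons_val_zero, Matrix.cons_val_one, one_smul, neg_smul]
    rw [← sub_eq_add_neg]
    exact h0) 0
  simp at h1

/-- the derivation `X` killing `τ` and `f` -/
noncomputable def kap (_r : R3 c) : Ω := c.Dh' c.τ / c.Dh c.τ
noncomputable def XX (r : R3 c) : Derivation k Ω Ω := c.Dh' - r.kap • c.Dh

section XX
variable (hθ : c.Dh c.τ ≠ 0)
include hθ

theorem kap_mul : r.kap * c.Dh c.τ = c.Dh' c.τ := div_mul_cancel₀ _ hθ

theorem X_τ : r.XX c.τ = 0 := by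
  rw [XX, Derivation.sub_apply, Derivation.smul_apply, smul_eq_mul, r.kap_mul hθ, sub_self]

theorem X_f : r.XX c.f = 0 := by
  rw [XX, Derivation.sub_apply, Derivation.smul_apply, smul_eq_mul]
  have h1 := c.det
  rw [← r.kap_mul hθ] at h1
  have h2 : c.Dh c.τ * (c.Dh' c.f - r.kap * c.Dh c.f) = 0 := by linear_combination -h1
  exact (mul_eq_zero.1 h2).resolve_left hθ

theorem X_x (i : Fin 4) : r.XX (c.x i) = r.D (c.h i) - r.kap * c.h i := by
  rw [XX, Derivation.sub_apply, Derivation.smul_apply, smul_eq_mul, c.Dhx, c.Dhx', r.h'_eq]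

theorem X_acl {z : Ω} (hz : z ∈ acl k ({c.τ} : Set Ω)) : r.XX z = 0 := by
  rw [r.der_eq r.XX hz, r.X_τ hθ, mul_zero]

theorem X_y (i : Fin 4) : r.XX (c.y i) = 0 := by
  rw [c.hh, Derivation.leibniz, r.X_f hθ, r.X_acl hθ (c.hmem i), smul_zero, smul_zero, add_zero]

theorem X_lin {a : Fin 4 → Ω} (ha : ∀ i, a i ∈ acl k ({c.τ} : Set Ω)) :
    r.XX (∑ i, a i * c.x i) = ∑ i, a i * r.D (c.h i) - r.kap * ∑ i, a i * c.h i := by
  rw [r.der_lin r.XX ha, r.X_τ hθ, mul_zero, zero_add, Finset.mul_sum, ← Finset.sum_sub_distrib]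
  refine Finset.sum_congr rfl fun i _ => ?_
  rw [r.X_x hθ]
  ring

theorem X_N0 : r.XX r.N0 = 0 := by
  rw [N0, r.X_lin hθ r.hU, r.p0, r.p1]; ring

theorem X_N1 : r.XX r.N1 = 0 := by
  rw [N1, r.X_lin hθ fun i => r.D_mem (r.hU i), r.q00, r.q01]; ring

theorem X_N2 : r.XX r.N2 = 1 := by
  rw [N2, r.X_lin hθ fun i => r.D_mem (r.D_mem (r.hU i)), r.q10, r.q11]; ring

end XX

/-- the algebraically closed field generated by `N1, N0, τ` -/
noncomputable def L (r : R3 c) : IntermediateField k Ω := acl k (Set.range ![r.N1, r.N0, c.τ])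

theorem τ_L : c.τ ∈ r.L := subset_acl _ ⟨2, rfl⟩
theorem N0_L : r.N0 ∈ r.L := subset_acl _ ⟨1, rfl⟩
theorem N1_L : r.N1 ∈ r.L := subset_acl _ ⟨0, rfl⟩

theorem acl_L {z : Ω} (hz : z ∈ acl k ({c.τ} : Set Ω)) : z ∈ r.L := by
  refine acl_mono (k := k) ?_ hz
  rintro _ rfl
  exact ⟨2, rfl⟩

theorem bas_aux (hN0 : r.N0 ≠ 0) : AlgebraicIndependent k ![r.N0, c.τ] := by
  have h1 : AlgebraicIndependent k ![c.τ] := by
    refine algInd_cons (t := ![]) ?_ ?_
    · exact algebraicIndependent_empty_type_iff.2 (algebraMap k Ω).injective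
    · have : Set.range (![] : Fin 0 → Ω) = ∅ := Set.range_eq_empty _
      rw [this]
      exact c.τk
  refine algInd_cons h1 ?_
  intro h
  have h2 : c.E r.N0 = 0 := by
    refine der_acl_zero c.E (S := Set.range ![c.τ]) ?_ _ h
    rintro _ ⟨i, rfl⟩
    fin_cases i
    exact c.E_τ
  rw [r.E_N0] at h2
  exact hN0 h2

theorem bas3 (hN0 : r.N0 ≠ 0) (hρ : r.N1 / r.N0 ∉ acl k ({c.τ} : Set Ω)) :
    AlgebraicIndependent k ![r.N1, r.N0, c.τ] := by
  refine algInd_cons (r.bas_aux hN0) ?_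
  intro h
  apply hρ
  have hr : Set.range ![r.N0, c.τ] = insert r.N0 {c.τ} := by
    ext z
    simp [or_comm]
  rw [hr] at h
  refine r3_deg_zero c.E (S := {c.τ}) (g := r.N0) ?_ ?_ ?_ ?_
  · rintro _ rfl
    exact c.E_τ
  · rw [r.E_N0]; exact hN0
  · exact div_mem h (subset_acl _ (Set.mem_insert _ _))
  · rw [Derivation.leibniz_div, r.E_N0, r.E_N1]
    simp [mul_comm]

theorem N2_notMem (hθ : c.Dh c.τ ≠ 0) : r.N2 ∉ r.L := by
  intro h
  have h2 : r.XX r.N2 = 0 := by
    refine der_acl_zero r.XX (S := Set.range ![r.N1, r.N0, c.τ]) ?_ _ h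
    rintro _ ⟨i, rfl⟩
    fin_cases i
    · exact r.X_N1 hθ
    · exact r.X_N0 hθ
    · exact r.X_τ hθ
  rw [r.X_N2 hθ] at h2
  exact one_ne_zero h2

theorem bas (hθ : c.Dh c.τ ≠ 0) (hN0 : r.N0 ≠ 0) (hρ : r.N1 / r.N0 ∉ acl k ({c.τ} : Set Ω)) :
    IsTranscendenceBasis k ![r.N2, r.N1, r.N0, c.τ] :=
  isTB_of_algInd c.tb (algInd_cons (r.bas3 hN0 hρ) (r.N2_notMem hθ))

theorem basis_facts (hθ : c.Dh c.τ ≠ 0) (hN0 : r.N0 ≠ 0)
    (hρ : r.N1 / r.N0 ∉ acl k ({c.τ} : Set Ω)) :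
    (∀ z, z ∈ r.L ↔ r.XX z = 0) ∧ ∃ ft f0 f1 : Ω, ft ∈ r.L ∧ f0 ∈ r.L ∧ f1 ∈ r.L ∧
      c.Dh c.f = c.Dh c.τ * (ft + r.N1 * f0 + r.N2 * f1) ∧
      (f1 = 0 → c.f ∈ acl k (insert r.N0 {c.τ} : Set Ω)) := by
  obtain ⟨Dd, d1, d2, -, d4, d5⟩ := exists_dual (r.bas hθ hN0 hρ)
  have hXD : ∀ z, r.XX z = Dd 0 z := by
    intro z
    rw [d2 r.XX z, Fin.sum_univ_four]
    simp only [Matrix.cons_val_zero, Matrix.cons_val_one, Matrix.cons_val]
    rw [r.X_N2 hθ, r.X_N1 hθ, r.X_N0 hθ, r.X_τ hθ]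
    ring
  have himg : ![r.N2, r.N1, r.N0, c.τ] '' {0}ᶜ = Set.range ![r.N1, r.N0, c.τ] := by
    ext z
    constructor
    · rintro ⟨i, hi, rfl⟩
      obtain ⟨j, rfl⟩ := Fin.exists_succ_eq.2 hi
      exact ⟨j, rfl⟩
    · rintro ⟨j, rfl⟩
      exact ⟨j.succ, Fin.succ_ne_zero j, rfl⟩
  have hL : ∀ z, z ∈ r.L ↔ r.XX z = 0 := by
    intro z
    rw [L, ← himg, d5, hXD]
    constructor
    · intro h
      exact h 0 (by simp)
    · intro h i hi
      have : i = 0 := by simpa using hi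
      rw [this]
      exact h
  have hfL : c.f ∈ r.L := (hL _).2 (r.X_f hθ)
  have hfL' : c.f ∈ acl k (![r.N2, r.N1, r.N0, c.τ] '' {0}ᶜ) := by rw [himg]; exact hfL
  have hDL : ∀ i, Dd i c.f ∈ r.L := by
    intro i
    have := d4 {0}ᶜ i _ hfL'
    rw [himg] at this
    exact this
  refine ⟨hL, Dd 3 c.f, Dd 2 c.f, Dd 1 c.f, hDL 3, hDL 2, hDL 1, ?_, ?_⟩
  · rw [d2 c.Dh c.f, Fin.sum_univ_four]
    simp only [Matrix.cons_val_zero, Matrix.cons_val_one, Matrix.cons_val]
    rw [← hXD, r.X_f hθ, r.Dh_N1, r.Dh_N0]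
    ring
  · intro hf1
    have h1 : c.f ∈ acl k (![r.N2, r.N1, r.N0, c.τ] '' {2, 3}) := by
      rw [d5]
      intro i hi
      fin_cases i
      · show Dd 0 c.f = 0
        rw [← hXD, r.X_f hθ]
      · exact hf1
      · simp at hi
      · simp at hi
    have h2 : ![r.N2, r.N1, r.N0, c.τ] '' {2, 3} = insert r.N0 {c.τ} := by
      rw [Set.image_pair]
      rfl
    rwa [h2] at h1

/-- the degree zero part of `f` -/
theorem E_phi (hN0 : r.N0 ≠ 0) : c.E (c.f / r.N0 ^ c.d) = 0 := by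
  set φ := c.f / r.N0 ^ c.d with hφ
  have h1 : c.f = φ * r.N0 ^ c.d := by
    rw [hφ, div_mul_cancel₀ _ (pow_ne_zero _ hN0)]
  have h2 := c.E_f
  have hpow : c.E (r.N0 ^ c.d) = (c.d : Ω) * r.N0 ^ c.d := by
    obtain ⟨d', hd'⟩ : ∃ d', c.d = d' + 1 := ⟨c.d - 1, by have := c.hd; omega⟩
    rw [Derivation.leibniz_pow, r.E_N0, hd', Nat.add_sub_cancel, nsmul_eq_mul, smul_eq_mul, pow_succ]
  rw [h1, Derivation.leibniz, hpow, smul_eq_mul, smul_eq_mul] at h2
  have h3 : r.N0 ^ c.d * c.E φ = 0 := by linear_combination h2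
  exact (mul_eq_zero.1 h3).resolve_left (pow_ne_zero _ hN0)

/-- a place positive on `f` and trivial on `acl τ`, `N0` a unit: `f/N0^d` is not algebraic over `τ` -/
theorem phi_notMem (hN0 : r.N0 ≠ 0) {V : ValuationSubring Ω}
    (hVτ : ∀ a ∈ acl k ({c.τ} : Set Ω), a ∈ V) (hVN0 : V.valuation r.N0 = 1)
    (hVf : V.valuation c.f < 1) : c.f / r.N0 ^ c.d ∉ acl k ({c.τ} : Set Ω) := by
  intro h
  have h1 := acl_val_eq_one V hVτ h (div_ne_zero c.f0 (pow_ne_zero _ hN0))
  rw [map_div₀, map_pow, hVN0, one_pow, div_one] at h1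
  exact absurd h1 hVf.ne

/-- the first partial derivative does not vanish -/
theorem f1_ne (hN0 : r.N0 ≠ 0) {V : ValuationSubring Ω}
    (hVτ : ∀ a ∈ acl k ({c.τ} : Set Ω), a ∈ V) (hVN0 : V.valuation r.N0 = 1)
    (hVf : V.valuation c.f < 1) : c.f ∉ acl k (insert r.N0 {c.τ} : Set Ω) := by
  intro h
  refine r.phi_notMem hN0 hVτ hVN0 hVf ?_
  refine r3_deg_zero c.E (S := {c.τ}) (g := r.N0) ?_ ?_ ?_ (r.E_phi hN0)
  · rintro _ rfl
    exact c.E_τ
  · rw [r.E_N0]; exact hN0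
  · exact div_mem h (pow_mem (subset_acl _ (Set.mem_insert _ _)) _)

/-- `x` is a quadratic curve in `N2` over `L` -/
theorem x_quad (hθ : c.Dh c.τ ≠ 0) (hN0 : r.N0 ≠ 0)
    (hρ : r.N1 / r.N0 ∉ acl k ({c.τ} : Set Ω)) (hf1 : c.f ∉ acl k (insert r.N0 {c.τ} : Set Ω)) :
    ∃ (A B : Fin 4 → Ω) (κ b : Ω), (∀ i, A i ∈ r.L) ∧ (∀ i, B i ∈ r.L) ∧ κ ∈ r.L ∧ κ ≠ 0 ∧
      (∀ i, B i = r.D (c.h i) - b * c.h i) ∧
      ∀ i, c.x i = A i + B i * r.N2 + κ * c.h i * r.N2 ^ 2 := by
  obtain ⟨hL, ft, f0, f1, hft, hf0, hf1L, hDf, hf1'⟩ := r.basis_facts hθ hN0 hρ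
  have hf1ne : f1 ≠ 0 := fun h => hf1 (hf1' h)
  have hfL : c.f ∈ r.L := (hL _).2 (r.X_f hθ)
  have hf := c.f0
  have htr := c.tr
  rw [hDf, ← r.kap_mul hθ] at htr
  have hkap : r.kap = -(ft + r.N1 * f0) / c.f - f1 / c.f * r.N2 := by
    have h1 : c.Dh c.τ * ((ft + r.N1 * f0 + r.N2 * f1) + c.f * r.kap) = 0 := by
      linear_combination htr
    have h2 := (mul_eq_zero.1 h1).resolve_left hθ
    field_simp
    linear_combination h2
  set κ0 := -(ft + r.N1 * f0) / c.f with hκ0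
  set κ1 := f1 / c.f with hκ1
  have hκ0L : κ0 ∈ r.L := div_mem (neg_mem (add_mem hft (mul_mem r.N1_L hf0))) hfL
  have hκ1L : κ1 ∈ r.L := div_mem hf1L hfL
  have hκ1ne : κ1 ≠ 0 := div_ne_zero hf1ne hf
  have h2ne : (2 : Ω) ≠ 0 := by
    have : CharZero Ω := charZero_of_injective_algebraMap (algebraMap k Ω).injective
    exact two_ne_zero
  have hhL : ∀ i, c.h i ∈ r.L := fun i => r.acl_L (c.hmem i)
  have hDhL : ∀ i, r.D (c.h i) ∈ r.L := fun i => r.acl_L (r.D_mem (c.hmem i))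
  have hBL : ∀ i, r.D (c.h i) - κ0 * c.h i ∈ r.L := fun i =>
    sub_mem (hDhL i) (mul_mem hκ0L (hhL i))
  have hκL : κ1 / 2 ∈ r.L := div_mem hκ1L (by exact_mod_cast natCast_mem r.L 2)
  refine ⟨fun i => c.x i - (r.D (c.h i) - κ0 * c.h i) * r.N2 - κ1 / 2 * c.h i * r.N2 ^ 2,
    fun i => r.D (c.h i) - κ0 * c.h i, κ1 / 2, κ0, ?_, hBL, hκL, div_ne_zero hκ1ne h2ne,
    fun i => rfl, fun i => by ring⟩
  intro i
  rw [hL]
  have hX1 : r.XX (r.D (c.h i) - κ0 * c.h i) = 0 := (hL _).1 (hBL i)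
  have hX2 : r.XX (κ1 / 2 * c.h i) = 0 := (hL _).1 (mul_mem hκL (hhL i))
  rw [map_sub, map_sub, Derivation.leibniz, Derivation.leibniz, Derivation.leibniz_pow, hX1, hX2,
    r.X_N2 hθ, r.X_x hθ, hkap]
  simp only [smul_eq_mul, nsmul_eq_mul]
  push_cast
  field_simp
  ring

/-- on the quadratic curve, `P, Q, H` vanish in the direction `h` -/
theorem top_zero (hθ : c.Dh c.τ ≠ 0) (hN0 : r.N0 ≠ 0)
    (hρ : r.N1 / r.N0 ∉ acl k ({c.τ} : Set Ω)) {P Q : MvPolynomial (Fin 4) k} {e : ℕ} (he : e ≠ 0)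
    (hPQ : IsRelPrime P Q) (hP : P.IsHomogeneous e) (hQ : Q.IsHomogeneous e)
    (hQx : aeval c.x Q ≠ 0) (hτ : c.τ = aeval c.x P / aeval c.x Q)
    {A B : Fin 4 → Ω} {κ b : Ω} (hA : ∀ i, A i ∈ r.L) (hB : ∀ i, B i ∈ r.L) (hκ : κ ∈ r.L)
    (hBb : ∀ i, B i = r.D (c.h i) - b * c.h i)
    (hx : ∀ i, c.x i = A i + B i * r.N2 + κ * c.h i * r.N2 ^ 2) :
    aeval (fun i => κ * c.h i) P = 0 ∧ aeval (fun i => κ * c.h i) Q = 0 ∧
      ∀ i, aeval (fun i => κ * c.h i) (c.H i) = 0 := by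
  classical
  obtain ⟨hL, -⟩ := r.basis_facts hθ hN0 hρ
  have hCL : ∀ i, κ * c.h i ∈ r.L := fun i => mul_mem hκ (r.acl_L (c.hmem i))
  have hyL : ∀ i, c.y i ∈ r.L := fun i => (hL _).2 (r.X_y hθ i)
  let g : Fin 4 → Polynomial r.L := fun i =>
    Polynomial.C ⟨A i, hA i⟩ + Polynomial.C ⟨B i, hB i⟩ * Polynomial.X +
      Polynomial.C ⟨κ * c.h i, hCL i⟩ * Polynomial.X ^ 2
  have hgdeg : ∀ i, (g i).natDegree ≤ 2 := by
    intro i
    have h1 : g i = Polynomial.C ⟨κ * c.h i, hCL i⟩ * Polynomial.X ^ 2 +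
        Polynomial.C ⟨B i, hB i⟩ * Polynomial.X + Polynomial.C ⟨A i, hA i⟩ := by
      simp only [g]; ring
    rw [h1]
    exact Polynomial.natDegree_quadratic_le
  have hg2 : ∀ i, (g i).coeff 2 = ⟨κ * c.h i, hCL i⟩ := by
    intro i
    simp [g]
  -- transcendence of `N2`
  have htr : Transcendental r.L r.N2 := transcendental_iff_notMem_acl.2 (r.N2_notMem hθ)
  have hinj := transcendental_iff_injective.1 htr
  -- evaluations
  have hevx : ∀ G : MvPolynomial (Fin 4) k, Polynomial.aeval r.N2 (aeval g G) = aeval c.x G := by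
    intro G
    have h1 := MvPolynomial.comp_aeval_apply g
      ((Polynomial.aeval r.N2 : Polynomial r.L →ₐ[r.L] Ω).restrictScalars k) G
    rw [AlgHom.restrictScalars_apply] at h1
    rw [h1]
    congr 2
    funext i
    rw [AlgHom.restrictScalars_apply, hx i]
    simp only [g, map_add, map_mul, Polynomial.aeval_C, Polynomial.aeval_X, map_pow]
    rfl
  have hevt : ∀ (t : r.L) (G : MvPolynomial (Fin 4) k), (((aeval g G).eval t : r.L) : Ω) =
      aeval (fun i => (((g i).eval t : r.L) : Ω)) G := by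
    intro t G
    have h1 := MvPolynomial.comp_aeval_apply g
      (((IntermediateField.val r.L).comp ((Polynomial.aeval t : Polynomial r.L →ₐ[r.L] r.L).restrictScalars k))) G
    exact h1
  have hevc : ∀ (G : MvPolynomial (Fin 4) k) (m : ℕ), G.IsHomogeneous m →
      (((aeval g G).coeff (2 * m) : r.L) : Ω) = aeval (fun i => κ * c.h i) G := by
    intro G m hG
    rw [r3_top g hgdeg hG]
    have h1 := MvPolynomial.comp_aeval_apply (fun i => (g i).coeff 2) (IntermediateField.val r.L) G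
    rw [IntermediateField.coe_val] at h1
    rw [h1]
    congr 2
    funext i
    rw [hg2]
  set τ' : r.L := ⟨c.τ, r.τ_L⟩ with hτ'
  have hpq : aeval g P = Polynomial.C τ' * aeval g Q := by
    apply hinj
    rw [map_mul, hevx, hevx, Polynomial.aeval_C]
    have h1 : algebraMap r.L Ω τ' = c.τ := rfl
    rw [h1, hτ]
    field_simp
  have hy : ∀ i, aeval g (c.H i) = Polynomial.C (⟨c.y i, hyL i⟩ : r.L) := by
    intro i
    apply hinj
    rw [hevx, Polynomial.aeval_C, ← c.hy]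
    rfl
  -- `Q` is constant on the curve
  have hconst : (aeval g Q).natDegree = 0 := by
    by_contra hne
    have hclosed : IsAlgClosed r.L := acl_isAlgClosed _
    have hdeg : (aeval g Q).degree ≠ 0 := by
      intro h
      exact hne (Polynomial.natDegree_eq_of_degree_eq_some h)
    obtain ⟨t, ht⟩ := IsAlgClosed.exists_root _ hdeg
    rw [Polynomial.IsRoot.def] at ht
    set z : Fin 4 → Ω := fun i => (((g i).eval t : r.L) : Ω) with hz
    have hQz : aeval z Q = 0 := by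
      rw [hz, ← hevt, ht]; rfl
    have hPz : aeval z P = 0 := by
      rw [hz, ← hevt, hpq, Polynomial.eval_mul, ht, mul_zero]; rfl
    have hHz : ∀ i, aeval z (c.H i) = c.y i := by
      intro i
      rw [hz, ← hevt, hy, Polynomial.eval_C]
    have hzi : ∀ i, z i = A i + B i * (t : Ω) + κ * c.h i * (t : Ω) ^ 2 := by
      intro i
      simp only [hz, g, Polynomial.eval_add, Polynomial.eval_mul, Polynomial.eval_C,
        Polynomial.eval_X, Polynomial.eval_pow]
      push_cast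
      rfl
    have hyz : ∀ i, c.y i ∈ acl k (Set.range z) := by
      intro i
      rw [← hHz i]
      exact b3_aeval_acl _ _ fun j => subset_acl _ ⟨j, rfl⟩
    have hτz : c.τ ∈ acl k (Set.range z) := by
      obtain ⟨i, hi⟩ := c.hτ
      have h1 : c.h i = c.y i / c.y c.j := by
        rw [c.hh i, ← c.hf, mul_div_cancel_left₀ _ c.f0]
      rw [hi, h1]
      exact div_mem (hyz i) (hyz _)
    have hτle : ∀ w ∈ acl k ({c.τ} : Set Ω), w ∈ acl k (Set.range z) := by
      intro w hw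
      refine acl_le_iff.2 ?_ hw
      rintro _ rfl
      exact hτz
    -- linear forms
    have hlin : ∀ a : Fin 4 → Ω, ∑ i, a i * c.h i = 0 → ∑ i, a i * r.D (c.h i) = 0 →
        ∑ i, a i * c.x i = ∑ i, a i * z i := by
      intro a h0 h1
      have h2 : ∀ (s : Ω), ∑ i, a i * (A i + B i * s + κ * c.h i * s ^ 2) = ∑ i, a i * A i := by
        intro s
        have h3 : ∀ i, a i * (A i + B i * s + κ * c.h i * s ^ 2) =
            a i * A i + s * (a i * r.D (c.h i)) + (κ * s ^ 2 - b * s) * (a i * c.h i) := by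
          intro i
          rw [hBb i]; ring
        simp only [h3, Finset.sum_add_distrib, ← Finset.mul_sum, h0, h1, mul_zero, add_zero]
      calc ∑ i, a i * c.x i = ∑ i, a i * A i := by
            rw [← h2 r.N2]
            exact Finset.sum_congr rfl fun i _ => by rw [hx i]
        _ = ∑ i, a i * z i := by
            rw [← h2 (t : Ω)]
            exact Finset.sum_congr rfl fun i _ => by rw [hzi i]
    have hN0z : r.N0 ∈ acl k (Set.range z) := by
      have h1 := hlin r.U r.p0 r.p1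
      rw [N0, h1]
      exact sum_mem fun i _ => mul_mem (hτle _ (r.hU i)) (subset_acl _ ⟨i, rfl⟩)
    have hN1z : r.N1 ∈ acl k (Set.range z) := by
      have h1 := hlin (fun i => r.D (r.U i)) r.q00 r.q01
      rw [N1, h1]
      exact sum_mem fun i _ => mul_mem (hτle _ (r.D_mem (r.hU i))) (subset_acl _ ⟨i, rfl⟩)
    refine r3_no_pair hPQ hPz hQz (r.bas3 hN0 hρ) fun i => ?_
    fin_cases i
    · exact hN1z
    · exact hN0z
    · exact hτz
  have hq0 : ∀ m, m ≠ 0 → (aeval g Q).coeff m = 0 := by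
    intro m hm
    exact Polynomial.coeff_eq_zero_of_natDegree_lt (by omega)
  refine ⟨?_, ?_, ?_⟩
  · rw [← hevc P e hP, hpq, Polynomial.coeff_C_mul, hq0 _ (by omega), mul_zero]
    rfl
  · rw [← hevc Q e hQ, hq0 _ (by omega)]
    rfl
  · intro i
    rw [← hevc (c.H i) c.d (c.nil.hom i), hy, Polynomial.coeff_C, if_neg (by have := c.hd; omega)]
    rfl

theorem main (r : R3 c) (hθ : c.Dh c.τ ≠ 0) : False := by
  obtain ⟨P, Q, e, he, hPQ, hP, hQ, hQx, hτ⟩ := c.exists_forms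
  obtain ⟨I, hImin, hI, hPI, hQI⟩ := exists_minimalPrime_pair he hP hQ
  obtain ⟨V, hVx, hVτ, hVF, hB, hVN0, hN0, hVN1⟩ :=
    r.N0_facts hPQ hτ I hI hPI hQI (exists_X_notMem hImin)
  have hρ := r.ratio_notMem hImin hB hN0
  have hHI : ∀ i, c.H i ∈ I := by
    refine hB 4 r.U c.H r.hU r.U_indep ?_
    have h1 : ∑ i, r.U i * aeval c.x (c.H i) = c.f * ∑ i, r.U i * c.h i := by
      rw [Finset.mul_sum]
      refine Finset.sum_congr rfl fun i _ => ?_
      rw [← c.hy, c.hh]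
      ring
    rw [h1, r.p0, mul_zero, map_zero]
    exact zero_lt_one
  have hVf : V.valuation c.f < 1 := by
    rw [c.hf, c.hy]
    exact (hVF _).2 (hHI _)
  have hf1 := r.f1_ne hN0 hVτ hVN0 hVf
  obtain ⟨A, B, κ, b, hA, hB', hκ, hκ0, hBb, hx⟩ := r.x_quad hθ hN0 hρ hf1
  obtain ⟨hPc, hQc, hHc⟩ := r.top_zero hθ hN0 hρ he hPQ hP hQ hQx hτ hA hB' hκ hBb hx
  -- second ideal
  let φ : MvPolynomial (Fin 4) k →ₐ[k] Ω := aeval (fun i => κ * c.h i)
  set J : Ideal (MvPolynomial (Fin 4) k) := RingHom.ker φ with hJ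
  have hJp : J.IsPrime := RingHom.ker_isPrime _
  have hJX : ∃ i, (X i : MvPolynomial (Fin 4) k) ∉ J := by
    refine ⟨c.j, fun h => ?_⟩
    rw [hJ, RingHom.mem_ker] at h
    simp only [φ, aeval_X, c.hj, mul_one] at h
    exact hκ0 h
  obtain ⟨W, hWx, hWτ, hWF, hWB, hWN0, -, hWN1⟩ := r.N0_facts hPQ hτ J hJp
    (by rw [hJ, RingHom.mem_ker]; exact hPc) (by rw [hJ, RingHom.mem_ker]; exact hQc) hJX
  have hWf : W.valuation c.f < 1 := by
    rw [c.hf, c.hy]
    refine (hWF _).2 ?_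
    rw [hJ, RingHom.mem_ker]
    exact hHc _
  -- `f / N0^d` is algebraic over `τ, ρ`
  set ρ := r.N1 / r.N0 with hρd
  have hEρ : c.E ρ = 0 := by
    rw [hρd, Derivation.leibniz_div, r.E_N0, r.E_N1]
    simp [mul_comm]
  obtain ⟨hL, -⟩ := r.basis_facts hθ hN0 hρ
  have hfL : c.f ∈ r.L := (hL _).2 (r.X_f hθ)
  have hψ : c.f / r.N0 ^ c.d ∈ acl k (insert ρ {c.τ} : Set Ω) := by
    refine r3_deg_zero c.E (S := insert ρ {c.τ}) (g := r.N0) ?_ ?_ ?_ (r.E_phi hN0)
    · rintro w (rfl | rfl)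
      · exact hEρ
      · exact c.E_τ
    · rw [r.E_N0]; exact hN0
    · refine div_mem ?_ (pow_mem (subset_acl _ (Set.mem_insert _ _)) _)
      refine acl_le_iff.2 ?_ hfL
      have hm0 : r.N0 ∈ acl k (insert r.N0 (insert ρ {c.τ}) : Set Ω) :=
        subset_acl _ (Set.mem_insert _ _)
      have hmρ : ρ ∈ acl k (insert r.N0 (insert ρ {c.τ}) : Set Ω) :=
        subset_acl _ (Set.mem_insert_of_mem _ (Set.mem_insert _ _))
      have hmτ : c.τ ∈ acl k (insert r.N0 (insert ρ {c.τ}) : Set Ω) :=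
        subset_acl _ (Set.mem_insert_of_mem _ (Set.mem_insert_of_mem _ rfl))
      rintro _ ⟨i, rfl⟩
      fin_cases i
      · show r.N1 ∈ acl k (insert r.N0 (insert ρ {c.τ}) : Set Ω)
        have h1 : r.N1 = ρ * r.N0 := by rw [hρd]; field_simp
        rw [h1]
        exact mul_mem hmρ hm0
      · exact hm0
      · exact hmτ
  have hψ0 : c.f / r.N0 ^ c.d ≠ 0 := div_ne_zero c.f0 (pow_ne_zero _ hN0)
  have hψW : W.valuation (c.f / r.N0 ^ c.d) < 1 := by
    rw [map_div₀, map_pow, hWN0, one_pow, div_one]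
    exact hWf
  have hout : ∃ w ∈ acl k (insert ρ {c.τ} : Set Ω), w ∉ W := by
    refine ⟨(c.f / r.N0 ^ c.d)⁻¹, inv_mem hψ, ?_⟩
    rw [← W.valuation_le_one_iff, map_inv₀, not_le]
    exact (one_lt_inv₀ (zero_lt_iff.2 (by simpa using hψ0))).2 hψW
  obtain ⟨ε, hε, hε'⟩ := exists_residue W hWτ hout (z := ρ) (subset_acl _ (Set.mem_insert _ _)) (by
    rw [← W.valuation_le_one_iff, hρd, map_div₀, hWN0, div_one]
    exact hWN1)
  have hsmall : W.valuation (∑ i, (r.D (r.U i) - ε * r.U i) * c.x i) < 1 := by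
    have h1 : ∑ i, (r.D (r.U i) - ε * r.U i) * c.x i = (ρ - ε) * r.N0 := by
      simp only [sub_mul, Finset.sum_sub_distrib]
      have h2 : ∑ i, ε * r.U i * c.x i = ε * r.N0 := by
        rw [N0, Finset.mul_sum]
        exact Finset.sum_congr rfl fun i _ => by ring
      have h3 : ∑ i, r.D (r.U i) * c.x i = ρ * r.N0 := by
        have : r.N1 = ρ * r.N0 := by rw [hρd]; field_simp
        rw [← this]
        rfl
      rw [h2, h3]
    rw [h1, map_mul, hWN0, mul_one]
    exact hε'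
  obtain ⟨m, η, cc, hc1, hc2, hc3⟩ := r3_lin_mem hWB
    (fun i => sub_mem (r.D_mem (r.hU i)) (mul_mem hε (r.hU i))) hsmall
  have hm : m = 0 := by
    by_contra hm
    have h1 : cc ⟨0, Nat.pos_of_ne_zero hm⟩ ≠ 0 := hc1.ne_zero _
    apply h1
    have h2 := hc2 ⟨0, Nat.pos_of_ne_zero hm⟩
    rw [hJ, RingHom.mem_ker] at h2
    simp only [φ, lf, map_sum, map_mul, aeval_C, aeval_X] at h2
    have h3 : ∑ i, cc ⟨0, Nat.pos_of_ne_zero hm⟩ i • c.h i = 0 := by
      have h4 : κ * ∑ i, cc ⟨0, Nat.pos_of_ne_zero hm⟩ i • c.h i = 0 := by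
        rw [← h2, Finset.mul_sum]
        refine Finset.sum_congr rfl fun i _ => ?_
        rw [Algebra.smul_def]
        ring
      exact (mul_eq_zero.1 h4).resolve_left hκ0
    funext i
    exact Fintype.linearIndependent_iff.1 c.h_indep _ h3 i
  subst hm
  have hU : ∀ i, r.D (r.U i) = ε * r.U i := by
    intro i
    have h1 := hc3 i
    rw [Finset.univ_eq_empty, Finset.sum_empty] at h1
    exact sub_eq_zero.1 h1
  have h2 := r.q02
  simp only [hU, mul_assoc, ← Finset.mul_sum] at h2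
  rw [r.p2, mul_zero] at h2
  have h3 : (1 : Ω) = 0 := by linear_combination h2
  exact one_ne_zero h3

end R3

namespace Ctx2
variable {k Ω : Type*} [Field k] [IsAlgClosed k] [CharZero k] [Field Ω] [IsAlgClosed Ω] [Algebra k Ω]

/-! ## R3 -/
theorem n4_theta (c : Ctx2 k Ω 4) (hθ : c.Dh c.τ ≠ 0) : False := by
  obtain ⟨r⟩ := R3.exists_r3 c
  exact r.main hθ

end Ctx2

end Pool.Agent.HDP
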