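import Mathlib
import Pool.Agent.Lib.MP_20906e_al.Defs
import Pool.Agent.Lib.MP_20906e_al.Lin
import Pool.Agent.Lib.MP_20906e_al.Setup
import Pool.Agent.Lib.MP_20906e_al.Ctx2
import Pool.Agent.Lib.MP_20906e_al.R0
import Pool.Agent.Lib.MP_20906e_al.R1
import Pool.Agent.Lib.MP_20906e_al.R2
import Pool.Agent.Lib.MP_20906e_al.R3

/-!
# MP_20906e_al, piece R4 : assembly of the rank two case (helper78)
-/

namespace Pool.Agent.HDP
open MvPolynomial
universe u

/-- the Jacobian matrix over the fraction field is nilpotent -/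
theorem jac_frac_nilp {k : Type u} [Field k] {n d : ℕ} {H : Fin n → MvPolynomial (Fin n) k}
    (h : Nil k n d H) :
    IsNilpotent ((jac H).map (algebraMap _ (FractionRing (MvPolynomial (Fin n) k)))) := by
  obtain ⟨m, hm⟩ := h.nilp
  refine ⟨m, ?_⟩
  have h1 : (jac H).map (algebraMap _ (FractionRing (MvPolynomial (Fin n) k))) =
      (algebraMap (MvPolynomial (Fin n) k)
        (FractionRing (MvPolynomial (Fin n) k))).mapMatrix (jac H) := rfl
  rw [h1, ← map_pow, hm, map_zero]

theorem dep3 {k : Type u} [Field k] [IsAlgClosed k] [CharZero k] {d : ℕ} {H : Fin 3 → MvPolynomial (Fin 3) k}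
    (h : Nil k 3 d H) : ¬ LinearIndependent k H := by
  intro hi
  by_cases hd : d = 0
  · subst hd
    -- constants are dependent
    have hc : ∀ i, ∃ a : k, H i = C a := by
      intro i
      exact ⟨_, totalDegree_eq_zero_iff_eq_C.1 (Nat.le_zero.1 (h.hom i).totalDegree_le)⟩
    choose a ha using hc
    have h0 := Fintype.linearIndependent_iff.1 hi ![a 1, -a 0, 0] (by
      rw [Fin.sum_univ_three]
      simp only [Matrix.cons_val_zero, Matrix.cons_val_one, Matrix.cons_val_two, Matrix.head_cons,
        Matrix.tail_cons, ha, smul_eq_C_mul, ← map_mul, map_zero, zero_mul, add_zero]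
      rw [← map_add]
      ring_nf
      simp)
    have h1 := h0 0
    have h2 := h0 1
    simp at h1 h2
    have h3 : H 0 = 0 := by rw [ha, h2, map_zero]
    exact hi.ne_zero 0 h3
  · have hr : ((jac H).map (algebraMap _ (FractionRing (MvPolynomial (Fin 3) k)))).rank ≤ 2 :=
      nilp_rank_lt (jac_frac_nilp h)
    obtain ⟨Ω, _, _, _, ⟨c⟩⟩ := exists_ctx2 (by norm_num) hd h hi hr
    by_cases hθ : c.Dh c.τ = 0
    · exact c.theta_zero hθ
    · exact c.n3_theta hθ

theorem rank4 {k : Type u} [Field k] [IsAlgClosed k] [CharZero k] {d : ℕ} (hd : d ≠ 0)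
    {H : Fin 4 → MvPolynomial (Fin 4) k} (h : Nil k 4 d H) (hi : LinearIndependent k H) :
    ((jac H).map (algebraMap _ (FractionRing (MvPolynomial (Fin 4) k)))).rank = 3 := by
  refine le_antisymm (nilp_rank_lt (jac_frac_nilp h)) ?_
  by_contra hlt
  obtain ⟨Ω, _, _, _, ⟨c⟩⟩ := exists_ctx2 (by norm_num) hd h hi (by omega)
  by_cases hθ : c.Dh c.τ = 0
  · exact c.theta_zero hθ
  · exact c.n4_theta hθ

theorem nil_one {k : Type u} [Field k] [CharZero k] {n : ℕ} (hn : n ≠ 0)
    {H : Fin n → MvPolynomial (Fin n) k} (h : Nil k n 1 H) : ¬ LinearIndependent k H := by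
  intro hi
  have hc : ∀ i j, ∃ a : k, pderiv j (H i) = C a := by
    intro i j
    have h1 : (pderiv j (H i)).IsHomogeneous 0 := (h.hom i).pderiv
    exact ⟨_, totalDegree_eq_zero_iff_eq_C.1 (Nat.le_zero.1 h1.totalDegree_le)⟩
  choose a ha using hc
  set M : Matrix (Fin n) (Fin n) k := Matrix.of a with hM
  have hJ : jac H = (C : k →+* MvPolynomial (Fin n) k).mapMatrix M := by
    ext1 i j
    rw [RingHom.mapMatrix_apply, Matrix.map_apply]
    exact ha i j
  have hMn : IsNilpotent M := by
    obtain ⟨m, hm⟩ := h.nilp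
    refine ⟨m, ?_⟩
    rw [hJ, ← map_pow] at hm
    have hinj : Function.Injective ((C : k →+* MvPolynomial (Fin n) k).mapMatrix
        (m := Fin n)) := by
      intro A B hAB
      ext i j
      have := congrFun (congrFun hAB i) j
      simp only [RingHom.mapMatrix_apply, Matrix.map_apply] at this
      exact C_injective _ _ this
    exact hinj (by rw [hm, map_zero])
  have hdet := nilp_det hn hMn
  obtain ⟨v, hv0, hv⟩ := Matrix.exists_vecMul_eq_zero_iff.2 hdet
  have hE := jac_euler h.hom
  have hsum : ∑ i, v i • H i = 0 := by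
    have h1 : ∀ i, H i = ∑ l, C (M i l) * X l := by
      intro i
      have h2 := congrFun hE i
      rw [Nat.cast_one, one_mul] at h2
      rw [← h2, hJ]
      rfl
    have h3 : ∑ i, v i • H i = ∑ l, C (∑ i, v i * M i l) * X l := by
      simp only [h1, smul_eq_C_mul, Finset.mul_sum, map_sum, Finset.sum_mul, map_mul]
      rw [Finset.sum_comm]
      refine Finset.sum_congr rfl fun l _ => Finset.sum_congr rfl fun i _ => ?_
      ring
    rw [h3]
    refine Finset.sum_eq_zero fun l _ => ?_
    have h4 : ∑ i, v i * M i l = 0 := congrFun hv l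
    rw [h4, map_zero, zero_mul]
  exact hv0 (funext fun i => Fintype.linearIndependent_iff.1 hi v hsum i)

end Pool.Agent.HDP
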