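import Mathlib
import Pool.Agent.Lib.MP_20906e_al.Defs
import Pool.Agent.Lib.MP_20906e_al.Ctx
import Pool.Agent.Lib.MP_20906e_al.CtxN
import Pool.Agent.Lib.MP_20906e_al.DCtx
import Pool.Agent.Lib.MP_20906e_al.Cone
import Pool.Agent.Lib.MP_20906e_al.CaseB
import Pool.Agent.Lib.MP_20906e_al.Acl
import Pool.Agent.Lib.MP_20906e_al.Der
import Pool.Agent.Lib.MP_20906e_al.Place
import Pool.Agent.Lib.MP_20906e_al.R4

/-!
# MP_20906e_al, piece E8g: the end of case B (helper57)
-/

set_option linter.unusedSectionVars false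

namespace Pool.Agent.HDP
open MvPolynomial

variable {k Ω : Type*} [Field k] [IsAlgClosed k] [CharZero k] [Field Ω] [IsAlgClosed Ω] [Algebra k Ω]

/-- a valuation ring centred at a prime of the polynomial ring -/
private theorem e8g_center {x : Fin 4 → Ω} (hx : IsTranscendenceBasis k x)
    {f : MvPolynomial (Fin 4) k} (hf : Irreducible f) :
    ∃ V : ValuationSubring Ω, (∀ G : MvPolynomial (Fin 4) k, aeval x G ∈ V) ∧
      ∀ G : MvPolynomial (Fin 4) k, V.valuation (aeval x G) < 1 ↔ f ∣ G := by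
  have hinj : Function.Injective (aeval x : MvPolynomial (Fin 4) k →ₐ[k] Ω) := hx.1
  let B : Subring Ω := (aeval x : MvPolynomial (Fin 4) k →ₐ[k] Ω).toRingHom.range
  let e : MvPolynomial (Fin 4) k ≃+* B := RingEquiv.ofBijective
    (aeval x : MvPolynomial (Fin 4) k →ₐ[k] Ω).toRingHom.rangeRestrict
    ⟨fun a b hab => hinj (congrArg Subtype.val hab),
      (aeval x : MvPolynomial (Fin 4) k →ₐ[k] Ω).toRingHom.rangeRestrict_surjective⟩
  have he : ∀ G, ((e G : B) : Ω) = aeval x G := fun G => rfl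
  have hp : (Ideal.span {f} : Ideal (MvPolynomial (Fin 4) k)).IsPrime :=
    (Ideal.span_singleton_prime hf.ne_zero).2 hf.prime
  obtain ⟨V, hV, hV'⟩ := exists_valuationSubring_center B
    ((Ideal.span {f} : Ideal (MvPolynomial (Fin 4) k)).comap e.symm.toRingHom) inferInstance
  refine ⟨V, fun G => hV (e G), fun G => ?_⟩
  rw [← he, hV', Ideal.mem_comap]
  simp [Ideal.mem_span_singleton]

private theorem e8g_pderiv_vars {f : MvPolynomial (Fin 4) k} {i : Fin 4} (h : pderiv i f = 0) :
    i ∉ f.vars := by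
  classical
  intro hi
  rw [mem_vars_iff_mem_support] at hi
  obtain ⟨s, hs, hsi⟩ := hi
  have hsi' : s i ≠ 0 := by simpa using hsi
  have h1 := congrArg (coeff (s - Finsupp.single i 1)) h
  rw [coeff_zero] at h1
  have h2 : coeff (s - Finsupp.single i 1) (pderiv i f) = coeff s f * (s i : k) := by
    conv_lhs => rw [f.as_sum]
    rw [map_sum, coeff_sum, Finset.sum_eq_single s]
    · rw [pderiv_monomial, coeff_monomial, if_pos rfl]
    · intro t _ hts
      rw [pderiv_monomial, coeff_monomial]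
      split_ifs with hh
      · by_cases hti : t i = 0
        · simp [hti]
        · exfalso
          apply hts
          have ht1 : Finsupp.single i 1 ≤ t := by
            rw [Finsupp.single_le_iff]; omega
          have hs1 : Finsupp.single i 1 ≤ s := by
            rw [Finsupp.single_le_iff]; omega
          rw [← tsub_add_cancel_of_le ht1, ← tsub_add_cancel_of_le hs1, hh]
      · rfl
    · intro hs'
      exact absurd hs hs'
  rw [h2] at h1
  rcases mul_eq_zero.1 h1 with h3 | h3
  · exact (mem_support_iff.1 hs) h3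
  · exact hsi' (by exact_mod_cast h3)

/-- dimension three from dimension four -/
private theorem e8g_dep {d : ℕ} {H : Fin 4 → MvPolynomial (Fin 4) k} (h : Nil k 4 d H)
    (h3 : ∀ i : Fin 3, pderiv 3 (H (Fin.castSucc i)) = 0) : ¬ LinearIndependent k H := by
  intro hi
  have hsub : ∀ i : Fin 3, ∃ q : MvPolynomial (Fin 3) k,
      rename Fin.castSucc q = H (Fin.castSucc i) := by
    intro i
    refine exists_rename_eq_of_vars_subset_range _ _ (Fin.castSucc_injective 3) ?_
    intro j hj
    by_contra hne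
    have hj3 : j = 3 := by
      by_contra hj3
      apply hne
      have : j ≠ Fin.last 3 := hj3
      exact ⟨j.castPred this, Fin.castSucc_castPred j this⟩
    subst hj3
    exact e8g_pderiv_vars (h3 i) hj
  choose H' hH' using hsub
  have hpd : ∀ i j : Fin 3, pderiv (Fin.castSucc j) (H (Fin.castSucc i)) =
      rename Fin.castSucc (pderiv j (H' i)) := by
    intro i j
    rw [← hH', pderiv_rename (Fin.castSucc_injective 3)]
  have hN : Nil k 3 d H' := by
    constructor
    · intro i
      rw [← IsHomogeneous.rename_isHomogeneous_iff (Fin.castSucc_injective 3), hH']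
      exact h.hom _
    · obtain ⟨m, hm⟩ := h.nilp
      refine ⟨m, ?_⟩
      have key : ∀ (m : ℕ) (i j : Fin 3), (jac H ^ m) (Fin.castSucc i) (Fin.castSucc j) =
          rename Fin.castSucc ((jac H' ^ m) i j) := by
        intro m
        induction m with
        | zero =>
          intro i j
          rw [pow_zero, pow_zero, Matrix.one_apply, Matrix.one_apply]
          by_cases hij : i = j
          · subst hij; simp
          · rw [if_neg hij, if_neg (fun hh => hij (Fin.castSucc_injective 3 hh)), map_zero]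
        | succ m ih =>
          intro i j
          rw [pow_succ', pow_succ', Matrix.mul_apply, Matrix.mul_apply, Fin.sum_univ_castSucc, map_sum]
          have e0 : jac H (Fin.castSucc i) (Fin.last 3) = 0 := h3 i
          rw [e0, zero_mul, add_zero]
          refine Finset.sum_congr rfl fun l _ => ?_
          rw [map_mul, ← ih]
          congr 1
          exact hpd i l
      ext1 i j
      have h1 := key m i j
      rw [hm] at h1
      have h2 : rename Fin.castSucc ((jac H' ^ m) i j) = rename (Fin.castSucc (n := 3)) (0 : MvPolynomial (Fin 3) k) := by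
        rw [← h1]; simp
      exact rename_injective _ (Fin.castSucc_injective 3) h2
  apply dep3 hN
  have h1 : LinearIndependent k (fun i : Fin 3 => H (Fin.castSucc i)) :=
    hi.comp _ (Fin.castSucc_injective 3)
  have h2 : (fun i : Fin 3 => H (Fin.castSucc i)) =
      (rename (Fin.castSucc (n := 3)) : MvPolynomial (Fin 3) k →ₐ[k] MvPolynomial (Fin 4) k).toLinearMap ∘ H' := by
    funext i
    exact (hH' i).symm
  rw [h2] at h1
  exact LinearIndependent.of_comp _ h1

/-- a divisor of a polynomial without `X 3` does not involve `X 3` -/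
private theorem e8g_deg {f G : MvPolynomial (Fin 4) k} (hG0 : G ≠ 0) (hG : degreeOf 3 G = 0)
    (h : f ∣ G) : degreeOf 3 f = 0 := by
  obtain ⟨g, rfl⟩ := h
  have hf0 : f ≠ 0 := left_ne_zero_of_mul hG0
  have hg0 : g ≠ 0 := right_ne_zero_of_mul hG0
  rw [degreeOf_mul_eq hf0 hg0] at hG
  omega

private theorem e8g_deg_pderiv {G : MvPolynomial (Fin 4) k} (h : degreeOf 3 G = 0) : pderiv 3 G = 0 := by
  refine pderiv_eq_zero_of_notMem_vars ?_
  rw [mem_vars_iff_degreeOf_ne_zero]
  simpa using h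

private theorem e8g_sum_deg {ι : Type*} (s : Finset ι) (F : ι → MvPolynomial (Fin 4) k)
    (h : ∀ i ∈ s, degreeOf 3 (F i) = 0) : degreeOf 3 (∑ i ∈ s, F i) = 0 := by
  have h1 := degreeOf_sum_le 3 s F
  have h2 : (s.sup fun j => degreeOf 3 (F j)) ≤ 0 := Finset.sup_le fun i hi => by rw [h i hi]
  omega

private theorem e8g_mul_deg {F G : MvPolynomial (Fin 4) k} (hF : degreeOf 3 F = 0) (hG : degreeOf 3 G = 0) :
    degreeOf 3 (F * G) = 0 := by
  have := degreeOf_mul_le 3 F G
  omega

private theorem e8g_add_deg {F G : MvPolynomial (Fin 4) k} (hF : degreeOf 3 F = 0) (hG : degreeOf 3 G = 0) :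
    degreeOf 3 (F + G) = 0 := by
  have := degreeOf_add_le 3 F G
  rw [hF, hG] at this
  simpa using this

private theorem e8g_X_deg {i : Fin 4} (hi : i ≠ 3) : degreeOf 3 (X i : MvPolynomial (Fin 4) k) = 0 := by
  rw [degreeOf_X, if_neg hi.symm]

private theorem e8g_lin_deg (r : Fin 3 → k) :
    degreeOf 3 (∑ i : Fin 3, C (r i) * X (Fin.castSucc i) : MvPolynomial (Fin 4) k) = 0 := by
  refine e8g_sum_deg _ _ fun i _ => e8g_mul_deg (degreeOf_C _ _) (e8g_X_deg ?_)
  exact (Fin.castSucc_lt_last i).ne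

/-- the irreducible factors of `H 0` do not involve `X 3` -/
private theorem e8g_factor {x : Fin 4 → Ω} (hx : IsTranscendenceBasis k x) {τ : Ω}
    {d : ℕ} (hd : d ≠ 0) {H0 : MvPolynomial (Fin 4) k} {ε η0 : Ω} (hε : ε ∈ acl k ({τ} : Set Ω))
    (he : ε ^ d * η0 = 1) (hy : aeval x H0 = x 0 ^ d * η0)
    {l : Fin 3 → Ω} (hl : ∀ i, l i ∈ acl k ({τ} : Set Ω))
    {a0 a1 a2 : k} (ha : ¬ (a0 = 0 ∧ a1 = 0 ∧ a2 = 0))
    (hq : x 0 * x 3 = ε * (algebraMap k Ω a0 * x 1 ^ 2 + algebraMap k Ω a1 * x 1 * x 2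
        + algebraMap k Ω a2 * x 2 ^ 2) + x 0 * ∑ i, l i * x (Fin.castSucc i))
    {f : MvPolynomial (Fin 4) k} (hf : Irreducible f) (hfH : f ∣ H0)
    (hf0 : ¬ f ∣ X 0) : degreeOf 3 f = 0 := by
  obtain ⟨V, hV, hV'⟩ := e8g_center hx hf
  have hXV : ∀ i, x i ∈ V := fun i => by simpa using hV (X i)
  have hX1 : ∀ i, V.valuation (x i) ≤ 1 := fun i => (V.valuation_le_one_iff _).2 (hXV i)
  have hx0 : V.valuation (x 0) = 1 := by
    refine le_antisymm (hX1 0) ?_
    by_contra hlt
    push Not at hlt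
    apply hf0
    rw [← hV']
    simpa using hlt
  have hε0 : ε ≠ 0 := by
    rintro rfl
    rw [zero_pow hd, zero_mul] at he
    exact zero_ne_one he
  have hη : V.valuation η0 < 1 := by
    have h1 := (hV' H0).2 hfH
    rw [hy, map_mul, map_pow, hx0, one_pow, one_mul] at h1
    exact h1
  have hεV : ε ∉ V := by
    intro h
    have h1 : V.valuation (ε ^ d) ≤ 1 := (V.valuation_le_one_iff _).2 (pow_mem h d)
    have h2 := congrArg V.valuation he
    rw [map_mul, map_one] at h2
    have h3 : V.valuation (ε ^ d) * V.valuation η0 < 1 := by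
      rw [mul_comm]; exact mul_lt_one_of_lt_of_le hη h1
    exact absurd h2 h3.ne
  have hε1 : V.valuation ε⁻¹ < 1 := by
    have h1 : ¬ V.valuation ε ≤ 1 := fun h => hεV ((V.valuation_le_one_iff _).1 h)
    push Not at h1
    rw [map_inv₀]
    exact inv_lt_one_of_one_lt₀ h1
  have hkV : ∀ r : k, algebraMap k Ω r ∈ V := fun r => by
    have := hV (C r)
    rwa [aeval_C] at this
  have hres : ∀ z ∈ acl k ({τ} : Set Ω), z ∈ V → ∃ r : k, V.valuation (z - algebraMap k Ω r) < 1 := by
    intro z hz hzV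
    obtain ⟨e, he, h1⟩ := exists_residue (k := k) (S := (∅ : Set Ω)) (t := τ) V (by
      intro a ha
      obtain ⟨r, rfl⟩ := (acl_empty a).1 ha
      exact hkV r) ⟨ε, by simpa using hε, hεV⟩ (by simpa using hz) hzV
    obtain ⟨r, rfl⟩ := (acl_empty e).1 he
    exact ⟨r, h1⟩
  have hm : ∀ i, l i / ε ∈ acl k ({τ} : Set Ω) := fun i => div_mem (hl i) hε
  have hq' : ε⁻¹ * (x 0 * x 3) = (algebraMap k Ω a0 * x 1 ^ 2 + algebraMap k Ω a1 * x 1 * x 2
        + algebraMap k Ω a2 * x 2 ^ 2) + x 0 * ∑ i, l i / ε * x (Fin.castSucc i) := by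
    rw [hq, mul_add, ← mul_assoc, inv_mul_cancel₀ hε0, one_mul, mul_left_comm, Finset.mul_sum]
    congr 2
    refine Finset.sum_congr rfl fun i _ => ?_
    rw [div_eq_inv_mul, mul_assoc]
  have hlhs : V.valuation (ε⁻¹ * (x 0 * x 3)) < 1 := by
    rw [map_mul, map_mul]
    exact mul_lt_one_of_lt_of_le hε1 (mul_le_one' (hX1 0) (hX1 3))
  obtain ⟨j, -, hj⟩ := Finset.exists_max_image Finset.univ (fun i => V.valuation (l i / ε))
    ⟨0, Finset.mem_univ _⟩
  by_cases hjV : l j / ε ∈ V
  · -- all coefficients are integral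
    have hall : ∀ i, l i / ε ∈ V := fun i => (V.valuation_le_one_iff _).1
      ((hj i (Finset.mem_univ _)).trans ((V.valuation_le_one_iff _).2 hjV))
    choose r hr using fun i => hres _ (hm i) (hall i)
    let G : MvPolynomial (Fin 4) k := (C a0 * X 1 ^ 2 + C a1 * X 1 * X 2 + C a2 * X 2 ^ 2) +
      X 0 * ∑ i : Fin 3, C (r i) * X (Fin.castSucc i)
    have hG : f ∣ G := by
      rw [← hV']
      have h1 : aeval x G = ε⁻¹ * (x 0 * x 3) -
          x 0 * ∑ i, (l i / ε - algebraMap k Ω (r i)) * x (Fin.castSucc i) := by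
        rw [hq']
        simp only [G, map_add, map_mul, map_pow, map_sum, aeval_C, aeval_X]
        simp only [sub_mul, Finset.sum_sub_distrib]
        ring
      rw [h1]
      refine Valuation.map_sub_lt _ hlhs ?_
      rw [map_mul, hx0, one_mul]
      refine Valuation.map_sum_lt _ one_ne_zero fun i _ => ?_
      rw [map_mul]
      exact mul_lt_one_of_lt_of_le (hr i) (hX1 _)
    refine e8g_deg ?_ ?_ hG
    · intro h0
      apply ha
      have h1 : ∀ s t : k, a0 * s ^ 2 + a1 * s * t + a2 * t ^ 2 = 0 := by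
        intro s t
        have h2 := congrArg (MvPolynomial.eval ![0, s, t, 0]) h0
        simpa [G] using h2
      have e1 := h1 1 0
      have e2 := h1 0 1
      have e3 := h1 1 1
      have f0 : a0 = 0 := by linear_combination e1
      have f2 : a2 = 0 := by linear_combination e2
      refine ⟨f0, ?_, f2⟩
      rw [f0, f2] at e3
      linear_combination e3
    · refine e8g_add_deg ?_ (e8g_mul_deg (e8g_X_deg (by decide)) (e8g_lin_deg r))
      refine e8g_add_deg (e8g_add_deg ?_ ?_) ?_
      · exact e8g_mul_deg (degreeOf_C _ _) (by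
          rw [pow_two]; exact e8g_mul_deg (e8g_X_deg (by decide)) (e8g_X_deg (by decide)))
      · exact e8g_mul_deg (e8g_mul_deg (degreeOf_C _ _) (e8g_X_deg (by decide))) (e8g_X_deg (by decide))
      · exact e8g_mul_deg (degreeOf_C _ _) (by
          rw [pow_two]; exact e8g_mul_deg (e8g_X_deg (by decide)) (e8g_X_deg (by decide)))
  · -- divide by the largest coefficient
    have hj1 : 1 < V.valuation (l j / ε) := by
      by_contra hle
      push Not at hle
      exact hjV ((V.valuation_le_one_iff _).1 hle)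
    have hj0 : l j / ε ≠ 0 := by
      intro h
      apply hjV
      rw [h]; exact zero_mem _
    have hjinv : V.valuation (l j / ε)⁻¹ < 1 := by
      rw [map_inv₀]; exact inv_lt_one_of_one_lt₀ hj1
    have hall : ∀ i, (l i / ε) * (l j / ε)⁻¹ ∈ V := by
      intro i
      rw [← V.valuation_le_one_iff, map_mul, map_inv₀]
      have h1 := hj i (Finset.mem_univ _)
      exact mul_inv_le_one_of_le₀ h1 zero_le
    choose r hr using fun i => hres _ (mul_mem (hm i) (inv_mem (hm j))) (hall i)
    have hrj : r j ≠ 0 := by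
      intro h0
      have h1 := hr j
      rw [h0, map_zero, sub_zero, mul_inv_cancel₀ hj0, map_one] at h1
      exact lt_irrefl _ h1
    let G : MvPolynomial (Fin 4) k := ∑ i : Fin 3, C (r i) * X (Fin.castSucc i)
    have hG : f ∣ G := by
      rw [← hV']
      have h1 : x 0 * aeval x G = (l j / ε)⁻¹ * (ε⁻¹ * (x 0 * x 3)) -
          (l j / ε)⁻¹ * (algebraMap k Ω a0 * x 1 ^ 2 + algebraMap k Ω a1 * x 1 * x 2
            + algebraMap k Ω a2 * x 2 ^ 2) -
          x 0 * ∑ i, ((l i / ε) * (l j / ε)⁻¹ - algebraMap k Ω (r i)) * x (Fin.castSucc i) := by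
        rw [hq']
        simp only [G, map_mul, map_sum, aeval_C, aeval_X]
        simp only [sub_mul, Finset.sum_sub_distrib]
        have h2 : ∑ i, (l i / ε) * (l j / ε)⁻¹ * x (Fin.castSucc i) =
            (l j / ε)⁻¹ * ∑ i, (l i / ε) * x (Fin.castSucc i) := by
          rw [Finset.mul_sum]
          exact Finset.sum_congr rfl fun i _ => by ring
        rw [h2]
        ring
      have h3 : V.valuation (x 0 * aeval x G) < 1 := by
        rw [h1]
        refine Valuation.map_sub_lt _ (Valuation.map_sub_lt _ ?_ ?_) ?_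
        · rw [map_mul]
          exact mul_lt_one_of_lt_of_le hjinv hlhs.le
        · rw [map_mul]
          refine mul_lt_one_of_lt_of_le hjinv ((V.valuation_le_one_iff _).2 ?_)
          exact add_mem (add_mem (mul_mem (hkV _) (pow_mem (hXV _) 2))
            (mul_mem (mul_mem (hkV _) (hXV _)) (hXV _))) (mul_mem (hkV _) (pow_mem (hXV _) 2))
        · rw [map_mul, hx0, one_mul]
          refine Valuation.map_sum_lt _ one_ne_zero fun i _ => ?_
          rw [map_mul]
          exact mul_lt_one_of_lt_of_le (hr i) (hX1 _)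
      rwa [map_mul, hx0, one_mul] at h3
    refine e8g_deg ?_ (e8g_lin_deg r) hG
    intro h0
    apply hrj
    have h2 := congrArg (MvPolynomial.eval (Pi.single (Fin.castSucc j) 1)) h0
    simp only [map_sum, map_mul, eval_C, eval_X, map_zero] at h2
    rw [Finset.sum_eq_single j] at h2
    · simpa using h2
    · intro i _ hij
      rw [Pi.single_eq_of_ne (fun hh => hij (Fin.castSucc_injective 3 hh)), mul_zero]
    · simp

/-- `H 0` does not involve `X 3` -/
private theorem e8g_H0 {H0 : MvPolynomial (Fin 4) k} (h0 : H0 ≠ 0)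
    (h : ∀ f : MvPolynomial (Fin 4) k, Irreducible f → f ∣ H0 → ¬ f ∣ X 0 → degreeOf 3 f = 0) :
    degreeOf 3 H0 = 0 := by
  obtain ⟨s, hs, hsa⟩ := WfDvdMonoid.exists_factors H0 h0
  have hall : ∀ f ∈ s, degreeOf 3 f = 0 := by
    intro f hf
    by_cases hfX : f ∣ X 0
    · exact e8g_deg (X_ne_zero 0) (e8g_X_deg (by decide)) hfX
    · exact h f (hs f hf) ((Multiset.dvd_prod hf).trans hsa.dvd) hfX
  have hprod : degreeOf 3 s.prod = 0 := by
    clear hsa hs
    induction s using Multiset.induction_on with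
    | empty => simp
    | cons a t ih =>
      rw [Multiset.prod_cons]
      exact e8g_mul_deg (hall a (Multiset.mem_cons_self a t))
        (ih fun f hf => hall f (Multiset.mem_cons_of_mem hf))
  have hs0 : s.prod ≠ 0 := by
    intro hz
    rw [hz] at hsa
    exact h0 (hsa.symm.eq_zero_iff.2 rfl)
  exact e8g_deg hs0 hprod hsa.symm.dvd

theorem end_false (c : Ctx3 k Ω) {τ : Ω} {η : Fin 3 → Ω} {V0 V1 Om d1 d0 : Ω}
    (h : c.EndData τ η V0 V1 Om d1 d0) {ε l0 l1 l2 : Ω} {a0 a1 a2 : k}
    (hε : ε ∈ acl k ({τ} : Set Ω)) (h0 : l0 ∈ acl k ({τ} : Set Ω))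
    (h1 : l1 ∈ acl k ({τ} : Set Ω)) (h2 : l2 ∈ acl k ({τ} : Set Ω)) (ha : ¬ (a0 = 0 ∧ a1 = 0 ∧ a2 = 0))
    (he : ε ^ c.d * η 0 = 1)
    (hx : c.x 0 * c.x 3 = ε * (algebraMap k Ω a0 * c.x 1 ^ 2 + algebraMap k Ω a1 * c.x 1 * c.x 2
        + algebraMap k Ω a2 * c.x 2 ^ 2) + c.x 0 * (l0 * c.x 0 + l1 * c.x 1 + l2 * c.x 2))
    (hη : ∃ D : Derivation k Ω Ω, D (η 0) ≠ 0) : False := by
  have hd : c.d ≠ 0 := by have := c.hd; omega
  have hinj : ∀ F : MvPolynomial (Fin 4) k, aeval c.x F = 0 → F = 0 :=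
    (injective_iff_map_eq_zero _).1 c.tb.1
  have hx0 : c.x 0 ≠ 0 := by
    intro hz
    exact X_ne_zero (R := k) (0 : Fin 4) (hinj (X 0) (by simpa using hz))
  have hη0 : η 0 ≠ 0 := by
    intro hz
    rw [hz, mul_zero] at he
    exact zero_ne_one he
  have hy0 : aeval c.x (c.H 0) = c.x 0 ^ c.d * η 0 := by
    rw [← c.hy 0]; exact h.hy 0
  have hH0 : c.H 0 ≠ 0 := by
    intro hz
    rw [hz, map_zero] at hy0
    exact mul_ne_zero (pow_ne_zero _ hx0) hη0 hy0.symm
  -- `H 0` has no `X 3`
  have hdeg : degreeOf 3 (c.H 0) = 0 := by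
    refine e8g_H0 hH0 fun f hf hfH hfX => ?_
    refine e8g_factor c.tb hd hε he hy0 (l := ![l0, l1, l2]) ?_ ha ?_ hf hfH hfX
    · intro i
      fin_cases i
      · exact h0
      · exact h1
      · exact h2
    · rw [hx, Fin.sum_univ_three]
      rfl
  -- the derivation dual to `x 3`
  obtain ⟨D3, hD3⟩ := exists_der c.tb (fun j => if j = 3 then 1 else 0)
  have hD3F : ∀ F : MvPolynomial (Fin 4) k, D3 (aeval c.x F) = aeval c.x (pderiv 3 F) := by
    intro F
    rw [der_aeval, Finset.sum_eq_single 3]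
    · rw [hD3, if_pos rfl, mul_one]
    · intro j _ hj
      rw [hD3, if_neg hj, mul_zero]
    · simp
  have hD30 : D3 (c.x 0) = 0 := by rw [hD3, if_neg (by decide)]
  have hη3 : D3 (η 0) = 0 := by
    have e1 := hD3F (c.H 0)
    rw [e8g_deg_pderiv hdeg, map_zero, hy0, Derivation.leibniz, Derivation.leibniz_pow, hD30] at e1
    simp only [smul_eq_mul, mul_zero, smul_zero, add_zero] at e1
    exact (mul_eq_zero.1 e1).resolve_left (pow_ne_zero _ hx0)
  have hτ3 : D3 τ = 0 := by
    obtain ⟨D, hD⟩ := hη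
    have e1 := der_acl_zero (S := ({τ} : Set Ω)) (D3 τ • D - D τ • D3) (by
      rintro _ rfl
      simp [mul_comm]) (η 0) (h.ηm 0)
    simp only [Derivation.sub_apply, Derivation.smul_apply, smul_eq_mul, hη3, mul_zero, sub_zero] at e1
    exact (mul_eq_zero.1 e1).resolve_right hD
  refine e8g_dep c.nil (fun i => ?_) c.ind
  apply hinj
  rw [← hD3F, ← c.hy, h.hy i, Derivation.leibniz, Derivation.leibniz_pow, hD30,
    der_acl_zero (S := ({τ} : Set Ω)) D3 (by rintro _ rfl; exact hτ3) (η i) (h.ηm i)]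
  simp

end Pool.Agent.HDP
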