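import Mathlib
import Pool.Agent.Lib.MP_20906e_al.Defs

/-!
# MP_20906e_al, piece Q11: the five-dimensional example

With `a = x₁x₄ - x₂x₃`, `al = a x₁ - e² x₂`, `be = a x₃ - e² x₄` (`e = x₅`) the map is
`H = (e³ al, e a al, e³ be, e a be, a³)`.  Its Jacobian matrix is `P * R` where the rows of `R` are
the gradients of `al, be, a, e`; further `R * P = U * W` and `W * U` is an explicit nilpotent
`3 × 3` matrix, whence `J ^ 5 = 0`.
-/

namespace Pool.Agent.HDP
open MvPolynomial

section matrices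
variable {S : Type*} [CommRing S] (x y z w e : S)

/-- `a = x w - y z` -/
abbrev exa : S := x * w - y * z
/-- `al` -/
abbrev exal : S := exa x y z w * x - e ^ 2 * y
/-- `be` -/
abbrev exbe : S := exa x y z w * z - e ^ 2 * w

/-- left factor of the Jacobian matrix -/
def exP : Matrix (Fin 5) (Fin 4) S :=
  !![e ^ 3, 0, 0, 3 * e ^ 2 * exal x y z w e;
     e * exa x y z w, 0, e * exal x y z w e, exa x y z w * exal x y z w e;
     0, e ^ 3, 0, 3 * e ^ 2 * exbe x y z w e;
     0, e * exa x y z w, e * exbe x y z w e, exa x y z w * exbe x y z w e;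
     0, 0, 3 * exa x y z w ^ 2, 0]

/-- right factor of the Jacobian matrix: the gradients of `al, be, a, e` -/
def exR : Matrix (Fin 4) (Fin 5) S :=
  !![exa x y z w + x * w, -(x * z) - e ^ 2, -(x * y), x ^ 2, -(2 * e * y);
     z * w, -z ^ 2, exa x y z w - y * z, z * x - e ^ 2, -(2 * e * w);
     w, -z, -y, x, 0;
     0, 0, 0, 0, 1]

/-- left factor of `R * P` -/
def exU : Matrix (Fin 4) (Fin 3) S :=
  !![x, -(e ^ 3 * (exa x y z w * x + exal x y z w e)) - 6 * e * exa x y z w ^ 2 * y,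
      3 * e ^ 2 * (exal x y z w e * (exa x y z w + x * w) - exbe x y z w e * (x * y))
        + exa x y z w * (exbe x y z w e * x ^ 2 - exal x y z w e * (x * z + e ^ 2));
     z, e * (exbe x y z w e * (z * x - e ^ 2) - exal x y z w e * z ^ 2)
        - 6 * e * exa x y z w ^ 2 * w,
      3 * e ^ 2 * (exal x y z w e * (z * w) + exbe x y z w e * (exa x y z w - y * z))
        + exa x y z w * (exbe x y z w e * (z * x - e ^ 2) - exal x y z w e * z ^ 2);
     1, -(e ^ 3 * exa x y z w), 2 * e ^ 2 * exa x y z w ^ 2;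
     0, 3 * exa x y z w ^ 2, 0]

/-- right factor of `R * P` -/
def exW : Matrix (Fin 3) (Fin 4) S :=
  !![-(e * exbe x y z w e), e * exal x y z w e, 0, 0;
     0, 0, 1, 0;
     0, 0, 0, 1]

/-- `W * U` -/
def exM : Matrix (Fin 3) (Fin 3) S :=
  !![e ^ 3 * exa x y z w, -(e ^ 6 * exa x y z w ^ 2) - 6 * e ^ 2 * exa x y z w ^ 4,
      2 * e ^ 5 * exa x y z w ^ 3;
     1, -(e ^ 3 * exa x y z w), 2 * e ^ 2 * exa x y z w ^ 2;
     0, 3 * exa x y z w ^ 2, 0]

theorem exRP : exR x y z w e * exP x y z w e = exU x y z w e * exW x y z w e := by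
  ext i j
  fin_cases i <;> fin_cases j <;>
    simp [exR, exP, exU, exW, exa, exal, exbe, Matrix.mul_apply, Fin.sum_univ_succ] <;> ring

theorem exWU : exW x y z w e * exU x y z w e = exM x y z w e := by
  ext i j
  fin_cases i <;> fin_cases j <;>
    simp [exW, exU, exM, exa, exal, exbe, Matrix.mul_apply, Fin.sum_univ_succ] <;> ring

theorem exM3 : exM x y z w e * exM x y z w e * exM x y z w e = 0 := by
  ext i j
  fin_cases i <;> fin_cases j <;>
    simp [exM, Matrix.mul_apply, Fin.sum_univ_succ] <;> ring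

theorem exPR_nilp : IsNilpotent (exP x y z w e * exR x y z w e) := by
  refine ⟨5, ?_⟩
  set P := exP x y z w e
  set R := exR x y z w e
  set U := exU x y z w e
  set W := exW x y z w e
  set M := exM x y z w e
  have h1 : R * P = U * W := exRP x y z w e
  have h2 : W * U = M := exWU x y z w e
  have h3 : M * M * M = 0 := exM3 x y z w e
  calc (P * R) ^ 5 = P * ((R * P) * (R * P) * (R * P) * (R * P)) * R := by
        simp only [pow_succ, pow_zero, Matrix.one_mul, Matrix.mul_assoc]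
    _ = P * (U * ((W * U) * (W * U) * (W * U)) * W) * R := by
        rw [h1]; simp only [Matrix.mul_assoc]
    _ = 0 := by rw [h2, h3]; simp

end matrices

/-- The five-dimensional example. -/
noncomputable def exH (κ : Type*) [Field κ] : Fin 5 → MvPolynomial (Fin 5) κ :=
  ![X 4 ^ 3 * exal (X 0) (X 1) (X 2) (X 3) (X 4),
    X 4 * exa (X 0) (X 1) (X 2) (X 3) * exal (X 0) (X 1) (X 2) (X 3) (X 4),
    X 4 ^ 3 * exbe (X 0) (X 1) (X 2) (X 3) (X 4),
    X 4 * exa (X 0) (X 1) (X 2) (X 3) * exbe (X 0) (X 1) (X 2) (X 3) (X 4),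
    exa (X 0) (X 1) (X 2) (X 3) ^ 3]

theorem exH_jac (κ : Type*) [Field κ] :
    jac (exH κ) = exP (S := MvPolynomial (Fin 5) κ) (X 0) (X 1) (X 2) (X 3) (X 4) *
      exR (S := MvPolynomial (Fin 5) κ) (X 0) (X 1) (X 2) (X 3) (X 4) := by
  ext1 i j
  fin_cases i <;> fin_cases j <;>
    simp [jac, exH, exP, exR, exa, exal, exbe, Matrix.mul_apply, Fin.sum_univ_succ, pderiv_X] <;>
      ring

theorem exH_hom (κ : Type*) [Field κ] (i : Fin 5) : (exH κ i).IsHomogeneous 6 := by
  have hX : ∀ j : Fin 5, (X j : MvPolynomial (Fin 5) κ).IsHomogeneous 1 := isHomogeneous_X κ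
  have ha : (exa (X 0) (X 1) (X 2) (X 3) : MvPolynomial (Fin 5) κ).IsHomogeneous 2 :=
    ((hX 0).mul (hX 3)).sub ((hX 1).mul (hX 2))
  have hal : (exal (X 0) (X 1) (X 2) (X 3) (X 4) : MvPolynomial (Fin 5) κ).IsHomogeneous 3 :=
    (ha.mul (hX 0)).sub (((hX 4).pow 2).mul (hX 1))
  have hbe : (exbe (X 0) (X 1) (X 2) (X 3) (X 4) : MvPolynomial (Fin 5) κ).IsHomogeneous 3 :=
    (ha.mul (hX 2)).sub (((hX 4).pow 2).mul (hX 3))
  fin_cases i
  · exact ((hX 4).pow 3).mul hal
  · exact ((hX 4).mul ha).mul hal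
  · exact ((hX 4).pow 3).mul hbe
  · exact ((hX 4).mul ha).mul hbe
  · exact ha.pow 3

theorem exH_indep (κ : Type*) [Field κ] : LinearIndependent κ (exH κ) := by
  rw [Fintype.linearIndependent_iff]
  intro g hg
  have key : ∀ v : Fin 5 → κ, ∑ i, g i * eval v (exH κ i) = 0 := by
    intro v
    have := congrArg (eval v) hg
    simpa [smul_eval] using this
  have e1 := key ![1, 0, 0, 1, 0]
  have e2 := key ![0, 1, 0, 0, 1]
  have e3 := key ![0, 0, 0, 1, 1]
  have e4 := key ![1, 0, 0, 1, 1]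
  have e5 := key ![1, 0, 1, 1, 1]
  simp [exH, exa, exal, exbe, Fin.sum_univ_succ] at e1 e2 e3 e4 e5
  intro i
  fin_cases i
  · exact e2
  · show g 1 = 0
    linear_combination e5 - e2 - e1
  · exact e3
  · show g 3 = 0
    linear_combination e5 - e3 - e4
  · exact e1

/-! ## Q11: the five-dimensional example -/
theorem example5 (κ : Type*) [Field κ] [CharZero κ] :
    ∃ H : Fin 5 → MvPolynomial (Fin 5) κ, Nil κ 5 6 H ∧ LinearIndependent κ H := by
  refine ⟨exH κ, ⟨exH_hom κ, ?_⟩, exH_indep κ⟩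
  rw [exH_jac]
  exact exPR_nilp _ _ _ _ _

end Pool.Agent.HDP
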