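import Pool.Agent.Lib.MP_20906e_al.Main3a
import Pool.Agent.Lib.MP_20906e_al.E1a
import Pool.Agent.Lib.MP_20906e_al.E2
import Pool.Agent.Lib.MP_20906e_al.E4
import Pool.Agent.Lib.MP_20906e_al.E5
import Pool.Agent.Lib.MP_20906e_al.E7b4
import Pool.Agent.Lib.MP_20906e_al.E8c
import Pool.Agent.Lib.MP_20906e_al.E8d
import Pool.Agent.Lib.MP_20906e_al.E8e
import Pool.Agent.Lib.MP_20906e_al.E8f
import Pool.Agent.Lib.MP_20906e_al.E8g

/-!
# MP_20906e_al : final assembly, there is no rank three context (helper79)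
-/

namespace Pool.Agent.HDP
open MvPolynomial

variable {k Ω : Type*} [Field k] [IsAlgClosed k] [CharZero k] [Field Ω] [IsAlgClosed Ω] [Algebra k Ω]

/-- case B is impossible -/
theorem FCtx.caseB_false (c : FCtx k Ω) (h : c.CaseB) : False := by
  obtain ⟨N, C, s0, hN0, hNL, hC0, hC, hs0, hNC, hg⟩ := c.caseB_shape h
  obtain ⟨yh, hyh, hc2, hN1, c0, c1, hc0, hc1, hx3⟩ := c.caseB_data h hN0 hNL hC0 hC hs0 hNC hg
  have hd : c.CaseBData N C s0 yh c0 c1 :=
    ⟨h, hN0, hNL, hC0, hC, hs0, hNC, hg, hyh, hc2, hN1, hc0, hc1, hx3⟩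
  obtain ⟨n, hn, nt, hnt, hN⟩ := c.caseB_n hd
  obtain ⟨c', τ, η, V0, V1, Om, d1, d0, he⟩ := caseB_normal c hd hn hnt hN
  obtain ⟨ε, l0, l1, l2, a0, a1, a2, hε, h0, h1, h2, ha, hε', hx, hη⟩ := end_quad c' he
  exact end_false c' he hε h0 h1 h2 ha hε' hx hη

/-- The Gauss image of a rank three context is not a curve. -/
theorem Ctx3.dev_false (c : Ctx3 k Ω) (h : c.Dev) : False := by
  obtain ⟨c1, rfl⟩ := exists_dctx c h
  by_cases hv : ∃ v : Fin 4 → k, v ≠ 0 ∧ ∑ i, c1.U i * algebraMap k Ω (v i) = 0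
  · obtain ⟨c2, hU3⟩ := c1.cone_normal hv
    obtain ⟨c3, rfl, hB, hq, hp⟩ := c2.exists_fctx_cone hU3
    rcases c3.cone_cases ⟨hU3, hB, hq, hp⟩ with ⟨s, hs⟩ | hs
    · exact c3.caseA_false hs
    · exact c3.caseB_false hs
  · have hv' : ∀ v : Fin 4 → k, ∑ i, c1.U i * algebraMap k Ω (v i) = 0 → v = 0 := by
      intro v h0
      by_contra hne
      exact hv ⟨v, hne, h0⟩
    obtain ⟨c2, rfl, hp⟩ := c1.exists_fctx_noncone hv'
    exact c2.noncone_false hp hv'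

/-! ## Final assembly -/
theorem ctx3_false (c : Ctx3 k Ω) : False := by
  by_cases h : c.Dev
  · exact c.dev_false h
  · exact c.nondev_false h

end Pool.Agent.HDP
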