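import Mathlib
import Pool.Agent.Lib.MP_20906e_al.Defs
import Pool.Agent.Lib.MP_20906e_al.B1
import Pool.Agent.Lib.MP_20906e_al.R4
import Pool.Agent.Lib.MP_20906e_al.Descent
import Pool.Agent.Lib.MP_20906e_al.Main3

/-!
# MP_20906e_al : dimension four, assembly (helper59)
-/

namespace Pool.Agent.HDP
open MvPolynomial
universe u

theorem dep4 {k : Type u} [Field k] [IsAlgClosed k] [CharZero k] {d : ℕ} (hd : d ≠ 0)
    {H : Fin 4 → MvPolynomial (Fin 4) k} (h : Nil k 4 d H) : ¬ LinearIndependent k H := by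
  intro hi
  rcases Nat.lt_or_ge 1 d with h1 | h1
  · have hr := rank4 hd h hi
    obtain ⟨Ω, i1, i2, i3, ⟨c⟩⟩ := exists_ctx3 (show 2 ≤ d by omega) h hi hr
    exact ctx3_false c
  · have : d = 1 := by omega
    subst this
    exact nil_one (by norm_num) h hi

theorem dep4_field {κ : Type u} [Field κ] [CharZero κ] {d : ℕ} (hd : d ≠ 0)
    {H : Fin 4 → MvPolynomial (Fin 4) κ} (h : Nil κ 4 d H) : ¬ LinearIndependent κ H := by
  intro hi
  haveI : CharZero (AlgebraicClosure κ) := charZero_of_injective_algebraMap (algebraMap κ (AlgebraicClosure κ)).injective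
  obtain ⟨h1, h2⟩ := descent h hi
  exact dep4 hd h1 h2

end Pool.Agent.HDP
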