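import Mathlib
import Pool.Agent.Lib.MP_20906e_al.Defs
import Pool.Agent.Lib.MP_20906e_al.B2b

/-!
# MP_20906e_al, piece N10 : algebraic end of the quadric case with `G = 0` (helper79)
-/

namespace Pool.Agent.HDP
open MvPolynomial

section Pol
variable {k : Type*} [Field k] [IsAlgClosed k] [CharZero k]

theorem n10_irr_delta (k : Type*) [Field k] :
    Irreducible (X 0 * X 3 - X 1 * X 2 : MvPolynomial (Fin 4) k) := by
  have h : (X 0 * X 3 - X 1 * X 2 : MvPolynomial (Fin 4) k) = X 0 * X 3 + -(X 1 * X 2) := by ring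
  rw [h]
  refine irreducible_mul_X_add (X 0) (-(X 1 * X 2)) 3 (X_ne_zero _) ?_ ?_ ?_
  · rw [vars_X]; decide
  · rw [vars_neg]
    intro hm
    have := vars_mul (X 1 : MvPolynomial (Fin 4) k) (X 2) hm
    rw [vars_X, vars_X] at this
    revert this
    decide
  · have hirr : Irreducible (X 0 : MvPolynomial (Fin 4) k) := (X_prime).irreducible
    refine (hirr.isRelPrime_iff_not_dvd).2 ?_
    intro hd
    rw [dvd_neg] at hd
    rcases (X_prime (R := k) (i := (0 : Fin 4))).dvd_or_dvd hd with h1 | h1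
    · exact absurd ((X_dvd_X).1 h1) (by decide)
    · exact absurd ((X_dvd_X).1 h1) (by decide)

theorem n10_hom_delta (k : Type*) [Field k] :
    (X 0 * X 3 - X 1 * X 2 : MvPolynomial (Fin 4) k).IsHomogeneous 2 :=
  ((isHomogeneous_X k 0).mul (isHomogeneous_X k 3)).sub
    ((isHomogeneous_X k 1).mul (isHomogeneous_X k 2))

theorem n10_unit_eq_C {K : MvPolynomial (Fin 4) k} (h : IsUnit K) : ∃ c : k, c ≠ 0 ∧ K = C c := by
  obtain ⟨c, hc, h⟩ := MvPolynomial.isUnit_iff_eq_C_of_isReduced.1 h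
  exact ⟨c, hc.ne_zero, h⟩

theorem n10_hom_of_assoc {A : MvPolynomial (Fin 4) k} {a i : ℕ} (hA : A.IsHomogeneous a)
    (h : Associated A ((X 0 * X 3 - X 1 * X 2 : MvPolynomial (Fin 4) k) ^ i)) : a = 2 * i := by
  obtain ⟨u, hu⟩ := h
  obtain ⟨c, hc, hK⟩ := n10_unit_eq_C u.isUnit
  rw [hK] at hu
  have h1 : (A * C c).IsHomogeneous (a + 0) := hA.mul (isHomogeneous_C _ _)
  have h2 : (A * C c).IsHomogeneous (2 * i) := hu ▸ (n10_hom_delta k).pow i
  have hne : A * C c ≠ 0 := by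
    rw [hu]; exact pow_ne_zero _ (n10_irr_delta k).ne_zero
  have := h1.inj_right h2 hne
  omega

/-! ## N10: algebraic end of the quadric case with `G = 0` -/
theorem quadric0_end {d : ℕ} {H : Fin 4 → MvPolynomial (Fin 4) k} (hH : ∀ i, (H i).IsHomogeneous d)
    (hind : LinearIndependent k H) (hq : H 0 * H 3 = H 1 * H 2)
    (hG : X 3 * H 0 - X 2 * H 1 - X 1 * H 2 + X 0 * H 3 = 0) (n : Fin 4 → k)
    (hn : (X 0 * X 3 - X 1 * X 2 : MvPolynomial (Fin 4) k) ^ d = (∑ i, C (n i) * H i) ^ 2) : False := by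
  have hne : ∀ i, H i ≠ 0 := fun i => hind.ne_zero i
  obtain ⟨a0, a1, g1, hrel, h0, h1⟩ :=
    UniqueFactorizationMonoid.exists_reduced_factors (H 0) (hne 0) (H 1)
  have hg1 : g1 ≠ 0 := by rintro rfl; exact hne 0 (by rw [← h0, zero_mul])
  have ha0 : a0 ≠ 0 := by rintro rfl; exact hne 0 (by rw [← h0, mul_zero])
  have ha1 : a1 ≠ 0 := by rintro rfl; exact hne 1 (by rw [← h1, mul_zero])
  have e1 : a0 * H 3 = a1 * H 2 := by
    apply mul_left_cancel₀ hg1
    rw [← mul_assoc, ← mul_assoc, h0, h1, hq]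
  obtain ⟨g2, h2⟩ : a0 ∣ H 2 := hrel.dvd_of_dvd_mul_left ⟨H 3, e1.symm⟩
  have h3 : H 3 = a1 * g2 := by
    apply mul_left_cancel₀ ha0
    rw [e1, h2]; ring
  have hg2 : g2 ≠ 0 := by rintro rfl; exact hne 2 (by rw [h2, mul_zero])
  obtain ⟨s0, s1, g, hrels, hs0, hs1⟩ :=
    UniqueFactorizationMonoid.exists_reduced_factors g1 hg1 g2
  have hg : g ≠ 0 := by rintro rfl; exact hg1 (by rw [← hs0, zero_mul])
  have hs0' : s0 ≠ 0 := by rintro rfl; exact hg1 (by rw [← hs0, mul_zero])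
  have hs1' : s1 ≠ 0 := by rintro rfl; exact hg2 (by rw [← hs1, mul_zero])
  have f0 : H 0 = g * (s0 * a0) := by rw [← h0, ← hs0]; ring
  have f1 : H 1 = g * (s0 * a1) := by rw [← h1, ← hs0]; ring
  have f2 : H 2 = g * (s1 * a0) := by rw [h2, ← hs1]; ring
  have f3 : H 3 = g * (s1 * a1) := by rw [h3, ← hs1]; ring
  have hrelation : s0 * (a0 * X 3 - a1 * X 2) = s1 * (a0 * X 1 - a1 * X 0) := by
    apply mul_left_cancel₀ hg
    rw [f0, f1, f2, f3] at hG
    linear_combination hG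
  obtain ⟨K, hK⟩ : s0 ∣ (a0 * X 1 - a1 * X 0) :=
    hrels.dvd_of_dvd_mul_left ⟨_, hrelation.symm⟩
  have hK' : a0 * X 3 - a1 * X 2 = s1 * K := by
    apply mul_left_cancel₀ hs0'
    rw [hrelation, hK]; ring
  have hrelation2 : a0 * (s0 * X 3 - s1 * X 1) = a1 * (s0 * X 2 - s1 * X 0) := by
    linear_combination hrelation
  obtain ⟨K1, hK1⟩ : a0 ∣ (s0 * X 2 - s1 * X 0) :=
    hrel.dvd_of_dvd_mul_left ⟨_, hrelation2.symm⟩
  have hKK : X 0 * X 3 - X 1 * X 2 = (-K) * K1 := by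
    apply mul_left_cancel₀ ha0
    have : a0 * (-K * K1) = -K * (s0 * X 2 - s1 * X 0) := by rw [hK1]; ring
    rw [this]
    linear_combination X 0 * hK' - X 2 * hK
  -- degrees
  have hf0 : (g * (s0 * a0)).IsHomogeneous d := f0 ▸ hH 0
  have hf1 : (g * (s0 * a1)).IsHomogeneous d := f1 ▸ hH 1
  have hf2 : (g * (s1 * a0)).IsHomogeneous d := f2 ▸ hH 2
  obtain ⟨γ, p, hγp, hgh, hp⟩ := hom_of_mul hf0 (mul_ne_zero hg (mul_ne_zero hs0' ha0))
  obtain ⟨σ, α, hσα, hs0h, ha0h⟩ := hom_of_mul hp (mul_ne_zero hs0' ha0)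
  obtain ⟨γ', p', hγp', hgh', hp'⟩ := hom_of_mul hf1 (mul_ne_zero hg (mul_ne_zero hs0' ha1))
  obtain ⟨σ', α', hσα', hs0h', ha1h⟩ := hom_of_mul hp' (mul_ne_zero hs0' ha1)
  obtain ⟨γ'', p'', hγp'', hgh'', hp''⟩ := hom_of_mul hf2 (mul_ne_zero hg (mul_ne_zero hs1' ha0))
  obtain ⟨σ'', α'', hσα'', hs1h, ha0h'⟩ := hom_of_mul hp'' (mul_ne_zero hs1' ha0)
  have eγ' : γ' = γ := hgh'.inj_right hgh hg
  have eγ'' : γ'' = γ := hgh''.inj_right hgh hg
  have eσ' : σ' = σ := hs0h'.inj_right hs0h hs0'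
  have eα'' : α'' = α := ha0h'.inj_right ha0h ha0
  have eα' : α' = α := by omega
  have eσ'' : σ'' = σ := by omega
  subst eγ' eγ'' eσ' eα'' eα' eσ''
  have hdiff : σ'' = α' + 1 ∨ α' = σ'' + 1 := by
    rcases (n10_irr_delta k).isUnit_or_isUnit hKK with h | h
    · left
      obtain ⟨c, hc, hc'⟩ := n10_unit_eq_C (by simpa using h : IsUnit K)
      rw [hc'] at hK
      have q1 : (a0 * X 1 - a1 * X 0).IsHomogeneous (α' + 1) :=
        (ha0h.mul (isHomogeneous_X _ _)).sub (ha1h.mul (isHomogeneous_X _ _))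
      have q2 : (s0 * C c).IsHomogeneous (σ'' + 0) := hs0h.mul (isHomogeneous_C _ _)
      rw [hK] at q1
      have := q2.inj_right q1 (mul_ne_zero hs0' (by simpa using hc))
      omega
    · right
      obtain ⟨c, hc, hc'⟩ := n10_unit_eq_C h
      rw [hc'] at hK1
      have q1 : (s0 * X 2 - s1 * X 0).IsHomogeneous (σ'' + 1) :=
        (hs0h.mul (isHomogeneous_X _ _)).sub (hs1h.mul (isHomogeneous_X _ _))
      have q2 : (a0 * C c).IsHomogeneous (α' + 0) := ha0h.mul (isHomogeneous_C _ _)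
      rw [hK1] at q1
      have := q2.inj_right q1 (mul_ne_zero ha0 (by simpa using hc))
      omega
  have hpr : Prime (X 0 * X 3 - X 1 * X 2 : MvPolynomial (Fin 4) k) := (n10_irr_delta k).prime
  have hsum : ∑ i, C (n i) * H i = g * (∑ i, C (n i) * ![s0 * a0, s0 * a1, s1 * a0, s1 * a1] i) := by
    rw [Fin.sum_univ_four, Fin.sum_univ_four, f0, f1, f2, f3]
    simp
    ring
  have hgd : g ∣ (X 0 * X 3 - X 1 * X 2 : MvPolynomial (Fin 4) k) ^ d := by
    rw [hn, hsum, sq]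
    exact Dvd.intro _ (by rw [mul_assoc])
  obtain ⟨i, -, hi⟩ := (dvd_prime_pow hpr _).1 hgd
  have hγ : γ'' = 2 * i := n10_hom_of_assoc hgh hi
  have hAd : (∑ i, C (n i) * H i) ∣ (X 0 * X 3 - X 1 * X 2 : MvPolynomial (Fin 4) k) ^ d := by
    rw [hn, sq]
    exact Dvd.intro _ rfl
  obtain ⟨j, -, hj⟩ := (dvd_prime_pow hpr _).1 hAd
  have hAh : (∑ i, C (n i) * H i).IsHomogeneous d := by
    refine IsHomogeneous.sum _ _ _ fun i _ => ?_
    have := (isHomogeneous_C (Fin 4) (n i)).mul (hH i)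
    rwa [zero_add] at this
  have hd : d = 2 * j := n10_hom_of_assoc hAh hj
  omega

end Pol
end Pool.Agent.HDP
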