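import Mathlib
import Pool.Agent.Lib.MP_20906e_al.Defs
import Pool.Agent.Lib.MP_20906e_al.Acl
import Pool.Agent.Lib.MP_20906e_al.Der

/-!
# MP_20906e_al, pieces N7 and N8: the polynomial lemma and the square lemma
-/

namespace Pool.Agent.HDP
open MvPolynomial

section Pol
variable {k Ω : Type*} [Field k] [IsAlgClosed k] [CharZero k] [Field Ω] [IsAlgClosed Ω] [Algebra k Ω]

omit [IsAlgClosed k] [IsAlgClosed Ω] in
/-- Taylor expansion along a derivation `D` with `D s = 1`, inside a `D`-stable subspace `A`. -/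
private theorem taylor (D : Derivation k Ω Ω) (s : Ω) (hs : D s = 1) (A : Submodule k Ω)
    (hA1 : ∀ f ∈ A, D f ∈ A) (hA2 : ∀ f ∈ A, f * s ∈ A) (N : ℕ) :
    ∀ f ∈ A, (fun z => D z)^[N] f = 0 →
      ∃ c : Fin N → Ω, (∀ m, c m ∈ A ∧ D (c m) = 0) ∧ f = ∑ m, c m * s ^ (m : ℕ) := by
  have hA3 : ∀ (m : ℕ), ∀ f ∈ A, f * s ^ m ∈ A := by
    intro m
    induction m with
    | zero => intro f hf; simpa using hf
    | succ m ih =>
      intro f hf
      rw [pow_succ, ← mul_assoc]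
      exact hA2 _ (ih f hf)
  have _ : CharZero Ω := charZero_of_injective_algebraMap (algebraMap k Ω).injective
  induction N with
  | zero =>
    intro f hf h
    refine ⟨fun m => m.elim0, fun m => m.elim0, ?_⟩
    simpa using h
  | succ N ih =>
    intro f hf h
    rw [Function.iterate_succ_apply] at h
    obtain ⟨c, hc, hf'⟩ := ih (D f) (hA1 f hf) h
    have hcc : ∀ m : Fin N, c m / ((m : ℕ) + 1 : Ω) ∈ A ∧ D (c m / ((m : ℕ) + 1 : Ω)) = 0 := by
      intro m
      have h1 : c m / ((m : ℕ) + 1 : Ω) = (((m : ℕ) + 1 : k)⁻¹) • c m := by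
        rw [Algebra.smul_def, map_inv₀]
        simp [div_eq_mul_inv, mul_comm]
      rw [h1]
      refine ⟨A.smul_mem _ (hc m).1, ?_⟩
      rw [D.map_smul, (hc m).2, smul_zero]
    set h0 : Ω := ∑ m : Fin N, c m / ((m : ℕ) + 1 : Ω) * s ^ ((m : ℕ) + 1) with hh0
    have h0A : h0 ∈ A := A.sum_mem fun m _ => hA3 _ _ (hcc m).1
    have hDh0 : D h0 = D f := by
      rw [hh0, map_sum, hf']
      refine Finset.sum_congr rfl fun m _ => ?_
      rw [Derivation.leibniz, (hcc m).2, smul_zero, add_zero, Derivation.leibniz_pow, hs]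
      have : ((m : ℕ) + 1 : Ω) ≠ 0 := by exact_mod_cast Nat.succ_ne_zero (m : ℕ)
      simp only [smul_eq_mul, nsmul_eq_mul, Nat.add_sub_cancel, mul_one, Nat.cast_add, Nat.cast_one]
      field_simp
    refine ⟨Fin.cons (f - h0) fun m => c m / ((m : ℕ) + 1 : Ω), ?_, ?_⟩
    · intro m
      refine Fin.cases ?_ (fun m => ?_) m
      · rw [Fin.cons_zero]
        exact ⟨A.sub_mem hf h0A, by rw [map_sub, hDh0, sub_self]⟩
      · rw [Fin.cons_succ]
        exact hcc m
    · rw [Fin.sum_univ_succ]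
      simp only [Fin.cons_zero, Fin.cons_succ, Fin.val_zero, pow_zero, mul_one, Fin.val_succ]
      rw [← hh0]
      ring

/-! ## N7: polynomial lemma -/
theorem poly_lemma {n : ℕ} {s : Fin n → Ω} (hs : IsTranscendenceBasis k s)
    {D : Fin n → Derivation k Ω Ω} (hD : ∀ i j, D i (s j) = if i = j then 1 else 0)
    {i j : Fin n} (hij : i ≠ j) {f : Ω} (hf : f ∈ acl k ({s i, s j} : Set Ω)) {N : ℕ}
    (h1 : (fun z => D i z)^[N] f = 0) (h2 : (fun z => D j z)^[N] f = 0) :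
    ∃ a : Fin N → Fin N → k, f = ∑ p, ∑ q, algebraMap k Ω (a p q) * s i ^ (p : ℕ) * s j ^ (q : ℕ) := by
  classical
  obtain ⟨D', hD', hE, hcomm, -, hmem⟩ := exists_dual hs
  have hDD : D = D' := by
    funext l
    apply Derivation.ext
    intro z
    rw [hE (D l) z]
    simp [hD]
  subst hDD
  have hl : ∀ l, l ≠ i → l ≠ j → D l f = 0 := by
    intro l hli hlj
    have h3 := (hmem {i, j} f).1 (by rwa [Set.image_pair])
    exact h3 l (by simp [hli, hlj])
  have hit : ∀ (l m : Fin n) (M : ℕ) (z : Ω), D m ((fun z => D l z)^[M] z) = (fun z => D l z)^[M] (D m z) := by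
    intro l m M
    induction M with
    | zero => intro z; rfl
    | succ M ih =>
      intro z
      rw [Function.iterate_succ_apply, ih, Function.iterate_succ_apply, hcomm]
  have hlin : ∀ (l : Fin n) (M : ℕ) (z : Ω), (fun z => D l z)^[M] z = ((D l : Ω →ₗ[k] Ω) ^ M) z := by
    intro l M z
    rw [Module.End.pow_apply]
    rfl
  have hmulit : ∀ (l : Fin n) (M : ℕ) (z w : Ω), D l w = 0 →
      (fun z => D l z)^[M] (z * w) = (fun z => D l z)^[M] z * w := by
    intro l M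
    induction M with
    | zero => intro z w _; rfl
    | succ M ih =>
      intro z w hw
      rw [Function.iterate_succ_apply, Function.iterate_succ_apply, ← ih _ _ hw]
      congr 1
      change D l (z * w) = D l z * w
      rw [Derivation.leibniz, hw, smul_zero, zero_add, smul_eq_mul, mul_comm]
  -- first expansion, along `D i`
  let A : Submodule k Ω := LinearMap.ker ((D j : Ω →ₗ[k] Ω) ^ N) ⊓
    ⨅ l ∈ {l : Fin n | l ≠ i ∧ l ≠ j}, LinearMap.ker (D l : Ω →ₗ[k] Ω)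
  have hAmem : ∀ z, z ∈ A ↔ (fun z => D j z)^[N] z = 0 ∧ ∀ l, l ≠ i → l ≠ j → D l z = 0 := by
    intro z
    simp only [A, Submodule.mem_inf, LinearMap.mem_ker, hlin, Submodule.mem_iInf, Set.mem_ofPred_eq, and_imp]
    rfl
  obtain ⟨c, hc, hfc⟩ := taylor (D i) (s i) (by rw [hD, if_pos rfl]) A (by
    intro z hz
    rw [hAmem] at hz ⊢
    refine ⟨?_, ?_⟩
    · rw [← hit, hz.1, map_zero]
    · intro l hli hlj
      rw [hcomm, hz.2 l hli hlj, map_zero]) (by
    intro z hz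
    rw [hAmem] at hz ⊢
    refine ⟨?_, ?_⟩
    · rw [hmulit _ _ _ _ (by rw [hD, if_neg (Ne.symm hij)]), hz.1, zero_mul]
    · intro l hli hlj
      rw [Derivation.leibniz, hz.2 l hli hlj, hD, if_neg hli]
      simp) N f (by rw [hAmem]; exact ⟨h2, hl⟩) h1
  -- second expansion, along `D j`
  let B : Submodule k Ω := ⨅ l ∈ {l : Fin n | l ≠ j}, LinearMap.ker (D l : Ω →ₗ[k] Ω)
  have hBmem : ∀ z, z ∈ B ↔ ∀ l, l ≠ j → D l z = 0 := by
    intro z
    simp only [B, LinearMap.mem_ker, Submodule.mem_iInf, Set.mem_ofPred_eq]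
    rfl
  have hex : ∀ p : Fin N, ∃ e : Fin N → k, c p = ∑ q, algebraMap k Ω (e q) * s j ^ (q : ℕ) := by
    intro p
    have hcp := (hAmem _).1 (hc p).1
    obtain ⟨d, hd, hcd⟩ := taylor (D j) (s j) (by rw [hD, if_pos rfl]) B (by
      intro z hz
      rw [hBmem] at hz ⊢
      intro l hlj
      rw [hcomm, hz l hlj, map_zero]) (by
      intro z hz
      rw [hBmem] at hz ⊢
      intro l hlj
      rw [Derivation.leibniz, hz l hlj, hD, if_neg hlj]
      simp) N (c p) (by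
      rw [hBmem]
      intro l hlj
      by_cases hli : l = i
      · rw [hli]; exact (hc p).2
      · exact hcp.2 l hli hlj) hcp.1
    have hdk : ∀ q, ∃ e : k, algebraMap k Ω e = d q := by
      intro q
      rw [← acl_empty]
      have := (hmem ∅ (d q)).2 (by
        intro l _
        by_cases hlj : l = j
        · rw [hlj]; exact (hd q).2
        · exact (hBmem _).1 (hd q).1 l hlj)
      rwa [Set.image_empty] at this
    choose e he using hdk
    exact ⟨e, by rw [hcd]; exact Finset.sum_congr rfl fun q _ => by rw [he]⟩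
  choose a ha using hex
  refine ⟨a, ?_⟩
  rw [hfc]
  refine Finset.sum_congr rfl fun p _ => ?_
  rw [ha p, Finset.sum_mul]
  refine Finset.sum_congr rfl fun q _ => by ring

omit [IsAlgClosed k] in
private theorem coeffs_zero {e0 e1 e2 e3 e4 : k}
    (h : ∀ t : k, e0 + e1 * t + e2 * t ^ 2 + e3 * t ^ 3 + e4 * t ^ 4 = 0) :
    e0 = 0 ∧ e1 = 0 ∧ e2 = 0 ∧ e3 = 0 ∧ e4 = 0 := by
  have hp : (Polynomial.C e0 + Polynomial.C e1 * Polynomial.X + Polynomial.C e2 * Polynomial.X ^ 2 +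
      Polynomial.C e3 * Polynomial.X ^ 3 + Polynomial.C e4 * Polynomial.X ^ 4 : Polynomial k) = 0 := by
    apply Polynomial.funext
    intro t
    simpa using h t
  refine ⟨?_, ?_, ?_, ?_, ?_⟩
  · simpa [Polynomial.coeff_X, Polynomial.coeff_C, Polynomial.coeff_X_pow] using congrArg (fun p => p.coeff 0) hp
  · simpa [Polynomial.coeff_X, Polynomial.coeff_C, Polynomial.coeff_X_pow] using congrArg (fun p => p.coeff 1) hp
  · simpa [Polynomial.coeff_X, Polynomial.coeff_C, Polynomial.coeff_X_pow] using congrArg (fun p => p.coeff 2) hp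
  · simpa [Polynomial.coeff_X, Polynomial.coeff_C, Polynomial.coeff_X_pow] using congrArg (fun p => p.coeff 3) hp
  · simpa [Polynomial.coeff_X, Polynomial.coeff_C, Polynomial.coeff_X_pow] using congrArg (fun p => p.coeff 4) hp

/-- one corner of the square lemma -/
private theorem corner {A00 A01 A02 A10 A11 A12 A20 A21 A22 : k} (h0 : A00 ≠ 0)
    (e1 : A10 ^ 2 = 4 * A00 * A20)
    (e2 : A10 * A11 = 2 * (A00 * A21 + A01 * A20))
    (e3 : A11 ^ 2 + 2 * A10 * A12 = 4 * (A00 * A22 + A01 * A21 + A02 * A20))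
    (e4 : A01 ^ 2 = 4 * A00 * A02)
    (e5 : A01 * A11 = 2 * (A00 * A12 + A10 * A02)) :
    ∃ n0 n1 n2 n3 : k, A00 = n0 ^ 2 ∧ A01 = 2 * n0 * n1 ∧ A02 = n1 ^ 2 ∧ A10 = 2 * n0 * n2 ∧
      A11 = 2 * n0 * n3 + 2 * n1 * n2 ∧ A12 = 2 * n1 * n3 ∧ A20 = n2 ^ 2 ∧ A21 = 2 * n2 * n3 ∧
      A22 = n3 ^ 2 := by
  obtain ⟨n0, hn0⟩ := IsAlgClosed.exists_pow_nat_eq A00 (n := 2) (by norm_num)
  subst hn0
  have hn : n0 ≠ 0 := by
    rintro rfl
    simp at h0
  obtain ⟨n1, hn1⟩ : ∃ n1, A01 = 2 * n0 * n1 := ⟨A01 / (2 * n0), by field_simp⟩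
  obtain ⟨n2, hn2⟩ : ∃ n2, A10 = 2 * n0 * n2 := ⟨A10 / (2 * n0), by field_simp⟩
  obtain ⟨n3, hn3⟩ : ∃ n3, A11 = 2 * n0 * n3 + 2 * n1 * n2 := ⟨(A11 - 2 * n1 * n2) / (2 * n0), by field_simp; ring⟩
  subst hn1 hn2 hn3
  have c : (4 * n0 ^ 2 : k) ≠ 0 := by simp [hn]
  have c2 : (2 * n0 ^ 2 : k) ≠ 0 := by simp [hn]
  have hA02 : A02 = n1 ^ 2 := by
    apply mul_left_cancel₀ c
    linear_combination -e4
  have hA20 : A20 = n2 ^ 2 := by
    apply mul_left_cancel₀ c
    linear_combination -e1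
  subst hA02 hA20
  have hA21 : A21 = 2 * n2 * n3 := by
    apply mul_left_cancel₀ c2
    linear_combination -e2
  have hA12 : A12 = 2 * n1 * n3 := by
    apply mul_left_cancel₀ c2
    linear_combination -e5
  subst hA21 hA12
  refine ⟨n0, n1, n2, n3, rfl, rfl, rfl, rfl, rfl, rfl, rfl, rfl, ?_⟩
  apply mul_left_cancel₀ c
  linear_combination -e3

/-! ## N8: square lemma. `Φ(ς,τ)` of bidegree at most (2,2), with zero discriminant in each variable, is the
square of a bilinear form. -/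
theorem square_lemma (a : Fin 3 → Fin 3 → k)
    (h1 : ∀ t : k, (∑ q : Fin 3, a 1 q * t ^ (q : ℕ)) ^ 2 =
      4 * (∑ q : Fin 3, a 0 q * t ^ (q : ℕ)) * (∑ q : Fin 3, a 2 q * t ^ (q : ℕ)))
    (h2 : ∀ t : k, (∑ p : Fin 3, a p 1 * t ^ (p : ℕ)) ^ 2 =
      4 * (∑ p : Fin 3, a p 0 * t ^ (p : ℕ)) * (∑ p : Fin 3, a p 2 * t ^ (p : ℕ))) :
    ∃ n : Fin 4 → k, ∀ s t : k, ∑ p : Fin 3, ∑ q : Fin 3, a p q * s ^ (p : ℕ) * t ^ (q : ℕ) =
      (n 0 + n 1 * t + n 2 * s + n 3 * s * t) ^ 2 := by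
  simp only [Fin.sum_univ_three, Fin.val_zero, Fin.val_one, Fin.val_two, pow_zero, pow_one, mul_one] at h1 h2 ⊢
  obtain ⟨u1, u2, u3, u4, u5⟩ := coeffs_zero (e0 := a 1 0 ^ 2 - 4 * a 0 0 * a 2 0)
    (e1 := 2 * a 1 0 * a 1 1 - 4 * (a 0 0 * a 2 1 + a 0 1 * a 2 0))
    (e2 := a 1 1 ^ 2 + 2 * a 1 0 * a 1 2 - 4 * (a 0 0 * a 2 2 + a 0 1 * a 2 1 + a 0 2 * a 2 0))
    (e3 := 2 * a 1 1 * a 1 2 - 4 * (a 0 1 * a 2 2 + a 0 2 * a 2 1))
    (e4 := a 1 2 ^ 2 - 4 * a 0 2 * a 2 2) (fun t => by linear_combination h1 t)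
  obtain ⟨v1, v2, v3, v4, v5⟩ := coeffs_zero (e0 := a 0 1 ^ 2 - 4 * a 0 0 * a 0 2)
    (e1 := 2 * a 0 1 * a 1 1 - 4 * (a 0 0 * a 1 2 + a 1 0 * a 0 2))
    (e2 := a 1 1 ^ 2 + 2 * a 0 1 * a 2 1 - 4 * (a 0 0 * a 2 2 + a 1 0 * a 1 2 + a 2 0 * a 0 2))
    (e3 := 2 * a 1 1 * a 2 1 - 4 * (a 1 0 * a 2 2 + a 2 0 * a 1 2))
    (e4 := a 2 1 ^ 2 - 4 * a 2 0 * a 2 2) (fun t => by linear_combination h2 t)
  have two : (2 : k) ≠ 0 := two_ne_zero
  by_cases c00 : a 0 0 = 0
  swap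
  · obtain ⟨n0, n1, n2, n3, g1, g2, g3, g4, g5, g6, g7, g8, g9⟩ := corner (A00 := a 0 0) (A01 := a 0 1)
      (A02 := a 0 2) (A10 := a 1 0) (A11 := a 1 1) (A12 := a 1 2) (A20 := a 2 0) (A21 := a 2 1) (A22 := a 2 2)
      c00 (by linear_combination u1) (mul_left_cancel₀ two (by linear_combination u2)) (by linear_combination u3)
      (by linear_combination v1) (mul_left_cancel₀ two (by linear_combination v2))
    refine ⟨![n0, n1, n2, n3], fun s t => ?_⟩
    simp only [Matrix.cons_val_zero, Matrix.cons_val_one, Matrix.cons_val]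
    rw [g1, g2, g3, g4, g5, g6, g7, g8, g9]
    ring
  by_cases c02 : a 0 2 = 0
  swap
  · obtain ⟨n0, n1, n2, n3, g1, g2, g3, g4, g5, g6, g7, g8, g9⟩ := corner (A00 := a 0 2) (A01 := a 0 1)
      (A02 := a 0 0) (A10 := a 1 2) (A11 := a 1 1) (A12 := a 1 0) (A20 := a 2 2) (A21 := a 2 1) (A22 := a 2 0)
      c02 (by linear_combination u5) (mul_left_cancel₀ two (by linear_combination u4)) (by linear_combination u3)
      (by linear_combination v1) (mul_left_cancel₀ two (by linear_combination v2))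
    refine ⟨![n1, n0, n3, n2], fun s t => ?_⟩
    simp only [Matrix.cons_val_zero, Matrix.cons_val_one, Matrix.cons_val]
    rw [g1, g2, g3, g4, g5, g6, g7, g8, g9]
    ring
  by_cases c20 : a 2 0 = 0
  swap
  · obtain ⟨n0, n1, n2, n3, g1, g2, g3, g4, g5, g6, g7, g8, g9⟩ := corner (A00 := a 2 0) (A01 := a 2 1)
      (A02 := a 2 2) (A10 := a 1 0) (A11 := a 1 1) (A12 := a 1 2) (A20 := a 0 0) (A21 := a 0 1) (A22 := a 0 2)
      c20 (by linear_combination u1) (mul_left_cancel₀ two (by linear_combination u2)) (by linear_combination u3)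
      (by linear_combination v5) (mul_left_cancel₀ two (by linear_combination v4))
    refine ⟨![n2, n3, n0, n1], fun s t => ?_⟩
    simp only [Matrix.cons_val_zero, Matrix.cons_val_one, Matrix.cons_val]
    rw [g1, g2, g3, g4, g5, g6, g7, g8, g9]
    ring
  by_cases c22 : a 2 2 = 0
  swap
  · obtain ⟨n0, n1, n2, n3, g1, g2, g3, g4, g5, g6, g7, g8, g9⟩ := corner (A00 := a 2 2) (A01 := a 2 1)
      (A02 := a 2 0) (A10 := a 1 2) (A11 := a 1 1) (A12 := a 1 0) (A20 := a 0 2) (A21 := a 0 1) (A22 := a 0 0)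
      c22 (by linear_combination u5) (mul_left_cancel₀ two (by linear_combination u4)) (by linear_combination u3)
      (by linear_combination v5) (mul_left_cancel₀ two (by linear_combination v4))
    refine ⟨![n3, n2, n1, n0], fun s t => ?_⟩
    simp only [Matrix.cons_val_zero, Matrix.cons_val_one, Matrix.cons_val]
    rw [g1, g2, g3, g4, g5, g6, g7, g8, g9]
    ring
  have c10 : a 1 0 = 0 := by
    rw [c00] at u1
    exact pow_eq_zero_iff (two_ne_zero) |>.1 (by linear_combination u1)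
  have c12 : a 1 2 = 0 := by
    rw [c02] at u5
    exact pow_eq_zero_iff (two_ne_zero) |>.1 (by linear_combination u5)
  have c01 : a 0 1 = 0 := by
    rw [c00] at v1
    exact pow_eq_zero_iff (two_ne_zero) |>.1 (by linear_combination v1)
  have c21 : a 2 1 = 0 := by
    rw [c20] at v5
    exact pow_eq_zero_iff (two_ne_zero) |>.1 (by linear_combination v5)
  have c11 : a 1 1 = 0 := by
    rw [c00, c10, c01, c02] at u3
    exact pow_eq_zero_iff (two_ne_zero) |>.1 (by linear_combination u3)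
  refine ⟨fun _ => 0, fun s t => ?_⟩
  rw [c00, c02, c20, c22, c10, c12, c01, c21, c11]
  ring
end Pol
end Pool.Agent.HDP
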