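import Mathlib
import Pool.Agent.Lib.MP_20906e_al.Defs
import Pool.Agent.Lib.MP_20906e_al.Ctx
import Pool.Agent.Lib.MP_20906e_al.CtxN
import Pool.Agent.Lib.MP_20906e_al.Acl
import Pool.Agent.Lib.MP_20906e_al.Der
import Pool.Agent.Lib.MP_20906e_al.B2a
import Pool.Agent.Lib.MP_20906e_al.B2b
import Pool.Agent.Lib.MP_20906e_al.B3
import Pool.Agent.Lib.MP_20906e_al.N7
import Pool.Agent.Lib.MP_20906e_al.N10

/-!
# MP_20906e_al, piece N12: the quadric case with `G = 0` (helper57)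
-/

set_option linter.unusedSectionVars false

namespace Pool.Agent.HDP
open MvPolynomial

namespace Ctx3
variable {k Ω : Type*} [Field k] [IsAlgClosed k] [CharZero k] [Field Ω] [IsAlgClosed Ω] [Algebra k Ω]
  (c : Ctx3 k Ω)

/-- the bilinear form of the normalised quadric -/
private def B (v w : Fin 4 → Ω) : Ω := v 0 * w 3 + v 3 * w 0 - v 1 * w 2 - v 2 * w 1

private theorem lin_dir {V : ValuationSubring Ω} {b : Fin 4 → Ω} {i0 : Fin 4} (hb : c.IsDir V b i0)
    (g : Fin 4 → Ω) (hg : ∀ i, g i ∈ c.L) (hF : ∑ i, g i * c.x i ∈ c.L) : ∑ i, g i * b i = 0 := by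
  refine c.b3_L_zero hb.place (sum_mem fun i _ => mul_mem (hg i) (hb.mem i)) ?_
  have h1 : V.valuation ((c.x i0)⁻¹ * ∑ i, g i * c.x i) < 1 := by
    rw [map_mul]
    exact mul_lt_one_of_lt_of_le (c.b3_inv_lt hb)
      ((V.valuation_le_one_iff _).2 (hb.place _ hF))
  have h2 : V.valuation (∑ i, g i * ((c.x i0)⁻¹ * c.x i - b i)) < 1 := by
    refine Valuation.map_sum_lt _ one_ne_zero fun i _ => ?_
    rw [map_mul, mul_comm]
    exact mul_lt_one_of_lt_of_le (c.b3_res hb i)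
      ((V.valuation_le_one_iff _).2 (hb.place _ (hg i)))
  have h3 : ∑ i, g i * b i = (c.x i0)⁻¹ * (∑ i, g i * c.x i) - ∑ i, g i * ((c.x i0)⁻¹ * c.x i - b i) := by
    rw [Finset.mul_sum, ← Finset.sum_sub_distrib]
    exact Finset.sum_congr rfl fun i _ => by ring
  rw [h3]
  exact Valuation.map_sub_lt _ h1 h2

/-- the left kernel on the quadric -/
private theorem q_ker (hq : c.y 0 * c.y 3 = c.y 1 * c.y 2) :
    ∃ e : Ω, c.y 3 = e * c.u 0 ∧ - c.y 2 = e * c.u 1 ∧ - c.y 1 = e * c.u 2 ∧ c.y 0 = e * c.u 3 := by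
  obtain ⟨e, he⟩ := c.ker_left ![c.y 3, - c.y 2, - c.y 1, c.y 0] (by
    intro D
    have h := congrArg D hq
    simp only [Derivation.leibniz, smul_eq_mul] at h
    simp only [Fin.sum_univ_four, Matrix.cons_val]
    linear_combination h)
  refine ⟨e, ?_, ?_, ?_, ?_⟩
  · simpa using he 0
  · simpa using he 1
  · simpa using he 2
  · simpa using he 3

private theorem q_Bxy (hq : c.y 0 * c.y 3 = c.y 1 * c.y 2) (hG : c.G = 0) :
    c.x 0 * c.y 3 + c.x 3 * c.y 0 - c.x 1 * c.y 2 - c.x 2 * c.y 1 = 0 := by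
  obtain ⟨e, h0, h1, h2, h3⟩ := c.q_ker hq
  have h : ∑ i, c.u i * c.x i = 0 := hG
  rw [Fin.sum_univ_four] at h
  linear_combination e * h + c.x 0 * h0 + c.x 1 * h1 + c.x 2 * h2 + c.x 3 * h3

private theorem q_Bby (hq : c.y 0 * c.y 3 = c.y 1 * c.y 2) {V : ValuationSubring Ω} {b : Fin 4 → Ω}
    {i0 : Fin 4} (hb : c.IsDir V b i0) :
    b 0 * c.y 3 + b 3 * c.y 0 - b 1 * c.y 2 - b 2 * c.y 1 = 0 := by
  obtain ⟨e, h0, h1, h2, h3⟩ := c.q_ker hq
  have h := c.u_dir hb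
  rw [Fin.sum_univ_four] at h
  linear_combination e * h + b 0 * h0 + b 1 * h1 + b 2 * h2 + b 3 * h3

/-- `B(x, D y) = 0` for `D x = D' y` -/
private theorem q_BxD (hq : c.y 0 * c.y 3 = c.y 1 * c.y 2) (hG : c.G = 0)
    (D D' : Derivation k Ω Ω) (hD : ∀ i, D (c.x i) = D' (c.y i)) :
    c.x 0 * D (c.y 3) + c.x 3 * D (c.y 0) - c.x 1 * D (c.y 2) - c.x 2 * D (c.y 1) = 0 := by
  have h1 := congrArg D (c.q_Bxy hq hG)
  have h2 := congrArg D' hq
  simp only [map_sub, map_add, Derivation.leibniz, smul_eq_mul, map_zero, hD] at h1 h2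
  linear_combination h1 - h2

private theorem q_Del_L (hq : c.y 0 * c.y 3 = c.y 1 * c.y 2) (hG : c.G = 0) :
    c.x 0 * c.x 3 - c.x 1 * c.x 2 ∈ c.L := by
  rw [mem_L_iff]
  have h := c.q_BxD hq hG c.V2 c.V1 c.V2x
  simp only [map_sub, Derivation.leibniz, smul_eq_mul, c.Wx]
  linear_combination h

private theorem q_Del_V2 (hq : c.y 0 * c.y 3 = c.y 1 * c.y 2) (hG : c.G = 0) :
    c.V2 (c.x 0 * c.x 3 - c.x 1 * c.x 2) = 0 := by
  have h := c.q_BxD hq hG c.V1 c.Z0 c.V1x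
  simp only [map_sub, Derivation.leibniz, smul_eq_mul, c.V2x]
  linear_combination h

private theorem q_hom : (X 0 * X 3 - X 1 * X 2 : MvPolynomial (Fin 4) k).IsHomogeneous 2 :=
  ((isHomogeneous_X k 0).mul (isHomogeneous_X k 3)).sub ((isHomogeneous_X k 1).mul (isHomogeneous_X k 2))

private theorem q_Del_ne : c.x 0 * c.x 3 - c.x 1 * c.x 2 ≠ 0 := by
  intro h
  have h1 : aeval c.x (X 0 * X 3 - X 1 * X 2 : MvPolynomial (Fin 4) k) = 0 := by
    simpa using h
  have h2 := (injective_iff_map_eq_zero _).1 c.tb.1 _ h1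
  have h3 := congrArg (MvPolynomial.eval ![1, 0, 0, 1]) h2
  simp at h3

private theorem q_Qb (hq : c.y 0 * c.y 3 = c.y 1 * c.y 2) (hG : c.G = 0) {V : ValuationSubring Ω}
    {b : Fin 4 → Ω} {i0 : Fin 4} (hb : c.IsDir V b i0) : b 0 * b 3 - b 1 * b 2 = 0 := by
  have h := c.form_dir hb (F := X 0 * X 3 - X 1 * X 2) (m := 2) (by norm_num) q_hom (by
    simpa using c.q_Del_L hq hG)
  simpa using h

private theorem y_ne (i : Fin 4) : c.y i ≠ 0 := by
  intro h
  have h1 := c.lin_indep_y (Pi.single i 1) (by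
    rw [Finset.sum_eq_single i]
    · rw [h, mul_zero]
    · intro j _ hj
      rw [Pi.single_eq_of_ne hj, map_zero, zero_mul]
    · simp)
  have h2 := congrFun h1 i
  simp at h2

private theorem q_y3 (hq : c.y 0 * c.y 3 = c.y 1 * c.y 2) :
    c.y 3 = c.y 0 * (c.y 1 / c.y 0) * (c.y 2 / c.y 0) := by
  have h0 := c.y_ne 0
  field_simp
  linear_combination hq

private theorem q_t (hq : c.y 0 * c.y 3 = c.y 1 * c.y 2) :
    AlgebraicIndependent k ![c.y 0, c.y 1 / c.y 0, c.y 2 / c.y 0] := by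
  have h0 := c.y_ne 0
  apply c.L_algInd
  have m0 : c.y 0 ∈ acl k (Set.range ![c.y 0, c.y 1 / c.y 0, c.y 2 / c.y 0]) := subset_acl _ ⟨0, rfl⟩
  have m1 : c.y 1 / c.y 0 ∈ acl k (Set.range ![c.y 0, c.y 1 / c.y 0, c.y 2 / c.y 0]) :=
    subset_acl _ ⟨1, rfl⟩
  have m2 : c.y 2 / c.y 0 ∈ acl k (Set.range ![c.y 0, c.y 1 / c.y 0, c.y 2 / c.y 0]) :=
    subset_acl _ ⟨2, rfl⟩
  intro i
  fin_cases i
  · exact m0
  · have := mul_mem m1 m0
    rwa [div_mul_cancel₀ _ h0] at this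
  · have := mul_mem m2 m0
    rwa [div_mul_cancel₀ _ h0] at this
  · have := mul_mem (mul_mem m0 m1) m2
    rwa [← c.q_y3 hq] at this

private theorem t_mem (i : Fin 3) : (![c.y 0, c.y 1 / c.y 0, c.y 2 / c.y 0] : Fin 3 → Ω) i ∈ c.L := by
  fin_cases i
  · exact c.y_mem 0
  · exact div_mem (c.y_mem 1) (c.y_mem 0)
  · exact div_mem (c.y_mem 2) (c.y_mem 0)

/-- the two types of directions -/
private theorem q_type (hq : c.y 0 * c.y 3 = c.y 1 * c.y 2) (hG : c.G = 0) {V : ValuationSubring Ω}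
    {b : Fin 4 → Ω} {i0 : Fin 4} (hb : c.IsDir V b i0) :
    (b 1 = c.y 1 / c.y 0 * b 0 ∧ b 3 = c.y 1 / c.y 0 * b 2) ∨
      (b 2 = c.y 2 / c.y 0 * b 0 ∧ b 3 = c.y 2 / c.y 0 * b 1) := by
  have h0 := c.y_ne 0
  have h1 := c.q_Bby hq hb
  have h2 := c.q_Qb hq hG hb
  have h3 := c.q_y3 hq
  set τ := c.y 1 / c.y 0 with hτ
  set ς := c.y 2 / c.y 0 with hς
  have e1 : c.y 1 = τ * c.y 0 := by rw [hτ, div_mul_cancel₀ _ h0]
  have e2 : c.y 2 = ς * c.y 0 := by rw [hς, div_mul_cancel₀ _ h0]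
  rw [h3, e1, e2] at h1
  have h4 : b 3 = b 1 * ς + b 2 * τ - b 0 * τ * ς := by
    have : c.y 0 * (b 3 - (b 1 * ς + b 2 * τ - b 0 * τ * ς)) = 0 := by linear_combination h1
    exact sub_eq_zero.1 ((mul_eq_zero.1 this).resolve_left h0)
  have h5 : (b 0 * τ - b 1) * (b 0 * ς - b 2) = 0 := by
    rw [h4] at h2
    linear_combination - h2
  rcases mul_eq_zero.1 h5 with h | h
  · left
    have h6 : b 1 = τ * b 0 := by linear_combination - h
    refine ⟨h6, ?_⟩
    rw [h4, h6]; ring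
  · right
    have h6 : b 2 = ς * b 0 := by linear_combination - h
    refine ⟨h6, ?_⟩
    rw [h4, h6]; ring

/-- the coordinates of a direction of one type depend on its parameter only -/
private theorem q_one {V : ValuationSubring Ω} {b : Fin 4 → Ω} {i0 : Fin 4} (hb : c.IsDir V b i0)
    (hσ : ∃ σ ∈ c.L, ∀ i, b i ∈ acl k ({σ} : Set Ω)) {τ : Ω} (hτ : τ ∉ acl k (∅ : Set Ω))
    {j0 j1 j2 j3 : Fin 4} (hj : ∀ i : Fin 4, i = j0 ∨ i = j1 ∨ i = j2 ∨ i = j3)
    (h1 : b j1 = τ * b j0) (h3 : b j3 = τ * b j2) : ∀ i, b i ∈ acl k ({τ} : Set Ω) := by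
  obtain ⟨σ, -, hm⟩ := hσ
  have hτσ : τ ∈ acl k ({σ} : Set Ω) := by
    by_cases h0 : b j0 = 0
    · by_cases h2 : b j2 = 0
      · exfalso
        have hz : ∀ i, b i = 0 := by
          intro i
          rcases hj i with rfl | rfl | rfl | rfl
          · exact h0
          · rw [h1, h0, mul_zero]
          · exact h2
          · rw [h3, h2, mul_zero]
        have := hb.one
        rw [hz i0] at this
        exact zero_ne_one this
      · have : τ = b j3 / b j2 := by rw [h3]; field_simp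
        rw [this]
        exact div_mem (hm _) (hm _)
    · have : τ = b j1 / b j0 := by rw [h1]; field_simp
      rw [this]
      exact div_mem (hm _) (hm _)
  have hστ : σ ∈ acl k ({τ} : Set Ω) := by
    have h := acl_exchange (k := k) (S := (∅ : Set Ω)) (y := σ) (z := τ) (by simpa using hτσ) hτ
    simpa using h
  intro i
  have hle : acl k ({σ} : Set Ω) ≤ acl k ({τ} : Set Ω) := by
    rw [acl_le_iff]
    rintro _ rfl
    exact hστ
  exact hle (hm i)

/-- the differential equation of a function quadratic along a ruling -/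
private theorem q_ode (D : Derivation k Ω Ω) {Φ l b : Ω} (hl : l ≠ 0) (hDl : D l = - b) (hDb : D b = 0)
    (h : l * D Φ = - 2 * b * Φ) : D (D (D Φ)) = 0 ∧ (D Φ) ^ 2 = 2 * Φ * D (D Φ) := by
  have h1 := congrArg D h
  have e2 : D (2 : Ω) = 0 := by
    have : (2 : Ω) = algebraMap k Ω 2 := (map_ofNat (algebraMap k Ω) 2).symm
    rw [this, D.map_algebraMap]
  simp only [Derivation.leibniz, smul_eq_mul, map_neg, hDl, hDb, e2] at h1
  have h2 : l * D (D Φ) = - b * D Φ := by linear_combination h1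
  have h3 := congrArg D h2
  simp only [Derivation.leibniz, smul_eq_mul, map_neg, hDl, hDb] at h3
  constructor
  · have : l * D (D (D Φ)) = 0 := by linear_combination h3
    exact (mul_eq_zero.1 this).resolve_left hl
  · have : l ^ 2 * ((D Φ) ^ 2 - 2 * Φ * D (D Φ)) = 0 := by
      linear_combination (l * D Φ + 2 * b * Φ - 2 * b * Φ) * h - 2 * b * Φ * h - 2 * Φ * l * h2 + 2 * b * Φ * h
    exact sub_eq_zero.1 ((mul_eq_zero.1 this).resolve_left (pow_ne_zero _ hl))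

private theorem q_tr {τ : Ω} (hτ : τ ∉ acl k (∅ : Set Ω)) (p : Polynomial k)
    (h : Polynomial.aeval τ p = 0) : p = 0 := by
  by_contra hp
  apply hτ
  rw [mem_acl_iff]
  have h1 : IsAlgebraic k τ := ⟨p, hp, h⟩
  exact h1.extendScalars (algebraMap k (IntermediateField.adjoin k (∅ : Set Ω))).injective

/-- the discriminant condition in one variable -/
private theorem q_disc (D : Derivation k Ω Ω) {τ ς Φ : Ω} (hτ : τ ∉ acl k (∅ : Set Ω)) (hDτ : D τ = 0)
    (hDς : D ς = 1) (a : Fin 3 → Fin 3 → k)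
    (hΦ : Φ = ∑ p : Fin 3, ∑ q : Fin 3, algebraMap k Ω (a p q) * ς ^ (p : ℕ) * τ ^ (q : ℕ))
    (h : (D Φ) ^ 2 = 2 * Φ * D (D Φ)) :
    ∀ t : k, (∑ q : Fin 3, a 1 q * t ^ (q : ℕ)) ^ 2 =
      4 * (∑ q : Fin 3, a 0 q * t ^ (q : ℕ)) * (∑ q : Fin 3, a 2 q * t ^ (q : ℕ)) := by
  let P : Fin 3 → Polynomial k := fun p => ∑ q : Fin 3, Polynomial.C (a p q) * Polynomial.X ^ (q : ℕ)
  have hPe : ∀ p, Polynomial.aeval τ (P p) = ∑ q : Fin 3, algebraMap k Ω (a p q) * τ ^ (q : ℕ) := by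
    intro p
    simp [P, map_sum]
  have hPt : ∀ (p : Fin 3) (t : k), (P p).eval t = ∑ q : Fin 3, a p q * t ^ (q : ℕ) := by
    intro p t
    simp [P, Polynomial.eval_finsetSum]
  have hDP : ∀ p, D (Polynomial.aeval τ (P p)) = 0 := by
    intro p
    rw [hPe, map_sum]
    refine Finset.sum_eq_zero fun q _ => ?_
    rw [Derivation.leibniz, D.map_algebraMap, Derivation.leibniz_pow, hDτ]
    simp
  have e2 : D (2 : Ω) = 0 := by
    have : (2 : Ω) = algebraMap k Ω 2 := (map_ofNat (algebraMap k Ω) 2).symm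
    rw [this, D.map_algebraMap]
  have h0 : Φ = Polynomial.aeval τ (P 0) + Polynomial.aeval τ (P 1) * ς + Polynomial.aeval τ (P 2) * ς ^ 2 := by
    rw [hΦ, hPe, hPe, hPe]
    simp only [Fin.sum_univ_three, Fin.val_zero, Fin.val_one, Fin.val_two, pow_zero, pow_one]
    ring
  have h1 : D Φ = Polynomial.aeval τ (P 1) + 2 * Polynomial.aeval τ (P 2) * ς := by
    rw [h0]
    simp only [map_add, Derivation.leibniz, Derivation.leibniz_pow, smul_eq_mul, hDP, hDς]
    simp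
    ring
  have h2 : D (D Φ) = 2 * Polynomial.aeval τ (P 2) := by
    rw [h1]
    simp only [map_add, Derivation.leibniz, smul_eq_mul, hDP, hDς, e2]
    ring
  rw [h2, h1, h0] at h
  have h3 : Polynomial.aeval τ (P 1 ^ 2 - 4 * P 0 * P 2) = 0 := by
    simp only [map_sub, map_mul, map_pow, map_ofNat]
    linear_combination h
  have h4 := q_tr hτ _ h3
  intro t
  have h5 := congrArg (Polynomial.eval t) h4
  simp only [Polynomial.eval_sub, Polynomial.eval_mul, Polynomial.eval_pow, Polynomial.eval_ofNat,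
    Polynomial.eval_zero, hPt] at h5
  exact sub_eq_zero.1 h5

private theorem quad0_aux {V V' : ValuationSubring Ω} {b b' : Fin 4 → Ω} {i0 i1 : Fin 4}
    (h : c.Quad V V' b b' i0 i1) (hG : c.G = 0)
    (hb1 : b 1 = c.y 1 / c.y 0 * b 0) (hb3 : b 3 = c.y 1 / c.y 0 * b 2)
    (hb2' : b' 2 = c.y 2 / c.y 0 * b' 0) (hb3' : b' 3 = c.y 2 / c.y 0 * b' 1) : False := by
  obtain ⟨hq, hdir, hdir', hone, hone', hnb⟩ := h
  have hy0 := c.y_ne 0
  have hy3 := c.q_y3 hq
  have ht := c.q_t hq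
  have htm := c.t_mem
  -- the basis
  have hxL : c.x i0 ∉ c.L := fun hx => hdir.inf (hdir.place _ hx)
  have hLt := c.L_eq_acl _ ht htm
  have hxt : c.x i0 ∉ acl k (Set.range ![c.y 0, c.y 1 / c.y 0, c.y 2 / c.y 0]) := by
    rwa [← hLt]
  have hs := isTB_of_algInd c.tb (algInd_cons ht hxt)
  obtain ⟨D, hD, hE, hcomm, -, hacl⟩ := exists_dual hs
  set s : Fin 4 → Ω := (Fin.cons (c.x i0) ![c.y 0, c.y 1 / c.y 0, c.y 2 / c.y 0] : Fin 4 → Ω) with hsdef
  set τ := c.y 1 / c.y 0 with hτ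
  set ς := c.y 2 / c.y 0 with hς
  have s0 : s 0 = c.x i0 := rfl
  have s1 : s 1 = c.y 0 := rfl
  have s2 : s 2 = τ := rfl
  have s3 : s 3 = ς := rfl
  have hind := (algInd_iff_notMem s).1 hs.1
  have hτ0 : τ ∉ acl k (∅ : Set Ω) := fun hm => hind 2 (acl_mono (Set.empty_subset _) hm)
  have hς0 : ς ∉ acl k (∅ : Set Ω) := fun hm => hind 3 (acl_mono (Set.empty_subset _) hm)
  have e1 : c.y 1 = τ * c.y 0 := by rw [hτ, div_mul_cancel₀ _ hy0]
  have e2 : c.y 2 = ς * c.y 0 := by rw [hς, div_mul_cancel₀ _ hy0]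
  -- functions in `L`
  have hL0 : ∀ f ∈ c.L, D 0 f = 0 := by
    intro f hf
    rw [hLt] at hf
    refine (hacl {0}ᶜ f).1 ?_ 0 (by simp)
    refine acl_mono ?_ hf
    rintro _ ⟨i, rfl⟩
    exact ⟨i.succ, by simp, by rw [hsdef, Fin.cons_succ]⟩
  have hEL : ∀ (E : Derivation k Ω Ω), ∀ f ∈ c.L, E f = E (c.y 0) * D 1 f + E τ * D 2 f + E ς * D 3 f := by
    intro E f hf
    rw [hE E f, Fin.sum_univ_four, hL0 f hf, s1, s2, s3]
    ring
  -- the quadric form of `x`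
  set Del := c.x 0 * c.x 3 - c.x 1 * c.x 2 with hDel
  have hDelL : Del ∈ c.L := c.q_Del_L hq hG
  have hDelV : c.V2 Del = 0 := c.q_Del_V2 hq hG
  have hDel0 : Del ≠ 0 := c.q_Del_ne
  have hDmem : ∀ i, ∀ f ∈ c.L, D i f ∈ c.L := by
    intro i f hf
    have hLs : ∀ g, g ∈ c.L ↔ g ∈ acl k (s '' {0}ᶜ) := by
      intro g
      rw [hLt]
      have : s '' {0}ᶜ = Set.range ![c.y 0, τ, ς] := by
        ext z
        constructor
        · rintro ⟨i, hi, rfl⟩
          obtain ⟨j, rfl⟩ := Fin.exists_succ_eq.2 (show i ≠ 0 from hi)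
          exact ⟨j, by rw [hsdef, Fin.cons_succ]⟩
        · rintro ⟨i, rfl⟩
          exact ⟨i.succ, by simp, by rw [hsdef, Fin.cons_succ]⟩
      rw [this]
    rw [hLs] at hf ⊢
    rw [hacl]
    intro j hj
    rw [hcomm, (hacl {0}ᶜ f).1 hf j hj, map_zero]
  have hτD : ∀ E : Derivation k Ω Ω, c.y 0 * E τ = E (c.y 1) - τ * E (c.y 0) := by
    intro E
    rw [e1, Derivation.leibniz, smul_eq_mul, smul_eq_mul]
    ring
  have hςD : ∀ E : Derivation k Ω Ω, c.y 0 * E ς = E (c.y 2) - ς * E (c.y 0) := by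
    intro E
    rw [e2, Derivation.leibniz, smul_eq_mul, smul_eq_mul]
    ring
  -- the linear relation
  let g : Fin 4 → Ω := ![D 1 Del - (τ * D 2 Del + ς * D 3 Del) / c.y 0, D 2 Del / c.y 0, D 3 Del / c.y 0, 0]
  have hgL : ∀ i, g i ∈ c.L := by
    have hτL : τ ∈ c.L := htm 1
    have hςL : ς ∈ c.L := htm 2
    have m1 := hDmem 1 Del hDelL
    have m2 := hDmem 2 Del hDelL
    have m3 := hDmem 3 Del hDelL
    have m0 := c.y_mem 0
    intro i
    fin_cases i
    · exact sub_mem m1 (div_mem (add_mem (mul_mem hτL m2) (mul_mem hςL m3)) m0)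
    · exact div_mem m2 m0
    · exact div_mem m3 m0
    · exact zero_mem _
  have hgE : ∀ E : Derivation k Ω Ω, ∑ i, g i * E (c.y i) = E Del := by
    intro E
    rw [hEL E Del hDelL, Fin.sum_univ_four]
    have a1 := hτD E
    have a2 := hςD E
    simp only [g, Matrix.cons_val]
    field_simp
    linear_combination - D 2 Del * a1 - D 3 Del * a2
  have hF : ∑ i, g i * c.x i ∈ c.L := by
    rw [mem_L_iff, map_sum]
    have : ∀ i, c.W (g i * c.x i) = g i * c.V2 (c.y i) := by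
      intro i
      rw [Derivation.leibniz, (c.mem_L_iff _).1 (hgL i), c.Wx]
      simp
    simp only [this]
    rw [hgE, hDelV]
  have r1 := c.lin_dir hdir g hgL hF
  have r2 := c.lin_dir hdir' g hgL hF
  rw [Fin.sum_univ_four] at r1 r2
  simp only [g, Matrix.cons_val] at r1 r2
  -- Euler
  have hEτ : c.E τ = 0 := by
    have h1 := hτD c.E
    rw [c.Ey, c.Ey, e1] at h1
    have h2 : c.y 0 * c.E τ = 0 := by linear_combination h1
    exact (mul_eq_zero.1 h2).resolve_left hy0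
  have hEς : c.E ς = 0 := by
    have h1 := hςD c.E
    rw [c.Ey, c.Ey, e2] at h1
    have h2 : c.y 0 * c.E ς = 0 := by linear_combination h1
    exact (mul_eq_zero.1 h2).resolve_left hy0
  have hEDel : (c.d : Ω) * c.y 0 * D 1 Del = 2 * Del := by
    have h1 := hEL c.E Del hDelL
    rw [hEτ, hEς, c.Ey] at h1
    have h2 := c.E_aeval (q_hom (k := k))
    have h3 : aeval c.x (X 0 * X 3 - X 1 * X 2 : MvPolynomial (Fin 4) k) = Del := by simp [hDel]
    rw [h3] at h2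
    push_cast at h2
    linear_combination h2 - h1
  have hd0 : c.d ≠ 0 := by have := c.hd; omega
  -- values of the dual derivations
  have d1y : D 1 (c.y 0) = 1 := by rw [← s1, hD]; simp
  have d2y : D 2 (c.y 0) = 0 := by rw [← s1, hD]; simp
  have d3y : D 3 (c.y 0) = 0 := by rw [← s1, hD]; simp
  have d2τ : D 2 τ = 1 := by rw [← s2, hD]; simp
  have d3τ : D 3 τ = 0 := by rw [← s2, hD]; simp
  have d2ς : D 2 ς = 0 := by rw [← s3, hD]; simp
  have d3ς : D 3 ς = 1 := by rw [← s3, hD]; simp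
  -- the function `Φ`
  obtain ⟨Φ, hΦ⟩ : ∃ Φ : Ω, Φ = Del ^ c.d / c.y 0 ^ 2 := ⟨_, rfl⟩
  have hΦ' : Φ * c.y 0 ^ 2 = Del ^ c.d := by rw [hΦ]; field_simp
  have hΦD : ∀ E : Derivation k Ω Ω,
      Del * (c.y 0 * E Φ + 2 * Φ * E (c.y 0)) = (c.d : Ω) * Φ * c.y 0 * E Del := by
    intro E
    have h1 := congrArg E hΦ'
    rw [Derivation.leibniz, Derivation.leibniz_pow, Derivation.leibniz_pow] at h1
    simp only [smul_eq_mul, nsmul_eq_mul, Nat.cast_ofNat, Nat.add_one_sub_one, pow_one] at h1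
    have h2 : Del * Del ^ (c.d - 1) = Del ^ c.d := mul_pow_sub_one hd0 Del
    have h3 : c.y 0 * (Del * (c.y 0 * E Φ + 2 * Φ * E (c.y 0)) - (c.d : Ω) * Φ * c.y 0 * E Del) = 0 := by
      linear_combination Del * h1 + (c.d : Ω) * E Del * h2 - (c.d : Ω) * E Del * hΦ'
    exact sub_eq_zero.1 ((mul_eq_zero.1 h3).resolve_left hy0)
  have hΦL : Φ ∈ c.L := by
    rw [hΦ]
    exact div_mem (pow_mem hDelL _) (pow_mem (c.y_mem 0) _)
  have d0Φ : D 0 Φ = 0 := hL0 _ hΦL
  have d1Φ : D 1 Φ = 0 := by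
    have h1 := hΦD (D 1)
    rw [d1y] at h1
    have h2 : Del * (c.y 0 * D 1 Φ) = 0 := by linear_combination h1 + Φ * hEDel
    exact (mul_eq_zero.1 ((mul_eq_zero.1 h2).resolve_left hDel0)).resolve_left hy0
  have hΦmem : Φ ∈ acl k ({s 3, s 2} : Set Ω) := by
    have h1 := (hacl {3, 2} Φ).2 (by
      intro i hi
      fin_cases i
      · exact d0Φ
      · exact d1Φ
      · simp at hi
      · simp at hi)
    rwa [Set.image_pair] at h1
  -- the two rulings
  have hbτ : ∀ i, b i ∈ acl k ({τ} : Set Ω) :=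
    c.q_one hdir hone hτ0 (j0 := 0) (j1 := 1) (j2 := 2) (j3 := 3) (by decide) hb1 hb3
  have hbς : ∀ i, b' i ∈ acl k ({ς} : Set Ω) :=
    c.q_one hdir' hone' hς0 (j0 := 0) (j1 := 2) (j2 := 1) (j3 := 3) (by decide) hb2' hb3'
  have d3b : ∀ i, D 3 (b i) = 0 := fun i => der_acl_zero (D 3) (by rintro _ rfl; exact d3τ) _ (hbτ i)
  have d2b : ∀ i, D 2 (b' i) = 0 := fun i => der_acl_zero (D 2) (by rintro _ rfl; exact d2ς) _ (hbς i)
  obtain ⟨l, hl⟩ : ∃ l : Ω, l = b 2 - ς * b 0 := ⟨_, rfl⟩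
  obtain ⟨l', hl'⟩ : ∃ l' : Ω, l' = b' 1 - τ * b' 0 := ⟨_, rfl⟩
  have hl0 : l ≠ 0 := by
    intro h0
    apply hnb
    rw [hl] at h0
    have h2 : b 2 = ς * b 0 := by linear_combination h0
    rw [hb1, hb3, h2, hb2', hb3']
    ring
  have hl0' : l' ≠ 0 := by
    intro h0
    apply hnb
    rw [hl'] at h0
    have h2 : b' 1 = τ * b' 0 := by linear_combination h0
    rw [hb1, hb3, hb2', hb3', h2]
    ring
  have hDl : D 3 l = - b 0 := by
    rw [hl, map_sub, Derivation.leibniz, d3b, d3b, d3ς]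
    simp
  have hDl' : D 2 l' = - b' 0 := by
    rw [hl', map_sub, Derivation.leibniz, d2b, d2b, d2τ]
    simp
  have ode1 : l * D 3 Φ = - 2 * b 0 * Φ := by
    have h1 := hΦD (D 3)
    rw [d3y] at h1
    have h2 : c.y 0 * b 0 * D 1 Del + l * D 3 Del = 0 := by
      rw [hl]
      rw [hb1] at r1
      field_simp at r1
      linear_combination r1
    have h3 : Del * c.y 0 * (l * D 3 Φ - (- 2 * b 0 * Φ)) = 0 := by
      linear_combination l * h1 + (c.d : Ω) * Φ * c.y 0 * h2 - Φ * b 0 * c.y 0 * hEDel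
    exact sub_eq_zero.1 ((mul_eq_zero.1 h3).resolve_left (mul_ne_zero hDel0 hy0))
  have ode2 : l' * D 2 Φ = - 2 * b' 0 * Φ := by
    have h1 := hΦD (D 2)
    rw [d2y] at h1
    have h2 : c.y 0 * b' 0 * D 1 Del + l' * D 2 Del = 0 := by
      rw [hl']
      rw [hb2'] at r2
      field_simp at r2
      linear_combination r2
    have h3 : Del * c.y 0 * (l' * D 2 Φ - (- 2 * b' 0 * Φ)) = 0 := by
      linear_combination l' * h1 + (c.d : Ω) * Φ * c.y 0 * h2 - Φ * b' 0 * c.y 0 * hEDel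
    exact sub_eq_zero.1 ((mul_eq_zero.1 h3).resolve_left (mul_ne_zero hDel0 hy0))
  obtain ⟨o1, o2⟩ := q_ode (D 3) hl0 hDl (d3b 0) ode1
  obtain ⟨o1', o2'⟩ := q_ode (D 2) hl0' hDl' (d2b 0) ode2
  -- `Φ` is a polynomial
  obtain ⟨a, ha⟩ := poly_lemma hs hD (i := 3) (j := 2) (by decide) hΦmem (N := 3) o1 o1'
  rw [s3, s2] at ha
  have hdisc1 := q_disc (D 3) hτ0 d3τ d3ς a ha o2
  have hdisc2 := q_disc (D 2) hς0 d2ς d2τ (fun p q => a q p) (by
    rw [ha, Finset.sum_comm]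
    refine Finset.sum_congr rfl fun q _ => Finset.sum_congr rfl fun p _ => ?_
    ring) o2'
  obtain ⟨n, hn⟩ := square_lemma a hdisc1 hdisc2
  have hn' : Φ = (algebraMap k Ω (n 0) + algebraMap k Ω (n 1) * τ + algebraMap k Ω (n 2) * ς
      + algebraMap k Ω (n 3) * ς * τ) ^ 2 := by
    have h1 : (∑ p : Fin 3, ∑ q : Fin 3, C (a p q) * X 0 ^ (p : ℕ) * X 1 ^ (q : ℕ) :
        MvPolynomial (Fin 2) k) = (C (n 0) + C (n 1) * X 1 + C (n 2) * X 0 + C (n 3) * X 0 * X 1) ^ 2 := by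
      apply MvPolynomial.funext
      intro z
      simp only [map_sum, map_mul, map_pow, map_add, eval_C, eval_X]
      exact hn _ _
    have h2 := congrArg (aeval ![ς, τ]) h1
    simp only [map_sum, map_mul, map_pow, map_add, aeval_C, aeval_X, Matrix.cons_val] at h2
    rw [ha, h2]
  -- the end
  have hinj : ∀ F : MvPolynomial (Fin 4) k, aeval c.x F = 0 → F = 0 :=
    (injective_iff_map_eq_zero _).1 c.tb.1
  refine quadric0_end c.nil.hom c.ind (d := c.d) ?_ ?_ n ?_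
  · refine sub_eq_zero.1 (hinj _ ?_)
    rw [map_sub, map_mul, map_mul, ← c.hy, ← c.hy, ← c.hy, ← c.hy, hq, sub_self]
  · apply hinj
    simp only [map_sub, map_add, map_mul, aeval_X, ← c.hy]
    linear_combination c.q_Bxy hq hG
  · refine sub_eq_zero.1 (hinj _ ?_)
    simp only [map_sub, map_mul, map_pow, map_sum, aeval_X, aeval_C, ← c.hy]
    rw [← hDel, ← hΦ', hn', Fin.sum_univ_four, hy3, e1, e2]
    ring

/-- quadric, `G = 0` -/
theorem quad0_false {V V' : ValuationSubring Ω} {b b' : Fin 4 → Ω} {i0 i1 : Fin 4}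
    (h : c.Quad V V' b b' i0 i1) (hG : c.G = 0) : False := by
  have hnb := h.nb
  rcases c.q_type h.q hG h.dir with ⟨h1, h3⟩ | ⟨h2, h3⟩
  · rcases c.q_type h.q hG h.dir' with ⟨h1', h3'⟩ | ⟨h2', h3'⟩
    · apply hnb
      rw [h1, h3, h1', h3']
      ring
    · exact c.quad0_aux h hG h1 h3 h2' h3'
  · rcases c.q_type h.q hG h.dir' with ⟨h1', h3'⟩ | ⟨h2', h3'⟩
    · refine c.quad0_aux (V := V') (V' := V) ⟨h.q, h.dir', h.dir, h.one', h.one, ?_⟩ hG h1' h3' h2 h3
      intro h0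
      apply hnb
      linear_combination h0
    · apply hnb
      rw [h2, h3, h2', h3']
      ring

end Ctx3
end Pool.Agent.HDP
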