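import Mathlib
import Pool.Agent.Lib.MP_20906e_al.Defs
import Pool.Agent.Lib.MP_20906e_al.Acl

/-!
# MP_20906e_al, N9: the factor lemma
-/

namespace Pool.Agent.HDP

namespace FactorAux
open Polynomial

section U
variable {F : Type*} [Field F]

theorem lin_natDegree (a b : F) : (C a + C b * X).natDegree ≤ 1 := by compute_degree

theorem lin_coeff_one (a b : F) : (C a + C b * X).coeff 1 = b := by simp [coeff_C]

theorem lin_top (d : ℕ) (a0 a1 b0 b1 : F) :
    ((C a0 + C a1 * X) * (C b0 + C b1 * X) ^ d).coeff (1 + d) = a1 * b1 ^ d := by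
  have h1 : ((C b0 + C b1 * X) ^ d).natDegree ≤ d := by
    simpa using natDegree_pow_le_of_le d (lin_natDegree b0 b1)
  rw [coeff_mul_add_eq_of_natDegree_le (lin_natDegree a0 a1) h1, lin_coeff_one]
  have h2 := coeff_pow_of_natDegree_le (m := d) (lin_natDegree b0 b1)
  rw [mul_one] at h2
  rw [h2, lin_coeff_one]

/-- an identity of products of linear polynomials is an identity of binary forms -/
theorem hom_eval {d : ℕ} {a0 a1 b0 b1 a0' a1' b0' b1' : F}
    (h : (C a0 + C a1 * X) * (C b0 + C b1 * X) ^ d = (C a0' + C a1' * X) * (C b0' + C b1' * X) ^ d)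
    (x y : F) : (a0 * y + a1 * x) * (b0 * y + b1 * x) ^ d =
      (a0' * y + a1' * x) * (b0' * y + b1' * x) ^ d := by
  by_cases hy : y = 0
  · have h1 := congrArg (fun p => p.coeff (1 + d)) h
    simp only [lin_top] at h1
    subst hy
    simp only [mul_zero, zero_add, mul_pow]
    linear_combination (x * x ^ d) * h1
  · have h1 := congrArg (Polynomial.eval (x / y)) h
    simp only [eval_mul, eval_pow, eval_add, eval_C, eval_X] at h1
    have e : ∀ u v : F, u * y + v * x = y * (u + v * (x / y)) := by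
      intro u v; field_simp
    rw [e, e, e, e, mul_pow, mul_pow]
    linear_combination (y * y ^ d) * h1

theorem proj_eq {a0 a1 b0 b1 : F} (ha : ¬ (a0 = 0 ∧ a1 = 0)) (h : b0 * a1 = b1 * a0) :
    ∃ s, b0 = s * a0 ∧ b1 = s * a1 := by
  by_cases h0 : a0 = 0
  · have h1 : a1 ≠ 0 := fun h1 => ha ⟨h0, h1⟩
    refine ⟨b1 / a1, ?_, by field_simp⟩
    rw [h0, mul_zero]
    rw [h0, mul_zero] at h
    exact (mul_eq_zero.1 h).resolve_right h1
  · refine ⟨b0 / a0, by field_simp, ?_⟩
    field_simp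
    linear_combination -h

/-- the simple root is determined -/
theorem root_unique {d : ℕ} (hd : 2 ≤ d) {a0 a1 b0 b1 a0' a1' b0' b1' : F}
    (h : (C a0 + C a1 * X) * (C b0 + C b1 * X) ^ d = (C a0' + C a1' * X) * (C b0' + C b1' * X) ^ d)
    (hne : (C a0 + C a1 * X) * (C b0 + C b1 * X) ^ d ≠ 0) : a0 * a1' = a1 * a0' := by
  by_contra hδ
  have hδ0 : a0 * a1' - a1 * a0' ≠ 0 := sub_ne_zero.2 hδ
  have ha : ¬ (a0 = 0 ∧ a1 = 0) := by rintro ⟨h0, h1⟩; simp [h0, h1] at hδ
  have ha' : ¬ (a0' = 0 ∧ a1' = 0) := by rintro ⟨h0, h1⟩; simp [h0, h1] at hδ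
  have e1 := hom_eval h (-a0') a1'
  have e2 := hom_eval h (-a0) a1
  have hb : b0 * a1' = b1 * a0' := by
    have : (a0 * a1' - a1 * a0') * (b0 * a1' - b1 * a0') ^ d = 0 := by
      have h3 : a0' * a1' + a1' * -a0' = 0 := by ring
      rw [h3, zero_mul] at e1
      rw [← e1]; ring
    rcases mul_eq_zero.1 this with h4 | h4
    · exact absurd h4 hδ0
    · exact sub_eq_zero.1 (pow_eq_zero_iff (by omega) |>.1 h4)
  have hb' : b0' * a1 = b1' * a0 := by
    have : (a0 * a1' - a1 * a0') * (b0' * a1 - b1' * a0) ^ d = 0 := by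
      have h3 : a0 * a1 + a1 * -a0 = 0 := by ring
      rw [h3, zero_mul] at e2
      have h5 : (a0' * a1 + a1' * -a0) = - (a0 * a1' - a1 * a0') := by ring
      rw [h5] at e2
      have h6 : b0' * a1 + b1' * -a0 = b0' * a1 - b1' * a0 := by ring
      rw [h6] at e2
      linear_combination e2
    rcases mul_eq_zero.1 this with h4 | h4
    · exact absurd h4 hδ0
    · exact sub_eq_zero.1 (pow_eq_zero_iff (by omega) |>.1 h4)
  obtain ⟨s, hs0, hs1⟩ := proj_eq ha' hb
  obtain ⟨t, ht0, ht1⟩ := proj_eq ha hb'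
  obtain ⟨A, hA⟩ : ∃ A : F[X], A = C a0 + C a1 * X := ⟨_, rfl⟩
  obtain ⟨A', hA'⟩ : ∃ A' : F[X], A' = C a0' + C a1' * X := ⟨_, rfl⟩
  have hB : C b0 + C b1 * X = C s * A' := by rw [hs0, hs1, hA', C_mul, C_mul]; ring
  have hB' : C b0' + C b1' * X = C t * A := by rw [ht0, ht1, hA, C_mul, C_mul]; ring
  rw [hB, ← hA] at hne
  rw [hB, hB', ← hA, ← hA'] at h
  have hA0 : A ≠ 0 := left_ne_zero_of_mul hne
  have hsA' : C s * A' ≠ 0 := fun h0 => hne (by rw [h0, zero_pow (by omega), mul_zero])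
  have hA'0 : A' ≠ 0 := right_ne_zero_of_mul hsA'
  have hs : s ≠ 0 := by rintro rfl; simp at hsA'
  obtain ⟨e, rfl⟩ : ∃ e, d = e + 1 := ⟨d - 1, by omega⟩
  have h7 : C (s ^ (e + 1)) * A' ^ e = C (t ^ (e + 1)) * A ^ e := by
    apply mul_left_cancel₀ (mul_ne_zero hA0 hA'0)
    rw [C_pow, C_pow]
    rw [mul_pow, mul_pow] at h
    linear_combination h
  have hcop : IsCoprime A A' := by
    refine ⟨C ((a0 * a1' - a1 * a0')⁻¹ * a1'), - C ((a0 * a1' - a1 * a0')⁻¹ * a1), ?_⟩
    have h8 : C ((a0 * a1' - a1 * a0')⁻¹ * (a0 * a1' - a1 * a0')) = (1 : F[X]) := by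
      rw [inv_mul_cancel₀ hδ0, C_1]
    rw [hA, hA', ← h8]
    simp only [C_mul, C_sub]
    ring
  have hcop2 : IsCoprime (A ^ e) (A' ^ e) := hcop.pow
  have hu1 : IsUnit (C (s ^ (e + 1)) : F[X]) := by
    rw [isUnit_C]; exact (pow_ne_zero _ hs).isUnit
  have h9 : A' ^ e ∣ C (t ^ (e + 1)) * A ^ e := ⟨C (s ^ (e + 1)), by rw [← h7]; ring⟩
  have h10 : IsUnit (A' ^ e) := by
    have := (hcop2.symm.dvd_of_dvd_mul_right h9)
    have ht : t ≠ 0 := by
      rintro rfl
      rw [zero_pow (by omega), C_0, zero_mul] at h7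
      exact (mul_ne_zero hu1.ne_zero (pow_ne_zero e hA'0)) h7
    exact isUnit_of_dvd_unit this (by rw [isUnit_C]; exact (pow_ne_zero _ ht).isUnit)
  have h11 : IsUnit (A ^ e) := by
    have h12 : A ^ e ∣ C (s ^ (e + 1)) * A' ^ e := ⟨C (t ^ (e + 1)), by rw [h7]; ring⟩
    exact isUnit_of_dvd_unit h12 (hu1.mul h10)
  have h13 : IsUnit A' := (isUnit_pow_iff (by omega)).1 h10
  have h14 : IsUnit A := (isUnit_pow_iff (by omega)).1 h11
  have h15 : a1' = 0 := by
    rw [← lin_coeff_one a0' a1', ← hA']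
    exact coeff_eq_zero_of_natDegree_lt (by rw [natDegree_eq_zero_of_isUnit h13]; omega)
  have h16 : a1 = 0 := by
    rw [← lin_coeff_one a0 a1, ← hA]
    exact coeff_eq_zero_of_natDegree_lt (by rw [natDegree_eq_zero_of_isUnit h14]; omega)
  exact hδ (by rw [h15, h16]; ring)

end U

section R

/-- the multiple root is rational -/
theorem root_rational {E Ω : Type*} [Field E] [CharZero E] [Field Ω] [IsAlgClosed Ω] [Algebra E Ω]
    {d : ℕ} (hd : 2 ≤ d) {P : E[X]} (hP : P ≠ 0) {l0 l1 m0 m1 : Ω}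
    (h : P.map (algebraMap E Ω) = (C l0 + C l1 * X) * (C m0 + C m1 * X) ^ d) :
    ∃ (A B : E) (s : Ω), s ≠ 0 ∧ m0 = s * algebraMap E Ω A ∧ m1 = s * algebraMap E Ω B := by
  have hP' : P.map (algebraMap E Ω) ≠ 0 := (Polynomial.map_ne_zero_iff (algebraMap E Ω).injective).2 hP
  by_cases hm1 : m1 = 0
  · refine ⟨1, 0, m0, ?_, by simp, by simp [hm1]⟩
    rintro rfl
    apply hP'
    rw [h, hm1]; simp; right; omega
  · set r : Ω := -m0 / m1 with hr
    have hMr : m0 + m1 * r = 0 := by rw [hr]; field_simp; ring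
    have hroot : aeval r P = 0 := by
      rw [← eval_map_algebraMap, h]; simp [hMr]; right; omega
    have hder : ∀ z : Ω, aeval z (derivative P) = l1 * (m0 + m1 * z) ^ d +
        (l0 + l1 * z) * (d * (m0 + m1 * z) ^ (d - 1) * m1) := by
      intro z
      rw [← eval_map_algebraMap, ← derivative_map, h]
      simp [derivative_mul, derivative_pow]
    have hroot' : aeval r (derivative P) = 0 := by
      rw [hder, hMr, zero_pow (by omega), zero_pow (by omega)]; ring
    have halg : IsIntegral E r := (isAlgebraic_iff_isIntegral.1 ⟨P, hP, hroot⟩)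
    obtain ⟨μ, hμ⟩ : ∃ μ, μ = minpoly E r := ⟨_, rfl⟩
    have hμirr : Irreducible μ := hμ ▸ minpoly.irreducible halg
    have hsep : μ.Separable := hμirr.separable
    -- all roots are equal to `r`
    have hall : ∀ z : Ω, aeval z μ = 0 → z = r := by
      intro z hz
      by_contra hne
      have hz1 : aeval z P = 0 := by
        obtain ⟨q, hq⟩ := minpoly.dvd E r hroot
        rw [hq, map_mul, ← hμ, hz, zero_mul]
      have hz2 : aeval z (derivative P) = 0 := by
        obtain ⟨q, hq⟩ := minpoly.dvd E r hroot'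
        rw [hq, map_mul, ← hμ, hz, zero_mul]
      have hMz : m0 + m1 * z ≠ 0 := by
        intro h0
        apply hne
        have : m1 * (z - r) = 0 := by linear_combination h0 - hMr
        exact sub_eq_zero.1 ((mul_eq_zero.1 this).resolve_left hm1)
      rw [← eval_map_algebraMap, h] at hz1
      simp only [eval_mul, eval_pow, eval_add, eval_C, eval_X] at hz1
      have hLz : l0 + l1 * z = 0 := (mul_eq_zero.1 hz1).resolve_right (pow_ne_zero _ hMz)
      rw [hder, hLz, zero_mul, add_zero] at hz2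
      have hl1 : l1 = 0 := (mul_eq_zero.1 hz2).resolve_right (pow_ne_zero _ hMz)
      have hl0 : l0 = 0 := by rw [hl1] at hLz; simpa using hLz
      apply hP'
      rw [h, hl0, hl1]; simp
    have hdeg : μ.natDegree = 1 := by
      have hcard : Fintype.card (μ.rootSet Ω) = μ.natDegree :=
        card_rootSet_eq_natDegree hsep (IsAlgClosed.splits _)
      have hle : Fintype.card (μ.rootSet Ω) ≤ 1 := by
        rw [Fintype.card_le_one_iff]
        rintro ⟨a, ha⟩ ⟨b, hb⟩
        rw [mem_rootSet] at ha hb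
        exact Subtype.ext ((hall a ha.2).trans (hall b hb.2).symm)
      have hpos := minpoly.natDegree_pos halg
      rw [← hμ] at hpos
      omega
    obtain ⟨ρ, hρ⟩ := (minpoly.natDegree_eq_one_iff).1 (hμ ▸ hdeg)
    refine ⟨-ρ, 1, m1, hm1, ?_, by simp⟩
    rw [map_neg, hρ]
    linear_combination hMr

end R

section G
variable {k Ω : Type*} [Field k] [CharZero k] [Field Ω] [IsAlgClosed Ω]

theorem linear_of_natDegree {R : Type*} [Semiring R] {p : R[X]} (h : p.natDegree ≤ 1) :
    p = C (p.coeff 0) + C (p.coeff 1) * X := by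
  rw [add_comm]; exact eq_X_add_C_of_natDegree_le_one h

/-- Gauss lemma form: `P = L μ^d` over `k[τ]`, `μ` primitive and linear -/
theorem gauss {i : k[X] →+* Ω} (hi : Function.Injective i) {d : ℕ} (hd : 2 ≤ d) {P : k[X][X]}
    (hP : P ≠ 0) {l0 l1 m0 m1 : Ω}
    (h : P.map i = (C l0 + C l1 * X) * (C m0 + C m1 * X) ^ d) :
    ∃ L μ : k[X][X], P = L * μ ^ d ∧ L.natDegree ≤ 1 ∧ μ.natDegree ≤ 1 ∧ μ.IsPrimitive := by
  classical
  let E := FractionRing k[X]
  let j : E →+* Ω := IsFractionRing.lift hi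
  have hj : ∀ x, j (algebraMap k[X] E x) = i x := fun x => IsFractionRing.lift_algebraMap hi x
  let : Algebra E Ω := j.toAlgebra
  have hjalg : algebraMap E Ω = j := rfl
  have hcomp : j.comp (algebraMap k[X] E) = i := RingHom.ext hj
  have hchar : CharZero E := charZero_of_injective_algebraMap (IsFractionRing.injective k[X] E)
  have hPE : P.map (algebraMap k[X] E) ≠ 0 :=
    (Polynomial.map_ne_zero_iff (IsFractionRing.injective k[X] E)).2 hP
  have hPi : (P.map (algebraMap k[X] E)).map (algebraMap E Ω) = P.map i := by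
    rw [Polynomial.map_map, hjalg, hcomp]
  obtain ⟨A, B, s, hs, hm0, hm1⟩ := root_rational hd hPE (hPi.trans h)
  -- a primitive polynomial proportional to `A + B X`
  have hAB : (C A + C B * X : E[X]) ≠ 0 := by
    intro h0
    apply hPE
    apply Polynomial.map_injective (algebraMap E Ω) (algebraMap E Ω).injective
    have h1 : (C m0 + C m1 * X : Polynomial Ω) = C s * (C A + C B * X : E[X]).map (algebraMap E Ω) := by
      rw [hm0, hm1]; simp; ring
    rw [Polynomial.map_zero, hPi, h, h1, h0, Polynomial.map_zero, mul_zero, zero_pow (by omega),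
      mul_zero]
  obtain ⟨b, hb, hbq⟩ := IsLocalization.integerNormalization_spec (nonZeroDivisors k[X])
    (C A + C B * X : E[X])
  set q0 : k[X][X] := IsLocalization.integerNormalization (nonZeroDivisors k[X])
    (C A + C B * X : E[X]) with hq0
  have hb0 : (algebraMap k[X] E b) ≠ 0 := by
    intro h0
    have := (map_eq_zero_iff _ (IsFractionRing.injective k[X] E)).1 h0
    exact nonZeroDivisors.ne_zero hb this
  have hq1 : q0.map (algebraMap k[X] E) = C (algebraMap k[X] E b) * (C A + C B * X) := by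
    rw [hbq, algebra_compatible_smul E b, smul_eq_C_mul]
  have hq0ne : q0 ≠ 0 := by
    intro h0
    rw [h0, Polynomial.map_zero] at hq1
    exact (mul_ne_zero (by rwa [Ne, C_eq_zero]) hAB) hq1.symm
  set μ := q0.primPart with hμ
  have hμprim : μ.IsPrimitive := isPrimitive_primPart q0
  have hq2 : q0 = C q0.content * μ := eq_C_content_mul_primPart q0
  have hc0 : algebraMap k[X] E q0.content ≠ 0 := by
    intro h0
    have := (map_eq_zero_iff _ (IsFractionRing.injective k[X] E)).1 h0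
    exact hq0ne (content_eq_zero_iff.1 this)
  have hμdeg : μ.natDegree ≤ 1 := by
    rw [hμ, natDegree_primPart, ← natDegree_map_eq_of_injective (IsFractionRing.injective k[X] E),
      hq1, natDegree_C_mul hb0]
    exact lin_natDegree _ _
  -- `m0 + m1 X` is a constant times `μ`
  obtain ⟨t, ht, hM⟩ : ∃ t : Ω, t ≠ 0 ∧ (C m0 + C m1 * X : Polynomial Ω) = C t * μ.map i := by
    refine ⟨s * (j (algebraMap k[X] E b))⁻¹ * j (algebraMap k[X] E q0.content), ?_, ?_⟩
    · exact mul_ne_zero (mul_ne_zero hs (inv_ne_zero ((map_ne_zero j).2 hb0)))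
        ((map_ne_zero j).2 hc0)
    · have h1 : (C m0 + C m1 * X : Polynomial Ω) = C s * (C A + C B * X : E[X]).map (algebraMap E Ω) := by
        rw [hm0, hm1]; simp; ring
      have h2 : (q0.map (algebraMap k[X] E)).map (algebraMap E Ω) =
          C (j (algebraMap k[X] E b)) * (C A + C B * X : E[X]).map (algebraMap E Ω) := by
        rw [hq1, Polynomial.map_mul, map_C, hjalg]
      have h3 : (q0.map (algebraMap k[X] E)).map (algebraMap E Ω) =
          C (j (algebraMap k[X] E q0.content)) * μ.map i := by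
        conv_lhs => rw [hq2]
        rw [Polynomial.map_mul, Polynomial.map_mul, map_C, map_C, hjalg, Polynomial.map_map, hcomp]
      have h4 : (C A + C B * X : E[X]).map (algebraMap E Ω) =
          C ((j (algebraMap k[X] E b))⁻¹) * (C (j (algebraMap k[X] E q0.content)) * μ.map i) := by
        rw [← h3, h2, ← mul_assoc, ← C_mul, inv_mul_cancel₀ ((map_ne_zero j).2 hb0), C_1, one_mul]
      rw [h1, h4, C_mul, C_mul]
      ring
  -- division
  have hdvd : (μ ^ d).map (algebraMap k[X] E) ∣ P.map (algebraMap k[X] E) := by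
    rw [← Polynomial.map_dvd_map' (algebraMap E Ω), hPi, Polynomial.map_map, hjalg, hcomp, h, hM,
      Polynomial.map_pow, mul_pow]
    exact ⟨(C l0 + C l1 * X) * C t ^ d, by ring⟩
  have hprimpow : (μ ^ d).IsPrimitive := by
    clear * - hμprim
    induction d with
    | zero => rw [pow_zero]; exact isPrimitive_one
    | succ n ih => rw [pow_succ]; exact ih.mul hμprim
  obtain ⟨L, hL⟩ := hprimpow.dvd_of_fraction_map_dvd_fraction_map hdvd
  refine ⟨L, μ, by rw [hL, mul_comm], ?_, hμdeg, hμprim⟩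
  have hμi : μ.map i ≠ 0 := (Polynomial.map_ne_zero_iff hi).2 hμprim.ne_zero
  have h5 : L.map i = (C l0 + C l1 * X) * C t ^ d := by
    apply mul_right_cancel₀ (pow_ne_zero d hμi)
    have h6 := h
    rw [hL, hM, Polynomial.map_mul, Polynomial.map_pow, mul_pow] at h6
    linear_combination h6
  rw [← natDegree_map_eq_of_injective hi, h5, ← C_pow, mul_comm]
  exact (natDegree_C_mul_le _ _).trans (lin_natDegree _ _)

end G

section Comb
variable {k : Type*} [Field k]

open Bivariate in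
theorem swap_coeff_coeff (P : k[X][X]) (p q : ℕ) :
    ((swap P).coeff q).coeff p = (P.coeff p).coeff q := by
  induction P using Polynomial.induction_on' with
  | add f g hf hg => rw [map_add, coeff_add, coeff_add, coeff_add, coeff_add, hf, hg]
  | monomial n c =>
    induction c using Polynomial.induction_on' with
    | add f g hf hg =>
      rw [map_add, map_add, coeff_add, coeff_add, coeff_add, coeff_add, hf, hg]
    | monomial m c =>
      rw [swap_monomial_monomial, coeff_monomial, coeff_monomial]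
      by_cases h1 : n = p <;> by_cases h2 : m = q <;> simp [h1, h2, coeff_monomial]

/-- degree at most one in each variable -/
def Bil (g : k[X][X]) : Prop := g.natDegree ≤ 1 ∧ (Bivariate.swap g).natDegree ≤ 1

theorem Bil.swap {g : k[X][X]} (h : Bil g) : Bil (Bivariate.swap g) := by
  refine ⟨h.2, ?_⟩
  rw [Bivariate.swap_swap_apply]
  exact h.1

theorem swap_ne_zero {g : k[X][X]} (h : g ≠ 0) : Bivariate.swap g ≠ 0 := by
  intro h0
  apply h
  rw [← Bivariate.swap_swap_apply g, h0, map_zero]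

theorem comb {d : ℕ} (hd : 2 ≤ d) {P L μ L' μ' : k[X][X]} (hP : P ≠ 0)
    (hdeg : P.natDegree ≤ d + 1) (hdeg' : (Bivariate.swap P).natDegree ≤ d + 1)
    (h : P = L * μ ^ d) (hL : L.natDegree ≤ 1) (hμ : μ.natDegree ≤ 1) (hprim : μ.IsPrimitive)
    (h' : Bivariate.swap P = L' * μ' ^ d) (hL' : L'.natDegree ≤ 1) (hμ' : μ'.natDegree ≤ 1) :
    ∃ n m : k[X][X], P = n * m ^ d ∧ Bil n ∧ Bil m := by
  classical
  have hL0 : L ≠ 0 := by rintro rfl; exact hP (by rw [h, zero_mul])
  have hμ0 : μ ≠ 0 := by rintro rfl; exact hP (by rw [h, zero_pow (by omega), mul_zero])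
  have hsP : Bivariate.swap P ≠ 0 := swap_ne_zero hP
  have hL'0 : L' ≠ 0 := by rintro rfl; exact hsP (by rw [h', zero_mul])
  have hμ'0 : μ' ≠ 0 := by rintro rfl; exact hsP (by rw [h', zero_pow (by omega), mul_zero])
  have hsL0 := swap_ne_zero hL0
  have hsμ0 := swap_ne_zero hμ0
  have hsL'0 := swap_ne_zero hL'0
  have hsμ'0 := swap_ne_zero hμ'0
  have e1 : Bivariate.swap P = Bivariate.swap L * Bivariate.swap μ ^ d := by
    rw [h, map_mul, map_pow]
  have e2 : P = Bivariate.swap L' * Bivariate.swap μ' ^ d := by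
    rw [← Bivariate.swap_swap_apply P, h', map_mul, map_pow]
  have d1 : (Bivariate.swap L).natDegree + d * (Bivariate.swap μ).natDegree ≤ d + 1 := by
    rw [e1, natDegree_mul hsL0 (pow_ne_zero _ hsμ0), natDegree_pow] at hdeg'
    exact hdeg'
  have d2 : (Bivariate.swap L').natDegree + d * (Bivariate.swap μ').natDegree ≤ d + 1 := by
    rw [e2, natDegree_mul hsL'0 (pow_ne_zero _ hsμ'0), natDegree_pow] at hdeg
    exact hdeg
  have c1 : (Bivariate.swap μ).natDegree ≤ 1 := by
    by_contra hc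
    have : d * 2 ≤ d * (Bivariate.swap μ).natDegree := Nat.mul_le_mul_left _ (by omega)
    omega
  have c2 : (Bivariate.swap μ').natDegree ≤ 1 := by
    by_contra hc
    have : d * 2 ≤ d * (Bivariate.swap μ').natDegree := Nat.mul_le_mul_left _ (by omega)
    omega
  rcases Nat.lt_or_ge 0 (Bivariate.swap μ).natDegree with hc | hc
  · have hc1 : (Bivariate.swap μ).natDegree = 1 := by omega
    rw [hc1, mul_one] at d1
    exact ⟨L, μ, h, ⟨hL, by omega⟩, ⟨hμ, c1⟩⟩
  rcases Nat.lt_or_ge 0 (Bivariate.swap μ').natDegree with hc' | hc'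
  · have hc1 : (Bivariate.swap μ').natDegree = 1 := by omega
    rw [hc1, mul_one] at d2
    refine ⟨Bivariate.swap L', Bivariate.swap μ', e2, ⟨by omega, ?_⟩, ⟨c2, ?_⟩⟩
    · rw [Bivariate.swap_swap_apply]; exact hL'
    · rw [Bivariate.swap_swap_apply]; exact hμ'
  -- both `μ` and `μ'` depend on one variable
  obtain ⟨c, hcμ⟩ : ∃ c : k[X], Bivariate.swap μ = C c :=
    ⟨_, eq_C_of_natDegree_eq_zero (by omega)⟩
  obtain ⟨c', hcμ'⟩ : ∃ c' : k[X], Bivariate.swap μ' = C c' :=
    ⟨_, eq_C_of_natDegree_eq_zero (by omega)⟩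
  have hμc : μ = c.map C := by rw [← Bivariate.swap_swap_apply μ, hcμ, Bivariate.swap_C]
  have hμc' : μ' = c'.map C := by rw [← Bivariate.swap_swap_apply μ', hcμ', Bivariate.swap_C]
  have hc0 : c ≠ 0 := by rintro rfl; exact hμ0 (by rw [hμc, Polynomial.map_zero])
  have hc'0 : c' ≠ 0 := by rintro rfl; exact hμ'0 (by rw [hμc', Polynomial.map_zero])
  have e3 : P = Bivariate.swap L' * C (c' ^ d) := by rw [e2, hcμ', C_pow]
  have hprimpow : (μ ^ d).IsPrimitive := by
    clear * - hprim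
    induction d with
    | zero => rw [pow_zero]; exact isPrimitive_one
    | succ n ih => rw [pow_succ]; exact ih.mul hprim
  have hdvd : C (c' ^ d) ∣ L := by
    rw [← dvd_content_iff_C_dvd]
    have h1 : c' ^ d ∣ (L * μ ^ d).content := by
      rw [dvd_content_iff_C_dvd, ← h, e3]
      exact dvd_mul_left _ _
    rwa [content_mul, hprimpow.content_eq_one, mul_one] at h1
  obtain ⟨g, hg⟩ := hdvd
  have hg0 : g ≠ 0 := by rintro rfl; exact hL0 (by rw [hg, mul_zero])
  refine ⟨g, C c' * μ, by rw [h, hg, mul_pow, C_pow]; ring, ⟨?_, ?_⟩, ⟨?_, ?_⟩⟩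
  · rw [hg, natDegree_C_mul (pow_ne_zero _ hc'0)] at hL
    exact hL
  · have h2 : L' * (c'.map C) ^ d = (Bivariate.swap g * C (c ^ d)) * (c'.map C) ^ d := by
      rw [← hμc', ← h', e1, hg, map_mul, hcμ, Bivariate.swap_C, hμc', Polynomial.map_pow, C_pow]
      ring
    have h3 := mul_right_cancel₀ (pow_ne_zero d (hμc' ▸ hμ'0)) h2
    rw [h3, mul_comm, natDegree_C_mul (pow_ne_zero _ hc0)] at hL'
    exact hL'
  · rw [natDegree_C_mul hc'0]; exact hμ
  · rw [map_mul, hcμ, Bivariate.swap_C, mul_comm, natDegree_C_mul hc0, ← hμc']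
    exact hμ'

end Comb

section Eval
variable {k Ω : Type*} [Field k] [Field Ω] [Algebra k Ω]

/-- value at (inner variable `x`, outer variable `y`) -/
noncomputable def ev2 (x y : Ω) (P : k[X][X]) : Ω := (P.map (aeval x : k[X] →ₐ[k] Ω).toRingHom).eval y

theorem ev2_swap (x y : Ω) (P : k[X][X]) : ev2 x y (Bivariate.swap P) = ev2 y x P := by
  have h : ∀ (x y : Ω) (P : k[X][X]), ev2 x y P = aevalAeval x y P := by
    intro x y P
    induction P using Polynomial.induction_on' with
    | add p q hp hq => rw [map_add, ← hp, ← hq, ev2, ev2, ev2, Polynomial.map_add, eval_add]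
    | monomial n c =>
      rw [ev2, map_monomial, eval_monomial, ← C_mul_X_pow_eq_monomial, map_mul, map_pow,
        aevalAeval_Y, aevalAeval_C]
      rfl
  rw [h, h, Bivariate.aevalAeval_swap]

theorem map_bil {g : k[X][X]} (hg : Bil g) (x : Ω) :
    g.map (aeval x : k[X] →ₐ[k] Ω).toRingHom =
      C (algebraMap k Ω ((g.coeff 0).coeff 0) + algebraMap k Ω ((g.coeff 0).coeff 1) * x) +
      C (algebraMap k Ω ((g.coeff 1).coeff 0) + algebraMap k Ω ((g.coeff 1).coeff 1) * x) * X := by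
  have h0 : ∀ p, (g.coeff p).natDegree ≤ 1 := by
    intro p
    rw [natDegree_le_iff_coeff_eq_zero]
    intro q hq
    rw [← swap_coeff_coeff, coeff_eq_zero_of_natDegree_lt (lt_of_le_of_lt hg.2 hq), coeff_zero]
  have h1 : ∀ p, (aeval x (g.coeff p) : Ω) = algebraMap k Ω ((g.coeff p).coeff 0) +
      algebraMap k Ω ((g.coeff p).coeff 1) * x := by
    intro p
    conv_lhs => rw [eq_X_add_C_of_natDegree_le_one (h0 p)]
    simp
    ring
  conv_lhs => rw [eq_X_add_C_of_natDegree_le_one hg.1]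
  rw [← h1 0, ← h1 1]
  simp
  ring

theorem ev2_bil {g : k[X][X]} (hg : Bil g) (x y : Ω) : ev2 x y g =
    algebraMap k Ω ((g.coeff 0).coeff 0) + algebraMap k Ω ((g.coeff 0).coeff 1) * x +
      algebraMap k Ω ((g.coeff 1).coeff 0) * y + algebraMap k Ω ((g.coeff 1).coeff 1) * y * x := by
  rw [ev2, map_bil hg x]
  simp
  ring

/-- transcendence: an identity at `y` is an identity of polynomials -/
theorem poly_eq_of_eval {S : Set Ω} {y : Ω} (hy : y ∉ acl k S) {p q : Polynomial Ω}
    (hp : ∀ i, p.coeff i ∈ acl k S) (hq : ∀ i, q.coeff i ∈ acl k S) (h : p.eval y = q.eval y) :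
    p = q := by
  by_contra hne
  apply hy
  refine mem_acl_of_root (k := k) (p - q) (sub_ne_zero.2 hne) ?_ (by rw [eval_sub, h, sub_self])
  intro i
  rw [coeff_sub]
  exact sub_mem (hp i) (hq i)

theorem aeval_mem (x : Ω) (p : k[X]) : (aeval x p : Ω) ∈ acl k ({x} : Set Ω) := by
  have hx : x ∈ acl k ({x} : Set Ω) := subset_acl _ (Set.mem_singleton x)
  induction p using Polynomial.induction_on' with
  | add p q hp hq => rw [map_add]; exact add_mem hp hq
  | monomial n c =>
    rw [aeval_monomial]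
    exact mul_mem (IntermediateField.algebraMap_mem _ c) (pow_mem hx n)

theorem coeff_map_mem (x : Ω) (P : k[X][X]) (i : ℕ) :
    (P.map (aeval x : k[X] →ₐ[k] Ω).toRingHom).coeff i ∈ acl k ({x} : Set Ω) := by
  rw [coeff_map]
  exact aeval_mem x (P.coeff i)

theorem coeff_lin_mem {F : IntermediateField k Ω} {l0 l1 m0 m1 : Ω} (hl0 : l0 ∈ F) (hl1 : l1 ∈ F)
    (hm0 : m0 ∈ F) (hm1 : m1 ∈ F) (d i : ℕ) :
    ((C l0 + C l1 * X) * (C m0 + C m1 * X) ^ d : Polynomial Ω).coeff i ∈ F := by
  have h : ((C l0 + C l1 * X) * (C m0 + C m1 * X) ^ d : Polynomial Ω) =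
      (((C (⟨l0, hl0⟩ : F) + C (⟨l1, hl1⟩ : F) * X) * (C (⟨m0, hm0⟩ : F) + C (⟨m1, hm1⟩ : F) * X) ^ d
        : Polynomial F)).map (algebraMap F Ω) := by
    simp [IntermediateField.algebraMap_apply]
  rw [h, coeff_map]
  exact SetLike.coe_mem _

end Eval

end FactorAux

open FactorAux in
theorem factor_lemma {k Ω : Type*} [Field k] [IsAlgClosed k] [CharZero k] [Field Ω] [IsAlgClosed Ω]
    [Algebra k Ω] {d : ℕ} (hd : 2 ≤ d) {ς τ : Ω} (hind : AlgebraicIndependent k ![ς, τ])
    (a : Fin (d + 2) → Fin (d + 2) → k) {f : Ω} (hf0 : f ≠ 0)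
    (hf : f = ∑ p, ∑ q, algebraMap k Ω (a p q) * ς ^ (p : ℕ) * τ ^ (q : ℕ))
    {l0 l1 m0 m1 : Ω} (h : l0 ∈ acl k ({τ} : Set Ω) ∧ l1 ∈ acl k ({τ} : Set Ω) ∧
      m0 ∈ acl k ({τ} : Set Ω) ∧ m1 ∈ acl k ({τ} : Set Ω))
    (h1 : f = (l0 + l1 * ς) * (m0 + m1 * ς) ^ d)
    {l0' l1' m0' m1' : Ω} (h' : l0' ∈ acl k ({ς} : Set Ω) ∧ l1' ∈ acl k ({ς} : Set Ω) ∧
      m0' ∈ acl k ({ς} : Set Ω) ∧ m1' ∈ acl k ({ς} : Set Ω))
    (h2 : f = (l0' + l1' * τ) * (m0' + m1' * τ) ^ d) :
    ∃ n m : Fin 4 → k,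
      f = (algebraMap k Ω (n 0) + algebraMap k Ω (n 1) * τ + algebraMap k Ω (n 2) * ς
            + algebraMap k Ω (n 3) * ς * τ) *
          (algebraMap k Ω (m 0) + algebraMap k Ω (m 1) * τ + algebraMap k Ω (m 2) * ς
            + algebraMap k Ω (m 3) * ς * τ) ^ d ∧
      (algebraMap k Ω (n 0) + algebraMap k Ω (n 1) * τ) * l1 =
        (algebraMap k Ω (n 2) + algebraMap k Ω (n 3) * τ) * l0 ∧
      (algebraMap k Ω (n 0) + algebraMap k Ω (n 2) * ς) * l1' =
        (algebraMap k Ω (n 1) + algebraMap k Ω (n 3) * ς) * l0' := by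
  classical
  -- transcendence
  have hς : ς ∉ acl k ({τ} : Set Ω) := by
    have := (algInd_iff_notMem (k := k) ![ς, τ]).1 hind 0
    have hs : (![ς, τ] : Fin 2 → Ω) '' {0}ᶜ = {τ} := by
      ext z; simp [Fin.exists_fin_two, eq_comm]
    rwa [hs] at this
  have hτ : τ ∉ acl k ({ς} : Set Ω) := by
    have := (algInd_iff_notMem (k := k) ![ς, τ]).1 hind 1
    have hs : (![ς, τ] : Fin 2 → Ω) '' {1}ᶜ = {ς} := by
      ext z; simp [Fin.exists_fin_two, eq_comm]
    rwa [hs] at this
  have htr : ∀ x : Ω, (∀ S : Set Ω, S = ∅ → x ∉ acl k S) →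
      Function.Injective ((Polynomial.aeval x : Polynomial k →ₐ[k] Ω).toRingHom) := by
    intro x hx
    have hx' := hx ∅ rfl
    rw [mem_acl_iff] at hx'
    have hx2 : Transcendental k x := by
      intro hal
      apply hx'
      exact IsAlgebraic.tower_top (IntermediateField.adjoin k (∅ : Set Ω)) hal
    exact transcendental_iff_injective.1 hx2
  have hiτ := htr τ (fun S hS hmem => hτ (acl_mono (by rw [hS]; exact Set.empty_subset _) hmem))
  have hiς := htr ς (fun S hS hmem => hς (acl_mono (by rw [hS]; exact Set.empty_subset _) hmem))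
  -- the polynomial
  set P : Polynomial (Polynomial k) := ∑ p : Fin (d + 2), ∑ q : Fin (d + 2),
    Polynomial.monomial (p : ℕ) (Polynomial.monomial (q : ℕ) (a p q)) with hPdef
  have hPf : ev2 τ ς P = f := by
    rw [hf, ev2, hPdef, Polynomial.map_sum, Polynomial.eval_finsetSum]
    refine Finset.sum_congr rfl fun p _ => ?_
    rw [Polynomial.map_sum, Polynomial.eval_finsetSum]
    refine Finset.sum_congr rfl fun q _ => ?_
    rw [Polynomial.map_monomial, Polynomial.eval_monomial]
    change Polynomial.aeval τ (Polynomial.monomial (q : ℕ) (a p q)) * _ = _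
    rw [Polynomial.aeval_monomial]
    ring
  have hPf' : ev2 ς τ (Polynomial.Bivariate.swap P) = f := by rw [ev2_swap, hPf]
  have hP0 : P ≠ 0 := by
    intro h0
    apply hf0
    rw [← hPf, h0, ev2, Polynomial.map_zero, Polynomial.eval_zero]
  have hdeg : P.natDegree ≤ d + 1 := by
    refine Polynomial.natDegree_sum_le_of_forall_le _ _ fun p _ => ?_
    refine Polynomial.natDegree_sum_le_of_forall_le _ _ fun q _ => ?_
    exact (Polynomial.natDegree_monomial_le _).trans (by omega)
  have hdeg' : (Polynomial.Bivariate.swap P).natDegree ≤ d + 1 := by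
    rw [hPdef, map_sum]
    refine Polynomial.natDegree_sum_le_of_forall_le _ _ fun p _ => ?_
    rw [map_sum]
    refine Polynomial.natDegree_sum_le_of_forall_le _ _ fun q _ => ?_
    rw [Polynomial.Bivariate.swap_monomial_monomial]
    exact (Polynomial.natDegree_monomial_le _).trans (by omega)
  have hid : P.map (Polynomial.aeval τ : Polynomial k →ₐ[k] Ω).toRingHom =
      (Polynomial.C l0 + Polynomial.C l1 * Polynomial.X) *
        (Polynomial.C m0 + Polynomial.C m1 * Polynomial.X) ^ d := by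
    refine poly_eq_of_eval hς (coeff_map_mem τ P) (coeff_lin_mem h.1 h.2.1 h.2.2.1 h.2.2.2 d) ?_
    have := hPf
    rw [ev2, h1] at this
    rw [this]
    simp
  have hid' : (Polynomial.Bivariate.swap P).map (Polynomial.aeval ς : Polynomial k →ₐ[k] Ω).toRingHom =
      (Polynomial.C l0' + Polynomial.C l1' * Polynomial.X) *
        (Polynomial.C m0' + Polynomial.C m1' * Polynomial.X) ^ d := by
    refine poly_eq_of_eval hτ (coeff_map_mem ς _) (coeff_lin_mem h'.1 h'.2.1 h'.2.2.1 h'.2.2.2 d) ?_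
    have := hPf'
    rw [ev2, h2] at this
    rw [this]
    simp
  obtain ⟨L, μ, hLμ, hL, hμ, hprim⟩ := gauss hiτ hd hP0 hid
  obtain ⟨L', μ', hLμ', hL', hμ', -⟩ := gauss hiς hd (swap_ne_zero hP0) hid'
  obtain ⟨n, m, hnm, hn, hm⟩ := comb hd hP0 hdeg hdeg' hLμ hL hμ hprim hLμ' hL' hμ'
  refine ⟨![(n.coeff 0).coeff 0, (n.coeff 0).coeff 1, (n.coeff 1).coeff 0, (n.coeff 1).coeff 1],
    ![(m.coeff 0).coeff 0, (m.coeff 0).coeff 1, (m.coeff 1).coeff 0, (m.coeff 1).coeff 1],
    ?_, ?_, ?_⟩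
  · have e : ev2 τ ς P = ev2 τ ς n * ev2 τ ς m ^ d := by
      rw [hnm, ev2, ev2, ev2, Polynomial.map_mul, Polynomial.map_pow, Polynomial.eval_mul,
        Polynomial.eval_pow]
    rw [hPf, ev2_bil hn, ev2_bil hm] at e
    exact e
  · have e := hid
    rw [hnm, Polynomial.map_mul, Polynomial.map_pow, map_bil hn, map_bil hm] at e
    have e2 := root_unique hd e (by
      rw [← map_bil hn, ← map_bil hm, ← Polynomial.map_pow, ← Polynomial.map_mul, ← hnm]
      exact (Polynomial.map_ne_zero_iff hiτ).2 hP0)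
    exact e2
  · have hs : Polynomial.Bivariate.swap P =
        Polynomial.Bivariate.swap n * Polynomial.Bivariate.swap m ^ d := by
      rw [hnm, map_mul, map_pow]
    have e := hid'
    rw [hs, Polynomial.map_mul, Polynomial.map_pow, map_bil hn.swap, map_bil hm.swap] at e
    have e2 := root_unique hd e (by
      rw [← map_bil hn.swap, ← map_bil hm.swap, ← Polynomial.map_pow, ← Polynomial.map_mul, ← hs]
      exact (Polynomial.map_ne_zero_iff hiς).2 (swap_ne_zero hP0))
    simp only [swap_coeff_coeff] at e2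
    exact e2

end Pool.Agent.HDP
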