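import Pool.Agent.Lib.MP_20906e_al.N13b
import Pool.Agent.Lib.MP_20906e_al.N7
import Pool.Agent.Lib.MP_20906e_al.N9

/-!
# MP_20906e_al, piece N13: the quadric case with nonzero contact function (helper10)
-/

set_option linter.unusedSectionVars false

namespace Pool.Agent.HDP
open MvPolynomial

/-- a quadratic polynomial over `k` vanishing at a transcendental element is zero -/
theorem n13_coeff {k Ω : Type*} [Field k] [Field Ω] [Algebra k Ω] {t : Ω} (ht : Transcendental k t)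
    {a b c : k} (h : algebraMap k Ω a + algebraMap k Ω b * t + algebraMap k Ω c * t ^ 2 = 0) :
    a = 0 ∧ b = 0 ∧ c = 0 := by
  have h1 := transcendental_iff.1 ht
    (Polynomial.C a + Polynomial.C b * Polynomial.X + Polynomial.C c * Polynomial.X ^ 2) (by
      simpa using h)
  refine ⟨?_, ?_, ?_⟩
  · have := congrArg (fun p => Polynomial.coeff p 0) h1
    simpa using this
  · have := congrArg (fun p => Polynomial.coeff p 1) h1
    simpa [Polynomial.coeff_X, Polynomial.coeff_C] using this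
  · have := congrArg (fun p => Polynomial.coeff p 2) h1
    simpa [Polynomial.coeff_X, Polynomial.coeff_C] using this

/-- a homogeneous polynomial of degree one is a linear form -/
theorem n13_linear {k : Type*} [Field k] {n : ℕ} {F : MvPolynomial (Fin n) k}
    (hF : F.IsHomogeneous 1) : ∃ a : Fin n → k, F = ∑ i, C (a i) * X i := by
  have h1 : ∀ i, ∃ a : k, pderiv i F = C a := by
    intro i
    have h2 : (pderiv i F).IsHomogeneous 0 := hF.pderiv
    refine ⟨(pderiv i F).coeff 0, ?_⟩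
    exact totalDegree_eq_zero_iff_eq_C.1 (Nat.le_zero.1 h2.totalDegree_le)
  choose a ha using h1
  refine ⟨a, ?_⟩
  have h3 := hF.sum_X_mul_pderiv
  rw [one_smul] at h3
  rw [← h3]
  refine Finset.sum_congr rfl fun i _ => ?_
  rw [ha, mul_comm]

namespace Ctx3
variable {k Ω : Type*} [Field k] [IsAlgClosed k] [CharZero k] [Field Ω] [IsAlgClosed Ω] [Algebra k Ω]
  (c : Ctx3 k Ω)

theorem n13_core {V V' : ValuationSubring Ω} {b b' : Fin 4 → Ω} {i0 i1 : Fin 4}
    (h : c.Quad V V' b b' i0 i1) (hG : c.G ≠ 0)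
    (hb1 : b 1 = c.y 1 / c.y 0 * b 0) (hb3 : b 3 = c.y 1 / c.y 0 * b 2)
    (hb2' : b' 2 = c.y 2 / c.y 0 * b' 0) (hb3' : b' 3 = c.y 2 / c.y 0 * b' 1) : False := by
  have hcz : CharZero Ω := charZero_of_injective_algebraMap (algebraMap k Ω).injective
  have hd2 := c.hd
  have hq := h.q
  have hy0 := c.n13_y0
  set τ : Ω := c.y 1 / c.y 0 with hτ
  set s : Ω := c.y 2 / c.y 0 with hs
  have hy1 : c.y 1 = c.y 0 * τ := by rw [hτ]; field_simp
  have hy2 : c.y 2 = c.y 0 * s := by rw [hs]; field_simp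
  have hy3 : c.y 3 = c.y 0 * (s * τ) := by
    apply mul_left_cancel₀ hy0
    rw [hq, hy1, hy2]; ring
  have hτL : τ ∈ c.L := div_mem (c.y_mem 1) (c.y_mem 0)
  have hsL : s ∈ c.L := div_mem (c.y_mem 2) (c.y_mem 0)
  have hind1 : AlgebraicIndependent k ![c.y 0, τ, s] := by
    apply c.L_algInd
    have h0 : c.y 0 ∈ acl k (Set.range ![c.y 0, τ, s]) := subset_acl _ ⟨0, rfl⟩
    have h1 : τ ∈ acl k (Set.range ![c.y 0, τ, s]) := subset_acl _ ⟨1, rfl⟩
    have h2 : s ∈ acl k (Set.range ![c.y 0, τ, s]) := subset_acl _ ⟨2, rfl⟩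
    intro i
    fin_cases i
    · exact h0
    · change c.y 1 ∈ _
      rw [hy1]; exact mul_mem h0 h1
    · change c.y 2 ∈ _
      rw [hy2]; exact mul_mem h0 h2
    · change c.y 3 ∈ _
      rw [hy3]; exact mul_mem h0 (mul_mem h2 h1)
  have hind2 : AlgebraicIndependent k ![c.y 0, s, τ] := by
    have := hind1.comp ![0, 2, 1] (by decide)
    convert this using 1
    funext i
    fin_cases i <;> rfl
  have hindst : AlgebraicIndependent k ![s, τ] := by
    have := hind1.comp ![2, 1] (by decide)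
    convert this using 1
    funext i
    fin_cases i <;> rfl
  have hEdiv : ∀ i j, c.E (c.y i / c.y j) = 0 := by
    intro i j
    by_cases hj : c.y j = 0
    · rw [hj, div_zero, map_zero]
    rw [div_eq_mul_inv, Derivation.leibniz, Derivation.leibniz_inv, c.Ey, c.Ey]
    simp only [smul_eq_mul]
    field_simp
    ring
  have hEτ : c.E τ = 0 := hEdiv 1 0
  have hEs : c.E s = 0 := hEdiv 2 0
  have hEy0 : c.E (c.y 0) = c.d * c.y 0 := c.Ey 0
  have hτtr : Transcendental k τ := by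
    have := hind1.transcendental 1
    simpa using this
  have hstr : Transcendental k s := by
    have := hind1.transcendental 2
    simpa using this
  have hnacl : ∀ t : Ω, Transcendental k t → t ∉ acl k (∅ : Set Ω) := by
    intro t ht h0
    obtain ⟨a, ha⟩ := (acl_empty t).1 h0
    apply ht
    rw [← ha]
    exact isAlgebraic_algebraMap a
  have hone : ∀ (v : Fin 4 → Ω) (t : Ω), Transcendental k t → (∃ σ ∈ c.L, ∀ i, v i ∈ acl k ({σ} : Set Ω)) →
      (∃ i j, v j ≠ 0 ∧ t = v i / v j) → ∀ i, v i ∈ acl k ({t} : Set Ω) := by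
    rintro v t ht ⟨σ, -, hσ⟩ ⟨i, j, -, hij⟩ l
    have h1 : t ∈ acl k ({σ} : Set Ω) := by rw [hij]; exact div_mem (hσ i) (hσ j)
    have h2 : σ ∈ acl k ({t} : Set Ω) := by
      have h3 : t ∈ acl k (insert σ (∅ : Set Ω)) := by simpa using h1
      simpa using acl_exchange h3 (hnacl t ht)
    have h4 : acl k ({σ} : Set Ω) ≤ acl k ({t} : Set Ω) := by
      rw [acl_le_iff]
      rintro _ rfl
      exact h2
    exact h4 (hσ l)
  -- first ruling
  have hbne : b 0 ≠ 0 ∨ b 2 ≠ 0 := by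
    by_contra hcon
    push Not at hcon
    have h1 := h.dir.one
    have : b i0 = 0 := by
      fin_cases i0
      · exact hcon.1
      · change b 1 = 0
        rw [hb1, hcon.1, mul_zero]
      · exact hcon.2
      · change b 3 = 0
        rw [hb3, hcon.2, mul_zero]
    rw [this] at h1
    exact zero_ne_one h1
  have hbacl : ∀ i, b i ∈ acl k ({τ} : Set Ω) := by
    refine hone b τ hτtr h.one ?_
    rcases hbne with hb | hb
    · exact ⟨1, 0, hb, by rw [hb1]; field_simp⟩
    · exact ⟨3, 2, hb, by rw [hb3]; field_simp⟩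
  have hbne' : b' 0 ≠ 0 ∨ b' 1 ≠ 0 := by
    by_contra hcon
    push Not at hcon
    have h1 := h.dir'.one
    have : b' i1 = 0 := by
      fin_cases i1
      · exact hcon.1
      · exact hcon.2
      · change b' 2 = 0
        rw [hb2', hcon.1, mul_zero]
      · change b' 3 = 0
        rw [hb3', hcon.2, mul_zero]
    rw [this] at h1
    exact zero_ne_one h1
  have hbacl' : ∀ i, b' i ∈ acl k ({s} : Set Ω) := by
    refine hone b' s hstr h.one' ?_
    rcases hbne' with hb | hb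
    · exact ⟨2, 0, hb, by rw [hb2']; field_simp⟩
    · exact ⟨3, 1, hb, by rw [hb3']; field_simp⟩
  set f : Ω := n13q c.y c.x with hf
  obtain ⟨κ, hκ, hu0, hu1, hu2, hu3⟩ := c.n13_u hq
  have hGf : c.G = κ * f := by
    unfold G
    rw [Fin.sum_univ_four, hu0, hu1, hu2, hu3, hf]
    unfold n13q
    ring
  have hf0 : f ≠ 0 := by
    intro h0
    rw [h0, mul_zero] at hGf
    exact hG hGf
  have hfL : f ∈ c.L := by
    have : f = κ⁻¹ * c.G := by rw [hGf]; field_simp
    rw [mem_L_iff, hf, n13q_D]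
    simp only [c.Wy, c.Wx]
    rw [c.n13_qD hq c.V2]
    unfold n13q
    ring
  have hEf : c.E f = (c.d + 1) * f := by
    rw [hf, n13q_D]
    simp only [c.Ey, c.Ex]
    unfold n13q
    ring
  obtain ⟨-, -, δ, hδ, hδL, hδδ⟩ := c.n13_dir hq h.dir
  obtain ⟨-, -, δ', hδ', hδL', hδδ'⟩ := c.n13_dir hq h.dir'
  have hδτ : δ τ = 0 := by
    rw [hτ, div_eq_mul_inv, Derivation.leibniz, Derivation.leibniz_inv, hδ, hδ, hb1, hy1]
    simp only [smul_eq_mul]
    field_simp
    ring
  have hδs : δ s = (b 2 - s * b 0) / c.y 0 := by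
    rw [hs, div_eq_mul_inv, Derivation.leibniz, Derivation.leibniz_inv, hδ, hδ]
    simp only [smul_eq_mul]
    field_simp
    ring
  have hδs' : δ' s = 0 := by
    rw [hs, div_eq_mul_inv, Derivation.leibniz, Derivation.leibniz_inv, hδ', hδ', hb2', hy2]
    simp only [smul_eq_mul]
    field_simp
    ring
  have hδτ' : δ' τ = (b' 1 - τ * b' 0) / c.y 0 := by
    rw [hτ, div_eq_mul_inv, Derivation.leibniz, Derivation.leibniz_inv, hδ', hδ']
    simp only [smul_eq_mul]
    field_simp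
    ring
  have hδδf : δ (δ f) = 0 := hδδ fun i =>
    der_acl_zero δ (S := {τ}) (by rintro _ rfl; exact hδτ) _ (hbacl i)
  have hδδf' : δ' (δ' f) = 0 := hδδ' fun i =>
    der_acl_zero δ' (S := {s}) (by rintro _ rfl; exact hδs') _ (hbacl' i)
  obtain ⟨m0, hm0, m1, hm1, he1⟩ := c.n13_T hind1 (c.y_mem 0) hτL hsL hEy0 hEτ hEs hδL (hδ 0)
    hδτ hδs (hbacl 0) (hbacl 2) hbne hfL hEf hδδf
  obtain ⟨m0', hm0', m1', hm1', he2⟩ := c.n13_T hind2 (c.y_mem 0) hsL hτL hEy0 hEs hEτ hδL' (hδ' 0)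
    hδs' hδτ' (hbacl' 0) (hbacl' 1) hbne' hfL hEf hδδf'
  -- the bihomogeneous function
  set Φ : Ω := f ^ c.d / c.y 0 ^ (c.d + 1) with hΦ
  have hy0p : c.y 0 ^ (c.d + 1) ≠ 0 := pow_ne_zero _ hy0
  have hΦ1 : Φ = (-b 2 + b 0 * s) * (m0 + m1 * s) ^ c.d := by
    rw [hΦ, he1]; field_simp
  have hΦ2 : Φ = (-b' 1 + b' 0 * τ) * (m0' + m1' * τ) ^ c.d := by
    rw [hΦ, he2]; field_simp
  have hΦ0 : Φ ≠ 0 := div_ne_zero (pow_ne_zero _ hf0) hy0p
  have hΦf : f ^ c.d = c.y 0 ^ (c.d + 1) * Φ := by rw [hΦ]; field_simp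
  -- a transcendence basis
  have hx : c.x i0 ∉ acl k (Set.range ![c.y 0, τ, s]) := by
    intro hx
    apply h.dir.inf
    apply h.dir.place
    refine (c.L_eq_acl ![c.y 0, τ, s] hind1 ?_ _).2 hx
    intro i
    fin_cases i
    · exact c.y_mem 0
    · exact hτL
    · exact hsL
  have htb := isTB_of_algInd c.tb (algInd_cons hind1 hx)
  obtain ⟨D, hD, -, -, -, -⟩ := exists_dual htb
  have hDs : D 3 s = 1 := by
    have := hD 3 3
    simpa using this
  have hDτ3 : D 3 τ = 0 := by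
    have := hD 3 2
    simpa using this
  have hDτ : D 2 τ = 1 := by
    have := hD 2 2
    simpa using this
  have hDs2 : D 2 s = 0 := by
    have := hD 2 3
    simpa using this
  have hiter1 : (fun z => D 3 z)^[c.d + 2] Φ = 0 := by
    rw [hΦ1]
    exact n13_iter (D 3) hDs (der_acl_zero (D 3) (S := {τ}) (by rintro _ rfl; exact hDτ3))
      (neg_mem (hbacl 2)) (hbacl 0) hm0 hm1
  have hiter2 : (fun z => D 2 z)^[c.d + 2] Φ = 0 := by
    rw [hΦ2]
    exact n13_iter (D 2) hDτ (der_acl_zero (D 2) (S := {s}) (by rintro _ rfl; exact hDs2))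
      (neg_mem (hbacl' 1)) (hbacl' 0) hm0' hm1'
  have hΦacl : Φ ∈ acl k ({s, τ} : Set Ω) := by
    have hle : acl k ({τ} : Set Ω) ≤ acl k ({s, τ} : Set Ω) := acl_mono (by simp)
    have hsm : s ∈ acl k ({s, τ} : Set Ω) := subset_acl _ (by simp)
    rw [hΦ1]
    exact mul_mem (add_mem (neg_mem (hle (hbacl 2))) (mul_mem (hle (hbacl 0)) hsm))
      (pow_mem (add_mem (hle hm0) (mul_mem (hle hm1) hsm)) _)
  obtain ⟨a, ha⟩ := poly_lemma (s := (Fin.cons (c.x i0) ![c.y 0, τ, s] : Fin 4 → Ω)) htb hD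
    (i := 3) (j := 2) (by decide) (f := Φ) hΦacl (N := c.d + 2) hiter1 hiter2
  have ha' : Φ = ∑ p, ∑ q, algebraMap k Ω (a p q) * s ^ (p : ℕ) * τ ^ (q : ℕ) := ha
  obtain ⟨n, m, hnm, hn1, hn2⟩ := factor_lemma c.hd hindst a hΦ0 ha'
    ⟨neg_mem (hbacl 2), hbacl 0, hm0, hm1⟩ hΦ1
    ⟨neg_mem (hbacl' 1), hbacl' 0, hm0', hm1'⟩ hΦ2
  -- polynomial identity
  set Ψ : MvPolynomial (Fin 4) k := c.H 0 * X 3 + c.H 3 * X 0 - c.H 1 * X 2 - c.H 2 * X 1 with hΨ
  set N : MvPolynomial (Fin 4) k := ∑ i, C (n i) * c.H i with hN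
  set M : MvPolynomial (Fin 4) k := ∑ i, C (m i) * c.H i with hM
  have hΨx : aeval c.x Ψ = f := by
    rw [hΨ, hf]
    unfold n13q
    simp only [map_sub, map_add, map_mul, aeval_X, ← c.hy]
  have hNx : aeval c.x N = ∑ i, algebraMap k Ω (n i) * c.y i := by
    rw [hN]
    simp only [map_sum, map_mul, aeval_C, ← c.hy]
  have hMx : aeval c.x M = ∑ i, algebraMap k Ω (m i) * c.y i := by
    rw [hM]
    simp only [map_sum, map_mul, aeval_C, ← c.hy]
  have hsumy : ∀ e : Fin 4 → k, ∑ i, algebraMap k Ω (e i) * c.y i =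
      c.y 0 * (algebraMap k Ω (e 0) + algebraMap k Ω (e 1) * τ + algebraMap k Ω (e 2) * s
            + algebraMap k Ω (e 3) * s * τ) := by
    intro e
    rw [Fin.sum_univ_four, hy1, hy2, hy3]
    ring
  have hpoly : Ψ ^ c.d = N * M ^ c.d := by
    apply c.tb.1
    rw [map_pow, map_mul, map_pow, hΨx, hNx, hMx, hsumy, hsumy, hΦf, hnm, mul_pow (c.y 0)]
    ring
  have hΨ0 : Ψ ≠ 0 := by
    intro h0
    rw [h0, map_zero] at hΨx
    exact hf0 hΨx.symm
  have hN0 : N ≠ 0 := by
    intro h0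
    rw [h0, zero_mul] at hpoly
    exact hΨ0 (pow_eq_zero_iff (by omega) |>.1 hpoly)
  have hM0 : M ≠ 0 := by
    intro h0
    rw [h0, zero_pow (by omega), mul_zero] at hpoly
    exact hΨ0 (pow_eq_zero_iff (by omega) |>.1 hpoly)
  have hMdvd : M ∣ Ψ := by
    have h1 : M ^ c.d ∣ Ψ ^ c.d := ⟨N, by rw [hpoly]; ring⟩
    exact (IsIntegrallyClosed.pow_dvd_pow_iff (by omega)).1 h1
  obtain ⟨lam, hlam⟩ := hMdvd
  have hMhom : M.IsHomogeneous c.d :=
    IsHomogeneous.sum _ _ _ fun i _ => (c.nil.hom i).C_mul _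
  have hΨhom : Ψ.IsHomogeneous (c.d + 1) :=
    ((((c.nil.hom 0).mul (isHomogeneous_X k 3)).add ((c.nil.hom 3).mul (isHomogeneous_X k 0))).sub
      ((c.nil.hom 1).mul (isHomogeneous_X k 2))).sub ((c.nil.hom 2).mul (isHomogeneous_X k 1))
  obtain ⟨a1, a2, ha12, hMa, hlama⟩ := hom_of_mul (by rw [← hlam]; exact hΨhom)
    (by rw [← hlam]; exact hΨ0)
  have ha1 : a1 = c.d := hMa.inj_right hMhom hM0
  have ha2 : a2 = 1 := by omega
  subst ha2
  have hlamN : lam ^ c.d = N := by
    rw [hlam, mul_pow, mul_comm N] at hpoly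
    exact mul_left_cancel₀ (pow_ne_zero _ hM0) hpoly
  obtain ⟨e, he⟩ := n13_linear hlama
  have hlam0 : lam ≠ 0 := by
    rintro rfl
    rw [mul_zero] at hlam
    exact hΨ0 hlam
  have hlamL : aeval c.x lam ∈ c.L := by
    refine mem_acl_of_pow (m := c.d) (by omega) ?_
    rw [← map_pow, hlamN, hNx]
    exact sum_mem fun i _ => mul_mem (c.L.algebraMap_mem _) (c.y_mem i)
  have hlb := c.form_dir h.dir one_ne_zero hlama hlamL
  have hlb' := c.form_dir h.dir' one_ne_zero hlama hlamL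
  rw [he] at hlb hlb'
  simp only [map_add, map_mul, aeval_C, aeval_X, Fin.sum_univ_four] at hlb hlb'
  rw [hb1, hb3] at hlb
  rw [hb2', hb3'] at hlb'
  -- all minors vanish
  set A := algebraMap k Ω with hA
  have hdet1 : (A (n 0) + A (n 1) * τ) * (A (e 2) + A (e 3) * τ) -
      (A (n 2) + A (n 3) * τ) * (A (e 0) + A (e 1) * τ) = 0 := by
    have g1 : (A (n 0) + A (n 1) * τ) * b 0 + (A (n 2) + A (n 3) * τ) * b 2 = 0 := by
      linear_combination hn1
    have g2 : (A (e 0) + A (e 1) * τ) * b 0 + (A (e 2) + A (e 3) * τ) * b 2 = 0 := by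
      linear_combination hlb
    rcases hbne with hb | hb
    · refine (mul_eq_zero.1 (?_ : _ * b 0 = 0)).resolve_right hb
      linear_combination (A (e 2) + A (e 3) * τ) * g1 - (A (n 2) + A (n 3) * τ) * g2
    · refine (mul_eq_zero.1 (?_ : _ * b 2 = 0)).resolve_right hb
      linear_combination (A (n 0) + A (n 1) * τ) * g2 - (A (e 0) + A (e 1) * τ) * g1
  have hdet2 : (A (n 0) + A (n 2) * s) * (A (e 1) + A (e 3) * s) -
      (A (n 1) + A (n 3) * s) * (A (e 0) + A (e 2) * s) = 0 := by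
    have g1 : (A (n 0) + A (n 2) * s) * b' 0 + (A (n 1) + A (n 3) * s) * b' 1 = 0 := by
      linear_combination hn2
    have g2 : (A (e 0) + A (e 2) * s) * b' 0 + (A (e 1) + A (e 3) * s) * b' 1 = 0 := by
      linear_combination hlb'
    rcases hbne' with hb | hb
    · refine (mul_eq_zero.1 (?_ : _ * b' 0 = 0)).resolve_right hb
      linear_combination (A (e 1) + A (e 3) * s) * g1 - (A (n 1) + A (n 3) * s) * g2
    · refine (mul_eq_zero.1 (?_ : _ * b' 1 = 0)).resolve_right hb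
      linear_combination (A (n 0) + A (n 2) * s) * g2 - (A (e 0) + A (e 2) * s) * g1
  obtain ⟨r1, r2, r3⟩ := n13_coeff hτtr (a := n 0 * e 2 - n 2 * e 0)
    (b := n 0 * e 3 + n 1 * e 2 - n 2 * e 1 - n 3 * e 0) (c := n 1 * e 3 - n 3 * e 1) (by
      simp only [map_sub, map_add, map_mul, ← hA]
      linear_combination hdet1)
  obtain ⟨t1, t2, t3⟩ := n13_coeff hstr (a := n 0 * e 1 - n 1 * e 0)
    (b := n 0 * e 3 + n 2 * e 1 - n 1 * e 2 - n 3 * e 0) (c := n 2 * e 3 - n 3 * e 2) (by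
      simp only [map_sub, map_add, map_mul, ← hA]
      linear_combination hdet2)
  have h2k : (2 : k) ≠ 0 := two_ne_zero
  have r4 : n 0 * e 3 - n 3 * e 0 = 0 := by
    apply mul_left_cancel₀ h2k
    linear_combination r2 + t2
  have r5 : n 1 * e 2 - n 2 * e 1 = 0 := by linear_combination r2 - r4
  have hmin : ∀ i j, n i * e j = n j * e i := by
    intro i j
    fin_cases i <;> fin_cases j <;> simp only [Fin.zero_eta, Fin.mk_one, Fin.reduceFinMk]
    · linear_combination t1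
    · linear_combination r1
    · linear_combination r4
    · linear_combination -t1
    · linear_combination r5
    · linear_combination r3
    · linear_combination -r1
    · linear_combination -r5
    · linear_combination t3
    · linear_combination -r4
    · linear_combination -r3
    · linear_combination -t3
  have hn0 : ∃ i, n i ≠ 0 := by
    by_contra hcon
    push Not at hcon
    apply hN0
    rw [hN]
    simp [hcon]
  obtain ⟨i, hi⟩ := hn0
  have he0 : e ≠ 0 := by
    rintro rfl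
    apply hlam0
    rw [he]
    simp
  have hei : e i ≠ 0 := by
    intro h0
    apply he0
    funext j
    have := hmin i j
    rw [h0, mul_zero] at this
    exact (mul_eq_zero.1 this).resolve_left hi
  refine no_power_lf (by omega : c.d ≠ 0) c.nil he0 (a := e i / n i) (div_ne_zero hei hi) ?_
  rw [← he, hlamN, hN, Finset.mul_sum]
  refine Finset.sum_congr rfl fun j _ => ?_
  rw [← mul_assoc, ← C_mul]
  congr 2
  have := hmin i j
  field_simp
  linear_combination this

/-- an isotropic direction orthogonal to `y` lies on one of the two rulings -/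
theorem n13_type (hq : c.y 0 * c.y 3 = c.y 1 * c.y 2) {b : Fin 4 → Ω} (h1 : n13q c.y b = 0)
    (h2 : b 0 * b 3 = b 1 * b 2) :
    (b 1 = c.y 1 / c.y 0 * b 0 ∧ b 3 = c.y 1 / c.y 0 * b 2) ∨
    (b 2 = c.y 2 / c.y 0 * b 0 ∧ b 3 = c.y 2 / c.y 0 * b 1) := by
  have hy0 := c.n13_y0
  set τ : Ω := c.y 1 / c.y 0 with hτ
  set s : Ω := c.y 2 / c.y 0 with hs
  have hy1 : c.y 1 = c.y 0 * τ := by rw [hτ]; field_simp
  have hy2 : c.y 2 = c.y 0 * s := by rw [hs]; field_simp
  have hy3 : c.y 3 = c.y 0 * (s * τ) := by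
    apply mul_left_cancel₀ hy0
    rw [hq, hy1, hy2]; ring
  have h3 : b 3 + s * τ * b 0 - τ * b 2 - s * b 1 = 0 := by
    apply mul_left_cancel₀ hy0
    unfold n13q at h1
    rw [hy1, hy2, hy3] at h1
    linear_combination h1
  have h4 : (b 1 - τ * b 0) * (b 2 - s * b 0) = 0 := by
    linear_combination b 0 * h3 - h2
  rcases mul_eq_zero.1 h4 with h5 | h5
  · left
    refine ⟨by linear_combination h5, ?_⟩
    linear_combination h3 + s * h5
  · right
    refine ⟨by linear_combination h5, ?_⟩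
    linear_combination h3 + τ * h5

/-! ## N13: quadric, `G ≠ 0` -/
theorem quad1_false {V V' : ValuationSubring Ω} {b b' : Fin 4 → Ω} {i0 i1 : Fin 4}
    (h : c.Quad V V' b b' i0 i1) (hG : c.G ≠ 0) : False := by
  obtain ⟨h1, h2, -⟩ := c.n13_dir h.q h.dir
  obtain ⟨h1', h2', -⟩ := c.n13_dir h.q h.dir'
  rcases c.n13_type h.q h1 h2 with ⟨e1, e2⟩ | ⟨e1, e2⟩
  · rcases c.n13_type h.q h1' h2' with ⟨e3, e4⟩ | ⟨e3, e4⟩
    · apply h.nb
      rw [e1, e2, e3, e4]
      ring
    · exact c.n13_core h hG e1 e2 e3 e4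
  · rcases c.n13_type h.q h1' h2' with ⟨e3, e4⟩ | ⟨e3, e4⟩
    · have hsw : c.Quad V' V b' b i1 i0 :=
        ⟨h.q, h.dir', h.dir, h.one', h.one, by
          intro h0
          apply h.nb
          linear_combination h0⟩
      exact c.n13_core hsw hG e3 e4 e1 e2
    · apply h.nb
      rw [e1, e2, e3, e4]
      ring

end Ctx3
end Pool.Agent.HDP
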