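import Mathlib
import Pool.Agent.Lib.MP_20906e_al.B2b
import Pool.Agent.Lib.MP_20906e_al.B5
import Pool.Agent.Lib.MP_20906e_al.Setup
import Pool.Agent.Lib.MP_20906e_al.Lin
import Pool.Agent.Lib.MP_20906e_al.CP
import Pool.Agent.Lib.MP_20906e_al.TI
import Pool.Agent.Lib.MP_20906e_al.R4

/-!
# MP_20906e_al, piece N3 : line fibres are impossible (helper8)
-/

set_option linter.unusedSectionVars false

namespace Pool.Agent.HDP
open MvPolynomial Matrix


section Alg
variable {R : Type*} [CommRing R]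

private theorem alg_r {P Q P2 P3 Q2 Q3 x2 x3 e J a20 a21 a30 a31 : R}
    (j2 : e * (P2 * Q - Q2 * P) = x3 * J) (j3 : e * (P3 * Q - Q3 * P) = - x2 * J)
    (b2 : P * a20 + Q * a21 = 0) (b3 : P * a30 + Q * a31 = 0)
    (t : P2 * a20 + Q2 * a21 + (P3 * a30 + Q3 * a31) = 0) : J * (x3 * a20 - x2 * a30) = 0 := by
  linear_combination (-a20) * j2 - a30 * j3 + e * Q * t - e * Q2 * b2 - e * Q3 * b3

private theorem alg_main {x0 x1 x2 x3 d h2 h3 a00 a10 a20 a21 a22 a23 a30 a31 a32 a33 : R}
    (r1 : x3 * a20 = x2 * a30) (r1' : x3 * a21 = x2 * a31)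
    (r2 : x3 * (a20 * a00 + a21 * a10 + a22 * a20 + a23 * a30) =
      x2 * (a30 * a00 + a31 * a10 + a32 * a20 + a33 * a30))
    (e2 : x0 * a20 + x1 * a21 + x2 * a22 + x3 * a23 = d * h2)
    (e3 : x0 * a30 + x1 * a31 + x2 * a32 + x3 * a33 = d * h3) :
    d * (a20 * (x3 * h2 - x2 * h3)) = 0 := by
  linear_combination x2 * r2 - a20 * x3 * e2 + a20 * x2 * e3
    + (- x2 * a00 + x0 * a20 + x3 * a23 - x2 * a33) * r1 + (- x2 * a10 + x1 * a20) * r1'

end Alg

section LfEnd
variable {k : Type*} [Field k] [CharZero k]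

omit [CharZero k] in
private theorem n3_pderiv_comm {σ : Type*} (i j : σ) (F : MvPolynomial σ k) :
    pderiv j (pderiv i F) = pderiv i (pderiv j F) := by
  classical
  induction F using MvPolynomial.induction_on with
  | C a => simp
  | add p q hp hq => simp [hp, hq]
  | mul_X p l hp =>
    simp only [Derivation.leibniz, smul_eq_mul, map_add, pderiv_X, hp]
    have h1 : ∀ a b : σ, pderiv a ((Pi.single b 1 : σ → MvPolynomial σ k) l) = 0 := by
      intro a b
      by_cases h : l = b
      · subst h; simp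
      · simp [Pi.single_eq_of_ne h]
    rw [h1, h1]
    ring

omit [CharZero k] in
theorem pderiv_zero_of_dvd {n : ℕ} {F : MvPolynomial (Fin n) k} {m : ℕ} (hF : F.IsHomogeneous m)
    (hF0 : F ≠ 0) (hm : m ≠ 0) (i : Fin n) (h : F ∣ pderiv i F) : pderiv i F = 0 := by
  by_contra hne
  obtain ⟨Q, hQ⟩ := h
  have hQ0 : Q ≠ 0 := by
    rintro rfl
    exact hne (by rw [hQ, mul_zero])
  have h2 : (pderiv i F).totalDegree = F.totalDegree + Q.totalDegree := by
    rw [hQ]
    exact totalDegree_mul_of_isDomain hF0 hQ0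
  have h3 : (pderiv i F).totalDegree = m - 1 := (hF.pderiv).totalDegree hne
  have h4 : F.totalDegree = m := hF.totalDegree hF0
  omega

/-- two forms of the same degree with proportional gradients are proportional -/
theorem prop_of_wronskian {n d : ℕ} {F G : MvPolynomial (Fin n) k} (hF : F.IsHomogeneous d)
    (hG : G.IsHomogeneous d) (hF0 : F ≠ 0) (hG0 : G ≠ 0)
    (h : ∀ i, pderiv i F * G = F * pderiv i G) :
    ∃ α β : k, α ≠ 0 ∧ C β * F = C α * G := by
  obtain ⟨a, b, g, hrel, hFa, hGb⟩ := UniqueFactorizationMonoid.exists_reduced_factors F hF0 G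
  subst hFa hGb
  obtain ⟨m1, m2, hm, hg1, ha⟩ := hom_of_mul hF hF0
  obtain ⟨m3, m4, hm', hg3, hb⟩ := hom_of_mul hG hG0
  have hg0 : g ≠ 0 := left_ne_zero_of_mul hF0
  have ha0 : a ≠ 0 := right_ne_zero_of_mul hF0
  have hb0 : b ≠ 0 := right_ne_zero_of_mul hG0
  have h13 : m1 = m3 := hg1.inj_right hg3 hg0
  have hm24 : m4 = m2 := by omega
  subst hm24
  have key : ∀ i, pderiv i a * b = a * pderiv i b := by
    intro i
    have h1 := h i
    rw [pderiv_mul, pderiv_mul] at h1
    have h2 : g ^ 2 * (pderiv i a * b - a * pderiv i b) = 0 := by linear_combination h1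
    exact sub_eq_zero.1 ((mul_eq_zero.1 h2).resolve_left (pow_ne_zero _ hg0))
  have hm4 : m4 = 0 := by
    by_contra hm4
    have ha1 : ∀ i, pderiv i a = 0 := by
      intro i
      apply pderiv_zero_of_dvd ha ha0 hm4
      have : a ∣ pderiv i a * b := ⟨_, key i⟩
      exact hrel.dvd_of_dvd_mul_right this
    have h2 := ha.sum_X_mul_pderiv
    simp only [ha1, mul_zero, Finset.sum_const_zero] at h2
    have h3 : (m4 : MvPolynomial (Fin n) k) * a = 0 := by
      rw [← nsmul_eq_mul]
      exact h2.symm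
    rcases mul_eq_zero.1 h3 with h4 | h4
    · rw [Nat.cast_eq_zero] at h4
      exact hm4 h4
    · exact ha0 h4
  subst hm4
  have h1 := totalDegree_eq_zero_iff_eq_C.1 (Nat.le_zero.1 ha.totalDegree_le)
  have h2 := totalDegree_eq_zero_iff_eq_C.1 (Nat.le_zero.1 hb.totalDegree_le)
  refine ⟨coeff 0 a, coeff 0 b, ?_, ?_⟩
  · intro h0
    apply ha0
    rw [h1, h0, C_0]
  · rw [← h1, ← h2]; ring

/-- the end of the line fibre case -/
theorem lf_end {d : ℕ} (hd : 2 ≤ d) {H : Fin 4 → MvPolynomial (Fin 4) k} (nil : Nil k 4 d H)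
    (ind : LinearIndependent k H) {P Q : MvPolynomial (Fin 4) k} (hPQ : IsRelPrime P Q) {e : ℕ}
    (he : e ≠ 0) (hP : P.IsHomogeneous e) (hQ : Q.IsHomogeneous e) (hP0 : pderiv 0 P = 0)
    (hP1 : pderiv 1 P = 0) (hQ0 : pderiv 0 Q = 0) (hQ1 : pderiv 1 Q = 0)
    (hH : ∀ i, P * pderiv 0 (H i) + Q * pderiv 1 (H i) = 0) : False := by
  classical
  have hnd : (d : MvPolynomial (Fin 4) k) ≠ 0 := by
    rw [Ne, Nat.cast_eq_zero]; omega
  have hne : (e : MvPolynomial (Fin 4) k) ≠ 0 := by
    rwa [Ne, Nat.cast_eq_zero]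
  have hdeg0 : ∀ F : MvPolynomial (Fin 4) k, F.IsHomogeneous e → IsUnit F → False := by
    intro F hF hu
    have h1 : F.totalDegree = e := hF.totalDegree hu.ne_zero
    obtain ⟨G, hG⟩ := hu.exists_right_inv
    have hG0 : G ≠ 0 := by rintro rfl; simp at hG
    have h2 := totalDegree_mul_of_isDomain hu.ne_zero hG0
    rw [hG, totalDegree_one] at h2
    omega
  have hPne : P ≠ 0 := by
    rintro rfl
    exact hdeg0 Q hQ (hPQ (dvd_zero _) dvd_rfl)
  have hQne : Q ≠ 0 := by
    rintro rfl
    exact hdeg0 P hP (hPQ dvd_rfl (dvd_zero _))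
  -- Euler
  have eP : X 2 * pderiv 2 P + X 3 * pderiv 3 P = (e : MvPolynomial (Fin 4) k) * P := by
    have h := hP.sum_X_mul_pderiv
    rw [Fin.sum_univ_four, hP0, hP1, nsmul_eq_mul] at h
    linear_combination h
  have eQ : X 2 * pderiv 2 Q + X 3 * pderiv 3 Q = (e : MvPolynomial (Fin 4) k) * Q := by
    have h := hQ.sum_X_mul_pderiv
    rw [Fin.sum_univ_four, hQ0, hQ1, nsmul_eq_mul] at h
    linear_combination h
  set J : MvPolynomial (Fin 4) k := pderiv 2 P * pderiv 3 Q - pderiv 3 P * pderiv 2 Q with hJ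
  have j2 : (e : MvPolynomial (Fin 4) k) * (pderiv 2 P * Q - pderiv 2 Q * P) = X 3 * J := by
    linear_combination pderiv 2 Q * eP - pderiv 2 P * eQ + X 3 * hJ
  have j3 : (e : MvPolynomial (Fin 4) k) * (pderiv 3 P * Q - pderiv 3 Q * P) = - X 2 * J := by
    linear_combination pderiv 3 Q * eP - pderiv 3 P * eQ - X 2 * hJ
  have hJ0 : J ≠ 0 := by
    intro h0
    rw [h0, mul_zero] at j2 j3
    have k2 := sub_eq_zero.1 ((mul_eq_zero.1 j2).resolve_left hne)
    have k3 := sub_eq_zero.1 ((mul_eq_zero.1 j3).resolve_left hne)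
    have p2 : pderiv 2 P = 0 := pderiv_zero_of_dvd hP hPne he 2
      (hPQ.dvd_of_dvd_mul_right (y := pderiv 2 P) ⟨pderiv 2 Q, by rw [k2]; ring⟩)
    have p3 : pderiv 3 P = 0 := pderiv_zero_of_dvd hP hPne he 3
      (hPQ.dvd_of_dvd_mul_right (y := pderiv 3 P) ⟨pderiv 3 Q, by rw [k3]; ring⟩)
    rw [p2, p3, mul_zero, mul_zero, add_zero] at eP
    rcases mul_eq_zero.1 eP.symm with h | h
    · exact hne h
    · exact hPne h
  -- the derivation
  have hcomm : ∀ i j, P * pderiv 0 (pderiv j (H i)) + Q * pderiv 1 (pderiv j (H i)) =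
      - (pderiv j P * pderiv 0 (H i) + pderiv j Q * pderiv 1 (H i)) := by
    intro i j
    have h := congrArg (pderiv j) (hH i)
    rw [map_add, pderiv_mul, pderiv_mul, map_zero] at h
    rw [n3_pderiv_comm j 0, n3_pderiv_comm j 1]
    linear_combination h
  have hnil := nil.nilp
  have htr : (jac H).trace = 0 := (Matrix.isNilpotent_trace_of_isNilpotent hnil).eq_zero
  have htr2 : (jac H * jac H).trace = 0 := by
    have : IsNilpotent (jac H * jac H) := by
      obtain ⟨m, hm⟩ := hnil
      refine ⟨m, ?_⟩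
      rw [← pow_two, ← pow_mul, mul_comm, pow_mul, hm]
      rcases Nat.eq_zero_or_pos m with h | h
      · subst h
        simp at hm
      · simp
    exact (Matrix.isNilpotent_trace_of_isNilpotent this).eq_zero
  have t1 : pderiv 2 P * pderiv 0 (H 2) + pderiv 2 Q * pderiv 1 (H 2) +
      (pderiv 3 P * pderiv 0 (H 3) + pderiv 3 Q * pderiv 1 (H 3)) = 0 := by
    have h0 := congrArg (pderiv 0) htr
    have h1 := congrArg (pderiv 1) htr
    simp only [Matrix.trace, Matrix.diag, jac, Matrix.of_apply, Fin.sum_univ_four, map_add,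
      map_zero] at h0 h1
    have a0 := hcomm 0 0
    have a1 := hcomm 1 1
    have a2 := hcomm 2 2
    have a3 := hcomm 3 3
    rw [hP0, hQ0] at a0
    rw [hP1, hQ1] at a1
    linear_combination (-P) * h0 - Q * h1 + a0 + a1 + a2 + a3
  have r1 : X 3 * pderiv 0 (H 2) = X 2 * pderiv 0 (H 3) := by
    have h : J * (X 3 * pderiv 0 (H 2) - X 2 * pderiv 0 (H 3)) = 0 :=
      alg_r j2 j3 (hH 2) (hH 3) t1
    exact sub_eq_zero.1 ((mul_eq_zero.1 h).resolve_left hJ0)
  have r1' : X 3 * pderiv 1 (H 2) = X 2 * pderiv 1 (H 3) := by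
    have h : Q * (X 3 * pderiv 1 (H 2) - X 2 * pderiv 1 (H 3)) = 0 := by
      linear_combination X 3 * hH 2 - X 2 * hH 3 - P * r1
    exact sub_eq_zero.1 ((mul_eq_zero.1 h).resolve_left hQne)
  have t2 : ∑ i, ∑ j, pderiv j (H i) *
      (pderiv i P * pderiv 0 (H j) + pderiv i Q * pderiv 1 (H j)) = 0 := by
    have hs : ∑ i, ∑ j, pderiv j (H i) * pderiv i (H j) = 0 := by
      have h := htr2
      simp only [Matrix.trace, Matrix.diag, Matrix.mul_apply, jac, Matrix.of_apply] at h
      exact h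
    have h0 := congrArg (pderiv 0) hs
    have h1 := congrArg (pderiv 1) hs
    simp only [map_sum, map_zero, pderiv_mul] at h0 h1
    have hsym : ∀ a : Fin 4, ∑ i, ∑ j, (pderiv a (pderiv j (H i)) * pderiv i (H j) +
        pderiv j (H i) * pderiv a (pderiv i (H j))) =
        2 * ∑ i, ∑ j, pderiv j (H i) * pderiv a (pderiv i (H j)) := by
      intro a
      simp only [Finset.sum_add_distrib]
      rw [two_mul]
      have hx : ∑ i, ∑ j, pderiv a (pderiv j (H i)) * pderiv i (H j) =
          ∑ i, ∑ j, pderiv j (H i) * pderiv a (pderiv i (H j)) := by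
        rw [Finset.sum_comm]
        exact Finset.sum_congr rfl fun i _ => Finset.sum_congr rfl fun j _ => mul_comm _ _
      rw [hx]
    rw [hsym] at h0 h1
    have h0' := (mul_eq_zero.1 h0).resolve_left two_ne_zero
    have h1' := (mul_eq_zero.1 h1).resolve_left two_ne_zero
    have h2 : ∑ i, ∑ j, pderiv j (H i) *
      (pderiv i P * pderiv 0 (H j) + pderiv i Q * pderiv 1 (H j)) =
      - (P * ∑ i, ∑ j, pderiv j (H i) * pderiv 0 (pderiv i (H j)) +
        Q * ∑ i, ∑ j, pderiv j (H i) * pderiv 1 (pderiv i (H j))) := by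
      rw [Finset.mul_sum, Finset.mul_sum, ← Finset.sum_add_distrib, ← Finset.sum_neg_distrib]
      refine Finset.sum_congr rfl fun i _ => ?_
      rw [Finset.mul_sum, Finset.mul_sum, ← Finset.sum_add_distrib, ← Finset.sum_neg_distrib]
      refine Finset.sum_congr rfl fun j _ => ?_
      linear_combination (pderiv j (H i)) * hcomm j i
    rw [h2, h0', h1', mul_zero, mul_zero, add_zero, neg_zero]
  obtain ⟨S, hS⟩ : ∃ S : Fin 4 → MvPolynomial (Fin 4) k,
      S = fun i => ∑ j, pderiv j (H i) * pderiv 0 (H j) := ⟨_, rfl⟩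
  obtain ⟨S', hS'⟩ : ∃ S : Fin 4 → MvPolynomial (Fin 4) k,
      S = fun i => ∑ j, pderiv j (H i) * pderiv 1 (H j) := ⟨_, rfl⟩
  have hSS : ∀ i, P * S i + Q * S' i = 0 := by
    intro i
    simp only [hS, hS']
    rw [Finset.mul_sum, Finset.mul_sum, ← Finset.sum_add_distrib]
    refine Finset.sum_eq_zero fun j _ => ?_
    linear_combination pderiv j (H i) * hH j
  have t2' : pderiv 2 P * S 2 + pderiv 2 Q * S' 2 + (pderiv 3 P * S 3 + pderiv 3 Q * S' 3) = 0 := by
    have h : ∑ i, ∑ j, pderiv j (H i) *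
        (pderiv i P * pderiv 0 (H j) + pderiv i Q * pderiv 1 (H j)) =
        ∑ i, (pderiv i P * S i + pderiv i Q * S' i) := by
      refine Finset.sum_congr rfl fun i _ => ?_
      simp only [hS, hS']
      rw [Finset.mul_sum, Finset.mul_sum, ← Finset.sum_add_distrib]
      refine Finset.sum_congr rfl fun j _ => ?_
      ring
    rw [h, Fin.sum_univ_four, hP0, hP1, hQ0, hQ1] at t2
    linear_combination t2
  have r2 : X 3 * S 2 = X 2 * S 3 := by
    have h : J * (X 3 * S 2 - X 2 * S 3) = 0 := alg_r j2 j3 (hSS 2) (hSS 3) t2'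
    exact sub_eq_zero.1 ((mul_eq_zero.1 h).resolve_left hJ0)
  have e2 : X 0 * pderiv 0 (H 2) + X 1 * pderiv 1 (H 2) + X 2 * pderiv 2 (H 2) +
      X 3 * pderiv 3 (H 2) = (d : MvPolynomial (Fin 4) k) * H 2 := by
    have h := (nil.hom 2).sum_X_mul_pderiv
    rwa [Fin.sum_univ_four, nsmul_eq_mul] at h
  have e3 : X 0 * pderiv 0 (H 3) + X 1 * pderiv 1 (H 3) + X 2 * pderiv 2 (H 3) +
      X 3 * pderiv 3 (H 3) = (d : MvPolynomial (Fin 4) k) * H 3 := by
    have h := (nil.hom 3).sum_X_mul_pderiv
    rwa [Fin.sum_univ_four, nsmul_eq_mul] at h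
  have hX2 : (X 2 : MvPolynomial (Fin 4) k) ≠ 0 := X_ne_zero 2
  have hX3 : (X 3 : MvPolynomial (Fin 4) k) ≠ 0 := X_ne_zero 3
  have main : pderiv 0 (H 2) * (X 3 * H 2 - X 2 * H 3) = 0 := by
    have h : (d : MvPolynomial (Fin 4) k) * (pderiv 0 (H 2) * (X 3 * H 2 - X 2 * H 3)) = 0 := by
      simp only [hS, Fin.sum_univ_four] at r2
      exact alg_main r1 r1' r2 e2 e3
    exact (mul_eq_zero.1 h).resolve_left hnd
  rcases mul_eq_zero.1 main with h20 | hF
  · -- block triangular case
    have h30 : pderiv 0 (H 3) = 0 := by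
      rw [h20, mul_zero] at r1
      exact (mul_eq_zero.1 r1.symm).resolve_left hX2
    have h21 : pderiv 1 (H 2) = 0 := by
      have h := hH 2
      rw [h20, mul_zero, zero_add] at h
      exact (mul_eq_zero.1 h).resolve_left hQne
    have h31 : pderiv 1 (H 3) = 0 := by
      have h := hH 3
      rw [h30, mul_zero, zero_add] at h
      exact (mul_eq_zero.1 h).resolve_left hQne
    let em : Fin 2 → Fin 4 := ![2, 3]
    let B : Matrix (Fin 2) (Fin 2) (MvPolynomial (Fin 4) k) := fun a b => jac H (em a) (em b)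
    have hpow : ∀ m : ℕ, ∀ a b, (jac H ^ m) (em a) (em b) = (B ^ m) a b := by
      intro m
      induction m with
      | zero =>
        intro a b
        fin_cases a <;> fin_cases b <;> simp [em]
      | succ m ih =>
        intro a b
        rw [pow_succ', pow_succ', Matrix.mul_apply, Matrix.mul_apply, Fin.sum_univ_four,
          Fin.sum_univ_two]
        have i0 : jac H (em a) 0 = 0 := by
          fin_cases a
          · exact h20
          · exact h30
        have i1 : jac H (em a) 1 = 0 := by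
          fin_cases a
          · exact h21
          · exact h31
        rw [i0, i1, ← ih 0 b, ← ih 1 b]
        simp only [B, em, Matrix.cons_val_zero, Matrix.cons_val_one]
        ring
    have hB : IsNilpotent B := by
      obtain ⟨m, hm⟩ := hnil
      refine ⟨m, ?_⟩
      ext1 a b
      rw [← hpow, hm]
      rfl
    have hdet : pderiv 2 (H 2) * pderiv 3 (H 3) - pderiv 3 (H 2) * pderiv 2 (H 3) = 0 := by
      obtain ⟨m, hm⟩ := hB
      have h1 : B.det ^ (m + 1) = 0 := by
        rw [← Matrix.det_pow, pow_succ, hm, zero_mul]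
        exact Matrix.det_zero
      have h2 : B.det = 0 := pow_eq_zero_iff (Nat.succ_ne_zero m) |>.mp h1
      rw [Matrix.det_fin_two] at h2
      exact h2
    rw [h20, h21] at e2
    rw [h30, h31] at e3
    have w2 : pderiv 2 (H 2) * H 3 = H 2 * pderiv 2 (H 3) := by
      have h : (d : MvPolynomial (Fin 4) k) * (pderiv 2 (H 2) * H 3 - H 2 * pderiv 2 (H 3)) = 0 := by
        linear_combination (-pderiv 2 (H 2)) * e3 + pderiv 2 (H 3) * e2 + X 3 * hdet
      exact sub_eq_zero.1 ((mul_eq_zero.1 h).resolve_left hnd)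
    have w3 : pderiv 3 (H 2) * H 3 = H 2 * pderiv 3 (H 3) := by
      have h : (d : MvPolynomial (Fin 4) k) * (pderiv 3 (H 2) * H 3 - H 2 * pderiv 3 (H 3)) = 0 := by
        linear_combination (-pderiv 3 (H 2)) * e3 + pderiv 3 (H 3) * e2 - X 2 * hdet
      exact sub_eq_zero.1 ((mul_eq_zero.1 h).resolve_left hnd)
    obtain ⟨α, β, hα, hαβ⟩ := prop_of_wronskian (nil.hom 2) (nil.hom 3) (ind.ne_zero 2)
      (ind.ne_zero 3) (by
        intro i
        fin_cases i
        · change pderiv 0 (H 2) * H 3 = H 2 * pderiv 0 (H 3)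
          rw [h20, h30]; ring
        · change pderiv 1 (H 2) * H 3 = H 2 * pderiv 1 (H 3)
          rw [h21, h31]; ring
        · exact w2
        · exact w3)
    have h1 := Fintype.linearIndependent_iff.1 ind ![0, 0, β, -α] (by
      rw [Fin.sum_univ_four]
      simp only [Matrix.cons_val_zero, Matrix.cons_val_one, Matrix.cons_val, zero_smul, zero_add,
        smul_eq_C_mul, map_neg]
      linear_combination hαβ) 3
    simp only [Matrix.cons_val] at h1
    exact hα (neg_eq_zero.1 h1)
  · -- eigenvector case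
    have hF' : X 3 * H 2 = X 2 * H 3 := sub_eq_zero.1 hF
    have hdvd : (X 2 : MvPolynomial (Fin 4) k) ∣ H 2 := by
      have hpr : Prime (X 2 : MvPolynomial (Fin 4) k) := X_prime
      rcases hpr.dvd_or_dvd (⟨H 3, hF'⟩ : (X 2 : MvPolynomial (Fin 4) k) ∣ X 3 * H 2) with h | h
      · exfalso
        rw [X_dvd_X] at h
        exact absurd h (by decide)
      · exact h
    obtain ⟨h, hh⟩ := hdvd
    have hh3 : H 3 = X 3 * h := by
      rw [hh] at hF'
      have : X 2 * (H 3 - X 3 * h) = 0 := by linear_combination (-1 : MvPolynomial (Fin 4) k) * hF'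
      exact sub_eq_zero.1 ((mul_eq_zero.1 this).resolve_left hX2)
    let ρ : Fin 4 → MvPolynomial (Fin 4) k := ![0, 0, X 3, - X 2]
    have hρ : ρ ᵥ* jac H = h • ρ := by
      ext1 j
      simp only [Matrix.vecMul, dotProduct, Fin.sum_univ_four, ρ, jac, Matrix.of_apply,
        Matrix.cons_val_zero, Matrix.cons_val_one, Matrix.cons_val, Pi.smul_apply, smul_eq_mul]
      rw [hh3, hh, pderiv_mul, pderiv_mul]
      fin_cases j
      · simp; ring
      · simp; ring
      · simp; ring
      · simp; ring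
    have hρp : ∀ m : ℕ, ρ ᵥ* (jac H ^ m) = h ^ m • ρ := by
      intro m
      induction m with
      | zero => simp
      | succ m ih =>
        rw [pow_succ, ← Matrix.vecMul_vecMul, ih, Matrix.smul_vecMul, hρ, smul_smul, pow_succ]
    obtain ⟨m, hm⟩ := hnil
    have h1 := hρp m
    rw [hm, Matrix.vecMul_zero] at h1
    have h2 := congrFun h1 2
    simp only [ρ, Pi.zero_apply, Pi.smul_apply, smul_eq_mul, Matrix.cons_val] at h2
    have h3 : h ^ m = 0 := (mul_eq_zero.1 h2.symm).resolve_right hX3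
    have h4 : h = 0 := by
      by_contra hne0
      exact pow_ne_zero m hne0 h3
    apply ind.ne_zero 2
    rw [hh, h4, mul_zero]

end LfEnd


namespace Ctx3
variable {k Ω : Type*} [Field k] [IsAlgClosed k] [CharZero k] [Field Ω] [IsAlgClosed Ω] [Algebra k Ω]
  (c : Ctx3 k Ω) {b : Fin 4 → Ω} {i0 : Fin 4} {φ : Ω}

/-- base point of the line -/
noncomputable def ln (b : Fin 4 → Ω) (i0 : Fin 4) (i : Fin 4) : Ω := c.x i - c.x i0 * b i

theorem ln_mem (hbL : ∀ i, b i ∈ c.L) (hb1 : b i0 = 1) (hW : ∀ i, c.W (c.x i) = φ * b i)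
    (i : Fin 4) : c.ln b i0 i ∈ c.L := by
  rw [mem_L_iff, ln, map_sub, Derivation.leibniz, hW, hW, hb1, (c.mem_L_iff _).1 (hbL i)]
  simp only [smul_eq_mul]
  ring

theorem phi_ne (hW : ∀ i, c.W (c.x i) = φ * b i) : φ ≠ 0 := by
  rintro rfl
  apply c.not_algInd_four c.x _ c.tb.1
  intro i
  rw [mem_L_iff, hW, zero_mul]

/-- restriction of a polynomial to the line -/
noncomputable def pT (b : Fin 4 → Ω) (i0 : Fin 4) (F : MvPolynomial (Fin 4) k) : Polynomial Ω :=
  aeval (fun i => Polynomial.C (c.ln b i0 i) + Polynomial.X * Polynomial.C (b i)) F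

theorem pT_eval (F : MvPolynomial (Fin 4) k) (s : Ω) :
    (c.pT b i0 F).eval s = aeval (fun i => c.ln b i0 i + s * b i) F := by
  induction F using MvPolynomial.induction_on with
  | C a => simp [pT, Polynomial.algebraMap_apply]
  | add p q hp hq =>
    simp only [pT, map_add, Polynomial.eval_add] at hp hq ⊢
    rw [hp, hq]
  | mul_X p i hp =>
    simp only [pT, map_mul, Polynomial.eval_mul, aeval_X, Polynomial.eval_add, Polynomial.eval_C,
      Polynomial.eval_X] at hp ⊢
    rw [hp]

theorem pT_eval_x (F : MvPolynomial (Fin 4) k) :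
    (c.pT b i0 F).eval (c.x i0) = aeval c.x F := by
  rw [pT_eval]
  congr 2
  funext i
  rw [ln]; ring

theorem pT_coeff (hbL : ∀ i, b i ∈ c.L) (hb1 : b i0 = 1) (hW : ∀ i, c.W (c.x i) = φ * b i)
    (F : MvPolynomial (Fin 4) k) : ∀ n, (c.pT b i0 F).coeff n ∈ c.L := by
  induction F using MvPolynomial.induction_on with
  | C a =>
    intro n
    simp only [pT, aeval_C, Polynomial.algebraMap_apply, Polynomial.coeff_C]
    split_ifs
    · exact IntermediateField.algebraMap_mem _ _
    · exact zero_mem _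
  | add p q hp hq =>
    intro n
    simp only [pT, map_add, Polynomial.coeff_add] at hp hq ⊢
    exact add_mem (hp n) (hq n)
  | mul_X p i hp =>
    intro n
    simp only [pT, map_mul, aeval_X] at hp ⊢
    rw [mul_add, Polynomial.coeff_add, Polynomial.coeff_mul_C, ← mul_assoc, Polynomial.coeff_mul_C]
    refine add_mem (mul_mem (hp n) (c.ln_mem hbL hb1 hW i)) (mul_mem ?_ (hbL i))
    cases n with
    | zero => simp
    | succ n => rw [Polynomial.coeff_mul_X]; exact hp n

theorem x_notMem (hb1 : b i0 = 1) (hW : ∀ i, c.W (c.x i) = φ * b i) : c.x i0 ∉ c.L := by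
  rw [mem_L_iff, hW, hb1, mul_one]
  exact c.phi_ne hW

theorem poly_zero (hb1 : b i0 = 1) (hW : ∀ i, c.W (c.x i) = φ * b i) {p : Polynomial Ω}
    (hp : ∀ n, p.coeff n ∈ c.L) (hr : p.eval (c.x i0) = 0) : p = 0 := by
  by_contra h0
  exact c.x_notMem hb1 hW (mem_acl_of_root p h0 hp hr)

theorem pT_const (hbL : ∀ i, b i ∈ c.L) (hb1 : b i0 = 1) (hW : ∀ i, c.W (c.x i) = φ * b i)
    {F : MvPolynomial (Fin 4) k} (hF : aeval c.x F ∈ c.L) :
    c.pT b i0 F = Polynomial.C (aeval c.x F) := by
  rw [← sub_eq_zero]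
  apply c.poly_zero hb1 hW
  · intro n
    rw [Polynomial.coeff_sub, Polynomial.coeff_C]
    refine sub_mem (c.pT_coeff hbL hb1 hW F n) ?_
    split_ifs
    · exact hF
    · exact zero_mem _
  · rw [Polynomial.eval_sub, pT_eval_x, Polynomial.eval_C, sub_self]

/-- polynomials whose value is in `L` are constant along the line -/
theorem line_const (hbL : ∀ i, b i ∈ c.L) (hb1 : b i0 = 1) (hW : ∀ i, c.W (c.x i) = φ * b i)
    {F : MvPolynomial (Fin 4) k} (hF : aeval c.x F ∈ c.L) (s : Ω) :
    aeval (fun i => c.ln b i0 i + s * b i) F = aeval c.x F := by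
  rw [← pT_eval, c.pT_const hbL hb1 hW hF, Polynomial.eval_C]

theorem line_const' (hbL : ∀ i, b i ∈ c.L) (hb1 : b i0 = 1) (hW : ∀ i, c.W (c.x i) = φ * b i)
    {F : MvPolynomial (Fin 4) k} (hF : aeval c.x F ∈ c.L) (s : Ω) :
    aeval (fun i => c.x i + s * b i) F = aeval c.x F := by
  rw [← c.line_const hbL hb1 hW hF (c.x i0 + s)]
  congr 2
  funext i
  rw [ln]; ring

/-- three of four elements whose closure contains `y` are independent -/
theorem exists_indep_three {z : Fin 4 → Ω} (h : ∀ l, c.y l ∈ acl k (Set.range z)) :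
    ∃ i : Fin 4, AlgebraicIndependent k (fun j : {j // j ≠ i} => z j) := by
  by_cases hz : AlgebraicIndependent k z
  · exact ⟨0, hz.comp _ Subtype.val_injective⟩
  · rw [algInd_iff_notMem] at hz
    push Not at hz
    obtain ⟨i, hi⟩ := hz
    refine ⟨i, ?_⟩
    have hr : z '' {i}ᶜ = Set.range (fun l : Fin 3 => z (i.succAbove l)) := by
      ext a
      constructor
      · rintro ⟨l, hl, rfl⟩
        obtain ⟨l', rfl⟩ := Fin.exists_succAbove_eq hl
        exact ⟨l', rfl⟩
      · rintro ⟨l', rfl⟩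
        exact ⟨_, Fin.succAbove_ne i l', rfl⟩
    have hle : acl k (Set.range z) ≤ acl k (Set.range (fun l : Fin 3 => z (i.succAbove l))) := by
      rw [acl_le_iff]
      rintro _ ⟨l, rfl⟩
      by_cases hl : l = i
      · subst hl
        rw [← hr]; exact hi
      · obtain ⟨l', rfl⟩ := Fin.exists_succAbove_eq hl
        exact subset_acl _ ⟨l', rfl⟩
    have h1 : AlgebraicIndependent k (fun l : Fin 3 => z (i.succAbove l)) :=
      c.L_algInd _ fun l => hle (h l)
    have h2 := h1.comp (finSuccAboveEquiv i).symm (finSuccAboveEquiv i).symm.injective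
    convert h2 using 1
    funext j
    simp only [Function.comp_apply]
    have h3 := (finSuccAboveEquiv i).apply_symm_apply j
    exact congrArg (fun a : {j // j ≠ i} => z a) h3.symm

/-- the direction is a rational function: ratios of forms -/
theorem exists_forms (hbL : ∀ i, b i ∈ c.L) (hb1 : b i0 = 1) (hW : ∀ i, c.W (c.x i) = φ * b i) :
    ∃ (v : Fin 4 → MvPolynomial (Fin 4) k) (m : ℕ), (∀ i, (v i).IsHomogeneous m) ∧ v i0 ≠ 0 ∧
      ∀ i, b i = aeval c.x (v i) / aeval c.x (v i0) := by
  classical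
  have hinj : ∀ F : MvPolynomial (Fin 4) k, aeval c.x F = 0 → F = 0 := fun F hF =>
    (injective_iff_map_eq_zero _).1 c.tb.1 F hF
  have hdet : (jac c.H).det = 0 := by
    obtain ⟨m, hm⟩ := c.nil.nilp
    have h1 : (jac c.H).det ^ (m + 1) = 0 := by
      rw [← Matrix.det_pow, pow_succ, hm, zero_mul]
      exact Matrix.det_zero
    exact pow_eq_zero_iff (Nat.succ_ne_zero m) |>.mp h1
  obtain ⟨v, hv0, hv⟩ := Matrix.exists_mulVec_eq_zero_iff.mpr hdet
  obtain ⟨i1, hi1⟩ := Function.ne_iff.1 hv0
  obtain ⟨m, hm⟩ : ∃ m, homogeneousComponent m (v i1) ≠ 0 := by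
    by_contra hcon
    push Not at hcon
    apply hi1
    rw [← sum_homogeneousComponent (v i1)]
    exact Finset.sum_eq_zero fun m _ => hcon m
  let w : Fin 4 → MvPolynomial (Fin 4) k := fun i => homogeneousComponent m (v i)
  have hw : ∀ i, ∑ j, pderiv j (c.H i) * w j = 0 := by
    intro i
    have h1 : ∑ j, pderiv j (c.H i) * v j = 0 := congrFun hv i
    have h2 := congrArg (fun F => (homT F).coeff (m + (c.d - 1))) h1
    simp only [map_sum, map_mul, map_zero, Polynomial.coeff_zero, Polynomial.finsetSum_coeff] at h2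
    rw [← h2]
    refine Finset.sum_congr rfl fun j _ => ?_
    rw [homT_of_hom (c.nil.hom i).pderiv, Polynomial.coeff_monomial_mul, coeff_homT]
  obtain ⟨D, hD⟩ := exists_der c.tb (fun j => aeval c.x (w j))
  have hDy : ∀ i, D (c.y i) = 0 := by
    intro i
    rw [c.hy, der_aeval]
    have h1 := congrArg (aeval c.x) (hw i)
    rw [map_sum, map_zero] at h1
    rw [← h1]
    refine Finset.sum_congr rfl fun j _ => ?_
    rw [hD, map_mul]
  have hDL : ∀ f ∈ c.L, D f = 0 := der_acl_zero D (by rintro _ ⟨i, rfl⟩; exact hDy i)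
  have hprop : ∀ i, aeval c.x (w i) = aeval c.x (w i0) * b i := by
    intro i
    have h1 := hDL _ (c.ln_mem hbL hb1 hW i)
    rw [ln, map_sub, Derivation.leibniz, hDL _ (hbL i), hD, hD] at h1
    simp only [smul_eq_mul] at h1
    linear_combination h1
  have hne : aeval c.x (w i0) ≠ 0 := by
    intro h0
    apply hm
    apply hinj
    have := hprop i1
    rw [h0, zero_mul] at this
    exact this
  refine ⟨w, m, fun i => homogeneousComponent_isHomogeneous m (v i), ?_, ?_⟩
  · rintro h0
    exact hne (by rw [h0, map_zero])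
  · intro i
    rw [hprop i]
    field_simp

/-- a non constant coordinate of the direction is a ratio of coprime forms with values in `L` -/
theorem lf_ratio (hbL : ∀ i, b i ∈ c.L) (hb1 : b i0 = 1) (hW : ∀ i, c.W (c.x i) = φ * b i)
    {j : Fin 4} (hj : b j ∉ acl k (∅ : Set Ω)) :
    ∃ (P Q : MvPolynomial (Fin 4) k) (e : ℕ), e ≠ 0 ∧ IsRelPrime P Q ∧ P.IsHomogeneous e ∧
      Q.IsHomogeneous e ∧ aeval c.x Q ≠ 0 ∧ b j = aeval c.x P / aeval c.x Q ∧
      aeval c.x P ∈ c.L ∧ aeval c.x Q ∈ c.L := by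
  classical
  obtain ⟨v, m, hv, hv0, hvb⟩ := c.exists_forms hbL hb1 hW
  have hj' : aeval c.x (v j) / aeval c.x (v i0) ∉ acl k (∅ : Set Ω) := by
    rw [← hvb]; exact hj
  obtain ⟨P, Q, e, he, hPQ, hP, hQ, hQ0, hr⟩ := c.exists_coprime_forms (hv j) (hv i0) hv0 hj'
  rw [← hvb] at hr
  have hPr : aeval c.x P = b j * aeval c.x Q := by
    rw [hr]; field_simp
  -- the restrictions to the line
  have hpq : c.pT b i0 P = Polynomial.C (b j) * c.pT b i0 Q := by
    rw [← sub_eq_zero]
    apply c.poly_zero hb1 hW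
    · intro n
      rw [Polynomial.coeff_sub, Polynomial.coeff_C_mul]
      exact sub_mem (c.pT_coeff hbL hb1 hW P n) (mul_mem (hbL j) (c.pT_coeff hbL hb1 hW Q n))
    · rw [Polynomial.eval_sub, Polynomial.eval_mul, Polynomial.eval_C, pT_eval_x, pT_eval_x, hPr,
        sub_self]
  have hdeg : (c.pT b i0 Q).degree = 0 := by
    by_contra hd
    obtain ⟨t, htL, ht⟩ := exists_root_acl (k := k) (S := Set.range c.y) (c.pT b i0 Q) hd
      (c.pT_coeff hbL hb1 hW Q)
    have htP : (c.pT b i0 P).eval t = 0 := by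
      rw [hpq, Polynomial.eval_mul, ht, mul_zero]
    rw [pT_eval] at ht htP
    obtain ⟨i, hi⟩ := c.exists_indep_three (z := fun i => c.ln b i0 i + t * b i) (by
      intro l
      have h1 := c.line_const hbL hb1 hW (F := c.H l) (by rw [← c.hy]; exact c.y_mem l) t
      rw [c.hy, ← h1]
      generalize c.H l = F
      induction F using MvPolynomial.induction_on with
      | C a => simp
      | add p q hp hq => rw [map_add]; exact add_mem hp hq
      | mul_X p i hp =>
        rw [map_mul, aeval_X]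
        exact mul_mem hp (subset_acl _ ⟨i, rfl⟩))
    exact coprime_pair_zero hPQ htP ht i hi
  have hQL : aeval c.x Q ∈ c.L := by
    have h1 := Polynomial.eq_C_of_degree_eq_zero hdeg
    have h2 := c.pT_eval_x (b := b) (i0 := i0) Q
    rw [h1, Polynomial.eval_C] at h2
    rw [← h2]
    exact c.pT_coeff hbL hb1 hW Q 0
  exact ⟨P, Q, e, he, hPQ, hP, hQ, hQ0, hr, by rw [hPr]; exact mul_mem (hbL j) hQL, hQL⟩

end Ctx3


section Coord
variable {k : Type*} [Field k]

/-- coordinates adapted to a basis -/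
theorem exists_T {f : Fin 4 → (Fin 4 → k)} (hf : LinearIndependent k f) :
    ∃ T T' : Matrix (Fin 4) (Fin 4) k, T' * T = 1 ∧ T * T' = 1 ∧
      ∀ i, T *ᵥ (f i) = Pi.single i 1 := by
  classical
  let A : Matrix (Fin 4) (Fin 4) k := Matrix.of f
  have hA : IsUnit A := Matrix.linearIndependent_rows_iff_isUnit.1 hf
  have hdet : IsUnit Aᵀ.det := by
    rw [Matrix.det_transpose]
    exact (Matrix.isUnit_iff_isUnit_det A).1 hA
  refine ⟨Aᵀ⁻¹, Aᵀ, Matrix.mul_nonsing_inv _ hdet, Matrix.nonsing_inv_mul _ hdet, fun i => ?_⟩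
  have h1 : f i = Aᵀ *ᵥ (Pi.single i 1) := by
    rw [Matrix.mulVec_single_one]
    rfl
  rw [h1, Matrix.mulVec_mulVec, Matrix.nonsing_inv_mul _ hdet, Matrix.one_mulVec]

/-- a polynomial with zero derivative with respect to the last variable -/
theorem restrict_last [CharZero k] {F : MvPolynomial (Fin 4) k} (h : pderiv 3 F = 0) :
    rename Fin.castSucc (aeval (Fin.snoc X 0 : Fin 4 → MvPolynomial (Fin 3) k) F) = F := by
  classical
  have hsupp : ∀ s : Fin 4 →₀ ℕ, coeff s F ≠ 0 → s 3 = 0 := by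
    intro s hs
    by_contra h3
    have h1 := congrArg (coeff (s - Finsupp.single 3 1)) h
    rw [coeff_pderiv, coeff_zero] at h1
    have h2 : s - Finsupp.single 3 1 + Finsupp.single 3 1 = s := by
      apply tsub_add_cancel_of_le
      intro i
      by_cases hi : i = 3
      · subst hi; simp; omega
      · rw [Finsupp.single_eq_of_ne hi]; exact Nat.zero_le _
    rw [h2] at h1
    rcases mul_eq_zero.1 h1 with h4 | h4
    · exact hs h4
    · exact Nat.cast_add_one_ne_zero _ h4
  have key : ∀ s : Fin 4 →₀ ℕ, coeff s F ≠ 0 →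
      rename Fin.castSucc (aeval (Fin.snoc X 0 : Fin 4 → MvPolynomial (Fin 3) k)
        (monomial s (coeff s F))) = monomial s (coeff s F) := by
    intro s hs
    rw [aeval_monomial, Finsupp.prod_fintype _ _ (by simp), map_mul, map_prod,
      MvPolynomial.algebraMap_eq, rename_C, monomial_eq, Finsupp.prod_fintype _ _ (by simp)]
    refine congrArg (fun z => C (coeff s F) * z) ?_
    refine Finset.prod_congr rfl fun i _ => ?_
    refine Fin.lastCases ?_ (fun j => ?_) i
    · have : s (Fin.last 3) = 0 := hsupp s hs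
      rw [this, pow_zero, pow_zero, map_one]
    · rw [Fin.snoc_castSucc, map_pow, rename_X]
  conv_lhs => rw [← F.support_sum_monomial_coeff]
  conv_rhs => rw [← F.support_sum_monomial_coeff]
  rw [map_sum, map_sum]
  exact Finset.sum_congr rfl fun s hs => key s (mem_support_iff.1 hs)

/-- three dimensional reduction -/
theorem dim3_of_pderiv_zero [CharZero k] {d : ℕ} {H : Fin 4 → MvPolynomial (Fin 4) k}
    (nil : Nil k 4 d H) (ind : LinearIndependent k H) (h3 : ∀ i, pderiv 3 (H i) = 0) :
    ∃ H3 : Fin 3 → MvPolynomial (Fin 3) k, Nil k 3 d H3 ∧ LinearIndependent k H3 := by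
  classical
  let g : Fin 4 → MvPolynomial (Fin 3) k := Fin.snoc X 0
  have hg3 : ∀ j : Fin 3, g j.castSucc = X j := fun j => by simp [g]
  have hgl : g (Fin.last 3) = 0 := by simp only [g, Fin.snoc_last]
  let H3 : Fin 3 → MvPolynomial (Fin 3) k := fun i => aeval g (H i.castSucc)
  refine ⟨H3, ⟨fun i => ?_, ?_⟩, ?_⟩
  · have h1 := (nil.hom i.castSucc).aeval g (n := 1) (by
      intro j
      refine Fin.lastCases ?_ (fun l => ?_) j
      · rw [hgl]; exact isHomogeneous_zero _ _ _
      · rw [hg3]; exact isHomogeneous_X _ _)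
    rwa [one_mul] at h1
  · have hj : ∀ a b : Fin 3, jac H3 a b = aeval g (jac H a.castSucc b.castSucc) := by
      intro a b
      simp only [jac, Matrix.of_apply, H3]
      rw [pderiv_aeval, Finset.sum_eq_single b.castSucc]
      · rw [hg3, pderiv_X_self, mul_one]
      · intro j _ hj
        revert hj
        refine Fin.lastCases ?_ (fun l => ?_) j
        · intro _; rw [hgl, map_zero, mul_zero]
        · intro hl
          rw [hg3, pderiv_X_of_ne, mul_zero]
          rintro rfl
          exact hl rfl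
      · simp
    have hpow : ∀ m : ℕ, ∀ a b : Fin 3, (jac H3 ^ m) a b =
        aeval g ((jac H ^ m) a.castSucc b.castSucc) := by
      intro m
      induction m with
      | zero =>
        intro a b
        rw [pow_zero, pow_zero, Matrix.one_apply, Matrix.one_apply]
        by_cases hab : a = b
        · subst hab; simp
        · rw [if_neg hab, if_neg, map_zero]
          intro h; exact hab (Fin.castSucc_injective _ h)
      | succ m ih =>
        intro a b
        rw [pow_succ', pow_succ', Matrix.mul_apply, Matrix.mul_apply]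
        have h0 : jac H a.castSucc (Fin.last 3) = 0 := h3 a.castSucc
        have h1 : ∑ j, jac H a.castSucc j * (jac H ^ m) j b.castSucc =
            ∑ j : Fin 3, jac H a.castSucc j.castSucc * (jac H ^ m) j.castSucc b.castSucc := by
          rw [Fin.sum_univ_castSucc, h0, zero_mul, add_zero]
        rw [h1, map_sum]
        refine Finset.sum_congr rfl fun l _ => ?_
        rw [map_mul, hj, ih]
    obtain ⟨m, hm⟩ := nil.nilp
    refine ⟨m, ?_⟩
    ext1 a b
    rw [hpow, hm]
    simp
  · rw [Fintype.linearIndependent_iff]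
    intro a ha i
    have h1 := congrArg (rename Fin.castSucc) ha
    rw [map_sum, map_zero] at h1
    have h2 : ∑ j : Fin 3, a j • H j.castSucc = 0 := by
      rw [← h1]
      refine Finset.sum_congr rfl fun j _ => ?_
      rw [map_smul, restrict_last (h3 j.castSucc)]
    have h4 := (ind.comp _ (Fin.castSucc_injective 3))
    exact Fintype.linearIndependent_iff.1 h4 a h2 i

end Coord

namespace Ctx3
variable {k Ω : Type*} [Field k] [IsAlgClosed k] [CharZero k] [Field Ω] [IsAlgClosed Ω] [Algebra k Ω]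
  (c : Ctx3 k Ω) {b : Fin 4 → Ω} {i0 : Fin 4} {φ : Ω}

/-- direction constant along `k`: reduction to dimension three -/
theorem const_false (hb1 : b i0 = 1) (hW : ∀ i, c.W (c.x i) = φ * b i) (β : Fin 4 → k)
    (hβ : ∀ i, b i = algebraMap k Ω (β i)) : False := by
  classical
  have hφ := c.phi_ne hW
  have hβ0 : β ≠ 0 := by
    rintro rfl
    rw [hβ] at hb1
    simp at hb1
  have h1 : LinearIndependent k ![β] := by
    rw [linearIndependent_unique_iff]
    exact hβ0
  obtain ⟨f2, h2⟩ := exists_linearIndependent_cons_of_lt_finrank h1 (by simp)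
  obtain ⟨f1, h3⟩ := exists_linearIndependent_cons_of_lt_finrank h2 (by simp)
  obtain ⟨f0, h4⟩ := exists_linearIndependent_cons_of_lt_finrank h3 (by simp)
  obtain ⟨T, T', hT, hT', hf⟩ := exists_T h4
  have hTβ : T *ᵥ β = Pi.single 3 1 := hf 3
  obtain ⟨c', -, hx, hy, hWW, -⟩ := c.exists_lin T T' hT hT'
  have hWx : ∀ i, c'.W (c'.x i) = φ * algebraMap k Ω ((Pi.single 3 1 : Fin 4 → k) i) := by
    intro i
    rw [hWW, hx, ← hTβ]
    simp only [Ctx3.lin, map_sum, Derivation.leibniz, Derivation.map_algebraMap,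
      smul_eq_mul, hW, hβ, Matrix.mulVec, dotProduct, map_mul, Finset.mul_sum]
    exact Finset.sum_congr rfl fun j _ => by ring
  have h5 : ∀ l, pderiv 3 (c'.H l) = 0 := by
    intro l
    have h6 := c'.Wy l
    rw [c'.hy, der_aeval, Fin.sum_univ_four, hWx, hWx, hWx, hWx] at h6
    simp only [Pi.single_eq_same, map_one, mul_one] at h6
    rw [Pi.single_eq_of_ne (by decide), Pi.single_eq_of_ne (by decide),
      Pi.single_eq_of_ne (by decide)] at h6
    simp only [map_zero, mul_zero, zero_add] at h6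
    exact (injective_iff_map_eq_zero _).1 c'.tb.1 _ ((mul_eq_zero.1 h6).resolve_right hφ)
  obtain ⟨H3, hn, hi⟩ := dim3_of_pderiv_zero c'.nil c'.ind h5
  exact dep3 hn hi

/-- the normalised non constant case -/
theorem std_false {b : Fin 4 → Ω} {φ : Ω} (hbL : ∀ i, b i ∈ c.L) (hb0 : b 0 ∉ acl k (∅ : Set Ω))
    (hb1 : b 1 = 1) (hb2 : b 2 = 0) (hb3 : b 3 = 0) (hW : ∀ i, c.W (c.x i) = φ * b i) : False := by
  have hφ := c.phi_ne hW
  have hinj : ∀ F : MvPolynomial (Fin 4) k, aeval c.x F = 0 → F = 0 := fun F hF =>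
    (injective_iff_map_eq_zero _).1 c.tb.1 F hF
  obtain ⟨P, Q, e, he, hPQ, hP, hQ, hQ0, hr, hPL, hQL⟩ := c.lf_ratio hbL hb1 hW hb0
  have hPr : aeval c.x P = b 0 * aeval c.x Q := by
    rw [hr]; field_simp
  have key : ∀ F : MvPolynomial (Fin 4) k, aeval c.x F ∈ c.L →
      P * pderiv 0 F + Q * pderiv 1 F = 0 := by
    intro F hF
    have h6 := (c.mem_L_iff _).1 hF
    rw [der_aeval, Fin.sum_univ_four, hW, hW, hW, hW, hb1, hb2, hb3] at h6
    apply hinj
    rw [map_add, map_mul, map_mul, hPr]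
    have h7 : φ * (aeval c.x (pderiv 0 F) * b 0 + aeval c.x (pderiv 1 F)) = 0 := by
      linear_combination h6
    have h8 := (mul_eq_zero.1 h7).resolve_left hφ
    linear_combination aeval c.x Q * h8
  have hQne : Q ≠ 0 := by
    rintro rfl
    exact hQ0 (map_zero _)
  have hPne : P ≠ 0 := by
    rintro rfl
    apply hb0
    rw [hr, map_zero, zero_div]
    exact zero_mem _
  have kP := key P hPL
  have kQ := key Q hQL
  have hP1 : pderiv 1 P = 0 := pderiv_zero_of_dvd hP hPne he 1
    (hPQ.dvd_of_dvd_mul_left (show P ∣ Q * pderiv 1 P from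
      ⟨- pderiv 0 P, by linear_combination kP⟩))
  have hP0 : pderiv 0 P = 0 := by
    rw [hP1, mul_zero, add_zero] at kP
    exact (mul_eq_zero.1 kP).resolve_left hPne
  have hQ0' : pderiv 0 Q = 0 := pderiv_zero_of_dvd hQ hQne he 0
    (hPQ.symm.dvd_of_dvd_mul_left (show Q ∣ P * pderiv 0 Q from
      ⟨- pderiv 1 Q, by linear_combination kQ⟩))
  have hQ1 : pderiv 1 Q = 0 := by
    rw [hQ0', mul_zero, zero_add] at kQ
    exact (mul_eq_zero.1 kQ).resolve_left hQne
  exact lf_end c.hd c.nil c.ind hPQ he hP hQ hP0 hP1 hQ0' hQ1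
    (fun i => key (c.H i) (by rw [← c.hy]; exact c.y_mem i))

/-! ## N3: line fibres are impossible -/
theorem lf_false {V : ValuationSubring Ω} {b : Fin 4 → Ω} {i0 : Fin 4} {φ : Ω} (hb : c.IsDir V b i0)
    (hσ : ∃ σ ∈ c.L, ∀ i, b i ∈ acl k ({σ} : Set Ω)) (hW : ∀ i, c.W (c.x i) = φ * b i) : False := by
  classical
  have hbL := hb.mem
  have hb1 := hb.one
  by_cases hconst : ∀ i, b i ∈ acl k (∅ : Set Ω)
  · choose β hβ using fun i => (acl_empty (b i)).1 (hconst i)
    exact c.const_false hb1 hW β fun i => (hβ i).symm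
  · push Not at hconst
    obtain ⟨j, hj⟩ := hconst
    obtain ⟨σ, -, hbσ⟩ := hσ
    have hσj : σ ∈ acl k ({b j} : Set Ω) := by
      have h1 : b j ∈ acl k (insert σ (∅ : Set Ω)) := by
        rw [insert_empty_eq]; exact hbσ j
      have h2 := acl_exchange h1 hj
      rwa [insert_empty_eq] at h2
    have hbτ : ∀ i, b i ∈ acl k ({b j} : Set Ω) := by
      intro i
      have hle : acl k ({σ} : Set Ω) ≤ acl k ({b j} : Set Ω) := by
        rw [acl_le_iff, Set.singleton_subset_iff]
        exact hσj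
      exact hle (hbσ i)
    obtain ⟨P, Q, e, he, hPQ, hP, hQ, hQ0, hr, hPL, hQL⟩ := c.lf_ratio hbL hb1 hW hj
    have hfin := translation_invariance c.tb.1 he hP hQ hPQ (by rw [← hr]; exact hj)
      (b := b) (by rw [← hr]; exact hbτ) (fun T => c.line_const' hbL hb1 hW hPL T)
      (fun T => c.line_const' hbL hb1 hW hQL T)
    have hli : LinearIndependent k ![b j, 1] := by
      rw [LinearIndependent.pair_iff]
      intro s t hst
      have hs : s = 0 := by
        by_contra hs
        apply hj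
        rw [acl_empty]
        refine ⟨-t / s, ?_⟩
        rw [Algebra.smul_def, Algebra.smul_def, mul_one] at hst
        have hs' : algebraMap k Ω s ≠ 0 := (map_ne_zero _).2 hs
        rw [map_div₀, map_neg]
        field_simp
        linear_combination (-1 : Ω) * hst
      subst hs
      refine ⟨rfl, ?_⟩
      rw [zero_smul, zero_add] at hst
      exact (smul_eq_zero.1 hst).resolve_right one_ne_zero
    have hrange : Set.range ![b j, 1] = {b j, 1} := by
      ext a
      simp [or_comm]
    have hfd : FiniteDimensional k (Submodule.span k (Set.range b)) :=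
      FiniteDimensional.span_of_finite k (Set.finite_range b)
    have hspan : Submodule.span k {b j, 1} = Submodule.span k (Set.range b) := by
      apply Submodule.eq_of_le_of_finrank_le
      · rw [Submodule.span_le]
        rintro z (rfl | hz)
        · exact Submodule.subset_span ⟨j, rfl⟩
        · rw [Set.mem_singleton_iff] at hz
          subst hz
          exact Submodule.subset_span ⟨i0, hb1⟩
      · have h1 := finrank_span_eq_card hli
        rw [hrange, Fintype.card_fin] at h1
        rw [h1]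
        omega
    have huv : ∀ i, ∃ u v : k, u • b j + v • (1 : Ω) = b i := by
      intro i
      have h1 : b i ∈ Submodule.span k {b j, 1} := by
        rw [hspan]; exact Submodule.subset_span ⟨i, rfl⟩
      exact Submodule.mem_span_pair.1 h1
    choose u v huv using huv
    have hli' := LinearIndependent.pair_iff.1 hli
    have hi0 := hli' (u i0) (v i0 - 1) (by
      rw [sub_smul, one_smul, ← add_sub_assoc, huv, hb1, sub_self])
    have hjj := hli' (u j - 1) (v j) (by
      have := huv j
      rw [sub_smul, one_smul]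
      linear_combination (exp := 1) this)
    have hind : LinearIndependent k ![u, v] := by
      rw [LinearIndependent.pair_iff]
      intro s t hst
      have h1 := congrFun hst j
      have h2 := congrFun hst i0
      simp only [Pi.add_apply, Pi.smul_apply, Pi.zero_apply, smul_eq_mul] at h1 h2
      rw [sub_eq_zero.1 hjj.1, hjj.2, mul_one, mul_zero, add_zero] at h1
      rw [sub_eq_zero.1 hi0.2, hi0.1, mul_one, mul_zero, zero_add] at h2
      exact ⟨h1, h2⟩
    obtain ⟨f2, h2⟩ := exists_linearIndependent_snoc_of_lt_finrank hind (by simp)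
    obtain ⟨f3, h3⟩ := exists_linearIndependent_snoc_of_lt_finrank h2 (by simp)
    obtain ⟨T, T', hT, hT', hf⟩ := exists_T h3
    have hTu : T *ᵥ u = Pi.single 0 1 := hf 0
    have hTv : T *ᵥ v = Pi.single 1 1 := hf 1
    obtain ⟨c', -, hx, hy, hWW, -⟩ := c.exists_lin T T' hT hT'
    have hlin : ∀ i, Ctx3.lin T b i = algebraMap k Ω ((Pi.single 0 1 : Fin 4 → k) i) * b j +
        algebraMap k Ω ((Pi.single 1 1 : Fin 4 → k) i) := by
      intro i
      rw [← hTu, ← hTv]
      simp only [Ctx3.lin, Matrix.mulVec, dotProduct, map_sum, map_mul, Finset.sum_mul]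
      rw [← Finset.sum_add_distrib]
      refine Finset.sum_congr rfl fun l _ => ?_
      rw [← huv l, Algebra.smul_def, Algebra.smul_def]
      ring
    refine c'.std_false (b := Ctx3.lin T b) (φ := φ) ?_ ?_ ?_ ?_ ?_ ?_
    · intro i
      rw [c'.mem_L_iff, hWW, ← c.mem_L_iff]
      exact sum_mem fun l _ => mul_mem (IntermediateField.algebraMap_mem _ _) (hbL l)
    · rw [hlin]
      simpa using hj
    · rw [hlin]; simp
    · rw [hlin]
      rw [Pi.single_eq_of_ne (by decide), Pi.single_eq_of_ne (by decide)]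
      simp
    · rw [hlin]
      rw [Pi.single_eq_of_ne (by decide), Pi.single_eq_of_ne (by decide)]
      simp
    · intro i
      rw [hWW, hx]
      simp only [Ctx3.lin, map_sum, Derivation.leibniz, Derivation.map_algebraMap,
        smul_eq_mul, hW, Finset.mul_sum]
      exact Finset.sum_congr rfl fun l _ => by ring

end Ctx3

end Pool.Agent.HDP
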