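import Mathlib
import Pool.Agent.Lib.MP_20906e_al.Defs
import Pool.Agent.Lib.MP_20906e_al.Ctx
import Pool.Agent.Lib.MP_20906e_al.CtxN
import Pool.Agent.Lib.MP_20906e_al.Acl
import Pool.Agent.Lib.MP_20906e_al.Der
import Pool.Agent.Lib.MP_20906e_al.B2a
import Pool.Agent.Lib.MP_20906e_al.B2b

/-!
# MP_20906e_al, piece N4 : doubly ruled implies quadric
-/

set_option autoImplicit false
set_option linter.unusedSectionVars false

namespace Pool.Agent.HDP
open MvPolynomial

section Frame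
variable {k Ω : Type*} [Field k] [CharZero k] [Field Ω] [Algebra k Ω]

/-- structure equations of the frame `(y, b, b', e)` -/
private lemma n4_frame {δ0 δ1 δ2 : Derivation k Ω Ω} {L : IntermediateField k Ω}
    {y b b' e f : Fin 4 → Ω} {a0 a1 a2 ke p q : Ω}
    (h12 : ∀ z ∈ L, δ1 (δ2 z) - δ2 (δ1 z) = -(a0 * δ0 z + a1 * δ1 z + a2 * δ2 z))
    (h01 : ∀ z ∈ L, δ0 (δ1 z) - δ1 (δ0 z) = -δ1 z)
    (h02 : ∀ z ∈ L, δ0 (δ2 z) - δ2 (δ0 z) = -δ2 z)
    (hb : ∀ i, b i ∈ L) (hb' : ∀ i, b' i ∈ L) (he : ∀ i, e i ∈ L) (hf : ∀ i, f i ∈ L)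
    (ha1L : a1 ∈ L)
    (y0 : ∀ i, δ0 (y i) = y i) (y1 : ∀ i, δ1 (y i) = b i) (y2 : ∀ i, δ2 (y i) = b' i)
    (b0 : ∀ i, δ0 (b i) = 0) (b1 : ∀ i, δ1 (b i) = 0) (b2 : ∀ i, δ2 (b i) = f i)
    (b0' : ∀ i, δ0 (b' i) = 0) (b1' : ∀ i, δ1 (b' i) = e i) (b2' : ∀ i, δ2 (b' i) = 0)
    (hfe : ∀ i, f i = e i + a0 * y i + a1 * b i + a2 * b' i)
    (hli : ∀ α β γ ε : Ω, (∀ i, α * y i + β * b i + γ * b' i + ε * e i = 0) →
      α = 0 ∧ β = 0 ∧ γ = 0 ∧ ε = 0)
    (hke : ke = a1 * a2 + a0 + δ1 a1) (hp : p = a2 * a0 + δ1 a0) (hq : q = a2 ^ 2 + δ1 a2) :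
    (∀ i, δ0 (e i) = -e i) ∧ (∀ i, δ2 (e i) = a1 * e i) ∧
    (∀ i, δ1 (e i) = -(2 * a2 * e i) - p * y i - ke * b i - q * b' i) ∧
    δ0 a2 = -a2 ∧ δ0 ke = -(2 * ke) ∧ δ2 a2 = -δ1 a1 ∧ δ2 ke = a1 * ke ∧
    δ1 ke = 2 * p - a2 * ke := by
  have e0 : ∀ i, δ0 (e i) = -e i := by
    intro i
    have h := h01 (b' i) (hb' i)
    rw [b1', b0', map_zero, sub_zero] at h
    exact h
  have e2 : ∀ i, δ2 (e i) = a1 * e i := by
    intro i
    have h := h12 (b' i) (hb' i)
    rw [b1', b0', b2', map_zero] at h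
    linear_combination -h
  have f1 : ∀ i, δ1 (f i) = -(a2 * f i) := by
    intro i
    have h := h12 (b i) (hb i)
    rw [b1, b0, b2, map_zero] at h
    linear_combination h
  have f0 : ∀ i, δ0 (f i) = -f i := by
    intro i
    have h := h02 (b i) (hb i)
    rw [b2, b0, map_zero] at h
    linear_combination h
  -- derivatives of `f`
  have ld : ∀ (D : Derivation k Ω Ω) (s t : Ω), D (s * t) = s * D t + t * D s := by
    intro D s t
    rw [Derivation.leibniz, smul_eq_mul, smul_eq_mul]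
  have fD : ∀ (D : Derivation k Ω Ω) (i : Fin 4), D (f i) = D (e i) + (a0 * D (y i) + y i * D a0) +
      (a1 * D (b i) + b i * D a1) + (a2 * D (b' i) + b' i * D a2) := by
    intro D i
    rw [hfe i, map_add, map_add, map_add, ld, ld, ld]
  -- `δ0` of the coefficients
  have hA := hli (δ0 a0 + 2 * a0) (δ0 a1 + a1) (δ0 a2 + a2) 0 (by
    intro i
    have h := fD δ0 i
    rw [f0, e0, y0, b0, b0', hfe i] at h
    linear_combination -h)
  obtain ⟨hA0, hA1, hA2, -⟩ := hA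
  -- `δ1 e`
  have e1 : ∀ i, δ1 (e i) = -(2 * a2 * e i) - p * y i - ke * b i - q * b' i := by
    intro i
    have h := fD δ1 i
    rw [f1, y1, b1, b1', hfe i] at h
    rw [hp, hke, hq]
    linear_combination -h
  -- Jacobi on `e`
  have hJ1 : ∀ i, (δ2 p - 2 * a1 * p + a0 * ke) * y i + (δ2 ke - a1 * ke) * b i +
      (δ2 q - 2 * a1 * q + p + a2 * ke) * b' i + (2 * δ1 a1 + 2 * δ2 a2) * e i = 0 := by
    intro i
    have h := h12 (e i) (he i)
    rw [e2, e0, ld, e1] at h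
    have h2 : δ2 (-(2 * a2 * e i) - p * y i - ke * b i - q * b' i) =
        -(2 * a2 * (a1 * e i) + e i * (2 * δ2 a2)) - (p * b' i + y i * δ2 p) -
          (ke * f i + b i * δ2 ke) - b' i * δ2 q := by
      rw [map_sub, map_sub, map_sub, map_neg, ld, ld, ld, ld, ld, e2, y2, b2, b2']
      have h3 : δ2 (2 : Ω) = 0 := by
        have := δ2.map_natCast 2
        simpa using this
      rw [h3]
      ring
    rw [h2, hfe i] at h
    linear_combination h - e i * hke
  have hJ1' := hli _ _ _ _ hJ1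
  obtain ⟨-, hk2, -, ha2⟩ := hJ1'
  have ha2' : δ2 a2 = -δ1 a1 := by
    have h2 : (2 : Ω) ≠ 0 := by
      have : CharZero Ω := charZero_of_injective_algebraMap (algebraMap k Ω).injective
      exact two_ne_zero
    have h3 : (2 : Ω) * (δ1 a1 + δ2 a2) = 0 := by linear_combination ha2
    have h4 := (mul_eq_zero.1 h3).resolve_left h2
    linear_combination h4
  refine ⟨e0, e2, e1, by linear_combination hA2, ?_, ha2', by linear_combination hk2, ?_⟩
  · -- `δ0 ke`
    have h1 := h01 a1 ha1L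
    have h2 : δ0 a1 = -a1 := by linear_combination hA1
    rw [h2, map_neg] at h1
    have h3 : δ0 ke = (a1 * δ0 a2 + a2 * δ0 a1) + δ0 a0 + δ0 (δ1 a1) := by
      rw [hke, map_add, map_add, ld]
    rw [h3, hke, h2]
    linear_combination a1 * hA2 + hA0 + h1
  · -- `δ1 ke` : Jacobi on `f`
    have f2 : ∀ i, δ2 (f i) = a1 * e i + (a0 * b' i + y i * δ2 a0) + (a1 * f i + b i * δ2 a1) +
        b' i * δ2 a2 := by
      intro i
      rw [fD, e2, y2, b2, b2']
      ring
    have hJ2 : ∀ i, (δ1 (δ2 a0) - a1 * p - a0 * (a0 + a1 * a2 - δ1 a1 - δ2 a2) + a1 * (- a2 * a0)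
          + 2 * a2 * (δ2 a0 + a1 * a0)) * y i +
        (δ2 a0 + δ1 (δ2 a1) - a1 * ke + a1 * (-a2 * a1) + a1 * δ1 a1
          - a1 * (a0 + a1 * a2 - δ2 a2) + 2 * a2 * (a1 * a1 + δ2 a1)) * b i +
        (δ1 a0 - a1 * q + δ1 (δ2 a2) + a1 * (-a2 * a2) + a2 * δ1 a1
          - a2 * (a0 + a1 * a2 - δ2 a2) + 2 * a2 * (a0 + a1 * a2 + δ2 a2)) * b' i +
        (a0 + δ1 a1 + δ1 a1 + δ2 a2 - 2 * a1 * a2 - a1 * a2 - (a0 + a1 * a2 - δ2 a2)
          + 2 * a2 * (a1 + a1)) * e i = 0 := by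
      intro i
      have h := h12 (f i) (hf i)
      rw [f1, f0, map_neg, ld, f2] at h
      have h2 : δ1 (a1 * e i + (a0 * b' i + y i * δ2 a0) + (a1 * f i + b i * δ2 a1) +
          b' i * δ2 a2) = (a1 * (-(2 * a2 * e i) - p * y i - ke * b i - q * b' i) + e i * δ1 a1) +
          ((a0 * e i + b' i * δ1 a0) + (y i * δ1 (δ2 a0) + δ2 a0 * b i)) +
          ((a1 * -(a2 * f i) + f i * δ1 a1) + b i * δ1 (δ2 a1)) +
          (b' i * δ1 (δ2 a2) + δ2 a2 * e i) := by
        rw [map_add, map_add, map_add, map_add, map_add, ld, ld, ld, ld, ld, ld, e1, f1, b1, b1',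
          y1]
        ring
      rw [h2, hfe i] at h
      linear_combination h
    have hJ2' := hli _ _ _ _ hJ2
    obtain ⟨-, -, h3, -⟩ := hJ2'
    have h4 : δ1 (δ2 a2) = -δ1 (δ1 a1) := by rw [ha2', map_neg]
    have h5 : δ1 ke = (a1 * δ1 a2 + a2 * δ1 a1) + δ1 a0 + δ1 (δ1 a1) := by
      rw [hke, map_add, map_add, ld]
    rw [h4, ha2', hq] at h3
    rw [h5, hp, hke]
    linear_combination -h3

omit [CharZero k] in
private lemma n4_map_mul (D : Derivation k Ω Ω) (A B : Matrix (Fin 4) (Fin 4) Ω) :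
    (A * B).map D = A.map D * B + A * B.map D := by
  ext i j
  simp only [Matrix.map_apply, Matrix.mul_apply, Matrix.add_apply, map_sum, Derivation.leibniz,
    smul_eq_mul]
  rw [← Finset.sum_add_distrib]
  refine Finset.sum_congr rfl fun l _ => ?_
  ring

omit [CharZero k] in
private lemma n4_gram {δ : Derivation k Ω Ω} {F G N Q : Matrix (Fin 4) (Fin 4) Ω} {lam : Ω}
    (hdet : F.det ≠ 0) (hFQ : F.transpose * Q * F = G) (hF : F.map δ = F * N)
    (hG : G.map δ = N.transpose * G + G * N + lam • G) : Q.map δ = lam • Q := by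
  have hu : IsUnit F.det := isUnit_iff_ne_zero.2 hdet
  have huT : IsUnit F.transpose.det := by rw [Matrix.det_transpose]; exact hu
  have h1 := n4_map_mul δ (F.transpose * Q) F
  rw [n4_map_mul δ F.transpose Q, hFQ, hG, hF, Matrix.transpose_map, hF,
    Matrix.transpose_mul] at h1
  have h2 : F.transpose * Q.map δ * F = F.transpose * (lam • Q) * F := by
    have h3 : F.transpose * (lam • Q) * F = lam • G := by
      rw [Matrix.mul_smul, Matrix.smul_mul, hFQ]
    rw [h3]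
    have h4 : (N.transpose * F.transpose * Q + F.transpose * Q.map δ) * F +
        F.transpose * Q * (F * N) = N.transpose * G + F.transpose * Q.map δ * F + G * N := by
      rw [← hFQ]
      noncomm_ring
    rw [h4] at h1
    have h5 : N.transpose * G + G * N + lam • G - (N.transpose * G + G * N) =
        N.transpose * G + F.transpose * Q.map δ * F + G * N - (N.transpose * G + G * N) := by
      rw [h1]
    have h6 : N.transpose * G + G * N + lam • G - (N.transpose * G + G * N) = lam • G := by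
      abel
    have h7 : N.transpose * G + F.transpose * Q.map δ * F + G * N - (N.transpose * G + G * N) =
        F.transpose * Q.map δ * F := by abel
    rw [h6, h7] at h5
    exact h5.symm
  have h8 := congrArg (fun X => (F.transpose)⁻¹ * X * F⁻¹) h2
  rw [Matrix.mul_assoc F.transpose, Matrix.mul_assoc F.transpose,
    Matrix.nonsing_inv_mul_cancel_left _ _ huT, Matrix.nonsing_inv_mul_cancel_left _ _ huT,
    Matrix.mul_nonsing_inv_cancel_right _ _ hu, Matrix.mul_nonsing_inv_cancel_right _ _ hu] at h8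
  exact h8

private lemma n4_G0 {F : Type*} [Field F] (a2 ke : F) :
    !![0, 0, 0, 0; 0, 0, 0, a2; 0, 0, 0, 0; 0, a2, 0, -(2 * ke)] =
      !![1, 0, 0, 0; 0, 0, 0, 0; 0, 0, 0, 0; 0, 0, 0, -1].transpose *
        !![0, 0, 0, -1; 0, 0, 1, -a2; 0, 1, 0, 0; -1, -a2, 0, ke] +
      !![0, 0, 0, -1; 0, 0, 1, -a2; 0, 1, 0, 0; -1, -a2, 0, ke] *
        !![1, 0, 0, 0; 0, 0, 0, 0; 0, 0, 0, 0; 0, 0, 0, -1] +
      (0 : F) • !![0, 0, 0, -1; 0, 0, 1, -a2; 0, 1, 0, 0; -1, -a2, 0, ke] := by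
  ext i l
  fin_cases i <;> fin_cases l <;> simp [Matrix.mul_apply, Fin.sum_univ_four]
  ring

private lemma n4_G1 {F : Type*} [Field F] (a2 ke p q d : F) (hq : q = a2 ^ 2 + d) :
    !![0, 0, 0, 0; 0, 0, 0, -d; 0, 0, 0, 0; 0, -d, 0, 2 * p - a2 * ke] =
      !![0, 0, 0, -p; 1, 0, 0, -ke; 0, 0, 0, -q; 0, 0, 1, -(2 * a2)].transpose *
        !![0, 0, 0, -1; 0, 0, 1, -a2; 0, 1, 0, 0; -1, -a2, 0, ke] +
      !![0, 0, 0, -1; 0, 0, 1, -a2; 0, 1, 0, 0; -1, -a2, 0, ke] *
        !![0, 0, 0, -p; 1, 0, 0, -ke; 0, 0, 0, -q; 0, 0, 1, -(2 * a2)] +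
      a2 • !![0, 0, 0, -1; 0, 0, 1, -a2; 0, 1, 0, 0; -1, -a2, 0, ke] := by
  subst hq
  ext i l
  fin_cases i <;> fin_cases l <;> simp [Matrix.mul_apply, Fin.sum_univ_four] <;> ring

private lemma n4_G2 {F : Type*} [Field F] (a0 a1 a2 ke d : F) (hke : ke = a1 * a2 + a0 + d) :
    !![0, 0, 0, 0; 0, 0, 0, d; 0, 0, 0, 0; 0, d, 0, a1 * ke] =
      !![0, a0, 0, 0; 0, a1, 0, 0; 1, a2, 0, 0; 0, 1, 0, a1].transpose *
        !![0, 0, 0, -1; 0, 0, 1, -a2; 0, 1, 0, 0; -1, -a2, 0, ke] +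
      !![0, 0, 0, -1; 0, 0, 1, -a2; 0, 1, 0, 0; -1, -a2, 0, ke] *
        !![0, a0, 0, 0; 0, a1, 0, 0; 1, a2, 0, 0; 0, 1, 0, a1] +
      (-a1) • !![0, 0, 0, -1; 0, 0, 1, -a2; 0, 1, 0, 0; -1, -a2, 0, ke] := by
  subst hke
  ext i l
  fin_cases i <;> fin_cases l <;> simp [Matrix.mul_apply, Fin.sum_univ_four] <;> ring

end Frame

namespace Ctx3
variable {k Ω : Type*} [Field k] [IsAlgClosed k] [CharZero k] [Field Ω] [IsAlgClosed Ω] [Algebra k Ω]
  (c : Ctx3 k Ω)

private lemma Sf_symm (v w : Fin 4 → Ω) : c.Sf v w = c.Sf w v := by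
  unfold Sf
  rw [Finset.sum_comm]
  refine Finset.sum_congr rfl fun i _ => Finset.sum_congr rfl fun j _ => ?_
  rw [c.S_symm]
  ring

private lemma Sf_y {v : Fin 4 → Ω} (hv : ∑ i, c.u i * v i = 0) : c.Sf v c.y = 0 := by
  unfold Sf
  have h1 : ∀ i, ∑ j, c.S i j * v i * c.y j = ((c.r : Ω) - 1) * (c.u i * v i) := by
    intro i
    have h2 : ∑ j, c.S i j * v i * c.y j = v i * ∑ j, c.S i j * c.y j := by
      rw [Finset.mul_sum]
      refine Finset.sum_congr rfl fun j _ => ?_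
      ring
    rw [h2, c.S_y]
    ring
  rw [Finset.sum_congr rfl fun i _ => h1 i, ← Finset.mul_sum, hv, mul_zero]

/-- derivative of the relation `u · b = 0` -/
private lemma u_der {b : Fin 4 → Ω} (hub : ∑ i, c.u i * b i = 0) (D : Derivation k Ω Ω) :
    ∑ i, c.u i * D (b i) = -c.Sf b (fun i => D (c.y i)) := by
  have h := congrArg D hub
  rw [map_sum, map_zero] at h
  have h1 : ∀ i, D (c.u i * b i) = c.u i * D (b i) + ∑ j, c.S i j * b i * D (c.y j) := by
    intro i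
    rw [Derivation.leibniz, smul_eq_mul, smul_eq_mul, c.D_u, Finset.mul_sum]
    congr 1
    refine Finset.sum_congr rfl fun j _ => ?_
    ring
  rw [Finset.sum_congr rfl fun i _ => h1 i, Finset.sum_add_distrib] at h
  unfold Sf
  linear_combination h

/-- a direction depending on one parameter is constant along derivations with `S(b, Dy) = 0` -/
private lemma one_param_der {b : Fin 4 → Ω} {σ : Ω} (hσ : ∀ i, b i ∈ acl k ({σ} : Set Ω))
    (hub : ∑ i, c.u i * b i = 0) {D' : Derivation k Ω Ω}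
    (hD' : c.Sf b (fun i => D' (c.y i)) ≠ 0) {D : Derivation k Ω Ω}
    (hD : c.Sf b (fun i => D (c.y i)) = 0) (i : Fin 4) : D (b i) = 0 := by
  have h1 : D' σ ≠ 0 := by
    intro h
    apply hD'
    have h2 := c.u_der hub D'
    have h3 : ∀ i, D' (b i) = 0 := fun i =>
      der_acl_zero D' (S := {σ}) (by rintro _ rfl; exact h) _ (hσ i)
    have h4 : ∑ i, c.u i * D' (b i) = 0 :=
      Finset.sum_eq_zero fun i _ => by rw [h3 i, mul_zero]
    rw [h4] at h2
    linear_combination h2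
  have h2 : ∀ i, D (b i) = (D σ / D' σ) * D' (b i) := by
    intro i
    have h3 := der_acl_eq (S := ({σ} : Set Ω)) D ((D σ / D' σ) • D') (by
      rintro _ rfl
      rw [Derivation.smul_apply, smul_eq_mul, div_mul_cancel₀ _ h1]) (b i) (hσ i)
    rw [h3, Derivation.smul_apply, smul_eq_mul]
  have h3 := c.u_der hub D
  rw [hD, neg_zero] at h3
  have h4 : ∑ i, c.u i * D (b i) = (D σ / D' σ) * ∑ i, c.u i * D' (b i) := by
    rw [Finset.mul_sum]
    refine Finset.sum_congr rfl fun i _ => ?_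
    rw [h2 i]
    ring
  rw [h4, c.u_der hub D'] at h3
  have h5 : D σ / D' σ = 0 := by
    rcases mul_eq_zero.1 h3 with h | h
    · exact h
    · exact absurd (neg_eq_zero.1 h) hD'
  rw [h2 i, h5, zero_mul]

/-! ## N4: doubly ruled implies quadric -/
theorem dr {b b' : Fin 4 → Ω} {i0 i1 : Fin 4} (hb1 : b i0 = 1) (hb1' : b' i1 = 1)
    (hbL : ∀ i, b i ∈ c.L) (hbL' : ∀ i, b' i ∈ c.L)
    (hσ : ∃ σ ∈ c.L, ∀ i, b i ∈ acl k ({σ} : Set Ω)) (hσ' : ∃ σ ∈ c.L, ∀ i, b' i ∈ acl k ({σ} : Set Ω))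
    (hub : ∑ i, c.u i * b i = 0) (hub' : ∑ i, c.u i * b' i = 0)
    (hbb : c.Sf b b = 0) (hbb' : c.Sf b' b' = 0) (hS : c.Sf b b' ≠ 0) :
    ∃ M : Matrix (Fin 4) (Fin 4) k, M.transpose = M ∧ M.det ≠ 0 ∧
      (∑ i, ∑ j, algebraMap k Ω (M i j) * c.y i * c.y j = 0) ∧
      (∑ i, ∑ j, algebraMap k Ω (M i j) * c.y i * b j = 0) ∧
      (∑ i, ∑ j, algebraMap k Ω (M i j) * c.y i * b' j = 0) ∧
      (∑ i, ∑ j, algebraMap k Ω (M i j) * b i * b j = 0) ∧
      (∑ i, ∑ j, algebraMap k Ω (M i j) * b' i * b' j = 0) ∧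
      (∑ i, ∑ j, algebraMap k Ω (M i j) * b i * b' j ≠ 0) := by
  obtain ⟨σ, -, hσ⟩ := hσ
  obtain ⟨σ', -, hσ'⟩ := hσ'
  obtain ⟨δ0, hδ0, hL0⟩ := c.exists_der_y c.y c.u_y
  obtain ⟨δ1, hδ1, hL1⟩ := c.exists_der_y b hub
  obtain ⟨δ2, hδ2, hL2⟩ := c.exists_der_y b' hub'
  replace hL0 := hL0 c.y_mem
  replace hL1 := hL1 hbL
  replace hL2 := hL2 hbL'
  have e0 : (fun i => δ0 (c.y i)) = c.y := funext hδ0
  have e1 : (fun i => δ1 (c.y i)) = b := funext hδ1
  have e2 : (fun i => δ2 (c.y i)) = b' := funext hδ2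
  have hS' : c.Sf b' b ≠ 0 := by rw [c.Sf_symm]; exact hS
  have b0 : ∀ i, δ0 (b i) = 0 := c.one_param_der hσ hub (D' := δ2) (by rw [e2]; exact hS)
    (by rw [e0]; exact c.Sf_y hub)
  have b1 : ∀ i, δ1 (b i) = 0 := c.one_param_der hσ hub (D' := δ2) (by rw [e2]; exact hS)
    (by rw [e1]; exact hbb)
  have b0' : ∀ i, δ0 (b' i) = 0 := c.one_param_der hσ' hub' (D' := δ1) (by rw [e1]; exact hS')
    (by rw [e0]; exact c.Sf_y hub')
  have b2' : ∀ i, δ2 (b' i) = 0 := c.one_param_der hσ' hub' (D' := δ1) (by rw [e1]; exact hS')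
    (by rw [e2]; exact hbb')
  obtain ⟨e, he⟩ : ∃ e : Fin 4 → Ω, ∀ i, δ1 (b' i) = e i := ⟨_, fun i => rfl⟩
  obtain ⟨f, hf⟩ : ∃ f : Fin 4 → Ω, ∀ i, δ2 (b i) = f i := ⟨_, fun i => rfl⟩
  have heL : ∀ i, e i ∈ c.L := fun i => by rw [← he]; exact hL1 _ (hbL' i)
  have hfL : ∀ i, f i ∈ c.L := fun i => by rw [← hf]; exact hL2 _ (hbL i)
  have hue : ∑ i, c.u i * e i = -c.Sf b b' := by
    have h := c.u_der hub' δ1
    rw [e1, c.Sf_symm] at h
    rw [← h]
    exact Finset.sum_congr rfl fun i _ => by rw [he]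
  have huf : ∑ i, c.u i * f i = -c.Sf b b' := by
    have h := c.u_der hub δ2
    rw [e2] at h
    rw [← h]
    exact Finset.sum_congr rfl fun i _ => by rw [hf]
  -- the frame is independent
  have hlin : ∀ (v : Fin 4 → Ω) (α β γ ε : Ω),
      c.Sf v (fun i => α * c.y i + β * b i + γ * b' i + ε * e i) =
        α * c.Sf v c.y + β * c.Sf v b + γ * c.Sf v b' + ε * c.Sf v e := by
    intro v α β γ ε
    unfold Sf
    simp only [Finset.mul_sum, ← Finset.sum_add_distrib]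
    refine Finset.sum_congr rfl fun i _ => Finset.sum_congr rfl fun j _ => ?_
    ring
  obtain ⟨iy, hiy⟩ : ∃ i, c.y i ≠ 0 := by
    by_contra hcon
    push Not at hcon
    have h := c.lin_indep_y (fun _ => 1) (Finset.sum_eq_zero fun i _ => by rw [hcon i, mul_zero])
    have h1 := congrFun h 0
    exact one_ne_zero h1
  have hli : ∀ α β γ ε : Ω, (∀ i, α * c.y i + β * b i + γ * b' i + ε * e i = 0) →
      α = 0 ∧ β = 0 ∧ γ = 0 ∧ ε = 0 := by
    intro α β γ ε h
    have hε : ε = 0 := by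
      have h1 : ∑ i, c.u i * (α * c.y i + β * b i + γ * b' i + ε * e i) = 0 :=
        Finset.sum_eq_zero fun i _ => by rw [h i, mul_zero]
      have h2 : ∑ i, c.u i * (α * c.y i + β * b i + γ * b' i + ε * e i) =
          α * (∑ i, c.u i * c.y i) + β * (∑ i, c.u i * b i) + γ * (∑ i, c.u i * b' i) +
            ε * ∑ i, c.u i * e i := by
        simp only [Finset.mul_sum, ← Finset.sum_add_distrib]
        refine Finset.sum_congr rfl fun i _ => ?_
        ring
      rw [h2, c.u_y, hub, hub', hue] at h1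
      have h3 : ε * c.Sf b b' = 0 := by linear_combination -h1
      exact (mul_eq_zero.1 h3).resolve_right hS
    subst hε
    have h0 : (fun i => α * c.y i + β * b i + γ * b' i + 0 * e i) = fun _ => (0 : Ω) := funext h
    have hz : ∀ v : Fin 4 → Ω, c.Sf v (fun _ => (0 : Ω)) = 0 := by
      intro v
      unfold Sf
      exact Finset.sum_eq_zero fun i _ => Finset.sum_eq_zero fun j _ => by rw [mul_zero]
    have hγ : γ = 0 := by
      have h1 := hlin b α β γ 0
      rw [h0, hz, c.Sf_y hub, hbb] at h1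
      have h2 : γ * c.Sf b b' = 0 := by linear_combination -h1
      exact (mul_eq_zero.1 h2).resolve_right hS
    have hβ : β = 0 := by
      have h1 := hlin b' α β γ 0
      rw [h0, hz, c.Sf_y hub', hbb'] at h1
      have h2 : β * c.Sf b' b = 0 := by linear_combination -h1
      exact (mul_eq_zero.1 h2).resolve_right hS'
    have hα : α = 0 := by
      have h1 := h iy
      rw [hγ, hβ] at h1
      have h2 : α * c.y iy = 0 := by linear_combination h1
      exact (mul_eq_zero.1 h2).resolve_right hiy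
    exact ⟨hα, hβ, hγ, rfl⟩
  -- the frame matrix
  obtain ⟨F, hF⟩ : ∃ F : Matrix (Fin 4) (Fin 4) Ω,
      F = Matrix.of fun i l => ![c.y i, b i, b' i, e i] l := ⟨_, rfl⟩
  have hFv : ∀ (v : Fin 4 → Ω) (i : Fin 4),
      F.mulVec v i = v 0 * c.y i + v 1 * b i + v 2 * b' i + v 3 * e i := by
    intro v i
    rw [hF]
    simp [Matrix.mulVec, dotProduct, Fin.sum_univ_four]
    ring
  have hdet : F.det ≠ 0 := by
    intro h
    obtain ⟨v, hv, hv0⟩ := Matrix.exists_mulVec_eq_zero_iff.2 h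
    obtain ⟨h0, h1, h2, h3⟩ := hli (v 0) (v 1) (v 2) (v 3) (fun i => by
      rw [← hFv, hv0]; rfl)
    apply hv
    funext l
    fin_cases l
    · exact h0
    · exact h1
    · exact h2
    · exact h3
  have hu : IsUnit F.det := isUnit_iff_ne_zero.2 hdet
  have hspan : ∀ v : Fin 4 → Ω, ∑ i, c.u i * v i = 0 →
      ∃ α β γ : Ω, ∀ i, v i = α * c.y i + β * b i + γ * b' i := by
    intro v hv
    obtain ⟨w, hw⟩ : ∃ w : Fin 4 → Ω, F.mulVec w = v :=
      ⟨F⁻¹.mulVec v, by rw [Matrix.mulVec_mulVec, Matrix.mul_nonsing_inv _ hu, Matrix.one_mulVec]⟩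
    have h1 : ∀ i, v i = w 0 * c.y i + w 1 * b i + w 2 * b' i + w 3 * e i := fun i => by
      rw [← hw, hFv]
    have h2 : ∑ i, c.u i * v i = w 0 * (∑ i, c.u i * c.y i) + w 1 * (∑ i, c.u i * b i) +
        w 2 * (∑ i, c.u i * b' i) + w 3 * ∑ i, c.u i * e i := by
      simp only [Finset.mul_sum, ← Finset.sum_add_distrib]
      refine Finset.sum_congr rfl fun i _ => ?_
      rw [h1 i]
      ring
    rw [hv, c.u_y, hub, hub', hue] at h2
    have h3 : w 3 * c.Sf b b' = 0 := by linear_combination h2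
    have h4 := (mul_eq_zero.1 h3).resolve_right hS
    refine ⟨w 0, w 1, w 2, fun i => ?_⟩
    rw [h1 i, h4]
    ring
  obtain ⟨a0, a1, a2, hfe'⟩ := hspan (fun i => f i - e i) (by
    simp only [mul_sub, Finset.sum_sub_distrib]
    rw [hue, huf, sub_self])
  have hfe : ∀ i, f i = e i + a0 * c.y i + a1 * b i + a2 * b' i := fun i => by
    linear_combination hfe' i
  -- the coefficients lie in `L`
  have ld : ∀ (D : Derivation k Ω Ω) (s t : Ω), D (s * t) = s * D t + t * D s := by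
    intro D s t
    rw [Derivation.leibniz, smul_eq_mul, smul_eq_mul]
  have hWy : ∀ i, c.W (c.y i) = 0 := c.Wy
  have hWb : ∀ i, c.W (b i) = 0 := fun i => (c.mem_L_iff _).1 (hbL i)
  have hWb' : ∀ i, c.W (b' i) = 0 := fun i => (c.mem_L_iff _).1 (hbL' i)
  have hWe : ∀ i, c.W (e i) = 0 := fun i => (c.mem_L_iff _).1 (heL i)
  have hWf : ∀ i, c.W (f i) = 0 := fun i => (c.mem_L_iff _).1 (hfL i)
  obtain ⟨hWa0, hWa1, hWa2, -⟩ := hli (c.W a0) (c.W a1) (c.W a2) 0 (by
    intro i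
    have h := congrArg c.W (hfe i)
    rw [map_add, map_add, map_add, ld, ld, ld, hWf, hWe, hWy, hWb, hWb'] at h
    linear_combination -h)
  have ha1L : a1 ∈ c.L := (c.mem_L_iff _).2 hWa1
  have ha0L : a0 ∈ c.L := (c.mem_L_iff _).2 hWa0
  have ha2L : a2 ∈ c.L := (c.mem_L_iff _).2 hWa2
  -- commutators
  have h12 : ∀ z ∈ c.L, δ1 (δ2 z) - δ2 (δ1 z) = -(a0 * δ0 z + a1 * δ1 z + a2 * δ2 z) := by
    intro z hz
    have h := c.der_eq_on_L ⁅δ1, δ2⁆ (-(a0 • δ0 + a1 • δ1 + a2 • δ2)) (by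
      intro i
      rw [Derivation.commutator_apply, Derivation.neg_apply, Derivation.add_apply,
        Derivation.add_apply, Derivation.smul_apply, Derivation.smul_apply,
        Derivation.smul_apply, hδ0, hδ1, hδ2, he, hf, smul_eq_mul, smul_eq_mul, smul_eq_mul]
      linear_combination -hfe i) z hz
    rw [Derivation.commutator_apply, Derivation.neg_apply, Derivation.add_apply,
      Derivation.add_apply, Derivation.smul_apply, Derivation.smul_apply,
      Derivation.smul_apply, smul_eq_mul, smul_eq_mul, smul_eq_mul] at h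
    exact h
  have h01 : ∀ z ∈ c.L, δ0 (δ1 z) - δ1 (δ0 z) = -δ1 z := by
    intro z hz
    have h := c.der_eq_on_L ⁅δ0, δ1⁆ (-δ1) (by
      intro i
      rw [Derivation.commutator_apply, Derivation.neg_apply, hδ0, hδ1, b0, zero_sub]) z hz
    rw [Derivation.commutator_apply, Derivation.neg_apply] at h
    exact h
  have h02 : ∀ z ∈ c.L, δ0 (δ2 z) - δ2 (δ0 z) = -δ2 z := by
    intro z hz
    have h := c.der_eq_on_L ⁅δ0, δ2⁆ (-δ2) (by
      intro i
      rw [Derivation.commutator_apply, Derivation.neg_apply, hδ0, hδ2, b0', zero_sub]) z hz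
    rw [Derivation.commutator_apply, Derivation.neg_apply] at h
    exact h
  obtain ⟨ke, hke⟩ : ∃ ke, ke = a1 * a2 + a0 + δ1 a1 := ⟨_, rfl⟩
  obtain ⟨p, hp⟩ : ∃ p, p = a2 * a0 + δ1 a0 := ⟨_, rfl⟩
  obtain ⟨q, hq⟩ : ∃ q, q = a2 ^ 2 + δ1 a2 := ⟨_, rfl⟩
  obtain ⟨g0, g2, g1, da2, dk0, d2a2, d2k, d1k⟩ := n4_frame h12 h01 h02 hbL hbL' heL hfL ha1L
    hδ0 hδ1 hδ2 b0 b1 hf b0' he b2' hfe hli hke hp hq
  have hWke : c.W ke = 0 := by
    refine (c.mem_L_iff _).1 ?_
    rw [hke]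
    exact add_mem (add_mem (mul_mem ha1L ha2L) ha0L) (hL1 _ ha1L)
  -- the Gram matrix
  obtain ⟨G, hG⟩ : ∃ G : Matrix (Fin 4) (Fin 4) Ω,
      G = !![0, 0, 0, -1; 0, 0, 1, -a2; 0, 1, 0, 0; -1, -a2, 0, ke] := ⟨_, rfl⟩
  have hGdet : G.det = 1 := by
    rw [hG]
    simp [Matrix.det_succ_row_zero, Fin.sum_univ_succ, Fin.succAbove]
    norm_num
  have hGT : G.transpose = G := by
    rw [hG]
    ext i j
    fin_cases i <;> fin_cases j <;> rfl
  obtain ⟨Q, hQ⟩ : ∃ Q, Q = (F⁻¹).transpose * G * F⁻¹ := ⟨_, rfl⟩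
  have huT : IsUnit F.transpose.det := by rw [Matrix.det_transpose]; exact hu
  have hFQ : F.transpose * Q * F = G := by
    rw [hQ, Matrix.transpose_nonsing_inv, Matrix.mul_assoc (F.transpose)⁻¹,
      Matrix.mul_nonsing_inv_cancel_left _ _ huT, Matrix.nonsing_inv_mul_cancel_right _ _ hu]
  have hQT : Q.transpose = Q := by
    rw [hQ, Matrix.transpose_mul, Matrix.transpose_mul, Matrix.transpose_transpose, hGT,
      Matrix.mul_assoc]
  have hFD : ∀ D : Derivation k Ω Ω, F.map D =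
      Matrix.of fun i l => ![D (c.y i), D (b i), D (b' i), D (e i)] l := by
    intro D
    rw [hF]
    ext i l
    fin_cases l <;> rfl
  have mf : ∀ N : Matrix (Fin 4) (Fin 4) Ω, ∀ i l, (F * N) i l =
      c.y i * N 0 l + b i * N 1 l + b' i * N 2 l + e i * N 3 l := by
    intro N i l
    rw [Matrix.mul_apply, hF]
    simp [Fin.sum_univ_four]
  have hc : ∀ D : Derivation k Ω Ω, D (-1 : Ω) = 0 := by
    intro D
    rw [map_neg, Derivation.map_one_eq_zero, neg_zero]
  have hc1 : ∀ D : Derivation k Ω Ω, D (1 : Ω) = 0 := fun D => D.map_one_eq_zero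
  have hGD : ∀ D : Derivation k Ω Ω, G.map D =
      !![0, 0, 0, 0; 0, 0, 0, -D a2; 0, 0, 0, 0; 0, -D a2, 0, D ke] := by
    intro D
    rw [hG]
    ext i l
    fin_cases i <;> fin_cases l <;> simp [hc1]
  have hQ0 : Q.map δ0 = (0 : Ω) • Q := by
    refine n4_gram (N := !![1, 0, 0, 0; 0, 0, 0, 0; 0, 0, 0, 0; 0, 0, 0, -1]) hdet hFQ ?_ ?_
    · rw [hFD]
      ext i l
      rw [mf]
      fin_cases l <;> simp [hδ0, b0, b0', g0]
    · rw [hGD, hG, da2, dk0, neg_neg]
      exact n4_G0 a2 ke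
  have hQ1 : Q.map δ1 = a2 • Q := by
    refine n4_gram (N := !![0, 0, 0, -p; 1, 0, 0, -ke; 0, 0, 0, -q; 0, 0, 1, -(2 * a2)])
      hdet hFQ ?_ ?_
    · rw [hFD]
      ext i l
      rw [mf]
      fin_cases l <;> simp [hδ1, b1, he, g1]
      ring
    · rw [hGD, hG, d1k]
      exact n4_G1 a2 ke p q (δ1 a2) hq
  have hQ2 : Q.map δ2 = (-a1) • Q := by
    refine n4_gram (N := !![0, a0, 0, 0; 0, a1, 0, 0; 1, a2, 0, 0; 0, 1, 0, a1])
      hdet hFQ ?_ ?_
    · rw [hFD]
      ext i l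
      rw [mf]
      fin_cases l <;> simp [hδ2, b2', hf, g2]
      · rw [hfe i]
        ring
      · ring
    · rw [hGD, hG, d2k, d2a2, neg_neg]
      exact n4_G2 a0 a1 a2 ke (δ1 a1) hke
  have hQW : Q.map c.W = (0 : Ω) • Q := by
    refine n4_gram (N := 0) hdet hFQ ?_ ?_
    · rw [hFD]
      ext i l
      rw [mf]
      fin_cases l <;> simp [hWb, hWb', hWe, hWy]
    · rw [hGD, hWa2, hWke]
      ext i l
      fin_cases i <;> fin_cases l <;> simp
  have hQdet : Q.det ≠ 0 := by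
    intro h
    have h1 := congrArg Matrix.det hFQ
    rw [Matrix.det_mul, Matrix.det_mul, h, mul_zero, zero_mul, hGdet] at h1
    exact zero_ne_one h1
  obtain ⟨s, t, hst⟩ : ∃ s t, Q s t ≠ 0 := by
    by_contra hcon
    push Not at hcon
    have h1 : Q = 0 := by ext i j; exact hcon i j
    apply hQdet
    rw [h1]
    exact Matrix.det_zero
  have hrat : ∀ i j, ∃ m : k, algebraMap k Ω m = Q i j / Q s t := by
    intro i j
    rw [← acl_empty]
    have hk : ∀ (D : Derivation k Ω Ω) (lam : Ω), Q.map D = lam • Q →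
        D (Q i j / Q s t) = 0 := by
      intro D lam hD
      have h1 : D (Q i j) = lam * Q i j := congrFun (congrFun hD i) j
      have h2 : D (Q s t) = lam * Q s t := congrFun (congrFun hD s) t
      have h3 := congrArg D (div_mul_cancel₀ (Q i j) hst)
      rw [ld, h1, h2] at h3
      have h5 : Q i j / Q s t * (lam * Q s t) = lam * Q i j := by field_simp
      have h4 : Q s t * D (Q i j / Q s t) = 0 := by linear_combination h3 - h5
      exact (mul_eq_zero.1 h4).resolve_left hst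
    have hzL : Q i j / Q s t ∈ c.L := (c.mem_L_iff _).2 (hk c.W 0 hQW)
    refine mem_acl_of_forall_der c.tb fun D _ => ?_
    obtain ⟨α, β, γ, hv⟩ := hspan (fun i => D (c.y i)) (c.u_D D)
    have h6 := c.der_eq_on_L D (α • δ0 + β • δ1 + γ • δ2) (by
      intro i
      rw [Derivation.add_apply, Derivation.add_apply, Derivation.smul_apply,
        Derivation.smul_apply, Derivation.smul_apply, hδ0, hδ1, hδ2, smul_eq_mul, smul_eq_mul,
        smul_eq_mul]
      exact hv i) _ hzL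
    rw [h6, Derivation.add_apply, Derivation.add_apply, Derivation.smul_apply,
        Derivation.smul_apply, Derivation.smul_apply, hk δ0 0 hQ0, hk δ1 a2 hQ1,
        hk δ2 (-a1) hQ2, smul_zero, smul_zero, smul_zero, add_zero, add_zero]
  choose M hM using hrat
  have hsum : ∀ l l', ∑ i, ∑ j, algebraMap k Ω (M i j) * F i l * F j l' = G l l' / Q s t := by
    intro l l'
    rw [← hFQ, Matrix.mul_apply, Finset.sum_div, Finset.sum_comm]
    refine Finset.sum_congr rfl fun j _ => ?_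
    rw [Matrix.mul_apply, Finset.sum_mul, Finset.sum_div]
    refine Finset.sum_congr rfl fun i _ => ?_
    rw [hM, Matrix.transpose_apply]
    field_simp
  have hF0 : ∀ i, F i 0 = c.y i := fun i => by rw [hF]; rfl
  have hF1 : ∀ i, F i 1 = b i := fun i => by rw [hF]; rfl
  have hF2 : ∀ i, F i 2 = b' i := fun i => by rw [hF]; rfl
  refine ⟨Matrix.of M, ?_, ?_, ?_, ?_, ?_, ?_, ?_, ?_⟩
  · ext i j
    rw [Matrix.transpose_apply, Matrix.of_apply, Matrix.of_apply]
    apply (algebraMap k Ω).injective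
    rw [hM, hM]
    congr 1
    exact congrFun (congrFun hQT i) j
  · intro h
    have h1 := RingHom.map_det (algebraMap k Ω) (Matrix.of M)
    rw [h, map_zero] at h1
    have h2 : (algebraMap k Ω).mapMatrix (Matrix.of M) = (Q s t)⁻¹ • Q := by
      ext i j
      rw [RingHom.mapMatrix_apply, Matrix.map_apply, Matrix.of_apply, hM, Matrix.smul_apply,
        smul_eq_mul, div_eq_inv_mul]
    rw [h2, Matrix.det_smul] at h1
    rcases mul_eq_zero.1 h1.symm with h3 | h3
    · exact (pow_ne_zero _ (inv_ne_zero hst)) h3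
    · exact hQdet h3
  · have h := hsum 0 0
    simp only [hF0] at h
    simp only [Matrix.of_apply]
    rw [h, hG]
    simp
  · have h := hsum 0 1
    simp only [hF0, hF1] at h
    simp only [Matrix.of_apply]
    rw [h, hG]
    simp
  · have h := hsum 0 2
    simp only [hF0, hF2] at h
    simp only [Matrix.of_apply]
    rw [h, hG]
    simp
  · have h := hsum 1 1
    simp only [hF1] at h
    simp only [Matrix.of_apply]
    rw [h, hG]
    simp
  · have h := hsum 2 2
    simp only [hF2] at h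
    simp only [Matrix.of_apply]
    rw [h, hG]
    simp
  · have h := hsum 1 2
    simp only [hF1, hF2] at h
    simp only [Matrix.of_apply]
    rw [h, hG]
    simp [hst]

end Ctx3

end Pool.Agent.HDP
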