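import Mathlib
import Pool.Agent.Lib.MP_20906e_al.Defs
import Pool.Agent.Lib.MP_20906e_al.Ctx
import Pool.Agent.Lib.MP_20906e_al.CtxN
import Pool.Agent.Lib.MP_20906e_al.Acl
import Pool.Agent.Lib.MP_20906e_al.Der
import Pool.Agent.Lib.MP_20906e_al.Lin
import Pool.Agent.Lib.MP_20906e_al.B2a
import Pool.Agent.Lib.MP_20906e_al.B2b

/-!
# MP_20906e_al, pieces N0, N1 (helper78)
-/

set_option linter.unusedSectionVars false
set_option linter.unusedVariables false

namespace Pool.Agent.HDP
open MvPolynomial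

namespace Ctx3
variable {k Ω : Type*} [Field k] [IsAlgClosed k] [CharZero k] [Field Ω] [IsAlgClosed Ω] [Algebra k Ω]
  (c : Ctx3 k Ω)

/-! ## N0 -/
theorem uZ0_ne : ∑ i, c.u i * c.Z0 (c.x i) ≠ 0 := by
  intro h
  obtain ⟨D, hD, -⟩ := c.exists_der_y (fun i => c.Z0 (c.x i)) h
  -- the Jacobian matrix at `x`
  set A : Matrix (Fin 4) (Fin 4) Ω := (jac c.H).map (aeval c.x) with hA
  have hAn : IsNilpotent A := by
    obtain ⟨m, hm⟩ := c.nil.nilp
    refine ⟨m, ?_⟩
    have h1 : A = (aeval c.x : MvPolynomial (Fin 4) k →ₐ[k] Ω).toRingHom.mapMatrix (jac c.H) := rfl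
    rw [h1, ← map_pow, hm, map_zero]
  have hA4 : A ^ 4 = 0 := nilp_pow_card hAn
  have hDy : ∀ (D' : Derivation k Ω Ω), (fun i => D' (c.y i)) = A.mulVec (fun i => D' (c.x i)) := by
    intro D'
    funext i
    rw [c.hy i, der_aeval]
    rfl
  have h0 : (fun i => c.Z0 (c.x i)) = A.mulVec (fun i => D (c.x i)) := by
    rw [← hDy]
    funext i
    exact (hD i).symm
  have h1 : (fun i => c.V1 (c.x i)) = A.mulVec (fun i => c.Z0 (c.x i)) := by
    rw [← hDy]
    funext i
    exact c.V1x i
  have h2 : (fun i => c.V2 (c.x i)) = A.mulVec (fun i => c.V1 (c.x i)) := by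
    rw [← hDy]
    funext i
    exact c.V2x i
  have h3 : (fun i => c.W (c.x i)) = A.mulVec (fun i => c.V2 (c.x i)) := by
    rw [← hDy]
    funext i
    exact c.Wx i
  have h4 : (fun i => c.W (c.x i)) = 0 := by
    rw [h3, h2, h1, h0, Matrix.mulVec_mulVec, Matrix.mulVec_mulVec, Matrix.mulVec_mulVec]
    have h5 : A * (A * (A * A)) = A ^ 4 := by noncomm_ring
    have h6 : A * A * A * A = A ^ 4 := by noncomm_ring
    first
      | rw [h5, hA4, Matrix.zero_mulVec]
      | rw [h6, hA4, Matrix.zero_mulVec]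
  refine c.not_algInd_four c.x ?_ c.tb.1
  intro i
  rw [mem_L_iff]
  exact congrFun h4 i

/-! ## N1: nondegeneracy in the non developable case -/
theorem nondev_radical (h : ¬ c.Dev) (v : Fin 4 → Ω) (hv : ∀ i, v i ∈ c.L)
    (huv : ∑ i, c.u i * v i = 0)
    (hS : ∀ v' : Fin 4 → Ω, (∀ i, v' i ∈ c.L) → ∑ i, c.u i * v' i = 0 → c.Sf v v' = 0) :
    ∃ e : Ω, ∀ i, v i = e * c.y i := by
  classical
  obtain ⟨j, huj⟩ := c.u_ne
  -- `S v` is parallel to `u`
  have hSv : ∀ i, ∑ l, c.S i l * v l = c.u i / c.u j * ∑ l, c.S j l * v l := by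
    intro i
    by_cases hij : i = j
    · subst hij
      field_simp
    have h1 := hS (fun l => if l = i then 1 else if l = j then -(c.u i / c.u j) else 0) ?_ ?_
    · have h2 : c.Sf v (fun l => if l = i then 1 else if l = j then -(c.u i / c.u j) else 0)
          = ∑ l, c.S i l * v l - c.u i / c.u j * ∑ l, c.S j l * v l := by
        unfold Sf
        rw [Finset.mul_sum, ← Finset.sum_sub_distrib]
        refine Finset.sum_congr rfl fun l _ => ?_
        rw [← Finset.sum_erase_add _ _ (Finset.mem_univ i),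
          Finset.sum_eq_single_of_mem j (by simp [Ne.symm hij])]
        · beta_reduce
          rw [if_neg (Ne.symm hij), if_pos rfl, if_pos rfl, c.S_symm l j, c.S_symm l i]
          ring
        · intro m hm hmj
          beta_reduce
          rw [if_neg (by simpa using hm), if_neg hmj, mul_zero]
      rw [h2] at h1
      exact sub_eq_zero.1 h1
    · intro l
      split_ifs
      · exact one_mem _
      · exact neg_mem (div_mem (c.u_mem i) (c.u_mem j))
      · exact zero_mem _
    · rw [← Finset.sum_erase_add _ _ (Finset.mem_univ i),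
          Finset.sum_eq_single_of_mem j (by simp [Ne.symm hij])]
      · rw [if_neg (Ne.symm hij), if_pos rfl, if_pos rfl]
        field_simp
        ring
      · intro m hm hmj
        rw [if_neg (by simpa using hm), if_neg hmj, mul_zero]
  obtain ⟨Dv, hDv, -⟩ := c.exists_der_y v huv
  obtain ⟨Dy, hDy, -⟩ := c.exists_der_y c.y c.u_y
  -- both derivations kill the ratios `u i / u j`
  have hratio : ∀ (D : Derivation k Ω Ω) (e : Ω), (∀ i, D (c.u i) = e * c.u i) →
      ∀ i, D (c.u i / c.u j) = 0 := by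
    intro D e he i
    rw [Derivation.leibniz_div, he, he]
    simp only [smul_eq_mul]
    field_simp
    ring
  have hkv : ∀ i, Dv (c.u i / c.u j) = 0 := by
    refine hratio Dv ((∑ l, c.S j l * v l) / c.u j) fun i => ?_
    rw [c.D_u]
    simp only [hDv]
    rw [hSv i]
    field_simp
  have hky : ∀ i, Dy (c.u i / c.u j) = 0 := by
    refine hratio Dy ((c.r : Ω) - 1) fun i => ?_
    rw [c.D_u]
    simp only [hDy]
    exact c.S_y i
  -- two independent ratios
  have hτ : ∃ i, c.u i / c.u j ∉ acl k (∅ : Set Ω) := by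
    by_contra hcon
    push Not at hcon
    exact h ⟨0, j, zero_mem _, huj, fun i => acl_mono (Set.empty_subset _) (hcon i)⟩
  obtain ⟨i1, hi1⟩ := hτ
  have hρ : ∃ i, c.u i / c.u j ∉ acl k ({c.u i1 / c.u j} : Set Ω) := by
    by_contra hcon
    push Not at hcon
    exact h ⟨c.u i1 / c.u j, j, div_mem (c.u_mem i1) (c.u_mem j), huj, hcon⟩
  obtain ⟨i2, hi2⟩ := hρ
  set τ := c.u i1 / c.u j with hτdef
  set ρ := c.u i2 / c.u j with hρdef
  have hind0 : AlgebraicIndependent k (![] : Fin 0 → Ω) := by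
    rw [algebraicIndependent_empty_type_iff]
    exact (algebraMap k Ω).injective
  have hind1 : AlgebraicIndependent k (Fin.cons τ ![] : Fin 1 → Ω) := by
    apply algInd_cons hind0
    rwa [Matrix.range_empty]
  have hind2 : AlgebraicIndependent k (Fin.cons ρ (Fin.cons τ ![] : Fin 1 → Ω) : Fin 2 → Ω) := by
    apply algInd_cons hind1
    have hr : Set.range (Fin.cons τ ![] : Fin 1 → Ω) = {τ} := by
      ext a
      constructor
      · rintro ⟨i, rfl⟩
        have : i = 0 := Fin.fin_one_eq_zero i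
        subst this
        rfl
      · rintro rfl
        exact ⟨0, rfl⟩
    rwa [hr]
  obtain ⟨y', hy', hyl, -⟩ := c.exists_three
  have hex : ∃ m, y' m ∉ acl k (Set.range (Fin.cons ρ (Fin.cons τ ![] : Fin 1 → Ω) : Fin 2 → Ω)) := by
    by_contra hcon
    push Not at hcon
    exact not_algInd_of_lt hcon (by norm_num) hy'
  obtain ⟨m, hm⟩ := hex
  have hind3 := algInd_cons hind2 hm
  set t : Ω := y' m with ht
  have htL : t ∈ c.L := by
    obtain ⟨l, hl⟩ := hyl m
    rw [ht, hl]
    exact c.y_mem l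
  have hτL : τ ∈ c.L := div_mem (c.u_mem i1) (c.u_mem j)
  have hρL : ρ ∈ c.L := div_mem (c.u_mem i2) (c.u_mem j)
  have hall : ∀ i, (Fin.cons t (Fin.cons ρ (Fin.cons τ ![] : Fin 1 → Ω) : Fin 2 → Ω) : Fin 3 → Ω) i
      ∈ c.L := by
    intro i
    refine Fin.cases htL (fun i => ?_) i
    refine Fin.cases hρL (fun i => ?_) i
    refine Fin.cases hτL (fun i => ?_) i
    exact i.elim0
  have hLe := c.L_eq_acl _ hind3 hall
  -- the combination killing `L`
  have hkill : ∀ f ∈ c.L, (Dy t • Dv - Dv t • Dy) f = 0 := by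
    intro f hf
    refine der_acl_zero (Dy t • Dv - Dv t • Dy) ?_ f ((hLe f).1 hf)
    rintro _ ⟨i, rfl⟩
    refine Fin.cases ?_ (fun i => ?_) i
    · simp only [Fin.cons_zero, Derivation.sub_apply, Derivation.smul_apply, smul_eq_mul]
      ring
    refine Fin.cases ?_ (fun i => ?_) i
    · simp only [Fin.cons_succ, Fin.cons_zero, Derivation.sub_apply, Derivation.smul_apply,
        smul_eq_mul]
      rw [hρdef, hkv, hky]
      ring
    refine Fin.cases ?_ (fun i => ?_) i
    · simp only [Fin.cons_succ, Fin.cons_zero, Derivation.sub_apply, Derivation.smul_apply,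
        smul_eq_mul]
      rw [hτdef, hkv, hky]
      ring
    exact i.elim0
  have hlin : ∀ i, Dy t * v i = Dv t * c.y i := by
    intro i
    have h1 := hkill _ (c.y_mem i)
    simp only [Derivation.sub_apply, Derivation.smul_apply, smul_eq_mul, hDv, hDy] at h1
    exact sub_eq_zero.1 h1
  have hβ : Dy t ≠ 0 := by
    obtain ⟨l, hl⟩ := hyl m
    rw [ht, hl, hDy, ← hl]
    exact hy'.ne_zero m
  refine ⟨Dv t / Dy t, fun i => ?_⟩
  have := hlin i
  field_simp
  linear_combination this

end Ctx3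
end Pool.Agent.HDP
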