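import Mathlib
import Pool.Agent.Lib.MP_20906e_al.B2b
import Pool.Agent.Lib.MP_20906e_al.B3
import Pool.Agent.Lib.MP_20906e_al.B4
import Pool.Agent.Lib.MP_20906e_al.CtxN
import Pool.Agent.Lib.MP_20906e_al.N1

/-!
# MP_20906e_al, piece N5: two rulings or line fibres (helper24)
-/

set_option linter.unusedSectionVars false

namespace Pool.Agent.HDP
open MvPolynomial

namespace Ctx3

section Val
variable {Ω : Type*} [Field Ω] (V : ValuationSubring Ω)

/-- `z` and `e` agree modulo the maximal ideal -/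
private def Cg (z e : Ω) : Prop := V.valuation (z - e) < 1

variable {V}

private theorem Cg.refl (z : Ω) : Cg V z z := by
  unfold Cg; simp

private theorem Cg.add {z e z' e' : Ω} (h : Cg V z e) (h' : Cg V z' e') : Cg V (z + z') (e + e') := by
  unfold Cg at *
  rw [show z + z' - (e + e') = (z - e) + (z' - e') by ring]
  exact Valuation.map_add_lt _ h h'

private theorem Cg.neg {z e : Ω} (h : Cg V z e) : Cg V (-z) (-e) := by
  unfold Cg at *
  rw [show -z - -e = -(z - e) by ring, Valuation.map_neg]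
  exact h

private theorem Cg.sub {z e z' e' : Ω} (h : Cg V z e) (h' : Cg V z' e') : Cg V (z - z') (e - e') := by
  rw [sub_eq_add_neg, sub_eq_add_neg]
  exact h.add h'.neg

private theorem lt_mul {a b : Ω} (ha : a ∈ V) (hb : V.valuation b < 1) : V.valuation (a * b) < 1 := by
  rw [map_mul]
  have h1 : V.valuation a ≤ 1 := (V.valuation_le_one_iff a).2 ha
  calc V.valuation a * V.valuation b ≤ 1 * V.valuation b := by gcongr
    _ = V.valuation b := one_mul _
    _ < 1 := hb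

private theorem Cg.mem_left {z e : Ω} (h : Cg V z e) (he : e ∈ V) : z ∈ V := by
  unfold Cg at h
  have h1 : z - e ∈ V := (V.valuation_le_one_iff _).1 h.le
  have := add_mem h1 he
  simpa using this

private theorem Cg.mul {z e z' e' : Ω} (h : Cg V z e) (h' : Cg V z' e') (he : e ∈ V) (he' : e' ∈ V) :
    Cg V (z * z') (e * e') := by
  have hz := h.mem_left he
  unfold Cg at *
  rw [show z * z' - e * e' = z * (z' - e') + e' * (z - e) by ring]
  exact Valuation.map_add_lt _ (lt_mul hz h') (lt_mul he' h)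

private theorem Cg.sum {ι : Type*} {s : Finset ι} {f g : ι → Ω} (h : ∀ i ∈ s, Cg V (f i) (g i)) :
    Cg V (∑ i ∈ s, f i) (∑ i ∈ s, g i) := by
  classical
  induction s using Finset.induction_on with
  | empty => simpa using Cg.refl (V := V) (0 : Ω)
  | insert a s ha ih =>
    rw [Finset.sum_insert ha, Finset.sum_insert ha]
    exact (h a (Finset.mem_insert_self _ _)).add (ih fun i hi => h i (Finset.mem_insert_of_mem hi))

private theorem Cg.trans {z e w : Ω} (h : Cg V z e) (h' : Cg V e w) : Cg V z w := by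
  have := h.add h'
  unfold Cg at *
  rwa [show z + e - (e + w) = z - w by ring] at this

private theorem Cg.symm {z e : Ω} (h : Cg V z e) : Cg V e z := by
  unfold Cg at *
  rw [show e - z = -(z - e) by ring, Valuation.map_neg]
  exact h

private theorem Cg.eq_left {z z' e : Ω} (h : Cg V z e) (hz : z' = z) : Cg V z' e := by
  subst hz; exact h

private theorem Cg.eq_right {z e e' : Ω} (h : Cg V z e) (he : e' = e) : Cg V z e' := by
  subst he; exact h

private theorem inv_lt {z : Ω} (hz : z ∉ V) : V.valuation z⁻¹ < 1 := by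
  have h1 : ¬ V.valuation z ≤ 1 := fun h => hz ((V.valuation_le_one_iff z).1 h)
  push Not at h1
  rw [map_inv₀]
  exact inv_lt_one_of_one_lt₀ h1

end Val

section Scale
variable {k Ω : Type*} [Field k] [Field Ω] [Algebra k Ω]

private theorem aeval_scale {n : ℕ} {P : MvPolynomial (Fin n) k} {m : ℕ} (hP : P.IsHomogeneous m)
    (e : Ω) (y : Fin n → Ω) : aeval (fun i => e * y i) P = e ^ m * aeval y P := by
  rw [aeval_def, aeval_def, eval₂_eq', eval₂_eq', Finset.mul_sum]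
  refine Finset.sum_congr rfl fun s hs => ?_
  have h1 : ∑ i, s i = m := by
    have h2 := hP (mem_support_iff.1 hs)
    have h3 := DFunLike.congr_fun (Finsupp.degree_eq_weight_one (R := ℕ) (σ := Fin n)) s
    rw [← Finsupp.degree_eq_sum]
    exact h3.trans h2
  simp only [mul_pow]
  rw [Finset.prod_mul_distrib, Finset.prod_pow_eq_pow_sum, h1]
  ring

end Scale

variable {k Ω : Type*} [Field k] [IsAlgClosed k] [CharZero k] [Field Ω] [IsAlgClosed Ω] [Algebra k Ω]
  (c : Ctx3 k Ω)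

private theorem not_par {b : Fin 4 → Ω} {i0 : Fin 4} (h1 : b i0 = 1)
    (h2 : Ctx3.TwoForms (k := k) b) : ¬ ∃ e : Ω, ∀ i, b i = e * c.y i := by
  rintro ⟨e, he⟩
  obtain ⟨P, Q, p, q, hrel, hP, hQ, hPb, hQb⟩ := h2
  have he0 : e ≠ 0 := by
    rintro rfl
    rw [he i0, zero_mul] at h1
    exact zero_ne_one h1
  have hb : b = fun i => e * c.y i := funext he
  rw [hb, aeval_scale hP] at hPb
  rw [hb, aeval_scale hQ] at hQb
  have h3 := c.Rmin P ((mul_eq_zero.1 hPb).resolve_left (pow_ne_zero _ he0))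
  have h4 := c.Rmin Q ((mul_eq_zero.1 hQb).resolve_left (pow_ne_zero _ he0))
  exact c.Rirr.not_isUnit (hrel h3 h4)

/-! ### bilinear algebra -/

private theorem Sf_symm (v w : Fin 4 → Ω) : c.Sf v w = c.Sf w v := by
  unfold Sf
  rw [Finset.sum_comm]
  refine Finset.sum_congr rfl fun i _ => Finset.sum_congr rfl fun j _ => ?_
  rw [c.S_symm j i]; ring

private theorem Sf_add_right (v w w' : Fin 4 → Ω) : c.Sf v (w + w') = c.Sf v w + c.Sf v w' := by
  simp only [Sf, Pi.add_apply, mul_add, Finset.sum_add_distrib]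

private theorem Sf_smul_right (v : Fin 4 → Ω) (a : Ω) (w : Fin 4 → Ω) :
    c.Sf v (a • w) = a * c.Sf v w := by
  simp only [Sf, Pi.smul_apply, smul_eq_mul, Finset.mul_sum]
  refine Finset.sum_congr rfl fun i _ => Finset.sum_congr rfl fun j _ => ?_
  ring

private theorem Sf_add_left (v v' w : Fin 4 → Ω) : c.Sf (v + v') w = c.Sf v w + c.Sf v' w := by
  rw [Sf_symm, Sf_add_right, c.Sf_symm w v, c.Sf_symm w v']

private theorem Sf_smul_left (v : Fin 4 → Ω) (a : Ω) (w : Fin 4 → Ω) :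
    c.Sf (a • v) w = a * c.Sf v w := by
  rw [Sf_symm, Sf_smul_right, c.Sf_symm w v]

private theorem Sf_y_right (v : Fin 4 → Ω) :
    c.Sf v c.y = ((c.r : Ω) - 1) * (c.u ⬝ᵥ v) := by
  unfold Sf dotProduct
  rw [Finset.mul_sum]
  refine Finset.sum_congr rfl fun i _ => ?_
  have h := c.S_y i
  calc ∑ j, c.S i j * v i * c.y j = v i * ∑ j, c.S i j * c.y j := by
        rw [Finset.mul_sum]; exact Finset.sum_congr rfl fun j _ => by ring
    _ = _ := by rw [h]; ring

private theorem Sf_y_left (v : Fin 4 → Ω) :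
    c.Sf c.y v = ((c.r : Ω) - 1) * (c.u ⬝ᵥ v) := by
  rw [Sf_symm, Sf_y_right]

private theorem Sf_mem {v w : Fin 4 → Ω} (hv : ∀ i, v i ∈ c.L) (hw : ∀ i, w i ∈ c.L) :
    c.Sf v w ∈ c.L :=
  sum_mem fun i _ => sum_mem fun j _ => mul_mem (mul_mem (c.S_mem i j) (hv i)) (hw j)

private theorem dot_mem {v w : Fin 4 → Ω} (hv : ∀ i, v i ∈ c.L) (hw : ∀ i, w i ∈ c.L) :
    v ⬝ᵥ w ∈ c.L :=
  sum_mem fun i _ => mul_mem (hv i) (hw i)

private theorem uy : c.u ⬝ᵥ c.y = 0 := c.u_y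

/-- the kernel of `u` is spanned by `y, b, β` -/
private theorem span_u {b β : Fin 4 → Ω} (hub : c.u ⬝ᵥ b = 0) (huβ : c.u ⬝ᵥ β = 0)
    (hbb : c.Sf b b = 0) (hββ : c.Sf β β = 0) (hbβ : c.Sf b β = 1) {v : Fin 4 → Ω}
    (hv : c.u ⬝ᵥ v = 0) : ∃ s : Ω, v = c.Sf v β • b + c.Sf v b • β + s • c.y := by
  have hy0 : c.y ≠ 0 := by
    intro h
    have := c.lin_indep_y (fun _ => 1) (by rw [h]; simp)
    exact one_ne_zero (congrFun this 0)
  have hβb : c.Sf β b = 1 := by rw [Sf_symm, hbβ]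
  -- the functional
  let f : (Fin 4 → Ω) →ₗ[Ω] Ω :=
    { toFun := fun w => c.u ⬝ᵥ w
      map_add' := fun w w' => dotProduct_add _ _ _
      map_smul' := fun a w => by rw [dotProduct_smul]; rfl }
  have hf : ∀ w, f w = c.u ⬝ᵥ w := fun _ => rfl
  have hfs : Function.Surjective f := by
    obtain ⟨j, hj⟩ := c.u_ne
    intro z
    refine ⟨Pi.single j (z / c.u j), ?_⟩
    rw [hf, dotProduct_single]
    field_simp
  have hfin : Module.finrank Ω (LinearMap.ker f) = 3 := by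
    have h1 := f.finrank_range_add_finrank_ker
    rw [LinearMap.range_eq_top.2 hfs, finrank_top, Module.finrank_self, Module.finrank_fin_fun] at h1
    omega
  let w : Fin 3 → LinearMap.ker f := ![⟨c.y, c.uy⟩, ⟨b, hub⟩, ⟨β, huβ⟩]
  have hw : ∀ a : Fin 3 → Ω, ((∑ i, a i • w i : LinearMap.ker f) : Fin 4 → Ω) =
      a 0 • c.y + a 1 • b + a 2 • β := by
    intro a
    rw [Fin.sum_univ_three]
    rfl
  have hp : ∀ a0 a1 a2 : Ω, c.Sf (a0 • c.y + a1 • b + a2 • β) β = a1 ∧
      c.Sf (a0 • c.y + a1 • b + a2 • β) b = a2 := by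
    intro a0 a1 a2
    constructor <;>
    simp only [Sf_add_left, Sf_smul_left, Sf_y_left, hub, huβ, hbb, hββ, hbβ, hβb] <;> ring
  have hli : LinearIndependent Ω w := by
    rw [Fintype.linearIndependent_iff]
    intro a ha
    have h1 := congrArg (Subtype.val) ha
    rw [hw] at h1
    have h2 := hp (a 0) (a 1) (a 2)
    have h0 : ∀ z : Fin 4 → Ω, c.Sf ((0 : LinearMap.ker f) : Fin 4 → Ω) z = 0 := by
      intro z
      simp [Sf]
    rw [h1, h0, h0] at h2
    have h3 : a 0 • c.y = 0 := by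
      rw [← h2.1, ← h2.2] at h1
      simpa using h1
    have h4 : a 0 = 0 := by
      rcases smul_eq_zero.1 h3 with h | h
      · exact h
      · exact absurd h hy0
    intro i
    fin_cases i
    · exact h4
    · exact h2.1.symm
    · exact h2.2.symm
  have htop := hli.span_eq_top_of_card_eq_finrank' (by rw [hfin]; rfl)
  have hmem : (⟨v, hv⟩ : LinearMap.ker f) ∈ Submodule.span Ω (Set.range w) := by
    rw [htop]; exact Submodule.mem_top
  obtain ⟨a, ha⟩ := (Submodule.mem_span_range_iff_exists_fun Ω).1 hmem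
  have h1 := congrArg (Subtype.val) ha
  rw [hw] at h1
  simp only at h1
  have h2 := hp (a 0) (a 1) (a 2)
  rw [h1] at h2
  refine ⟨a 0, ?_⟩
  rw [h2.1, h2.2]
  nth_rewrite 1 [← h1]
  abel

/-- coordinates are in `L` -/
private theorem span_u_L {b β : Fin 4 → Ω} {v : Fin 4 → Ω} (hb : ∀ i, b i ∈ c.L)
    (hβ : ∀ i, β i ∈ c.L) (hv : ∀ i, v i ∈ c.L) {s : Ω}
    (h : v = c.Sf v β • b + c.Sf v b • β + s • c.y) : s ∈ c.L := by
  obtain ⟨j, hj⟩ : ∃ j, c.y j ≠ 0 := by
    by_contra hcon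
    push Not at hcon
    have := c.lin_indep_y (fun _ => 1) (by simp [hcon])
    exact one_ne_zero (congrFun this 0)
  have h1 := congrFun h j
  simp only [Pi.add_apply, Pi.smul_apply, smul_eq_mul] at h1
  have h2 : s = (v j - c.Sf v β * b j - c.Sf v b * β j) / c.y j := by
    rw [eq_div_iff hj]
    linear_combination -h1
  rw [h2]
  exact div_mem (sub_mem (sub_mem (hv j) (mul_mem (c.Sf_mem hv hβ) (hb j)))
    (mul_mem (c.Sf_mem hv hb) (hβ j))) (c.y_mem j)

/-- the complementary vector -/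
private theorem exists_beta (h : ¬ c.Dev) {b : Fin 4 → Ω} (hbL : ∀ i, b i ∈ c.L)
    (hub : c.u ⬝ᵥ b = 0) (hbb : c.Sf b b = 0) (hpar : ¬ ∃ e : Ω, ∀ i, b i = e * c.y i) :
    ∃ β : Fin 4 → Ω, (∀ i, β i ∈ c.L) ∧ c.u ⬝ᵥ β = 0 ∧ c.Sf β β = 0 ∧ c.Sf b β = 1 := by
  obtain ⟨v, hvL, huv, hSv⟩ : ∃ v : Fin 4 → Ω, (∀ i, v i ∈ c.L) ∧ c.u ⬝ᵥ v = 0 ∧ c.Sf b v ≠ 0 := by
    by_contra hcon
    push Not at hcon
    exact hpar (c.nondev_radical h b hbL hub fun v' hv' huv' => hcon v' hv' huv')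
  have hcz : CharZero Ω := charZero_of_injective_algebraMap (algebraMap k Ω).injective
  set t := c.Sf b v with ht
  set β1 : Fin 4 → Ω := t⁻¹ • v with hβ1
  set a := c.Sf β1 β1 with ha
  have htL : t ∈ c.L := c.Sf_mem hbL hvL
  have hβ1L : ∀ i, β1 i ∈ c.L := fun i => mul_mem (inv_mem htL) (hvL i)
  have haL : a ∈ c.L := c.Sf_mem hβ1L hβ1L
  have h1 : c.Sf b β1 = 1 := by
    rw [hβ1, Sf_smul_right, ← ht]
    exact inv_mul_cancel₀ hSv
  have h1' : c.Sf β1 b = 1 := by rw [Sf_symm, h1]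
  refine ⟨β1 + (-(a / 2)) • b, fun i => add_mem (hβ1L i) (mul_mem (neg_mem (div_mem haL ?_)) (hbL i)),
    ?_, ?_, ?_⟩
  · exact ofNat_mem _ 2
  · have h2 : c.u ⬝ᵥ β1 = 0 := by rw [hβ1, dotProduct_smul, huv, smul_zero]
    rw [dotProduct_add, h2, zero_add]
    exact (dotProduct_smul _ _ _).trans (by rw [hub, smul_zero])
  · simp only [Sf_add_right, Sf_add_left, Sf_smul_right, Sf_smul_left, hbb, h1, h1', ← ha]
    ring
  · simp only [Sf_add_right, Sf_smul_right, hbb, h1]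
    ring

/-! ### derivations -/

private theorem exists_cov {f : Ω} (hf : f ∈ c.L) : ∃ g : Fin 4 → Ω, (∀ i, g i ∈ c.L) ∧
    ∀ D : Derivation k Ω Ω, D f = ∑ i, g i * D (c.y i) := by
  classical
  obtain ⟨j, huj, hj, E, hE⟩ := c.exists_index
  refine ⟨fun i => if i = j then 0 else E i f, fun i => ?_, fun D => ?_⟩
  · dsimp only
    split_ifs with hij
    · exact zero_mem _
    · refine der_acl_mem (S := Set.range c.y) (T := Set.range c.y) (E i) (subset_acl _) ?_ f hf
      rintro _ ⟨l, rfl⟩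
      by_cases hl : l = j
      · subst hl
        have h1 := (hE i hij).2
        have h2 : E i (c.y l) = -(c.u i) / c.u l := by
          rw [eq_div_iff huj]
          linear_combination h1
        rw [h2]
        exact div_mem (neg_mem (c.u_mem i)) (c.u_mem l)
      · rw [(hE i hij).1 l hl]
        split_ifs
        · exact one_mem _
        · exact zero_mem _
  · let D' : Derivation k Ω Ω := ∑ i ∈ Finset.univ.erase j, D (c.y i) • E i
    have hD1 : ∀ l, l ≠ j → D' (c.y l) = D (c.y l) := by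
      intro l hl
      simp only [D']
      rw [der_sum_apply, Finset.sum_eq_single_of_mem l (by simp [hl])]
      · rw [Derivation.smul_apply, (hE l hl).1 l hl, if_pos rfl, smul_eq_mul, mul_one]
      · intro i hi hil
        rw [Derivation.smul_apply, (hE i (by simpa using hi)).1 l hl, if_neg hil, smul_zero]
    have hD : ∀ i, D' (c.y i) = D (c.y i) := by
      intro i
      by_cases hij : i = j
      · subst hij
        have h1 := c.u_D D'
        have h2 := c.u_D D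
        rw [← Finset.sum_erase_add _ _ (Finset.mem_univ i)] at h1 h2
        rw [Finset.sum_congr rfl (fun l hl => by rw [hD1 l (by simpa using hl)])] at h1
        have h3 : c.u i * (D' (c.y i) - D (c.y i)) = 0 := by linear_combination h1 - h2
        exact sub_eq_zero.1 ((mul_eq_zero.1 h3).resolve_left huj)
      · exact hD1 i hij
    have h1 := c.der_eq_on_L D' D hD f hf
    rw [← h1]
    simp only [D']
    rw [der_sum_apply, ← Finset.sum_erase_add _ _ (Finset.mem_univ j), if_pos rfl, zero_mul,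
      add_zero]
    refine Finset.sum_congr rfl fun i hi => ?_
    rw [Derivation.smul_apply, smul_eq_mul, if_neg (by simpa using hi), mul_comm]

private theorem W_Sfxx : c.W (c.Sf c.x c.x) = 2 * c.V2 c.G := by
  have h1 : c.W (c.Sf c.x c.x) = ∑ i, ∑ j, (c.S i j * c.x i * c.V2 (c.y j)
      + c.S i j * c.x j * c.V2 (c.y i)) := by
    unfold Sf
    rw [map_sum]
    refine Finset.sum_congr rfl fun i _ => ?_
    rw [map_sum]
    refine Finset.sum_congr rfl fun j _ => ?_
    have h2 : c.W (c.S i j) = 0 := (c.mem_L_iff _).1 (c.S_mem i j)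
    rw [Derivation.leibniz, Derivation.leibniz, h2, c.Wx, c.Wx]
    simp only [smul_eq_mul]
    ring
  have h3 : ∑ i, ∑ j, c.S i j * c.x j * c.V2 (c.y i) = ∑ i, ∑ j, c.S i j * c.x i * c.V2 (c.y j) := by
    rw [Finset.sum_comm]
    refine Finset.sum_congr rfl fun i _ => Finset.sum_congr rfl fun j _ => ?_
    rw [c.S_symm j i]
  have h4 : ∑ i, ∑ j, c.S i j * c.x i * c.V2 (c.y j) = ∑ i, c.x i * c.V2 (c.u i) := by
    refine Finset.sum_congr rfl fun i _ => ?_
    rw [c.D_u, Finset.mul_sum]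
    exact Finset.sum_congr rfl fun j _ => by ring
  have h5 : c.V2 c.G = ∑ i, c.x i * c.V2 (c.u i) := by
    unfold G
    rw [map_sum]
    have h6 : ∀ i, c.V2 (c.u i * c.x i) = c.u i * c.V1 (c.y i) + c.x i * c.V2 (c.u i) := by
      intro i
      rw [Derivation.leibniz, c.V2x, smul_eq_mul, smul_eq_mul]
    simp only [h6]
    rw [Finset.sum_add_distrib, c.u_D c.V1, zero_add]
  rw [h1]
  simp only [Finset.sum_add_distrib]
  rw [h3, h4, h5]
  ring

private theorem W_gx {g : Fin 4 → Ω} (hg : ∀ i, g i ∈ c.L)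
    (hD : ∀ D : Derivation k Ω Ω, D c.G = ∑ i, g i * D (c.y i)) :
    c.W (g ⬝ᵥ c.x) = c.V2 c.G := by
  unfold dotProduct
  rw [map_sum, hD c.V2]
  refine Finset.sum_congr rfl fun i _ => ?_
  have h2 : c.W (g i) = 0 := (c.mem_L_iff _).1 (hg i)
  rw [Derivation.leibniz, h2, c.Wx, smul_zero, add_zero, smul_eq_mul]

private theorem E_u (i : Fin 4) : c.E (c.u i) = (c.d : Ω) * ((c.r : Ω) - 1) * c.u i := by
  rw [c.D_u]
  have h1 : ∑ j, c.S i j * c.E (c.y j) = (c.d : Ω) * ∑ j, c.S i j * c.y j := by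
    rw [Finset.mul_sum]
    refine Finset.sum_congr rfl fun j _ => ?_
    rw [c.Ey]; ring
  rw [h1, c.S_y]
  ring

private theorem d_ne : (c.d : Ω) ≠ 0 := by
  have : CharZero Ω := charZero_of_injective_algebraMap (algebraMap k Ω).injective
  have := c.hd
  exact_mod_cast (by omega : c.d ≠ 0)

private theorem g_y {g : Fin 4 → Ω}
    (hD : ∀ D : Derivation k Ω Ω, D c.G = ∑ i, g i * D (c.y i)) :
    g ⬝ᵥ c.y = ((c.r : Ω) - 1) * c.G + c.G / c.d := by
  have hd := c.d_ne
  have h1 : c.E c.G = (c.d : Ω) * (g ⬝ᵥ c.y) := by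
    rw [hD, dotProduct, Finset.mul_sum]
    refine Finset.sum_congr rfl fun j _ => ?_
    rw [c.Ey]; ring
  have h2 : c.E c.G = ((c.d : Ω) * ((c.r : Ω) - 1) + 1) * c.G := by
    conv_lhs => unfold G
    rw [map_sum]
    unfold G
    rw [Finset.mul_sum]
    refine Finset.sum_congr rfl fun j _ => ?_
    rw [Derivation.leibniz, E_u, c.Ex, smul_eq_mul, smul_eq_mul]
    ring
  rw [h2] at h1
  have h3 : g ⬝ᵥ c.y = ((c.d : Ω) * ((c.r : Ω) - 1) + 1) * c.G / c.d := by
    rw [h1]; field_simp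
  rw [h3]
  field_simp

/-! ### limits -/

section Lim
variable {V : ValuationSubring Ω} {b' : Fin 4 → Ω} {i' : Fin 4}

private theorem dir_L (hV : c.IsDir V b' i') {e : Ω} (he : e ∈ c.L) : Cg V (e / c.x i') 0 := by
  unfold Cg
  rw [sub_zero, div_eq_mul_inv]
  exact lt_mul (hV.place e he) (inv_lt hV.inf)

private theorem dir_dot (hV : c.IsDir V b' i') {l : Fin 4 → Ω} (hl : ∀ i, l i ∈ c.L) :
    Cg V ((l ⬝ᵥ c.x) / c.x i') (l ⬝ᵥ b') := by
  have h1 : (l ⬝ᵥ c.x) / c.x i' = ∑ i, l i * (c.x i / c.x i') := by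
    rw [dotProduct, Finset.sum_div]
    exact Finset.sum_congr rfl fun i _ => by ring
  rw [h1]
  refine Cg.sum fun i _ => ?_
  exact (Cg.refl (l i)).mul (hV.res i) (hV.place _ (hl i)) (hV.place _ (hV.mem i))

private theorem dir_Sf (hV : c.IsDir V b' i') {v : Fin 4 → Ω} (hv : ∀ i, v i ∈ c.L) :
    Cg V (c.Sf c.x v / c.x i') (c.Sf b' v) := by
  have h1 : ∀ z : Fin 4 → Ω, c.Sf z v = (fun i => ∑ j, c.S i j * v j) ⬝ᵥ z := by
    intro z
    rw [Sf, dotProduct]
    refine Finset.sum_congr rfl fun i _ => ?_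
    rw [Finset.sum_mul]
    exact Finset.sum_congr rfl fun j _ => by ring
  rw [h1, h1]
  exact c.dir_dot hV fun i => sum_mem fun j _ => mul_mem (c.S_mem i j) (hv j)

private theorem cg_unique (hV : c.IsDir V b' i') {z e e' : Ω} (he : e ∈ c.L) (he' : e' ∈ c.L)
    (h : Cg V z e) (h' : Cg V z e') : e = e' := by
  by_contra hne
  have h1 : V.valuation (e - e') = 1 :=
    c.val_L V hV.place (sub_mem he he') (sub_ne_zero.2 hne)
  have h2 : Cg V e e' := h.symm.trans h'
  unfold Cg at h2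
  exact absurd h1 (ne_of_lt h2)

/-- the direction is isotropic -/
private theorem dir_iso (hV : c.IsDir V b' i') {g : Fin 4 → Ω} (hg : ∀ i, g i ∈ c.L) {e : Ω}
    (he : e ∈ c.L) (h : c.Sf c.x c.x = g ⬝ᵥ c.x + e) : c.Sf b' b' = 0 := by
  have hx0 : c.x i' ≠ 0 := by
    intro h0
    apply hV.inf
    rw [h0]; exact zero_mem _
  have h1 : Cg V (c.Sf c.x c.x / (c.x i' * c.x i')) (c.Sf b' b') := by
    have h2 : c.Sf c.x c.x / (c.x i' * c.x i') =
        ∑ i, ∑ j, c.S i j * (c.x i / c.x i') * (c.x j / c.x i') := by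
      rw [Sf, Finset.sum_div]
      refine Finset.sum_congr rfl fun i _ => ?_
      rw [Finset.sum_div]
      refine Finset.sum_congr rfl fun j _ => ?_
      field_simp
    rw [h2]
    refine Cg.sum fun i _ => Cg.sum fun j _ => ?_
    have h3 := (Cg.refl (V := V) (c.S i j)).mul (hV.res i) (hV.place _ (c.S_mem i j))
      (hV.place _ (hV.mem i))
    exact h3.mul (hV.res j) (mul_mem (hV.place _ (c.S_mem i j)) (hV.place _ (hV.mem i)))
      (hV.place _ (hV.mem j))
  have h4 : Cg V (c.Sf c.x c.x / (c.x i' * c.x i')) 0 := by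
    have h5 : c.Sf c.x c.x / (c.x i' * c.x i') =
        (1 / c.x i') * ((g ⬝ᵥ c.x) / c.x i') + (1 / c.x i') * (e / c.x i') := by
      rw [h]; field_simp
    rw [h5]
    have h6 := c.dir_L hV (e := 1) (one_mem _)
    have h7 := h6.mul (c.dir_dot hV hg) (zero_mem _) (hV.place _ (c.dot_mem hg hV.mem))
    have h8 := h6.mul (c.dir_L hV he) (zero_mem _) (zero_mem _)
    rw [zero_mul] at h7 h8
    simpa using h7.add h8
  exact c.cg_unique hV (c.Sf_mem hV.mem hV.mem) (zero_mem _) h1 h4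

/-- limits of the coordinates -/
private theorem dir_coord (hV : c.IsDir V b' i') {b β : Fin 4 → Ω} (hbL : ∀ i, b i ∈ c.L)
    (hβL : ∀ i, β i ∈ c.L) (hub : c.u ⬝ᵥ b = 0) (huβ : c.u ⬝ᵥ β = 0)
    (hbb : c.Sf b b = 0) (hββ : c.Sf β β = 0) (hbβ : c.Sf b β = 1)
    {e : Fin 4 → Ω} (he : ∀ i, e i ∈ c.L) {p q s : Ω}
    (hx : c.x = e + p • b + q • β + s • c.y) :
    Cg V (p / c.x i') (c.Sf b' β) ∧ Cg V (q / c.x i') (c.Sf b' b) ∧
      ∃ s' ∈ c.L, b' = c.Sf b' β • b + c.Sf b' b • β + s' • c.y ∧ Cg V (s / c.x i') s' := by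
  have hβb : c.Sf β b = 1 := by rw [Sf_symm, hbβ]
  have h1 : c.Sf c.x β = c.Sf e β + p := by
    conv_lhs => rw [hx]
    simp only [Sf_add_left, Sf_smul_left, Sf_y_left, huβ, hββ, hbβ]
    ring
  have h2 : c.Sf c.x b = c.Sf e b + q := by
    conv_lhs => rw [hx]
    simp only [Sf_add_left, Sf_smul_left, Sf_y_left, hub, hbb, hβb]
    ring
  have hp : Cg V (p / c.x i') (c.Sf b' β) := by
    have h3 := (c.dir_Sf hV hβL).sub (c.dir_L hV (c.Sf_mem he hβL))
    rw [h1, sub_zero] at h3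
    exact h3.eq_left (by ring)
  have hq : Cg V (q / c.x i') (c.Sf b' b) := by
    have h3 := (c.dir_Sf hV hbL).sub (c.dir_L hV (c.Sf_mem he hbL))
    rw [h2, sub_zero] at h3
    exact h3.eq_left (by ring)
  obtain ⟨s', hs'⟩ := c.span_u hub huβ hbb hββ hbβ (v := b') (c.u_dir hV)
  have hs'L : s' ∈ c.L := c.span_u_L hbL hβL hV.mem hs'
  refine ⟨hp, hq, s', hs'L, hs', ?_⟩
  obtain ⟨j, hj⟩ : ∃ j, c.y j ≠ 0 := by
    by_contra hcon
    push Not at hcon
    have := c.lin_indep_y (fun _ => 1) (by simp [hcon])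
    exact one_ne_zero (congrFun this 0)
  have h3 := congrFun hx j
  have h4 := congrFun hs' j
  simp only [Pi.add_apply, Pi.smul_apply, smul_eq_mul] at h3 h4
  have h5 : s / c.x i' = (c.x j / c.x i' - e j / c.x i' - p / c.x i' * b j
      - q / c.x i' * β j) * (c.y j)⁻¹ := by
    have : s = (c.x j - e j - p * b j - q * β j) / c.y j := by
      rw [eq_div_iff hj]; linear_combination -h3
    rw [this]; ring
  have h6 : s' = (b' j - 0 - c.Sf b' β * b j - c.Sf b' b * β j) * (c.y j)⁻¹ := by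
    rw [← div_eq_mul_inv, eq_div_iff hj]; linear_combination -h4
  rw [h5, h6]
  have m := fun z (hz : z ∈ c.L) => hV.place z hz
  have k1 := c.Sf_mem hV.mem hβL
  have k2 := c.Sf_mem hV.mem hbL
  refine Cg.mul ?_ (Cg.refl _) ?_ (m _ (inv_mem (c.y_mem j)))
  · refine ((Cg.sub (hV.res j) (c.dir_L hV (he j))).sub
      (hp.mul (Cg.refl _) (m _ k1) (m _ (hbL j)))).sub
      (hq.mul (Cg.refl _) (m _ k2) (m _ (hβL j)))
  · exact m _ (sub_mem (sub_mem (sub_mem (hV.mem j) (zero_mem _)) (mul_mem k1 (hbL j)))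
      (mul_mem k2 (hβL j)))

end Lim

private theorem unit_val {Ω : Type*} [Field Ω] {V : ValuationSubring Ω} {z e : Ω} (h : Cg V z e)
    (he : V.valuation e = 1) : V.valuation z = 1 := by
  unfold Cg at h
  have h1 : z = (z - e) + e := by ring
  rw [h1, Valuation.map_add_eq_of_lt_right _ (by rw [he]; exact h), he]

/-- the common core of both cases -/
private theorem core {V : ValuationSubring Ω} {b β : Fin 4 → Ω} {i0 : Fin 4} (hV : c.IsDir V b i0)
    (hβL : ∀ i, β i ∈ c.L) (huβ : c.u ⬝ᵥ β = 0) (hββ : c.Sf β β = 0) (hbβ : c.Sf b β = 1)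
    (hTF : ∀ (V' : ValuationSubring Ω) (b' : Fin 4 → Ω) (i' : Fin 4), c.IsDir V' b' i' →
      Ctx3.TwoForms (k := k) b' ∧ c.Sf b' b' = 0)
    {e : Fin 4 → Ω} (he : ∀ i, e i ∈ c.L) {p q s : Ω}
    (hx : c.x = e + p • b + q • β + s • c.y)
    (hcase : (∃ κ ∈ c.L, κ ≠ 0 ∧ s = κ * p * q) ∨ (∃ ε ∈ c.L, ε ≠ 0 ∧ p * q = ε)) :
    (∃ (V : ValuationSubring Ω) (b : Fin 4 → Ω) (i0 : Fin 4) (φ : Ω), c.IsDir V b i0 ∧
      (∃ σ ∈ c.L, ∀ i, b i ∈ acl k ({σ} : Set Ω)) ∧ ∀ i, c.W (c.x i) = φ * b i) ∨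
    (∃ (V V' : ValuationSubring Ω) (b b' : Fin 4 → Ω) (i0 i1 : Fin 4), c.IsDir V b i0 ∧
      c.IsDir V' b' i1 ∧
      (∃ σ ∈ c.L, ∀ i, b i ∈ acl k ({σ} : Set Ω)) ∧ (∃ σ ∈ c.L, ∀ i, b' i ∈ acl k ({σ} : Set Ω)) ∧
      c.Sf b b = 0 ∧ c.Sf b' b' = 0 ∧ c.Sf b b' ≠ 0) := by
  have hbL := hV.mem
  have hub : c.u ⬝ᵥ b = 0 := c.u_dir hV
  obtain ⟨hTFb, hbb⟩ := hTF V b i0 hV
  have hβb : c.Sf β b = 1 := by rw [Sf_symm, hbβ]
  have hcz : CharZero Ω := charZero_of_injective_algebraMap (algebraMap k Ω).injective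
  obtain ⟨j, hj⟩ : ∃ j, c.y j ≠ 0 := by
    by_contra hcon
    push Not at hcon
    have := c.lin_indep_y (fun _ => 1) (by simp [hcon])
    exact one_ne_zero (congrFun this 0)
  -- at `V` the coordinate `q` is small
  have hq1 : V.valuation q < 1 := by
    obtain ⟨h1, -, s', hs'L, hs', h3⟩ :=
      c.dir_coord hV hbL hβL hub huβ hbb hββ hbβ he hx
    rw [hbβ] at h1
    have h4 : V.valuation (p / c.x i0) = 1 := unit_val h1 (map_one _)
    rcases hcase with ⟨κ, hκL, hκ0, hs⟩ | ⟨ε, hεL, hε0, hpq⟩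
    · have hs0 : s' = 0 := by
        have h5 := congrFun hs' j
        simp only [Pi.add_apply, Pi.smul_apply, smul_eq_mul, hbβ, hbb] at h5
        have h6 : s' * c.y j = 0 := by linear_combination -h5
        exact (mul_eq_zero.1 h6).resolve_right hj
      rw [hs0] at h3
      unfold Cg at h3
      rw [sub_zero, hs, show κ * p * q / c.x i0 = κ * (p / c.x i0) * q by ring, map_mul, map_mul,
        c.val_L V hV.place hκL hκ0, h4, one_mul, one_mul] at h3
      exact h3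
    · have hp0 : p ≠ 0 := by
        rintro rfl
        rw [zero_mul] at hpq
        exact hε0 hpq.symm
      have h5 : q = ε * ((p / c.x i0)⁻¹ * (c.x i0)⁻¹) := by
        have hx0 : c.x i0 ≠ 0 := by
          intro h0
          apply hV.inf
          rw [h0]; exact zero_mem _
        rw [← hpq]
        field_simp
      rw [h5, map_mul, map_mul, map_inv₀, h4, c.val_L V hV.place hεL hε0, inv_one, one_mul, one_mul]
      exact inv_lt hV.inf
  by_cases hqL : q ∈ c.L
  · -- line fibres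
    have hq0 : q = 0 := by
      by_contra hne
      exact absurd (c.val_L V hV.place hqL hne) (ne_of_lt hq1)
    rcases hcase with ⟨κ, hκL, hκ0, hs⟩ | ⟨ε, hεL, hε0, hpq⟩
    · left
      refine ⟨V, b, i0, c.W p, hV, c.one_param hV hTFb, fun i => ?_⟩
      have h1 := congrFun hx i
      simp only [Pi.add_apply, Pi.smul_apply, smul_eq_mul, hs, hq0, mul_zero, zero_mul,
        add_zero] at h1
      rw [h1, map_add, Derivation.leibniz, (c.mem_L_iff _).1 (he i), (c.mem_L_iff _).1 (hbL i)]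
      simp only [smul_eq_mul]
      ring
    · rw [hq0, mul_zero] at hpq
      exact absurd hpq.symm hε0
  · right
    obtain ⟨V2, hV2, hqV2⟩ : ∃ V2 : ValuationSubring Ω, c.IsPlace V2 ∧ q ∉ V2 := by
      by_contra hcon
      push Not at hcon
      exact hqL (c.mem_L_of_places fun V' hV' => hcon V' hV')
    have hinf : ∃ i, c.x i ∉ V2 := by
      by_contra hcon
      push Not at hcon
      apply hqV2
      have h2 : c.Sf c.x b = c.Sf e b + q := by
        conv_lhs => rw [hx]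
        simp only [Sf_add_left, Sf_smul_left, Sf_y_left, hub, hbb, hβb]
        ring
      have h3 : q = c.Sf c.x b - c.Sf e b := by rw [h2]; ring
      rw [h3]
      refine sub_mem ?_ (hV2 _ (c.Sf_mem he hbL))
      exact sum_mem fun i _ => sum_mem fun j _ =>
        mul_mem (mul_mem (hV2 _ (c.S_mem i j)) (hcon i)) (hV2 _ (hbL j))
    obtain ⟨b2, i1, hb2⟩ := c.exists_dir V2 hV2 hinf
    obtain ⟨hTF2, hbb2⟩ := hTF V2 b2 i1 hb2
    have hpar := c.not_par hb2.one hTF2
    obtain ⟨h1, h2, s', hs'L, hs', h3⟩ :=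
      c.dir_coord hb2 hbL hβL hub huβ hbb hββ hbβ he hx
    set a := c.Sf b2 β with ha
    set g := c.Sf b2 b with hg
    have haL : a ∈ c.L := c.Sf_mem hb2.mem hβL
    have hag : a * g = 0 := by
      have h4 : c.Sf b2 b2 = 2 * (a * g) := by
        conv_lhs => rw [hs']
        simp only [Sf_add_left, Sf_add_right, Sf_smul_left, Sf_smul_right, Sf_y_left, Sf_y_right,
          hub, huβ, hbb, hββ, hbβ, hβb, dotProduct_add, dotProduct_smul, smul_eq_mul, c.uy]
        ring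
      rw [hbb2] at h4
      have h5 : (2 : Ω) ≠ 0 := two_ne_zero
      exact (mul_eq_zero.1 h4.symm).resolve_left h5
    have hg0 : g ≠ 0 := by
      intro hg0
      have ha0 : a ≠ 0 := by
        intro ha0
        apply hpar
        refine ⟨s', fun i => ?_⟩
        have h4 := congrFun hs' i
        simpa [hg0, ha0] using h4
      have hva : V2.valuation (p / c.x i1) = 1 := unit_val h1 (c.val_L V2 hV2 haL ha0)
      apply hqV2
      rcases hcase with ⟨κ, hκL, hκ0, hs⟩ | ⟨ε, hεL, hε0, hpq⟩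
      · have h4 : s / c.x i1 ∈ V2 := h3.mem_left (hV2 _ hs'L)
        rw [← V2.valuation_le_one_iff] at h4 ⊢
        rw [hs, show κ * p * q / c.x i1 = κ * (p / c.x i1) * q by ring, map_mul, map_mul,
          c.val_L V2 hV2 hκL hκ0, hva, one_mul, one_mul] at h4
        exact h4
      · have hp0 : p ≠ 0 := by
          rintro rfl
          rw [zero_mul] at hpq
          exact hε0 hpq.symm
        have h5 : q = ε * ((p / c.x i1)⁻¹ * (c.x i1)⁻¹) := by
          have hx0 : c.x i1 ≠ 0 := by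
            intro h0
            apply hb2.inf
            rw [h0]; exact zero_mem _
          rw [← hpq]
          field_simp
        rw [← V2.valuation_le_one_iff, h5, map_mul, map_mul, map_inv₀, hva,
          c.val_L V2 hV2 hεL hε0, inv_one, one_mul, one_mul]
        exact (inv_lt hb2.inf).le
    refine ⟨V, V2, b, b2, i0, i1, hV, hb2, c.one_param hV hTFb, c.one_param hb2 hTF2, hbb, hbb2, ?_⟩
    rw [Sf_symm, ← hg]
    exact hg0

/-! ## N5: two rulings, or line fibres -/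
theorem nondev_main (h : ¬ c.Dev) (hGZ : c.G ≠ 0 ∨ (c.G = 0 ∧ c.Sf c.x c.x ≠ 0)) :
    (∃ (V : ValuationSubring Ω) (b : Fin 4 → Ω) (i0 : Fin 4) (φ : Ω), c.IsDir V b i0 ∧
      (∃ σ ∈ c.L, ∀ i, b i ∈ acl k ({σ} : Set Ω)) ∧ ∀ i, c.W (c.x i) = φ * b i) ∨
    (∃ (V V' : ValuationSubring Ω) (b b' : Fin 4 → Ω) (i0 i1 : Fin 4), c.IsDir V b i0 ∧
      c.IsDir V' b' i1 ∧
      (∃ σ ∈ c.L, ∀ i, b i ∈ acl k ({σ} : Set Ω)) ∧ (∃ σ ∈ c.L, ∀ i, b' i ∈ acl k ({σ} : Set Ω)) ∧
      c.Sf b b = 0 ∧ c.Sf b' b' = 0 ∧ c.Sf b b' ≠ 0) := by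
  have hcz : CharZero Ω := charZero_of_injective_algebraMap (algebraMap k Ω).injective
  obtain ⟨V, hVp, hVinf⟩ := c.exists_infinite
  obtain ⟨b, i0, hV⟩ := c.exists_dir V hVp hVinf
  have hub : c.u ⬝ᵥ b = 0 := c.u_dir hV
  obtain ⟨g, hgL, hgD⟩ := c.exists_cov c.G_mem
  -- the second contact function
  obtain ⟨E2, hE2⟩ : ∃ E2 : Ω, E2 = c.Sf c.x c.x - 2 * (g ⬝ᵥ c.x) := ⟨_, rfl⟩
  have hE2L : E2 ∈ c.L := by
    rw [mem_L_iff, hE2, map_sub, Derivation.leibniz, c.W_Sfxx, c.W_gx hgL hgD]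
    have : c.W (2 : Ω) = 0 := by
      have := c.W.map_natCast 2
      simpa using this
    rw [this]
    simp
  have hiso : ∀ (V' : ValuationSubring Ω) (b' : Fin 4 → Ω) (i' : Fin 4), c.IsDir V' b' i' →
      c.Sf b' b' = 0 := by
    intro V' b' i' hV'
    refine c.dir_iso hV' (g := fun i => 2 * g i) (fun i => mul_mem (ofNat_mem _ 2) (hgL i)) hE2L ?_
    have h1 : (fun i => 2 * g i) ⬝ᵥ c.x = 2 * (g ⬝ᵥ c.x) := by
      rw [dotProduct, dotProduct, Finset.mul_sum]
      exact Finset.sum_congr rfl fun i _ => by ring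
    rw [h1, hE2]; ring
  have hTF : ∀ (V' : ValuationSubring Ω) (b' : Fin 4 → Ω) (i' : Fin 4), c.IsDir V' b' i' →
      Ctx3.TwoForms (k := k) b' ∧ c.Sf b' b' = 0 := by
    intro V' b' i' hV'
    refine ⟨?_, hiso V' b' i' hV'⟩
    rcases hGZ with hG | ⟨hG, hZ⟩
    · exact c.two_forms_G hG hV'
    · exact c.two_forms_Z2 hG hZ hV'
  have hbb := hiso V b i0 hV
  obtain ⟨β, hβL, huβ, hββ, hbβ⟩ :=
    c.exists_beta h hV.mem hub hbb (c.not_par hV.one (hTF V b i0 hV).1)
  have hβb : c.Sf β b = 1 := by rw [Sf_symm, hbβ]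
  rcases hGZ with hG | ⟨hG, hZ⟩
  · -- `G ≠ 0`
    obtain ⟨j, hj⟩ := c.u_ne
    set e0 : Fin 4 → Ω := Pi.single j (c.G / c.u j) with he0
    have hue0 : c.u ⬝ᵥ e0 = c.G := by
      rw [he0, dotProduct_single]; field_simp
    have he0L : ∀ i, e0 i ∈ c.L := by
      intro i
      rw [he0]
      by_cases hij : i = j
      · subst hij
        rw [Pi.single_eq_same]
        exact div_mem c.G_mem (c.u_mem i)
      · rw [Pi.single_eq_of_ne hij]
        exact zero_mem _
    have hux : c.u ⬝ᵥ c.x = c.G := rfl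
    obtain ⟨s, hs⟩ := c.span_u hub huβ hbb hββ hbβ (v := c.x - e0)
      (by rw [dotProduct_sub, hux, hue0, sub_self])
    obtain ⟨p, hp⟩ : ∃ p : Ω, p = c.Sf (c.x - e0) β := ⟨_, rfl⟩
    obtain ⟨q, hq⟩ : ∃ q : Ω, q = c.Sf (c.x - e0) b := ⟨_, rfl⟩
    rw [← hp, ← hq] at hs
    have hx : c.x = e0 + p • b + q • β + s • c.y := by
      rw [add_assoc, add_assoc, ← add_assoc (p • b), ← hs]; abel
    have hgy := c.g_y hgD
    have hd := c.d_ne
    have key : s * c.G / c.d = p * q + p * (c.Sf e0 b - g ⬝ᵥ b) + q * (c.Sf e0 β - g ⬝ᵥ β)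
        + ((c.Sf e0 e0 - E2) / 2 - g ⬝ᵥ e0) := by
      have hxx : c.Sf c.x c.x = c.Sf e0 e0 + 2 * p * c.Sf e0 b + 2 * q * c.Sf e0 β
          + 2 * s * (((c.r : Ω) - 1) * c.G) + 2 * p * q := by
        have hse : c.Sf b e0 = c.Sf e0 b := c.Sf_symm _ _
        have hse' : c.Sf β e0 = c.Sf e0 β := c.Sf_symm _ _
        conv_lhs => rw [hx]
        simp only [Sf_add_left, Sf_add_right, Sf_smul_left, Sf_smul_right, Sf_y_left, Sf_y_right,
          hub, huβ, hbb, hββ, hbβ, hβb, dotProduct_add, dotProduct_smul, smul_eq_mul, c.uy, hue0,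
          hse, hse']
        ring
      have hgx : g ⬝ᵥ c.x = g ⬝ᵥ e0 + p * (g ⬝ᵥ b) + q * (g ⬝ᵥ β)
          + s * (((c.r : Ω) - 1) * c.G + c.G / c.d) := by
        conv_lhs => rw [hx]
        simp only [dotProduct_add, dotProduct_smul, smul_eq_mul, hgy]
      have h1 : E2 = c.Sf c.x c.x - 2 * (g ⬝ᵥ c.x) := hE2
      rw [hxx, hgx] at h1
      field_simp at h1 ⊢
      linear_combination h1
    have hl1 : c.Sf e0 b - g ⬝ᵥ b ∈ c.L := sub_mem (c.Sf_mem he0L hV.mem) (c.dot_mem hgL hV.mem)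
    have hl2 : c.Sf e0 β - g ⬝ᵥ β ∈ c.L := sub_mem (c.Sf_mem he0L hβL) (c.dot_mem hgL hβL)
    have hl0 : (c.Sf e0 e0 - E2) / 2 - g ⬝ᵥ e0 ∈ c.L :=
      sub_mem (div_mem (sub_mem (c.Sf_mem he0L he0L) hE2L) (ofNat_mem _ 2)) (c.dot_mem hgL he0L)
    set l1 := c.Sf e0 b - g ⬝ᵥ b
    set l2 := c.Sf e0 β - g ⬝ᵥ β
    set l0 := (c.Sf e0 e0 - E2) / 2 - g ⬝ᵥ e0
    have hκL : (c.d : Ω) / c.G ∈ c.L := div_mem (natCast_mem _ _) c.G_mem
    have hκ0 : (c.d : Ω) / c.G ≠ 0 := div_ne_zero hd hG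
    have hs' : s = (c.d : Ω) / c.G * (p + l2) * (q + l1) + (c.d : Ω) / c.G * (l0 - l1 * l2) := by
      field_simp
      field_simp at key
      linear_combination key
    refine c.core hV hβL huβ hββ hbβ hTF
      (e := e0 + (-l2) • b + (-l1) • β + ((c.d : Ω) / c.G * (l0 - l1 * l2)) • c.y)
      (p := p + l2) (q := q + l1) (s := (c.d : Ω) / c.G * (p + l2) * (q + l1)) ?_ ?_
      (Or.inl ⟨_, hκL, hκ0, rfl⟩)
    · intro i
      exact add_mem (add_mem (add_mem (he0L i) (mul_mem (neg_mem hl2) (hV.mem i)))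
        (mul_mem (neg_mem hl1) (hβL i)))
        (mul_mem (mul_mem hκL (sub_mem hl0 (mul_mem hl1 hl2))) (c.y_mem i))
    · funext i
      have h1 := congrFun hx i
      simp only [Pi.add_apply, Pi.smul_apply, smul_eq_mul] at h1 ⊢
      linear_combination h1 + c.y i * hs'
  · -- `G = 0`
    have hux : c.u ⬝ᵥ c.x = 0 := hG
    obtain ⟨s, hs⟩ := c.span_u hub huβ hbb hββ hbβ (v := c.x) hux
    set p := c.Sf c.x β
    set q := c.Sf c.x b
    have hxx : c.Sf c.x c.x = 2 * (p * q) := by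
      conv_lhs => rw [hs]
      simp only [Sf_add_left, Sf_add_right, Sf_smul_left, Sf_smul_right, Sf_y_left, Sf_y_right,
        hub, huβ, hbb, hββ, hbβ, hβb, dotProduct_add, dotProduct_smul, smul_eq_mul, c.uy]
      ring
    have hxxL : c.Sf c.x c.x ∈ c.L := by
      rw [mem_L_iff, c.W_Sfxx, hG, map_zero, mul_zero]
    refine c.core hV hβL huβ hββ hbβ hTF (e := 0) (p := p) (q := q) (s := s) (fun i => zero_mem _)
      ?_ (Or.inr ⟨p * q, ?_, ?_, rfl⟩)
    · rw [zero_add]; exact hs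
    · have h1 : p * q = c.Sf c.x c.x / 2 := by rw [hxx]; field_simp
      rw [h1]
      exact div_mem hxxL (ofNat_mem _ 2)
    · intro h0
      rw [h0, mul_zero] at hxx
      exact hZ hxx

end Ctx3
end Pool.Agent.HDP
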