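import Pool.Agent.Lib.MP_20906e_al.N2
import Pool.Agent.Lib.MP_20906e_al.N3
import Pool.Agent.Lib.MP_20906e_al.N4
import Pool.Agent.Lib.MP_20906e_al.N5
import Pool.Agent.Lib.MP_20906e_al.N11
import Pool.Agent.Lib.MP_20906e_al.N12
import Pool.Agent.Lib.MP_20906e_al.N13

/-!
# MP_20906e_al : assembly of the non developable case (helper79)
-/

namespace Pool.Agent.HDP
open MvPolynomial

variable {k Ω : Type*} [Field k] [IsAlgClosed k] [CharZero k] [Field Ω] [IsAlgClosed Ω] [Algebra k Ω]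

/-- The Gauss image of a rank three context is a curve. -/
theorem Ctx3.nondev_false (c : Ctx3 k Ω) (h : ¬ c.Dev) : False := by
  have hGZ : c.G ≠ 0 ∨ (c.G = 0 ∧ c.Sf c.x c.x ≠ 0) := by
    by_cases hG : c.G = 0
    · exact Or.inr ⟨hG, fun hZ => c.case_II2 h hG hZ⟩
    · exact Or.inl hG
  rcases c.nondev_main h hGZ with ⟨V, b, i0, φ, hb, hσ, hW⟩ |
    ⟨V, V', b, b', i0, i1, hb, hb', hσ, hσ', hbb, hbb', hS⟩
  · exact c.lf_false hb hσ hW
  · obtain ⟨M, hM, hdet, hyy, -, -, -, -, hne⟩ := c.dr hb.one hb'.one hb.mem hb'.mem hσ hσ'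
      (c.u_dir hb) (c.u_dir hb') hbb hbb' hS
    obtain ⟨c', b₁, b₁', j0, j1, hq, -⟩ := c.quad_normal hM hdet hyy hb hb' hσ hσ' hne
    by_cases hG : c'.G = 0
    · exact c'.quad0_false hq hG
    · exact c'.quad1_false hq hG

end Pool.Agent.HDP
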