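import Pool.Agent.Lib.MP_20906e_al.N13a

/-!
# MP_20906e_al, piece N13, part b: the contact function along one ruling (helper10)
-/

set_option linter.unusedSectionVars false

namespace Pool.Agent.HDP
open MvPolynomial

namespace Ctx3
variable {k Ω : Type*} [Field k] [IsAlgClosed k] [CharZero k] [Field Ω] [IsAlgClosed Ω] [Algebra k Ω]
  (c : Ctx3 k Ω)

/-- the elements of `L` of degree zero killed by `δ` are algebraic over `k(τ)` -/
theorem n13_acl {h τ s : Ω} (hmem : ∀ g ∈ c.L, g ∈ acl k (Set.range ![h, τ, s]))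
    {δ : Derivation k Ω Ω} {b0 b2 : Ω} (hh : h ≠ 0)
    (hEh : c.E h = c.d * h) (hEτ : c.E τ = 0) (hEs : c.E s = 0)
    (hδh : δ h = b0) (hδτ : δ τ = 0) (hδs : δ s = (b2 - s * b0) / h) (hne : b2 - s * b0 ≠ 0)
    {g : Ω} (hg : g ∈ c.L) (h1 : c.E g = 0) (h2 : δ g = 0) : g ∈ acl k ({τ} : Set Ω) := by
  have hd : (c.d : Ω) ≠ 0 := by
    have := c.hd
    have : CharZero Ω := charZero_of_injective_algebraMap (algebraMap k Ω).injective
    exact Nat.cast_ne_zero.2 (by omega)
  apply mem_acl_of_forall_der'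
  intro D hD
  have hDτ : D τ = 0 := hD τ rfl
  set β := D s * h / (b2 - s * b0) with hβ
  set α := (D h - β * b0) / (c.d * h) with hα
  have key := der_acl_eq D (α • c.E + β • δ) (S := Set.range ![h, τ, s]) ?_ g (hmem g hg)
  · rw [key]; simp [h1, h2]
  · rintro _ ⟨i, rfl⟩
    fin_cases i
    · simp only [Derivation.add_apply, Derivation.smul_apply, smul_eq_mul, Matrix.cons_val_zero,
        Fin.zero_eta, hEh, hδh, hα]
      field_simp
      ring
    · simp only [Derivation.add_apply, Derivation.smul_apply, smul_eq_mul, Matrix.cons_val,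
        Fin.mk_one, hEτ, hδτ, hDτ]
      ring
    · simp only [Derivation.add_apply, Derivation.smul_apply, smul_eq_mul,
        Fin.reduceFinMk, Matrix.cons_val, hEs, hδs, hβ]
      field_simp
      ring

theorem n13_T {h τ s : Ω} (hind : AlgebraicIndependent k ![h, τ, s])
    (hhL : h ∈ c.L) (hτL : τ ∈ c.L) (hsL : s ∈ c.L)
    {δ : Derivation k Ω Ω} {b0 b2 : Ω}
    (hEh : c.E h = c.d * h) (hEτ : c.E τ = 0) (hEs : c.E s = 0) (hδL : ∀ g ∈ c.L, δ g ∈ c.L)
    (hδh : δ h = b0) (hδτ : δ τ = 0) (hδs : δ s = (b2 - s * b0) / h)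
    (hb0 : b0 ∈ acl k ({τ} : Set Ω)) (hb2 : b2 ∈ acl k ({τ} : Set Ω)) (hb : b0 ≠ 0 ∨ b2 ≠ 0)
    {f : Ω} (hf : f ∈ c.L) (hEf : c.E f = (c.d + 1) * f) (hδf : δ (δ f) = 0) :
    ∃ m0 ∈ acl k ({τ} : Set Ω), ∃ m1 ∈ acl k ({τ} : Set Ω),
      f ^ c.d = h ^ (c.d + 1) * ((-b2 + b0 * s) * (m0 + m1 * s) ^ c.d) := by
  have hcz : CharZero Ω := charZero_of_injective_algebraMap (algebraMap k Ω).injective
  have hd2 := c.hd
  have hd : (c.d : Ω) ≠ 0 := Nat.cast_ne_zero.2 (by omega)
  have hh : h ≠ 0 := by
    have := hind.ne_zero 0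
    simpa using this
  have hmem : ∀ g ∈ c.L, g ∈ acl k (Set.range ![h, τ, s]) := by
    intro g hg
    refine (c.L_eq_acl ![h, τ, s] hind ?_ g).1 hg
    intro i
    fin_cases i <;> simp [hhL, hτL, hsL]
  have hsn : s ∉ acl k ({τ} : Set Ω) := by
    intro hs
    have h1 := (algInd_iff_notMem _).1 hind 2
    apply h1
    refine acl_mono ?_ hs
    rintro _ rfl
    exact ⟨1, by simp, by simp⟩
  have hle : acl k ({τ} : Set Ω) ≤ c.L := by
    rw [L, acl_le_iff]
    rintro _ rfl
    exact hτL
  have hbne : b2 - s * b0 ≠ 0 := by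
    intro h0
    by_cases hb00 : b0 = 0
    · rw [hb00, mul_zero, sub_zero] at h0
      rcases hb with hb | hb
      · exact hb hb00
      · exact hb h0
    · apply hsn
      have : s = b2 / b0 := by
        field_simp
        linear_combination -h0
      rw [this]
      exact div_mem hb2 hb0
  have hEacl : ∀ g ∈ acl k ({τ} : Set Ω), c.E g = 0 :=
    der_acl_zero c.E (by rintro _ rfl; exact hEτ)
  have hδacl : ∀ g ∈ acl k ({τ} : Set Ω), δ g = 0 :=
    der_acl_zero δ (by rintro _ rfl; exact hδτ)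
  have hE0 := hEacl b0 hb0
  have hE2 := hEacl b2 hb2
  have hδ0 := hδacl b0 hb0
  have hδ2 := hδacl b2 hb2
  -- the linear form
  set l : Ω := h * (b0 * s - b2) with hl
  have hl0 : l ≠ 0 := by
    refine mul_ne_zero hh ?_
    intro h0
    apply hbne
    linear_combination -h0
  have hlL : l ∈ c.L := mul_mem hhL (sub_mem (mul_mem (hle hb0) hsL) (hle hb2))
  have hEl : c.E l = c.d * l := by
    rw [hl]
    simp only [Derivation.leibniz, map_sub, smul_eq_mul, hEh, hE0, hE2, hEs]
    ring
  have hδl : δ l = 0 := by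
    rw [hl]
    simp only [Derivation.leibniz, map_sub, smul_eq_mul, hδh, hδ0, hδ2, hδs]
    field_simp
    ring
  obtain ⟨ρ, hρ⟩ := IsAlgClosed.exists_pow_nat_eq l (n := c.d) (by omega)
  have hρ0 : ρ ≠ 0 := by
    rintro rfl
    rw [zero_pow (by omega)] at hρ
    exact hl0 hρ.symm
  have hρL : ρ ∈ c.L := mem_acl_of_pow (m := c.d) (by omega) (by rw [hρ]; exact hlL)
  have hDρ : ∀ D : Derivation k Ω Ω, ∀ e : Ω, D l = c.d * (e * l) → D ρ = e * ρ := by
    intro D e he
    rw [← hρ, Derivation.leibniz_pow, smul_eq_mul, nsmul_eq_mul] at he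
    have h1 : ρ ^ c.d = ρ ^ (c.d - 1) * ρ := by
      rw [← pow_succ]; congr 1; omega
    rw [h1] at he
    have h2 : ρ ^ (c.d - 1) ≠ 0 := pow_ne_zero _ hρ0
    have h3 : ((c.d : Ω) * ρ ^ (c.d - 1)) * D ρ = ((c.d : Ω) * ρ ^ (c.d - 1)) * (e * ρ) := by
      linear_combination he
    exact mul_left_cancel₀ (mul_ne_zero hd h2) h3
  have hEρ : c.E ρ = ρ := by
    have := hDρ c.E 1 (by rw [hEl]; ring)
    rw [this, one_mul]
  have hδρ : δ ρ = 0 := by
    have := hDρ δ 0 (by rw [hδl]; ring)
    rw [this, zero_mul]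
  -- the first derivative
  set f1 : Ω := δ f with hf1
  have hf1L : f1 ∈ c.L := hδL f hf
  have hEf1 : c.E f1 = f1 := by
    have hcomm : ∀ g ∈ c.L, c.E (δ g) - δ (c.E g) + c.d * δ g = 0 := by
      intro g hg
      have key := der_acl_zero (⁅c.E, δ⁆ + (c.d : Ω) • δ) (S := Set.range ![h, τ, s]) ?_ g
        (hmem g hg)
      · simpa [Derivation.commutator_apply] using key
      · rintro _ ⟨i, rfl⟩
        fin_cases i
        · simp only [Derivation.add_apply, Derivation.smul_apply, smul_eq_mul,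
            Matrix.cons_val_zero, Fin.zero_eta, Derivation.commutator_apply, hEh, hδh, hE0]
          have : δ ((c.d : Ω) * h) = c.d * b0 := by
            rw [Derivation.leibniz, hδh, smul_eq_mul]
            have : δ (c.d : Ω) = 0 := by simp
            rw [this, smul_zero, add_zero]
          rw [this]; ring
        · simp only [Derivation.add_apply, Derivation.smul_apply, smul_eq_mul,
            Matrix.cons_val, Fin.mk_one, Derivation.commutator_apply, hEτ, hδτ, map_zero]
          ring
        · simp only [Derivation.add_apply, Derivation.smul_apply, smul_eq_mul,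
            Fin.reduceFinMk, Matrix.cons_val, Derivation.commutator_apply, hEs, hδs, map_zero]
          have : c.E ((b2 - s * b0) / h) = -(c.d * ((b2 - s * b0) / h)) := by
            have h5 : (b2 - s * b0) / h = (b2 - s * b0) * h⁻¹ := div_eq_mul_inv _ _
            rw [h5, Derivation.leibniz, Derivation.leibniz_inv, map_sub, Derivation.leibniz,
              hE0, hE2, hEs, hEh]
            simp only [smul_eq_mul]
            field_simp
            ring
          rw [this]; ring
    have h5 := hcomm f hf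
    rw [hEf] at h5
    have h6 : δ (((c.d : Ω) + 1) * f) = (c.d + 1) * f1 := by
      rw [Derivation.leibniz, smul_eq_mul]
      have : δ ((c.d : Ω) + 1) = 0 := by simp
      rw [this, smul_zero, add_zero]
    rw [h6] at h5
    linear_combination h5
  have hzero := fun {g : Ω} (hg : g ∈ c.L) (h1 : c.E g = 0) (h2 : δ g = 0) =>
    c.n13_acl hmem hh hEh hEτ hEs hδh hδτ hδs hbne hg h1 h2
  have hdiv : ∀ (D : Derivation k Ω Ω) (p q e : Ω), q ≠ 0 → D p = e * p → D q = e * q →
      D (p / q) = 0 := by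
    intro D p q e hq hp hq'
    rw [div_eq_mul_inv, Derivation.leibniz, Derivation.leibniz_inv, hp, hq']
    simp only [smul_eq_mul]
    field_simp
    ring
  set c1 : Ω := f1 / ρ with hc1
  have hc1m : c1 ∈ acl k ({τ} : Set Ω) := by
    refine hzero (div_mem hf1L hρL) ?_ ?_
    · exact hdiv c.E f1 ρ 1 hρ0 (by rw [hEf1, one_mul]) (by rw [hEρ, one_mul])
    · exact hdiv δ f1 ρ 0 hρ0 (by rw [hδf, zero_mul]) (by rw [hδρ, zero_mul])
  have hE1 := hEacl c1 hc1m
  have hδ1 := hδacl c1 hc1m
  -- the general solution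
  have hmain : ∀ z : Ω, z ∈ c.L → c.E z = c.d * z → δ z = 1 →
      ∃ c0 ∈ acl k ({τ} : Set Ω), f ^ c.d = l * (c1 * z + c0 * l) ^ c.d := by
    intro z hzL hEz hδz
    refine ⟨(f - c1 * ρ * z) / (ρ * l), ?_, ?_⟩
    · refine hzero ?_ ?_ ?_
      · exact div_mem (sub_mem hf (mul_mem (mul_mem (hle hc1m) hρL) hzL)) (mul_mem hρL hlL)
      · refine hdiv c.E _ _ (c.d + 1) (mul_ne_zero hρ0 hl0) ?_ ?_
        · simp only [map_sub, Derivation.leibniz, smul_eq_mul, hEf, hE1, hEρ, hEz]
          ring
        · simp only [Derivation.leibniz, smul_eq_mul, hEρ, hEl]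
          ring
      · refine hdiv δ _ _ 0 (mul_ne_zero hρ0 hl0) ?_ ?_
        · have e1 : δ f = c1 * ρ := by rw [hc1]; field_simp; rfl
          simp only [map_sub, Derivation.leibniz, smul_eq_mul, hδ1, hδρ, hδz, e1]
          ring
        · simp only [Derivation.leibniz, smul_eq_mul, hδρ, hδl]
          ring
    · have e1 : f = ρ * (c1 * z + (f - c1 * ρ * z) / (ρ * l) * l) := by
        field_simp
        ring
      conv_lhs => rw [e1]
      rw [mul_pow, hρ]
  by_cases hb00 : b0 = 0
  · have hb2' : b2 ≠ 0 := by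
      rcases hb with hb | hb
      · exact absurd hb00 hb
      · exact hb
    obtain ⟨c0, hc0, he⟩ := hmain (h * s / b2)
      (div_mem (mul_mem hhL hsL) (hle hb2)) (by
        rw [div_eq_mul_inv, Derivation.leibniz, Derivation.leibniz_inv, hE2]
        simp only [Derivation.leibniz, smul_eq_mul, hEh, hEs]
        ring) (by
        rw [div_eq_mul_inv, Derivation.leibniz, Derivation.leibniz_inv, hδ2]
        simp only [Derivation.leibniz, smul_eq_mul, hδh, hδs, hb00]
        field_simp
        ring)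
    refine ⟨-(c0 * b2), neg_mem (mul_mem hc0 hb2), c1 / b2 + c0 * b0,
      add_mem (div_mem hc1m hb2) (mul_mem hc0 hb0), ?_⟩
    rw [he, hl]
    have e2 : c1 * (h * s / b2) + c0 * (h * (b0 * s - b2)) =
        h * (-(c0 * b2) + (c1 / b2 + c0 * b0) * s) := by
      field_simp
      ring
    rw [e2, mul_pow]
    ring
  · obtain ⟨c0, hc0, he⟩ := hmain (h / b0)
      (div_mem hhL (hle hb0)) (by
        rw [div_eq_mul_inv, Derivation.leibniz, Derivation.leibniz_inv, hE0]
        simp only [smul_eq_mul, hEh]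
        ring) (by
        rw [div_eq_mul_inv, Derivation.leibniz, Derivation.leibniz_inv, hδ0]
        simp only [smul_eq_mul, hδh]
        field_simp
        ring)
    refine ⟨c1 / b0 - c0 * b2, sub_mem (div_mem hc1m hb0) (mul_mem hc0 hb2), c0 * b0,
      mul_mem hc0 hb0, ?_⟩
    rw [he, hl]
    have e2 : c1 * (h / b0) + c0 * (h * (b0 * s - b2)) =
        h * ((c1 / b0 - c0 * b2) + (c0 * b0) * s) := by
      field_simp
      ring
    rw [e2, mul_pow]
    ring

/-- iterated derivatives of a polynomial in `s` over `acl {τ}` vanish -/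
theorem n13_iter {s : Ω} {A : IntermediateField k Ω} (D : Derivation k Ω Ω) (hDs : D s = 1)
    (hDA : ∀ a ∈ A, D a = 0) {d : ℕ} {l0 l1 m0 m1 : Ω} (hl0 : l0 ∈ A) (hl1 : l1 ∈ A)
    (hm0 : m0 ∈ A) (hm1 : m1 ∈ A) :
    (fun z => D z)^[d + 2] ((l0 + l1 * s) * (m0 + m1 * s) ^ d) = 0 := by
  have hA : ∀ (p : Polynomial A), D (Polynomial.aeval s p) = Polynomial.aeval s (Polynomial.derivative p) := by
    intro p
    induction p using Polynomial.induction_on with
    | C a =>
      rw [Polynomial.aeval_C, Polynomial.derivative_C, map_zero]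
      exact hDA _ a.2
    | add p q hp hq => simp only [map_add, hp, hq]
    | monomial n a _ =>
      rw [map_mul, Polynomial.aeval_C, map_pow, Polynomial.aeval_X, Derivation.leibniz]
      have : D (algebraMap A Ω a) = 0 := hDA _ a.2
      rw [this, smul_zero, add_zero, Derivation.leibniz_pow, hDs, Polynomial.derivative_C_mul,
        Polynomial.derivative_X_pow, map_mul, map_mul, Polynomial.aeval_C, Polynomial.aeval_C]
      simp
  have hiter : ∀ (n : ℕ) (p : Polynomial A), (fun z => D z)^[n] (Polynomial.aeval s p) =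
      Polynomial.aeval s (Polynomial.derivative^[n] p) := by
    intro n
    induction n with
    | zero => intro p; rfl
    | succ n ih =>
      intro p
      rw [Function.iterate_succ_apply, Function.iterate_succ_apply]
      rw [hA, ih]
  set p : Polynomial A := (Polynomial.C ⟨l0, hl0⟩ + Polynomial.C ⟨l1, hl1⟩ * Polynomial.X) *
    (Polynomial.C ⟨m0, hm0⟩ + Polynomial.C ⟨m1, hm1⟩ * Polynomial.X) ^ d with hp
  have h1 : (l0 + l1 * s) * (m0 + m1 * s) ^ d = Polynomial.aeval s p := by
    rw [hp]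
    simp only [map_mul, map_add, map_pow, Polynomial.aeval_C, Polynomial.aeval_X]
    rfl
  have hlin : ∀ a b : A, (Polynomial.C a + Polynomial.C b * Polynomial.X).natDegree ≤ 1 := by
    intro a b
    refine (Polynomial.natDegree_add_le _ _).trans (max_le ?_ ?_)
    · simp
    · exact (Polynomial.natDegree_C_mul_le _ _).trans Polynomial.natDegree_X_le
  have h2 : p.natDegree < d + 2 := by
    have : p.natDegree ≤ 1 + d * 1 := by
      rw [hp]
      refine Polynomial.natDegree_mul_le.trans (add_le_add (hlin _ _) ?_)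
      exact Polynomial.natDegree_pow_le.trans (Nat.mul_le_mul_left _ (hlin _ _))
    omega
  rw [h1, hiter, Polynomial.iterate_derivative_eq_zero h2, map_zero]

end Ctx3
end Pool.Agent.HDP
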