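import Mathlib
import Pool.Agent.Lib.MP_20906e_al.Defs
import Pool.Agent.Lib.MP_20906e_al.Ctx
import Pool.Agent.Lib.MP_20906e_al.CtxN
import Pool.Agent.Lib.MP_20906e_al.Acl
import Pool.Agent.Lib.MP_20906e_al.Der
import Pool.Agent.Lib.MP_20906e_al.B2a
import Pool.Agent.Lib.MP_20906e_al.B2b
import Pool.Agent.Lib.MP_20906e_al.B3
import Pool.Agent.Lib.MP_20906e_al.N1

/-!
# MP_20906e_al, piece N2: the case `G = 0`, `S(x,x) = 0` (helper87)

Everything except the use of `no_Z3` (B4), which is a hypothesis of `case_II2_of`.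
-/

set_option linter.unusedSectionVars false
set_option linter.unusedVariables false

namespace Pool.Agent.HDP
open MvPolynomial

namespace N2

variable {k Ω : Type*} [Field k] [Field Ω] [Algebra k Ω]

theorem pd_comm {σ : Type*} (i j : σ) (F : MvPolynomial σ k) :
    pderiv j (pderiv i F) = pderiv i (pderiv j F) := by
  classical
  induction F using MvPolynomial.induction_on with
  | C a => simp
  | add p q hp hq => simp [hp, hq]
  | mul_X p l hp =>
    simp only [Derivation.leibniz, smul_eq_mul, map_add, pderiv_X, hp]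
    have h1 : ∀ a b : σ, pderiv a ((Pi.single b 1 : σ → MvPolynomial σ k) l) = 0 := by
      intro a b
      by_cases h : l = b
      · subst h; simp
      · simp [Pi.single_eq_of_ne h]
    rw [h1, h1]
    ring

variable (y : Fin 4 → Ω)

/-- iterated directional derivatives at `y` -/
noncomputable def T0 (F : MvPolynomial (Fin 4) k) : Ω := aeval y F
noncomputable def T1 (F : MvPolynomial (Fin 4) k) (a : Fin 4 → Ω) : Ω :=
  ∑ i, T0 y (pderiv i F) * a i
noncomputable def T2 (F : MvPolynomial (Fin 4) k) (a b : Fin 4 → Ω) : Ω :=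
  ∑ i, T1 y (pderiv i F) b * a i
noncomputable def T3 (F : MvPolynomial (Fin 4) k) (a b c : Fin 4 → Ω) : Ω :=
  ∑ i, T2 y (pderiv i F) b c * a i
noncomputable def T4 (F : MvPolynomial (Fin 4) k) (a b c d : Fin 4 → Ω) : Ω :=
  ∑ i, T3 y (pderiv i F) b c d * a i

variable (F : MvPolynomial (Fin 4) k)

theorem T1_lin (s t : Ω) (v w : Fin 4 → Ω) :
    T1 y F (fun i => s * v i + t * w i) = s * T1 y F v + t * T1 y F w := by
  unfold T1
  rw [Finset.mul_sum, Finset.mul_sum, ← Finset.sum_add_distrib]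
  exact Finset.sum_congr rfl fun i _ => by ring

theorem T2_lin (a : Fin 4 → Ω) (s t : Ω) (v w : Fin 4 → Ω) :
    T2 y F a (fun i => s * v i + t * w i) = s * T2 y F a v + t * T2 y F a w := by
  unfold T2
  rw [Finset.mul_sum, Finset.mul_sum, ← Finset.sum_add_distrib]
  exact Finset.sum_congr rfl fun i _ => by rw [T1_lin]; ring

theorem T3_lin (a b : Fin 4 → Ω) (s t : Ω) (v w : Fin 4 → Ω) :
    T3 y F a b (fun i => s * v i + t * w i) = s * T3 y F a b v + t * T3 y F a b w := by
  unfold T3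
  rw [Finset.mul_sum, Finset.mul_sum, ← Finset.sum_add_distrib]
  exact Finset.sum_congr rfl fun i _ => by rw [T2_lin]; ring

theorem T4_lin (a b c : Fin 4 → Ω) (s t : Ω) (v w : Fin 4 → Ω) :
    T4 y F a b c (fun i => s * v i + t * w i) = s * T4 y F a b c v + t * T4 y F a b c w := by
  unfold T4
  rw [Finset.mul_sum, Finset.mul_sum, ← Finset.sum_add_distrib]
  exact Finset.sum_congr rfl fun i _ => by rw [T3_lin]; ring

theorem T2_symm (a b : Fin 4 → Ω) : T2 y F a b = T2 y F b a := by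
  unfold T2 T1
  simp only [Finset.sum_mul]
  rw [Finset.sum_comm]
  refine Finset.sum_congr rfl fun i _ => Finset.sum_congr rfl fun j _ => ?_
  rw [pd_comm]
  ring

theorem T3_symm1 (a b c : Fin 4 → Ω) : T3 y F a b c = T3 y F a c b := by
  unfold T3
  refine Finset.sum_congr rfl fun i _ => ?_
  rw [T2_symm]

theorem T3_symm2 (a b c : Fin 4 → Ω) : T3 y F a b c = T3 y F b a c := by
  unfold T3 T2
  simp only [Finset.sum_mul]
  rw [Finset.sum_comm]
  refine Finset.sum_congr rfl fun i _ => Finset.sum_congr rfl fun j _ => ?_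
  rw [pd_comm]
  ring

theorem T4_symm1 (a b c d : Fin 4 → Ω) : T4 y F a b c d = T4 y F a b d c := by
  unfold T4
  refine Finset.sum_congr rfl fun i _ => ?_
  rw [T3_symm1]

theorem T4_symm2 (a b c d : Fin 4 → Ω) : T4 y F a b c d = T4 y F a c b d := by
  unfold T4
  refine Finset.sum_congr rfl fun i _ => ?_
  rw [T3_symm2]

theorem T4_symm3 (a b c d : Fin 4 → Ω) : T4 y F a b c d = T4 y F b a c d := by
  unfold T4 T3
  simp only [Finset.sum_mul]
  rw [Finset.sum_comm]
  refine Finset.sum_congr rfl fun i _ => Finset.sum_congr rfl fun j _ => ?_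
  rw [pd_comm]
  ring

variable {F}

theorem T1_y {n : ℕ} (hF : F.IsHomogeneous n) : T1 y F y = (n : Ω) * T0 y F := by
  unfold T1 T0
  have h := congrArg (aeval y) hF.sum_X_mul_pderiv
  rw [map_sum, nsmul_eq_mul, map_mul, map_natCast] at h
  rw [← h]
  refine Finset.sum_congr rfl fun j _ => ?_
  rw [map_mul, aeval_X, mul_comm]

theorem T2_y {n : ℕ} (hF : F.IsHomogeneous n) (a : Fin 4 → Ω) :
    T2 y F a y = ((n - 1 : ℕ) : Ω) * T1 y F a := by
  unfold T2 T1
  rw [Finset.mul_sum]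
  refine Finset.sum_congr rfl fun i _ => ?_
  have := T1_y y (hF.pderiv (i := i))
  unfold T1 at this
  rw [this]
  ring

theorem T3_y {n : ℕ} (hF : F.IsHomogeneous n) (a b : Fin 4 → Ω) :
    T3 y F a b y = ((n - 1 - 1 : ℕ) : Ω) * T2 y F a b := by
  unfold T3
  rw [T2, Finset.mul_sum]
  refine Finset.sum_congr rfl fun i _ => ?_
  rw [T2_y y (hF.pderiv (i := i))]
  ring

theorem T4_y {n : ℕ} (hF : F.IsHomogeneous n) (a b c : Fin 4 → Ω) :
    T4 y F a b c y = ((n - 1 - 1 - 1 : ℕ) : Ω) * T3 y F a b c := by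
  unfold T4
  rw [T3, Finset.mul_sum]
  refine Finset.sum_congr rfl fun i _ => ?_
  rw [T3_y y (hF.pderiv (i := i))]
  ring

variable (F)
variable (D : Derivation k Ω Ω)

theorem D_T0 : D (T0 y F) = T1 y F (fun i => D (y i)) := by
  unfold T1 T0
  rw [der_aeval]

theorem D_T1 (a : Fin 4 → Ω) :
    D (T1 y F a) = T2 y F a (fun i => D (y i)) + T1 y F (fun i => D (a i)) := by
  unfold T2
  rw [T1, T1, map_sum, ← Finset.sum_add_distrib]
  refine Finset.sum_congr rfl fun i _ => ?_
  rw [Derivation.leibniz, D_T0, smul_eq_mul, smul_eq_mul]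
  ring

theorem D_T2 (a b : Fin 4 → Ω) :
    D (T2 y F a b) = T3 y F a b (fun i => D (y i)) + T2 y F (fun i => D (a i)) b
      + T2 y F a (fun i => D (b i)) := by
  unfold T3
  rw [T2, T2, T2, map_sum, ← Finset.sum_add_distrib, ← Finset.sum_add_distrib]
  refine Finset.sum_congr rfl fun i _ => ?_
  rw [Derivation.leibniz, D_T1, smul_eq_mul, smul_eq_mul]
  ring

theorem D_T3 (a b c : Fin 4 → Ω) :
    D (T3 y F a b c) = T4 y F a b c (fun i => D (y i)) + T3 y F (fun i => D (a i)) b c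
      + T3 y F a (fun i => D (b i)) c + T3 y F a b (fun i => D (c i)) := by
  unfold T4
  rw [T3, T3, T3, T3, map_sum, ← Finset.sum_add_distrib, ← Finset.sum_add_distrib,
    ← Finset.sum_add_distrib]
  refine Finset.sum_congr rfl fun i _ => ?_
  rw [Derivation.leibniz, D_T2, smul_eq_mul, smul_eq_mul]
  ring

theorem T1_zero : T1 y F (fun _ => 0) = 0 := by
  unfold T1; simp

theorem T2_zero (a : Fin 4 → Ω) : T2 y F a (fun _ => 0) = 0 := by
  unfold T2; simp [T1_zero]

theorem T3_zero (a b : Fin 4 → Ω) : T3 y F a b (fun _ => 0) = 0 := by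
  unfold T3; simp [T2_zero]

theorem T4_zero (a b c : Fin 4 → Ω) : T4 y F a b c (fun _ => 0) = 0 := by
  unfold T4; simp [T3_zero]

/-- a derivation killing the `y i` -/
theorem W_T0 (hD : ∀ i, D (y i) = 0) : D (T0 y F) = 0 := by
  rw [D_T0]
  simp only [hD, T1_zero]

theorem W_T1 (hD : ∀ i, D (y i) = 0) (a : Fin 4 → Ω) : D (T1 y F a) = T1 y F (fun i => D (a i)) := by
  rw [D_T1]
  simp only [hD, T2_zero, zero_add]

theorem W_T2 (hD : ∀ i, D (y i) = 0) (a b : Fin 4 → Ω) :
    D (T2 y F a b) = T2 y F (fun i => D (a i)) b + T2 y F a (fun i => D (b i)) := by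
  rw [D_T2]
  simp only [hD, T3_zero, zero_add]

theorem W_T3 (hD : ∀ i, D (y i) = 0) (a b c : Fin 4 → Ω) :
    D (T3 y F a b c) = T3 y F (fun i => D (a i)) b c
      + T3 y F a (fun i => D (b i)) c + T3 y F a b (fun i => D (c i)) := by
  rw [D_T3]
  simp only [hD, T4_zero, zero_add]

theorem W_T4 (hD : ∀ i, D (y i) = 0) (a b c d : Fin 4 → Ω) :
    D (T4 y F a b c d) = T4 y F (fun i => D (a i)) b c d + T4 y F a (fun i => D (b i)) c d
      + T4 y F a b (fun i => D (c i)) d + T4 y F a b c (fun i => D (d i)) := by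
  rw [T4, T4, T4, T4, T4, map_sum, ← Finset.sum_add_distrib, ← Finset.sum_add_distrib,
    ← Finset.sum_add_distrib]
  refine Finset.sum_congr rfl fun i _ => ?_
  rw [Derivation.leibniz, W_T3 _ _ _ hD, smul_eq_mul, smul_eq_mul]
  ring

/-- three independent vectors in a hyperplane of `K^4` span it -/
theorem span3 {K : Type*} [Field K] {u a b c : Fin 4 → K} (hu : ∃ i, u i ≠ 0)
    (ha : ∑ i, u i * a i = 0) (hb : ∑ i, u i * b i = 0) (hc : ∑ i, u i * c i = 0)
    (hind : LinearIndependent K ![a, b, c]) (v : Fin 4 → K) (hv : ∑ i, u i * v i = 0) :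
    ∃ p q r : K, ∀ i, v i = p * a i + q * b i + r * c i := by
  classical
  let f : (Fin 4 → K) →ₗ[K] K := ∑ i, u i • LinearMap.proj i
  have hf : ∀ z, f z = ∑ i, u i * z i := by
    intro z
    simp [f, LinearMap.sum_apply]
  have hsurj : LinearMap.range f = ⊤ := by
    obtain ⟨i, hi⟩ := hu
    rw [LinearMap.range_eq_top]
    intro t
    refine ⟨fun j => if j = i then t / u i else 0, ?_⟩
    rw [hf, Finset.sum_eq_single i]
    · rw [if_pos rfl]; field_simp
    · intro j _ hj; rw [if_neg hj, mul_zero]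
    · simp
  have hker : Module.finrank K (LinearMap.ker f) = 3 := by
    have h1 := LinearMap.finrank_range_add_finrank_ker f
    rw [hsurj, finrank_top, Module.finrank_self] at h1
    simp only [Module.finrank_fintype_fun_eq_card, Fintype.card_fin] at h1
    omega
  have hmem : ∀ z, ∑ i, u i * z i = 0 → z ∈ LinearMap.ker f := fun z hz => by
    rw [LinearMap.mem_ker, hf, hz]
  let w : Fin 3 → LinearMap.ker f := ![⟨a, hmem a ha⟩, ⟨b, hmem b hb⟩, ⟨c, hmem c hc⟩]
  have hw : LinearIndependent K w := by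
    apply LinearIndependent.of_comp (LinearMap.ker f).subtype
    have : (LinearMap.ker f).subtype ∘ w = ![a, b, c] := by
      funext i
      fin_cases i <;> rfl
    rw [this]
    exact hind
  have hspan := hw.span_eq_top_of_card_eq_finrank (by rw [hker]; simp)
  have hvv : (⟨v, hmem v hv⟩ : LinearMap.ker f) ∈ Submodule.span K (Set.range w) := by
    rw [hspan]; exact Submodule.mem_top
  rw [Submodule.mem_span_range_iff_exists_fun] at hvv
  obtain ⟨g, hg⟩ := hvv
  refine ⟨g 0, g 1, g 2, fun i => ?_⟩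
  have h2 := congrArg (fun z : LinearMap.ker f => (z : Fin 4 → K) i) hg
  simp only [Fin.sum_univ_three, Submodule.coe_add, Submodule.coe_smul, Pi.add_apply,
    Pi.smul_apply, smul_eq_mul, w, Matrix.cons_val_zero, Matrix.cons_val_one] at h2
  exact h2.symm

end N2

namespace Ctx3
variable {k Ω : Type*} [Field k] [IsAlgClosed k] [CharZero k] [Field Ω] [IsAlgClosed Ω] [Algebra k Ω]
  (c : Ctx3 k Ω)

open N2

theorem n2_Sf (v w : Fin 4 → Ω) : c.Sf v w = T2 c.y c.R v w := by
  unfold Sf T2 T1 T0 S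
  refine Finset.sum_congr rfl fun i _ => ?_
  rw [Finset.sum_mul]
  refine Finset.sum_congr rfl fun j _ => ?_
  ring

theorem n2_u (v : Fin 4 → Ω) : ∑ i, c.u i * v i = T1 c.y c.R v := rfl

theorem n2_Z3 (a b d : Fin 4 → Ω) :
    ∑ i, ∑ j, ∑ l, c.R3 i j l * a i * b j * d l = T3 c.y c.R a b d := by
  unfold T3 T2 T1 T0 R3
  refine Finset.sum_congr rfl fun i _ => ?_
  rw [Finset.sum_mul]
  refine Finset.sum_congr rfl fun j _ => ?_
  rw [Finset.sum_mul, Finset.sum_mul]
  refine Finset.sum_congr rfl fun l _ => ?_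
  ring

theorem n2_y_ne : ∃ j, c.y j ≠ 0 := by
  obtain ⟨y', hy', hyl, -⟩ := c.exists_three
  obtain ⟨l, hl⟩ := hyl 0
  exact ⟨l, by rw [← hl]; exact hy'.ne_zero 0⟩

/-- the radical over `Ω` -/
theorem n2_radical (h : ¬ c.Dev) (v : Fin 4 → Ω) (huv : T1 c.y c.R v = 0)
    (hS : ∀ v' : Fin 4 → Ω, (∀ i, v' i ∈ c.L) → T1 c.y c.R v' = 0 → T2 c.y c.R v v' = 0) :
    ∃ e : Ω, ∀ i, v i = e * c.y i := by
  classical
  obtain ⟨j, hj⟩ := c.n2_y_ne
  refine ⟨v j / c.y j, ?_⟩
  by_contra hcon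
  push Not at hcon
  obtain ⟨m, hm⟩ := hcon
  -- normalised vector
  set e := v j / c.y j with he
  set t := v m - e * c.y m with ht
  have ht0 : t ≠ 0 := sub_ne_zero.2 hm
  let z : Fin 4 → Ω := fun i => t⁻¹ * v i + (-(t⁻¹ * e)) * c.y i
  have hzj : z j = 0 := by
    simp only [z, he]
    field_simp
    ring
  have hzm : z m = 1 := by
    have : z m = t⁻¹ * t := by simp only [z, ht]; ring
    rw [this, inv_mul_cancel₀ ht0]
  have huy : T1 c.y c.R c.y = 0 := c.u_y
  have hSy : ∀ a : Fin 4 → Ω, T1 c.y c.R a = 0 → T2 c.y c.R a c.y = 0 := by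
    intro a ha
    rw [T2_y c.y c.Rhom, ha, mul_zero]
  have huz : T1 c.y c.R z = 0 := by
    simp only [z]
    rw [T1_lin, huv, huy]; ring
  have hSz : ∀ v' : Fin 4 → Ω, (∀ i, v' i ∈ c.L) → T1 c.y c.R v' = 0 → T2 c.y c.R z v' = 0 := by
    intro v' hv' hv'0
    rw [T2_symm]
    simp only [z]
    rw [T2_lin, T2_symm c.y c.R v' v, hS v' hv' hv'0, hSy v' hv'0]
    ring
  -- the retraction
  obtain ⟨φ, hφ⟩ := (Algebra.linearMap c.L Ω).exists_leftInverse_of_injective
    (LinearMap.ker_eq_bot.2 (algebraMap c.L Ω).injective)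
  have hφ1 : φ 1 = 1 := by
    have := LinearMap.congr_fun hφ 1
    simpa using this
  have hφs : ∀ (a b : Ω), a ∈ c.L → ((φ (a * b) : c.L) : Ω) = a * (φ b : c.L) := by
    intro a b ha
    have h1 : a * b = (⟨a, ha⟩ : c.L) • b := rfl
    rw [h1, map_smul]
    rfl
  let z' : Fin 4 → Ω := fun i => ((φ (z i) : c.L) : Ω)
  have hz'L : ∀ i, z' i ∈ c.L := fun i => (φ (z i)).2
  have hlin : ∀ a : Fin 4 → Ω, (∀ i, a i ∈ c.L) → ∑ i, a i * z i = 0 → ∑ i, a i * z' i = 0 := by
    intro a ha h0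
    have h1 : ((φ (∑ i, a i * z i) : c.L) : Ω) = ∑ i, a i * z' i := by
      rw [map_sum]
      push_cast
      exact Finset.sum_congr rfl fun i _ => hφs _ _ (ha i)
    rw [← h1, h0, map_zero]
    rfl
  have huz' : ∑ i, c.u i * z' i = 0 := hlin c.u c.u_mem huz
  have hSz' : ∀ v' : Fin 4 → Ω, (∀ i, v' i ∈ c.L) → ∑ i, c.u i * v' i = 0 → c.Sf z' v' = 0 := by
    intro v' hv' hv'0
    have h1 := hSz v' hv' hv'0
    have h2 : ∀ w : Fin 4 → Ω, T2 c.y c.R w v' = ∑ i, T1 c.y (pderiv i c.R) v' * w i := fun w => rfl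
    rw [n2_Sf, h2]
    rw [h2] at h1
    refine hlin _ ?_ h1
    intro i
    refine sum_mem fun l _ => mul_mem ?_ (hv' l)
    exact c.S_mem i l
  obtain ⟨e', he'⟩ := c.nondev_radical h z' hz'L huz' hSz'
  have h3 : z' j = 0 := by
    simp only [z', hzj, map_zero]
    rfl
  have h4 : z' m = 1 := by
    simp only [z', hzm, hφ1]
    rfl
  rw [he' j] at h3
  rcases mul_eq_zero.1 h3 with h5 | h5
  · rw [he' m, h5, zero_mul] at h4
    exact zero_ne_one h4
  · exact hj h5

/-- an isotropic vector is not orthogonal to a third direction -/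
theorem n2_key (h : ¬ c.Dev) {j m : Fin 4} (hj : c.y j ≠ 0) {β w : Fin 4 → Ω} (hβj : β j = 0)
    (hβm : β m = 1) (huβ : T1 c.y c.R β = 0) (hβ : T2 c.y c.R β β = 0) (hwj : w j = 0)
    (hwm : w m = 0) (huw : T1 c.y c.R w = 0) (hw : T2 c.y c.R β w = 0) : ∀ i, w i = 0 := by
  by_contra hcon
  push Not at hcon
  obtain ⟨l, hl⟩ := hcon
  have hind : LinearIndependent Ω ![c.y, β, w] := by
    rw [Fintype.linearIndependent_iff]
    intro g hg
    simp only [Fin.sum_univ_three, Matrix.cons_val_zero, Matrix.cons_val_one, Matrix.cons_val] at hg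
    have h0 : g 0 = 0 := by
      have := congrFun hg j
      simp only [Pi.add_apply, Pi.smul_apply, smul_eq_mul, hβj, hwj, mul_zero, add_zero,
        Pi.zero_apply] at this
      exact (mul_eq_zero.1 this).resolve_right hj
    have h1 : g 1 = 0 := by
      have := congrFun hg m
      simp only [Pi.add_apply, Pi.smul_apply, smul_eq_mul, h0, hβm, hwm, mul_zero, add_zero,
        zero_mul, zero_add, mul_one, Pi.zero_apply] at this
      exact this
    have h2 : g 2 = 0 := by
      have := congrFun hg l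
      simp only [Pi.add_apply, Pi.smul_apply, smul_eq_mul, h0, h1,
        zero_mul, zero_add, Pi.zero_apply] at this
      exact (mul_eq_zero.1 this).resolve_right hl
    intro i
    fin_cases i
    · exact h0
    · exact h1
    · exact h2
  obtain ⟨e, he⟩ := c.n2_radical h β huβ (by
    intro v' _ hv'
    obtain ⟨p, q, r, hpqr⟩ := span3 c.u_ne c.u_y huβ huw hind v' hv'
    have h1 : v' = fun i => 1 * (fun i => p * c.y i + q * β i) i + r * w i := by
      funext i
      rw [hpqr i]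
      ring
    rw [h1, T2_lin, T2_lin, T2_y c.y c.Rhom, huβ, hβ, hw]
    ring)
  have h1 := he j
  rw [hβj] at h1
  rcases mul_eq_zero.1 h1.symm with h2 | h2
  · have h3 := he m
    rw [hβm, h2, zero_mul] at h3
    exact one_ne_zero h3
  · exact hj h2

/-- `T4` chain: `W(Z4) ≠ 0` when `G = Z2 = Z3 = 0` -/
theorem n2_chain (hG : T1 c.y c.R c.x = 0) (hZ2 : T2 c.y c.R c.x c.x = 0)
    (hZ3 : T3 c.y c.R c.x c.x c.x = 0) : T4 c.y c.R c.x c.x c.x c.x ≠ 0 := by
  intro h4
  set x := c.x with hx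
  set R := c.R with hR
  set y := c.y with hy
  have hWx : (fun i => c.W (x i)) = fun i => c.V2 (y i) := funext c.Wx
  have hV2x : (fun i => c.V2 (x i)) = fun i => c.V1 (y i) := funext c.V2x
  have hV1x : (fun i => c.V1 (x i)) = fun i => c.Z0 (y i) := funext c.V1x
  have e4 := W_T4 y R c.W c.Wy x x x x
  rw [h4, map_zero, hWx] at e4
  have s1 : T4 y R (fun i => c.V2 (y i)) x x x = T4 y R x x x (fun i => c.V2 (y i)) := by
    rw [T4_symm3, T4_symm2, T4_symm1]
  have s2 : T4 y R x (fun i => c.V2 (y i)) x x = T4 y R x x x (fun i => c.V2 (y i)) := by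
    rw [T4_symm2, T4_symm1]
  have s3 : T4 y R x x (fun i => c.V2 (y i)) x = T4 y R x x x (fun i => c.V2 (y i)) := by
    rw [T4_symm1]
  rw [s1, s2, s3] at e4
  have e3 := D_T3 y R c.V2 x x x
  rw [hZ3, map_zero, hV2x] at e3
  have t1 : T3 y R (fun i => c.V1 (y i)) x x = T3 y R x x (fun i => c.V1 (y i)) := by
    rw [T3_symm2, T3_symm1]
  have t2 : T3 y R x (fun i => c.V1 (y i)) x = T3 y R x x (fun i => c.V1 (y i)) := by
    rw [T3_symm1]
  rw [t1, t2] at e3
  have e2 := D_T2 y R c.V1 x x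
  rw [hZ2, map_zero, hV1x] at e2
  have r1 : T2 y R (fun i => c.Z0 (y i)) x = T2 y R x (fun i => c.Z0 (y i)) := by
    rw [T2_symm]
  rw [r1] at e2
  have e1 := D_T1 y R c.Z0 x
  rw [hG, map_zero] at e1
  have h0 : T1 y R (fun i => c.Z0 (x i)) ≠ 0 := c.uZ0_ne
  apply h0
  have hc : CharZero Ω := charZero_of_injective_algebraMap (algebraMap k Ω).injective
  have k4 : T4 y R x x x (fun i => c.V2 (y i)) = 0 := by
    have : (4 : Ω) * T4 y R x x x (fun i => c.V2 (y i)) = 0 := by linear_combination -e4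
    exact (mul_eq_zero.1 this).resolve_left (by norm_num)
  have k3 : T3 y R x x (fun i => c.V1 (y i)) = 0 := by
    have : (3 : Ω) * T3 y R x x (fun i => c.V1 (y i)) = 0 := by linear_combination -e3 - k4
    exact (mul_eq_zero.1 this).resolve_left (by norm_num)
  have k2 : T2 y R x (fun i => c.Z0 (y i)) = 0 := by
    have : (2 : Ω) * T2 y R x (fun i => c.Z0 (y i)) = 0 := by linear_combination -e2 - k3
    exact (mul_eq_zero.1 this).resolve_left (by norm_num)
  linear_combination -e1 - k2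

/-- `Z3 ∈ L` when `G = Z2 = 0` -/
theorem n2_Z3_mem (hG : T1 c.y c.R c.x = 0) (hZ2 : T2 c.y c.R c.x c.x = 0) :
    T3 c.y c.R c.x c.x c.x ∈ c.L := by
  rw [mem_L_iff]
  set x := c.x with hx
  set R := c.R with hR
  set y := c.y with hy
  have hWx : (fun i => c.W (x i)) = fun i => c.V2 (y i) := funext c.Wx
  have hV2x : (fun i => c.V2 (x i)) = fun i => c.V1 (y i) := funext c.V2x
  have hV1x : (fun i => c.V1 (x i)) = fun i => c.Z0 (y i) := funext c.V1x
  rw [W_T3 y R c.W c.Wy, hWx]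
  have t1 : T3 y R (fun i => c.V2 (y i)) x x = T3 y R x x (fun i => c.V2 (y i)) := by
    rw [T3_symm2, T3_symm1]
  have t2 : T3 y R x (fun i => c.V2 (y i)) x = T3 y R x x (fun i => c.V2 (y i)) := by
    rw [T3_symm1]
  rw [t1, t2]
  have e2 := D_T2 y R c.V2 x x
  rw [hZ2, map_zero, hV2x] at e2
  have r1 : T2 y R (fun i => c.V1 (y i)) x = T2 y R x (fun i => c.V1 (y i)) := by
    rw [T2_symm]
  rw [r1] at e2
  have e1 := D_T1 y R c.V1 x
  rw [hG, map_zero, hV1x] at e1
  have h0 : T1 y R (fun i => c.Z0 (y i)) = 0 := c.u_D c.Z0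
  linear_combination (-3) * e2 + 6 * (e1 + h0)

/-- direction of a line over `L` -/
theorem n2_dir {s : Ω} {w : Fin 4 → Ω} (hw : ∀ i, w i ∈ c.L) (hx : ∀ i, c.x i = s * c.y i + w i)
    {V : ValuationSubring Ω} {b : Fin 4 → Ω} {i0 : Fin 4} (hb : c.IsDir V b i0) :
    ∃ e : Ω, ∀ i, b i = e * c.y i := by
  have hx0 : c.x i0 ≠ 0 := c.b3_x0_ne hb
  have h1 : ∀ i, b i * c.y i0 = c.y i := by
    intro i
    have hL : b i * c.y i0 - c.y i ∈ c.L :=
      sub_mem (mul_mem (hb.mem i) (c.y_mem i0)) (c.y_mem i)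
    rw [← sub_eq_zero]
    refine c.b3_L_zero hb.place hL ?_
    have h2 : b i * c.y i0 - c.y i = (c.x i0)⁻¹ * (w i * c.y i0 - w i0 * c.y i)
        - ((c.x i0)⁻¹ * c.x i - b i) * c.y i0 := by
      have h3 : w i = c.x i - s * c.y i := by rw [hx i]; ring
      have h4 : w i0 = c.x i0 - s * c.y i0 := by rw [hx i0]; ring
      rw [h3, h4]
      field_simp
      ring
    rw [h2]
    refine Valuation.map_sub_lt _ ?_ ?_
    · rw [map_mul]
      refine mul_lt_one_of_lt_of_le (c.b3_inv_lt hb) ?_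
      refine (V.valuation_le_one_iff _).2 (hb.place _ ?_)
      exact sub_mem (mul_mem (hw i) (c.y_mem i0)) (mul_mem (hw i0) (c.y_mem i))
    · rw [map_mul]
      refine mul_lt_one_of_lt_of_le (c.b3_res hb i) ?_
      exact (V.valuation_le_one_iff _).2 (hb.place _ (c.y_mem i0))
  have hy0 : c.y i0 ≠ 0 := by
    intro h0
    obtain ⟨j, hj⟩ := c.n2_y_ne
    apply hj
    rw [← h1 j, h0, mul_zero]
  refine ⟨(c.y i0)⁻¹, fun i => ?_⟩
  rw [← h1 i]
  field_simp

/-! ## N2: the case `G = 0`, `Z2 = 0`, modulo `no_Z3` of B4 -/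
theorem case_II2_of (hno : (∑ i, ∑ j, c.S i j * c.x i * c.x j = 0) →
    (∑ i, ∑ j, ∑ l, c.R3 i j l * c.x i * c.x j * c.x l ≠ 0) →
    ∀ {V : ValuationSubring Ω} {b : Fin 4 → Ω} {i0 : Fin 4}, c.IsDir V b i0 →
      (∃ e : Ω, ∀ i, b i = e * c.y i) → False)
    (h : ¬ c.Dev) (hG : c.G = 0) (hZ : c.Sf c.x c.x = 0) : False := by
  classical
  have hZsum : ∑ i, ∑ j, c.S i j * c.x i * c.x j = 0 := hZ
  rw [n2_Sf] at hZ
  have hG' : T1 c.y c.R c.x = 0 := hG
  obtain ⟨j, hj⟩ := c.n2_y_ne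
  have huy : T1 c.y c.R c.y = 0 := c.u_y
  set s := c.x j / c.y j with hs
  -- `x` is not parallel to `y`
  have hnp : ∃ m, c.x m - s * c.y m ≠ 0 := by
    by_contra hcon
    push Not at hcon
    have hxs : c.x = fun i => s * c.y i := funext fun i => sub_eq_zero.1 (hcon i)
    have h1 : c.y j = s ^ c.d * aeval c.y (c.H j) := by
      rw [← b3_aeval_hom (c.nil.hom j), ← hxs]
      exact c.hy j
    have h2 : aeval c.y (c.H j) ≠ 0 := by
      intro h0
      rw [h0, mul_zero] at h1
      exact hj h1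
    have h3 : s ^ c.d ∈ c.L := by
      have h4 : s ^ c.d = c.y j / aeval c.y (c.H j) := by
        rw [eq_div_iff h2]; exact h1.symm
      rw [h4]
      exact div_mem (c.y_mem j) (b3_aeval_acl _ _ c.y_mem)
    have h4 : s ∈ c.L := mem_acl_of_pow (by have := c.hd; omega) h3
    refine c.not_algInd_four c.x ?_ c.tb.1
    intro i
    rw [hxs]
    exact mul_mem h4 (c.y_mem i)
  obtain ⟨m, hm⟩ := hnp
  set a := c.x m - s * c.y m with ha
  -- the isotropic direction
  let β : Fin 4 → Ω := fun i => a⁻¹ * c.x i + (-(a⁻¹ * s)) * c.y i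
  have hβj : β j = 0 := by
    simp only [β, hs]
    field_simp
    ring
  have hβm : β m = 1 := by
    have : β m = a⁻¹ * a := by simp only [β, ha]; ring
    rw [this, inv_mul_cancel₀ hm]
  have hxβ : c.x = fun i => s * c.y i + a * β i := by
    funext i
    simp only [β]
    field_simp
    ring
  have huβ : T1 c.y c.R β = 0 := by
    simp only [β]
    rw [T1_lin, hG', huy]
    ring
  have hT2y : ∀ v, T1 c.y c.R v = 0 → T2 c.y c.R v c.y = 0 := fun v hv => by
    rw [T2_y c.y c.Rhom, hv, mul_zero]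
  have hxβ2 : T2 c.y c.R c.x β = 0 := by
    simp only [β]
    rw [T2_lin, hZ, hT2y _ hG']
    ring
  have hββ : T2 c.y c.R β β = 0 := by
    have h1 : T2 c.y c.R β β = T2 c.y c.R β (fun i => a⁻¹ * c.x i + (-(a⁻¹ * s)) * c.y i) := rfl
    rw [h1, T2_lin, T2_symm c.y c.R β c.x, hxβ2, hT2y _ huβ]
    ring
  -- it is defined over `L`
  have hβL : ∀ i, β i ∈ c.L := by
    intro i
    rw [mem_L_iff]
    refine c.n2_key h hj hβj hβm huβ hββ (w := fun i => c.W (β i)) ?_ ?_ ?_ ?_ i
    · rw [hβj, map_zero]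
    · rw [hβm, Derivation.map_one_eq_zero]
    · rw [← W_T1 c.y c.R c.W c.Wy, huβ, map_zero]
    · have h1 := W_T2 c.y c.R c.W c.Wy β β
      rw [hββ, map_zero, T2_symm c.y c.R (fun i => c.W (β i)) β] at h1
      have hc : CharZero Ω := charZero_of_injective_algebraMap (algebraMap k Ω).injective
      have h2 : (2 : Ω) * T2 c.y c.R β (fun i => c.W (β i)) = 0 := by linear_combination -h1
      exact (mul_eq_zero.1 h2).resolve_left (by norm_num)
  -- third order
  have hT3y : ∀ v w, T2 c.y c.R v w = 0 → T3 c.y c.R v w c.y = 0 := fun v w hv => by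
    rw [T3_y c.y c.Rhom, hv, mul_zero]
  have hT3x : ∀ v w, T2 c.y c.R v w = 0 → T3 c.y c.R v w c.x = a * T3 c.y c.R v w β := by
    intro v w hv
    have h1 : T3 c.y c.R v w c.x = T3 c.y c.R v w (fun i => s * c.y i + a * β i) := by
      rw [← hxβ]
    rw [h1, T3_lin, hT3y v w hv]
    ring
  have hZ3 : T3 c.y c.R c.x c.x c.x = a ^ 3 * T3 c.y c.R β β β := by
    rw [hT3x _ _ hZ, T3_symm1, hT3x _ _ hxβ2, T3_symm2, T3_symm1, hT3x _ _ hββ]
    ring
  by_cases hR3 : T3 c.y c.R β β β = 0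
  · -- fourth order
    have hz3 : T3 c.y c.R c.x c.x c.x = 0 := by rw [hZ3, hR3, mul_zero]
    have hxββ : T3 c.y c.R c.x β β = 0 := by
      rw [T3_symm2, T3_symm1, hT3x _ _ hββ, hR3, mul_zero]
    have hxxβ : T3 c.y c.R c.x c.x β = 0 := by
      rw [T3_symm1, hT3x _ _ hxβ2, hxββ, mul_zero]
    have hT4y : ∀ u v w, T3 c.y c.R u v w = 0 → T4 c.y c.R u v w c.y = 0 := fun u v w hv => by
      rw [T4_y c.y c.Rhom, hv, mul_zero]
    have hT4x : ∀ u v w, T3 c.y c.R u v w = 0 →
        T4 c.y c.R u v w c.x = a * T4 c.y c.R u v w β := by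
      intro u v w hv
      have h1 : T4 c.y c.R u v w c.x = T4 c.y c.R u v w (fun i => s * c.y i + a * β i) := by
        rw [← hxβ]
      rw [h1, T4_lin, hT4y u v w hv]
      ring
    -- the derivation `δ`
    obtain ⟨δ, hδ, hδL⟩ := c.exists_der_y β huβ
    have hδy : (fun i => δ (c.y i)) = β := funext hδ
    let γ : Fin 4 → Ω := fun i => δ (β i)
    have huγ : T1 c.y c.R γ = 0 := by
      have h1 := D_T1 c.y c.R δ β
      rw [huβ, map_zero, hδy, hββ, zero_add] at h1
      exact h1.symm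
    have hSγ : T2 c.y c.R β γ = 0 := by
      have h1 := D_T2 c.y c.R δ β β
      rw [hββ, map_zero, hδy, hR3, zero_add, T2_symm c.y c.R (fun i => δ (β i)) β] at h1
      have hc : CharZero Ω := charZero_of_injective_algebraMap (algebraMap k Ω).injective
      have h2 : (2 : Ω) * T2 c.y c.R β γ = 0 := by linear_combination -h1
      exact (mul_eq_zero.1 h2).resolve_left (by norm_num)
    -- `γ = p y + q β`
    have hγ : T3 c.y c.R β β γ = 0 := by
      set p := γ j / c.y j with hp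
      set q := γ m - p * c.y m with hq
      have hw := c.n2_key h hj hβj hβm huβ hββ
        (w := fun i => 1 * γ i + (-1) * (fun i => p * c.y i + q * β i) i) (by
          beta_reduce
          rw [hβj, hp]
          field_simp
          ring) (by
          beta_reduce
          rw [hβm, hq]
          ring) (by
          rw [T1_lin, T1_lin, huγ, huy, huβ]
          ring) (by
          rw [T2_lin, T2_lin, hSγ, hT2y _ huβ, hββ]
          ring)
      have hγe : γ = fun i => p * c.y i + q * β i := by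
        funext i
        have := hw i
        beta_reduce at this
        linear_combination this
      rw [hγe, T3_lin, hT3y _ _ hββ, hR3]
      ring
    have hR4 : T4 c.y c.R β β β β = 0 := by
      have h1 := D_T3 c.y c.R δ β β β
      rw [hR3, map_zero, hδy] at h1
      have h2 : T3 c.y c.R (fun i => δ (β i)) β β = 0 := by
        rw [T3_symm2, T3_symm1]; exact hγ
      have h3 : T3 c.y c.R β (fun i => δ (β i)) β = 0 := by
        rw [T3_symm1]; exact hγ
      have h4 : T3 c.y c.R β β (fun i => δ (β i)) = 0 := hγ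
      rw [h2, h3, h4] at h1
      linear_combination -h1
    apply c.n2_chain hG' hZ hz3
    rw [hT4x _ _ _ hz3, T4_symm1, hT4x _ _ _ hxxβ, T4_symm1, T4_symm2, T4_symm1,
      hT4x _ _ _ hxββ, T4_symm3, T4_symm2, T4_symm1, hT4x _ _ _ hR3, hR4]
    ring
  · -- `a ∈ L`
    have hT3L : ∀ v : Fin 4 → Ω, (∀ i, v i ∈ c.L) → T3 c.y c.R v v v ∈ c.L := by
      intro v hv
      rw [← n2_Z3]
      refine sum_mem fun i _ => sum_mem fun j _ => sum_mem fun l _ => ?_
      exact mul_mem (mul_mem (mul_mem (c.R3_mem i j l) (hv i)) (hv j)) (hv l)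
    have ha3 : a ^ 3 ∈ c.L := by
      have h1 : a ^ 3 = T3 c.y c.R c.x c.x c.x / T3 c.y c.R β β β := by
        rw [hZ3]
        field_simp
      rw [h1]
      exact div_mem (c.n2_Z3_mem hG' hZ) (hT3L β hβL)
    have haL : a ∈ c.L := mem_acl_of_pow (by norm_num) ha3
    obtain ⟨V, hV, hi⟩ := c.exists_infinite
    obtain ⟨b, i0, hb⟩ := c.exists_dir V hV hi
    have hdir := c.n2_dir (s := s) (w := fun i => a * β i) (fun i => mul_mem haL (hβL i))
      (fun i => congrFun hxβ i) hb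
    refine hno hZsum ?_ hb hdir
    rw [n2_Z3, hZ3]
    exact mul_ne_zero (pow_ne_zero _ hm) hR3

end Ctx3
end Pool.Agent.HDP
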