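import Mathlib
import Pool.Agent.Lib.MP_20906e_al.N2a
import Pool.Agent.Lib.MP_20906e_al.B4

/-!
# MP_20906e_al, piece N2: the case `G = 0`, `S(x,x) = 0` (helper87)
-/

namespace Pool.Agent.HDP
open MvPolynomial

namespace Ctx3
variable {k Ω : Type*} [Field k] [IsAlgClosed k] [CharZero k] [Field Ω] [IsAlgClosed Ω] [Algebra k Ω]
  (c : Ctx3 k Ω)

/-! ## N2: the case `G = 0`, `Z2 = 0` -/
theorem case_II2 (h : ¬ c.Dev) (hG : c.G = 0) (hZ : c.Sf c.x c.x = 0) : False :=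
  c.case_II2_of (fun h1 h2 _ _ _ h3 h4 => c.no_Z3 hG h1 h2 h3 h4) h hG hZ

end Ctx3
end Pool.Agent.HDP
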